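import Pool.Agent.Strip051.LC.E0.Tab
import Pool.Agent.Strip051.LC.Exact.FamQ2

/-! # The tables for small rests are admissible -/

namespace Pool.Agent.Strip051.LC.E0

open Pool.Agent.StripNear Pool.Agent.StripSquare Pool.Agent.Strip051 Pool.Agent.Strip051.Sweep

/-- The explicit form of the conditions. -/
structure AdmX (v : ℝ → Fin 4 → ℝ) : Prop where
  one : ∀ T, 1 ≤ T → v T 0 = 0
  z1 : v 0 1 = v 0 0
  z2 : v 0 2 = v 0 0
  mid : v h0 1 = v h0 0
  top : ∀ T j, 0 ≤ T → T ^ 2 = 3 → v T j = 0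
  low : ∀ T, 0 < T → T < h0 / 2 → v T 1 = v T 0 + 1 / 3 * (v T 2 - v T 0)
  high : ∀ T, 3 * h0 / 2 ≤ T → T ^ 2 < 3 → v T 1 = v T 2 * (pos.cv 1 T / pos.cv 2 T)

theorem AdmX.lin {v w : ℝ → Fin 4 → ℝ} (hv : AdmX v) (hw : AdmX w) (a b : ℝ) :
    AdmX fun T j => a * v T j + b * w T j where
  one T h := by rw [hv.one T h, hw.one T h]; ring
  z1 := by rw [hv.z1, hw.z1]
  z2 := by rw [hv.z2, hw.z2]
  mid := by rw [hv.mid, hw.mid]
  top T j h h3 := by rw [hv.top T j h h3, hw.top T j h h3]; ring
  low T h h' := by rw [hv.low T h h', hw.low T h h']; ring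
  high T h h' := by rw [hv.high T h h', hw.high T h h']; ring

theorem not_real_one {T : ℝ} {j : Fin 4} (h : ¬pos.real j T) :
    j = 1 ∧ (T < h0 / 2 ∨ 3 * h0 / 2 ≤ T) := by
  have e : pos.real j T ↔ (j = 1 → h0 / 2 ≤ T ∧ T < 3 * h0 / 2) := Iff.rfl
  rw [e] at h
  push Not at h
  obtain ⟨h1, h2⟩ := h
  refine ⟨h1, ?_⟩
  rcases lt_or_ge T (h0 / 2) with h3 | h3
  · exact Or.inl h3
  · exact Or.inr (h2 h3)

theorem three_h0 {T : ℝ} (h : 3 * h0 / 2 ≤ T) : 1 < T := by
  have := h0_pos
  have := h0_sq'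
  nlinarith

theorem AdmX.adm {v : ℝ → Fin 4 → ℝ} (hv : AdmX v) : pos.Adm v := by
  have hh := h0_pos
  have h1 := h0_lt_one
  refine ⟨hv.one, fun j hj => ?_, fun j hj => ?_, hv.top, fun T j hT h3 hr => ?_⟩
  · rw [Q_low hh] at hj
    fin_cases j
    · rfl
    · exact hv.z1
    · exact hv.z2
    · exfalso
      have e : posL.ρ 3 = 2 := rfl
      simp only [Fin.reduceFinMk] at hj
      rw [e] at hj
      norm_num at hj
  · rw [Q_high le_rfl] at hj
    fin_cases j
    · rfl
    · exact hv.mid
    · exfalso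
      have e : posU.ρ 2 = 23 / 20 := rfl
      simp only [Fin.reduceFinMk] at hj
      rw [e] at hj
      norm_num at hj
    · exfalso
      have e : posU.ρ 3 = 2 := rfl
      simp only [Fin.reduceFinMk] at hj
      rw [e] at hj
      norm_num at hj
  · obtain ⟨rfl, h4⟩ := not_real_one hr
    have nd : ¬pos.dm 1 T := fun h => hr h.2
    rcases h4 with h4 | h4
    · have hlt : T < h0 := by linarith
      rcases hT.eq_or_lt with h5 | h5
      · subst h5
        refine PosQ.vir_eq (i := 0) le_rfl h3 (pos.dm_zero le_rfl one_pos) ?_ hv.z1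
        rw [cv_one_low hlt, pos.cv_zero]
        obtain ⟨-, s2, -⟩ := special (t := 0) (Or.inl rfl)
        rw [s2]
        ring
      · have hc : c1 T < Wc T := (W_between h5 hlt.ne h3).2.1
        refine PosQ.vir_between (i := 0) (k := 2) hT h3 (pos.dm_zero hT (by linarith))
          (dm_two.2 ⟨h3, fun _ => h5⟩) (fun l hl => ?_) (by decide) (by decide) ?_
        · fin_cases l
          · exact Or.inl (by decide)
          · exact absurd hl nd
          · exact Or.inr (by decide)
          · exact Or.inr (by decide)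
        · rw [hv.low T h5 h4, cv_one_low hlt, cv_two_low hlt, pos.cv_zero]
          have h6 : Wc T - c1 T ≠ 0 := by linarith
          field_simp
          ring
    · have hT1 := three_h0 h4
      have hge : h0 ≤ T := by linarith
      refine PosQ.vir_first (k := 2) hT1.le h3 (dm_two.2 ⟨h3, fun h => by linarith⟩)
        (fun l hl => ?_) (by decide) (hv.high T h4 h3)
      fin_cases l
      · exfalso
        have := (dm_zero.1 hl).1
        linarith
      · exact absurd hl nd
      · exact by decide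
      · exact by decide

/-! ### The values -/

variable (p : Par)

theorem RA_zero (s : ℝ) : RA p s 0 = 1 := by
  unfold RA dc
  rw [zero_div, if_pos zero_le_one]
  ring

theorem xA_zero (s : ℝ) : xA p s 0 = 0 := by
  unfold xA x0
  rw [if_pos (by norm_num), if_pos zero_le_one]
  ring

theorem xB_zero : xB p 0 = 0 := by
  unfold xB
  rw [if_pos zero_le_one]
  ring

theorem xW_zero (s : ℝ) : xW p s 0 = 0 := by
  unfold xW x0
  rw [if_pos (by norm_num), if_pos zero_le_one]
  ring

theorem XV_zero (s : ℝ) : XV p s 0 = 0 := by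
  unfold XV
  rw [zero_div, zero_div, zero_div, xA_zero, xB_zero]
  ring

theorem taper_zero : taper 0 = 0 := by
  unfold taper
  rw [if_pos zero_le_one]

theorem top_facts {T : ℝ} (hT : 0 ≤ T) (h : T ^ 2 = 3) :
    ¬T < 1 ∧ ¬T < h0 / 2 ∧ ¬T < h0 ∧ ¬T < 3 * h0 / 2 ∧ Wc T = 0 ∧ c3 T = 0 ∧
      pos.cv 2 T = 0 ∧ pos.cv 1 T = 0 := by
  have hp := h0_pos
  have hs := h0_sq'
  have h1 := h0_lt_one
  have a : 3 * h0 / 2 ≤ T := by nlinarith
  have b := three_h0 a
  have g : h0 ≤ T := by linarith
  have w := W_top hT h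
  have c := c3_top h
  refine ⟨by linarith, by linarith, by linarith, by linarith, w, c, ?_, ?_⟩
  · rw [cv_two_high g, w, c]
    ring
  · rw [cv_one_high g, w]

theorem h0_facts : h0 < 1 ∧ ¬h0 < h0 / 2 ∧ ¬h0 < h0 ∧ h0 < 3 * h0 / 2 ∧ Wc h0 = c1 h0 := by
  have hp := h0_pos
  exact ⟨h0_lt_one, by linarith, lt_irrefl _, by linarith, (special (Or.inr rfl)).2.1.symm⟩

theorem admX_vA (s : ℝ) : AdmX (vA p s) where
  one T h := by simp [vA, h.not_gt]
  z1 := by simp [vA, h0_pos, R1]
  z2 := by simp [vA, h0_pos, R1, RW]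
  mid := by
    obtain ⟨a, b, c, d, e⟩ := h0_facts
    simp [vA, a, b, d, RW, e]
  top T j hT h := by
    obtain ⟨a, b, c, d, w, c3', p2, p1⟩ := top_facts hT h
    fin_cases j
    · simp [vA, a]
    · simp [vA, b, c, d, w]
    · simp [vA, b, c, d, w, c3']
    · have hh := h0_pos
      simp [vA, R3, b, d, c3', hh.le]
  low T h h' := by
    have hh := h0_pos
    have g : T < h0 := by linarith
    have g1 : T < 1 := by linarith [h0_lt_one]
    simp [vA, h', g, g1, R1, RW]
  high T h h' := by
    have hh := h0_pos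
    have g1 := three_h0 h
    have g : h0 ≤ T := by linarith
    have a1 : ¬T < h0 / 2 := by linarith
    have a2 : ¬T < h0 := by linarith
    have a3 : ¬T < 3 * h0 / 2 := by linarith
    have hW := W_between (by linarith : 0 < T) (by linarith) h'
    have hp : 0 < pos.cv 2 T := by
      rw [cv_two_high g]
      have := c1_nonneg T
      nlinarith
    have e2 : (Wc T + 3 / 20 * (c3 T - Wc T)) / 2 = pos.cv 2 T / 2 := by rw [cv_two_high g]
    have e1 : Wc T / 2 = pos.cv 1 T / 2 := by rw [cv_one_high g]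
    have q1 : vA p s T 1 = pos.cv 1 T / 2 := by
      simp only [vA, Matrix.cons_val_one, Matrix.cons_val_zero]
      rw [if_neg a1, if_neg a2, if_neg a3, e1]
    have q2 : vA p s T 2 = pos.cv 2 T / 2 := by
      simp only [vA, Matrix.cons_val]
      rw [if_neg a2, if_neg a3, e2]
    rw [q1, q2]
    field_simp

theorem admX_vx (s : ℝ) : AdmX (vx p s) where
  one T h := by simp [vx, h.not_gt]
  z1 := by simp [vx, h0_pos, X1]
  z2 := by simp [vx, h0_pos, X1]
  mid := by
    obtain ⟨a, b, c, d, e⟩ := h0_facts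
    have hz : h0 / 2 - h0 * c1 h0 = 0 := by
      rw [c1_h0]
      ring
    have h2 : ¬h0 ≤ 2⁻¹ := by nlinarith [h0_sq', h0_pos]
    simp [vx, a, b, d, X1, h2, hz, xW_zero, xA_zero, xB_zero]
  top T j hT h := by
    obtain ⟨a, b, c, d, w, c3', p2, p1⟩ := top_facts hT h
    fin_cases j
    · simp [vx, a]
    · simp [vx, b, c, d, p1]
    · simp [vx, b, c, d, p2, XV_zero]
    · have hh := h0_pos
      have e : ¬T ≤ h0 := by linarith
      have e' : ¬T ≤ 3 / 2 := by
        intro h2
        nlinarith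
      simp [vx, X3, e, e', c3', xA_zero, xB_zero]
  low T h h' := by
    have hh := h0_pos
    have g : T < h0 := by linarith
    have g1 : T < 1 := by linarith [h0_lt_one]
    have g2 : T ≤ 2⁻¹ := by linarith [h0_lt_one]
    simp [vx, h', g1, X1, g2]
  high T h h' := by
    have hh := h0_pos
    have a1 : ¬T < h0 / 2 := by linarith
    have a2 : ¬T < h0 := by linarith
    have a3 : ¬T < 3 * h0 / 2 := by linarith
    simp only [vx, Matrix.cons_val_one, Matrix.cons_val_zero, Matrix.cons_val]
    rw [if_neg a1, if_neg a2, if_neg a3, if_neg a1, if_neg a2, if_neg a3]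

theorem admX_vR (s : ℝ) : AdmX (vR p s) where
  one T h := by
    have a1 : ¬T < h0 / 2 := by linarith [h0_lt_one, h0_pos]
    simp [vR, a1]
  z1 := by simp [vR, h0_pos]
  z2 := by simp [vR, h0_pos]
  mid := by
    obtain ⟨a, b, c, d, e⟩ := h0_facts
    simp [vR, b, d, taper_zero]
  top T j hT h := by
    obtain ⟨a, b, c, d, w, c3', p2, p1⟩ := top_facts hT h
    fin_cases j
    · simp [vR, b]
    · simp [vR, b, c, d]
    · simp [vR, b, c, d]
    · simp [vR]
  low T h h' := by simp [vR, h']
  high T h h' := by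
    have hh := h0_pos
    have a1 : ¬T < h0 / 2 := by linarith
    have a2 : ¬T < h0 := by linarith
    have a3 : ¬T < 3 * h0 / 2 := by linarith
    simp [vR, a1, a2, a3]

theorem adm_vA (s : ℝ) : K.adm (vA p s) := (admX_vA p s).adm

theorem adm_vX (s : ℝ) : K.adm (vX p s) := by
  have := ((admX_vx p s).lin (admX_vx p s) (s ^ 2) 0).adm
  have e : (fun T j => s ^ 2 * vx p s T j + 0 * vx p s T j) = vX p s := by
    funext T j
    unfold vX
    ring
  rwa [e] at this

theorem adm_vB (s : ℝ) : K.adm (vB p s) := by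
  have := ((admX_vA p s).lin (admX_vR p s) ((we s + mu 3 s * wq s) / we s) (mu 3 s * wq s / we s)).adm
  have e : (fun T j => (we s + mu 3 s * wq s) / we s * vA p s T j +
      mu 3 s * wq s / we s * vR p s T j) = vB p s := by
    funext T j
    unfold vB
    ring
  rwa [e] at this

end Pool.Agent.Strip051.LC.E0
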