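import Pool.Agent.Strip051.LC.E0.Ch.W_t1a_c1_d_f
import Pool.Agent.Strip051.LC.E0.Ch.W_t1a_c1_u_f
import Pool.Agent.Strip051.LC.E0.Ch.W_t1a_W_f
import Pool.Agent.Strip051.LC.E0.Ch.W_t1b_c1_d_f
import Pool.Agent.Strip051.LC.E0.Ch.W_t1b_c1_u_f
import Pool.Agent.Strip051.LC.E0.Ch.W_t1b_W_f
import Pool.Agent.Strip051.LC.E0.Ch.W_t2a_W_f
import Pool.Agent.Strip051.LC.E0.Ch.W_t2a_c3_dd_f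
import Pool.Agent.Strip051.LC.E0.Ch.W_t2a_c3_du_f
import Pool.Agent.Strip051.LC.E0.Ch.W_t2a_c3_u1_f
import Pool.Agent.Strip051.LC.E0.Ch.W_t2a_c3_u2_f
import Pool.Agent.Strip051.LC.E0.Ch.W_t2b_c1_dd_f
import Pool.Agent.Strip051.LC.E0.Ch.W_t2b_c1_du_f
import Pool.Agent.Strip051.LC.E0.Ch.W_t2b_c1_u_f
import Pool.Agent.Strip051.LC.E0.Ch.W_t2b_W_d_f
import Pool.Agent.Strip051.LC.E0.Ch.W_t2b_W_u_f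
import Pool.Agent.Strip051.LC.E0.Ch.W_t3a_c1_f
import Pool.Agent.Strip051.LC.E0.Ch.W_t3a_c1_x_f
import Pool.Agent.Strip051.LC.E0.Ch.W_t3b_c3_f
import Pool.Agent.Strip051.LC.E0.Ch.W_t1a_c1_d_n
import Pool.Agent.Strip051.LC.E0.Ch.W_t1a_c1_u_n
import Pool.Agent.Strip051.LC.E0.Ch.W_t1a_W_n
import Pool.Agent.Strip051.LC.E0.Ch.W_t1b_c1_d_n
import Pool.Agent.Strip051.LC.E0.Ch.W_t1b_c1_u_n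
import Pool.Agent.Strip051.LC.E0.Ch.W_t1b_W_n
import Pool.Agent.Strip051.LC.E0.Ch.W_t2a_W_n
import Pool.Agent.Strip051.LC.E0.Ch.W_t2a_c3_dd_n
import Pool.Agent.Strip051.LC.E0.Ch.W_t2a_c3_du_n
import Pool.Agent.Strip051.LC.E0.Ch.W_t2a_c3_u1_n
import Pool.Agent.Strip051.LC.E0.Ch.W_t2a_c3_u2_n
import Pool.Agent.Strip051.LC.E0.Ch.W_t2b_c1_dd_n
import Pool.Agent.Strip051.LC.E0.Ch.W_t2b_c1_du_n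
import Pool.Agent.Strip051.LC.E0.Ch.W_t2b_c1_u_n
import Pool.Agent.Strip051.LC.E0.Ch.W_t2b_W_d_n
import Pool.Agent.Strip051.LC.E0.Ch.W_t2b_W_u_n
import Pool.Agent.Strip051.LC.E0.Ch.W_t3a_c1_n
import Pool.Agent.Strip051.LC.E0.Ch.W_t3a_c1_x_n
import Pool.Agent.Strip051.LC.E0.Ch.W_t3b_c3_n
import Pool.Agent.Strip051.LC.E0.Ch.Wx

/-! # Small rests: all rows of the window -/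

namespace Pool.Agent.Strip051.LC.E0

/-- **The charts of the far vertex.** -/
theorem rows_far : Rows .far where
  t1a_c1_d := fun _ _ _ _ h0 h1 h2 h3 h4 h5 h6 => Ch.r_t1a_c1_d_f h0 h1 h2 h3 h4 h5 h6
  t1a_c1_u := fun _ _ _ _ h0 h1 h2 h3 h4 h5 => Ch.r_t1a_c1_u_f h0 h1 h2 h3 h4 h5
  t1a_W := fun _ _ _ _ h0 h1 h2 h3 h4 h5 => Ch.r_t1a_W_f h0 h1 h2 h3 h4 h5
  t1b_c1_d := fun _ _ _ _ _ h0 h1 h2 h3 h4 h5 h6 h7 => Ch.r_t1b_c1_d_f h0 h1 h2 h3 h4 h5 h6 h7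
  t1b_c1_u := fun _ _ _ _ _ h0 h1 h2 h3 h4 h5 h6 => Ch.r_t1b_c1_u_f h0 h1 h2 h3 h4 h5 h6
  t1b_W := fun _ _ _ _ _ h0 h1 h2 h3 h4 h5 h6 => Ch.r_t1b_W_f h0 h1 h2 h3 h4 h5 h6
  t2a_W := fun _ _ _ _ _ h0 h1 h2 h3 h4 h5 h6 h7 => Ch.r_t2a_W_f h0 h1 h2 h3 h4 h5 h6 h7
  t2a_c3_dd := fun _ _ _ _ _ h0 h1 h2 h3 h4 h5 h6 => Ch.r_t2a_c3_dd_f h0 h1 h2 h3 h4 h5 h6
  t2a_c3_du := fun _ _ _ _ _ h0 h1 h2 h3 h4 h5 h6 h7 => Ch.r_t2a_c3_du_f h0 h1 h2 h3 h4 h5 h6 h7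
  t2a_c3_u1 := fun _ _ _ _ _ h0 h1 h2 h3 h4 h5 h6 => Ch.r_t2a_c3_u1_f h0 h1 h2 h3 h4 h5 h6
  t2a_c3_u2 := fun _ _ _ _ _ h0 h1 h2 h3 h4 h5 h6 => Ch.r_t2a_c3_u2_f h0 h1 h2 h3 h4 h5 h6
  t2b_c1_dd := fun _ _ _ _ _ h0 h1 h2 h3 h4 h5 h6 => Ch.r_t2b_c1_dd_f h0 h1 h2 h3 h4 h5 h6
  t2b_c1_du := fun _ _ _ _ _ h0 h1 h2 h3 h4 h5 h6 h7 => Ch.r_t2b_c1_du_f h0 h1 h2 h3 h4 h5 h6 h7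
  t2b_c1_u := fun _ _ _ _ _ h0 h1 h2 h3 h4 h5 h6 => Ch.r_t2b_c1_u_f h0 h1 h2 h3 h4 h5 h6
  t2b_W_d := fun _ _ _ _ _ h0 h1 h2 h3 h4 h5 h6 h7 => Ch.r_t2b_W_d_f h0 h1 h2 h3 h4 h5 h6 h7
  t2b_W_u := fun _ _ _ _ _ h0 h1 h2 h3 h4 h5 h6 => Ch.r_t2b_W_u_f h0 h1 h2 h3 h4 h5 h6
  t3a_c1 := fun _ _ _ _ h0 h1 h2 h3 h4 h5 => Ch.r_t3a_c1_f h0 h1 h2 h3 h4 h5
  t3a_c1_x := fun _ _ _ _ h0 h1 h2 h3 h4 h5 h6 => Ch.r_t3a_c1_x_f h0 h1 h2 h3 h4 h5 h6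
  t3b_c3 := fun _ _ _ _ _ h0 h1 h2 h3 h4 h5 h6 => Ch.r_t3b_c3_f h0 h1 h2 h3 h4 h5 h6
  t2a_c3_dd_x := fun _ _ _ _ _ h0 h1 h2 h3 h4 h5 h6 h7 => Ch.r_t2a_c3_dd_x_f h0 h1 h2 h3 h4 h5 h6 h7
  t2b_c1_dd_x := fun _ _ _ _ _ h0 h1 h2 h3 h4 h5 h6 h7 => Ch.r_t2b_c1_dd_x_f h0 h1 h2 h3 h4 h5 h6 h7

/-- **The charts of the near vertex.** -/
theorem rows_near : Rows .near where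
  t1a_c1_d := fun _ _ _ _ h0 h1 h2 h3 h4 h5 h6 => Ch.r_t1a_c1_d_n h0 h1 h2 h3 h4 h5 h6
  t1a_c1_u := fun _ _ _ _ h0 h1 h2 h3 h4 h5 => Ch.r_t1a_c1_u_n h0 h1 h2 h3 h4 h5
  t1a_W := fun _ _ _ _ h0 h1 h2 h3 h4 h5 => Ch.r_t1a_W_n h0 h1 h2 h3 h4 h5
  t1b_c1_d := fun _ _ _ _ _ h0 h1 h2 h3 h4 h5 h6 h7 => Ch.r_t1b_c1_d_n h0 h1 h2 h3 h4 h5 h6 h7
  t1b_c1_u := fun _ _ _ _ _ h0 h1 h2 h3 h4 h5 h6 => Ch.r_t1b_c1_u_n h0 h1 h2 h3 h4 h5 h6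
  t1b_W := fun _ _ _ _ _ h0 h1 h2 h3 h4 h5 h6 => Ch.r_t1b_W_n h0 h1 h2 h3 h4 h5 h6
  t2a_W := fun _ _ _ _ _ h0 h1 h2 h3 h4 h5 h6 h7 => Ch.r_t2a_W_n h0 h1 h2 h3 h4 h5 h6 h7
  t2a_c3_dd := fun _ _ _ _ _ h0 h1 h2 h3 h4 h5 h6 => Ch.r_t2a_c3_dd_n h0 h1 h2 h3 h4 h5 h6
  t2a_c3_du := fun _ _ _ _ _ h0 h1 h2 h3 h4 h5 h6 h7 => Ch.r_t2a_c3_du_n h0 h1 h2 h3 h4 h5 h6 h7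
  t2a_c3_u1 := fun _ _ _ _ _ h0 h1 h2 h3 h4 h5 h6 => Ch.r_t2a_c3_u1_n h0 h1 h2 h3 h4 h5 h6
  t2a_c3_u2 := fun _ _ _ _ _ h0 h1 h2 h3 h4 h5 h6 => Ch.r_t2a_c3_u2_n h0 h1 h2 h3 h4 h5 h6
  t2b_c1_dd := fun _ _ _ _ _ h0 h1 h2 h3 h4 h5 h6 => Ch.r_t2b_c1_dd_n h0 h1 h2 h3 h4 h5 h6
  t2b_c1_du := fun _ _ _ _ _ h0 h1 h2 h3 h4 h5 h6 h7 => Ch.r_t2b_c1_du_n h0 h1 h2 h3 h4 h5 h6 h7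
  t2b_c1_u := fun _ _ _ _ _ h0 h1 h2 h3 h4 h5 h6 => Ch.r_t2b_c1_u_n h0 h1 h2 h3 h4 h5 h6
  t2b_W_d := fun _ _ _ _ _ h0 h1 h2 h3 h4 h5 h6 h7 => Ch.r_t2b_W_d_n h0 h1 h2 h3 h4 h5 h6 h7
  t2b_W_u := fun _ _ _ _ _ h0 h1 h2 h3 h4 h5 h6 => Ch.r_t2b_W_u_n h0 h1 h2 h3 h4 h5 h6
  t3a_c1 := fun _ _ _ _ h0 h1 h2 h3 h4 h5 => Ch.r_t3a_c1_n h0 h1 h2 h3 h4 h5
  t3a_c1_x := fun _ _ _ _ h0 h1 h2 h3 h4 h5 h6 => Ch.r_t3a_c1_x_n h0 h1 h2 h3 h4 h5 h6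
  t3b_c3 := fun _ _ _ _ _ h0 h1 h2 h3 h4 h5 h6 => Ch.r_t3b_c3_n h0 h1 h2 h3 h4 h5 h6
  t2a_c3_dd_x := fun _ _ _ _ _ h0 h1 h2 h3 h4 h5 h6 h7 => Ch.r_t2a_c3_dd_x_n h0 h1 h2 h3 h4 h5 h6 h7
  t2b_c1_dd_x := fun _ _ _ _ _ h0 h1 h2 h3 h4 h5 h6 h7 => Ch.r_t2b_c1_dd_x_n h0 h1 h2 h3 h4 h5 h6 h7

end Pool.Agent.Strip051.LC.E0
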