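import Pool.Agent.Strip051.LC.E0.Def

/-! # Small rests: the tables at the rotated lattice triangles -/

namespace Pool.Agent.Strip051.LC.E0.BaseP

open G

theorem cse_le {a p q : ℝ} (h : a ≤ 0) : cse a p q = p := if_pos h

theorem cse_gt {a p q : ℝ} (h : 0 < a) : cse a p q = q := if_neg h.not_ge

section

variable {x w z : ℝ}

theorem qw_sq (hx : 0 < x) (hx1 : x ≤ 4 / 125) (hw : 0 ≤ w) (hw1 : w ≤ 8) :
    qw w x ^ 2 = 1 - 3 / 4 * x ^ 2 * w ^ 2 := by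
  have h1 : 0 ≤ x * w := mul_nonneg hx.le hw
  have h2 : x * w ≤ 4 / 125 * 8 := mul_le_mul hx1 hw1 hw (by norm_num)
  exact Real.sq_sqrt (by nlinarith)

theorem qw_ge (hx : 0 < x) (hx1 : x ≤ 4 / 125) (hw : 0 ≤ w) (hw1 : w ≤ 8) :
    97 / 100 ≤ qw w x := by
  have h1 : 0 ≤ x * w := mul_nonneg hx.le hw
  have h2 : x * w ≤ 4 / 125 * 8 := mul_le_mul hx1 hw1 hw (by norm_num)
  exact Real.le_sqrt_of_sq_le (by nlinarith)

theorem om_mul (hx : 0 < x) (hx1 : x ≤ 4 / 125) (hw : 0 ≤ w) (hw1 : w ≤ 8) :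
    om w x * (1 + qw w x) = 3 / 4 * w ^ 2 := by
  have := qw_ge hx hx1 hw hw1
  unfold om
  rw [div_mul_cancel₀ _ (by linarith)]

theorem xxom (hx : 0 < x) (hx1 : x ≤ 4 / 125) (hw : 0 ≤ w) (hw1 : w ≤ 8) :
    x ^ 2 * om w x = 1 - qw w x := by
  have h1 := qw_sq hx hx1 hw hw1
  have h2 := qw_ge hx hx1 hw hw1
  have h3 := om_mul hx hx1 hw hw1
  have h4 : (x ^ 2 * om w x - (1 - qw w x)) * (1 + qw w x) = 0 := by
    linear_combination x ^ 2 * h3 + h1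
  rcases mul_eq_zero.1 h4 with h5 | h5
  · linarith
  · linarith

/-- The position on the unit circle. -/
theorem x_xi1 (h : 3 / 4 * (1 + x * z) ^ 2 ≤ 1) : x * xi1 z x = cc1 z x - 1 / 2 := by
  have h1 : cc1 z x ^ 2 = 1 - 3 / 4 * (1 + x * z) ^ 2 := Real.sq_sqrt (by linarith)
  have h2 : 0 ≤ cc1 z x := Real.sqrt_nonneg _
  unfold xi1
  have h3 : (1 / 2 + cc1 z x) ≠ 0 := by linarith
  have e : x * -(3 / 4 * z * (2 + x * z) / (1 / 2 + cc1 z x)) =
      (-(3 / 4 * (x * z) * (2 + x * z))) / (1 / 2 + cc1 z x) := by ring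
  rw [e, div_eq_iff h3]
  linear_combination -h1

/-- The position on the circle of radius `√3`. -/
theorem x_xi3 (h : 3 / 4 * (1 + x * z) ^ 2 ≤ 3) : x * xi3 z x = cc3 z x - 3 / 2 := by
  have h1 : cc3 z x ^ 2 = 3 - 3 / 4 * (1 + x * z) ^ 2 := Real.sq_sqrt (by linarith)
  have h2 : 0 ≤ cc3 z x := Real.sqrt_nonneg _
  unfold xi3
  have h3 : (3 / 2 + cc3 z x) ≠ 0 := by linarith
  have e : x * -(3 / 4 * z * (2 + x * z) / (3 / 2 + cc3 z x)) =
      (-(3 / 4 * (x * z) * (2 + x * z))) / (3 / 2 + cc3 z x) := by ring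
  rw [e, div_eq_iff h3]
  linear_combination -h1

theorem xi1_of (hx : 0 < x) {c v : ℝ} (h : 3 / 4 * (1 + x * z) ^ 2 ≤ 1) (hc : cc1 z x = c)
    (hv : x * v = c - 1 / 2) : xi1 z x = v := by
  have h1 := x_xi1 h
  rw [hc, ← hv] at h1
  exact mul_left_cancel₀ hx.ne' h1

theorem xi3_of (hx : 0 < x) {c v : ℝ} (h : 3 / 4 * (1 + x * z) ^ 2 ≤ 3) (hc : cc3 z x = c)
    (hv : x * v = c - 3 / 2) : xi3 z x = v := by
  have h1 := x_xi3 h
  rw [hc, ← hv] at h1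
  exact mul_left_cancel₀ hx.ne' h1

/-! ### First type: the unit circle above -/

section

variable (hx : 0 < x) (hx1 : x ≤ 4 / 125) (hw : 0 ≤ w) (hw1 : w ≤ 8)
include hx hx1 hw hw1

theorem E1_h : 1 + x * (w / 2 - x * om w x) = qw w x + x * w / 2 := by
  linear_combination -xxom hx hx1 hw hw1

theorem E1_cc1 : cc1 (w / 2 - x * om w x) x = qw w x / 2 - 3 / 4 * x * w := by
  have h1 := qw_sq hx hx1 hw hw1
  have h2 := qw_ge hx hx1 hw hw1
  have h3 : x * w ≤ 4 / 125 * 8 := mul_le_mul hx1 hw1 hw (by norm_num)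
  unfold cc1
  rw [E1_h hx hx1 hw hw1]
  refine (Real.sqrt_eq_iff_mul_self_eq (by nlinarith) (by linarith)).2 ?_
  linear_combination -h1

theorem E1_le : 3 / 4 * (1 + x * (w / 2 - x * om w x)) ^ 2 ≤ 1 := by
  have h1 := qw_sq hx hx1 hw hw1
  rw [E1_h hx hx1 hw hw1]
  nlinarith [sq_nonneg (qw w x / 2 - 3 / 4 * x * w)]

theorem E1_xi1 : xi1 (w / 2 - x * om w x) x = -(3 / 4 * w) - x * om w x / 2 :=
  xi1_of hx (E1_le hx hx1 hw hw1) (E1_cc1 hx hx1 hw hw1)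
    (by linear_combination (-1 / 2) * xxom hx hx1 hw hw1)

theorem E1_sg1 : sg1 (w / 2 - x * om w x) x = w := by
  unfold sg1
  rw [E1_xi1 hx hx1 hw hw1]
  ring

theorem E1_k1p : k1p (w / 2 - x * om w x) x =
    -(dt w / 2) - 3 / 4 * w * (1 - x * dt w) / (1 + qw w x) := by
  have e : cc1 (w / 2 - x * om w x) x / 2 + 3 / 4 * (1 + x * (w / 2 - x * om w x)) = qw w x := by
    rw [E1_cc1 hx hx1 hw hw1, E1_h hx hx1 hw hw1]
    ring
  unfold k1p k1
  rw [e, E1_sg1 hx hx1 hw hw1]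

theorem E1_x1p : x1p (w / 2 - x * om w x) x = xa w x - xb (w / 2) := by
  unfold x1p
  rw [E1_sg1 hx hx1 hw hw1]

/-! ### First type: the unit circle below -/

theorem E2_h : 1 + x * (-(w / 2) - x * om w x) = qw w x - x * w / 2 := by
  linear_combination -xxom hx hx1 hw hw1

theorem E2_cc1 : cc1 (-(w / 2) - x * om w x) x = qw w x / 2 + 3 / 4 * x * w := by
  have h1 := qw_sq hx hx1 hw hw1
  have h2 := qw_ge hx hx1 hw hw1
  have h3 : 0 ≤ x * w := mul_nonneg hx.le hw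
  unfold cc1
  rw [E2_h hx hx1 hw hw1]
  refine (Real.sqrt_eq_iff_mul_self_eq (by nlinarith [sq_nonneg (qw w x / 2 + 3 / 4 * x * w)])
    (by linarith)).2 ?_
  linear_combination -h1

theorem E2_le : 3 / 4 * (1 + x * (-(w / 2) - x * om w x)) ^ 2 ≤ 1 := by
  have h1 := qw_sq hx hx1 hw hw1
  rw [E2_h hx hx1 hw hw1]
  nlinarith [sq_nonneg (qw w x / 2 + 3 / 4 * x * w)]

theorem E2_xi1 : xi1 (-(w / 2) - x * om w x) x = 3 / 4 * w - x * om w x / 2 :=
  xi1_of hx (E2_le hx hx1 hw hw1) (E2_cc1 hx hx1 hw hw1)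
    (by linear_combination (-1 / 2) * xxom hx hx1 hw hw1)

theorem E2_sg1 : sg1 (-(w / 2) - x * om w x) x = -w := by
  unfold sg1
  rw [E2_xi1 hx hx1 hw hw1]
  ring

theorem E2_k1m : k1m (-(w / 2) - x * om w x) x =
    -(dt w / 2) + 3 / 4 * w * (1 - x * dt w) / (1 + qw w x) := by
  have e : cc1 (-(w / 2) - x * om w x) x / 2 + 3 / 4 * (1 + x * (-(w / 2) - x * om w x)) =
      qw w x := by
    rw [E2_cc1 hx hx1 hw hw1, E2_h hx hx1 hw hw1]
    ring
  unfold k1m k1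
  rw [e, E2_sg1 hx hx1 hw hw1, neg_neg]
  ring

theorem E2_x1m : x1m (-(w / 2) - x * om w x) x = xb (w / 2) := by
  unfold x1m
  rw [E2_sg1 hx hx1 hw hw1]
  congr 1
  ring

/-! ### Second type: the circle of radius `√3` below -/

theorem E3_h : 1 + x * (-(3 / 2 * w) - x * om w x) = qw w x - 3 / 2 * x * w := by
  linear_combination -xxom hx hx1 hw hw1

theorem E3_cc3 : cc3 (-(3 / 2 * w) - x * om w x) x = 3 / 2 * qw w x + 3 / 4 * x * w := by
  have h1 := qw_sq hx hx1 hw hw1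
  have h2 := qw_ge hx hx1 hw hw1
  have h3 : 0 ≤ x * w := mul_nonneg hx.le hw
  unfold cc3
  rw [E3_h hx hx1 hw hw1]
  refine (Real.sqrt_eq_iff_mul_self_eq (by nlinarith [sq_nonneg (3 / 2 * qw w x + 3 / 4 * x * w)])
    (by linarith)).2 ?_
  linear_combination -3 * h1

theorem E3_le : 3 / 4 * (1 + x * (-(3 / 2 * w) - x * om w x)) ^ 2 ≤ 3 := by
  have h1 := qw_sq hx hx1 hw hw1
  rw [E3_h hx hx1 hw hw1]
  nlinarith [sq_nonneg (3 / 2 * qw w x + 3 / 4 * x * w)]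

theorem E3_xi3 : xi3 (-(3 / 2 * w) - x * om w x) x = 3 / 4 * w - 3 / 2 * x * om w x :=
  xi3_of hx (E3_le hx hx1 hw hw1) (E3_cc3 hx hx1 hw hw1)
    (by linear_combination (-3 / 2) * xxom hx hx1 hw hw1)

theorem E3_sg3 : sg3 (-(3 / 2 * w) - x * om w x) x = -w := by
  unfold sg3
  rw [E3_xi3 hx hx1 hw hw1]
  ring

theorem E3_k3m : k3m (-(3 / 2 * w) - x * om w x) x =
    -(3 / 2 * dt w) + 3 / 4 * w * (1 - x * dt w) / (1 + qw w x) := by
  have e : cc3 (-(3 / 2 * w) - x * om w x) x / 2 + 1 / 4 * (1 + x * (-(3 / 2 * w) - x * om w x)) =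
      qw w x := by
    rw [E3_cc3 hx hx1 hw hw1, E3_h hx hx1 hw hw1]
    ring
  unfold k3m k3
  rw [e, E3_sg3 hx hx1 hw hw1, neg_neg]
  ring

theorem E3_x3m : x3m (-(3 / 2 * w) - x * om w x) x = xa w x + xb (w / 2) := by
  unfold x3m
  rw [E3_sg3 hx hx1 hw hw1, neg_neg]
  congr 2
  ring

/-! ### Second type: the circle of radius `√3` above -/

theorem E4_h : 1 + x * (3 / 2 * w - x * om w x) = qw w x + 3 / 2 * x * w := by
  linear_combination -xxom hx hx1 hw hw1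

theorem E4_cc3 : cc3 (3 / 2 * w - x * om w x) x = 3 / 2 * qw w x - 3 / 4 * x * w := by
  have h1 := qw_sq hx hx1 hw hw1
  have h2 := qw_ge hx hx1 hw hw1
  have h3 : x * w ≤ 4 / 125 * 8 := mul_le_mul hx1 hw1 hw (by norm_num)
  unfold cc3
  rw [E4_h hx hx1 hw hw1]
  refine (Real.sqrt_eq_iff_mul_self_eq (by nlinarith [sq_nonneg (3 / 2 * qw w x - 3 / 4 * x * w)])
    (by linarith)).2 ?_
  linear_combination -3 * h1

theorem E4_le : 3 / 4 * (1 + x * (3 / 2 * w - x * om w x)) ^ 2 ≤ 3 := by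
  have h1 := qw_sq hx hx1 hw hw1
  rw [E4_h hx hx1 hw hw1]
  nlinarith [sq_nonneg (3 / 2 * qw w x - 3 / 4 * x * w)]

theorem E4_xi3 : xi3 (3 / 2 * w - x * om w x) x = -(3 / 4 * w) - 3 / 2 * x * om w x :=
  xi3_of hx (E4_le hx hx1 hw hw1) (E4_cc3 hx hx1 hw hw1)
    (by linear_combination (-3 / 2) * xxom hx hx1 hw hw1)

theorem E4_sg3 : sg3 (3 / 2 * w - x * om w x) x = w := by
  unfold sg3
  rw [E4_xi3 hx hx1 hw hw1]
  ring

theorem E4_k3p : k3p (3 / 2 * w - x * om w x) x =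
    -(3 / 2 * dt w) - 3 / 4 * w * (1 - x * dt w) / (1 + qw w x) := by
  have e : cc3 (3 / 2 * w - x * om w x) x / 2 + 1 / 4 * (1 + x * (3 / 2 * w - x * om w x)) =
      qw w x := by
    rw [E4_cc3 hx hx1 hw hw1, E4_h hx hx1 hw hw1]
    ring
  unfold k3p k3
  rw [e, E4_sg3 hx hx1 hw hw1]

theorem E4_x3p : x3p (3 / 2 * w - x * om w x) x = 2 * xa w x - xb (w / 2) := by
  unfold x3p
  rw [E4_sg3 hx hx1 hw hw1]

end

/-! ### The lattice heights -/

theorem cse_0l {a p q : ℝ} (ha : 0 ≤ a) : cse (0 - a) p q = p := cse_le (by linarith)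

theorem xi1_0 : xi1 0 x = 0 := by
  unfold xi1
  simp

theorem xi3_0 : xi3 0 x = 0 := by
  unfold xi3
  simp

theorem om_0 : om 0 x = 0 := by
  unfold om
  simp

theorem xiw_0 : xiw 0 x = 0 := by
  unfold xiw
  rw [om_0]
  simp

theorem sg1_0 : sg1 0 x = 0 := by
  unfold sg1
  rw [xi1_0]
  simp

theorem sg3_0 : sg3 0 x = 0 := by
  unfold sg3
  rw [xi3_0]
  simp

theorem dt_0 : dt 0 = 0 := by
  unfold dt
  rw [cse_0l (by norm_num)]
  simp

theorem xa_0 : xa 0 x = 0 := by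
  unfold xa q1
  rw [cse_0l (by norm_num)]
  simp

theorem xw_0 : xw 0 x = 0 := by
  unfold xw q1
  rw [cse_0l (by norm_num)]
  simp

theorem xb_0 : xb 0 = 0 := by
  unfold xb
  rw [cse_0l (by norm_num)]
  simp

theorem gh_0 : gh 0 = 0 := by
  unfold gh
  rw [cse_0l (by norm_num)]

theorem k1p_0 : k1p 0 x = 0 := by
  unfold k1p k1
  rw [sg1_0, dt_0]
  simp

theorem k1m_0 : k1m 0 x = 0 := by
  unfold k1m k1
  rw [sg1_0, neg_zero, dt_0]
  simp

theorem k3p_0 : k3p 0 x = 0 := by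
  unfold k3p k3
  rw [sg3_0, dt_0]
  simp

theorem k3m_0 : k3m 0 x = 0 := by
  unfold k3m k3
  rw [sg3_0, neg_zero, dt_0]
  simp

theorem x1p_0 : x1p 0 x = 0 := by
  unfold x1p
  rw [sg1_0, xa_0, zero_div, xb_0]
  simp

theorem x1m_0 : x1m 0 x = 0 := by
  unfold x1m
  rw [sg1_0, zero_div, neg_zero, xb_0]

theorem x3p_0 : x3p 0 x = 0 := by
  unfold x3p
  rw [sg3_0, xa_0, zero_div, xb_0]
  simp

theorem x3m_0 : x3m 0 x = 0 := by
  unfold x3m
  rw [sg3_0, neg_zero, xa_0, zero_div, neg_zero, xb_0]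
  simp

theorem kwu_0 : kwu 0 x = 0 := by
  unfold kwu
  rw [k1p_0, xiw_0, xi1_0]
  simp

theorem kwl_0 : kwl 0 x = 0 := by
  unfold kwl
  rw [k3m_0, xiw_0, xi3_0]
  simp

/-! ### The heights at distance one -/

theorem qw_1 : qw 1 x = gs x := by
  unfold qw gs
  congr 1
  ring

theorem om_1 : om 1 x = 3 / 4 * ic x := by
  unfold om ic
  rw [qw_1]
  ring

theorem dt_1 : dt 1 = 109 / 250 := by
  unfold dt
  rw [cse_le (by norm_num)]
  norm_num

theorem xa_1 : xa 1 x = ch x := by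
  unfold xa q1
  rw [cse_le (by norm_num)]
  ring

theorem xw_1 : xw 1 x = ch x := by
  unfold xw q1
  rw [cse_le (by norm_num)]
  ring

theorem xb_1 : xb 1 = 571 / 1000 := by
  unfold xb
  rw [cse_le (by norm_num)]
  norm_num

theorem gh_1 : gh 1 = 1 := by
  unfold gh
  rw [cse_le (by norm_num)]

theorem ic_bd (hx : 0 < x) (hx1 : x ≤ 4 / 125) : 0 < ic x ∧ ic x ≤ 1 := by
  have h1 : 0 ≤ gs x := Real.sqrt_nonneg _
  unfold ic
  constructor
  · positivity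
  · rw [div_le_one (by linarith)]
    linarith

theorem gap_1 (hx : 0 < x) (hx1 : x ≤ 4 / 125) : 1 ≤ xiw 1 x - xi1 1 x := by
  obtain ⟨h1, h2⟩ := ic_bd hx hx1
  have h3 : 0 ≤ cc1 1 x := Real.sqrt_nonneg _
  have h4 : cc1 1 x ≤ 1 / 2 := by
    unfold cc1
    refine Real.sqrt_le_iff.2 ⟨by norm_num, ?_⟩
    nlinarith
  have h5 : 3 / 2 ≤ -xi1 1 x := by
    unfold xi1
    rw [neg_neg, le_div_iff₀ (by linarith)]
    linarith
  have h6 : x * om 1 x ≤ 4 / 125 * (3 / 4) := by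
    rw [om_1]
    exact mul_le_mul hx1 (by linarith) (by positivity) (by norm_num)
  unfold xiw
  linarith

theorem gap_m1 (hx : 0 < x) (hx1 : x ≤ 4 / 125) : 2 / 5 ≤ xi3 (-1) x - xiw (-1) x := by
  have h3 : 0 ≤ cc3 (-1) x := Real.sqrt_nonneg _
  have h4 : cc3 (-1) x ≤ 8 / 5 := by
    unfold cc3
    refine Real.sqrt_le_iff.2 ⟨by norm_num, ?_⟩
    nlinarith
  have h5 : 2 / 5 ≤ xi3 (-1) x := by
    unfold xi3
    have e : -(3 / 4 * -1 * (2 + x * -1) / (3 / 2 + cc3 (-1) x)) =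
        3 / 4 * (2 - x) / (3 / 2 + cc3 (-1) x) := by ring
    rw [e, le_div_iff₀ (by linarith)]
    linarith
  have h6 : 0 ≤ om (-1) x := by
    unfold om qw
    positivity
  have h7 := mul_nonneg hx.le h6
  unfold xiw
  linarith

theorem kwu_1 (hx : 0 < x) (hx1 : x ≤ 4 / 125) : kwu 1 x = pq x - 109 / 250 := by
  have h1 := gap_1 hx hx1
  have e : su 1 x = pu x := by
    unfold su
    rw [cse_le (by norm_num)]
    ring
  unfold kwu
  rw [e]
  unfold pu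
  rw [div_mul_cancel₀ _ (by linarith)]
  ring

theorem kwl_m1 (hx : 0 < x) (hx1 : x ≤ 4 / 125) : kwl (-1) x = -(pq x) - 109 / 250 := by
  have h1 := gap_m1 hx hx1
  have e : G.sl (-1) x = pl' x := by
    unfold G.sl
    rw [cse_le (by norm_num)]
    ring
  unfold kwl
  rw [e]
  unfold pl'
  rw [div_mul_cancel₀ _ (by linarith)]
  ring

end

end Pool.Agent.Strip051.LC.E0.BaseP
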