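import Pool.Agent.Strip051.LC.E0.BaseP

/-! # Small rests: the charts lie on one side of the rotated lattice triangles -/

namespace Pool.Agent.Strip051.LC.E0.BaseP

open G

theorem v1_core {a b Q U W : ℝ} (ha : a ^ 2 = 1 - 3 / 4 * U ^ 2)
    (hb : b ^ 2 = 1 - 3 / 4 * (U + W) ^ 2) (hQ : Q ^ 2 = 1 - 3 / 4 * W ^ 2) (a0 : 0 ≤ a)
    (b0 : 0 ≤ b) (U0 : 1 / 2 ≤ U) (W0 : 0 ≤ W) (W1 : W ≤ 32 / 125) (Q0 : 97 / 100 ≤ Q)
    (h : a + b ≤ Q) : Q - W / 2 ≤ U := by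
  by_contra hc
  push Not at hc
  have e1 : a ^ 2 - (Q / 2 + 3 / 4 * W) ^ 2 = 3 / 4 * ((Q - W / 2 - U) * (Q - W / 2 + U)) := by
    linear_combination ha - hQ
  have e2 : b ^ 2 - (Q / 2 - 3 / 4 * W) ^ 2 =
      3 / 4 * ((Q - W / 2 - U) * (Q + W / 2 + (U + W))) := by
    linear_combination hb - hQ
  have p1 : 0 < (Q - W / 2 - U) * (Q - W / 2 + U) := mul_pos (by linarith) (by linarith)
  have p2 : 0 < (Q - W / 2 - U) * (Q + W / 2 + (U + W)) := mul_pos (by linarith) (by linarith)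
  have q1 : Q / 2 + 3 / 4 * W < a := lt_of_pow_lt_pow_left₀ 2 a0 (by linarith)
  have q2 : Q / 2 - 3 / 4 * W < b := lt_of_pow_lt_pow_left₀ 2 b0 (by linarith)
  linarith

theorem v2_core {c b Q U W : ℝ} (hc : c ^ 2 = 3 - 3 / 4 * U ^ 2)
    (hb : b ^ 2 = 1 - 3 / 4 * (U + W) ^ 2) (hQ : Q ^ 2 = 1 - 3 / 4 * W ^ 2)
    (b0 : 0 ≤ b) (U0 : 1 / 2 ≤ U) (W0 : 0 ≤ W) (W1 : W ≤ 32 / 125) (Q0 : 97 / 100 ≤ Q)
    (h : Q ≤ c - b) : Q - 3 / 2 * W ≤ U := by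
  by_contra hn
  push Not at hn
  have e1 : (c - (3 / 2 * Q + 3 / 4 * W)) * (c + (3 / 2 * Q + 3 / 4 * W)) =
      3 / 4 * ((Q - 3 / 2 * W - U) * (Q - 3 / 2 * W + U)) := by
    linear_combination hc - 3 * hQ
  have e2 : (b - (Q / 2 + 3 / 4 * W)) * (b + (Q / 2 + 3 / 4 * W)) =
      3 / 4 * ((Q - 3 / 2 * W - U) * (Q - 3 / 2 * W + U + 2 * W)) := by
    linear_combination hb - hQ
  have p1 : 0 < (Q - 3 / 2 * W - U) * (Q - 3 / 2 * W + U) := mul_pos (by linarith) (by linarith)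
  have p2 : 0 ≤ (Q - 3 / 2 * W - U) * (2 * W) := mul_nonneg (by linarith) (by linarith)
  have q2 : 0 < b - (Q / 2 + 3 / 4 * W) := by
    have h1 : 0 < (b - (Q / 2 + 3 / 4 * W)) * (b + (Q / 2 + 3 / 4 * W)) := by
      rw [e2]
      linarith
    exact pos_of_mul_pos_left h1 (by linarith)
  have q3 : b - (Q / 2 + 3 / 4 * W) ≤ c - (3 / 2 * Q + 3 / 4 * W) := by linarith
  have q4 := mul_le_mul_of_nonneg_right q3 (by linarith : 0 ≤ c + (3 / 2 * Q + 3 / 4 * W))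
  have q5 : (b - (Q / 2 + 3 / 4 * W)) * (b + (Q / 2 + 3 / 4 * W)) <
      (b - (Q / 2 + 3 / 4 * W)) * (c + (3 / 2 * Q + 3 / 4 * W)) :=
    mul_lt_mul_of_pos_left (by linarith) q2
  linarith

theorem v3_core {c a Q U W : ℝ} (hc : c ^ 2 = 3 - 3 / 4 * (U + W) ^ 2)
    (ha : a ^ 2 = 1 - 3 / 4 * U ^ 2) (hQ : Q ^ 2 = 1 - 3 / 4 * W ^ 2)
    (a0 : 0 ≤ a) (U0 : 1 / 2 ≤ U) (W0 : 0 ≤ W) (W1 : W ≤ 32 / 125) (Q0 : 97 / 100 ≤ Q)
    (Q1 : Q ≤ 1) (h : Q ≤ c - a) : Q + W / 2 ≤ U := by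
  by_contra hn
  push Not at hn
  have a1 : a ≤ 1 := by nlinarith
  have e1 : (c - (3 / 2 * Q - 3 / 4 * W)) * (c + (3 / 2 * Q - 3 / 4 * W)) =
      3 / 4 * ((Q + W / 2 - U) * (Q + W / 2 + U + 2 * W)) := by
    linear_combination hc - 3 * hQ
  have e2 : (a - (Q / 2 - 3 / 4 * W)) * (a + (Q / 2 - 3 / 4 * W)) =
      3 / 4 * ((Q + W / 2 - U) * (Q + W / 2 + U)) := by
    linear_combination ha - hQ
  obtain ⟨D, hD⟩ : ∃ D, D = Q + W / 2 - U := ⟨_, rfl⟩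
  rw [← hD] at e1 e2
  have D0 : 0 < D := by linarith
  have p1 : 0 < D * (Q + W / 2 + U) := mul_pos D0 (by linarith)
  have q2 : 0 < a - (Q / 2 - 3 / 4 * W) := by
    have h1 : 0 < (a - (Q / 2 - 3 / 4 * W)) * (a + (Q / 2 - 3 / 4 * W)) := by
      rw [e2]
      linarith
    exact pos_of_mul_pos_left h1 (by linarith)
  have q3 : a - (Q / 2 - 3 / 4 * W) ≤ c - (3 / 2 * Q - 3 / 4 * W) := by linarith
  obtain ⟨s, hs⟩ : ∃ s, s = a + (Q / 2 - 3 / 4 * W) := ⟨_, rfl⟩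
  obtain ⟨r, hr⟩ : ∃ r, r = c + (3 / 2 * Q - 3 / 4 * W) := ⟨_, rfl⟩
  rw [← hs] at e2
  rw [← hr] at e1
  have s0 : 0 < s := by linarith
  have s1 : s ≤ 3 / 2 := by linarith
  have r1 : s + 194 / 100 ≤ r := by linarith
  have q4 := mul_le_mul_of_nonneg_right q3 (by linarith : 0 ≤ r)
  have q5 : (a - (Q / 2 - 3 / 4 * W)) * (s + 194 / 100) ≤ (a - (Q / 2 - 3 / 4 * W)) * r :=
    mul_le_mul_of_nonneg_left r1 q2.le
  have q6 : (a - (Q / 2 - 3 / 4 * W)) * (194 / 100) ≤ 3 / 4 * (D * (2 * W)) := by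
    linarith
  have q7 := mul_le_mul_of_nonneg_right q6 s0.le
  have q8 : (a - (Q / 2 - 3 / 4 * W)) * (194 / 100) * s =
      194 / 100 * (3 / 4 * (D * (Q + W / 2 + U))) := by
    rw [← e2]
    ring
  have q9 : 3 / 4 * (D * (2 * W)) * s ≤ 3 / 4 * (D * (2 * W)) * (3 / 2) :=
    mul_le_mul_of_nonneg_left s1 (mul_nonneg (by norm_num) (mul_nonneg D0.le (by linarith)))
  have q10 : D * (2 * W) ≤ D * (64 / 125) := mul_le_mul_of_nonneg_left (by linarith) D0.le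
  have q11 : D * (147 / 100) ≤ D * (Q + W / 2 + U) :=
    mul_le_mul_of_nonneg_left (by linarith) D0.le
  linarith

section

variable {x w z : ℝ}

theorem hgt (hx : 0 < x) (hx1 : x ≤ 4 / 125) {u : ℝ} (u0 : -(46 / 5) ≤ u) (u1 : x * u ≤ 3 / 25) :
    7 / 10 ≤ 1 + x * u ∧ 1 + x * u ≤ 28 / 25 ∧ 3 / 4 * (1 + x * u) ^ 2 ≤ 1 ∧
      cc1 u x ^ 2 = 1 - 3 / 4 * (1 + x * u) ^ 2 ∧ cc3 u x ^ 2 = 3 - 3 / 4 * (1 + x * u) ^ 2 ∧
      0 ≤ cc1 u x ∧ 0 ≤ cc3 u x := by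
  have h1 : -(46 / 5) * (4 / 125) ≤ x * u := by
    rcases le_total 0 u with h | h
    · have := mul_nonneg hx.le h
      linarith
    · have h2 := mul_le_mul_of_nonpos_right hx1 h
      linarith
  have h3 : 7 / 10 ≤ 1 + x * u := by linarith
  have h4 : 1 + x * u ≤ 28 / 25 := by linarith
  have h5 : 3 / 4 * (1 + x * u) ^ 2 ≤ 1 := by nlinarith
  exact ⟨h3, h4, h5, Real.sq_sqrt (by linarith), Real.sq_sqrt (by linarith),
    Real.sqrt_nonneg _, Real.sqrt_nonneg _⟩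

section

variable (hx : 0 < x) (hx1 : x ≤ 4 / 125) (hw : 0 ≤ w) (hw1 : w ≤ 8) (hz : -(46 / 5) ≤ z)
  (xz : x * z ≤ 3 / 25) (xu : x * (w + z) ≤ 3 / 25)
include hx hx1 hw hw1 hz xz xu

theorem V1 (h : 0 ≤ -(x * om w x) - xi1 z x - xi1 (w + z) x) : -(w / 2) - x * om w x ≤ z := by
  obtain ⟨a1, a2, a3, a4, a5, a6, a7⟩ := hgt hx hx1 hz xz
  obtain ⟨b1, b2, b3, b4, b5, b6, b7⟩ := hgt hx hx1 (by linarith : -(46 / 5) ≤ w + z) xu
  have e1 := x_xi1 a3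
  have e2 := x_xi1 b3
  have eq := qw_sq hx hx1 hw hw1
  have q0 := qw_ge hx hx1 hw hw1
  have eo := xxom hx hx1 hw hw1
  have W0 : 0 ≤ x * w := mul_nonneg hx.le hw
  have W1 : x * w ≤ 4 / 125 * 8 := mul_le_mul hx1 hw1 hw (by norm_num)
  have h1 := mul_nonneg hx.le h
  have key := v1_core (a := cc1 z x) (b := cc1 (w + z) x) (Q := qw w x) (U := 1 + x * z)
    (W := x * w) a4 (by rw [b4]; ring) (by rw [eq]; ring) a6 b6 (by linarith) W0 (by linarith) q0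
    (by linarith)
  have h2 : x * (-(w / 2) - x * om w x) ≤ x * z := by linarith
  exact le_of_mul_le_mul_left h2 hx

theorem V2 (h : 0 ≤ xi3 z x + x * om w x - xi1 (w + z) x) :
    -(3 / 2 * w) - x * om w x ≤ z := by
  obtain ⟨a1, a2, a3, a4, a5, a6, a7⟩ := hgt hx hx1 hz xz
  obtain ⟨b1, b2, b3, b4, b5, b6, b7⟩ := hgt hx hx1 (by linarith : -(46 / 5) ≤ w + z) xu
  have e1 := x_xi3 (x := x) (z := z) (by linarith)
  have e2 := x_xi1 b3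
  have eq := qw_sq hx hx1 hw hw1
  have q0 := qw_ge hx hx1 hw hw1
  have eo := xxom hx hx1 hw hw1
  have W0 : 0 ≤ x * w := mul_nonneg hx.le hw
  have W1 : x * w ≤ 4 / 125 * 8 := mul_le_mul hx1 hw1 hw (by norm_num)
  have h1 := mul_nonneg hx.le h
  have key := v2_core (c := cc3 z x) (b := cc1 (w + z) x) (Q := qw w x) (U := 1 + x * z)
    (W := x * w) a5 (by rw [b4]; ring) (by rw [eq]; ring) b6 (by linarith) W0 (by linarith) q0
    (by linarith)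
  have h2 : x * (-(3 / 2 * w) - x * om w x) ≤ x * z := by linarith
  exact le_of_mul_le_mul_left h2 hx

theorem V3 (h : 0 ≤ xi3 (w + z) x + x * om w x - xi1 z x) : w / 2 - x * om w x ≤ z := by
  obtain ⟨a1, a2, a3, a4, a5, a6, a7⟩ := hgt hx hx1 hz xz
  obtain ⟨b1, b2, b3, b4, b5, b6, b7⟩ := hgt hx hx1 (by linarith : -(46 / 5) ≤ w + z) xu
  have e1 := x_xi1 a3
  have e2 := x_xi3 (x := x) (z := w + z) (by linarith)
  have eq := qw_sq hx hx1 hw hw1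
  have q0 := qw_ge hx hx1 hw hw1
  have eo := xxom hx hx1 hw hw1
  have W0 : 0 ≤ x * w := mul_nonneg hx.le hw
  have W1 : x * w ≤ 4 / 125 * 8 := mul_le_mul hx1 hw1 hw (by norm_num)
  have h1 := mul_nonneg hx.le h
  have q1 : qw w x ≤ 1 := Real.sqrt_le_iff.2 ⟨by norm_num, by nlinarith [sq_nonneg (x * w)]⟩
  have key := v3_core (c := cc3 (w + z) x) (a := cc1 z x) (Q := qw w x) (U := 1 + x * z)
    (W := x * w) (by rw [b5]; ring) a4 (by rw [eq]; ring) a6 (by linarith) W0 (by linarith) q0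
    q1 (by linarith)
  have h2 : x * (w / 2 - x * om w x) ≤ x * z := by linarith
  exact le_of_mul_le_mul_left h2 hx

end

theorem V4 (hx : 0 < x) (hx1 : x ≤ 4 / 125) (hw : 0 ≤ w) (hw1 : w ≤ 6) :
    x * om w x ≤ 9 / 20 := by
  have W1 : x * w ≤ 4 / 125 * 6 := mul_le_mul hx1 hw1 hw (by norm_num)
  have W0 : 0 ≤ x * w := mul_nonneg hx.le hw
  have q0 : 49 / 50 ≤ qw w x := Real.le_sqrt_of_sq_le (by nlinarith)
  have e := om_mul hx hx1 hw (by linarith : w ≤ 8)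
  have h1 : x * om w x * (1 + qw w x) = 3 / 4 * (x * w * w) := by
    linear_combination x * e
  have h2 : x * w * w ≤ 24 / 125 * 6 := mul_le_mul (by linarith) hw1 hw (by norm_num)
  by_contra hc
  push Not at hc
  have h3 : 9 / 20 * (99 / 50) < x * om w x * (1 + qw w x) := by
    have h4 : 9 / 20 * (99 / 50) ≤ 9 / 20 * (1 + qw w x) := by linarith
    have h5 : 9 / 20 * (1 + qw w x) < x * om w x * (1 + qw w x) :=
      mul_lt_mul_of_pos_right hc (by linarith)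
    linarith
  linarith

end

end Pool.Agent.Strip051.LC.E0.BaseP
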