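import Pool.Agent.Strip051.LC.E0.CostW
import Pool.Agent.Strip051.LC.Exact.Assemble

/-! # The costs for small rests -/

namespace Pool.Agent.Strip051.LC.E0

open Pool.Agent.StripNear Pool.Agent.StripSquare Pool.Agent.Strip051 Pool.Agent.Strip051.Sweep
open Pool.Agent.Strip051.LC.Box

theorem cC (X T : ℝ) : cbv C X T = 3 / 64 := by
  simp only [C, cbv, mnv, affv]
  norm_num

theorem cU (X T : ℝ) : cbv U X T = 1 / 32 := by
  simp only [U, cbv, mnv, affv]
  norm_num

theorem cR (X T : ℝ) : cbv R X T = 1 / 16 := by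
  simp only [R, cbv, mnv, affv]
  norm_num

theorem cross_le {u1 u2 v1 v2 : ℝ} (h1 : u1 ^ 2 + u2 ^ 2 = 1) (h2 : v1 ^ 2 + v2 ^ 2 = 1)
    (h3 : 3 ≤ (u1 + v1) ^ 2 + (u2 + v2) ^ 2) : |u1 * v2 - u2 * v1| ≤ h0 := by
  have hs := h0_sq
  refine abs_le_of_sq_le_sq ?_ h0_pos.le
  have e : (u1 * v2 - u2 * v1) ^ 2 = (u1 ^ 2 + u2 ^ 2) * (v1 ^ 2 + v2 ^ 2) -
      (u1 * v1 + u2 * v2) ^ 2 := by ring
  have h4 : 1 / 2 ≤ u1 * v1 + u2 * v2 := by nlinarith
  rw [e, h1, h2, hs]
  nlinarith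

/-- **The cost rows** for all small wall constants. -/
theorem costOK {E : ℝ} (hE : 4096 * E ≤ 124) : CostOK (cbv C) (cbv U) (cbv R) E := by
  have hh := h0_pos
  have nC : ∀ F ∈ C, F ≠ [] := by simp [C]
  have nU : ∀ F ∈ U, F ≠ [] := by simp [U]
  refine ⟨short_of nC (e := 124) (by exact_mod_cast hE) kS,
    shortU_of nU (e := 124) (by exact_mod_cast hE) kU, shortL_of (by linarith),
    above_of (by simp [C]) (e := 124) (by exact_mod_cast hE) kA,
    fun X T hX hT h1 h3 => tall_of_check (by simp [C]) kW hX hT h1 h3,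
    fun A1 A2 B1 B2 d1 d2 h => quad_of_fast (by simp [C]) okC_C CC_eq k4 k9 h, fun X T => ?_,
    fun u1 u2 v1 v2 h1 h2 h3 => ?_,
    fun P1 P2 R1 R2 u1 u2 v1 v2 h => two_of_check (by simp [C]) (by simp [R])
      okC_C4 okC_R4 kT h⟩
  · rw [cR]
    norm_num
  · have h4 := cross_le h1 h2 h3
    unfold av
    rw [cU, cU, cR]
    have h5 : |u1 * v2 - u2 * v1| / (2 * h0) ≤ 1 / 2 := by
      rw [div_le_iff₀ (by positivity)]
      linarith
    linarith

/-- The wall constant of the far vertex. -/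
theorem we_le' {s : ℝ} (hs0 : 0 ≤ s) (hs1 : s ≤ h0 / 16) : 4096 * we s ≤ 124 := by
  have hh := h0_pos
  have e : s = h0 * (s / h0) := by field_simp
  have x0 : 0 ≤ s / h0 := by positivity
  have x1 : s / h0 ≤ 1 / 16 := by
    rw [div_le_iff₀ hh]
    linarith
  rw [e]
  have := we_tan (x := s / h0) (c := 1) x0 (by linarith) one_pos
  generalize s / h0 = x at *
  nlinarith

/-- The wall constant of the near vertex. -/
theorem wn_le' {s : ℝ} (hs0 : 0 ≤ s) (hs1 : s ≤ h0 / 16) :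
    4096 * (we s + mu 3 s * wq s) ≤ 124 := by
  have hh := h0_pos
  have e : s = h0 * (s / h0) := by field_simp
  have x0 : 0 ≤ s / h0 := by positivity
  have x1 : s / h0 ≤ 1 / 16 := by
    rw [div_le_iff₀ hh]
    linarith
  rw [e]
  have := wn_tan (x := s / h0) (c := 1) (m := 5) x0 (by linarith) one_pos (by norm_num)
  generalize s / h0 = x at *
  nlinarith

end Pool.Agent.Strip051.LC.E0
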