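import Pool.Agent.Strip051.LC.E0.Adm
import Pool.Agent.Strip051.LC.E0.Cost

/-! # Small rests: the numbers and crude bounds -/

namespace Pool.Agent.Strip051.LC.E0

open Pool.Agent.StripNear Pool.Agent.StripSquare Pool.Agent.Strip051 Pool.Agent.Strip051.Sweep

/-- The numbers for the rests below `11 / 400`. -/
noncomputable def par : Par :=
  ⟨325 / 1000 / h0 - 2, 111 / 1000 / h0, 691 / 1000 / h0 - 3, 1326 / 1000 / h0 - 5, 92 / 125, 0,
    27 / 20, 353 / 500, 353 / 500, 319 / 250, 181 / 375, 209 / 750⟩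

theorem par_d0 : -16248 / 10000 ≤ par.d0 ∧ par.d0 ≤ -16247 / 10000 := by
  have hh := h0_pos
  have g1 := h0_gt
  have g2 := h0_lt
  have e : par.d0 = 325 / 1000 / h0 - 2 := rfl
  have a : 325 / 1000 / h0 ≤ 3753 / 10000 := by
    rw [div_le_iff₀ hh]
    linarith
  have b : 3752 / 10000 ≤ 325 / 1000 / h0 := by
    rw [le_div_iff₀ hh]
    linarith
  rw [e]
  constructor <;> linarith

theorem par_d1 : 1281 / 10000 ≤ par.d1 ∧ par.d1 ≤ 1282 / 10000 := by
  have hh := h0_pos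
  have g1 := h0_gt
  have g2 := h0_lt
  have e : par.d1 = 111 / 1000 / h0 := rfl
  rw [e]
  constructor
  · rw [le_div_iff₀ hh]
    linarith
  · rw [div_le_iff₀ hh]
    linarith

theorem par_d2 : -22022 / 10000 ≤ par.d2 ∧ par.d2 ≤ -22020 / 10000 := by
  have hh := h0_pos
  have g1 := h0_gt
  have g2 := h0_lt
  have e : par.d2 = 691 / 1000 / h0 - 3 := rfl
  have a : 691 / 1000 / h0 ≤ 7980 / 10000 := by
    rw [div_le_iff₀ hh]
    linarith
  have b : 7978 / 10000 ≤ 691 / 1000 / h0 := by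
    rw [le_div_iff₀ hh]
    linarith
  rw [e]
  constructor <;> linarith

theorem par_d3 : -34691 / 10000 ≤ par.d3 ∧ par.d3 ≤ -34688 / 10000 := by
  have hh := h0_pos
  have g1 := h0_gt
  have g2 := h0_lt
  have e : par.d3 = 1326 / 1000 / h0 - 5 := rfl
  have a : 1326 / 1000 / h0 ≤ 15312 / 10000 := by
    rw [div_le_iff₀ hh]
    linarith
  have b : 15309 / 10000 ≤ 1326 / 1000 / h0 := by
    rw [le_div_iff₀ hh]
    linarith
  rw [e]
  constructor <;> linarith

/-- The correction of the kernel at `1`. -/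
theorem par_one : 2 + (par.d0 + par.d1) = 436 / 1000 / h0 := by
  have hh := h0_pos
  have e : par.d0 = 325 / 1000 / h0 - 2 := rfl
  have e' : par.d1 = 111 / 1000 / h0 := rfl
  rw [e, e']
  field_simp
  ring

theorem one_bd : 5034 / 10000 ≤ 436 / 1000 / h0 ∧ 436 / 1000 / h0 ≤ 5035 / 10000 := by
  have hh := h0_pos
  have g1 := h0_gt
  have g2 := h0_lt
  constructor
  · rw [le_div_iff₀ hh]
    linarith
  · rw [div_le_iff₀ hh]
    linarith

/-! ### Piecewise linear functions -/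

theorem pl_le {x0 y0 x1 y1 x c : ℝ} (h : x0 < x1) (a : x0 ≤ x) (b : x ≤ x1) (h0 : y0 ≤ c)
    (h1 : y1 ≤ c) : pl x0 y0 x1 y1 x ≤ c := by
  unfold pl
  have k : 0 < x1 - x0 := by linarith
  have k0 : 0 ≤ (x - x0) / (x1 - x0) := div_nonneg (by linarith) k.le
  have k1 : (x - x0) / (x1 - x0) ≤ 1 := by
    rw [div_le_one k]
    linarith
  nlinarith

theorem le_pl {x0 y0 x1 y1 x c : ℝ} (h : x0 < x1) (a : x0 ≤ x) (b : x ≤ x1) (h0 : c ≤ y0)
    (h1 : c ≤ y1) : c ≤ pl x0 y0 x1 y1 x := by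
  unfold pl
  have k : 0 < x1 - x0 := by linarith
  have k0 : 0 ≤ (x - x0) / (x1 - x0) := div_nonneg (by linarith) k.le
  have k1 : (x - x0) / (x1 - x0) ≤ 1 := by
    rw [div_le_one k]
    linarith
  nlinarith

theorem abs_pl {x0 y0 x1 y1 x c : ℝ} (h : x0 < x1) (a : x0 ≤ x) (b : x ≤ x1) (h0 : |y0| ≤ c)
    (h1 : |y1| ≤ c) : |pl x0 y0 x1 y1 x| ≤ c :=
  abs_le.2 ⟨le_pl h a b (abs_le.1 h0).1 (abs_le.1 h1).1, pl_le h a b (abs_le.1 h0).2 (abs_le.1 h1).2⟩

/-- An affine function between its values at the ends. -/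
theorem pl_le_aff {x0 y0 x1 y1 x a b : ℝ} (h : x0 < x1) (k : x0 ≤ x) (k' : x ≤ x1)
    (h0 : y0 ≤ a * x0 + b) (h1 : y1 ≤ a * x1 + b) : pl x0 y0 x1 y1 x ≤ a * x + b := by
  unfold pl
  have kp : 0 < x1 - x0 := by linarith
  set l := (x - x0) / (x1 - x0) with hl
  have k0 : 0 ≤ l := div_nonneg (by linarith) kp.le
  have k1 : l ≤ 1 := by
    rw [hl, div_le_one kp]
    linarith
  have e : x = x0 + l * (x1 - x0) := by
    rw [hl]
    field_simp
    ring
  rw [e]
  nlinarith [mul_le_mul_of_nonneg_left h0 (sub_nonneg.2 k1), mul_le_mul_of_nonneg_left h1 k0]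

theorem le_pl_aff {x0 y0 x1 y1 x a b : ℝ} (h : x0 < x1) (k : x0 ≤ x) (k' : x ≤ x1)
    (h0 : a * x0 + b ≤ y0) (h1 : a * x1 + b ≤ y1) : a * x + b ≤ pl x0 y0 x1 y1 x := by
  unfold pl
  have kp : 0 < x1 - x0 := by linarith
  set l := (x - x0) / (x1 - x0) with hl
  have k0 : 0 ≤ l := div_nonneg (by linarith) kp.le
  have k1 : l ≤ 1 := by
    rw [hl, div_le_one kp]
    linarith
  have e : x = x0 + l * (x1 - x0) := by
    rw [hl]
    field_simp
    ring
  rw [e]
  nlinarith [mul_le_mul_of_nonneg_left h0 (sub_nonneg.2 k1), mul_le_mul_of_nonneg_left h1 k0]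

/-! ### The kernel on the unit circle -/

theorem dc_nonpos {w : ℝ} (h : 0 ≤ w) : dc par w ≤ 0 := by
  have a := par_d0.2
  have b := par_d1
  have c := par_d2.2
  have d := par_d3.2
  unfold dc
  split_ifs with h1 h2 h3 h4
  · refine mul_nonpos_of_nonneg_of_nonpos h ?_
    have : par.d1 * w ≤ 1282 / 10000 * 1 := mul_le_mul b.2 h1 h (by norm_num)
    linarith
  · exact pl_le (by norm_num) (not_le.1 h1).le h2 (by linarith [b.2]) (by linarith)
  · exact pl_le (by norm_num) (not_le.1 h2).le h3 (by linarith) (by linarith)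
  · exact pl_le (by norm_num) (not_le.1 h3).le h4 (by linarith) le_rfl
  · exact le_rfl

theorem dc_ge' {w : ℝ} (h : 0 ≤ w) : -(1625 / 1000) * w ≤ dc par w := by
  have a := par_d0.1
  have b := par_d1
  have c := par_d2.1
  have d := par_d3.1
  unfold dc
  split_ifs with h1 h2 h3 h4
  · have h5 := mul_le_mul_of_nonneg_left a h
    have h6 : 0 ≤ w * (par.d1 * w) := mul_nonneg h (mul_nonneg (by linarith [b.1]) h)
    linarith
  · have := le_pl_aff (a := -(1625 / 1000)) (b := 0) (y0 := par.d0 + par.d1) (y1 := par.d2)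
      (by norm_num : (1 : ℝ) < 3 / 2) (not_le.1 h1).le h2 (by linarith [b.1]) (by linarith)
    linarith
  · have := le_pl_aff (a := -(1625 / 1000)) (b := 0) (y0 := par.d2) (y1 := par.d3)
      (by norm_num : (3 / 2 : ℝ) < 5 / 2) (not_le.1 h2).le h3 (by linarith) (by linarith)
    linarith
  · have := le_pl_aff (a := -(1625 / 1000)) (b := 0) (y0 := par.d3) (y1 := 0)
      (by norm_num : (5 / 2 : ℝ) < 4) (not_le.1 h3).le h4 (by linarith) (by norm_num)
    linarith
  · linarith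

theorem RA_le2 {s σ : ℝ} (hs : 0 < s) (h : 0 ≤ σ) : RA par s σ ≤ 1 - 375 / 1000 * σ := by
  have h1 := dc_ge' (w := σ / s) (div_nonneg h hs.le)
  have h2 := mul_le_mul_of_nonneg_left h1 hs.le
  have e : s * (-(1625 / 1000) * (σ / s)) = -(1625 / 1000) * σ := by field_simp
  rw [e] at h2
  unfold RA
  linarith

theorem RA_le {s σ : ℝ} (hs : 0 < s) (h : 0 ≤ σ) : RA par s σ ≤ 1 := by
  have := RA_le2 hs h
  linarith

theorem RA_ge {s σ : ℝ} (hs : 0 < s) (h : 0 ≤ σ) : 1 - 2 * σ ≤ RA par s σ := by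
  have h1 := dc_nonpos (w := σ / s) (div_nonneg h hs.le)
  unfold RA
  nlinarith

theorem RA_abs {s σ : ℝ} (hs : 0 < s) (h : 0 ≤ σ) (h' : σ ≤ 1 / 2) : |RA par s σ| ≤ 1 := by
  rw [abs_le]
  exact ⟨by linarith [RA_ge hs h], RA_le hs h⟩

theorem RA_nonneg {s σ : ℝ} (hs : 0 < s) (h : 0 ≤ σ) (h' : σ ≤ 1 / 2) : 0 ≤ RA par s σ := by
  linarith [RA_ge hs h]

/-- A quotient with a small numerator. -/
theorem abs_div_le {a b c : ℝ} (hb : 0 < b) (h : |a| ≤ c * b) : |a / b| ≤ c := by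
  rw [abs_div, abs_of_pos hb, div_le_iff₀ hb]
  exact h

theorem R1_abs {s T : ℝ} (hs : 0 < s) (hT : 0 ≤ T) (hT1 : T ≤ 1) : |R1 par s T| ≤ 1 := by
  have g1 := h0_gt
  have g2 := h0_lt
  unfold R1
  split_ifs with h1 h2
  · exact RA_abs hs hT (by linarith)
  · rw [not_lt] at h1
    rw [abs_mul]
    have a1 := RA_abs hs hT h2
    have a2 : |(T - h0) / T| ≤ 1 := by
      refine abs_div_le (by linarith) ?_
      rw [abs_le]
      constructor <;> linarith
    have := mul_le_mul a1 a2 (abs_nonneg _) zero_le_one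
    linarith
  · rw [not_le] at h2
    have e := c1_sq hT hT1
    have c0 := c1_nonneg T
    have cl : c1 T ≤ h0 := by
      have := h0_sq'
      nlinarith [h0_pos]
    have s1 : |T / 2 - h0 * c1 T| ≤ 1 / 2 := by
      have := h0_sq'
      rw [abs_le]
      constructor <;> nlinarith [h0_pos]
    have a1 := RA_abs hs (abs_nonneg (T / 2 - h0 * c1 T)) s1
    have a2 : |1 / 2 - h0 * (T / 2 - h0 * c1 T) / (1 + (c1 T / 2 + h0 * T))| ≤ 1 := by
      have b1 : |h0 * (T / 2 - h0 * c1 T) / (1 + (c1 T / 2 + h0 * T))| ≤ 1 / 2 := by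
        have hd : 1 ≤ 1 + (c1 T / 2 + h0 * T) := by
          have := mul_nonneg h0_pos.le hT
          linarith
        refine abs_div_le (by linarith) ?_
        rw [abs_mul, abs_of_pos h0_pos]
        nlinarith [abs_nonneg (T / 2 - h0 * c1 T)]
      have b2 := abs_le.1 b1
      rw [abs_le]
      constructor <;> linarith [b2.1, b2.2]
    rw [abs_mul]
    have := mul_le_mul a1 a2 (abs_nonneg _) zero_le_one
    linarith

theorem R3_abs {s T : ℝ} (hs : 0 < s) (hT : 0 ≤ T) (hT3 : T ^ 2 ≤ 3) : |R3 par s T| ≤ 2 := by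
  have g1 := h0_gt
  have g2 := h0_lt
  have hh := h0_pos
  have hq := h0_sq'
  have e := c3_sq hT3
  have c0 := c3_nonneg T
  -- the quotient by `4 h0`
  have q : ∀ c : ℝ, c / (4 * h0) = c * h0 / 3 := fun c => by
    rw [div_eq_div_iff (by positivity) (by norm_num)]
    linear_combination (-4 * c) * hq
  unfold R3
  split_ifs with h1 h2 h3
  · have cc : 8 / 5 ≤ c3 T := by nlinarith
    have cu : c3 T ≤ 7 / 4 := by nlinarith
    have x1 : 1 / 4 ≤ c3 T / (4 * h0) - T / 2 := by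
      rw [q]
      nlinarith [mul_le_mul_of_nonneg_left g1.le c0]
    have x2 : c3 T / (4 * h0) - T / 2 ≤ 51 / 100 := by
      rw [q]
      nlinarith [mul_le_mul_of_nonneg_left g2.le c0]
    rw [abs_neg, abs_mul, abs_of_nonneg hT]
    have a1 : |RA par s (c3 T / (4 * h0) - T / 2)| ≤ 11 / 10 := by
      rw [abs_le]
      have := RA_le hs (σ := c3 T / (4 * h0) - T / 2) (by linarith)
      have := RA_ge hs (σ := c3 T / (4 * h0) - T / 2) (by linarith)
      constructor <;> linarith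
    have a2 : |RA par s (c3 T / (4 * h0) - T / 2) / (c3 T / (4 * h0) - T / 2)| ≤ 22 / 5 := by
      refine abs_div_le (by linarith) (a1.trans ?_)
      linarith
    have := mul_le_mul h1.le a2 (abs_nonneg _) (by positivity)
    nlinarith
  · rw [not_lt] at h1
    have cc : 11 / 10 ≤ c3 T := by nlinarith
    have cu : c3 T ≤ 17 / 10 := by nlinarith
    have s1 : |T / 2 - c3 T / (4 * h0)| ≤ 1 / 2 := by
      rw [q, abs_le]
      constructor <;> nlinarith [mul_le_mul_of_nonneg_left g1.le c0,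
        mul_le_mul_of_nonneg_left g2.le c0]
    have a1 := RA_abs hs (abs_nonneg (T / 2 - c3 T / (4 * h0))) s1
    have a2 : |3 / 2 - h0 * (T / 2 - c3 T / (4 * h0)) / (1 + (c3 T / 2 + T / (4 * h0)))| ≤ 2 := by
      have b1 : |h0 * (T / 2 - c3 T / (4 * h0)) / (1 + (c3 T / 2 + T / (4 * h0)))| ≤ 1 / 2 := by
        have hd : 1 ≤ 1 + (c3 T / 2 + T / (4 * h0)) := by
          have : 0 ≤ T / (4 * h0) := by positivity
          linarith
        refine abs_div_le (by linarith) ?_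
        rw [abs_mul, abs_of_pos h0_pos]
        nlinarith [abs_nonneg (T / 2 - c3 T / (4 * h0))]
      have b2 := abs_le.1 b1
      rw [abs_le]
      constructor <;> linarith [b2.1, b2.2]
    rw [abs_mul]
    have := mul_le_mul a1 a2 (abs_nonneg _) zero_le_one
    linarith
  · rw [not_lt] at h2
    have x1 : c3 T / (2 * h0) ≤ 1 / 2 := by
      rw [div_le_iff₀ (by positivity)]
      linarith
    have a1 := RA_abs hs (σ := c3 T / (2 * h0)) (by positivity) x1
    have a2 : |c3 T / (1 + T / (2 * h0))| ≤ 1 := by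
      have : 0 ≤ T / (2 * h0) := by positivity
      refine abs_div_le (by linarith) ?_
      rw [abs_of_nonneg c0]
      linarith
    rw [abs_mul]
    have := mul_le_mul a1 a2 (abs_nonneg _) zero_le_one
    linarith
  · rw [not_lt] at h2
    rw [not_le] at h3
    have hT32 : T < 3 / 2 := by nlinarith
    have cu : c3 T ≤ 6 / 5 := by nlinarith
    have x1 : 3 / 10 ≤ T / 2 - c3 T / (4 * h0) := by
      rw [q]
      nlinarith [mul_le_mul_of_nonneg_left g2.le c0]
    have x2 : T / 2 - c3 T / (4 * h0) ≤ 1 / 2 := by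
      rw [q]
      nlinarith [mul_le_mul_of_nonneg_left g1.le c0]
    have a1 := RA_abs hs (by linarith : 0 ≤ T / 2 - c3 T / (4 * h0)) x2
    have a2 : |RA par s (T / 2 - c3 T / (4 * h0)) / (T / 2 - c3 T / (4 * h0))| ≤ 10 / 3 := by
      refine abs_div_le (by linarith) (a1.trans ?_)
      linarith
    have a3 : |T - 2 * h0| ≤ 1 / 2 := by
      rw [abs_le]
      constructor <;> linarith
    rw [abs_mul]
    have := mul_le_mul a3 a2 (abs_nonneg _) (by norm_num)
    linarith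

/-! ### The square roots at the rest `s` -/

theorem g_facts {s : ℝ} (hs : 0 < s) (hs1 : s ≤ 11 / 400) :
    g s ^ 2 = 1 - s ^ 2 ∧ g s ≤ 1 ∧ 1 - s ^ 2 ≤ g s ∧ 999 / 1000 ≤ g s := by
  have h1 : 0 ≤ 1 - s ^ 2 := by nlinarith
  have e : g s ^ 2 = 1 - s ^ 2 := Real.sq_sqrt h1
  have g0 : 0 ≤ g s := Real.sqrt_nonneg _
  have g1 : g s ≤ 1 := by nlinarith
  have g2 : 1 - s ^ 2 ≤ g s := by nlinarith
  exact ⟨e, g1, g2, by nlinarith⟩

theorem x1_bd {s : ℝ} (hs : 0 < s) (hs1 : s ≤ 11 / 400) : 49 / 100 ≤ x1 s ∧ x1 s ≤ 1 / 2 := by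
  obtain ⟨-, a, -, b⟩ := g_facts hs hs1
  unfold x1
  constructor
  · rw [le_div_iff₀ (by linarith)]
    linarith
  · rw [div_le_iff₀ (by linarith)]
    linarith

/-- The slope of the level tables in closed form. -/
theorem xm_eq (p : Par) {s : ℝ} (hs : 0 < s) (hs1 : s < 1) :
    xm p s = -(s / ((1 + g s) * h0)) - 3 / g s + 2 + 2 / (1 + g s) +
      (2 + (p.d0 + p.d1)) * (1 / h0 - 2 * s / (1 + g s)) := by
  have hh := h0_pos
  have h1 : 0 < 1 - s ^ 2 := by nlinarith
  have e : g s ^ 2 = 1 - s ^ 2 := Real.sq_sqrt h1.le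
  have g0 : 0 < g s := Real.sqrt_pos.2 h1
  have ed : dc p (s / s) = p.d0 + p.d1 := by
    rw [div_self hs.ne']
    unfold dc
    rw [if_pos le_rfl]
    ring
  have ew : we s = s / (2 * h0) - s ^ 2 / (1 + g s) := by
    unfold we
    have : s ^ 2 / (1 + g s) = 1 - g s := by
      rw [div_eq_iff (by linarith)]
      linarith
    rw [this]
    ring
  unfold xm RA
  rw [ed, ew]
  field_simp
  have e3 : g s ^ 3 = g s * (1 - s ^ 2) := by rw [← e]; ring
  ring_nf
  rw [e3, e]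
  ring

theorem xm_bd {s : ℝ} (hs : 0 < s) (hs1 : s ≤ 11 / 400) : 1 / 2 ≤ xm par s ∧ xm par s ≤ 3 / 5 := by
  obtain ⟨-, a, -, b⟩ := g_facts hs hs1
  have g1 := h0_gt
  have g2 := h0_lt
  have hh := h0_pos
  rw [xm_eq par hs (by linarith)]
  have k1 : s / ((1 + g s) * h0) ≤ 2 / 100 := by
    rw [div_le_iff₀ (by positivity)]
    nlinarith
  have k1' : 0 ≤ s / ((1 + g s) * h0) := by
    have : 0 < 1 + g s := by linarith
    positivity
  have k2 : 3 / g s ≤ 3004 / 1000 := by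
    rw [div_le_iff₀ (by linarith)]
    nlinarith
  have k2' : 3 ≤ 3 / g s := by
    rw [le_div_iff₀ (by linarith)]
    linarith
  have k3 : 2 / (1 + g s) ≤ 1001 / 1000 := by
    rw [div_le_iff₀ (by linarith)]
    nlinarith
  have k3' : 1 ≤ 2 / (1 + g s) := by
    rw [le_div_iff₀ (by linarith)]
    linarith
  have k4 : 1 / h0 ≤ 1155 / 1000 := by
    rw [div_le_iff₀ hh]
    linarith
  have k4' : 1154 / 1000 ≤ 1 / h0 := by
    rw [le_div_iff₀ hh]
    linarith
  have k5 : 2 * s / (1 + g s) ≤ 3 / 100 := by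
    rw [div_le_iff₀ (by linarith)]
    linarith
  have k5' : 0 ≤ 2 * s / (1 + g s) := div_nonneg (by linarith) (by linarith)
  rw [par_one]
  obtain ⟨o1, o2⟩ := one_bd
  have m1 : 5034 / 10000 * (1124 / 1000) ≤ 436 / 1000 / h0 * (1 / h0 - 2 * s / (1 + g s)) :=
    mul_le_mul o1 (by linarith) (by norm_num) (by linarith)
  have m2 : 436 / 1000 / h0 * (1 / h0 - 2 * s / (1 + g s)) ≤ 5035 / 10000 * (1155 / 1000) :=
    mul_le_mul o2 (by linarith) (by linarith) (by norm_num)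
  constructor <;> linarith

/-- `s e' / e` in closed form. -/
theorem Pe_eq {s : ℝ} (hs : 0 < s) (hs1 : s ≤ 11 / 400) :
    Pe s = 1 - s * (1 / (g s * ((1 + g s) * (1 / (2 * h0) - s / (1 + g s))))) := by
  obtain ⟨-, a, -, b⟩ := g_facts hs hs1
  have hh := h0_pos
  have g2 := h0_lt
  have hd : 0 < 1 / (2 * h0) - s / (1 + g s) := by
    have h1 : s / (1 + g s) ≤ 1 / 50 := by
      rw [div_le_iff₀ (by linarith)]
      linarith
    have h2 : 1 / 2 ≤ 1 / (2 * h0) := by
      rw [le_div_iff₀ (by positivity)]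
      linarith
    linarith
  have g0 : 0 < g s := by linarith
  have g1 : 0 < 1 + g s := by linarith
  unfold Pe
  rw [div_eq_iff hd.ne']
  have e1 : s * (1 / (g s * ((1 + g s) * (1 / (2 * h0) - s / (1 + g s))))) *
      (1 / (2 * h0) - s / (1 + g s)) = s / (g s * (1 + g s)) := by
    generalize 1 / (2 * h0) - s / (1 + g s) = M at hd
    field_simp
  rw [sub_mul, e1, one_mul]
  field_simp
  ring

theorem Pe_bd' {s : ℝ} (hs : 0 < s) (hs1 : s ≤ 11 / 400) : 1 - 2 * s ≤ Pe s ∧ Pe s ≤ 1 := by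
  obtain ⟨-, a, -, b⟩ := g_facts hs hs1
  have hh := h0_pos
  have g2 := h0_lt
  have hd : 12 / 25 ≤ 1 / (2 * h0) - s / (1 + g s) := by
    have h1 : s / (1 + g s) ≤ 1 / 50 := by
      rw [div_le_iff₀ (by linarith)]
      linarith
    have h2 : 1 / 2 ≤ 1 / (2 * h0) := by
      rw [le_div_iff₀ (by positivity)]
      linarith
    linarith
  have h3 : 1 / 2 ≤ g s * ((1 + g s) * (1 / (2 * h0) - s / (1 + g s))) := by
    have k1 : 1999 / 1000 * (12 / 25) ≤ (1 + g s) * (1 / (2 * h0) - s / (1 + g s)) :=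
      mul_le_mul (by linarith) hd (by norm_num) (by linarith)
    have k2 := mul_le_mul b k1 (by norm_num) (by linarith)
    linarith
  rw [Pe_eq hs hs1]
  have h4 : 1 / (g s * ((1 + g s) * (1 / (2 * h0) - s / (1 + g s)))) ≤ 2 := by
    rw [div_le_iff₀ (by linarith)]
    linarith
  have h5 : 0 ≤ 1 / (g s * ((1 + g s) * (1 / (2 * h0) - s / (1 + g s)))) :=
    div_nonneg zero_le_one (by linarith)
  constructor
  · nlinarith
  · nlinarith

/-! ### The pinned slopes -/

theorem pinU_bd {s : ℝ} (hs : 0 < s) (hs1 : s ≤ 11 / 400) : |pinU par s| ≤ 3 := by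
  obtain ⟨eg, a, ag, b⟩ := g_facts hs hs1
  have hh := h0_pos
  have g1 := h0_gt
  have g2 := h0_lt
  have hq := h0_sq'
  set T := h0 + s with hTd
  have hT1 : T < 1 := by linarith
  have hT0 : 0 ≤ T := by positivity
  have e := c1_sq hT0 hT1.le
  have c0 := c1_nonneg T
  -- the abscissa
  have cl : c1 T ≤ 1 / 2 := by nlinarith
  have c4 : 2 / 5 ≤ c1 T := by nlinarith
  have ec : (1 / 2 - c1 T) * (1 / 2 + c1 T) = s * (2 * h0 + s) := by
    rw [hTd] at e ⊢
    nlinarith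
  have b1 : 17 / 10 * s ≤ 1 / 2 - c1 T := by nlinarith
  have b2 : 1 / 2 - c1 T ≤ 2 * s := by nlinarith
  -- the denominator
  have d1 : 8 / 5 * s ≤ g s - 1 / 2 - c1 T := by nlinarith
  -- the angle
  have s0 : 0 ≤ T / 2 - h0 * c1 T := by nlinarith
  have s1 : T / 2 - h0 * c1 T ≤ 5 / 2 * s := by
    have : T / 2 - h0 * c1 T = s / 2 + h0 * (1 / 2 - c1 T) := by rw [hTd]; ring
    rw [this]
    nlinarith
  have r1 := RA_le hs s0
  have r2 : 1 - 5 * s ≤ RA par s (T / 2 - h0 * c1 T) := by linarith [RA_ge hs s0]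
  have q1 := RA_le hs hs.le
  have q2 := RA_ge hs hs.le
  obtain ⟨p1, p2⟩ := Pe_bd' hs hs1
  have f0 : 0 ≤ h0 * (T / 2 - h0 * c1 T) / (1 + (c1 T / 2 + h0 * T)) := by positivity
  have f1 : h0 * (T / 2 - h0 * c1 T) / (1 + (c1 T / 2 + h0 * T)) ≤ 3 / 2 * s := by
    rw [div_le_iff₀ (by positivity)]
    have k1 : 0 ≤ c1 T / 2 + h0 * T := by positivity
    have k2 : 7 / 10 ≤ h0 * T := by nlinarith
    nlinarith [mul_nonneg hs.le k1]
  have n1 : R1 par s T = RA par s (T / 2 - h0 * c1 T) *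
      (1 / 2 - h0 * (T / 2 - h0 * c1 T) / (1 + (c1 T / 2 + h0 * T))) := by
    unfold R1
    rw [if_neg (by linarith), if_neg (by linarith), abs_of_nonneg s0]
  have n2 : R1 par s T ≤ 1 / 2 := by
    rw [n1]
    nlinarith
  have n3 : 1 / 2 - 4 * s ≤ R1 par s T := by
    rw [n1]
    nlinarith
  unfold pinU
  rw [← hTd]
  refine abs_div_le (by linarith) ?_
  rw [abs_le]
  constructor <;> nlinarith

end Pool.Agent.Strip051.LC.E0
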