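import Pool.Agent.Strip051.LC.E0.Bd

/-! # Small rests: crude bounds of all tables -/

namespace Pool.Agent.Strip051.LC.E0

open Pool.Agent.StripNear Pool.Agent.StripSquare Pool.Agent.Strip051 Pool.Agent.Strip051.Sweep

theorem quot4 (c : ℝ) : c / (4 * h0) = c * h0 / 3 := by
  have hh := h0_pos
  rw [div_eq_div_iff (by positivity) (by norm_num)]
  linear_combination (-4 * c) * h0_sq'

theorem pinL_bd {s : ℝ} (hs : 0 < s) (hs1 : s ≤ 11 / 400) : |pinL par s| ≤ 8 := by
  obtain ⟨eg, a, ag, b⟩ := g_facts hs hs1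
  have hh := h0_pos
  have g1 := h0_gt
  have g2 := h0_lt
  have hq := h0_sq'
  set T := h0 - s with hTd
  have hT0 : 0 ≤ T := by linarith
  have hT3 : T ^ 2 ≤ 3 := by nlinarith
  have e := c3_sq hT3
  have c0 := c3_nonneg T
  have cl : 3 / 2 ≤ c3 T := by nlinarith
  have c4 : c3 T ≤ 31 / 20 := by nlinarith
  have ec : (c3 T - 3 / 2) * (c3 T + 3 / 2) = s * (2 * h0 - s) := by
    rw [hTd] at e ⊢
    nlinarith
  have b1 : 1 / 2 * s ≤ c3 T - 3 / 2 := by nlinarith
  have b2 : c3 T - 3 / 2 ≤ 3 / 5 * s := by nlinarith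
  have d1 : 1 / 2 * s ≤ c3 T - (1 / 2 + g s) := by linarith
  have es : T / 2 - c3 T / (4 * h0) = -(s / 2 + (c3 T - 3 / 2) * h0 / 3) := by
    rw [quot4, hTd]
    ring
  have s0 : 0 ≤ s / 2 + (c3 T - 3 / 2) * h0 / 3 := by
    have : 0 ≤ (c3 T - 3 / 2) * h0 := mul_nonneg (by linarith) hh.le
    linarith
  have s1 : s / 2 + (c3 T - 3 / 2) * h0 / 3 ≤ 3 / 4 * s := by nlinarith
  have n1 : R3 par s T = RA par s (s / 2 + (c3 T - 3 / 2) * h0 / 3) *
      (3 / 2 + h0 * (s / 2 + (c3 T - 3 / 2) * h0 / 3) / (1 + (c3 T / 2 + T / (4 * h0)))) := by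
    unfold R3
    rw [if_neg (by linarith), if_pos (by linarith), es, abs_neg, abs_of_nonneg s0]
    ring
  set σ := s / 2 + (c3 T - 3 / 2) * h0 / 3 with hσ
  have r1 := RA_le hs s0
  have r2 : 1 - 3 / 2 * s ≤ RA par s σ := by linarith [RA_ge hs s0]
  have q1 := RA_le hs hs.le
  have q2 := RA_ge hs hs.le
  obtain ⟨p1, p2⟩ := Pe_bd' hs hs1
  have f0 : 0 ≤ h0 * σ / (1 + (c3 T / 2 + T / (4 * h0))) := by positivity
  have f1 : h0 * σ / (1 + (c3 T / 2 + T / (4 * h0))) ≤ 3 / 4 * s := by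
    have k1 : 0 ≤ c3 T / 2 + T / (4 * h0) := by positivity
    rw [div_le_iff₀ (by positivity)]
    nlinarith [mul_nonneg hs.le k1]
  have n2 : R3 par s T ≤ 3 / 2 + s := by
    rw [n1]
    nlinarith
  have n3 : 3 / 2 - 3 * s ≤ R3 par s T := by
    rw [n1]
    nlinarith
  unfold pinL
  rw [← hTd]
  refine abs_div_le (by linarith) ?_
  rw [abs_le]
  constructor <;> nlinarith

theorem slU_bd {s z : ℝ} (hs : 0 < s) (hs1 : s ≤ 11 / 400) (hz : 0 ≤ z) :
    |slU par s z| ≤ 3 := by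
  have h := abs_le.1 (pinU_bd hs hs1)
  have g1 := h0_gt
  have g2 := h0_lt
  have e : par.sA = 92 / 125 := rfl
  unfold slU
  rw [e, abs_le]
  split_ifs with h1 h2
  · have k1 := mul_le_mul_of_nonneg_right h.1 hz
    have k2 := mul_le_mul_of_nonneg_right h.2 hz
    constructor <;> linarith
  · exact h
  · constructor <;> linarith

theorem slU_far {s z : ℝ} (hz : 2 < z) : |slU par s z| ≤ 1 / 2 := by
  have g1 := h0_gt
  have g2 := h0_lt
  unfold slU
  rw [if_neg (by linarith), if_neg (by linarith), abs_le]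
  constructor <;> linarith

theorem slL_bd {s z : ℝ} (hs : 0 < s) (hs1 : s ≤ 11 / 400) (hz : 0 ≤ z) :
    |slL par s z| ≤ 8 := by
  have h := abs_le.1 (pinL_bd hs hs1)
  have e : par.sC = 0 := rfl
  have e' : par.mC = 27 / 20 := rfl
  unfold slL
  rw [e, e', abs_le]
  split_ifs with h1 h2
  · have k1 := mul_le_mul_of_nonneg_right h.1 hz
    have k2 := mul_le_mul_of_nonneg_right h.2 hz
    constructor <;> linarith
  · exact h
  · constructor <;> norm_num

theorem slL_far {s z : ℝ} (hz : 2 < z) : |slL par s z| ≤ 27 / 20 := by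
  unfold slL
  rw [if_neg (by linarith), if_neg (by linarith)]
  unfold par
  norm_num

/-- The curve `W` above `h0`. -/
theorem W_up {T : ℝ} (h : h0 ≤ T) (hT3 : T ^ 2 ≤ 3) :
    (Wc T + 1 / 2) ^ 2 + (T - h0) ^ 2 = 1 ∧ 0 ≤ Wc T + 1 / 2 := by
  have hh := h0_pos
  have hq := h0_sq'
  have h1 : T ≤ 2 * h0 := by nlinarith
  have h2 : 0 ≤ 1 - (T - h0) ^ 2 := by nlinarith
  have e : Wc T = √(1 - (T - h0) ^ 2) - 1 / 2 := if_neg h.not_gt
  rw [e, sub_add_cancel, Real.sq_sqrt h2]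
  exact ⟨by ring, Real.sqrt_nonneg _⟩

/-- The curve `W` below `h0`. -/
theorem W_dn {T : ℝ} (hT : 0 ≤ T) (h : T < h0) :
    (Wc T - 1 / 2) ^ 2 + (h0 - T) ^ 2 = 1 ∧ 0 ≤ Wc T - 1 / 2 := by
  have hh := h0_pos
  have hq := h0_sq'
  have h2 : 0 ≤ 1 - (T - h0) ^ 2 := by nlinarith
  have e : Wc T = √(1 - (T - h0) ^ 2) + 1 / 2 := if_pos h
  rw [e, add_sub_cancel_right, Real.sq_sqrt h2]
  exact ⟨by ring, Real.sqrt_nonneg _⟩

theorem RW_abs_up {s T : ℝ} (hs : 0 < s) (hs1 : s ≤ 11 / 400) (h2' : h0 ≤ T)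
    (hT3 : T ^ 2 ≤ 3) : |RW par s T| ≤ 8 / 5 := by
  have hh := h0_pos
  have g1 := h0_gt
  have g2 := h0_lt
  have hq := h0_sq'
  have hT : 0 ≤ T := by linarith
  obtain ⟨o1, o2, o3, o4, o5⟩ := order5 hT hT3
  have oW : c1 T ≤ Wc T := by linarith
  have k0 : 0 ≤ (T - h0) / s := div_nonneg (by linarith) hs.le
  obtain ⟨w1, w2⟩ := W_up h2' hT3
  have c0 := c1_nonneg T
  have key : |slU par s ((T - h0) / s) * (Wc T - c1 T)| ≤ 3 / 5 := by
    rw [abs_mul, abs_of_nonneg (sub_nonneg.2 oW)]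
    rcases le_or_gt ((T - h0) / s) 2 with h4 | h4
    · have h5 : T - h0 ≤ 2 * s := by
        rwa [div_le_iff₀ hs] at h4
      have h6 : Wc T - c1 T ≤ 1 / 5 := by
        have e1 := c1_sq hT (by linarith : T ≤ 1)
        have k1 : Wc T ≤ 1 / 2 := by nlinarith
        have k2 : 3 / 10 ≤ c1 T := by nlinarith
        linarith
      have := mul_le_mul (slU_bd hs hs1 k0) h6 (sub_nonneg.2 oW) (by norm_num)
      linarith
    · have h6 : Wc T - c1 T ≤ 1 := by nlinarith
      have := mul_le_mul (slU_far (s := s) h4) h6 (sub_nonneg.2 oW) (by norm_num)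
      linarith
  unfold RW
  rw [if_neg (by linarith), if_neg (by linarith)]
  split_ifs with h3
  · have a1 := abs_le.1 (R1_abs hs hT h3.le)
    have a2 := abs_le.1 key
    rw [abs_le]
    constructor <;> linarith [a1.1, a1.2, a2.1, a2.2]
  · rw [zero_add]
    linarith

theorem RW_abs {s T : ℝ} (hs : 0 < s) (hs1 : s ≤ 11 / 400) (hT : 0 ≤ T) (hT3 : T ^ 2 ≤ 3) :
    |RW par s T| ≤ 12 / 5 := by
  have hh := h0_pos
  have g1 := h0_gt
  have g2 := h0_lt
  have hq := h0_sq'
  obtain ⟨o1, o2, o3, o4, o5⟩ := order5 hT hT3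
  have oW : c1 T ≤ Wc T := by linarith
  have oW3 : Wc T ≤ c3 T := by linarith
  rcases le_or_gt h0 T with h2' | h2
  · linarith [RW_abs_up hs hs1 h2' hT3]
  unfold RW
  rw [if_pos h2]
  split_ifs with h1
  · have := RA_abs hs hT (by linarith)
    linarith
  · rw [not_lt] at h1
    have k0 : 0 ≤ (h0 - T) / s := div_nonneg (by linarith) hs.le
    obtain ⟨w1, w2⟩ := W_dn hT h2
    have e3 := c3_sq hT3
    have c0 := c3_nonneg T
    have r3 := R3_abs hs hT hT3
    have key : |slL par s ((h0 - T) / s) * (c3 T - Wc T)| ≤ 2 / 5 := by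
      rw [abs_mul, abs_of_nonneg (sub_nonneg.2 oW3)]
      rcases le_or_gt ((h0 - T) / s) 2 with h4 | h4
      · have h5 : h0 - T ≤ 2 * s := by
          rwa [div_le_iff₀ hs] at h4
        have h6 : c3 T - Wc T ≤ 1 / 20 := by
          have k1 : 997 / 1000 ≤ Wc T - 1 / 2 := by nlinarith
          have k2 : c3 T ≤ 154 / 100 := by nlinarith
          linarith
        have := mul_le_mul (slL_bd hs hs1 k0) h6 (sub_nonneg.2 oW3) (by norm_num)
        linarith
      · have h6 : c3 T - Wc T ≤ 28 / 100 := by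
          have k1 : 9 / 10 ≤ Wc T - 1 / 2 := by nlinarith
          have k2 : c3 T ≤ 168 / 100 := by nlinarith
          linarith
        have := mul_le_mul (slL_far (s := s) h4) h6 (sub_nonneg.2 oW3) (by norm_num)
        linarith
    have a1 := abs_le.1 r3
    have a2 := abs_le.1 key
    rw [abs_le]
    constructor <;> linarith [a1.1, a1.2, a2.1, a2.2]
theorem vA_abs {s T : ℝ} (hs : 0 < s) (hs1 : s ≤ 11 / 400) (hT : 0 ≤ T) (hT3 : T ^ 2 ≤ 3)
    (j : Fin 4) : |vA par s T j| ≤ 5 / 2 := by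
  have hh := h0_pos
  have g1 := h0_gt
  have g2 := h0_lt
  obtain ⟨o1, o2, o3, o4, o5⟩ := order5 hT hT3
  have e3 := c3_sq hT3
  have c30 : c3 T ≤ 7 / 4 := by nlinarith [c3_nonneg T]
  have c0 := c1_nonneg T
  have rw' := RW_abs hs hs1 hT hT3
  fin_cases j
  · simp only [vA, Fin.zero_eta, Matrix.cons_val_zero]
    split_ifs with h
    · linarith [R1_abs hs hT h.le]
    · norm_num
  · simp only [vA, Fin.mk_one, Matrix.cons_val_one, Matrix.cons_val_zero]
    split_ifs with h1 h2 h3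
    · linarith [RA_abs hs hT (by linarith)]
    · have a := abs_le.1 (R1_abs hs hT (by linarith))
      have e : par.l2 = 353 / 500 := rfl
      rw [e, abs_le]
      constructor <;> linarith [a.1, a.2]
    · linarith
    · rw [abs_le]
      constructor <;> linarith
  · simp only [vA, Fin.reduceFinMk, Matrix.cons_val]
    split_ifs with h1 h2
    · linarith
    · have a := abs_le.1 (RW_abs_up hs hs1 (not_lt.1 h1) hT3)
      have e : par.l1 = 353 / 500 := rfl
      rw [e, abs_le]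
      constructor <;> linarith [a.1, a.2]
    · rw [abs_le]
      constructor <;> linarith
  · simp only [vA, Fin.reduceFinMk, Matrix.cons_val]
    linarith [R3_abs hs hT hT3]

/-! ### The level tables -/

theorem x0_bd {s w : ℝ} (hs : 0 < s) (hs1 : s ≤ 11 / 400) (hw : 0 ≤ w) (hw1 : w ≤ 3 / 2) :
    |x0 par s w| ≤ 1 := by
  obtain ⟨a1, a2⟩ := x1_bd hs hs1
  obtain ⟨b1, b2⟩ := xm_bd hs hs1
  unfold x0
  rw [abs_le]
  split_ifs with h
  · constructor <;> nlinarith [mul_nonneg hw (sub_nonneg.2 h)]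
  · constructor <;> nlinarith

theorem xA_bd {s w : ℝ} (hs : 0 < s) (hs1 : s ≤ 11 / 400) (hw : 0 ≤ w) :
    |xA par s w| ≤ 32 / 25 := by
  obtain ⟨a1, a2⟩ := x1_bd hs hs1
  obtain ⟨b1, b2⟩ := xm_bd hs hs1
  unfold xA
  split_ifs with h1 h2 h3
  · linarith [x0_bd hs hs1 hw h1]
  · exact abs_pl (by norm_num) (not_le.1 h1).le h2 (by rw [abs_le]; constructor <;> linarith)
      (by unfold par; norm_num)
  · exact abs_pl (by norm_num) (not_le.1 h2).le h3 (by unfold par; norm_num) (by norm_num)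
  · norm_num

theorem xW_bd {s w : ℝ} (hs : 0 < s) (hs1 : s ≤ 11 / 400) (hw : 0 ≤ w) :
    |xW par s w| ≤ 5 / 4 := by
  obtain ⟨a1, a2⟩ := x1_bd hs hs1
  obtain ⟨b1, b2⟩ := xm_bd hs hs1
  unfold xW
  split_ifs with h1 h2
  · linarith [x0_bd hs hs1 hw h1]
  · exact abs_pl (by norm_num) (not_le.1 h1).le h2 (by rw [abs_le]; constructor <;> linarith)
      (by norm_num)
  · norm_num

theorem xB_bd {z : ℝ} (hz : 0 ≤ z) : |xB par z| ≤ 4 / 5 := by
  unfold xB par
  split_ifs with h1 h2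
  · simp only
    rw [abs_le]
    constructor <;> nlinarith
  · exact abs_pl (by norm_num) (not_le.1 h1).le h2 (by norm_num) (by norm_num)
  · norm_num

theorem vx_abs {s T : ℝ} (hs : 0 < s) (hs1 : s ≤ 11 / 400) (hT : 0 ≤ T) (hT3 : T ^ 2 ≤ 3)
    (j : Fin 4) : |vx par s T j| ≤ 7 / 2 := by
  have hh := h0_pos
  have g1 := h0_gt
  have g2 := h0_lt
  have hq := h0_sq'
  obtain ⟨o1, o2, o3, o4, o5⟩ := order5 hT hT3
  have e3 := c3_sq hT3
  have c30 := c3_nonneg T
  have A : ∀ w, 0 ≤ w → |xA par s (w / s)| ≤ 32 / 25 := fun w hw =>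
    xA_bd hs hs1 (div_nonneg hw hs.le)
  have B : ∀ w, 0 ≤ w → |xB par (w / (2 * s))| ≤ 4 / 5 := fun w hw =>
    xB_bd (div_nonneg hw (by linarith))
  have V : ∀ X, 0 ≤ X → |XV par s X| ≤ 7 / 2 := by
    intro X hX
    have hx : 0 ≤ X / (2 * h0) := by positivity
    have a := abs_le.1 (A _ hx)
    have b := abs_le.1 (B _ hx)
    unfold XV
    rw [abs_le]
    constructor <;> linarith [a.1, a.2, b.1, b.2]
  have U : T < 1 → |X1 par s T| ≤ 7 / 2 := by
    intro h
    have e := c1_sq hT h.le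
    unfold X1
    split_ifs with k1 k2
    · linarith [A T hT]
    · have : 0 ≤ h0 * c1 T - T / 2 := by
        have : 1 / 2 ≤ c1 T := by nlinarith [c1_nonneg T]
        nlinarith
      linarith [B _ this]
    · rw [not_lt] at k2
      have : 0 ≤ T / 2 - h0 * c1 T := by
        have : c1 T ≤ 1 / 2 := by nlinarith [c1_nonneg T]
        nlinarith
      have a := abs_le.1 (A _ this)
      have b := abs_le.1 (B _ this)
      rw [abs_le]
      constructor <;> linarith [a.1, a.2, b.1, b.2]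
  have c1p : 0 ≤ pos.cv 1 T := (c1_nonneg T).trans (pos.low 1 hT hT3)
  have c2p : 0 ≤ pos.cv 2 T := (c1_nonneg T).trans (pos.low 2 hT hT3)
  have c12 : pos.cv 1 T ≤ pos.cv 2 T := pos.cv_mono hT hT3 (by decide)
  fin_cases j
  · simp only [vx, Fin.zero_eta, Matrix.cons_val_zero]
    split_ifs with h
    · exact U h
    · norm_num
  · simp only [vx, Fin.mk_one, Matrix.cons_val_one, Matrix.cons_val_zero]
    split_ifs with h1 h2 h3
    · linarith [A T hT]
    · exact U (by linarith)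
    · have : 0 ≤ (T - h0) / s := div_nonneg (by linarith) hs.le
      linarith [xW_bd hs hs1 this]
    · rw [abs_mul]
      have k : |pos.cv 1 T / pos.cv 2 T| ≤ 1 := by
        rw [abs_of_nonneg (div_nonneg c1p c2p)]
        exact div_le_one_of_le₀ c12 c2p
      have := mul_le_mul (V _ c2p) k (abs_nonneg _) (by norm_num)
      linarith
  · simp only [vx, Fin.reduceFinMk, Matrix.cons_val]
    split_ifs with h1 h2 h3
    · linarith [A T hT]
    · have : 0 ≤ (h0 - T) / s := div_nonneg (by linarith) hs.le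
      linarith [xW_bd hs hs1 this]
    · have : 0 ≤ (T - h0) / s := div_nonneg (by linarith) hs.le
      linarith [xW_bd hs hs1 this]
    · exact V _ c2p
  · simp only [vx, Fin.reduceFinMk, Matrix.cons_val]
    unfold X3
    rw [quot4]
    split_ifs with h1 h2
    · have : 0 ≤ c3 T * h0 / 3 - T / 2 := by
        have : 3 / 2 ≤ c3 T := by nlinarith
        nlinarith
      have a := abs_le.1 (A _ this)
      have b := abs_le.1 (B _ this)
      rw [abs_le]
      constructor <;> linarith [a.1, a.2, b.1, b.2]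
    · rw [not_le] at h1
      have : 0 ≤ T / 2 - c3 T * h0 / 3 := by
        have : c3 T ≤ 3 / 2 := by nlinarith
        nlinarith
      have a := abs_le.1 (A _ this)
      have b := abs_le.1 (B _ this)
      rw [abs_le]
      constructor <;> linarith [a.1, a.2, b.1, b.2]
    · exact V _ c30

/-! ### The near vertex -/

theorem taper_bd {z : ℝ} (hz : 0 ≤ z) : |taper z| ≤ 1 := by
  unfold taper
  split_ifs with h1 h2
  · rw [abs_of_nonneg hz]
    exact h1
  · exact abs_pl (by norm_num) (not_le.1 h1).le h2 (by norm_num) (by norm_num)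
  · norm_num

theorem r2_bd {s : ℝ} (hs : 0 < s) (hs1 : s ≤ 11 / 400) :
    |r2 par s| ≤ 1 ∧ |r2d par s| ≤ 1 := by
  obtain ⟨a1, a2⟩ := x1_bd hs hs1
  obtain ⟨b1, b2⟩ := xm_bd hs hs1
  obtain ⟨-, c1', -, c2'⟩ := g_facts hs hs1
  obtain ⟨p1, p2⟩ := Pe_bd' hs hs1
  have q1 := RA_le hs hs.le
  have q2 := RA_ge hs hs.le
  have hh := h0_pos
  have g1 := h0_gt
  have k1 : 0 ≤ s * (s / g s + 1 / (2 * h0)) := by
    have : 0 < g s := by linarith
    positivity
  have k2 : s * (s / g s + 1 / (2 * h0)) ≤ 2 / 100 := by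
    have h1 : s / g s ≤ 3 / 100 := by
      rw [div_le_iff₀ (by linarith)]
      linarith
    have h2 : 1 / (2 * h0) ≤ 3 / 5 := by
      rw [div_le_iff₀ (by positivity)]
      linarith
    nlinarith
  have k3 : 9 / 10 ≤ g s * xm par s / x1 s := by
    rw [le_div_iff₀ (by linarith)]
    nlinarith
  have k4 : g s * xm par s / x1 s ≤ 13 / 10 := by
    rw [div_le_iff₀ (by linarith)]
    nlinarith
  have k5 : 0 ≤ xm par s / (2 * x1 s) := div_nonneg (by linarith) (by linarith)
  have k6 : xm par s / (2 * x1 s) ≤ 1 := by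
    rw [div_le_iff₀ (by linarith)]
    linarith
  unfold r2 r2d
  rw [abs_le, abs_le]
  refine ⟨⟨?_, ?_⟩, ?_, ?_⟩ <;> linarith

theorem vR_abs {s T : ℝ} (hs : 0 < s) (hs1 : s ≤ 11 / 400) (hT : 0 ≤ T) (j : Fin 4) :
    |vR par s T j| ≤ 2 := by
  obtain ⟨a, b⟩ := r2_bd hs hs1
  have key : ∀ u w, |u| ≤ 2 → 0 ≤ w → |u * taper (w / s)| ≤ 2 := by
    intro u w hu hw
    rw [abs_mul]
    have := mul_le_mul hu (taper_bd (div_nonneg hw hs.le)) (abs_nonneg _) (by norm_num)
    linarith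
  have u1 : |r2 par s| ≤ 2 := by linarith
  have u2 : |r2 par s + r2d par s| ≤ 2 := (abs_add_le _ _).trans (by linarith)
  have u3 : |r2 par s - r2d par s| ≤ 2 := (abs_sub _ _).trans (by linarith)
  fin_cases j
  · simp only [vR, Fin.zero_eta, Matrix.cons_val_zero]
    split_ifs with h
    · exact key _ _ u1 hT
    · norm_num
  · simp only [vR, Fin.mk_one, Matrix.cons_val_one, Matrix.cons_val_zero]
    split_ifs with h1 h2 h3
    · exact key _ _ u1 hT
    · norm_num
    · exact key _ _ u2 (by linarith)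
    · norm_num
  · simp only [vR, Fin.reduceFinMk, Matrix.cons_val]
    split_ifs with h1 h2 h3
    · exact key _ _ u1 hT
    · exact key _ _ u3 (by linarith)
    · exact key _ _ u2 (by linarith)
    · norm_num
  · simp only [vR, Fin.reduceFinMk, Matrix.cons_val]
    norm_num

end Pool.Agent.Strip051.LC.E0
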