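import Mathlib

/-! # Small rests: the functions and the list of the charts

Scaled coordinates: `x = s / h0`, heights `h0 x w` next to the horizontal direction and
`h0 (1 + x z)` next to the height `h0`.  Every table is `K + x k` with a function `k` without
denominators in `x`.  `Rows V` is the list of the statements which give all rows of the window at
the vertex `V`. -/

namespace Pool.Agent.Strip051.LC.E0

namespace G

/-- A case distinction. -/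
noncomputable def cse (c a b : ℝ) : ℝ := if c ≤ 0 then a else b

/-- `√(1 - s ^ 2)`. -/
noncomputable def gs (x : ℝ) : ℝ := Real.sqrt (1 - 3 / 4 * x ^ 2)

noncomputable def ic (x : ℝ) : ℝ := 1 / (1 + gs x)

noncomputable def ep (x : ℝ) : ℝ := 1 / 2 - 3 / 4 * x * ic x

noncomputable def et (x : ℝ) : ℝ := (1 - 3 / 2 * ic x) / (1 - x)

noncomputable def ch (x : ℝ) : ℝ := 3 / 4 * (2 * gs x - 1) * ic x

noncomputable def mm (x : ℝ) : ℝ :=
  109 / 250 - 3 / 4 * x * ic x - 3 / 2 * (3 / 2 - gs x) / gs x +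
    3 / 2 * (1 - 109 / 250 * x) * ic x

noncomputable def pq (x : ℝ) : ℝ := 3 / 8 / (gs x * (1 + gs x) * ep x)

noncomputable def qw (w x : ℝ) : ℝ := Real.sqrt (1 - 3 / 4 * x ^ 2 * w ^ 2)

noncomputable def om (w x : ℝ) : ℝ := 3 / 4 * w ^ 2 / (1 + qw w x)

/-- The kernel on the unit circle: `RA s (s w) = 1 - x dt w`. -/
noncomputable def dt (w : ℝ) : ℝ :=
  cse (w - 1) (w * (13 / 40 + 111 / 1000 * w))
    (cse (w - 3 / 2) (51 / 100 * w - 37 / 500)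
      (cse (w - 5 / 2) (127 / 200 * w - 523 / 2000)
        (cse (w - 4) (442 / 125 - 221 / 250 * w + 8 / 3 * (w - 5 / 2) * Real.sqrt 3)
          (w * Real.sqrt 3))))

noncomputable def q1 (w x : ℝ) : ℝ := w * (2 * ch x - mm x + (mm x - ch x) * w)

noncomputable def xa (w x : ℝ) : ℝ :=
  cse (w - 1) (q1 w x)
    (cse (w - 3 / 2) (ch x + mm x * (w - 1))
      (cse (w - 5 / 2) (ch x + mm x / 2 + (957 / 1000 - (ch x + mm x / 2)) * (w - 3 / 2))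
        (cse (w - 4) (319 / 125 * (1 - w / 4)) 0)))

noncomputable def xw (w x : ℝ) : ℝ :=
  cse (w - 1) (q1 w x)
    (cse (w - 3 / 2) (ch x + mm x * (w - 1))
      (cse (w - 5 / 2) ((ch x + mm x / 2) * (5 / 2 - w)) 0))

noncomputable def xb (v : ℝ) : ℝ :=
  cse (v - 1) (v * (181 / 500 + 209 / 1000 * v))
    (cse (v - 5 / 2) (571 / 1500 * (5 / 2 - v)) 0)

noncomputable def gh (w : ℝ) : ℝ := cse (w - 1) w (cse (w - 4) ((4 - w) / 3) 0)

/-! ### The unit circle at the height `h0 (1 + x z)` -/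

noncomputable def cc1 (z x : ℝ) : ℝ := Real.sqrt (1 - 3 / 4 * (1 + x * z) ^ 2)

noncomputable def xi1 (z x : ℝ) : ℝ := -(3 / 4 * z * (2 + x * z) / (1 / 2 + cc1 z x))

noncomputable def sg1 (z x : ℝ) : ℝ := z / 2 - xi1 z x

noncomputable def k1 (d z x : ℝ) : ℝ :=
  -(d / 2) - 3 / 4 * sg1 z x * (1 - x * d) / (1 + (cc1 z x / 2 + 3 / 4 * (1 + x * z)))

noncomputable def k1p (z x : ℝ) : ℝ := k1 (dt (sg1 z x)) z x
noncomputable def k1m (z x : ℝ) : ℝ := k1 (dt (-sg1 z x)) z x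
noncomputable def x1p (z x : ℝ) : ℝ := xa (sg1 z x) x - xb (sg1 z x / 2)
noncomputable def x1m (z x : ℝ) : ℝ := xb (-(sg1 z x / 2))
noncomputable def xiw (z x : ℝ) : ℝ := -(x * om z x)
noncomputable def pu (x : ℝ) : ℝ := (pq x - 109 / 250 - k1p 1 x) / (xiw 1 x - xi1 1 x)

noncomputable def su (z x : ℝ) : ℝ :=
  cse (z - 1) (92 / 125 + (pu x - 92 / 125) * z)
    (cse (z - 2) (pu x) (2 * Real.sqrt 3 - 3))

noncomputable def kwu (z x : ℝ) : ℝ := k1p z x + su z x * (xiw z x - xi1 z x)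

/-! ### The circle of radius `√3` at the height `h0 (1 + x z)` -/

noncomputable def cc3 (z x : ℝ) : ℝ := Real.sqrt (3 - 3 / 4 * (1 + x * z) ^ 2)

noncomputable def xi3 (z x : ℝ) : ℝ := -(3 / 4 * z * (2 + x * z) / (3 / 2 + cc3 z x))

noncomputable def sg3 (z x : ℝ) : ℝ := z / 2 - xi3 z x / 3

noncomputable def k3 (d z x : ℝ) : ℝ :=
  -(3 / 2 * d) - 3 / 4 * sg3 z x * (1 - x * d) / (1 + (cc3 z x / 2 + 1 / 4 * (1 + x * z)))

noncomputable def k3p (z x : ℝ) : ℝ := k3 (dt (sg3 z x)) z x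
noncomputable def k3m (z x : ℝ) : ℝ := k3 (dt (-sg3 z x)) z x
noncomputable def x3p (z x : ℝ) : ℝ := 2 * xa (sg3 z x) x - xb (sg3 z x / 2)
noncomputable def x3m (z x : ℝ) : ℝ := xa (-sg3 z x) x + xb (-(sg3 z x / 2))

noncomputable def pl' (x : ℝ) : ℝ := (k3m (-1) x + 109 / 250 + pq x) / (xi3 (-1) x - xiw (-1) x)

/-- Here `z ≤ 0`. -/
noncomputable def sl (z x : ℝ) : ℝ :=
  cse (-z - 1) (-(pl' x * z)) (cse (-z - 2) (pl' x) (27 / 20))

noncomputable def kwl (z x : ℝ) : ℝ := k3m z x - sl z x * (xi3 z x - xiw z x)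

/-! ### The slopes between the curves -/

/-- `W - c1` below `h0`. -/
noncomputable def dwl (z x : ℝ) : ℝ := 1 + x * (xiw z x - xi1 z x)

/-- `c3 - W` above `h0`. -/
noncomputable def dwu (z x : ℝ) : ℝ := 1 + x * (xi3 z x - xiw z x)

noncomputable def saw (z x : ℝ) : ℝ :=
  3 / 2 * (1 + x * (kwl z x - k1m z x) - 353 / 1500 * dwl z x) / dwl z x

noncomputable def sbc (z x : ℝ) : ℝ :=
  20 / 17 * ((1 + x * (k3p z x - kwu z x)) / dwu z x - 1059 / 10000)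

/-! ### The second kernel -/

noncomputable def rf (x : ℝ) : ℝ :=
  3 / 4 * x ^ 2 / gs x + x / 2 - (1 - 109 / 250 * x) + gs x * mm x / ch x

noncomputable def pp2 (x : ℝ) : ℝ := 1 / 2 - x * pq x
noncomputable def rwu (x : ℝ) : ℝ := rf x + pp2 x - mm x / ch x / 2
noncomputable def rwl (x : ℝ) : ℝ := rf x - pp2 x + mm x / ch x / 2
noncomputable def mu (x : ℝ) : ℝ := 1 / (2 * gs x + 3)
noncomputable def lb (x : ℝ) : ℝ := ch x * mu x / ep x

/-! ### The slacks -/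

/-- The slack inside one cell. -/
noncomputable def FinE (x a b l g gam del base lev : ℝ) : ℝ :=
  3 / 4 * g * ic x + base - ep x * gam - lev -
    ep x * (1 - l) * |del| * (1 - x * l) / (1 - x) -
    x * ep x * (if del ≤ 0 then b else a) * l * del ^ 2 * (1 - x * l) ^ 2 /
      ((1 - x) * (g + x * gam + x * (if del ≤ 0 then b else a) * |del| * (1 - x * l)))

/-- The domain of `FinE`. -/
def InOk (x a b l g gam del : ℝ) : Prop :=
  0 ≤ a ∧ 0 ≤ b ∧ 0 < l ∧ x * l < 1 ∧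
    x * (if del ≤ 0 then a else b) * |del| * (1 - x * l) ≤ g + x * gam

/-- The slack beyond one cell. -/
noncomputable def FoutE (x a b l g gam del base lev : ℝ) : ℝ :=
  g / (2 * x) * (1 - 1 / l) ^ 2 + g * ((1 + x * et x) / 2 - et x * (1 - 1 / (2 * l)) / l) +
    base - lev - (1 + x * et x) * (gam * (1 - 1 / (2 * l) - x * l / 2) / l +
      (a - b) * del * (1 - x * l) * (1 - 1 / l) / (2 * l) +
      a * b * x * del ^ 2 * (1 - x * l) ^ 2 / (2 * l ^ 2 * (g + x * gam)))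

/-- The domain of `FoutE`. -/
def OutOk (x a b l g gam del : ℝ) : Prop :=
  0 ≤ a ∧ 0 ≤ b ∧ 0 < l ∧ 0 < g + x * gam ∧ 0 < g + x * gam + x * a * del * (1 - x * l) ∧
    0 < g + x * gam - x * b * del * (1 - x * l) ∧
    g + x * gam + x * a * del * (1 - x * l) ≤ (g + x * gam) * l ∧
    g + x * gam - x * b * del * (1 - x * l) ≤ (g + x * gam) * l

/-- The crude slack inside one cell. -/
noncomputable def FcE (x l g gam del base lev : ℝ) : ℝ :=
  3 / 4 * g * ic x + base - ep x * gam - lev - ep x * |del| * (1 - x * l) / (1 - x)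

/-- The domain of `FcE`. -/
def CinOk (x a b l g gam : ℝ) : Prop :=
  0 ≤ a ∧ 0 ≤ b ∧ 0 < l ∧ x * l < 1 ∧ 0 ≤ g + x * gam

/-- One of the slacks is nonnegative. -/
def Slk (x a b l g gam del base lev : ℝ) : Prop :=
  (InOk x a b l g gam del ∧ 0 ≤ FinE x a b l g gam del base lev) ∨
    (OutOk x a b l g gam del ∧ 0 ≤ FoutE x a b l g gam del base lev) ∨
    (CinOk x a b l g gam ∧ 0 ≤ FcE x l g gam del base lev)

end G

open G

/-- The near kernel in scaled form. -/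
noncomputable def nk (x k K r : ℝ) : ℝ := k * (1 + x * lb x) + lb x * (K + r)

/-- The signs of the three residues. -/
inductive Pat
  | pp
  | pnp
  | pnn

/-- The condition on the signs. -/
def Pat.Ok : Pat → ℝ → ℝ → Prop
  | .pp, _, z => 0 ≤ z
  | .pnp, w, z => z ≤ 0 ∧ 0 ≤ w + z
  | .pnn, w, z => w + z ≤ 0

/-- The slack for the three patterns. -/
def SlkP (P : Pat) (x w z K13 base k12 k23 k13 lev : ℝ) : Prop :=
  match P with
  | .pp => Slk x w z (w + z) (w + z - w * K13) (z * k12 - w * k23) (k12 + k23 - k13) base lev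
  | .pnp => Slk x (w + z) (-z) w (w + z - w * K13)
      (z * k12 - w * k23 - z * (k12 + k23 - k13)) (k12 + k23 - k13) base lev
  | .pnn => Slk x (-(w + z)) w (-z) (w + z - w * K13)
      (z * k12 - w * k23 + w * (k12 + k23 - k13)) (k12 + k23 - k13) base lev

/-- The statement of a chart, far vertex. -/
def FarC (P : Pat) (x w z K13 xi13 k12 k23 k13 c12 c23 c13 : ℝ) : Prop :=
  SlkP P x w z K13 (-(om w x * (1 + x * (w + z)) + xi13 * w) / 2) k12 k23 k13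
    (|c12 + c23 - c13| / 2)

/-- The first level of the near vertex. -/
noncomputable def levA (x w z c12 c23 c13 : ℝ) : ℝ :=
  (3 + x) / 2 * (c12 + c23 - c13) -
    (x * w * c12 + (1 + 2 * x * w + x * z) * c23 - (1 + x * (w + z)) * c13) / 2

/-- The second level of the near vertex. -/
noncomputable def levB (x w z c12 c23 c13 : ℝ) : ℝ :=
  -((3 + x) / 2 * (c12 + c23 - c13)) +
    ((1 + x * z) * c23 + (2 * (1 + x * z) + x * w) * c12 - (1 + x * (w + z)) * c13) / 2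

/-- The statement of a chart, near vertex. -/
def NearC (P : Pat) (x w z K13 xi13 k12 k23 k13 c12 c23 c13 r12 r23 r13 : ℝ) : Prop :=
  SlkP P x w z K13 (-(om w x * (1 + x * (w + z)) + xi13 * w) / 2) (nk x k12 1 r12)
    (nk x k23 (K13 - 1) r23) (nk x k13 K13 r13)
    (-min (G.mu x * levA x w z c12 c23 c13) (G.mu x * levB x w z c12 c23 c13))

/-- The statement of a chart, near vertex, second form: the correction is estimated. -/
def NearC2 (P : Pat) (x w z K13 xi13 k12 k23 k13 c12 c23 c13 r12 r23 r13 : ℝ) : Prop :=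
  SlkP P x w z K13 (-(om w x * (1 + x * (w + z)) + xi13 * w) / 2) (nk x k12 1 0)
    (nk x k23 (K13 - 1) 0) (nk x k13 K13 0)
    (-min (G.mu x * levA x w z c12 c23 c13) (G.mu x * levB x w z c12 c23 c13) +
      ep x * lb x * (|r12| + |r23| + |r13|))

/-- The two vertices. -/
inductive Vx
  | far
  | near

namespace G

/-- The horizontal side on the unit circle. -/
noncomputable def S12 (w x : ℝ) : ℝ × ℝ × ℝ := (-dt w, xa w x, rf x * gh w)

/-- The unit circle above `h0`. -/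
noncomputable def N1u (z x : ℝ) : ℝ × ℝ × ℝ := (k1p z x, x1p z x, 0)

/-- The unit circle below `h0`. -/
noncomputable def N1d (z x : ℝ) : ℝ × ℝ × ℝ := (k1m z x, x1m z x, 0)

/-- The circle of radius `√3` above `h0`. -/
noncomputable def N3u (z x : ℝ) : ℝ × ℝ × ℝ := (k3p z x, x3p z x, 0)

/-- The circle of radius `√3` below `h0`. -/
noncomputable def N3d (z x : ℝ) : ℝ × ℝ × ℝ := (k3m z x, x3m z x, 0)

/-- The curve `W` above `h0`. -/
noncomputable def NWu (z x : ℝ) : ℝ × ℝ × ℝ := (kwu z x, xw z x, rwu x * gh z)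

/-- The curve `W` below `h0`. -/
noncomputable def NWd (z x : ℝ) : ℝ × ℝ × ℝ := (kwl z x, xw (-z) x, rwl x * gh (-z))

/-- The position of `b`. -/
noncomputable def xib (z x : ℝ) : ℝ := xiw z x + 3 / 20 * dwu z x / x

/-- The curve `b` above `h0`. -/
noncomputable def Nbu (z x : ℝ) : ℝ × ℝ × ℝ :=
  (kwu z x + 1059 / 10000 * dwu z x / x, xw z x, rwu x * gh z)

/-- Between `c1` and `W`, above `h0`. -/
noncomputable def P1u (xi z x : ℝ) : ℝ × ℝ × ℝ :=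
  (k1p z x + su z x * (xi - xi1 z x),
    x1p z x + (xw z x - x1p z x) * ((xi - xi1 z x) / (xiw z x - xi1 z x)),
    rwu x * gh z * ((xi - xi1 z x) / (xiw z x - xi1 z x)))

/-- Between `W` and `b`, above `h0`. -/
noncomputable def P2u (xi z x : ℝ) : ℝ × ℝ × ℝ :=
  (kwu z x + 353 / 500 * (xi - xiw z x), xw z x, rwu x * gh z)

/-- Between `b` and `c3`, above `h0`; the position is `3 / 2 + x xi`. -/
noncomputable def P3u (xi z x : ℝ) : ℝ × ℝ × ℝ :=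
  (k3p z x + sbc z x * (xi - xi3 z x),
    x3p z x + (x3p z x - xw z x) * (x * (xi - xi3 z x) / (17 / 20 * dwu z x)),
    -(rwu x * gh z * (x * (xi - xi3 z x) / (17 / 20 * dwu z x))))

/-- Between `c1` and `a`, below `h0`. -/
noncomputable def P1d (xi z x : ℝ) : ℝ × ℝ × ℝ :=
  (k1m z x + 353 / 500 * (xi - xi1 z x), x1m z x, 0)

/-- Between `a` and `W`, below `h0`; the position is `3 / 2 + x xi`. -/
noncomputable def P2d (xi z x : ℝ) : ℝ × ℝ × ℝ :=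
  (kwl z x + saw z x * (xi - xiw z x),
    xw (-z) x + (xw (-z) x - x1m z x) * (x * (xi - xiw z x) / (2 / 3 * dwl z x)),
    rwl x * gh (-z) * (1 + x * (xi - xiw z x) / (2 / 3 * dwl z x)))

/-- Between `W` and `c3`, below `h0`; the position is `3 / 2 + x xi`. -/
noncomputable def P3d (xi z x : ℝ) : ℝ × ℝ × ℝ :=
  (k3m z x - G.sl z x * (xi3 z x - xi),
    x3m z x + (xw (-z) x - x3m z x) * ((xi3 z x - xi) / (xi3 z x - xiw z x)),
    rwl x * gh (-z) * ((xi3 z x - xi) / (xi3 z x - xiw z x)))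

end G

/-- The statement for one vertex. -/
def RowC (V : Vx) (P : Pat) (x w z K13 xi13 : ℝ) (a b c : ℝ × ℝ × ℝ) : Prop :=
  match V with
  | .far => FarC P x w z K13 xi13 a.1 b.1 c.1 a.2.1 b.2.1 c.2.1
  | .near => NearC P x w z K13 xi13 a.1 b.1 c.1 a.2.1 b.2.1 c.2.1 a.2.2 b.2.2 c.2.2 ∨
      NearC2 P x w z K13 xi13 a.1 b.1 c.1 a.2.1 b.2.1 c.2.1 a.2.2 b.2.2 c.2.2

/-- The domain of the charts: the window and the bound for the excess. -/
structure Dom (M x w z K13 xi13 : ℝ) : Prop where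
  x0 : 0 < x
  x1 : x ≤ 4 / 125
  w0 : 0 ≤ w
  w1 : w ≤ M
  z0 : -M ≤ z
  z1 : z ≤ M
  u0 : -M ≤ w + z
  u1 : w + z ≤ M
  xz : x * z ≤ 3 / 25
  xu : x * (w + z) ≤ 3 / 25
  g : w + z - w * K13 - x * (om w x * (1 + x * (w + z)) + xi13 * w) ≤ 79 / 25

/-- **The charts of the vertex `V`**; in all of them the side 12 is on the unit circle.
The third side is in the piece named last. -/
structure Rows (V : Vx) : Prop where
  /-- T1, 23 on `c1`, `z ≤ 0`, 13 in `[c1, W]` -/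
  t1a_c1_d : ∀ x w z xi : ℝ, xi = -(x * om w x) - xi1 z x → Dom 6 x w z (1 / 2) xi → z ≤ 0 →
    0 ≤ w + z → xi1 (w + z) x ≤ xi → xi ≤ xiw (w + z) x →
    0 < w → RowC V .pnp x w z (1 / 2) xi (S12 w x) (-N1d z x) (P1u xi (w + z) x)
  /-- T1, 23 on `c1`, `z ≥ 0`, 13 in `[W, b]` -/
  t1a_c1_u : ∀ x w z xi : ℝ, xi = -(x * om w x) - xi1 z x → Dom 6 x w z (1 / 2) xi → 0 ≤ z →
    xiw (w + z) x ≤ xi → x * (xi - xiw (w + z) x) ≤ 3 / 20 * dwu (w + z) x →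
    0 < w + z → RowC V .pp x w z (1 / 2) xi (S12 w x) (-N1u z x) (P2u xi (w + z) x)
  /-- T1, 23 on `W`, `z ≥ 0`, 13 in `[W, b]` -/
  t1a_W : ∀ x w z xi : ℝ, xi = -(x * om w x) - xiw z x → Dom 8 x w z (1 / 2) xi → 0 ≤ z →
    xiw (w + z) x ≤ xi → x * (xi - xiw (w + z) x) ≤ 3 / 20 * dwu (w + z) x →
    0 < w + z → RowC V .pp x w z (1 / 2) xi (S12 w x) (-NWu z x) (P2u xi (w + z) x)
  /-- T1, 13 on `c1`, `z ≤ 0`, 23 in `[c1, a]`; `xi'` is the position of 23 -/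
  t1b_c1_d : ∀ x w z xi xi' : ℝ, xi = xi1 (w + z) x → xi' = -(x * om w x) - xi →
    Dom 6 x w z (1 / 2) xi → z ≤ 0 → 0 ≤ w + z → xi1 z x ≤ xi' →
    x * (xi' - xi1 z x) ≤ 1 / 3 * dwl z x →
    0 < w → RowC V .pnp x w z (1 / 2) xi (S12 w x) (-P1d xi' z x) (N1u (w + z) x)
  /-- T1, 13 on `c1`, `z ≥ 0`, 23 in `[W, b]` -/
  t1b_c1_u : ∀ x w z xi xi' : ℝ, xi = xi1 (w + z) x → xi' = -(x * om w x) - xi →
    Dom 6 x w z (1 / 2) xi → 0 ≤ z → xiw z x ≤ xi' → x * (xi' - xiw z x) ≤ 3 / 20 * dwu z x →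
    0 < w + z → RowC V .pp x w z (1 / 2) xi (S12 w x) (-P2u xi' z x) (N1u (w + z) x)
  /-- T1, 13 on `W`, `z ≥ 0`, 23 in `[W, b]` -/
  t1b_W : ∀ x w z xi xi' : ℝ, xi = xiw (w + z) x → xi' = -(x * om w x) - xi →
    Dom 8 x w z (1 / 2) xi → 0 ≤ z → xiw z x ≤ xi' → x * (xi' - xiw z x) ≤ 3 / 20 * dwu z x →
    0 < w + z → RowC V .pp x w z (1 / 2) xi (S12 w x) (-P2u xi' z x) (NWu (w + z) x)
  /-- T2, 23 on `W`, `z ≤ 0 ≤ w + z`, 13 in `[W, b]`; `xi'` is minus the position of 13 -/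
  t2a_W : ∀ x w z xi xi' : ℝ, xi' = xiw z x + x * om w x → xi = -xi' →
    Dom 8 x w z (-(1 / 2)) xi → z ≤ 0 → 0 ≤ w + z → xiw (w + z) x ≤ xi' →
    x * (xi' - xiw (w + z) x) ≤ 3 / 20 * dwu (w + z) x →
    0 < w → RowC V .pnp x w z (-(1 / 2)) xi (S12 w x) (-NWd z x) (-P2u xi' (w + z) x)
  /-- T2, 23 on `c3`, `w + z ≤ 0`, 13 in `[c1, a]` -/
  t2a_c3_dd : ∀ x w z xi xi' : ℝ, xi' = xi3 z x + x * om w x → xi = -xi' →
    Dom 6 x w z (-(1 / 2)) xi → w + z ≤ 0 → xi1 (w + z) x ≤ xi' →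
    x * (xi' - xi1 (w + z) x) ≤ 1 / 3 * dwl (w + z) x →
    z < 0 → RowC V .pnn x w z (-(1 / 2)) xi (S12 w x) (-N3d z x) (-P1d xi' (w + z) x)
  /-- T2, 23 on `c3`, `z ≤ 0 ≤ w + z`, 13 in `[W, b]` -/
  t2a_c3_du : ∀ x w z xi xi' : ℝ, xi' = xi3 z x + x * om w x → xi = -xi' →
    Dom 6 x w z (-(1 / 2)) xi → z ≤ 0 → 0 ≤ w + z → xiw (w + z) x ≤ xi' →
    x * (xi' - xiw (w + z) x) ≤ 3 / 20 * dwu (w + z) x →
    0 < w → RowC V .pnp x w z (-(1 / 2)) xi (S12 w x) (-N3d z x) (-P2u xi' (w + z) x)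
  /-- T2, 23 on `c3`, `z ≥ 0`, 13 in `[c1, W]` -/
  t2a_c3_u1 : ∀ x w z xi xi' : ℝ, xi' = xi3 z x + x * om w x → xi = -xi' →
    Dom 6 x w z (-(1 / 2)) xi → 0 ≤ z → xi1 (w + z) x ≤ xi' → xi' ≤ xiw (w + z) x →
    0 < w + z → RowC V .pp x w z (-(1 / 2)) xi (S12 w x) (-N3u z x) (-P1u xi' (w + z) x)
  /-- T2, 23 on `c3`, `z ≥ 0`, 13 in `[W, b]` -/
  t2a_c3_u2 : ∀ x w z xi xi' : ℝ, xi' = xi3 z x + x * om w x → xi = -xi' →
    Dom 6 x w z (-(1 / 2)) xi → 0 ≤ z → xiw (w + z) x ≤ xi' →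
    x * (xi' - xiw (w + z) x) ≤ 3 / 20 * dwu (w + z) x →
    0 < w + z → RowC V .pp x w z (-(1 / 2)) xi (S12 w x) (-N3u z x) (-P2u xi' (w + z) x)
  /-- T2, 13 on `c1`, `w + z ≤ 0`, 23 in `[W, c3]`; `xi'` is minus the position of 23 -/
  t2b_c1_dd : ∀ x w z xi xi' : ℝ, xi = -xi1 (w + z) x → xi' = -(x * om w x) - xi →
    Dom 6 x w z (-(1 / 2)) xi → w + z ≤ 0 → xiw z x ≤ xi' → xi' ≤ xi3 z x →
    z < 0 → RowC V .pnn x w z (-(1 / 2)) xi (S12 w x) (-P3d xi' z x) (-N1d (w + z) x)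
  /-- T2, 13 on `c1`, `z ≤ 0 ≤ w + z`, 23 in `[a, W]` -/
  t2b_c1_du : ∀ x w z xi xi' : ℝ, xi = -xi1 (w + z) x → xi' = -(x * om w x) - xi →
    Dom 6 x w z (-(1 / 2)) xi → z ≤ 0 → 0 ≤ w + z → x * (xiw z x - xi') ≤ 2 / 3 * dwl z x →
    xi' ≤ xiw z x →
    0 < w → RowC V .pnp x w z (-(1 / 2)) xi (S12 w x) (-P2d xi' z x) (-N1u (w + z) x)
  /-- T2, 13 on `c1`, `z ≥ 0`, 23 in `[b, c3]` -/
  t2b_c1_u : ∀ x w z xi xi' : ℝ, xi = -xi1 (w + z) x → xi' = -(x * om w x) - xi →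
    Dom 6 x w z (-(1 / 2)) xi → 0 ≤ z → x * (xi3 z x - xi') ≤ 17 / 20 * dwu z x → xi' ≤ xi3 z x →
    0 < w + z → RowC V .pp x w z (-(1 / 2)) xi (S12 w x) (-P3u xi' z x) (-N1u (w + z) x)
  /-- T2, 13 on `W`, `z ≤ 0 ≤ w + z`, 23 in `[a, W]` -/
  t2b_W_d : ∀ x w z xi xi' : ℝ, xi = -xiw (w + z) x → xi' = -(x * om w x) - xi →
    Dom 8 x w z (-(1 / 2)) xi → z ≤ 0 → 0 ≤ w + z → x * (xiw z x - xi') ≤ 2 / 3 * dwl z x →
    xi' ≤ xiw z x →
    0 < w → RowC V .pnp x w z (-(1 / 2)) xi (S12 w x) (-P2d xi' z x) (-NWu (w + z) x)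
  /-- T2, 13 on `W`, `z ≥ 0`, 23 in `[b, c3]` -/
  t2b_W_u : ∀ x w z xi xi' : ℝ, xi = -xiw (w + z) x → xi' = -(x * om w x) - xi →
    Dom 8 x w z (-(1 / 2)) xi → 0 ≤ z → x * (xi3 z x - xi') ≤ 17 / 20 * dwu z x → xi' ≤ xi3 z x →
    0 < w + z → RowC V .pp x w z (-(1 / 2)) xi (S12 w x) (-P3u xi' z x) (-NWu (w + z) x)
  /-- T2', 23 on `c1`, `z ≥ 0`, 13 in `[b, c3]` -/
  t3a_c1 : ∀ x w z xi : ℝ, xi = -(x * om w x) + xi1 z x → Dom 6 x w z (3 / 2) xi → 0 ≤ z →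
    x * (xi3 (w + z) x - xi) ≤ 17 / 20 * dwu (w + z) x → xi ≤ xi3 (w + z) x →
    0 < w + z → RowC V .pp x w z (3 / 2) xi (S12 w x) (N1u z x) (P3u xi (w + z) x)
  /-- T2', 23 on `c1`, `z ≥ 0`, 13 in `[b, c3]`, larger heights -/
  t3a_c1_x : ∀ x w z xi : ℝ, xi = -(x * om w x) + xi1 z x → Dom (46 / 5) x w z (3 / 2) xi →
    w ≤ 4 → 6 ≤ w + z → 0 ≤ z → x * (xi3 (w + z) x - xi) ≤ 17 / 20 * dwu (w + z) x →
    xi ≤ xi3 (w + z) x → RowC V .pp x w z (3 / 2) xi (S12 w x) (N1u z x) (P3u xi (w + z) x)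
  /-- T2', 13 on `c3`, `z ≥ 0`, 23 in `[c1, W]` -/
  t3b_c3 : ∀ x w z xi xi' : ℝ, xi = xi3 (w + z) x → xi' = xi + x * om w x →
    Dom 6 x w z (3 / 2) xi → 0 ≤ z → xi1 z x ≤ xi' → xi' ≤ xiw z x →
    0 < w + z → RowC V .pp x w z (3 / 2) xi (S12 w x) (P1u xi' z x) (N3u (w + z) x)
  /-- T2, 23 on `c3`, `w + z ≤ 0`, 13 in `[c1, a]`, the remaining part `z ≤ -6` -/
  t2a_c3_dd_x : ∀ x w z xi xi' : ℝ, xi' = xi3 z x + x * om w x → xi = -xi' →
    Dom (31 / 5) x w z (-(1 / 2)) xi → w ≤ 4 → z ≤ -6 → w + z ≤ 0 → xi1 (w + z) x ≤ xi' →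
    x * (xi' - xi1 (w + z) x) ≤ 1 / 3 * dwl (w + z) x →
    RowC V .pnn x w z (-(1 / 2)) xi (S12 w x) (-N3d z x) (-P1d xi' (w + z) x)
  /-- T2, 13 on `c1`, `w + z ≤ 0`, 23 in `[W, c3]`, the remaining part `z ≤ -6` -/
  t2b_c1_dd_x : ∀ x w z xi xi' : ℝ, xi = -xi1 (w + z) x → xi' = -(x * om w x) - xi →
    Dom (31 / 5) x w z (-(1 / 2)) xi → w ≤ 4 → z ≤ -6 → w + z ≤ 0 → xiw z x ≤ xi' →
    xi' ≤ xi3 z x →
    RowC V .pnn x w z (-(1 / 2)) xi (S12 w x) (-P3d xi' z x) (-N1d (w + z) x)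

end Pool.Agent.Strip051.LC.E0
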