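import Pool.Agent.Strip051.LC.E0.RedW

/-! # Small rests: the vertices of the window, preliminaries -/

namespace Pool.Agent.Strip051.LC.E0

open Pool.Agent.StripNear Pool.Agent.StripSquare Pool.Agent.Strip051 Pool.Agent.Strip051.Sweep
open Pool.Agent.Strip051.LC.Line
open G

/-- The data of a side as a triple. -/
def DatT (x T K ξ : ℝ) (a : ℝ × ℝ × ℝ) : Prop := Dat x T K ξ a.1 a.2.1 a.2.2

theorem DatT.neg {x T K ξ : ℝ} {a : ℝ × ℝ × ℝ} (h : DatT x T K ξ a) :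
    DatT x T (-K) (-ξ) (-a) := Dat.neg h

theorem DatT.congr {x T K K' ξ ξ' : ℝ} {a : ℝ × ℝ × ℝ} (h : DatT x T K ξ a) (e : K = K')
    (e' : ξ = ξ') : DatT x T K' ξ' a := e ▸ e' ▸ h

section

variable {x w z : ℝ}

theorem Win.d12 (h : Win x w z) : DatT x (h0 * (x * w)) 1 (-(x * om w x)) (S12 w x) :=
  dat_w h.x0 h.x1 h.w0 h.xw1

/-- **A row of the window.** -/
theorem row_okv {V : Vx} {P : Pat} (h : Win x w z) (hP : P.Ok w z) {K23 K13 xi23 xi13 : ℝ}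
    {a b c : ℝ × ℝ × ℝ} (d12 : DatT x (h0 * (x * w)) 1 (-(x * om w x)) a)
    (d23 : DatT x (h0 * (1 + x * z)) K23 xi23 b)
    (d13 : DatT x (h0 * (1 + x * (w + z))) K13 xi13 c) (hK : K23 = K13 - 1)
    (hxi : xi23 = xi13 + x * om w x) (hS : RowC V P x w z K13 xi13 a b c) :
    OKV V (h0 * x) (1 + x * -(x * om w x)) (K13 + x * xi13) (h0 * (x * w))
      (h0 * (1 + x * z)) := by
  have d23' : DatT x (h0 * (1 + x * z)) (K13 - 1) (xi13 - -(x * om w x)) b :=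
    d23.congr hK (by rw [hxi]; ring)
  cases V
  · exact far_row h hP rfl d12 d23' d13 hS
  · rcases hS with hS | hS
    · exact near_row h hP rfl d12 d23' d13 hS
    · exact near_row2 h hP rfl d12 d23' d13 hS

theorem Win.u_eq (h : Win x w z) : c1 (h0 * (x * w)) = 1 + x * -(x * om w x) := by
  have a0 : 0 ≤ x * w := mul_nonneg h.x0.le h.w0
  have a1 := h.xw1
  rw [c1_hx, qw_eq (by nlinarith)]
  ring

theorem Win.om_mono {x u v : ℝ} (hx : 0 ≤ x) (h : u ^ 2 ≤ v ^ 2) (hv : 3 / 4 * x ^ 2 * v ^ 2 ≤ 1) :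
    om u x ≤ om v x := by
  have h1 : 3 / 4 * x ^ 2 * u ^ 2 ≤ 1 := by nlinarith [mul_le_mul_of_nonneg_left h (sq_nonneg x)]
  have h2 : qw v x ≤ qw u x := by
    unfold qw
    refine Real.sqrt_le_sqrt ?_
    nlinarith [mul_le_mul_of_nonneg_left h (sq_nonneg x)]
  have h3 : 0 ≤ qw v x := Real.sqrt_nonneg _
  unfold om
  rw [div_le_div_iff₀ (by linarith) (by linarith)]
  have h4 : 0 ≤ u ^ 2 := sq_nonneg u
  have h5 : u ^ 2 * (1 + qw v x) ≤ v ^ 2 * (1 + qw u x) :=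
    mul_le_mul h (by linarith) (by linarith) (sq_nonneg v)
  linarith

/-- The threshold for the excess. -/
noncomputable def thrE (s : ℝ) : ℝ := (174 / 100 + 3 * s) * s

/-- The smaller window. -/
structure In6 (w z : ℝ) : Prop where
  w1 : w ≤ 6
  z0 : -6 ≤ z
  z1 : z ≤ 6
  u0 : -6 ≤ w + z
  u1 : w + z ≤ 6

/-- Below the threshold the charts apply. -/
theorem Win.domX (h : Win x w z) {K13 xi13 : ℝ}
    (hE : exn (1 + x * -(x * om w x)) (K13 + x * xi13) (h0 * (x * w)) (h0 * (1 + x * z)) <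
      thrE (h0 * x)) : Dom (46 / 5) x w z K13 xi13 where
  x0 := h.x0
  x1 := h.x1
  w0 := h.w0
  w1 := by linarith [h.w1]
  z0 := by linarith [h.z0]
  z1 := by linarith [h.z1]
  u0 := by linarith [h.u0]
  u1 := h.u1
  xz := h.hz
  xu := h.hu
  g := by
    have hx := h.x0
    have hh := h0_pos
    have g2 := h0_lt
    have e := exn_win (w := w) (z := z) (X12 := 1 + x * -(x * om w x)) (X13 := K13 + x * xi13)
      (om := om w x) (K13 := K13) (xi := xi13) hx.ne' (by ring) rfl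
    rw [e] at hE
    set M := w + z - w * K13 - x * (om w x * (1 + x * (w + z)) + xi13 * w) with hM
    have e2 : x ^ 2 * ((w + z - w * K13) / (2 * x) +
        -(om w x * (1 + x * (w + z)) + xi13 * w) / 2) = x / 2 * M := by
      rw [hM]
      field_simp
      ring
    rw [e2] at hE
    unfold thrE at hE
    have h1 : (174 / 100 + 3 * (h0 * x)) * (h0 * x) ≤ x / 2 * (79 / 25) := by
      have h3 : 174 / 100 + 3 * (h0 * x) ≤ 18225 / 10000 := by linarith [h.s1]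
      have h4 : (174 / 100 + 3 * (h0 * x)) * h0 ≤ 18225 / 10000 * (8661 / 10000) :=
        mul_le_mul h3 (by linarith) hh.le (by norm_num)
      have h5 := mul_le_mul_of_nonneg_right h4 hx.le
      nlinarith
    have h6 : x / 2 * M < x / 2 * (79 / 25) := by linarith
    exact (lt_of_mul_lt_mul_left h6 (by positivity)).le

theorem Win.dom (h : Win x w z) (h8 : w + z ≤ 8) {K13 xi13 : ℝ}
    (hE : exn (1 + x * -(x * om w x)) (K13 + x * xi13) (h0 * (x * w)) (h0 * (1 + x * z)) <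
      thrE (h0 * x)) : Dom 8 x w z K13 xi13 where
  x0 := h.x0
  x1 := h.x1
  w0 := h.w0
  w1 := h.w1
  z0 := h.z0
  z1 := h.z1
  u0 := h.u0
  u1 := h8
  xz := h.hz
  xu := h.hu
  g := (h.domX hE).g

theorem Dom6 {K13 xi13 : ℝ} (h : Dom 8 x w z K13 xi13) (h6 : In6 w z) :
    Dom 6 x w z K13 xi13 where
  x0 := h.x0
  x1 := h.x1
  w0 := h.w0
  w1 := h6.w1
  z0 := h6.z0
  z1 := h6.z1
  u0 := h6.u0
  u1 := h6.u1
  xz := h.xz
  xu := h.xu
  g := h.g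

theorem Dom7 {K13 xi13 : ℝ} (h : Dom 8 x w z K13 xi13) (h4 : w ≤ 4) (h5 : -(31 / 5) ≤ z)
    (h6 : z ≤ -6) : Dom (31 / 5) x w z K13 xi13 where
  x0 := h.x0
  x1 := h.x1
  w0 := h.w0
  w1 := by linarith
  z0 := h5
  z1 := by linarith
  u0 := by linarith [h.w0]
  u1 := by linarith
  xz := h.xz
  xu := h.xu
  g := h.g

theorem in7_of (hτ : 0 ≤ w + z) : 4 < w ∨ z < -(31 / 5) ∨ -6 < z := by
  rcases le_or_gt w 4 with h | h
  · exact Or.inr (Or.inr (by linarith))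
  · exact Or.inl h

/-! ### Numbers for the curves -/

theorem Rg.qw_up (h : Rg x z) (hz : 0 ≤ z) : 497 / 500 ≤ qw z x := by
  have h1 := mul_nonneg h.x0.le hz
  have h2 := h.b
  unfold qw
  refine Real.le_sqrt_of_sq_le ?_
  nlinarith

theorem Rg.W_up_bd (h : Rg x z) (hz : 0 ≤ z) :
    497 / 500 ≤ Wc (h0 * (1 + x * z)) + 1 / 2 ∧ Wc (h0 * (1 + x * z)) ≤ 1 / 2 := by
  have h1 := h.qw_up hz
  rw [qw_eq h.xz2] at h1
  rw [h.W_up hz]
  unfold xiw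
  have := mul_nonneg (sq_nonneg x) (om_nonneg z x)
  constructor <;> linarith

theorem Rg.W_dn_bd (h : Rg x z) (hz : z < 0) :
    147 / 100 ≤ Wc (h0 * (1 + x * z)) ∧ Wc (h0 * (1 + x * z)) ≤ 3 / 2 := by
  have h1 := h.qw_ge
  rw [qw_eq h.xz2] at h1
  rw [h.W_dn hz]
  unfold xiw
  have := mul_nonneg (sq_nonneg x) (om_nonneg z x)
  constructor <;> linarith

theorem Rg.c1_up (h : Rg x z) (hz : 0 ≤ z) : LC.c1 (h0 * (1 + x * z)) ≤ 1 / 2 := by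
  rw [h.c1]
  have := (h.xi1_up hz).1
  have := mul_nonneg h.x0.le (by linarith : 0 ≤ -xi1 z x)
  linarith

theorem Rg.xi1_dn (h : Rg x z) (hz : z ≤ 0) : -z ≤ xi1 z x := by
  have h1 : LC.c1 (h0 * (1 + x * z)) ≤ 77 / 100 := h.nums.1
  rw [c1_h1] at h1
  have h0' : 0 ≤ cc1 z x := Real.sqrt_nonneg _
  have ha := h.a
  have e : xi1 z x = 3 / 4 * -z * (2 + x * z) / (1 / 2 + cc1 z x) := by
    unfold xi1
    ring
  rw [e, le_div_iff₀ (by linarith)]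
  have hz' : 0 ≤ -z := by linarith
  nlinarith [mul_nonneg hz' (sub_nonneg.2 h1), mul_nonneg hz' (by linarith : 0 ≤ x * z + 32 / 125)]

theorem Rg.c1_dn (h : Rg x z) (hz : z ≤ 0) : 1 / 2 ≤ LC.c1 (h0 * (1 + x * z)) := by
  rw [h.c1]
  have := h.xi1_dn hz
  have := mul_nonneg h.x0.le (by linarith : 0 ≤ xi1 z x)
  linarith

theorem Rg.c1_dn' (h : Rg x z) (hz : z < 0) : 1 / 2 < LC.c1 (h0 * (1 + x * z)) := by
  rw [h.c1]
  have := h.xi1_dn hz.le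
  have := mul_pos h.x0 (by linarith : 0 < xi1 z x)
  linarith

theorem Rg.c1_pos (h : Rg x z) : 6 / 25 ≤ LC.c1 (h0 * (1 + x * z)) := by
  have ha := h.a
  have hb := h.b
  rw [c1_h1]
  unfold cc1
  refine Real.le_sqrt_of_sq_le ?_
  nlinarith

theorem Rg.c3_up (h : Rg x z) (hz : 0 ≤ z) : LC.c3 (h0 * (1 + x * z)) ≤ 3 / 2 := by
  have := mul_nonneg h.x0.le hz
  rw [c3_h1]
  unfold cc3
  refine Real.sqrt_le_iff.2 ⟨by norm_num, ?_⟩
  nlinarith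

theorem Rg.c3_dn (h : Rg x z) (hz : z ≤ 0) : 3 / 2 ≤ LC.c3 (h0 * (1 + x * z)) := by
  rw [h.c3]
  have := (h.xi3_dn hz).1
  have := mul_nonneg h.x0.le (by linarith : 0 ≤ xi3 z x)
  linarith

theorem Rg.xi3_up (h : Rg x z) (hz : 0 ≤ z) : 1 / 2 * z ≤ -xi3 z x := by
  have h1 : LC.c3 (h0 * (1 + x * z)) ≤ 3 / 2 := h.c3_up hz
  rw [c3_h1] at h1
  have h2 : 0 ≤ cc3 z x := Real.sqrt_nonneg _
  have h3 : 0 ≤ x * z := mul_nonneg h.x0.le hz
  unfold xi3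
  rw [neg_neg, le_div_iff₀ (by linarith)]
  nlinarith [mul_nonneg hz h3, mul_nonneg hz (sub_nonneg.2 h1)]

/-- The node `b`. -/
theorem Rg.b_bd (h : Rg x z) (hz : 0 ≤ z) :
    317 / 500 ≤ pos.cv 2 (h0 * (1 + x * z)) ∧ pos.cv 2 (h0 * (1 + x * z)) ≤ 33 / 50 := by
  rw [cv_two_high (h.ge_h0 hz)]
  obtain ⟨a, b⟩ := h.W_up_bd hz
  have c := h.c3_up hz
  have d := h.nums.2.2
  constructor <;> linarith

/-- The node `a`. -/
theorem Rg.a_bd (h : Rg x z) (hz : z < 0) :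
    41 / 50 ≤ pos.cv 1 (h0 * (1 + x * z)) ∧ pos.cv 1 (h0 * (1 + x * z)) ≤ 51 / 50 := by
  rw [cv_one_low (h.lt_h0 hz)]
  obtain ⟨a, b⟩ := h.W_dn_bd hz
  have c := h.c1_dn hz.le
  have d := h.nums.1
  constructor <;> linarith

/-! ### The data of the nodes as triples -/

theorem Rg.t1u (h : Rg x z) (hz : 0 ≤ z) :
    DatT x (h0 * (1 + x * z)) (1 / 2) (xi1 z x) (N1u z x) := h.dat0_up hz

theorem Rg.t1d (h : Rg x z) (hz : z ≤ 0) :
    DatT x (h0 * (1 + x * z)) (1 / 2) (xi1 z x) (N1d z x) := h.dat0_dn hz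

theorem Rg.t3u (h : Rg x z) (hz : 0 ≤ z) :
    DatT x (h0 * (1 + x * z)) (3 / 2) (xi3 z x) (N3u z x) := h.dat3_up hz

theorem Rg.t3d (h : Rg x z) (hz : z ≤ 0) :
    DatT x (h0 * (1 + x * z)) (3 / 2) (xi3 z x) (N3d z x) := h.dat3_dn hz

theorem xi_zero : xi1 0 x = 0 ∧ xiw 0 x = 0 := by
  unfold xi1 xiw om
  constructor <;> simp

theorem NWu_zero : NWu 0 x = N1u 0 x := by
  obtain ⟨e1, e2⟩ := xi_zero (x := x)
  have e3 : sg1 0 x = 0 := by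
    unfold sg1
    rw [e1]
    simp
  have a1 : xa 0 x = 0 := by
    unfold xa q1
    simp [cse]
  have a2 : xw 0 x = 0 := by
    unfold xw q1
    simp [cse]
  have a3 : xb 0 = 0 := by
    unfold xb
    simp [cse]
  have a4 : gh 0 = 0 := by
    unfold gh
    simp [cse]
  unfold NWu N1u kwu x1p
  rw [e1, e2, e3, a2, a4, a1, zero_div, a3]
  simp

theorem Rg.tWu (h : Rg x z) (hz : 0 ≤ z) :
    DatT x (h0 * (1 + x * z)) (1 / 2) (xiw z x) (NWu z x) := by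
  rcases hz.eq_or_lt with h5 | h5
  · subst h5
    have := h.t1u le_rfl
    rw [xi_zero.1] at this
    rw [NWu_zero, xi_zero.2]
    exact this
  · exact h.datW_up h5

theorem Rg.tWd (h : Rg x z) (hz : z < 0) :
    DatT x (h0 * (1 + x * z)) (3 / 2) (xiw z x) (NWd z x) := h.datW_dn hz

theorem Rg.p1u (h : Rg x z) (hz : 0 ≤ z) {ξ : ℝ} (h1 : xi1 z x ≤ ξ) (h2 : ξ ≤ xiw z x) :
    DatT x (h0 * (1 + x * z)) (1 / 2) ξ (P1u ξ z x) := h.seg0_up hz h1 h2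

theorem Rg.p2u (h : Rg x z) (hz : 0 ≤ z) {ξ : ℝ} (h1 : xiw z x ≤ ξ)
    (h2 : x * (ξ - xiw z x) ≤ 3 / 20 * dwu z x) :
    DatT x (h0 * (1 + x * z)) (1 / 2) ξ (P2u ξ z x) := h.seg1_up hz h1 h2

theorem Rg.p3u (h : Rg x z) (hz : 0 ≤ z) {ξ : ℝ}
    (h1 : x * (xi3 z x - ξ) ≤ 17 / 20 * dwu z x) (h2 : ξ ≤ xi3 z x) :
    DatT x (h0 * (1 + x * z)) (3 / 2) ξ (P3u ξ z x) :=
  h.seg2_up hz (by linarith [h.dwu_ge hz]) h1 h2

theorem Rg.p1d (h : Rg x z) (hz : z < 0) {ξ : ℝ} (h1 : xi1 z x ≤ ξ)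
    (h2 : x * (ξ - xi1 z x) ≤ 1 / 3 * dwl z x) :
    DatT x (h0 * (1 + x * z)) (1 / 2) ξ (P1d ξ z x) := h.seg0_dn hz h1 h2

theorem Rg.p2d (h : Rg x z) (hz : z < 0) {ξ : ℝ}
    (h1 : x * (xiw z x - ξ) ≤ 2 / 3 * dwl z x) (h2 : ξ ≤ xiw z x) :
    DatT x (h0 * (1 + x * z)) (3 / 2) ξ (P2d ξ z x) :=
  h.seg1_dn hz (by linarith [h.dwl_ge hz]) h1 h2

theorem Rg.p3d (h : Rg x z) (hz : z < 0) {ξ : ℝ} (h1 : xiw z x ≤ ξ) (h2 : ξ ≤ xi3 z x) :
    DatT x (h0 * (1 + x * z)) (3 / 2) ξ (P3d ξ z x) := h.seg2_dn hz h1 h2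

end

end Pool.Agent.Strip051.LC.E0
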