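import Pool.Agent.Strip051.LC.E0.ClA

/-! # Small rests: the vertices of the window, the side middle-top is a node -/

namespace Pool.Agent.Strip051.LC.E0

open Pool.Agent.StripNear Pool.Agent.StripSquare Pool.Agent.Strip051 Pool.Agent.Strip051.Sweep
open Pool.Agent.Strip051.LC.Line
open G

/-- The statements outside the charts. -/
structure Aux (V : Vx) (x w z : ℝ) : Prop where
  /-- large excess -/
  bigA : ∀ (k : Fin 4) (X23 : ℝ), pos.dm k (h0 * (1 + x * z)) →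
    |X23| = pos.cv k (h0 * (1 + x * z)) →
    Shp x w z (c1 (h0 * (x * w))) (c1 (h0 * (x * w)) + X23) →
    thrE (h0 * x) ≤ exn (c1 (h0 * (x * w))) (c1 (h0 * (x * w)) + X23) (h0 * (x * w))
      (h0 * (1 + x * z)) →
    OKV V (h0 * x) (c1 (h0 * (x * w))) (c1 (h0 * (x * w)) + X23) (h0 * (x * w))
      (h0 * (1 + x * z))
  /-- large excess -/
  bigB : ∀ (k : Fin 4) (X13 : ℝ), pos.dm k (h0 * (1 + x * (w + z))) →
    |X13| = pos.cv k (h0 * (1 + x * (w + z))) →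
    Shp x w z (c1 (h0 * (x * w))) X13 →
    thrE (h0 * x) ≤ exn (c1 (h0 * (x * w))) X13 (h0 * (x * w)) (h0 * (1 + x * z)) →
    OKV V (h0 * x) (c1 (h0 * (x * w))) X13 (h0 * (x * w)) (h0 * (1 + x * z))
  /-- outside the smaller window, the side middle-top is not on `W`; in the second type only for
  large rotations; and not in a sliver -/
  outA : ∀ (k : Fin 4) (X23 : ℝ), pos.dm k (h0 * (1 + x * z)) →
    |X23| = pos.cv k (h0 * (1 + x * z)) →
    Shp x w z (c1 (h0 * (x * w))) (c1 (h0 * (x * w)) + X23) → ¬ In6 w z →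
    (X23 < 0 ∨ 4 < w) → (4 < w ∨ z < -(31 / 5) ∨ -6 < z) → |X23| ≠ Wc (h0 * (1 + x * z)) →
    OKV V (h0 * x) (c1 (h0 * (x * w))) (c1 (h0 * (x * w)) + X23) (h0 * (x * w))
      (h0 * (1 + x * z))
  /-- outside the smaller window, the side bottom-top is not on `W`; and not in a sliver -/
  outB : ∀ (k : Fin 4) (X13 : ℝ), pos.dm k (h0 * (1 + x * (w + z))) →
    |X13| = pos.cv k (h0 * (1 + x * (w + z))) →
    Shp x w z (c1 (h0 * (x * w))) X13 → ¬ In6 w z → (4 < w ∨ z < -(31 / 5) ∨ -6 < z) →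
    |X13| ≠ Wc (h0 * (1 + x * (w + z))) →
    OKV V (h0 * x) (c1 (h0 * (x * w))) X13 (h0 * (x * w)) (h0 * (1 + x * z))
  /-- middle-top on `b` -/
  b1 : 0 ≤ z → Shp x w z (c1 (h0 * (x * w))) (c1 (h0 * (x * w)) + -pos.cv 2 (h0 * (1 + x * z))) →
    OKV V (h0 * x) (c1 (h0 * (x * w))) (c1 (h0 * (x * w)) + -pos.cv 2 (h0 * (1 + x * z)))
      (h0 * (x * w)) (h0 * (1 + x * z))
  /-- middle-top on the unit circle, bottom-top right of `b` -/
  b2 : 0 ≤ z → Shp x w z (c1 (h0 * (x * w))) (c1 (h0 * (x * w)) + -c1 (h0 * (1 + x * z))) →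
    pos.cv 2 (h0 * (1 + x * (w + z))) ≤ c1 (h0 * (x * w)) + -c1 (h0 * (1 + x * z)) →
    OKV V (h0 * x) (c1 (h0 * (x * w))) (c1 (h0 * (x * w)) + -c1 (h0 * (1 + x * z)))
      (h0 * (x * w)) (h0 * (1 + x * z))
  /-- bottom-top on `b` -/
  b3 : 0 ≤ z → Shp x w z (c1 (h0 * (x * w))) (pos.cv 2 (h0 * (1 + x * (w + z)))) →
    OKV V (h0 * x) (c1 (h0 * (x * w))) (pos.cv 2 (h0 * (1 + x * (w + z)))) (h0 * (x * w))
      (h0 * (1 + x * z))
  /-- bottom-top on the unit circle, middle-top left of `b` -/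
  b4 : 0 ≤ z → Shp x w z (c1 (h0 * (x * w))) (c1 (h0 * (1 + x * (w + z)))) →
    pos.cv 2 (h0 * (1 + x * z)) ≤ c1 (h0 * (x * w)) + -c1 (h0 * (1 + x * (w + z))) →
    OKV V (h0 * x) (c1 (h0 * (x * w))) (c1 (h0 * (1 + x * (w + z)))) (h0 * (x * w))
      (h0 * (1 + x * z))

section

variable {V : Vx} {x w z : ℝ}

theorem Win.sq_le (_h : Win x w z) {u v : ℝ} (h1 : -v ≤ u) (h2 : u ≤ v) : u ^ 2 ≤ v ^ 2 := by
  nlinarith

theorem Win.omz (h : Win x w z) {u : ℝ} (h1 : -|z| ≤ u) (h2 : u ≤ |z|) : om u x ≤ om z x :=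
  Win.om_mono h.x0.le (by rw [← sq_abs z]; exact h.sq_le h1 h2) h.rz.xz2

theorem Win.omw (h : Win x w z) {u : ℝ} (h1 : -w ≤ u) (h2 : u ≤ w) : om u x ≤ om w x := by
  have a0 : 0 ≤ x * w := mul_nonneg h.x0.le h.w0
  have a1 := h.xw1
  exact Win.om_mono h.x0.le (h.sq_le h1 h2) (by nlinarith)

theorem Win.omu (h : Win x w z) {u : ℝ} (h1 : -|w + z| ≤ u) (h2 : u ≤ |w + z|) :
    om u x ≤ om (w + z) x :=
  Win.om_mono h.x0.le (by rw [← sq_abs (w + z)]; exact h.sq_le h1 h2) h.ru.xz2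

/-- `x ^ 2 om ≤ 3 / 100`. -/
theorem Rg.xxom (h : Rg x z) : x * (x * om z x) ≤ 3 / 100 := by
  have h1 := h.qw_ge
  rw [qw_eq h.xz2] at h1
  linarith

theorem Rg.xxom_up (h : Rg x z) (hz : 0 ≤ z) : x * (x * om z x) ≤ 3 / 500 := by
  have h1 := h.qw_up hz
  rw [qw_eq h.xz2] at h1
  linarith

theorem Win.qw_ge (h : Win x w z) : 39 / 40 ≤ qw w x := by
  have a0 : 0 ≤ x * w := mul_nonneg h.x0.le h.w0
  have a1 := h.xw1
  unfold qw
  refine Real.le_sqrt_of_sq_le ?_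
  nlinarith

theorem Win.omw_le (h : Win x w z) : om w x ≤ 39 / 100 * w ^ 2 := by
  have := h.qw_ge
  unfold om
  rw [div_le_iff₀ (by linarith)]
  nlinarith [sq_nonneg w]

theorem Win.xxom (h : Win x w z) : x * (x * om w x) ≤ 1 / 40 := by
  have h1 := h.qw_ge
  have a0 : 0 ≤ x * w := mul_nonneg h.x0.le h.w0
  have a1 := h.xw1
  rw [qw_eq (by nlinarith)] at h1
  linarith

/-- Two short sides with a long sum are at least `60` degrees apart. -/
theorem Win.z_nonneg (h : Win x w z) {X23 : ℝ} (h1 : c1 (h0 * (1 + x * z)) ≤ X23)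
    (h2 : c1 (h0 * (x * w)) + X23 ≤ c3 (h0 * (1 + x * (w + z)))) : 0 ≤ z := by
  by_contra hz
  push Not at hz
  have hx := h.x0
  have hh := h0_pos
  have hq := h0_sq'
  obtain ⟨n1, n2⟩ := h.nums
  have e1 := h.rz.xi1_dn hz.le
  rw [h.rz.c1] at h1
  have a0 : 0 ≤ x * w := mul_nonneg hx.le h.w0
  have a1 := h.xw1
  -- squares
  have hT : c3 (h0 * (1 + x * (w + z))) ^ 2 = 3 - (h0 * (1 + x * (w + z))) ^ 2 := by
    linarith [c3_sq h.ru.T3.le]
  have hu : c1 (h0 * (x * w)) ^ 2 = 1 - (h0 * (x * w)) ^ 2 := by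
    linarith [c1_sq h.t0 (by nlinarith [h0_lt])]
  have hy : (1 / 2 + x * xi1 z x) ^ 2 = 1 - (h0 * (1 + x * z)) ^ 2 := by
    rw [← h.rz.c1]
    linarith [c1_sq h.rz.T0 h.rz.T_lt.le]
  set u := c1 (h0 * (x * w)) with hu'
  have y0 : 0 ≤ 1 / 2 + x * xi1 z x := by
    have := mul_nonneg hx.le (by linarith : 0 ≤ xi1 z x)
    linarith
  have s1 : (u + X23) ^ 2 ≤ 3 - (h0 * (1 + x * (w + z))) ^ 2 := by
    rw [← hT]
    exact pow_le_pow_left₀ (by linarith) h2 2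
  have s2 : (1 / 2 + x * xi1 z x) ^ 2 ≤ X23 ^ 2 := pow_le_pow_left₀ y0 h1 2
  have e : (h0 * (1 + x * (w + z))) ^ 2 = (h0 * (x * w)) ^ 2 + (h0 * (1 + x * z)) ^ 2 +
      2 * (3 / 4) * (x * w * (1 + x * z)) := by
    linear_combination 2 * (x * w * (1 + x * z)) * hq
  have s3 : u * X23 + 3 / 4 * (x * w * (1 + x * z)) ≤ 1 / 2 := by nlinarith
  -- the products
  have hb := h.rz.a
  have s4 : 11 / 20 * (x * w) ≤ 3 / 4 * (x * w * (1 + x * z)) := by nlinarith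
  have s5 : u * (1 / 2 + x * xi1 z x) ≤ u * X23 := mul_le_mul_of_nonneg_left h1 (by linarith)
  have k1 : x * om w x ≤ x * (39 / 100 * w ^ 2) := mul_le_mul_of_nonneg_left h.omw_le hx.le
  have k2 : x * w * w ≤ 32 / 125 * w := mul_le_mul_of_nonneg_right a1 h.w0
  have k3 : x * om w x ≤ 1 / 10 * w := by nlinarith
  have k4 : x * (x * om w x) ≤ x * (1 / 10 * w) := mul_le_mul_of_nonneg_left k3 hx.le
  have k5 : u = 1 - x * (x * om w x) := by rw [hu', h.u_eq]; ring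
  have k6 : x * -z ≤ x * xi1 z x := mul_le_mul_of_nonneg_left e1 hx.le
  have k7 : 0 < x * -z := mul_pos hx (by linarith)
  have k8 : 39 / 40 * (x * xi1 z x) ≤ u * (x * xi1 z x) :=
    mul_le_mul_of_nonneg_right n1 (by linarith)
  nlinarith

/-- In the second type the third side lies left of `c3`. -/
theorem Win.t2'_gap (h : Win x w z) (hz : 0 ≤ z) :
    x * (om w x + om z x) ≤ -(1 / 4 * xi3 (w + z) x) := by
  have hx := h.x0
  have k1 : x * om w x ≤ x * (39 / 100 * w ^ 2) := mul_le_mul_of_nonneg_left h.omw_le hx.le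
  have k0 : x * w ≤ 3 / 25 := by
    have := h.hu
    have := mul_nonneg hx.le hz
    linarith
  have k2 : x * w * w ≤ 3 / 25 * w := mul_le_mul_of_nonneg_right k0 h.w0
  have k3 : x * om z x ≤ x * (39 / 100 * z ^ 2) := mul_le_mul_of_nonneg_left h.rz.om_le hx.le
  have k4 : x * z * z ≤ 3 / 25 * z := mul_le_mul_of_nonneg_right h.rz.b hz
  have k5 := h.ru.xi3_up (by linarith [h.w0])
  nlinarith [h.w0]

/-- The exclusion of the node `a`. -/
theorem Win.no_a (h : Win x w z) (hz : z < 0) {v : ℝ}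
    (h1 : pos.cv 1 (h0 * (1 + x * z)) ≤ v)
    (h2 : c1 (h0 * (1 + x * (w + z))) ≤ c1 (h0 * (x * w)) - v) : False := by
  obtain ⟨n1, n2⟩ := h.nums
  obtain ⟨a1, a2⟩ := h.rz.a_bd hz
  have := h.ru.c1_pos
  linarith

end

end Pool.Agent.Strip051.LC.E0
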