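import Pool.Agent.Strip051.LC.E0.ClB

/-! # Small rests: the vertices of the window, the side middle-top is a node, conclusion -/

namespace Pool.Agent.Strip051.LC.E0

open Pool.Agent.StripNear Pool.Agent.StripSquare Pool.Agent.Strip051 Pool.Agent.Strip051.Sweep
open Pool.Agent.Strip051.LC.Line
open G

section

variable {V : Vx} {x w z : ℝ}

theorem Rg.ne_c1 (h : Rg x z) (hz : z ≠ 0) {a : ℝ} (ha : a = 1 / 2 + x * xi1 z x) :
    a ≠ Wc (h0 * (1 + x * z)) := by
  have hx := h.x0
  rcases lt_or_gt_of_ne hz with hz | hz
  · rw [h.W_dn hz, ha]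
    have := h.dwl_ge hz
    unfold dwl at this
    intro h5
    linarith
  · rw [h.W_up hz.le, ha]
    have := h.gap1 hz.le
    have h7 : x * xi1 z x < x * xiw z x := mul_lt_mul_of_pos_left (by linarith) hx
    intro h5
    linarith

theorem Rg.ne_c3 (h : Rg x z) {a : ℝ} (ha : a = 3 / 2 + x * xi3 z x) :
    a ≠ Wc (h0 * (1 + x * z)) := by
  have hx := h.x0
  rcases lt_or_ge z 0 with hz | hz
  · rw [h.W_dn hz, ha]
    have := h.gap3 hz.le
    have h7 : x * xiw z x < x * xi3 z x := mul_lt_mul_of_pos_left (by linarith) hx
    intro h5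
    linarith
  · rw [h.W_up hz, ha]
    have := h.dwu_ge hz
    unfold dwu at this
    intro h5
    linarith

/-- The second type with both short sides on the unit circle, larger heights of the long side. -/
theorem t2x (hR : Rows V) (h : Win x w z) (h4 : w ≤ 4) (h6 : 6 ≤ w + z) (hz : 0 ≤ z)
    (hc2 : c1 (h0 * (x * w)) + c1 (h0 * (1 + x * z)) ≤ c3 (h0 * (1 + x * (w + z))))
    (hE : exn (c1 (h0 * (x * w))) (c1 (h0 * (x * w)) + c1 (h0 * (1 + x * z))) (h0 * (x * w))
      (h0 * (1 + x * z)) < thrE (h0 * x)) :
    OKV V (h0 * x) (c1 (h0 * (x * w))) (c1 (h0 * (x * w)) + c1 (h0 * (1 + x * z)))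
      (h0 * (x * w)) (h0 * (1 + x * z)) := by
  have hx := h.x0
  obtain ⟨n1, n2⟩ := h.nums
  have hu := h.u_eq
  have hτ : 0 ≤ w + z := by linarith
  obtain ⟨xi, hxi⟩ : ∃ xi, xi = -(x * om w x) + xi1 z x := ⟨_, rfl⟩
  have eX : c1 (h0 * (x * w)) + c1 (h0 * (1 + x * z)) = 3 / 2 + x * xi := by
    rw [hu, h.rz.c1, hxi]
    ring
  have hD := h.domX (K13 := 3 / 2) (xi13 := xi) (by rw [← eX, ← hu]; exact hE)
  have hq := h.rz.c1_pos
  have q1 : x * (xi3 (w + z) x - xi) ≤ 17 / 20 * dwu (w + z) x := by
    have e3 := h.ru.c3
    obtain ⟨c1', c2'⟩ := h.ru.b_bd hτ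
    rw [cv_two_high (h.ru.ge_h0 hτ)] at c2'
    have e4 : c3 (h0 * (1 + x * (w + z))) - Wc (h0 * (1 + x * (w + z))) = dwu (w + z) x := by
      rw [h.ru.W_up hτ, e3]
      unfold dwu
      ring
    linarith
  have q2 : xi ≤ xi3 (w + z) x := by
    rw [eX, h.ru.c3] at hc2
    exact le_of_mul_le_mul_left (by linarith : x * xi ≤ x * xi3 (w + z) x) hx
  have row := hR.t3a_c1_x x w z xi hxi hD h4 h6 hz q1 q2
  have := row_okv (P := .pp) h hz h.d12 (h.rz.t1u hz) (h.ru.p3u hτ q1 q2) (by norm_num)
    (by rw [hxi]; ring) row
  rw [← hu, ← eX] at this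
  exact this

/-- **Vertex `A`**: the side bottom-middle is on the unit circle, the side middle-top is a
node. -/
theorem vertA (hR : Rows V) (h : Win x w z) (hX : Aux V x w z) (h8 : w + z ≤ 8)
    (hl : w ≠ 0 ∨ z ≠ 0) (k : Fin 4) (X23 : ℝ) (hk : pos.dm k (h0 * (1 + x * z))) (hk' : |X23| = pos.cv k (h0 * (1 + x * z)))
    (hS : Shp x w z (c1 (h0 * (x * w))) (c1 (h0 * (x * w)) + X23)) :
    OKV V (h0 * x) (c1 (h0 * (x * w))) (c1 (h0 * (x * w)) + X23) (h0 * (x * w))
      (h0 * (1 + x * z)) := by
  have hx := h.x0
  have hh := h0_pos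
  rcases le_or_gt (thrE (h0 * x)) (exn (c1 (h0 * (x * w))) (c1 (h0 * (x * w)) + X23)
    (h0 * (x * w)) (h0 * (1 + x * z))) with hE | hE
  · exact hX.bigA k X23 hk hk' hS hE
  obtain ⟨n1, n2⟩ := h.nums
  obtain ⟨m1, m2, m3⟩ := h.rz.nums
  obtain ⟨k1, k2, k3⟩ := h.ru.nums
  have hu := h.u_eq
  have w0 := h.w0
  have ou := om_nonneg w x
  have oz := om_nonneg z x
  have ot := om_nonneg (w + z) x
  have xu := h.xxom
  have xz := h.rz.xxom
  have xt := h.ru.xxom
  have hk0 := hk'
  have hb1 := hS.b1
  have hb2 := hS.b2
  rw [add_sub_cancel_left] at hb1 hb2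
  have hc1 := hS.c1
  have hc2 := hS.c2
  have hp := h.ru.c1_pos
  -- names of the nodes
  have cv0 : pos.cv 0 (h0 * (1 + x * z)) = c1 (h0 * (1 + x * z)) := cv_zero _
  have cv3 : pos.cv 3 (h0 * (1 + x * z)) = c3 (h0 * (1 + x * z)) := cv_three _
  rcases le_or_gt 0 X23 with s23 | s23
  · -- T2'
    rw [abs_of_nonneg s23] at hb1 hb2 hk'
    rw [abs_of_nonneg (by linarith)] at hc1 hc2
    have hz := h.z_nonneg hb1 hc2
    have hτ : 0 ≤ w + z := by linarith
    obtain ⟨b1, b2⟩ := h.rz.b_bd hz
    have cup := h.rz.c1_up hz
    have c3up := h.ru.c3_up hτ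
    have ek : k = 0 := by
      fin_cases k
      · rfl
      · exfalso
        change X23 = pos.cv 1 (h0 * (1 + x * z)) at hk'
        rw [cv_one_high (h.rz.ge_h0 hz), h.rz.W_up hz] at hk'
        have hz' : z ≠ 0 := by
          intro h5
          have h6 := (dm_one.1 hk).2.2
          rw [h5] at h6
          simp at h6
        have hzp : 0 < z := lt_of_le_of_ne hz (Ne.symm hz')
        have g := h.t2'_gap hz
        have g3 := h.ru.xi3_up hτ
        rw [h.ru.c3, hu, hk'] at hc2
        unfold xiw at hc2
        have g4 : 0 < -xi3 (w + z) x := by linarith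
        have g5 := mul_le_mul_of_nonneg_left g hx.le
        have g6 := mul_pos hx g4
        nlinarith
      · exfalso
        change X23 = pos.cv 2 (h0 * (1 + x * z)) at hk'
        linarith
      · exfalso
        change X23 = pos.cv 3 (h0 * (1 + x * z)) at hk'
        rw [cv3] at hk'
        linarith
    subst ek
    rw [cv0, h.rz.c1] at hk'
    obtain ⟨xi, hxi⟩ : ∃ xi, xi = -(x * om w x) + xi1 z x := ⟨_, rfl⟩
    have eX : c1 (h0 * (x * w)) + X23 = 3 / 2 + x * xi := by
      rw [hu, hk', hxi]
      ring
    have hD : Dom 8 x w z (3 / 2) xi := h.dom h8 (by rw [← eX, ← hu]; exact hE)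
    by_cases h6 : In6 w z
    swap
    · rcases le_or_gt w 4 with h4 | h4
      · have h7 : 6 ≤ w + z := by
          by_contra h9
          push Not at h9
          exact h6 ⟨by linarith, by linarith, by linarith, by linarith, h9.le⟩
        have h9 : X23 = c1 (h0 * (1 + x * z)) := by rw [hk', h.rz.c1]
        rw [h9] at hc2 hE ⊢
        exact t2x hR h h4 h7 hz hc2 hE
      refine hX.outA _ _ hk hk0 hS h6 (Or.inr h4) (Or.inl h4) ?_
      rw [abs_of_nonneg s23]
      refine h.rz.ne_c1 ?_ hk'
      intro hz0
      subst hz0
      have hw0 : w ≠ 0 := by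
        intro h7
        subst h7
        exact h6 ⟨by norm_num, by norm_num, by norm_num, by norm_num, by norm_num⟩
      have hwp : 0 < w := lt_of_le_of_ne w0 (Ne.symm hw0)
      have g := h.t2'_gap le_rfl
      have g3 := h.ru.xi3_up hτ
      rw [h.ru.c3, eX, hxi, xi_zero.1] at hc2
      have g4 : 0 < -xi3 (w + 0) x := by linarith
      have g5 := mul_le_mul_of_nonneg_left g hx.le
      have g6 := mul_pos hx g4
      have g7 := mul_nonneg hx.le (mul_nonneg hx.le oz)
      nlinarith
    have hD := Dom6 hD h6
    have q1 : x * (xi3 (w + z) x - xi) ≤ 17 / 20 * dwu (w + z) x := by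
      have e3 := h.ru.c3
      obtain ⟨c1', c2'⟩ := h.ru.b_bd hτ
      rw [cv_two_high (h.ru.ge_h0 hτ)] at c2'
      have e4 : c3 (h0 * (1 + x * (w + z))) - Wc (h0 * (1 + x * (w + z))) = dwu (w + z) x := by
        rw [h.ru.W_up hτ, e3]
        unfold dwu
        ring
      linarith
    have q2 : xi ≤ xi3 (w + z) x := by
      rw [eX, h.ru.c3] at hc2
      exact le_of_mul_le_mul_left (by linarith : x * xi ≤ x * xi3 (w + z) x) hx
    have h00 : 0 < w + z := by
      rcases hl with h8 | h8
      · have : 0 < w := lt_of_le_of_ne w0 (Ne.symm h8)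
        linarith
      · have : 0 < z := lt_of_le_of_ne hz (Ne.symm h8)
        linarith
    have row := hR.t3a_c1 x w z xi hxi hD hz q1 q2 h00
    have := row_okv (P := .pp) h hz h.d12 (h.rz.t1u hz) (h.ru.p3u hτ q1 q2) (by norm_num)
      (by rw [hxi]; ring) row
    rw [← hu, ← eX] at this
    exact this
  · rw [abs_of_neg s23] at hb1 hb2 hk'
    obtain ⟨v, hv⟩ : ∃ v, v = -X23 := ⟨_, rfl⟩
    rw [← hv] at hb1 hb2 hk'
    have hX23 : X23 = -v := by linarith
    subst hX23
    rcases le_or_gt (c1 (h0 * (x * w)) + -v) 0 with s13 | s13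
    · -- T2
      rw [abs_of_nonpos s13] at hc1 hc2
      rcases lt_or_ge z 0 with hz | hz
      · obtain ⟨a1, a2⟩ := h.rz.a_bd hz
        have cases : k = 2 ∨ k = 3 := by
          fin_cases k
          · exfalso
            change v = pos.cv 0 (h0 * (1 + x * z)) at hk'
            rw [cv0] at hk'
            linarith
          · exfalso
            change v = pos.cv 1 (h0 * (1 + x * z)) at hk'
            linarith
          · exact Or.inl rfl
          · exact Or.inr rfl
        rcases cases with rfl | rfl
        · -- the curve W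
          rw [cv_two_low (h.rz.lt_h0 hz), h.rz.W_dn hz] at hk'
          obtain ⟨xi', hxi'⟩ : ∃ xi', xi' = xiw z x + x * om w x := ⟨_, rfl⟩
          obtain ⟨xi, hxi⟩ : ∃ xi, xi = -xi' := ⟨_, rfl⟩
          have eX : c1 (h0 * (x * w)) + -v = -(1 / 2) + x * xi := by
            rw [hu, hk', hxi, hxi']
            ring
          have hD : Dom 8 x w z (-(1 / 2)) xi := h.dom h8 (by rw [← eX, ← hu]; exact hE)
          have zabs : |z| = -z := abs_of_neg hz
          have hτ : 0 ≤ w + z := by
            by_contra hc
            push Not at hc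
            have o := h.omz (u := w) (by rw [zabs]; linarith) (by rw [zabs]; linarith)
            have c := h.ru.c1_dn' hc
            rw [hu, hk'] at hc1
            unfold xiw at hc1
            have := mul_le_mul_of_nonneg_left (mul_le_mul_of_nonneg_left o hx.le) hx.le
            nlinarith
          have o := h.omw (u := z) (by linarith) (by linarith)
          have q1 : xiw (w + z) x ≤ xi' := by
            rw [hxi']
            unfold xiw
            have := mul_le_mul_of_nonneg_left o hx.le
            have := mul_nonneg hx.le ot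
            linarith
          have q2 : x * (xi' - xiw (w + z) x) ≤ 3 / 20 * dwu (w + z) x := by
            have := h.ru.dwu_ge hτ
            have := mul_nonneg hx.le (mul_nonneg hx.le oz)
            rw [hxi']
            unfold xiw
            nlinarith
          have row := hR.t2a_W x w z xi xi' hxi' hxi hD hz.le hτ q1 q2 (by linarith)
          have := row_okv (P := .pnp) h ⟨hz.le, hτ⟩ h.d12 (h.rz.tWd hz).neg
            ((h.ru.p2u hτ q1 q2).neg.congr rfl hxi.symm) (by norm_num)
            (by rw [hxi, hxi']; ring) row
          rw [← hu, ← eX] at this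
          exact this
        · -- the circle of radius √3
          rw [cv3, h.rz.c3] at hk'
          obtain ⟨xi', hxi'⟩ : ∃ xi', xi' = xi3 z x + x * om w x := ⟨_, rfl⟩
          obtain ⟨xi, hxi⟩ : ∃ xi, xi = -xi' := ⟨_, rfl⟩
          have eX : c1 (h0 * (x * w)) + -v = -(1 / 2) + x * xi := by
            rw [hu, hk', hxi, hxi']
            ring
          have hD : Dom 8 x w z (-(1 / 2)) xi := h.dom h8 (by rw [← eX, ← hu]; exact hE)
          have eX' : -(c1 (h0 * (x * w)) + -v) = 1 / 2 + x * xi' := by
            rw [eX, hxi]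
            ring
          have c3z : v ≤ 201 / 125 := by
            rw [hk', ← h.rz.c3]
            exact m2
          have c3z' : 3 / 2 ≤ v := by
            rw [hk', ← h.rz.c3]
            exact h.rz.c3_dn hz.le
          by_cases h6 : In6 w z
          swap
          · by_cases h7 : 4 < w ∨ z < -(31 / 5) ∨ -6 < z
            · refine hX.outA _ _ hk hk0 hS h6 (Or.inl s23) h7 ?_
              rw [abs_of_neg s23, neg_neg]
              exact h.rz.ne_c3 hk'
            push Not at h7
            obtain ⟨h71, h72, h73⟩ := h7
            have hD := Dom7 hD h71 h72 h73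
            have hτ : w + z < 0 := by linarith
            have q1 : xi1 (w + z) x ≤ xi' := by
              rw [eX', h.ru.c1] at hc1
              exact le_of_mul_le_mul_left (by linarith : x * xi1 (w + z) x ≤ x * xi') hx
            have q2 : x * (xi' - xi1 (w + z) x) ≤ 1 / 3 * dwl (w + z) x := by
              obtain ⟨a1', a2'⟩ := h.ru.a_bd hτ
              rw [cv_one_low (h.ru.lt_h0 hτ), h.ru.W_dn hτ, h.ru.c1] at a1'
              unfold dwl
              nlinarith
            have row := hR.t2a_c3_dd_x x w z xi xi' hxi' hxi hD h71 h73 hτ.le q1 q2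
            have := row_okv (P := .pnn) h hτ.le h.d12 (h.rz.t3d hz.le).neg
              ((h.ru.p1d hτ q1 q2).neg.congr rfl hxi.symm) (by norm_num)
              (by rw [hxi, hxi']; ring) row
            rw [← hu, ← eX] at this
            exact this
          have hD := Dom6 hD h6
          rcases lt_or_ge (w + z) 0 with hτ | hτ
          · have q1 : xi1 (w + z) x ≤ xi' := by
              rw [eX', h.ru.c1] at hc1
              exact le_of_mul_le_mul_left (by linarith : x * xi1 (w + z) x ≤ x * xi') hx
            have q2 : x * (xi' - xi1 (w + z) x) ≤ 1 / 3 * dwl (w + z) x := by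
              obtain ⟨a1', a2'⟩ := h.ru.a_bd hτ
              rw [cv_one_low (h.ru.lt_h0 hτ), h.ru.W_dn hτ, h.ru.c1] at a1'
              unfold dwl
              nlinarith
            have row := hR.t2a_c3_dd x w z xi xi' hxi' hxi hD hτ.le q1 q2 hz
            have := row_okv (P := .pnn) h hτ.le h.d12 (h.rz.t3d hz.le).neg
              ((h.ru.p1d hτ q1 q2).neg.congr rfl hxi.symm) (by norm_num)
              (by rw [hxi, hxi']; ring) row
            rw [← hu, ← eX] at this
            exact this
          · have q1 : xiw (w + z) x ≤ xi' := by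
              have h5 : 1 / 2 ≤ 1 / 2 + x * xi' := by linarith
              have h6 : x * xiw (w + z) x ≤ x * xi' := by
                have := mul_nonneg hx.le (neg_nonneg.2 (xiw_nonpos (z := w + z) hx.le))
                linarith
              exact le_of_mul_le_mul_left h6 hx
            have q2 : x * (xi' - xiw (w + z) x) ≤ 3 / 20 * dwu (w + z) x := by
              obtain ⟨b1', b2'⟩ := h.ru.b_bd hτ
              rw [cv_two_high (h.ru.ge_h0 hτ), h.ru.W_up hτ, h.ru.c3] at b1'
              unfold dwu
              nlinarith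
            have row := hR.t2a_c3_du x w z xi xi' hxi' hxi hD hz.le hτ q1 q2 (by linarith)
            have := row_okv (P := .pnp) h ⟨hz.le, hτ⟩ h.d12 (h.rz.t3d hz.le).neg
              ((h.ru.p2u hτ q1 q2).neg.congr rfl hxi.symm) (by norm_num)
              (by rw [hxi, hxi']; ring) row
            rw [← hu, ← eX] at this
            exact this
      · -- z nonnegative
        have hτ : 0 ≤ w + z := by linarith
        obtain ⟨b1, b2⟩ := h.rz.b_bd hz
        have cup := h.rz.c1_up hz
        obtain ⟨-, Wup⟩ := h.rz.W_up_bd hz
        have ek : k = 3 := by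
          fin_cases k
          · exfalso
            change v = pos.cv 0 (h0 * (1 + x * z)) at hk'
            rw [cv0] at hk'
            linarith
          · exfalso
            change v = pos.cv 1 (h0 * (1 + x * z)) at hk'
            rw [cv_one_high (h.rz.ge_h0 hz)] at hk'
            linarith
          · exfalso
            change v = pos.cv 2 (h0 * (1 + x * z)) at hk'
            linarith
          · rfl
        subst ek
        rw [cv3, h.rz.c3] at hk'
        obtain ⟨xi', hxi'⟩ : ∃ xi', xi' = xi3 z x + x * om w x := ⟨_, rfl⟩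
        obtain ⟨xi, hxi⟩ : ∃ xi, xi = -xi' := ⟨_, rfl⟩
        have eX : c1 (h0 * (x * w)) + -v = -(1 / 2) + x * xi := by
          rw [hu, hk', hxi, hxi']
          ring
        have hD : Dom 8 x w z (-(1 / 2)) xi := h.dom h8 (by rw [← eX, ← hu]; exact hE)
        by_cases h6 : In6 w z
        swap
        · refine hX.outA _ _ hk hk0 hS h6 (Or.inl s23) (in7_of hτ) ?_
          rw [abs_of_neg s23, neg_neg]
          exact h.rz.ne_c3 hk'
        have hD := Dom6 hD h6
        have eX' : -(c1 (h0 * (x * w)) + -v) = 1 / 2 + x * xi' := by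
          rw [eX, hxi]
          ring
        have c3z : v ≤ 3 / 2 := by
          rw [hk', ← h.rz.c3]
          exact h.rz.c3_up hz
        have h00 : 0 < w + z := by
          rcases hl with h8 | h8
          · have : 0 < w := lt_of_le_of_ne w0 (Ne.symm h8)
            linarith
          · have : 0 < z := lt_of_le_of_ne hz (Ne.symm h8)
            linarith
        rcases le_total xi' (xiw (w + z) x) with hc | hc
        · have q1 : xi1 (w + z) x ≤ xi' := by
            rw [eX', h.ru.c1] at hc1
            exact le_of_mul_le_mul_left (by linarith : x * xi1 (w + z) x ≤ x * xi') hx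
          have row := hR.t2a_c3_u1 x w z xi xi' hxi' hxi hD hz q1 hc h00
          have := row_okv (P := .pp) h hz h.d12 (h.rz.t3u hz).neg
            ((h.ru.p1u hτ q1 hc).neg.congr rfl hxi.symm) (by norm_num)
            (by rw [hxi, hxi']; ring) row
          rw [← hu, ← eX] at this
          exact this
        · have q2 : x * (xi' - xiw (w + z) x) ≤ 3 / 20 * dwu (w + z) x := by
            obtain ⟨b1', b2'⟩ := h.ru.b_bd hτ
            rw [cv_two_high (h.ru.ge_h0 hτ), h.ru.W_up hτ, h.ru.c3] at b1'
            unfold dwu
            nlinarith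
          have row := hR.t2a_c3_u2 x w z xi xi' hxi' hxi hD hz hc q2 h00
          have := row_okv (P := .pp) h hz h.d12 (h.rz.t3u hz).neg
            ((h.ru.p2u hτ hc q2).neg.congr rfl hxi.symm) (by norm_num)
            (by rw [hxi, hxi']; ring) row
          rw [← hu, ← eX] at this
          exact this
    · -- T1
      rw [abs_of_pos s13] at hc1 hc2
      have hτ : 0 ≤ w + z := by
        by_contra hc
        push Not at hc
        have c := h.ru.c1_dn' hc
        have c' := h.rz.c1_dn' (z := z) (by linarith)
        linarith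
      rcases lt_or_ge z 0 with hz | hz
      · have ek : k = 0 := by
          fin_cases k
          · rfl
          · exfalso
            change v = pos.cv 1 (h0 * (1 + x * z)) at hk'
            exact h.no_a hz hk'.symm.le (by linarith)
          · exfalso
            change v = pos.cv 2 (h0 * (1 + x * z)) at hk'
            rw [cv_two_low (h.rz.lt_h0 hz)] at hk'
            obtain ⟨wd, -⟩ := h.rz.W_dn_bd hz
            linarith
          · exfalso
            change v = pos.cv 3 (h0 * (1 + x * z)) at hk'
            rw [cv3] at hk'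
            linarith
        subst ek
        rw [cv0, h.rz.c1] at hk'
        obtain ⟨xi, hxi⟩ : ∃ xi, xi = -(x * om w x) - xi1 z x := ⟨_, rfl⟩
        have eX : c1 (h0 * (x * w)) + -v = 1 / 2 + x * xi := by
          rw [hu, hk', hxi]
          ring
        have hD : Dom 8 x w z (1 / 2) xi := h.dom h8 (by rw [← eX, ← hu]; exact hE)
        by_cases h6 : In6 w z
        swap
        · refine hX.outA _ _ hk hk0 hS h6 (Or.inl s23) (in7_of hτ) ?_
          rw [abs_of_neg s23, neg_neg]
          exact h.rz.ne_c1 hz.ne hk'
        have hD := Dom6 hD h6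
        have q1 : xi1 (w + z) x ≤ xi := by
          rw [eX, h.ru.c1] at hc1
          exact le_of_mul_le_mul_left (by linarith : x * xi1 (w + z) x ≤ x * xi) hx
        have q2 : xi ≤ xiw (w + z) x := by
          have o := h.omw (u := w + z) (by linarith) (by linarith)
          have := h.rz.xi1_dn hz.le
          have := mul_le_mul_of_nonneg_left o hx.le
          rw [hxi]
          unfold xiw
          linarith
        have row := hR.t1a_c1_d x w z xi hxi hD hz.le hτ q1 q2 (by linarith)
        have := row_okv (P := .pnp) h ⟨hz.le, hτ⟩ h.d12 (h.rz.t1d hz.le).neg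
          (h.ru.p1u hτ q1 q2) (by norm_num) (by rw [hxi]; ring) row
        rw [← hu, ← eX] at this
        exact this
      · have cases : k = 0 ∨ k = 1 ∨ k = 2 := by
          fin_cases k
          · exact Or.inl rfl
          · exact Or.inr (Or.inl rfl)
          · exact Or.inr (Or.inr rfl)
          · exfalso
            change v = pos.cv 3 (h0 * (1 + x * z)) at hk'
            rw [cv3] at hk'
            linarith
        have o := h.omu (u := w) (by rw [abs_of_nonneg hτ]; linarith)
          (by rw [abs_of_nonneg hτ]; linarith)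
        have hW : v = 1 / 2 + x * xiw z x → OKV V (h0 * x) (c1 (h0 * (x * w)))
            (c1 (h0 * (x * w)) + -v) (h0 * (x * w)) (h0 * (1 + x * z)) := by
          intro hk'
          obtain ⟨xi, hxi⟩ : ∃ xi, xi = -(x * om w x) - xiw z x := ⟨_, rfl⟩
          have eX : c1 (h0 * (x * w)) + -v = 1 / 2 + x * xi := by
            rw [hu, hk', hxi]
            ring
          have hD : Dom 8 x w z (1 / 2) xi := h.dom h8 (by rw [← eX, ← hu]; exact hE)
          have q1 : xiw (w + z) x ≤ xi := by
            have := mul_le_mul_of_nonneg_left o hx.le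
            have := mul_nonneg hx.le oz
            rw [hxi]
            unfold xiw
            linarith
          have q2 : x * (xi - xiw (w + z) x) ≤ 3 / 20 * dwu (w + z) x := by
            have := h.ru.dwu_ge hτ
            have := mul_nonneg hx.le (mul_nonneg hx.le ou)
            rw [hxi]
            unfold xiw
            nlinarith
          have h00 : 0 < w + z := by
            rcases hl with h8 | h8
            · have : 0 < w := lt_of_le_of_ne w0 (Ne.symm h8)
              linarith
            · have : 0 < z := lt_of_le_of_ne hz (Ne.symm h8)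
              linarith
          have row := hR.t1a_W x w z xi hxi hD hz q1 q2 h00
          have := row_okv (P := .pp) h hz h.d12 (h.rz.tWu hz).neg
            (h.ru.p2u hτ q1 q2) (by norm_num) (by rw [hxi]; ring) row
          rw [← hu, ← eX] at this
          exact this
        rcases cases with rfl | rfl | rfl
        · rw [cv0] at hk'
          rcases le_or_gt (pos.cv 2 (h0 * (1 + x * (w + z)))) (c1 (h0 * (x * w)) + -v) with hc | hc
          · rw [hk'] at hS hc ⊢
            exact hX.b2 hz hS hc
          · rw [h.rz.c1] at hk'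
            rcases eq_or_ne z 0 with hz0 | hz0
            · refine hW ?_
              rw [hk', hz0, xi_zero.1, xi_zero.2]
            obtain ⟨xi, hxi⟩ : ∃ xi, xi = -(x * om w x) - xi1 z x := ⟨_, rfl⟩
            have eX : c1 (h0 * (x * w)) + -v = 1 / 2 + x * xi := by
              rw [hu, hk', hxi]
              ring
            have hD : Dom 8 x w z (1 / 2) xi := h.dom h8 (by rw [← eX, ← hu]; exact hE)
            by_cases h6 : In6 w z
            swap
            · refine hX.outA _ _ hk hk0 hS h6 (Or.inl s23) (in7_of hτ) ?_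
              rw [abs_of_neg s23, neg_neg]
              exact h.rz.ne_c1 hz0 hk'
            have hD := Dom6 hD h6
            have q1 : xiw (w + z) x ≤ xi := by
              have := (h.rz.xi1_up hz).1
              have := mul_le_mul_of_nonneg_left o hx.le
              rw [hxi]
              unfold xiw
              linarith
            have q2 : x * (xi - xiw (w + z) x) ≤ 3 / 20 * dwu (w + z) x := by
              rw [eX, cv_two_high (h.ru.ge_h0 hτ), h.ru.W_up hτ, h.ru.c3] at hc
              unfold dwu
              nlinarith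
            have row := hR.t1a_c1_u x w z xi hxi hD hz q1 q2
              (by have : 0 < z := lt_of_le_of_ne hz (Ne.symm hz0)
                  linarith)
            have := row_okv (P := .pp) h hz h.d12 (h.rz.t1u hz).neg
              (h.ru.p2u hτ q1 q2) (by norm_num) (by rw [hxi]; ring) row
            rw [← hu, ← eX] at this
            exact this
        · rw [cv_one_high (h.rz.ge_h0 hz), h.rz.W_up hz] at hk'
          exact hW hk'
        · rw [hk'] at hS ⊢
          exact hX.b1 hz hS

end

end Pool.Agent.Strip051.LC.E0
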