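import Pool.Agent.Strip051.LC.E0.ClC

/-! # Small rests: the vertices of the window, the side bottom-top is a node -/

namespace Pool.Agent.Strip051.LC.E0

open Pool.Agent.StripNear Pool.Agent.StripSquare Pool.Agent.Strip051 Pool.Agent.Strip051.Sweep
open Pool.Agent.Strip051.LC.Line
open G

section

variable {V : Vx} {x w z : ℝ}

/-- **Vertex `B`**: the side bottom-middle is on the unit circle, the side bottom-top is a
node. -/
theorem vertB (hR : Rows V) (h : Win x w z) (hX : Aux V x w z) (h8 : w + z ≤ 8)
    (hl : w ≠ 0 ∨ z ≠ 0) (k : Fin 4) (X13 : ℝ) (hk : pos.dm k (h0 * (1 + x * (w + z))))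
    (hk' : |X13| = pos.cv k (h0 * (1 + x * (w + z))))
    (hS : Shp x w z (c1 (h0 * (x * w))) X13) :
    OKV V (h0 * x) (c1 (h0 * (x * w))) X13 (h0 * (x * w)) (h0 * (1 + x * z)) := by
  have hx := h.x0
  have hh := h0_pos
  rcases le_or_gt (thrE (h0 * x)) (exn (c1 (h0 * (x * w))) X13
    (h0 * (x * w)) (h0 * (1 + x * z))) with hE | hE
  · exact hX.bigB k X13 hk hk' hS hE
  obtain ⟨n1, n2⟩ := h.nums
  obtain ⟨m1, m2, m3⟩ := h.rz.nums
  obtain ⟨k1, k2, k3⟩ := h.ru.nums
  have hu := h.u_eq
  have w0 := h.w0
  have ou := om_nonneg w x
  have oz := om_nonneg z x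
  have ot := om_nonneg (w + z) x
  have xu := h.xxom
  have xz := h.rz.xxom
  have xt := h.ru.xxom
  have hk0 := hk'
  have hb1 := hS.b1
  have hb2 := hS.b2
  have hc1 := hS.c1
  have hc2 := hS.c2
  have hp := h.ru.c1_pos
  have hq := h.rz.c1_pos
  -- names of the nodes
  have cv0 : pos.cv 0 (h0 * (1 + x * (w + z))) = c1 (h0 * (1 + x * (w + z))) := cv_zero _
  have cv3 : pos.cv 3 (h0 * (1 + x * (w + z))) = c3 (h0 * (1 + x * (w + z))) := cv_three _
  rcases le_or_gt 0 (X13 - c1 (h0 * (x * w))) with s23 | s23
  · -- T2'
    rw [abs_of_nonneg s23] at hb1 hb2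
    rw [abs_of_nonneg (by linarith)] at hc1 hc2 hk'
    have hz := h.z_nonneg (X23 := X13 - c1 (h0 * (x * w))) hb1 (by linarith)
    have hτ : 0 ≤ w + z := by linarith
    obtain ⟨b1, b2⟩ := h.ru.b_bd hτ
    have cup := h.ru.c1_up hτ
    obtain ⟨-, Wup⟩ := h.ru.W_up_bd hτ
    have ek : k = 3 := by
      fin_cases k
      · exfalso
        change X13 = pos.cv 0 (h0 * (1 + x * (w + z))) at hk'
        rw [cv0] at hk'
        linarith
      · exfalso
        change X13 = pos.cv 1 (h0 * (1 + x * (w + z))) at hk'
        rw [cv_one_high (h.ru.ge_h0 hτ)] at hk'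
        linarith
      · exfalso
        change X13 = pos.cv 2 (h0 * (1 + x * (w + z))) at hk'
        linarith
      · rfl
    subst ek
    rw [cv3, h.ru.c3] at hk'
    obtain ⟨xi, hxi⟩ : ∃ xi, xi = xi3 (w + z) x := ⟨_, rfl⟩
    obtain ⟨xi', hxi'⟩ : ∃ xi', xi' = xi + x * om w x := ⟨_, rfl⟩
    rw [← hxi] at hk'
    have hD : Dom 8 x w z (3 / 2) xi := h.dom h8 (by rw [← hk', ← hu]; exact hE)
    by_cases h6 : In6 w z
    swap
    · refine hX.outB _ _ hk hk0 hS h6 (in7_of hτ) ?_
      rw [abs_of_nonneg (by linarith)]
      exact h.ru.ne_c3 (by rw [hk', hxi])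
    have hD := Dom6 hD h6
    have h00 : 0 < w + z := by
      rcases hl with h8 | h8
      · have : 0 < w := lt_of_le_of_ne w0 (Ne.symm h8)
        linarith
      · have : 0 < z := lt_of_le_of_ne hz (Ne.symm h8)
        linarith
    have eX : X13 - c1 (h0 * (x * w)) = 1 / 2 + x * xi' := by
      rw [hk', hu, hxi']
      ring
    have q1 : xi1 z x ≤ xi' := by
      rw [eX, h.rz.c1] at hb1
      exact le_of_mul_le_mul_left (by linarith : x * xi1 z x ≤ x * xi') hx
    have q2 : xi' ≤ xiw z x := by
      have g := h.t2'_gap hz
      have g3 := h.ru.xi3_up hτ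
      rw [hxi', hxi]
      unfold xiw
      nlinarith
    have row := hR.t3b_c3 x w z xi xi' hxi hxi' hD hz q1 q2 h00
    have := row_okv (P := .pp) h hz h.d12 (h.rz.p1u hz q1 q2) ((h.ru.t3u hτ).congr rfl hxi.symm)
      (by norm_num) hxi' row
    rw [← hu, ← hk'] at this
    exact this
  · rw [abs_of_neg s23] at hb1 hb2
    rcases le_or_gt X13 0 with s13 | s13
    · -- T2
      obtain ⟨v, hv⟩ : ∃ v, v = -X13 := ⟨_, rfl⟩
      have hX13 : X13 = -v := by linarith
      subst hX13
      rw [abs_of_nonpos s13] at hc1 hc2 hk'
      rw [neg_neg] at hc1 hc2 hk'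
      rcases lt_or_ge (w + z) 0 with hτ | hτ
      · have hz : z < 0 := by linarith
        obtain ⟨a1, a2⟩ := h.ru.a_bd hτ
        have ek : k = 0 := by
          fin_cases k
          · rfl
          · exfalso
            change v = pos.cv 1 (h0 * (1 + x * (w + z))) at hk'
            linarith
          · exfalso
            change v = pos.cv 2 (h0 * (1 + x * (w + z))) at hk'
            rw [cv_two_low (h.ru.lt_h0 hτ)] at hk'
            obtain ⟨wd, -⟩ := h.ru.W_dn_bd hτ
            linarith
          · exfalso
            change v = pos.cv 3 (h0 * (1 + x * (w + z))) at hk'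
            rw [cv3] at hk'
            linarith
        subst ek
        rw [cv0, h.ru.c1] at hk'
        obtain ⟨xi, hxi⟩ : ∃ xi, xi = -xi1 (w + z) x := ⟨_, rfl⟩
        obtain ⟨xi', hxi'⟩ : ∃ xi', xi' = -(x * om w x) - xi := ⟨_, rfl⟩
        have eX : -v = -(1 / 2) + x * xi := by
          rw [hk', hxi]
          ring
        have hD : Dom 8 x w z (-(1 / 2)) xi := h.dom h8 (by rw [← eX, ← hu]; exact hE)
        have eX' : -(-v - c1 (h0 * (x * w))) = 3 / 2 + x * xi' := by
          rw [hu, eX, hxi']
          ring
        have zabs : |z| = -z := abs_of_neg hz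
        have q1 : xiw z x ≤ xi' := by
          have o := h.omz (u := w) (by rw [zabs]; linarith) (by rw [zabs]; linarith)
          have := h.ru.xi1_dn hτ.le
          have := mul_le_mul_of_nonneg_left o hx.le
          rw [hxi', hxi]
          unfold xiw
          linarith
        have q2 : xi' ≤ xi3 z x := by
          rw [eX', h.rz.c3] at hb2
          exact le_of_mul_le_mul_left (by linarith : x * xi' ≤ x * xi3 z x) hx
        by_cases h6 : In6 w z
        swap
        · by_cases h7 : 4 < w ∨ z < -(31 / 5) ∨ -6 < z
          · refine hX.outB _ _ hk hk0 hS h6 h7 ?_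
            rw [abs_neg, abs_of_nonneg (by linarith)]
            exact h.ru.ne_c1 hτ.ne hk'
          push Not at h7
          obtain ⟨h71, h72, h73⟩ := h7
          have hD := Dom7 hD h71 h72 h73
          have row := hR.t2b_c1_dd_x x w z xi xi' hxi hxi' hD h71 h73 hτ.le q1 q2
          have := row_okv (P := .pnn) h hτ.le h.d12 (h.rz.p3d hz q1 q2).neg
            ((h.ru.t1d hτ.le).neg.congr rfl hxi.symm) (by norm_num) (by rw [hxi']; ring) row
          rw [← hu, ← eX] at this
          exact this
        have hD := Dom6 hD h6
        have row := hR.t2b_c1_dd x w z xi xi' hxi hxi' hD hτ.le q1 q2 hz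
        have := row_okv (P := .pnn) h hτ.le h.d12 (h.rz.p3d hz q1 q2).neg
          ((h.ru.t1d hτ.le).neg.congr rfl hxi.symm) (by norm_num) (by rw [hxi']; ring) row
        rw [← hu, ← eX] at this
        exact this
      · obtain ⟨b1, b2⟩ := h.ru.b_bd hτ
        have cases : k = 0 ∨ k = 1 := by
          fin_cases k
          · exact Or.inl rfl
          · exact Or.inr rfl
          · exfalso
            change v = pos.cv 2 (h0 * (1 + x * (w + z))) at hk'
            linarith
          · exfalso
            change v = pos.cv 3 (h0 * (1 + x * (w + z))) at hk'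
            rw [cv3] at hk'
            linarith
        have hW : v = 1 / 2 + x * xiw (w + z) x → OKV V (h0 * x) (c1 (h0 * (x * w))) (-v)
            (h0 * (x * w)) (h0 * (1 + x * z)) := by
          intro hk'
          obtain ⟨-, Wup⟩ := h.ru.W_up_bd hτ
          obtain ⟨xi, hxi⟩ : ∃ xi, xi = -xiw (w + z) x := ⟨_, rfl⟩
          obtain ⟨xi', hxi'⟩ : ∃ xi', xi' = -(x * om w x) - xi := ⟨_, rfl⟩
          have eX : -v = -(1 / 2) + x * xi := by
            rw [hk', hxi]
            ring
          have hD : Dom 8 x w z (-(1 / 2)) xi := h.dom h8 (by rw [← eX, ← hu]; exact hE)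
          have eX' : -(-v - c1 (h0 * (x * w))) = 3 / 2 + x * xi' := by
            rw [hu, eX, hxi']
            ring
          rcases lt_or_ge z 0 with hz | hz
          · have q2 : xi' ≤ xiw z x := by
              have o := h.omw (u := z) (by linarith) (by linarith)
              have := mul_le_mul_of_nonneg_left o hx.le
              have := mul_nonneg hx.le ot
              rw [hxi', hxi]
              unfold xiw
              linarith
            have q1 : x * (xiw z x - xi') ≤ 2 / 3 * dwl z x := by
              obtain ⟨a1', a2'⟩ := h.rz.a_bd hz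
              rw [cv_one_low (h.rz.lt_h0 hz), h.rz.W_dn hz, h.rz.c1] at a2'
              unfold dwl
              nlinarith
            have row := hR.t2b_W_d x w z xi xi' hxi hxi' hD hz.le hτ q1 q2 (by linarith)
            have := row_okv (P := .pnp) h ⟨hz.le, hτ⟩ h.d12 (h.rz.p2d hz q1 q2).neg
              ((h.ru.tWu hτ).neg.congr rfl hxi.symm) (by norm_num) (by rw [hxi']; ring) row
            rw [← hu, ← eX] at this
            exact this
          · have q2 : xi' ≤ xi3 z x := by
              rw [eX', h.rz.c3] at hb2
              exact le_of_mul_le_mul_left (by linarith : x * xi' ≤ x * xi3 z x) hx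
            have q1 : x * (xi3 z x - xi') ≤ 17 / 20 * dwu z x := by
              obtain ⟨b1', b2'⟩ := h.rz.b_bd hz
              rw [cv_two_high (h.rz.ge_h0 hz), h.rz.W_up hz, h.rz.c3] at b2'
              unfold dwu
              nlinarith
            have h00 : 0 < w + z := by
              rcases hl with h8 | h8
              · have : 0 < w := lt_of_le_of_ne w0 (Ne.symm h8)
                linarith
              · have : 0 < z := lt_of_le_of_ne hz (Ne.symm h8)
                linarith
            have row := hR.t2b_W_u x w z xi xi' hxi hxi' hD hz q1 q2 h00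
            have := row_okv (P := .pp) h hz h.d12 (h.rz.p3u hz q1 q2).neg
              ((h.ru.tWu hτ).neg.congr rfl hxi.symm) (by norm_num) (by rw [hxi']; ring) row
            rw [← hu, ← eX] at this
            exact this
        rcases cases with rfl | rfl
        · rw [cv0, h.ru.c1] at hk'
          rcases eq_or_ne (w + z) 0 with hz0 | hz0
          · refine hW ?_
            rw [hk', hz0, xi_zero.1, xi_zero.2]
          obtain ⟨xi, hxi⟩ : ∃ xi, xi = -xi1 (w + z) x := ⟨_, rfl⟩
          obtain ⟨xi', hxi'⟩ : ∃ xi', xi' = -(x * om w x) - xi := ⟨_, rfl⟩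
          have eX : -v = -(1 / 2) + x * xi := by
            rw [hk', hxi]
            ring
          have hD : Dom 8 x w z (-(1 / 2)) xi := h.dom h8 (by rw [← eX, ← hu]; exact hE)
          by_cases h6 : In6 w z
          swap
          · refine hX.outB _ _ hk hk0 hS h6 (in7_of hτ) ?_
            rw [abs_neg, abs_of_nonneg (by linarith)]
            exact h.ru.ne_c1 hz0 hk'
          have hD := Dom6 hD h6
          have h00 : 0 < w + z := lt_of_le_of_ne hτ (Ne.symm hz0)
          have eX' : -(-v - c1 (h0 * (x * w))) = 3 / 2 + x * xi' := by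
            rw [hu, eX, hxi']
            ring
          rcases lt_or_ge z 0 with hz | hz
          · have q2 : xi' ≤ xiw z x := by
              have o := h.omw (u := z) (by linarith) (by linarith)
              have := (h.ru.xi1_up hτ).1
              have := mul_le_mul_of_nonneg_left o hx.le
              rw [hxi', hxi]
              unfold xiw
              linarith
            have q1 : x * (xiw z x - xi') ≤ 2 / 3 * dwl z x := by
              obtain ⟨a1', a2'⟩ := h.rz.a_bd hz
              rw [cv_one_low (h.rz.lt_h0 hz), h.rz.W_dn hz, h.rz.c1] at a2'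
              unfold dwl
              nlinarith
            have row := hR.t2b_c1_du x w z xi xi' hxi hxi' hD hz.le hτ q1 q2 (by linarith)
            have := row_okv (P := .pnp) h ⟨hz.le, hτ⟩ h.d12 (h.rz.p2d hz q1 q2).neg
              ((h.ru.t1u hτ).neg.congr rfl hxi.symm) (by norm_num) (by rw [hxi']; ring) row
            rw [← hu, ← eX] at this
            exact this
          · have q2 : xi' ≤ xi3 z x := by
              rw [eX', h.rz.c3] at hb2
              exact le_of_mul_le_mul_left (by linarith : x * xi' ≤ x * xi3 z x) hx
            have q1 : x * (xi3 z x - xi') ≤ 17 / 20 * dwu z x := by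
              obtain ⟨b1', b2'⟩ := h.rz.b_bd hz
              rw [cv_two_high (h.rz.ge_h0 hz), h.rz.W_up hz, h.rz.c3] at b2'
              unfold dwu
              nlinarith
            have row := hR.t2b_c1_u x w z xi xi' hxi hxi' hD hz q1 q2 h00
            have := row_okv (P := .pp) h hz h.d12 (h.rz.p3u hz q1 q2).neg
              ((h.ru.t1u hτ).neg.congr rfl hxi.symm) (by norm_num) (by rw [hxi']; ring) row
            rw [← hu, ← eX] at this
            exact this
        · rw [cv_one_high (h.ru.ge_h0 hτ), h.ru.W_up hτ] at hk'
          exact hW hk'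
    · -- T1
      rw [abs_of_pos s13] at hc1 hc2 hk'
      have hτ : 0 ≤ w + z := by
        by_contra hc
        push Not at hc
        have c := h.ru.c1_dn' hc
        have c' := h.rz.c1_dn' (z := z) (by linarith)
        linarith
      obtain ⟨b1, b2⟩ := h.ru.b_bd hτ
      have cases : k = 0 ∨ k = 1 ∨ k = 2 := by
        fin_cases k
        · exact Or.inl rfl
        · exact Or.inr (Or.inl rfl)
        · exact Or.inr (Or.inr rfl)
        · exfalso
          change X13 = pos.cv 3 (h0 * (1 + x * (w + z))) at hk'
          rw [cv3] at hk'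
          linarith
      have hW : X13 = 1 / 2 + x * xiw (w + z) x → OKV V (h0 * x) (c1 (h0 * (x * w))) X13
          (h0 * (x * w)) (h0 * (1 + x * z)) := by
        intro hk'
        obtain ⟨xi, hxi⟩ : ∃ xi, xi = xiw (w + z) x := ⟨_, rfl⟩
        obtain ⟨xi', hxi'⟩ : ∃ xi', xi' = -(x * om w x) - xi := ⟨_, rfl⟩
        rw [← hxi] at hk'
        have hD : Dom 8 x w z (1 / 2) xi := h.dom h8 (by rw [← hk', ← hu]; exact hE)
        have eX' : -(X13 - c1 (h0 * (x * w))) = 1 / 2 + x * xi' := by
          rw [hu, hk', hxi']
          ring
        rcases lt_or_ge z 0 with hz | hz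
        · exfalso
          have o := h.omw (u := w + z) (by linarith) (by linarith)
          have c := h.rz.c1_dn' hz
          rw [eX', hxi', hxi] at hb1
          unfold xiw at hb1
          have := mul_le_mul_of_nonneg_left (mul_le_mul_of_nonneg_left o hx.le) hx.le
          nlinarith
        · have o := h.omu (u := w) (by rw [abs_of_nonneg hτ]; linarith)
            (by rw [abs_of_nonneg hτ]; linarith)
          have q1 : xiw z x ≤ xi' := by
            have := mul_le_mul_of_nonneg_left o hx.le
            have := mul_nonneg hx.le oz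
            rw [hxi', hxi]
            unfold xiw
            linarith
          have q2 : x * (xi' - xiw z x) ≤ 3 / 20 * dwu z x := by
            have := h.rz.dwu_ge hz
            have := mul_nonneg hx.le (mul_nonneg hx.le ou)
            rw [hxi', hxi]
            unfold xiw
            nlinarith
          have h00 : 0 < w + z := by
            rcases hl with h8 | h8
            · have : 0 < w := lt_of_le_of_ne w0 (Ne.symm h8)
              linarith
            · have : 0 < z := lt_of_le_of_ne hz (Ne.symm h8)
              linarith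
          have row := hR.t1b_W x w z xi xi' hxi hxi' hD hz q1 q2 h00
          have := row_okv (P := .pp) h hz h.d12 (h.rz.p2u hz q1 q2).neg
            ((h.ru.tWu hτ).congr rfl hxi.symm) (by norm_num) (by rw [hxi']; ring) row
          rw [← hu, ← hk'] at this
          exact this
      rcases cases with rfl | rfl | rfl
      · rw [cv0] at hk'
        rcases lt_or_ge z 0 with hz | hz
        · rcases le_or_gt (pos.cv 1 (h0 * (1 + x * z))) (-(X13 - c1 (h0 * (x * w)))) with hc | hc
          · exfalso
            exact h.no_a hz hc (by linarith)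
          · rw [h.ru.c1] at hk'
            rcases eq_or_ne (w + z) 0 with hz0 | hz0
            · refine hW ?_
              rw [hk', hz0, xi_zero.1, xi_zero.2]
            obtain ⟨xi, hxi⟩ : ∃ xi, xi = xi1 (w + z) x := ⟨_, rfl⟩
            obtain ⟨xi', hxi'⟩ : ∃ xi', xi' = -(x * om w x) - xi := ⟨_, rfl⟩
            have hk2 := hk'
            rw [← hxi] at hk'
            have hD : Dom 8 x w z (1 / 2) xi := h.dom h8 (by rw [← hk', ← hu]; exact hE)
            by_cases h6 : In6 w z
            swap
            · refine hX.outB _ _ hk hk0 hS h6 (in7_of hτ) ?_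
              rw [abs_of_pos s13]
              exact h.ru.ne_c1 hz0 hk2
            have hD := Dom6 hD h6
            have eX' : -(X13 - c1 (h0 * (x * w))) = 1 / 2 + x * xi' := by
              rw [hu, hk', hxi']
              ring
            have q1 : xi1 z x ≤ xi' := by
              rw [eX', h.rz.c1] at hb1
              exact le_of_mul_le_mul_left (by linarith : x * xi1 z x ≤ x * xi') hx
            have q2 : x * (xi' - xi1 z x) ≤ 1 / 3 * dwl z x := by
              rw [eX', cv_one_low (h.rz.lt_h0 hz), h.rz.W_dn hz, h.rz.c1] at hc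
              unfold dwl
              nlinarith
            have row := hR.t1b_c1_d x w z xi xi' hxi hxi' hD hz.le hτ q1 q2 (by linarith)
            have := row_okv (P := .pnp) h ⟨hz.le, hτ⟩ h.d12 (h.rz.p1d hz q1 q2).neg
              ((h.ru.t1u hτ).congr rfl hxi.symm) (by norm_num) (by rw [hxi']; ring) row
            rw [← hu, ← hk'] at this
            exact this
        · rcases le_or_gt (pos.cv 2 (h0 * (1 + x * z))) (-(X13 - c1 (h0 * (x * w)))) with hc | hc
          · rw [hk'] at hS hc ⊢
            exact hX.b4 hz hS (by linarith)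
          · rw [h.ru.c1] at hk'
            rcases eq_or_ne (w + z) 0 with hz0 | hz0
            · refine hW ?_
              rw [hk', hz0, xi_zero.1, xi_zero.2]
            obtain ⟨xi, hxi⟩ : ∃ xi, xi = xi1 (w + z) x := ⟨_, rfl⟩
            obtain ⟨xi', hxi'⟩ : ∃ xi', xi' = -(x * om w x) - xi := ⟨_, rfl⟩
            have hk2 := hk'
            rw [← hxi] at hk'
            have hD : Dom 8 x w z (1 / 2) xi := h.dom h8 (by rw [← hk', ← hu]; exact hE)
            by_cases h6 : In6 w z
            swap
            · refine hX.outB _ _ hk hk0 hS h6 (in7_of hτ) ?_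
              rw [abs_of_pos s13]
              exact h.ru.ne_c1 hz0 hk2
            have hD := Dom6 hD h6
            have eX' : -(X13 - c1 (h0 * (x * w))) = 1 / 2 + x * xi' := by
              rw [hu, hk', hxi']
              ring
            have q1 : xiw z x ≤ xi' := by
              have e1 := (h.ru.xi1_up hτ).1
              have k1 : x * om w x ≤ x * (39 / 100 * w ^ 2) :=
                mul_le_mul_of_nonneg_left h.omw_le hx.le
              have k0 : x * w ≤ 3 / 25 := by
                have := h.hu
                have := mul_nonneg hx.le hz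
                linarith
              have k2 : x * w * w ≤ 3 / 25 * w := mul_le_mul_of_nonneg_right k0 h.w0
              have := mul_nonneg hx.le oz
              rw [hxi', hxi]
              unfold xiw
              nlinarith
            have q2 : x * (xi' - xiw z x) ≤ 3 / 20 * dwu z x := by
              rw [eX', cv_two_high (h.rz.ge_h0 hz), h.rz.W_up hz, h.rz.c3] at hc
              unfold dwu
              nlinarith
            have row := hR.t1b_c1_u x w z xi xi' hxi hxi' hD hz q1 q2
              (lt_of_le_of_ne hτ (Ne.symm hz0))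
            have := row_okv (P := .pp) h hz h.d12 (h.rz.p2u hz q1 q2).neg
              ((h.ru.t1u hτ).congr rfl hxi.symm) (by norm_num) (by rw [hxi']; ring) row
            rw [← hu, ← hk'] at this
            exact this
      · rw [cv_one_high (h.ru.ge_h0 hτ), h.ru.W_up hτ] at hk'
        exact hW hk'
      · rcases lt_or_ge z 0 with hz | hz
        · exfalso
          have c := h.rz.c1_dn hz.le
          linarith
        · rw [hk'] at hS ⊢
          exact hX.b3 hz hS

end

end Pool.Agent.Strip051.LC.E0
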