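import Pool.Agent.Strip051.LC.E0.ClD

/-! # Small rests: the lattice shapes -/

namespace Pool.Agent.Strip051.LC.E0

open Pool.Agent.StripNear Pool.Agent.StripSquare Pool.Agent.Strip051 Pool.Agent.Strip051.Sweep
open Pool.Agent.Strip051.LC.Line
open Pool.Agent.Strip051.LC.Exact (kE)
open G

section

variable {x : ℝ}

theorem kf_lat (κ s : ℝ) (r : ℝ × ℝ × ℝ) (y : ℝ) :
    kf κ s r 0 h0 y = (r.1 + r.2.1 - r.2.2) * Line.D s κ y := by
  have hh := h0_pos
  have e1 := (jt_low (T := 0) (by positivity)).2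
  have e2 := (jt_mid (T := h0) (by linarith) (by linarith)).2
  have m : ∀ a : ℝ, mn (Line.D s κ) a a = Line.D s κ a := fun a => by
    unfold mn
    simp
  unfold kf
  rw [zero_add, e1, e2, add_zero, sub_self, add_zero, m]
  ring

theorem N3u_zero : N3u 0 x = (0, 0, 0) := by
  have e1 : xi3 0 x = 0 := by
    unfold xi3
    simp
  have e3 : sg3 0 x = 0 := by
    unfold sg3
    rw [e1]
    simp
  have a0 : dt 0 = 0 := by
    unfold dt
    simp [cse]
  have a1 : xa 0 x = 0 := by
    unfold xa q1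
    simp [cse]
  have a3 : xb 0 = 0 := by
    unfold xb
    simp [cse]
  unfold N3u k3p k3 x3p
  rw [e3, a0, a1, zero_div, a3]
  simp

theorem N1u_zero : N1u 0 x = (0, 0, 0) := by
  have e1 : xi1 0 x = 0 := xi_zero.1
  have e3 : sg1 0 x = 0 := by
    unfold sg1
    rw [e1]
    simp
  have a0 : dt 0 = 0 := by
    unfold dt
    simp [cse]
  have a1 : xa 0 x = 0 := by
    unfold xa q1
    simp [cse]
  have a3 : xb 0 = 0 := by
    unfold xb
    simp [cse]
  unfold N1u k1p k1 x1p
  rw [e3, a0, a1, zero_div, a3]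
  simp

theorem S12_zero : S12 0 x = (0, 0, 0) := by
  have a0 : dt 0 = 0 := by
    unfold dt
    simp [cse]
  have a1 : xa 0 x = 0 := by
    unfold xa q1
    simp [cse]
  have a4 : gh 0 = 0 := by
    unfold gh
    simp [cse]
  unfold S12
  rw [a0, a1, a4]
  simp

/-- **The lattice shapes.** -/
theorem lat_ok (V : Vx) (h : Win x 0 0) {X13 : ℝ} (hX : X13 = 1 / 2 ∨ X13 = -(1 / 2) ∨ X13 = 3 / 2) :
    OKV V (h0 * x) 1 X13 (h0 * (x * 0)) (h0 * (1 + x * 0)) := by
  have d12 : DatT x (h0 * (x * 0)) 1 0 (0, 0, 0) := by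
    have := h.d12
    rw [S12_zero] at this
    exact this.congr rfl (by unfold om; simp)
  have o1 : DatT x (h0 * (1 + x * 0)) (1 / 2) 0 (0, 0, 0) := by
    have := h.rz.t1u le_rfl
    rw [N1u_zero, xi_zero.1] at this
    exact this
  have o3 : DatT x (h0 * (1 + x * 0)) (3 / 2) 0 (0, 0, 0) := by
    have := h.rz.t3u le_rfl
    rw [N3u_zero] at this
    exact this.congr rfl (by unfold xi3; simp)
  have neg0 : ∀ {K : ℝ}, DatT x (h0 * (1 + x * 0)) K 0 (0, 0, 0) →
      DatT x (h0 * (1 + x * 0)) (-K) 0 (0, 0, 0) := by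
    intro K hK
    have := hK.neg
    exact (show DatT x (h0 * (1 + x * 0)) (-K) (-0) (0, 0, 0) by
      simpa using this).congr rfl (by simp)
  have key : ∀ {K13 : ℝ}, DatT x (h0 * (1 + x * 0)) (K13 - 1) 0 (0, 0, 0) →
      DatT x (h0 * (1 + x * 0)) K13 0 (0, 0, 0) →
      OKV V (h0 * x) 1 K13 (h0 * (x * 0)) (h0 * (1 + x * 0)) := by
    intro K13 d23 d13
    have e13 : h0 * (x * 0) + h0 * (1 + x * 0) = h0 * (1 + x * (0 + 0)) := by ring
    have hEx : exn 1 K13 0 h0 = 0 := by
      unfold exn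
      have := h0_pos.ne'
      field_simp
      ring
    have q0 : h0 * (x * 0) = 0 := by ring
    have q1 : h0 * (1 + x * 0) = h0 := by ring
    have q2 : h0 * (1 + x * (0 + 0)) = h0 := by ring
    have v0 : ∀ {v : ℝ → Fin 4 → ℝ} {R12 R23 R13 : ℝ},
        ker E0.K.nodes v (fun _ _ => 0) (1 + x * 0) (h0 * (x * 0)) = R12 →
        ker E0.K.nodes v (fun _ _ => 0) (K13 - 1 + x * 0) (h0 * (1 + x * 0)) = R23 →
        ker E0.K.nodes v (fun _ _ => 0) (K13 + x * 0) (h0 * (1 + x * 0)) = R13 →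
        E0.K.valK 1 K13 (h0 * (x * 0)) (h0 * (1 + x * 0)) v = (R12, R23, R13) := by
      intro v R12 R23 R13 h1 h2 h3
      simp only [mul_zero, add_zero] at h1 h2 h3 ⊢
      unfold Cur.valK
      rw [h1, zero_add, h2, h3]
    cases V
    · intro y
      rw [v0 d12.a d23.a d13.a, v0 d12.c d23.c d13.c, q0, q1, kf_lat, hEx]
      unfold farXV
      simp
    · intro y
      rw [v0 d12.b d23.b d13.b, v0 d12.c d23.c d13.c, q0, q1, kf_lat, hEx]
      unfold levXV nk
      simp
      refine le_of_eq ?_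
      ring
  rcases hX with rfl | rfl | rfl
  · exact key ((neg0 o1).congr (by norm_num) rfl) o1
  · exact key ((neg0 o3).congr (by norm_num) rfl) (neg0 o1)
  · exact key (o1.congr (by norm_num) rfl) o3

/-- **The vertices at the lattice triangle.** -/
theorem vert0 {V : Vx} (h : Win x 0 0) : Vert V x 0 0 := by
  have hh := h0_pos
  have q0 : h0 * (x * 0) = 0 := by ring
  have q1 : h0 * (1 + x * 0) = h0 := by ring
  have q2 : h0 * (1 + x * (0 + 0)) = h0 := by ring
  have hu : c1 (h0 * (x * 0)) = 1 := by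
    rw [h.u_eq]
    unfold om
    simp
  have hp : c1 (h0 * (1 + x * 0)) = 1 / 2 := by
    rw [h.rz.c1, xi_zero.1]
    ring
  have hp' : c1 (h0 * (1 + x * (0 + 0))) = 1 / 2 := by
    rw [q2, ← q1]
    exact hp
  have hc : c3 (h0 * (1 + x * 0)) = 3 / 2 := by
    rw [h.rz.c3]
    unfold xi3
    simp
  have hc' : c3 (h0 * (1 + x * (0 + 0))) = 3 / 2 := by
    rw [q2, ← q1]
    exact hc
  obtain ⟨b1, b2⟩ := h.rz.b_bd le_rfl
  have hW : Wc (h0 * (1 + x * 0)) = 1 / 2 := by
    rw [h.rz.W_up le_rfl, xi_zero.2]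
    ring
  have key : ∀ (k : Fin 4) (T : ℝ), T = h0 * (1 + x * 0) → ∀ v : ℝ, v = pos.cv k T →
      v = 1 / 2 ∨ v = pos.cv 2 (h0 * (1 + x * 0)) ∨ v = 3 / 2 := by
    intro k T hT v hv
    subst hT
    fin_cases k
    · left
      change v = pos.cv 0 _ at hv
      rw [cv_zero, hp] at hv
      exact hv
    · left
      change v = pos.cv 1 _ at hv
      rw [cv_one_high (h.rz.ge_h0 le_rfl), hW] at hv
      exact hv
    · right
      left
      exact hv
    · right
      right
      change v = pos.cv 3 _ at hv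
      rw [cv_three, hc] at hv
      exact hv
  have e2 : h0 * (1 + x * (0 + 0)) = h0 * (1 + x * 0) := by rw [q1, q2]
  refine ⟨?_, ?_, ?_⟩
  · intro k X23 _ hk' hS
    have hb1 := hS.b1
    have hb2 := hS.b2
    rw [add_sub_cancel_left] at hb1 hb2
    have hc1 := hS.c1
    have hc2 := hS.c2
    rw [hu] at hc1 hc2 ⊢
    rw [hp'] at hc1
    rw [hc'] at hc2
    have a1 := abs_le.1 hc2
    refine lat_ok V h ?_
    rcases key k _ rfl _ hk' with h5 | h5 | h5
    · rcases abs_eq (by norm_num) |>.1 h5 with h6 | h6 <;> rw [h6] <;> norm_num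
    · exfalso
      rcases le_total 0 X23 with h6 | h6
      · rw [abs_of_nonneg h6] at h5
        linarith [a1.2]
      · rw [abs_of_nonpos h6] at h5
        rw [abs_of_nonneg (by linarith)] at hc1
        linarith
    · rcases abs_eq (by norm_num) |>.1 h5 with h6 | h6
      · exfalso
        linarith [a1.2]
      · rw [h6]
        norm_num
  · intro k X13 _ hk' hS
    have hb1 := hS.b1
    have hb2 := hS.b2
    rw [hu] at hb1 hb2 ⊢
    rw [hp] at hb1
    rw [hc] at hb2
    have a1 := abs_le.1 hb2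
    refine lat_ok V h ?_
    rcases key k _ e2 _ hk' with h5 | h5 | h5
    · rcases abs_eq (by norm_num) |>.1 h5 with h6 | h6
      · exact Or.inl h6
      · exact Or.inr (Or.inl h6)
    · exfalso
      rcases le_total 0 X13 with h6 | h6
      · rw [abs_of_nonneg h6] at h5
        rw [abs_of_nonpos (by linarith)] at hb1
        linarith
      · rw [abs_of_nonpos h6] at h5
        linarith [a1.1]
    · rcases abs_eq (by norm_num) |>.1 h5 with h6 | h6
      · exact Or.inr (Or.inr h6)
      · exfalso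
        linarith [a1.1]
  · intro _
    rw [hp, hp', show (1 / 2 : ℝ) + 1 / 2 = 1 by norm_num]
    exact lat_ok V h (Or.inl rfl)

end

end Pool.Agent.Strip051.LC.E0
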