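import Pool.Agent.Strip051.LC.E0.ClE

/-! # Small rests: the slopes of the scaled tables -/

namespace Pool.Agent.Strip051.LC.E0

open Pool.Agent.StripNear Pool.Agent.StripSquare Pool.Agent.Strip051 Pool.Agent.Strip051.Sweep
open Pool.Agent.Strip051.LC.Line
open G

/-- Slopes between `m` and `M` on an interval. -/
def Sl (f : ℝ → ℝ) (m M a b : ℝ) : Prop :=
  ∀ u v : ℝ, a ≤ u → u ≤ v → v ≤ b → m * (v - u) ≤ f v - f u ∧ f v - f u ≤ M * (v - u)

/-- Slopes between `m` and `M` on a half line. -/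
def Sr (f : ℝ → ℝ) (m M a : ℝ) : Prop :=
  ∀ u v : ℝ, a ≤ u → u ≤ v → m * (v - u) ≤ f v - f u ∧ f v - f u ≤ M * (v - u)

theorem Sl.glue {f : ℝ → ℝ} {m M a b c : ℝ} (h1 : Sl f m M a b) (h2 : Sl f m M b c) :
    Sl f m M a c := by
  intro u v hu huv hv
  rcases le_total v b with h | h
  · exact h1 u v hu huv h
  · rcases le_total b u with h' | h'
    · exact h2 u v h' huv hv
    · have e1 := h1 u b hu h' le_rfl
      have e2 := h2 b v le_rfl h hv
      constructor <;> linarith [e1.1, e1.2, e2.1, e2.2]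

theorem Sl.glueR {f : ℝ → ℝ} {m M a b : ℝ} (h1 : Sl f m M a b) (h2 : Sr f m M b) :
    Sr f m M a := by
  intro u v hu huv
  rcases le_total v b with h | h
  · exact h1 u v hu huv h
  · rcases le_total b u with h' | h'
    · exact h2 u v h' huv
    · have e1 := h1 u b hu h' le_rfl
      have e2 := h2 b v le_rfl h
      constructor <;> linarith [e1.1, e1.2, e2.1, e2.2]

theorem Sr.abs {f : ℝ → ℝ} {m M a L : ℝ} (h : Sr f m M a) (hm : -L ≤ m) (hM : M ≤ L) {u v : ℝ}
    (hu : a ≤ u) (hv : a ≤ v) : |f v - f u| ≤ L * |v - u| := by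
  rcases le_total u v with h1 | h1
  · have e := h u v hu h1
    have h2 : 0 ≤ v - u := by linarith
    rw [abs_of_nonneg h2, abs_le]
    have k1 := mul_le_mul_of_nonneg_right hm h2
    have k2 := mul_le_mul_of_nonneg_right hM h2
    constructor <;> linarith [e.1, e.2]
  · have e := h v u hv h1
    have h2 : 0 ≤ u - v := by linarith
    rw [abs_sub_comm, abs_sub_comm v u, abs_of_nonneg h2, abs_le]
    have k1 := mul_le_mul_of_nonneg_right hm h2
    have k2 := mul_le_mul_of_nonneg_right hM h2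
    constructor <;> linarith [e.1, e.2]

theorem sqrt3_bd : 1732 / 1000 ≤ Real.sqrt 3 ∧ Real.sqrt 3 ≤ 17321 / 10000 := by
  constructor
  · exact Real.le_sqrt_of_sq_le (by norm_num)
  · exact Real.sqrt_le_iff.2 ⟨by norm_num, by norm_num⟩

theorem dt_p1 {w : ℝ} (h : w ≤ 1) : dt w = w * (13 / 40 + 111 / 1000 * w) := by
  unfold dt
  rw [cse_sub, if_pos h]

theorem dt_p2 {w : ℝ} (h : 1 ≤ w) (h' : w ≤ 3 / 2) : dt w = 51 / 100 * w - 37 / 500 := by
  rcases h.eq_or_lt with h1 | h1
  · rw [← h1, dt_p1 le_rfl]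
    norm_num
  · unfold dt
    rw [cse_sub, if_neg h1.not_ge, cse_sub, if_pos h']

theorem dt_p3 {w : ℝ} (h : 3 / 2 ≤ w) (h' : w ≤ 5 / 2) : dt w = 127 / 200 * w - 523 / 2000 := by
  rcases h.eq_or_lt with h1 | h1
  · rw [← h1, dt_p2 (by norm_num) le_rfl]
    norm_num
  · unfold dt
    rw [cse_sub, if_neg (by linarith), cse_sub, if_neg h1.not_ge, cse_sub, if_pos h']

theorem dt_p4 {w : ℝ} (h : 5 / 2 ≤ w) (h' : w ≤ 4) :
    dt w = 663 / 500 + (8 / 3 * Real.sqrt 3 - 221 / 250) * (w - 5 / 2) := by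
  rcases h.eq_or_lt with h1 | h1
  · rw [← h1, dt_p3 (by norm_num) le_rfl]
    norm_num
  · unfold dt
    rw [cse_sub, if_neg (by linarith), cse_sub, if_neg (by linarith), cse_sub,
      if_neg h1.not_ge, cse_sub, if_pos h']
    ring

theorem dt_p5 {w : ℝ} (h : 4 ≤ w) : dt w = w * Real.sqrt 3 := by
  rcases h.eq_or_lt with h1 | h1
  · rw [← h1, dt_p4 (by norm_num) le_rfl]
    ring
  · unfold dt
    rw [cse_sub, if_neg (by linarith), cse_sub, if_neg (by linarith), cse_sub,
      if_neg (by linarith), cse_sub, if_neg h1.not_ge]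

theorem dt_sl : Sr dt 0 (187 / 50) 0 := by
  obtain ⟨r1, r2⟩ := sqrt3_bd
  refine Sl.glueR (b := 1) ?_ (Sl.glueR (b := 3 / 2) ?_ (Sl.glueR (b := 5 / 2) ?_
    (Sl.glueR (b := 4) ?_ ?_)))
  · intro u v hu huv hv
    rw [dt_p1 hv, dt_p1 (huv.trans hv)]
    have h1 : 0 ≤ v - u := by linarith
    have e : v * (13 / 40 + 111 / 1000 * v) - u * (13 / 40 + 111 / 1000 * u) =
        (13 / 40 + 111 / 1000 * (u + v)) * (v - u) := by ring
    rw [e]
    constructor
    · exact mul_le_mul_of_nonneg_right (by linarith) h1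
    · exact mul_le_mul_of_nonneg_right (by linarith) h1
  · intro u v hu huv hv
    rw [dt_p2 (hu.trans huv) hv, dt_p2 hu (huv.trans hv)]
    constructor <;> linarith
  · intro u v hu huv hv
    rw [dt_p3 (hu.trans huv) hv, dt_p3 hu (huv.trans hv)]
    constructor <;> linarith
  · intro u v hu huv hv
    rw [dt_p4 (hu.trans huv) hv, dt_p4 hu (huv.trans hv)]
    have h1 : 0 ≤ v - u := by linarith
    have e : 663 / 500 + (8 / 3 * Real.sqrt 3 - 221 / 250) * (v - 5 / 2) -
        (663 / 500 + (8 / 3 * Real.sqrt 3 - 221 / 250) * (u - 5 / 2)) =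
        (8 / 3 * Real.sqrt 3 - 221 / 250) * (v - u) := by ring
    rw [e]
    constructor
    · exact mul_le_mul_of_nonneg_right (by linarith) h1
    · exact mul_le_mul_of_nonneg_right (by linarith) h1
  · intro u v hu huv
    rw [dt_p5 (hu.trans huv), dt_p5 hu, ← sub_mul, mul_comm (v - u)]
    have h1 : 0 ≤ v - u := by linarith
    constructor
    · exact mul_le_mul_of_nonneg_right (by linarith) h1
    · exact mul_le_mul_of_nonneg_right (by linarith) h1

theorem dt_zero : dt 0 = 0 := by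
  rw [dt_p1 (by norm_num)]
  simp

theorem dt_nonneg {w : ℝ} (h : 0 ≤ w) : 0 ≤ dt w := by
  have := (dt_sl 0 w le_rfl h).1
  rw [dt_zero] at this
  linarith

/-- The kernel is above the one of the unit circle far away. -/
theorem dt_le {w : ℝ} (h : 0 ≤ w) : dt w ≤ 17321 / 10000 * w := by
  obtain ⟨r1, r2⟩ := sqrt3_bd
  rcases le_total w 1 with h1 | h1
  · rw [dt_p1 h1]
    nlinarith
  rcases le_total w (3 / 2) with h2 | h2
  · rw [dt_p2 h1 h2]
    linarith
  rcases le_total w (5 / 2) with h3 | h3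
  · rw [dt_p3 h2 h3]
    linarith
  rcases le_total w 4 with h4 | h4
  · rw [dt_p4 h3 h4]
    nlinarith [mul_nonneg (sub_nonneg.2 h3) (sub_nonneg.2 r2)]
  · rw [dt_p5 h4]
    nlinarith

section

variable {x : ℝ}

theorem xa_p1 {w : ℝ} (h : w ≤ 1) : xa w x = q1 w x := by
  unfold xa
  rw [cse_sub, if_pos h]

theorem xa_p2 {w : ℝ} (h : 1 ≤ w) (h' : w ≤ 3 / 2) : xa w x = ch x + mm x * (w - 1) := by
  rcases h.eq_or_lt with h1 | h1
  · rw [← h1, xa_p1 le_rfl]
    unfold q1
    ring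
  · unfold xa
    rw [cse_sub, if_neg h1.not_ge, cse_sub, if_pos h']

theorem xa_p3 {w : ℝ} (h : 3 / 2 ≤ w) (h' : w ≤ 5 / 2) :
    xa w x = ch x + mm x / 2 + (957 / 1000 - (ch x + mm x / 2)) * (w - 3 / 2) := by
  rcases h.eq_or_lt with h1 | h1
  · rw [← h1, xa_p2 (by norm_num) le_rfl]
    ring
  · unfold xa
    rw [cse_sub, if_neg (by linarith), cse_sub, if_neg h1.not_ge, cse_sub, if_pos h']

theorem xa_p4 {w : ℝ} (h : 5 / 2 ≤ w) (h' : w ≤ 4) : xa w x = 319 / 125 * (1 - w / 4) := by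
  rcases h.eq_or_lt with h1 | h1
  · rw [← h1, xa_p3 (by norm_num) le_rfl]
    ring
  · unfold xa
    rw [cse_sub, if_neg (by linarith), cse_sub, if_neg (by linarith), cse_sub,
      if_neg h1.not_ge, cse_sub, if_pos h']

theorem xa_p5 {w : ℝ} (h : 4 ≤ w) : xa w x = 0 := by
  rcases h.eq_or_lt with h1 | h1
  · rw [← h1, xa_p4 (by norm_num) le_rfl]
    norm_num
  · unfold xa
    rw [cse_sub, if_neg (by linarith), cse_sub, if_neg (by linarith), cse_sub,
      if_neg (by linarith), cse_sub, if_neg h1.not_ge]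

theorem xa_sl (hx : 0 < x) (hs : h0 * x ≤ 11 / 400) :
    Sr (fun w => xa w x) (-(16 / 25)) (9 / 20) 0 := by
  obtain ⟨a, b⟩ := ch_bd hx hs
  obtain ⟨c, d⟩ := mm_bd hx hs
  refine Sl.glueR (b := 1) ?_ (Sl.glueR (b := 3 / 2) ?_ (Sl.glueR (b := 5 / 2) ?_
    (Sl.glueR (b := 4) ?_ ?_)))
  · intro u v hu huv hv
    simp only
    rw [xa_p1 hv, xa_p1 (huv.trans hv)]
    have h1 : 0 ≤ v - u := by linarith
    have e : q1 v x - q1 u x = (2 * ch x - mm x + (mm x - ch x) * (u + v)) * (v - u) := by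
      unfold q1
      ring
    rw [e]
    have k1 : 0 ≤ (mm x - ch x) * (u + v) := mul_nonneg (by linarith) (by linarith)
    have k2 : (mm x - ch x) * (u + v) ≤ (mm x - ch x) * 2 :=
      mul_le_mul_of_nonneg_left (by linarith) (by linarith)
    constructor
    · exact mul_le_mul_of_nonneg_right (by linarith) h1
    · exact mul_le_mul_of_nonneg_right (by linarith) h1
  · intro u v hu huv hv
    simp only
    rw [xa_p2 (hu.trans huv) hv, xa_p2 hu (huv.trans hv)]
    have h1 : 0 ≤ v - u := by linarith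
    have e : ch x + mm x * (v - 1) - (ch x + mm x * (u - 1)) = mm x * (v - u) := by ring
    rw [e]
    constructor
    · exact mul_le_mul_of_nonneg_right (by linarith) h1
    · exact mul_le_mul_of_nonneg_right (by linarith) h1
  · intro u v hu huv hv
    simp only
    rw [xa_p3 (hu.trans huv) hv, xa_p3 hu (huv.trans hv)]
    have h1 : 0 ≤ v - u := by linarith
    have e : ch x + mm x / 2 + (957 / 1000 - (ch x + mm x / 2)) * (v - 3 / 2) -
        (ch x + mm x / 2 + (957 / 1000 - (ch x + mm x / 2)) * (u - 3 / 2)) =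
        (957 / 1000 - (ch x + mm x / 2)) * (v - u) := by ring
    rw [e]
    constructor
    · exact mul_le_mul_of_nonneg_right (by linarith) h1
    · exact mul_le_mul_of_nonneg_right (by linarith) h1
  · intro u v hu huv hv
    simp only
    rw [xa_p4 (hu.trans huv) hv, xa_p4 hu (huv.trans hv)]
    constructor <;> linarith
  · intro u v hu huv
    simp only
    rw [xa_p5 (hu.trans huv), xa_p5 hu]
    constructor <;> linarith

theorem xb_p1 {w : ℝ} (h : w ≤ 1) : xb w = w * (181 / 500 + 209 / 1000 * w) := by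
  unfold xb
  rw [cse_sub, if_pos h]

theorem xb_p2 {w : ℝ} (h : 1 ≤ w) (h' : w ≤ 5 / 2) : xb w = 571 / 1500 * (5 / 2 - w) := by
  rcases h.eq_or_lt with h1 | h1
  · rw [← h1, xb_p1 le_rfl]
    norm_num
  · unfold xb
    rw [cse_sub, if_neg h1.not_ge, cse_sub, if_pos h']

theorem xb_p3 {w : ℝ} (h : 5 / 2 ≤ w) : xb w = 0 := by
  rcases h.eq_or_lt with h1 | h1
  · rw [← h1, xb_p2 (by norm_num) le_rfl]
    norm_num
  · unfold xb
    rw [cse_sub, if_neg (by linarith), cse_sub, if_neg h1.not_ge]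

theorem xb_sl : Sr xb (-(39 / 100)) (39 / 50) 0 := by
  refine Sl.glueR (b := 1) ?_ (Sl.glueR (b := 5 / 2) ?_ ?_)
  · intro u v hu huv hv
    rw [xb_p1 hv, xb_p1 (huv.trans hv)]
    have h1 : 0 ≤ v - u := by linarith
    have e : v * (181 / 500 + 209 / 1000 * v) - u * (181 / 500 + 209 / 1000 * u) =
        (181 / 500 + 209 / 1000 * (u + v)) * (v - u) := by ring
    rw [e]
    constructor
    · exact mul_le_mul_of_nonneg_right (by linarith) h1
    · exact mul_le_mul_of_nonneg_right (by linarith) h1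
  · intro u v hu huv hv
    rw [xb_p2 (hu.trans huv) hv, xb_p2 hu (huv.trans hv)]
    constructor <;> linarith
  · intro u v hu huv
    rw [xb_p3 (hu.trans huv), xb_p3 hu]
    constructor <;> linarith

/-- The gain of the near vertex beats the correction of the kernel. -/
theorem gain (hx : 0 < x) (hs : h0 * x ≤ 11 / 400) {w : ℝ} (hw : 0 ≤ w) :
    ch x * |rf x| * gh w ≤ 37 / 100 * xa w x := by
  obtain ⟨a, b⟩ := ch_bd hx hs
  obtain ⟨c, d⟩ := mm_bd hx hs
  have hx1 := x_le hx hs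
  have g0 := gs_pos hx.le (by linarith)
  have g1 := gs_le (x := x)
  have g2 := gs_sq hx.le (by linarith)
  have g3 : 999 / 1000 ≤ gs x := by nlinarith
  have e : ch x * rf x = 3 / 4 * x ^ 2 / gs x * ch x + ch x * (x / 2 - (1 - 109 / 250 * x)) +
      gs x * mm x := by
    have : ch x ≠ 0 := by linarith
    unfold rf
    field_simp
    ring
  have k0 : 0 ≤ 3 / 4 * x ^ 2 / gs x := by positivity
  have k1 : 3 / 4 * x ^ 2 / gs x ≤ 1 / 1000 := by
    rw [div_le_iff₀ g0]
    nlinarith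
  have k2 : 3 / 4 * x ^ 2 / gs x * ch x ≤ 1 / 1000 * (3 / 8) :=
    mul_le_mul k1 b (by linarith) (by norm_num)
  have k3 : 0 ≤ 3 / 4 * x ^ 2 / gs x * ch x := mul_nonneg k0 (by linarith)
  have m1 : |ch x * rf x| ≤ 19 / 200 := by
    rw [e, abs_le]
    constructor
    · nlinarith [mul_nonneg (sub_nonneg.2 g3) (by linarith : 0 ≤ mm x),
        mul_nonneg hx.le (by linarith : 0 ≤ ch x)]
    · nlinarith [mul_nonneg (sub_nonneg.2 g1) (by linarith : 0 ≤ mm x),
        mul_nonneg hx.le (by linarith : 0 ≤ ch x), mul_nonneg hx.le (sub_nonneg.2 b)]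
  have m2 : ch x * |rf x| = |ch x * rf x| := by
    rw [abs_mul, abs_of_nonneg (by linarith : 0 ≤ ch x)]
  rw [m2]
  have gg := gh_lin hw
  have m3 : |ch x * rf x| * gh w ≤ 19 / 200 * gh w := mul_le_mul_of_nonneg_right m1 gg.1
  refine m3.trans ?_
  rcases le_total w 1 with h1 | h1
  · rw [xa_p1 h1]
    have hq : 57 / 200 * w ≤ q1 w x := by
      unfold q1
      have : 0 ≤ (mm x - ch x) * w := mul_nonneg (by linarith) hw
      nlinarith
    linarith [gg.2]
  have ghle : gh w ≤ 1 := by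
    unfold gh
    simp only [cse_sub]
    split_ifs <;> linarith
  rcases le_total w (3 / 2) with h2 | h2
  · rw [xa_p2 h1 h2]
    have := mul_nonneg (by linarith : 0 ≤ mm x) (sub_nonneg.2 h1)
    linarith
  rcases le_total w (5 / 2) with h3 | h3
  · rw [xa_p3 h2 h3]
    have := mul_nonneg (by linarith : 0 ≤ 957 / 1000 - (ch x + mm x / 2)) (sub_nonneg.2 h2)
    linarith
  rcases le_total w 4 with h4 | h4
  · rw [xa_p4 h3 h4]
    have : gh w = (4 - w) / 3 := by
      unfold gh
      rw [cse_sub, if_neg (by linarith), cse_sub, if_pos h4]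
    linarith
  · rw [xa_p5 h4]
    have : gh w ≤ 0 := by
      unfold gh
      simp only [cse_sub]
      split_ifs <;> linarith
    linarith

end

end Pool.Agent.Strip051.LC.E0
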