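import Pool.Agent.Strip051.LC.E0.ClF

/-! # Small rests: the horizontal side off the unit circle -/

namespace Pool.Agent.Strip051.LC.E0

open Pool.Agent.StripNear Pool.Agent.StripSquare Pool.Agent.Strip051 Pool.Agent.Strip051.Sweep
open Pool.Agent.Strip051.LC.Line
open G

section

variable {x w : ℝ}

/-- The circle of radius `√3` at small heights. -/
theorem R3_low (hx : 0 < x) (hs : h0 * x ≤ 11 / 400) (hw0 : 0 ≤ w) (hw : x * w ≤ 32 / 125) :
    -(633 / 1000 * (h0 * (x * w))) ≤ E0.R3 par (h0 * x) (h0 * (x * w)) ∧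
      E0.R3 par (h0 * x) (h0 * (x * w)) ≤ 0 := by
  have hh := h0_pos
  have g1 := h0_gt
  have g2 := h0_lt
  have hq := h0_sq'
  have hs0 : 0 < h0 * x := by positivity
  obtain ⟨T, hT⟩ : ∃ T, T = h0 * (x * w) := ⟨_, rfl⟩
  rw [← hT]
  have xw0 : 0 ≤ x * w := mul_nonneg hx.le hw0
  have T0 : 0 ≤ T := by rw [hT]; positivity
  have T1 : T ≤ 2218 / 10000 := by rw [hT]; nlinarith
  have e := c3_sq (t := T) (by nlinarith)
  have c0 := c3_nonneg T
  have cu : c3 T ≤ 2 * h0 := by nlinarith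
  have cl : 1717 / 1000 ≤ c3 T := by nlinarith
  obtain ⟨σ, hσ⟩ : ∃ σ, σ = c3 T / (4 * h0) - T / 2 := ⟨_, rfl⟩
  have q1 : c3 T / (4 * h0) ≤ 1 / 2 := by
    rw [div_le_iff₀ (by positivity)]
    linarith
  have q2 : 991 / 2000 ≤ c3 T / (4 * h0) := by
    rw [le_div_iff₀ (by positivity)]
    linarith
  have s1 : 19 / 50 ≤ σ := by rw [hσ]; linarith
  have s2 : σ ≤ 1 / 2 := by rw [hσ]; linarith
  have hR : RA par (h0 * x) σ = 1 - 2 * σ := by
    unfold RA dc
    have h4 : 4 < σ / (h0 * x) := by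
      rw [lt_div_iff₀ hs0]
      linarith
    rw [if_neg (by linarith), if_neg (by linarith), if_neg (by linarith), if_neg (by linarith)]
    ring
  unfold E0.R3
  rw [if_pos (by linarith), ← hσ, hR]
  have k1 : (1 - 2 * σ) / σ ≤ 633 / 1000 := by
    rw [div_le_iff₀ (by linarith)]
    linarith
  have k0 : 0 ≤ (1 - 2 * σ) / σ := div_nonneg (by linarith) (by linarith)
  constructor
  · have := mul_le_mul_of_nonneg_left k1 T0
    linarith
  · have := mul_nonneg T0 k0
    linarith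

/-- The slope right of `W` at small heights. -/
theorem low_slope (hx : 0 < x) (hs : h0 * x ≤ 11 / 400) (hw0 : 0 ≤ w) (hw : x * w ≤ 32 / 125) :
    1 - x * dt w - E0.R3 par (h0 * x) (h0 * (x * w)) ≤
      2 * (c3 (h0 * (x * w)) - Wc (h0 * (x * w))) := by
  obtain ⟨r1, r2⟩ := R3_low hx hs hw0 hw
  have hgap := low_gap hx hw0 hw
  have hh := h0_pos
  have g1 := h0_gt
  have g2 := h0_lt
  have hq := h0_sq'
  have xw0 : 0 ≤ x * w := mul_nonneg hx.le hw0
  have d0 := mul_nonneg hx.le (dt_nonneg hw0)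
  obtain ⟨T, hT⟩ : ∃ T, T = h0 * (x * w) := ⟨_, rfl⟩
  rw [← hT] at r1 r2 hgap ⊢
  have T0 : 0 ≤ T := by rw [hT]; positivity
  have T1 : T ≤ 2218 / 10000 := by rw [hT]; nlinarith
  rcases le_total T (13 / 100) with h | h
  · have c0 := c3_nonneg T
    have e := c3_sq (t := T) (by nlinarith)
    have h1 : 1727 / 1000 ≤ c3 T := by nlinarith
    obtain ⟨e, h2⟩ := W_dn T0 (by linarith : T < h0)
    have h3 : Wc T - 1 / 2 ≤ 677 / 1000 := by
      by_contra hc
      push Not at hc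
      have : (677 / 1000 : ℝ) ^ 2 < (Wc T - 1 / 2) ^ 2 := pow_lt_pow_left₀ hc (by norm_num) (by norm_num)
      have h5 : (736 / 1000 : ℝ) ^ 2 ≤ (h0 - T) ^ 2 :=
        pow_le_pow_left₀ (by norm_num) (by linarith) 2
      nlinarith
    linarith
  · have hw4 : 4 ≤ w := by
      by_contra hc
      push Not at hc
      have : h0 * x * w ≤ 11 / 400 * 4 := mul_le_mul hs hc.le hw0 (by norm_num)
      have e : T = h0 * x * w := by rw [hT]; ring
      linarith
    have e : x * dt w = 2 * T := by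
      rw [dt_p5 hw4, hT, root3]
      ring
    rw [e]
    linarith

/-- **The horizontal side off the unit circle.** -/
theorem dat_low (hx : 0 < x) (hs : h0 * x ≤ 11 / 400) (hw0 : 0 ≤ w) (hw : x * w ≤ 32 / 125)
    {X Δ : ℝ} (h1 : c1 (h0 * (x * w)) ≤ X) (h2 : X ≤ c3 (h0 * (x * w))) (hΔ0 : 0 ≤ Δ)
    (hΔ : X - Wc (h0 * (x * w)) ≤ Δ) : ∃ ξ k χ r, X = 1 + x * ξ ∧
      Dat x (h0 * (x * w)) 1 ξ k χ r ∧ -(x * dt w) - 2 * Δ ≤ x * k ∧ x * k ≤ -(x * dt w) ∧
      -(633 / 1000 * (h0 * (x * w))) ≤ 1 + x * k ∧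
      |x ^ 2 * χ - x ^ 2 * xa w x| ≤ 1 / 50 * Δ ∧ |r - rf x * gh w| ≤ 5 * Δ ∧
      |x ^ 2 * χ| ≤ 3 / 1000 := by
  have hh := h0_pos
  have g2 := h0_lt
  have hx1 := x_le hx hs
  have hs0 : 0 < h0 * x := by positivity
  obtain ⟨r1, r2⟩ := R3_low hx hs hw0 hw
  have hsl := low_slope hx hs hw0 hw
  have hgap := low_gap hx hw0 hw
  have xw0 : 0 ≤ x * w := mul_nonneg hx.le hw0
  have T0 : 0 ≤ h0 * (x * w) := by positivity
  have T1 : h0 * (x * w) ≤ 2218 / 10000 := by nlinarith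
  have T3 : (h0 * (x * w)) ^ 2 ≤ 3 := by nlinarith
  have hlt : h0 * (x * w) < h0 := by linarith [h0_gt]
  have d0 := mul_nonneg hx.le (dt_nonneg hw0)
  have d1 : x * dt w ≤ 1 / 2 := by
    have := mul_le_mul_of_nonneg_left (dt_le hw0) hx.le
    linarith
  have bx := fun j => vX_bd hx hs T0 T3 j
  have hx' := hx.ne'
  obtain ⟨ξ, hξ⟩ : ∃ ξ, ξ = (X - 1) / x := ⟨_, rfl⟩
  have hX : X = 1 + x * ξ := by
    rw [hξ]
    field_simp
    ring
  have eA : ∀ j : Fin 4, j ≠ 3 → vA par (h0 * x) (h0 * (x * w)) j = 1 + x * -dt w := fun j hj =>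
    vA_w hx hw j hj
  have eX : ∀ j : Fin 4, j ≠ 3 → vX par (h0 * x) (h0 * (x * w)) j = x ^ 2 * xa w x := fun j hj =>
    vX_w hx hx1 hw j hj
  have eR : ∀ j : Fin 4, j ≠ 3 → vR par (h0 * x) (h0 * (x * w)) j = rf x * gh w := fun j hj =>
    vR_w hx (by linarith) hw j hj
  have plc : ∀ a y b t : ℝ, pl a y b y t = y := fun a y b t => by
    unfold pl
    ring
  have cst : (∃ i : Fin 3, i ≠ 2 ∧ pos.cv i.castSucc (h0 * (x * w)) ≤ X ∧
      X ≤ pos.cv i.succ (h0 * (x * w))) → Dat x (h0 * (x * w)) 1 ξ (-dt w) (xa w x)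
        (rf x * gh w) := by
    rintro ⟨i, hi, h3, h4⟩
    have n1 : i.castSucc ≠ 3 := by
      intro h
      have := congrArg Fin.val h
      simp at this
      omega
    have n2 : i.succ ≠ 3 := by
      intro h
      have := congrArg Fin.val h
      simp at this
      omega
    refine dat_seg hx hx1 i T0 T3 (by rw [← hX]; exact h3) (by rw [← hX]; exact h4) ?_ ?_ ?_
    · rw [eA _ n1, eA _ n2, plc]
    · rw [eX _ n1, eX _ n2, plc]
    · rw [eR _ n1, eR _ n2, plc]
  have bx2 : |x ^ 2 * xa w x| ≤ 3 / 1000 := by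
    rw [← eX 0 (by decide)]
    exact bx 0
  rcases le_or_gt X (Wc (h0 * (x * w))) with hc | hc
  · refine ⟨ξ, -dt w, xa w x, rf x * gh w, hX, cst ?_, by linarith, by linarith, by linarith,
      by rw [sub_self, abs_zero]; linarith, by rw [sub_self, abs_zero]; linarith, bx2⟩
    rcases le_total X (pos.cv 1 (h0 * (x * w))) with h5 | h5
    · exact ⟨0, by decide, by
        change pos.cv 0 _ ≤ X
        rw [cv_zero]
        exact h1, h5⟩
    · exact ⟨1, by decide, h5, by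
        change X ≤ pos.cv 2 _
        rw [cv_two_low hlt]
        exact hc⟩
  · have eW : pos.cv (2 : Fin 3).castSucc (h0 * (x * w)) = Wc (h0 * (x * w)) := cv_two_low hlt
    have e3 : pos.cv (2 : Fin 3).succ (h0 * (x * w)) = c3 (h0 * (x * w)) := cv_three _
    obtain ⟨l, hl⟩ : ∃ l, l = (X - Wc (h0 * (x * w))) / (c3 (h0 * (x * w)) - Wc (h0 * (x * w))) :=
      ⟨_, rfl⟩
    have gp : 0 < c3 (h0 * (x * w)) - Wc (h0 * (x * w)) := by linarith
    have l0 : 0 ≤ l := by
      rw [hl]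
      exact div_nonneg (by linarith) gp.le
    have l1 : l ≤ 1 := by
      rw [hl, div_le_one gp]
      linarith
    have lg : (c3 (h0 * (x * w)) - Wc (h0 * (x * w))) * l = X - Wc (h0 * (x * w)) := by
      rw [hl, mul_div_cancel₀ _ gp.ne']
    have a3 : vA par (h0 * x) (h0 * (x * w)) (3 : Fin 4) = E0.R3 par (h0 * x) (h0 * (x * w)) := rfl
    obtain ⟨k, hk⟩ : ∃ k, k = (-(x * dt w) +
      (E0.R3 par (h0 * x) (h0 * (x * w)) - (1 - x * dt w)) * l) / x := ⟨_, rfl⟩
    have hk' : x * k = -(x * dt w) +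
        (E0.R3 par (h0 * x) (h0 * (x * w)) - (1 - x * dt w)) * l := by
      rw [hk]
      field_simp
    obtain ⟨χ, hχ⟩ : ∃ χ, χ = (x ^ 2 * xa w x +
      (vX par (h0 * x) (h0 * (x * w)) 3 - x ^ 2 * xa w x) * l) / x ^ 2 := ⟨_, rfl⟩
    have hχ' : x ^ 2 * χ = x ^ 2 * xa w x +
        (vX par (h0 * x) (h0 * (x * w)) 3 - x ^ 2 * xa w x) * l := by
      rw [hχ]
      field_simp
    have hd : Dat x (h0 * (x * w)) 1 ξ k χ (rf x * gh w + (0 - rf x * gh w) * l) := by
      refine dat_seg hx hx1 2 T0 T3 (by rw [← hX, eW]; exact hc.le)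
        (by rw [← hX, e3]; exact h2) ?_ ?_ ?_
      · rw [eW, e3, show (2 : Fin 3).castSucc = (2 : Fin 4) from rfl,
          show (2 : Fin 3).succ = (3 : Fin 4) from rfl, eA 2 (by decide), a3, ← hX]
        unfold pl
        rw [← hl, hk']
        ring
      · rw [eW, e3, show (2 : Fin 3).castSucc = (2 : Fin 4) from rfl,
          show (2 : Fin 3).succ = (3 : Fin 4) from rfl, eX 2 (by decide), ← hX]
        unfold pl
        rw [← hl, hχ']
      · rw [eW, e3, show (2 : Fin 3).castSucc = (2 : Fin 4) from rfl,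
          show (2 : Fin 3).succ = (3 : Fin 4) from rfl, eR 2 (by decide), vR3, ← hX]
        unfold pl
        rw [← hl]
    have sR : |vR par (h0 * x) (h0 * (x * w)) 3 - vR par (h0 * x) (h0 * (x * w)) 2| ≤
        5 * (pos.cv 3 (h0 * (x * w)) - pos.cv 2 (h0 * (x * w))) := sbR_low hx hs hw0 hw 2
    have sX : |vX par (h0 * x) (h0 * (x * w)) 3 - vX par (h0 * x) (h0 * (x * w)) 2| ≤
        1 / 50 * (pos.cv 3 (h0 * (x * w)) - pos.cv 2 (h0 * (x * w))) := sbX_low hx hs hw0 hw 2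
    rw [cv_three, cv_two_low hlt, eR 2 (by decide), vR3] at sR
    rw [cv_three, cv_two_low hlt, eX 2 (by decide)] at sX
    have m1 := mul_le_mul_of_nonneg_right hsl l0
    have m2 := mul_nonneg (by linarith : 0 ≤ 1 - x * dt w - E0.R3 par (h0 * x) (h0 * (x * w))) l0
    have m3 := mul_le_mul_of_nonneg_left l1
      (by linarith : 0 ≤ 1 - x * dt w - E0.R3 par (h0 * x) (h0 * (x * w)))
    have m4 := mul_le_mul_of_nonneg_right sX l0
    have m5 := mul_le_mul_of_nonneg_right sR l0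
    refine ⟨ξ, k, χ, _, hX, hd, by rw [hk']; nlinarith, by rw [hk']; nlinarith,
      by rw [hk']; nlinarith, ?_, ?_, ?_⟩
    · rw [hχ', add_sub_cancel_left, abs_mul, abs_of_nonneg l0]
      linarith
    · rw [add_sub_cancel_left, abs_mul, abs_of_nonneg l0]
      linarith
    · rw [hχ']
      have b3 := bx 3
      have e : x ^ 2 * xa w x + (vX par (h0 * x) (h0 * (x * w)) 3 - x ^ 2 * xa w x) * l =
          x ^ 2 * xa w x * (1 - l) + vX par (h0 * x) (h0 * (x * w)) 3 * l := by ring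
      rw [e]
      refine (abs_add_le _ _).trans ?_
      have k1 : |x ^ 2 * xa w x * (1 - l)| ≤ 3 / 1000 * (1 - l) := by
        rw [abs_mul, abs_of_nonneg (sub_nonneg.2 l1)]
        exact mul_le_mul_of_nonneg_right bx2 (sub_nonneg.2 l1)
      have k2 : |vX par (h0 * x) (h0 * (x * w)) 3 * l| ≤ 3 / 1000 * l := by
        rw [abs_mul, abs_of_nonneg l0]
        exact mul_le_mul_of_nonneg_right b3 l0
      linarith

end

end Pool.Agent.Strip051.LC.E0
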