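import Pool.Agent.Strip051.LC.E0.ClG

/-! # Small rests: opened lattice triangles -/

namespace Pool.Agent.Strip051.LC.E0

open Pool.Agent.StripNear Pool.Agent.StripSquare Pool.Agent.Strip051 Pool.Agent.Strip051.Sweep
open Pool.Agent.Strip051.LC.Line
open Pool.Agent.Strip051.LC.Exact (kE)
open G

/-! ### Geometry -/

/-- Two unit sides at an angle of at least `60` degrees. -/
theorem opn_core {q p a b : ℝ} (hq : q ^ 2 = 1 - 3 / 4 * a ^ 2) (hp : p ^ 2 = 1 - 3 / 4 * b ^ 2)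
    (q0 : 0 ≤ q) (p0 : 0 ≤ p) (hab : a ≤ b) (ha : 93 / 125 ≤ a) (hq1 : q ≤ 153 / 200)
    (hC : 3 / 4 * a * b - p * q ≤ 1 / 2) :
    b ≤ q + a / 2 ∧ 3 / 2 * (q + a / 2 - b) ≤ p - (3 / 4 * a - q / 2) ∧ p ≤ q ∧
      (3 / 4 * a - q / 2) * (q - a / 2 - b / 2 + p) ≤ q * b + p * a - 1 := by
  obtain ⟨ph, hph⟩ : ∃ ph, ph = 3 / 4 * a - q / 2 := ⟨_, rfl⟩
  obtain ⟨bh, hbh⟩ : ∃ bh, bh = q + a / 2 := ⟨_, rfl⟩
  have ph0 : 0 < ph := by rw [hph]; linarith
  have e1 : ph ^ 2 = 1 - 3 / 4 * bh ^ 2 := by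
    rw [hph, hbh]
    linear_combination hq
  have e2 : 3 / 4 * bh * a - ph * q = 1 / 2 := by
    rw [hph, hbh]
    linear_combination (1 / 2) * hq
  have hpq : p ≤ q := by
    refine abs_le_of_sq_le_sq' ?_ q0 |>.2
    nlinarith
  have hb : b ≤ bh := by
    by_contra hc
    push Not at hc
    have h1 : p ^ 2 < ph ^ 2 := by
      rw [hp, e1]
      nlinarith
    have h2 : p < ph := lt_of_pow_lt_pow_left₀ 2 ph0.le h1
    have h3 : 0 < 3 / 4 * a * (b - bh) := by
      have : 0 < b - bh := by linarith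
      positivity
    have h4 : 0 ≤ (ph - p) * q := mul_nonneg (by linarith) q0
    nlinarith
  have hph1 : ph ≤ p := by
    refine abs_le_of_sq_le_sq' ?_ p0 |>.2
    rw [hp, e1]
    nlinarith
  have e3 : (p - ph) * (p + ph) = 3 / 4 * (bh - b) * (bh + b) := by
    linear_combination hp - e1
  have h5 : 2 * (p + ph) ≤ bh + b := by
    rw [hph, hbh]
    linarith
  have h6 : 3 / 2 * (bh - b) ≤ p - ph := by
    have h7 : 3 / 2 * (bh - b) * (p + ph) ≤ (p - ph) * (p + ph) := by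
      rw [e3]
      nlinarith [mul_le_mul_of_nonneg_left h5 (sub_nonneg.2 hb)]
    exact le_of_mul_le_mul_right h7 (by linarith)
  refine ⟨by rw [hbh] at hb; linarith, by rw [hbh, hph] at h6; exact h6, hpq, ?_⟩
  have h8 : 0 ≤ (q / 2 + a / 4) * (p - ph - 3 / 2 * (bh - b)) :=
    mul_nonneg (by linarith) (by linarith)
  rw [← hph]
  have e4 : q * b + p * a - 1 - ph * (q - a / 2 - b / 2 + p) =
      (q / 2 + a / 4) * (p - ph - 3 / 2 * (bh - b)) := by
    rw [hph, hbh]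
    linear_combination hq
  linarith

/-- The half angles. -/
theorem tan_dif {A B Ca Cb : ℝ} (hA : Ca ^ 2 + 3 / 4 * A ^ 2 = 1) (hB : Cb ^ 2 + 3 / 4 * B ^ 2 = 1)
    (B0 : 0 ≤ B) (BA : B ≤ A) (A1 : A ≤ 197 / 500) (a0 : 47 / 50 ≤ Ca) (b0 : 47 / 50 ≤ Cb) :
    0 ≤ A / (1 + Ca) - B / (1 + Cb) ∧ A / (1 + Ca) - B / (1 + Cb) ≤ 11 / 20 * (A - B) := by
  have e : (Cb - Ca) * (Cb + Ca) = 3 / 4 * (A - B) * (A + B) := by linear_combination hB - hA
  have h0' : 0 ≤ A - B := by linarith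
  have hab : Ca ≤ Cb := by
    by_contra hc
    push Not at hc
    have h1 : (Cb - Ca) * (Cb + Ca) < 0 := mul_neg_of_neg_of_pos (by linarith) (by linarith)
    have h2 : 0 ≤ 3 / 4 * (A - B) * (A + B) := by
      have : 0 ≤ A + B := by linarith
      positivity
    linarith
  have e2 : A / (1 + Ca) - B / (1 + Cb) =
      ((A - B) * (1 + Ca) + A * (Cb - Ca)) / ((1 + Ca) * (1 + Cb)) := by
    field_simp
    ring
  have hd : Cb - Ca ≤ 63 / 200 * (A - B) := by
    have h1 : (Cb - Ca) * (47 / 25) ≤ (Cb - Ca) * (Cb + Ca) :=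
      mul_le_mul_of_nonneg_left (by linarith) (by linarith)
    have h2 : 3 / 4 * (A - B) * (A + B) ≤ 3 / 4 * (A - B) * (197 / 250) :=
      mul_le_mul_of_nonneg_left (by linarith) (by linarith)
    linarith
  rw [e2]
  have hA0 : 0 ≤ A := by linarith
  constructor
  · have h3 := mul_nonneg h0' (by linarith : 0 ≤ 1 + Ca)
    have h4 := mul_nonneg hA0 (sub_nonneg.2 hab)
    refine div_nonneg (by linarith) ?_
    have h5 : 0 ≤ 1 + Ca := by linarith
    have h6 : 0 ≤ 1 + Cb := by linarith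
    positivity
  · have h5 : 0 < 1 + Ca := by linarith
    have h6 : 0 < 1 + Cb := by linarith
    rw [div_le_iff₀ (by positivity)]
    have h7 : A * (Cb - Ca) ≤ 197 / 500 * (63 / 200 * (A - B)) :=
      mul_le_mul A1 hd (by linarith) (by norm_num)
    have h8 : 11 / 20 * (A - B) * ((1 + Ca) * (97 / 50)) ≤
        11 / 20 * (A - B) * ((1 + Ca) * (1 + Cb)) := by
      refine mul_le_mul_of_nonneg_left ?_ (by linarith)
      exact mul_le_mul_of_nonneg_left (by linarith) h5.le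
    have h9 : 0 ≤ (A - B) * (Ca - 47 / 50) := mul_nonneg h0' (by linarith)
    nlinarith

/-! ### The modulus inequality with a negative second moment -/

theorem monNeg {κ x ex l1 l2 A1 A2 A3 N d : ℝ} (h1 : 0 ≤ l1) (h2 : 0 ≤ l2) (hL : 0 < l1 + l2)
    (hN : N = l1 * A2 - l2 * A1) (hd : d = (A1 + A2 - A3) * (1 - (l1 + l2)) / 2) (hN0 : N ≤ 0)
    (h : κ * h0 * (x * (|d| - N / 2)) ≤ ex) :
    MoN κ (h0 * x) ex (h0 * l1) (h0 * l2) A1 A2 A3 := by
  have hh := h0_pos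
  unfold MoN
  rw [pot1 hN hd, pot2 hL hN hd, pot3 hN hd]
  refine ⟨|d| - N / 2, ?_⟩
  have a1 := le_abs_self d
  have a2 := neg_abs_le d
  have a3 := abs_nonneg d
  set L := l1 + l2 with hLd
  obtain ⟨u, hu⟩ : ∃ u, u = N / L - N / 2 - (l1 - l2) * d / L - (|d| - N / 2) := ⟨_, rfl⟩
  rw [← hu]
  have uL : u * L = N - (l1 - l2) * d - L * |d| := by
    rw [hu]
    have : L ≠ 0 := hL.ne'
    field_simp
    ring
  have w1 : d - N / 2 - (|d| - N / 2) ≤ 0 := by linarith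
  have w3 : -d - N / 2 - (|d| - N / 2) ≤ 0 := by linarith
  have u0 : u ≤ 0 := by
    have h5 : -((l1 - l2) * d) ≤ L * |d| := by
      have k1 := mul_le_mul_of_nonneg_left a2 h1
      have k2 := mul_le_mul_of_nonneg_left a1 h2
      rw [hLd]
      linarith
    have h6 : u * L ≤ 0 := by
      rw [uL]
      linarith
    exact nonpos_of_mul_nonpos_left h6 hL
  rw [phi_nonpos_nonpos w3 w1, phi_nonpos_nonpos w1 u0, phi_nonpos_nonpos u0 w3]
  refine le_trans (le_of_eq ?_) h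
  ring

/-- The cost from the two residues. -/
theorem costN {x : ℝ} (hx : 0 < x) (hs : h0 * x ≤ 11 / 400) {D N L c : ℝ} (hL0 : 0 ≤ L)
    (hL1 : L ≤ 1) (h : 331 / 10000 * (|D| + |N|) ≤ 2 * c) :
    kE (h0 * x) * h0 * (x * (|D * (1 - L) / 2| - N / 2)) ≤ c := by
  have hx1 := x_le hx hs
  have e0 := ep_pos hx.le (by linarith : x ≤ 1 / 2)
  have e1 : ep x ≤ 1 / 2 := by
    unfold ep
    have := mul_nonneg hx.le (ic_pos (x := x)).le
    linarith
  rw [kE_h0 hx (by linarith)]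
  have a1 : |D * (1 - L) / 2| ≤ |D| / 2 := by
    rw [abs_div, abs_mul, abs_of_pos (by norm_num : (0 : ℝ) < 2), abs_of_nonneg (sub_nonneg.2 hL1)]
    have := mul_le_mul_of_nonneg_left (by linarith : 1 - L ≤ 1) (abs_nonneg D)
    linarith
  have a2 : -N ≤ |N| := neg_le_abs N
  have a3 : 2 * ep x / (1 - x) * x ≤ 331 / 10000 := by
    rw [div_mul_eq_mul_div, div_le_iff₀ (by linarith)]
    have := mul_le_mul_of_nonneg_right e1 hx.le
    linarith
  have a4 : 0 ≤ 2 * ep x / (1 - x) * x := by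
    have : 0 < 1 - x := by linarith
    positivity
  have a5 : 2 * ep x / (1 - x) * (x * (|D * (1 - L) / 2| - N / 2)) ≤
      2 * ep x / (1 - x) * x * ((|D| + |N|) / 2) := by
    rw [← mul_assoc]
    exact mul_le_mul_of_nonneg_left (by linarith) a4
  refine a5.trans ?_
  have a6 := mul_le_mul_of_nonneg_right a3
    (by have := abs_nonneg D; have := abs_nonneg N; linarith : 0 ≤ (|D| + |N|) / 2)
  linarith

end Pool.Agent.Strip051.LC.E0
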