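import Pool.Agent.Strip051.LC.E0.ClH

/-! # Small rests: opened lattice triangles, conclusion -/

namespace Pool.Agent.Strip051.LC.E0

open Pool.Agent.StripNear Pool.Agent.StripSquare Pool.Agent.Strip051 Pool.Agent.Strip051.Sweep
open Pool.Agent.Strip051.LC.Line
open Pool.Agent.Strip051.LC.Exact (kE)
open G

section

variable {x w z : ℝ}

theorem cc1_sq (h : Rg x z) : cc1 z x ^ 2 = 1 - 3 / 4 * (1 + x * z) ^ 2 := by
  have ha := h.a
  have hb := h.b
  exact Real.sq_sqrt (by nlinarith)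

theorem mu_small (hx : 0 < x) (hs : h0 * x ≤ 11 / 400) :
    0 < ch x ∧ ch x ≤ 3 / 8 ∧ 0 ≤ G.mu x ∧ G.mu x ≤ 201 / 1000 ∧ 0 ≤ lb x ∧
      x * lb x ≤ 3 / 500 ∧ ep x * lb x = ch x * G.mu x := by
  have hh := h0_pos
  have hs0 : 0 < h0 * x := by positivity
  have hx1 := x_le hx hs
  obtain ⟨a, b⟩ := ch_bd hx hs
  obtain ⟨m0, m1⟩ := mu_bd hs0 hs
  rw [mu_h0] at m0 m1
  have e0 : 119 / 250 ≤ ep x := by
    unfold ep
    have := mul_le_mul_of_nonneg_left (ic_le (x := x)) hx.le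
    linarith
  have e1 : ep x * lb x = ch x * G.mu x := by
    unfold lb
    rw [mul_div_cancel₀ _ (by linarith)]
  have l0 : 0 ≤ lb x := by
    unfold lb
    have : 0 ≤ ch x := by linarith
    positivity
  refine ⟨by linarith, b, m0, m1, l0, ?_, e1⟩
  have h1 : ch x * G.mu x ≤ 3 / 8 * (201 / 1000) := mul_le_mul b m1 m0 (by norm_num)
  have h2 : lb x ≤ 4 / 25 := by
    by_contra hc
    push Not at hc
    nlinarith
  have h3 := mul_le_mul hx1 h2 l0 (by norm_num)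
  linarith

variable {ξ12 ξ23 ξ13 k12 k23 k13 c12 c23 c13 r12 CA : ℝ}

/-- The statement for an opened lattice triangle from its cost. -/
theorem opn_fin (V : Vx) (h : Win x w z) (d12 : Dat x (h0 * (x * w)) 1 ξ12 k12 c12 r12)
    (d23 : Dat x (h0 * (1 + x * z)) (-(1 / 2)) ξ23 k23 c23 0)
    (d13 : Dat x (h0 * (1 + x * (w + z))) (1 / 2) ξ13 k13 c13 0) (e : ξ23 = ξ13 - ξ12)
    (hK : ∀ y, 0 ≤ CA + kf (kE (h0 * x)) (h0 * x) (1 + x * k12, -(1 / 2) + x * k23,
      1 / 2 + x * k13) (h0 * (x * w)) (h0 * (1 + x * z)) y)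
    (hF : CA + x ^ 2 * (|c12 + c23 - c13| / 2) ≤
      exn (1 + x * ξ12) (1 / 2 + x * ξ13) (h0 * (x * w)) (h0 * (1 + x * z)))
    (hA : (1 + x * lb x) * CA + x ^ 2 * (ch x * G.mu x * |r12|) ≤
      exn (1 + x * ξ12) (1 / 2 + x * ξ13) (h0 * (x * w)) (h0 * (1 + x * z)) +
        x ^ 2 * (G.mu x * levA x w z c12 c23 c13))
    (hB : (1 + x * lb x) * CA + x ^ 2 * (ch x * G.mu x * |r12|) ≤
      exn (1 + x * ξ12) (1 / 2 + x * ξ13) (h0 * (x * w)) (h0 * (1 + x * z)) +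
        x ^ 2 * (G.mu x * levB x w z c12 c23 c13)) :
    OKV V (h0 * x) (1 + x * ξ12) (1 / 2 + x * ξ13) (h0 * (x * w)) (h0 * (1 + x * z)) := by
  have hh := h0_pos
  have hx := h.x0
  have hx1 := h.x1
  have d23' : Dat x (h0 * (1 + x * z)) (1 / 2 - 1) (ξ13 - ξ12) k23 c23 0 := by
    rw [show (1 / 2 - 1 : ℝ) = -(1 / 2) by norm_num, ← e]
    exact d23
  cases V
  · intro y
    rw [valK_eq d12.a d23'.a d13.a, valK_eq d12.c d23'.c d13.c]
    have h1 : |farXV (x ^ 2 * c12, x ^ 2 * c23, x ^ 2 * c13)| =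
        x ^ 2 * (|c12 + c23 - c13| / 2) := by
      unfold farXV
      simp only
      rw [show 1 / 2 * (x ^ 2 * c12 + x ^ 2 * c23 - x ^ 2 * c13) =
        x ^ 2 / 2 * (c12 + c23 - c13) by ring, abs_mul, abs_of_nonneg (by positivity)]
      ring
    have h2 := hK y
    rw [show (-(1 / 2) : ℝ) = 1 / 2 - 1 by norm_num] at h2
    rw [h1]
    linarith
  · intro y
    rw [valK_eq d12.b d23'.b d13.b, valK_eq d12.c d23'.c d13.c]
    have eA : levXV 3 (h0 * x) 0 (h0 * (x * w)) (h0 * (1 + x * z))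
        (x ^ 2 * c12, x ^ 2 * c23, x ^ 2 * c13) = x ^ 2 * (G.mu x * levA x w z c12 c23 c13) := by
      unfold levXV levA
      rw [mu_h0]
      simp only
      push_cast
      field_simp
      ring
    have eB : levXV 3 (h0 * x) 0 (h0 * (1 + x * z)) (h0 * (x * w))
        (-(x ^ 2 * c23), -(x ^ 2 * c12), -(x ^ 2 * c13)) =
        x ^ 2 * (G.mu x * levB x w z c12 c23 c13) := by
      unfold levXV levB
      rw [mu_h0]
      simp only
      push_cast
      field_simp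
      ring
    simp only
    rw [eA, eB]
    have hs0 : 0 < h0 * x := by positivity
    obtain ⟨-, -, -, -, l0, -, el⟩ := mu_small hx h.s1
    have hkf := kf_abs (s := h0 * x) hs0.le (by nlinarith) (kE_nonneg (by positivity) h.s1)
      (r12, 0, 0) (h0 * (x * w)) (h0 * (1 + x * z)) y
    rw [amp_kE hs0 h.s1, we_h0 hx.le (by linarith)] at hkf
    simp only [abs_zero, add_zero] at hkf
    have hsplit : kf (kE (h0 * x)) (h0 * x) (1 + x * nk x k12 1 r12,
        1 / 2 - 1 + x * nk x k23 (1 / 2 - 1) 0, 1 / 2 + x * nk x k13 (1 / 2) 0) (h0 * (x * w))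
          (h0 * (1 + x * z)) y =
        (1 + x * lb x) * kf (kE (h0 * x)) (h0 * x) (1 + x * k12, -(1 / 2) + x * k23,
          1 / 2 + x * k13) (h0 * (x * w)) (h0 * (1 + x * z)) y +
        x * lb x * kf (kE (h0 * x)) (h0 * x) (r12, 0, 0) (h0 * (x * w)) (h0 * (1 + x * z)) y := by
      unfold kf nk
      ring
    rw [hsplit]
    have m1 := mul_le_mul_of_nonneg_left (abs_le.1 hkf).1 (mul_nonneg hx.le l0)
    have m2 := mul_nonneg (by have := mul_nonneg hx.le l0; linarith : 0 ≤ 1 + x * lb x) (hK y)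
    have e3 : x * lb x * (-(x * ep x * |r12|)) = -(x ^ 2 * (ch x * G.mu x * |r12|)) := by
      rw [← el]
      ring
    rw [e3] at m1
    have m3 : (1 + x * lb x) * CA + x ^ 2 * (ch x * G.mu x * |r12|) ≤
        exn (1 + x * ξ12) (1 / 2 + x * ξ13) (h0 * (x * w)) (h0 * (1 + x * z)) +
        min (x ^ 2 * (G.mu x * levA x w z c12 c23 c13))
          (x ^ 2 * (G.mu x * levB x w z c12 c23 c13)) := by
      rcases min_choice (x ^ 2 * (G.mu x * levA x w z c12 c23 c13))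
        (x ^ 2 * (G.mu x * levB x w z c12 c23 c13)) with h5 | h5
      · rw [h5]
        exact hA
      · rw [h5]
        exact hB
    linarith

/-- Geometry of the opened triangle. -/
structure Opn (x w z A B : ℝ) : Prop where
  win : Win x w z
  z0 : z < 0
  eA : A = cc1 z x - (1 + x * z) / 2
  eB : B = (1 + x * (w + z)) / 2 - cc1 (w + z) x
  E0 : x * w ≤ A
  E1 : 2 * (A - x * w) ≤ A - B
  pq : cc1 (w + z) x ≤ cc1 z x
  A1 : A ≤ 393 / 1000
  hC : LC.c1 (h0 * (x * w)) ≤ LC.c1 (h0 * (1 + x * z)) + LC.c1 (h0 * (1 + x * (w + z)))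
  ex : 351 / 4000 * (A - B) ≤
    exn (cc1 z x + cc1 (w + z) x) (cc1 (w + z) x) (h0 * (x * w)) (h0 * (1 + x * z))

theorem opn_of (h : Win x w z) (hz : z < 0)
    (hC : LC.c1 (h0 * (x * w)) ≤ LC.c1 (h0 * (1 + x * z)) + LC.c1 (h0 * (1 + x * (w + z)))) :
    ∃ A B, Opn x w z A B := by
  have hC0 := hC
  have hx := h.x0
  have hh := h0_pos
  have hw := h.w0
  obtain ⟨n1, n2⟩ := h.nums
  have a0 : 0 ≤ x * w := mul_nonneg hx.le hw
  have a1 := h.xw1
  have az := h.rz.a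
  rw [c1_h1, c1_h1] at hC
  have hq := cc1_sq h.rz
  have hp := cc1_sq h.ru
  have hu : LC.c1 (h0 * (x * w)) ^ 2 = 1 - 3 / 4 * (x * w) ^ 2 := by
    rw [c1_hx]
    unfold qw
    rw [Real.sq_sqrt (by nlinarith)]
    ring
  have q0 : 0 ≤ cc1 z x := Real.sqrt_nonneg _
  have p0 : 0 ≤ cc1 (w + z) x := Real.sqrt_nonneg _
  obtain ⟨q, hq'⟩ : ∃ q, q = cc1 z x := ⟨_, rfl⟩
  obtain ⟨p, hp'⟩ : ∃ p, p = cc1 (w + z) x := ⟨_, rfl⟩
  rw [← hq'] at hq q0 hC
  rw [← hp'] at hp p0 hC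
  have q1 : q ≤ 153 / 200 := by
    by_contra hc
    push Not at hc
    have : (153 / 200 : ℝ) ^ 2 < q ^ 2 := pow_lt_pow_left₀ hc (by norm_num) (by norm_num)
    nlinarith
  have hD : 3 / 4 * (1 + x * z) * (1 + x * (w + z)) - p * q ≤ 1 / 2 := by
    have h1 : LC.c1 (h0 * (x * w)) ^ 2 ≤ (q + p) ^ 2 :=
      pow_le_pow_left₀ (by linarith) hC 2
    rw [hu] at h1
    nlinarith
  obtain ⟨b1, b2, b3, b4⟩ := opn_core hq hp q0 p0 (by nlinarith) (by linarith) q1 hD
  refine ⟨q - (1 + x * z) / 2, (1 + x * (w + z)) / 2 - p, h, hz, by rw [hq'], by rw [hp'], ?_, ?_,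
    by rw [← hq', ← hp']; exact b3, by linarith, hC0, ?_⟩
  · linarith
  · linarith
  · rw [← hq', ← hp']
    have e : exn (q + p) p (h0 * (x * w)) (h0 * (1 + x * z)) =
        (q * (1 + x * (w + z)) + p * (1 + x * z) - 1) / 2 := by
      unfold exn
      field_simp
      ring
    rw [e]
    have h5 : 351 / 2000 ≤ 3 / 4 * (1 + x * z) - q / 2 := by linarith
    have h6 : 0 ≤ q - (1 + x * z) / 2 - (1 + x * (w + z)) / 2 + p := by linarith
    have h7 := mul_le_mul_of_nonneg_right h5 h6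
    linarith

end

end Pool.Agent.Strip051.LC.E0
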