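import Pool.Agent.Strip051.LC.E0.ClI

/-! # Small rests: opened lattice triangles, the cost for a top above `h0` -/

namespace Pool.Agent.Strip051.LC.E0

open Pool.Agent.StripNear Pool.Agent.StripSquare Pool.Agent.Strip051 Pool.Agent.Strip051.Sweep
open Pool.Agent.Strip051.LC.Line
open Pool.Agent.Strip051.LC.Exact (kE)
open G

section

variable {x w z A B : ℝ}

theorem Rg.x_sg1 (h : Rg x z) : x * sg1 z x = (1 + x * z) / 2 - cc1 z x := by
  have e1 := h.c1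
  rw [c1_h1] at e1
  unfold sg1
  rw [e1]
  ring

/-- The cosine of the angle. -/
noncomputable def Co (z x : ℝ) : ℝ := cc1 z x / 2 + 3 / 4 * (1 + x * z)

theorem Rg.Co_sq (h : Rg x z) : Co z x ^ 2 + 3 / 4 * (x * sg1 z x) ^ 2 = 1 := by
  have h1 := cc1_sq h
  rw [h.x_sg1]
  unfold Co
  linear_combination h1

theorem Rg.Co_nonneg (h : Rg x z) : 0 ≤ Co z x := by
  have ha := h.a
  have : 0 ≤ cc1 z x := Real.sqrt_nonneg _
  unfold Co
  linarith

/-- The unit circle below `h0`. -/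
theorem Rg.k1m_eq (_h : Rg x z) : 1 / 2 + x * k1m z x =
    (1 - x * dt (-sg1 z x)) * (1 / 2 - 3 / 4 * (x * sg1 z x / (1 + Co z x))) := by
  unfold k1m k1 Co
  ring

theorem Rg.k1p_eq (_h : Rg x z) : 1 / 2 + x * k1p z x =
    (1 - x * dt (sg1 z x)) * (1 / 2 - 3 / 4 * (x * sg1 z x / (1 + Co z x))) := by
  unfold k1p k1 Co
  ring

theorem co_ge {C D : ℝ} (h : C ^ 2 + 3 / 4 * D ^ 2 = 1) (hC : 0 ≤ C) (h1 : -(393 / 1000) ≤ D)
    (h2 : D ≤ 393 / 1000) : 47 / 50 ≤ C := by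
  by_contra hc
  push Not at hc
  have h3 : C ^ 2 < (47 / 50) ^ 2 := pow_lt_pow_left₀ hc hC (by norm_num)
  have h4 : D ^ 2 ≤ (393 / 1000) ^ 2 := by nlinarith
  linarith

theorem Opn.va (o : Opn x w z A B) : x * -sg1 z x = A := by
  have := o.win.rz.x_sg1
  rw [o.eA]
  linarith

theorem Opn.vb (o : Opn x w z A B) : x * sg1 (w + z) x = B := by
  have := o.win.ru.x_sg1
  rw [o.eB]
  linarith

theorem Opn.va0 (o : Opn x w z A B) : w ≤ -sg1 z x := by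
  have hx := o.win.x0
  have := o.E0
  rw [← o.va] at this
  exact le_of_mul_le_mul_left this hx

theorem Opn.A0 (o : Opn x w z A B) : 0 ≤ A :=
  le_trans (mul_nonneg o.win.x0.le o.win.w0) o.E0

theorem Opn.Ca (o : Opn x w z A B) : Co z x ^ 2 + 3 / 4 * A ^ 2 = 1 ∧ 47 / 50 ≤ Co z x ∧
    x * z = Co z x - 1 - A / 2 := by
  have h1 := o.win.rz.Co_sq
  have h2 : x * sg1 z x = -A := by
    have := o.va
    linarith
  rw [h2] at h1
  have h3 := o.A1
  have h5 := o.A0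
  refine ⟨by linarith, co_ge h1 o.win.rz.Co_nonneg (by linarith) (by linarith), ?_⟩
  rw [o.eA]
  unfold Co
  ring

/-- The difference of the values on the unit circle. -/
theorem Qbd {ra rb ta tb H : ℝ} (h1 : 0 ≤ rb - ra) (h2 : rb - ra ≤ 187 / 50 * H) (b0 : 0 ≤ rb)
    (b1 : rb ≤ 1) (t1 : 0 ≤ ta - tb) (t2 : ta - tb ≤ 11 / 20 * H) (ta0 : 0 ≤ ta)
    (ta1 : ta ≤ 41 / 200) (hH : 0 ≤ H) :
    0 ≤ rb * (1 / 2 - 3 / 4 * tb) - ra * (1 / 2 - 3 / 4 * ta) ∧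
      rb * (1 / 2 - 3 / 4 * tb) - ra * (1 / 2 - 3 / 4 * ta) ≤ 229 / 100 * H := by
  have e : rb * (1 / 2 - 3 / 4 * tb) - ra * (1 / 2 - 3 / 4 * ta) =
      (rb - ra) * (1 / 2 - 3 / 4 * ta) + 3 / 4 * (rb * (ta - tb)) := by ring
  rw [e]
  have k1 := mul_nonneg h1 (by linarith : 0 ≤ 1 / 2 - 3 / 4 * ta)
  have k2 := mul_nonneg b0 t1
  have k3 := mul_le_mul h2 (by linarith : 1 / 2 - 3 / 4 * ta ≤ 1 / 2)
    (by linarith : 0 ≤ 1 / 2 - 3 / 4 * ta) (by linarith)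
  have k4 := mul_le_mul b1 t2 t1 zero_le_one
  constructor <;> linarith

/-- The relation of the rotated lattice triangle. -/
theorem rel_lat {C D t Z r : ℝ} (h : C ^ 2 + 3 / 4 * D ^ 2 = 1) (hC : 0 < 1 + C)
    (ht : t * (1 + C) = D) (hZ : Z = C - 1 - D / 2) : Z * r + D * (r * (1 / 2 + 3 / 4 * t)) = 0 := by
  have k1 : 3 / 4 * D * t = 1 - C := by
    have k2 : (3 / 4 * D * t - (1 - C)) * (1 + C) = 0 := by
      linear_combination 3 / 4 * D * ht + h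
    rcases mul_eq_zero.1 k2 with h5 | h5
    · linarith
    · linarith
  rw [hZ]
  linear_combination r * k1

/-- The two residues. -/
theorem res_bd {A B W Z Fm Q P : ℝ} (hN : 0 ≤ A - W) (hE : 2 * (A - W) ≤ A - B) (Fm0 : 0 ≤ Fm)
    (Fm1 : Fm ≤ 33 / 50) (Z0 : Z ≤ 0) (Z1 : -(32 / 125) ≤ Z) (Q0 : 0 ≤ Q)
    (Q1 : Q ≤ 229 / 100 * (A - B)) (P0 : 0 ≤ P) (P1 : P ≤ 187 / 50 * (A - W)) :
    -((A - W) * Fm) + Z * Q ≤ 0 ∧ |-((A - W) * Fm) + Z * Q| ≤ 23 / 25 * (A - B) ∧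
      |Q - P| ≤ 229 / 100 * (A - B) := by
  have k1 := mul_nonneg hN Fm0
  have k2 := mul_nonneg (neg_nonneg.2 Z0) Q0
  have k3 := mul_le_mul (by linarith : A - W ≤ 1 / 2 * (A - B)) Fm1 Fm0 (by linarith)
  have k4 := mul_le_mul (by linarith : -Z ≤ 32 / 125) Q1 Q0 (by norm_num)
  have h1 : -((A - W) * Fm) + Z * Q ≤ 0 := by linarith
  refine ⟨h1, ?_, ?_⟩
  · rw [abs_of_nonpos h1]
    linarith
  · rw [abs_le]
    constructor <;> linarith

theorem dt_x (hx : 0 ≤ x) {u v U V : ℝ} (hu : 0 ≤ u) (huv : u ≤ v) (eu : x * u = U)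
    (ev : x * v = V) : 0 ≤ x * dt v - x * dt u ∧ x * dt v - x * dt u ≤ 187 / 50 * (V - U) := by
  have d := dt_sl u v hu huv
  have k1 := mul_nonneg hx (by linarith [d.1] : 0 ≤ dt v - dt u)
  have k2 := mul_le_mul_of_nonneg_left d.2 hx
  rw [← eu, ← ev]
  constructor <;> linarith

/-- **The cost of an opened triangle, the top above `h0`.** -/
theorem opnI_cost (o : Opn x w z A B) (hτ : 0 ≤ w + z) :
    NGV (kE (h0 * x)) (h0 * x) (3 / 50 * (A - B)) (h0 * (x * w)) (h0 * (1 + x * z))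
      (1 + x * -dt w, -(1 / 2) + x * -k1m z x, 1 / 2 + x * k1p (w + z) x) := by
  have h := o.win
  have hx := h.x0
  have hh := h0_pos
  have w0 := h.w0
  have hE0 := o.E0
  have hE1 := o.E1
  have hA1 := o.A1
  have hA0 := o.A0
  have az := h.rz.a
  obtain ⟨ca1, ca2, ca3⟩ := o.Ca
  have vb0 : 0 ≤ sg1 (w + z) x := h.ru.sg1_nonneg hτ
  have hvb := o.vb
  have hva := o.va
  have hB0 : 0 ≤ B := by
    rw [← hvb]
    exact mul_nonneg hx.le vb0
  have BA : B ≤ A := by linarith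
  have cb1 : Co (w + z) x ^ 2 + 3 / 4 * B ^ 2 = 1 := by
    have := h.ru.Co_sq
    rwa [hvb] at this
  have cb2 := co_ge cb1 h.ru.Co_nonneg (by linarith) (by linarith)
  obtain ⟨t1, t2⟩ := tan_dif ca1 cb1 hB0 BA (by linarith) ca2 cb2
  have kb : 1 / 2 + x * k1p (w + z) x = (1 - x * dt (sg1 (w + z) x)) *
      (1 / 2 - 3 / 4 * (B / (1 + Co (w + z) x))) := by
    rw [h.ru.k1p_eq, hvb]
  have ka : 1 / 2 + x * k1m z x = (1 - x * dt (-sg1 z x)) *
      (1 / 2 + 3 / 4 * (A / (1 + Co z x))) := by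
    rw [h.rz.k1m_eq, show x * sg1 z x = -A by linarith]
    ring
  have hta : A / (1 + Co z x) * (1 + Co z x) = A := div_mul_cancel₀ _ (by linarith)
  have ta1 : A / (1 + Co z x) ≤ 41 / 200 := by
    rw [div_le_iff₀ (by linarith)]
    linarith
  have ta0 : 0 ≤ A / (1 + Co z x) := div_nonneg hA0 (by linarith)
  have wva := o.va0
  have vbw : sg1 (w + z) x ≤ w := by
    have : x * sg1 (w + z) x ≤ x * w := by linarith
    exact le_of_mul_le_mul_left this hx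
  obtain ⟨D1, D2⟩ := dt_x hx.le w0 wva rfl hva
  obtain ⟨D3, D4⟩ := dt_x hx.le vb0 (vbw.trans wva) hvb hva
  have D5 : x * dt (-sg1 z x) ≤ 17321 / 10000 * A := by
    have := mul_le_mul_of_nonneg_left (dt_le (w0.trans wva)) hx.le
    rw [← hva]
    linarith
  have D6 : 0 ≤ x * dt (sg1 (w + z) x) := mul_nonneg hx.le (dt_nonneg vb0)
  obtain ⟨Q0, Q1⟩ := Qbd (ra := 1 - x * dt (-sg1 z x)) (rb := 1 - x * dt (sg1 (w + z) x))
    (H := A - B) (by linarith) (by linarith) (by linarith) (by linarith) t1 t2 ta0 ta1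
    (by linarith)
  have rel := rel_lat (r := 1 - x * dt (-sg1 z x)) ca1 (by linarith) hta ca3
  rw [← kb] at Q0 Q1
  rw [← ka] at rel
  obtain ⟨Q, hQ⟩ : ∃ Q, Q = 1 / 2 + x * k1p (w + z) x -
    (1 - x * dt (-sg1 z x)) * (1 / 2 - 3 / 4 * (A / (1 + Co z x))) := ⟨_, rfl⟩
  rw [← hQ] at Q0 Q1
  have Fm0 : 0 ≤ 1 / 2 + x * k1m z x := by
    rw [ka]
    exact mul_nonneg (by linarith) (by linarith)
  have Fm1 : 1 / 2 + x * k1m z x ≤ 33 / 50 := by
    have h5 := mul_le_mul (by linarith : 1 - x * dt (-sg1 z x) ≤ 1)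
      (by linarith : 1 / 2 + 3 / 4 * (A / (1 + Co z x)) ≤ 33 / 50) (by linarith) zero_le_one
    rw [ka]
    linarith
  have xz0 : x * z ≤ 0 := mul_nonpos_of_nonneg_of_nonpos hx.le o.z0.le
  obtain ⟨r1, r2, r3⟩ := res_bd (sub_nonneg.2 hE0) hE1 Fm0 Fm1 xz0 az Q0 Q1 D1 D2
  have hN : x * (w + z) * (1 / 2 + x * k1m z x) - x * -z * (1 / 2 + x * k1p (w + z) x) =
      -((A - x * w) * (1 / 2 + x * k1m z x)) + x * z * Q := by
    have e : (1 - x * dt (-sg1 z x)) * (1 / 2 - 3 / 4 * (A / (1 + Co z x))) =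
        (1 - x * dt (-sg1 z x)) - (1 / 2 + x * k1m z x) := by
      rw [ka]
      ring
    rw [hQ, e]
    linear_combination rel
  have hD : 1 / 2 + x * k1p (w + z) x + (1 / 2 + x * k1m z x) - (1 + x * -dt w) =
      Q - (x * dt (-sg1 z x) - x * dt w) := by
    rw [hQ, ka]
    ring
  rw [← hN] at r1 r2
  rw [← hD] at r3
  obtain ⟨⟨j1, t1'⟩, ⟨j2, t2'⟩, ⟨j3, t3'⟩⟩ := h.jt
  have hL : x * (w + z) + x * -z = x * w := by ring
  have hwp : 0 < w := by linarith [o.z0]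
  have a0 : 0 < x * w := mul_pos hx hwp
  have a1 := h.xw1
  refine .pnp (by rw [j1, j2, j3]) ?_ ?_ ?_ ?_
  · rw [t1']
    exact mul_nonneg hh.le a0.le
  · rw [t2']
    have : 0 ≤ h0 * -(x * z) := mul_nonneg hh.le (neg_nonneg.2 xz0)
    linarith
  · rw [t3']
    exact mul_nonneg hh.le (mul_nonneg hx.le hτ)
  · rw [t2', t3', show -(h0 * (x * z)) = h0 * (x * -z) by ring,
      show -(-(1 / 2) + x * -k1m z x) = 1 / 2 + x * k1m z x by ring]
    exact monNeg (mul_nonneg hx.le hτ) (mul_nonneg hx.le (by linarith [o.z0])) (by rw [hL]; exact a0)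
      rfl rfl r1 (costN hx h.s1 (by rw [hL]; exact a0.le) (by rw [hL]; linarith) (by linarith))

end

end Pool.Agent.Strip051.LC.E0
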