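import Pool.Agent.Strip051.LC.E0.ClJ

/-! # Small rests: opened lattice triangles, the top above `h0` -/

namespace Pool.Agent.Strip051.LC.E0

open Pool.Agent.StripNear Pool.Agent.StripSquare Pool.Agent.Strip051 Pool.Agent.Strip051.Sweep
open Pool.Agent.Strip051.LC.Line
open Pool.Agent.Strip051.LC.Exact (kE)
open G

/-- The first level. -/
theorem levA_lb {x w z a b d1 d2 : ℝ} (x0 : 0 ≤ x) (x1 : x ≤ 4 / 125) (a0 : 0 ≤ x * w)
    (a1 : x * w ≤ 32 / 125) (z1 : -(32 / 125) ≤ x * z) (z2 : x * z ≤ 0) (u0 : 0 ≤ x * (w + z))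
    (u1 : x * (w + z) ≤ 3 / 25) (hb : 0 ≤ b) :
    (1 + x * z) / 2 * a - 3 / 2 * (|d1| + |d2|) ≤ levA x w z a (-(b + d2)) (a + d1 - b) := by
  have e : levA x w z a (-(b + d2)) (a + d1 - b) = (1 + x * z) / 2 * a + x * w * b / 2 +
      (-((3 + x) / 2) + (1 + x * (w + z)) / 2) * d1 +
      (-((3 + x) / 2) + (1 + 2 * (x * w) + x * z) / 2) * d2 := by
    unfold levA
    ring
  rw [e]
  have k1 : |(-((3 + x) / 2) + (1 + x * (w + z)) / 2) * d1| ≤ 3 / 2 * |d1| := by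
    rw [abs_mul]
    refine mul_le_mul_of_nonneg_right ?_ (abs_nonneg d1)
    rw [abs_le]
    constructor <;> linarith
  have k2 : |(-((3 + x) / 2) + (1 + 2 * (x * w) + x * z) / 2) * d2| ≤ 3 / 2 * |d2| := by
    rw [abs_mul]
    refine mul_le_mul_of_nonneg_right ?_ (abs_nonneg d2)
    rw [abs_le]
    constructor <;> linarith
  have k3 := (abs_le.1 k1).1
  have k4 := (abs_le.1 k2).1
  have k5 := mul_nonneg a0 hb
  linarith

/-- The second level. -/
theorem levB_lb {x w z a b d1 d2 : ℝ} (x0 : 0 ≤ x) (x1 : x ≤ 4 / 125) (a0 : 0 ≤ x * w)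
    (a1 : x * w ≤ 32 / 125) (z1 : -(32 / 125) ≤ x * z) (z2 : x * z ≤ 0) (u0 : 0 ≤ x * (w + z))
    (u1 : x * (w + z) ≤ 3 / 25) (hb : 0 ≤ b) :
    (1 + x * z) / 2 * a - 3 / 2 * (|d1| + |d2|) ≤ levB x w z a (-(b + d2)) (a + d1 - b) := by
  have e : levB x w z a (-(b + d2)) (a + d1 - b) = (1 + x * z) / 2 * a + x * w * b / 2 +
      ((3 + x) / 2 - (1 + x * (w + z)) / 2) * d1 +
      ((3 + x) / 2 - (1 + x * z) / 2) * d2 := by
    unfold levB
    ring
  rw [e]
  have k1 : |((3 + x) / 2 - (1 + x * (w + z)) / 2) * d1| ≤ 3 / 2 * |d1| := by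
    rw [abs_mul]
    refine mul_le_mul_of_nonneg_right ?_ (abs_nonneg d1)
    rw [abs_le]
    constructor <;> linarith
  have k2 : |((3 + x) / 2 - (1 + x * z) / 2) * d2| ≤ 3 / 2 * |d2| := by
    rw [abs_mul]
    refine mul_le_mul_of_nonneg_right ?_ (abs_nonneg d2)
    rw [abs_le]
    constructor <;> linarith
  have k3 := (abs_le.1 k1).1
  have k4 := (abs_le.1 k2).1
  have k5 := mul_nonneg a0 hb
  linarith

/-- The near statement from the level. -/
theorem near_num {x m l ch r a z H D ex L : ℝ} (m0 : 0 ≤ m) (m1 : m ≤ 201 / 1000)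
    (l1 : x * l ≤ 3 / 500) (hr : ch * r ≤ 37 / 100 * a) (a0 : 0 ≤ a) (z1 : -(32 / 125) ≤ x * z)
    (D0 : 0 ≤ D) (hD : x ^ 2 * D ≤ 4 / 125 * (103 / 100 * H)) (hH : 0 ≤ H)
    (hex : 351 / 4000 * H ≤ ex) (hL : (1 + x * z) / 2 * a - 3 / 2 * D ≤ L) :
    (1 + x * l) * (3 / 50 * H) + x ^ 2 * (ch * m * r) ≤ ex + x ^ 2 * (m * L) := by
  have h5 : 37 / 100 * a - 3 / 2 * D ≤ L := by
    have := mul_le_mul_of_nonneg_right (by linarith : 37 / 100 ≤ (1 + x * z) / 2) a0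
    linarith
  have h6 := mul_le_mul_of_nonneg_left h5 m0
  have h7 := mul_le_mul_of_nonneg_left hr m0
  have h8 : ch * m * r - 3 / 2 * (m * D) ≤ m * L := by linarith
  have h9 := mul_le_mul_of_nonneg_left h8 (sq_nonneg x)
  have h10 : m * (x ^ 2 * D) ≤ 201 / 1000 * (4 / 125 * (103 / 100 * H)) :=
    mul_le_mul m1 hD (by positivity) (by norm_num)
  have h11 : (1 + x * l) * (3 / 50 * H) ≤ 503 / 500 * (3 / 50 * H) :=
    mul_le_mul_of_nonneg_right (by linarith) (by linarith)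
  linarith

section

variable {x w z A B : ℝ}

/-- **Opened triangles, the top above `h0`.** -/
theorem opnI (V : Vx) (o : Opn x w z A B) (hτ : 0 ≤ w + z) :
    OKV V (h0 * x) (LC.c1 (h0 * (1 + x * z)) + LC.c1 (h0 * (1 + x * (w + z))))
      (LC.c1 (h0 * (1 + x * (w + z)))) (h0 * (x * w)) (h0 * (1 + x * z)) := by
  have h := o.win
  have hx := h.x0
  have hx1 := h.x1
  have hs := h.s1
  have hh := h0_pos
  have hq2 := h0_sq'
  have w0 := h.w0
  have a0 : 0 ≤ x * w := mul_nonneg hx.le w0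
  have a1 := h.xw1
  have az := h.rz.a
  have xz0 : x * z ≤ 0 := mul_nonpos_of_nonneg_of_nonpos hx.le o.z0.le
  have hE0 := o.E0
  have hE1 := o.E1
  have vb0 : 0 ≤ sg1 (w + z) x := h.ru.sg1_nonneg hτ
  have hvb := o.vb
  have hva := o.va
  have wva := o.va0
  have vbw : sg1 (w + z) x ≤ w := by
    have : x * sg1 (w + z) x ≤ x * w := by linarith
    exact le_of_mul_le_mul_left this hx
  -- the sides
  have eq1 : LC.c1 (h0 * (1 + x * z)) = 1 / 2 + x * xi1 z x := h.rz.c1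
  have eq2 : LC.c1 (h0 * (1 + x * (w + z))) = 1 / 2 + x * xi1 (w + z) x := h.ru.c1
  have qq := cc1_sq h.rz
  have eqz : cc1 z x = 1 / 2 + x * xi1 z x := by rw [← c1_h1, eq1]
  have eqw : cc1 (w + z) x = 1 / 2 + x * xi1 (w + z) x := by rw [← c1_h1, eq2]
  have pu := h.ru.c1_up hτ
  have hlt : h0 * (x * w) < h0 := by
    have := mul_le_mul_of_nonneg_left a1 hh.le
    linarith
  obtain ⟨eW, hW⟩ := W_dn h.t0 hlt
  have hX : LC.c1 (h0 * (1 + x * z)) + LC.c1 (h0 * (1 + x * (w + z))) - Wc (h0 * (x * w)) ≤ 0 := by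
    have h5 : cc1 z x ≤ Wc (h0 * (x * w)) - 1 / 2 := by
      refine abs_le_of_sq_le_sq' ?_ hW |>.2
      have e : (h0 - h0 * (x * w)) ^ 2 = 3 / 4 * (1 - x * w) ^ 2 := by
        linear_combination (1 - x * w) ^ 2 * hq2
      have h6 : (1 - x * w) ^ 2 ≤ (1 + x * z) ^ 2 := by
        have := mul_nonneg hx.le hτ
        exact pow_le_pow_left₀ (by linarith) (by linarith) 2
      rw [qq]
      linarith
    rw [c1_h1]
    linarith
  have hXc : LC.c1 (h0 * (1 + x * z)) + LC.c1 (h0 * (1 + x * (w + z))) ≤ c3 (h0 * (x * w)) := by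
    have := low_gap hx w0 a1
    linarith
  obtain ⟨ξ, k, χ, r, hξ, d12, e1, e2, -, e3, e4, -⟩ :=
    dat_low hx hs w0 a1 o.hC hXc le_rfl hX
  have e5 : k = -dt w := by
    have h7 : x * (k - -dt w) = 0 := by linarith
    rcases mul_eq_zero.1 h7 with h8 | h8
    · exact absurd h8 hx.ne'
    · linarith
  have e6 : χ = xa w x := by
    have h5 : |x ^ 2 * χ - x ^ 2 * xa w x| = 0 := le_antisymm (by linarith) (abs_nonneg _)
    have h6 := abs_eq_zero.1 h5
    have h7 : x ^ 2 * (χ - xa w x) = 0 := by linarith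
    rcases mul_eq_zero.1 h7 with h8 | h8
    · exact absurd h8 (by positivity)
    · linarith
  have e7 : r = rf x * gh w := by
    have h5 : |r - rf x * gh w| = 0 := le_antisymm (by linarith) (abs_nonneg _)
    linarith [abs_eq_zero.1 h5]
  have hξ' : ξ = xi1 z x + xi1 (w + z) x := by
    have h7 : x * (ξ - (xi1 z x + xi1 (w + z) x)) = 0 := by
      rw [eq1, eq2] at hξ
      linarith
    rcases mul_eq_zero.1 h7 with h8 | h8
    · exact absurd h8 hx.ne'
    · linarith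
  have d23 : Dat x (h0 * (1 + x * z)) (-(1 / 2)) (-xi1 z x) (-k1m z x) (-x1m z x) 0 := by
    have := (h.rz.dat0_dn o.z0.le).neg
    simpa only [neg_zero] using this
  have d13 : Dat x (h0 * (1 + x * (w + z))) (1 / 2) (xi1 (w + z) x) (k1p (w + z) x)
      (x1p (w + z) x) 0 := h.ru.dat0_up hτ
  have hs0 : 0 < h0 * x := mul_pos hh hx
  have hTT : h0 * (x * w) + h0 * (1 + x * z) ≤ 2 * h0 := by
    rw [T13]
    have := mul_le_mul_of_nonneg_left h.hu hh.le
    linarith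
  have hK := fun y => (opnI_cost o hτ).dir (kE_nonneg hs0 hs) hs0.le
    (by have := h0_gt; linarith) h.t0 h.rz.T0 hTT y
  -- the levels
  have x1m' : x1m z x = xb (-sg1 z x / 2) := by
    unfold x1m
    congr 1
    ring
  have x1p' : x1p (w + z) x = xa (sg1 (w + z) x) x - xb (sg1 (w + z) x / 2) := rfl
  have b1 : |xa (sg1 (w + z) x) x - xa w x| ≤ 16 / 25 * (w - sg1 (w + z) x) := by
    have := (xa_sl hx hs).abs (L := 16 / 25) (by norm_num) (by norm_num) w0 vb0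
    rwa [abs_sub_comm (sg1 (w + z) x) w, abs_of_nonneg (by linarith : 0 ≤ w - sg1 (w + z) x)]
      at this
  have b2 : |xb (-sg1 z x / 2) - xb (sg1 (w + z) x / 2)| ≤
      39 / 100 * (-sg1 z x - sg1 (w + z) x) := by
    have := xb_sl.abs (L := 39 / 50) (u := sg1 (w + z) x / 2) (v := -sg1 z x / 2) (by norm_num)
      (by norm_num) (by linarith) (by linarith)
    rw [abs_of_nonneg (by linarith : 0 ≤ -sg1 z x / 2 - sg1 (w + z) x / 2)] at this
    linarith
  have xb0 := (xb_lin (v := sg1 (w + z) x / 2) (by linarith)).1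
  obtain ⟨va, hva'⟩ : ∃ va, va = -sg1 z x := ⟨_, rfl⟩
  obtain ⟨vb, hvb'⟩ : ∃ vb, vb = sg1 (w + z) x := ⟨_, rfl⟩
  rw [← hva'] at hva wva b2 x1m'
  rw [← hvb'] at hvb vb0 vbw b1 b2 xb0 x1p'
  obtain ⟨δ1, hδ1⟩ : ∃ δ1, δ1 = xa vb x - xa w x := ⟨_, rfl⟩
  obtain ⟨δ2, hδ2⟩ : ∃ δ2, δ2 = xb (va / 2) - xb (vb / 2) := ⟨_, rfl⟩
  rw [← hδ1] at b1
  rw [← hδ2] at b2
  have c13' : x1p (w + z) x = xa w x + δ1 - xb (vb / 2) := by
    rw [x1p', hδ1]
    ring
  have c23' : -x1m z x = -(xb (vb / 2) + δ2) := by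
    rw [x1m', hδ2]
    ring
  have p1 := abs_nonneg δ1
  have p2 := abs_nonneg δ2
  have b3 : x * |δ1| ≤ 16 / 25 * (x * w - B) := by
    have := mul_le_mul_of_nonneg_left b1 hx.le
    rw [← hvb]
    linarith
  have b4 : x * |δ2| ≤ 39 / 100 * (A - B) := by
    have := mul_le_mul_of_nonneg_left b2 hx.le
    rw [← hvb, ← hva]
    linarith
  have b5 : x * (|δ1| + |δ2|) ≤ 103 / 100 * (A - B) := by linarith
  have b6 : x ^ 2 * (|δ1| + |δ2|) ≤ 4 / 125 * (103 / 100 * (A - B)) := by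
    have h5 := mul_le_mul hx1 b5 (by positivity) (by norm_num)
    have e : x ^ 2 * (|δ1| + |δ2|) = x * (x * (|δ1| + |δ2|)) := by ring
    rw [e]
    exact h5
  have ex' := o.ex
  have eXX : cc1 z x + cc1 (w + z) x = 1 + x * ξ := by
    rw [hξ', eqz, eqw]
    ring
  rw [eXX, eqw] at ex'
  obtain ⟨c0, c8, m0, m1, l0, l1, el⟩ := mu_small hx hs
  have xaw := (xa_lin hx hs w0).1
  have hr : ch x * |r| ≤ 37 / 100 * xa w x := by
    rw [e7, abs_mul, abs_of_nonneg (gh_lin w0).1, ← mul_assoc]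
    exact gain hx hs w0
  have u0 := mul_nonneg hx.le hτ
  rw [e5, e6] at d12
  rw [c23'] at d23
  rw [c13'] at d13
  have fin := opn_fin (CA := 3 / 50 * (A - B)) V h d12 d23 d13 (by rw [hξ']; ring) hK ?_ ?_ ?_
  · rw [← hξ, ← eq2] at fin
    exact fin
  · rw [show xa w x + -(xb (vb / 2) + δ2) - (xa w x + δ1 - xb (vb / 2)) = -δ1 - δ2 by ring]
    have h5 : |-δ1 - δ2| ≤ |δ1| + |δ2| := by
      have := abs_sub (-δ1) δ2
      rwa [abs_neg] at this
    have h6 := mul_le_mul_of_nonneg_left h5 (sq_nonneg x)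
    linarith
  · exact near_num m0 m1 l1 hr xaw az (by linarith) b6 (by linarith) ex'
      (levA_lb hx.le hx1 a0 a1 az xz0 u0 h.hu xb0)
  · exact near_num m0 m1 l1 hr xaw az (by linarith) b6 (by linarith) ex'
      (levB_lb hx.le hx1 a0 a1 az xz0 u0 h.hu xb0)

end

end Pool.Agent.Strip051.LC.E0
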