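import Pool.Agent.Strip051.LC.E0.ClK

/-! # Small rests: opened lattice triangles, the top below `h0` -/

namespace Pool.Agent.Strip051.LC.E0

open Pool.Agent.StripNear Pool.Agent.StripSquare Pool.Agent.Strip051 Pool.Agent.Strip051.Sweep
open Pool.Agent.Strip051.LC.Line
open Pool.Agent.Strip051.LC.Exact (kE)
open G

/-- The sum of the three values. -/
theorem sum_bd {A b pA pB pw xk ta tb : ℝ} (b0 : 0 ≤ b) (bA : b ≤ A) (A0 : 0 ≤ pA)
    (A1 : pA ≤ 17321 / 10000 * A) (B0 : 0 ≤ pB) (B1 : pB ≤ 17321 / 10000 * b) (w0 : 0 ≤ pw)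
    (w1 : pw ≤ pA) (k0 : -pw - 4 * b ≤ xk) (k1 : xk ≤ -pw) (ta0 : 0 ≤ ta)
    (ta1 : ta ≤ 258 / 500 * A) (tb0 : 0 ≤ tb) (tb1 : tb ≤ 258 / 500 * b) (pA1 : pA ≤ 1)
    (pB1 : pB ≤ 1) :
    |(1 - pB) * (1 / 2 + 3 / 4 * tb) + (1 - pA) * (1 / 2 + 3 / 4 * ta) - (1 + xk)| ≤
      283 / 100 * (A + b) := by
  have m1 := mul_nonneg B0 tb0
  have m2 := mul_nonneg A0 ta0
  have m3 := mul_nonneg (sub_nonneg.2 pA1) ta0
  have m4 := mul_nonneg (sub_nonneg.2 pB1) tb0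
  rw [abs_le]
  constructor <;> linarith

/-- The moment. -/
theorem mom_bd {Y W Fb R Z A H : ℝ} (Y0 : 0 ≤ Y) (W0 : 0 ≤ W) (e : Y + W = -Z) (hZ : 3 / 2 * -Z ≤ A)
    (hY : Y ≤ 32 / 125) (R0 : -(549 / 1000 * W) ≤ R) (R1 : R ≤ 1) (F0 : 147 / 1000 ≤ Fb)
    (F1 : Fb ≤ 1) (hA : A ≤ H) :
    Y * -R - W * Fb ≤ 0 ∧ |Y * -R - W * Fb| ≤ 667 / 1000 * H := by
  have k1 := mul_le_mul_of_nonneg_left R0 Y0
  have k2 : Y * (549 / 1000 * W) ≤ 32 / 125 * (549 / 1000 * W) :=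
    mul_le_mul_of_nonneg_right hY (by linarith)
  have k3 := mul_le_mul_of_nonneg_left F0 W0
  have k4 := mul_le_mul_of_nonneg_left R1 Y0
  have k5 := mul_le_mul_of_nonneg_left F1 W0
  have h1 : Y * -R - W * Fb ≤ 0 := by linarith
  refine ⟨h1, ?_⟩
  rw [abs_of_nonpos h1]
  linarith

section

variable {x w z A B : ℝ}

/-- The numbers for a top below `h0`. -/
theorem Opn.low (o : Opn x w z A B) (hτ : w + z < 0) :
    0 ≤ -B ∧ -B ≤ A ∧ 3 / 2 * -(x * (w + z)) ≤ -B ∧ 3 / 2 * -(x * z) ≤ A := by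
  have h := o.win
  have hx := h.x0
  have w0 := h.w0
  have e1 := h.ru.xi1_dn hτ.le
  have e2 := h.rz.xi1_dn o.z0.le
  have c1' := h.ru.c1
  have c2' := h.rz.c1
  rw [c1_h1] at c1' c2'
  have k1 := mul_le_mul_of_nonneg_left e1 hx.le
  have k2 := mul_le_mul_of_nonneg_left e2 hx.le
  have k3 := mul_nonneg hx.le (by linarith : 0 ≤ -(w + z))
  have k4 := mul_nonneg hx.le w0
  have hpq := o.pq
  have eA := o.eA
  have eB := o.eB
  refine ⟨?_, ?_, ?_, ?_⟩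
  · rw [eB, c1']; linarith
  · rw [eA, eB]; linarith
  · rw [eB, c1']; linarith
  · rw [eA, c2']; linarith

/-- The horizontal side is not far right of `W`. -/
theorem Opn.gap (o : Opn x w z A B) (hτ : w + z < 0) :
    LC.c1 (h0 * (1 + x * z)) + LC.c1 (h0 * (1 + x * (w + z))) - Wc (h0 * (x * w)) ≤ 2 * -B := by
  have h := o.win
  have hx := h.x0
  have hh := h0_pos
  have hq2 := h0_sq'
  have w0 := h.w0
  have a0 : 0 ≤ x * w := mul_nonneg hx.le w0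
  have a1 := h.xw1
  have az := h.rz.a
  obtain ⟨-, -, b3, -⟩ := o.low hτ
  have hlt : h0 * (x * w) < h0 := by
    have := mul_le_mul_of_nonneg_left a1 hh.le
    linarith
  obtain ⟨eW, hW⟩ := W_dn h.t0 hlt
  have q1 := cc1_sq h.rz
  have q2 := cc1_sq h.ru
  have g1 := h.rz.c1_dn o.z0.le
  have g2 := h.ru.c1_dn hτ.le
  rw [c1_h1] at g1 g2
  rw [c1_h1, c1_h1]
  obtain ⟨q, hq⟩ : ∃ q, q = cc1 z x := ⟨_, rfl⟩
  obtain ⟨p, hp⟩ : ∃ p, p = cc1 (w + z) x := ⟨_, rfl⟩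
  obtain ⟨c, hc⟩ : ∃ c, c = Wc (h0 * (x * w)) - 1 / 2 := ⟨_, rfl⟩
  obtain ⟨Y, hY⟩ : ∃ Y, Y = -(x * (w + z)) := ⟨_, rfl⟩
  have hY0 : 0 ≤ Y := by
    have := mul_nonneg hx.le (by linarith : 0 ≤ -(w + z))
    rw [hY]
    linarith
  rw [← hq] at q1 g1 ⊢
  rw [← hp] at q2 g2 ⊢
  rw [← hc] at eW hW
  rw [← hY] at b3
  have e1 : (h0 - h0 * (x * w)) ^ 2 = 3 / 4 * (1 - x * w) ^ 2 := by
    linear_combination (1 - x * w) ^ 2 * hq2
  rw [e1] at eW
  have hc2 : 1 / 2 ≤ c := by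
    refine abs_le_of_sq_le_sq' ?_ hW |>.2
    nlinarith
  have e2 : 1 + x * z = 1 - x * w - Y := by rw [hY]; ring
  have e3 : 1 + x * (w + z) = 1 - Y := by rw [hY]; ring
  rw [e2] at q1
  rw [e3] at q2
  have k1 : (q - c) * (q + c) ≤ 3 / 2 * Y := by
    have e : (q - c) * (q + c) = 3 / 4 * (Y * (2 * (1 - x * w) - Y)) := by
      linear_combination q1 - eW
    have := mul_nonneg hY0 a0
    have := mul_nonneg hY0 hY0
    rw [e]
    linarith
  have k2 : q - c ≤ 3 / 2 * Y := by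
    rcases le_total q c with h5 | h5
    · linarith
    · have := mul_le_mul_of_nonneg_left (by linarith : 1 ≤ q + c) (sub_nonneg.2 h5)
      linarith
  have k3 : p - 1 / 2 ≤ 3 / 2 * Y := by
    have e : (p - 1 / 2) * (p + 1 / 2) = 3 / 4 * (Y * (2 - Y)) := by
      linear_combination q2
    have := mul_nonneg hY0 hY0
    have := mul_le_mul_of_nonneg_left (by linarith : 1 ≤ p + 1 / 2) (sub_nonneg.2 g2)
    linarith
  linarith

/-- **The cost of an opened triangle, the top below `h0`.** -/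
theorem opnII_cost (o : Opn x w z A B) (hτ : w + z < 0) {k : ℝ}
    (hk0 : -(x * dt w) - 4 * -B ≤ x * k) (hk1 : x * k ≤ -(x * dt w))
    (hk2 : -(633 / 1000 * (h0 * (x * w))) ≤ 1 + x * k) :
    NGV (kE (h0 * x)) (h0 * x) (3 / 50 * (A - B)) (h0 * (x * w)) (h0 * (1 + x * z))
      (1 + x * k, -(1 / 2) + x * -k1m z x, 1 / 2 + x * k1m (w + z) x) := by
  have h := o.win
  have hx := h.x0
  have hh := h0_pos
  have g2 := h0_lt
  have w0 := h.w0
  have hA1 := o.A1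
  have hA0 := o.A0
  have az := h.rz.a
  obtain ⟨b0, bA, bY, bZ⟩ := o.low hτ
  obtain ⟨ca1, ca2, ca3⟩ := o.Ca
  have hvb : x * -sg1 (w + z) x = -B := by
    have := o.vb
    linarith
  have hva := o.va
  have cb1 : Co (w + z) x ^ 2 + 3 / 4 * B ^ 2 = 1 := by
    have := h.ru.Co_sq
    rwa [o.vb] at this
  have cb2 := co_ge cb1 h.ru.Co_nonneg (by linarith) (by linarith)
  have kb : 1 / 2 + x * k1m (w + z) x = (1 - x * dt (-sg1 (w + z) x)) *
      (1 / 2 + 3 / 4 * (-B / (1 + Co (w + z) x))) := by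
    rw [h.ru.k1m_eq, o.vb]
    ring
  have ka : 1 / 2 + x * k1m z x = (1 - x * dt (-sg1 z x)) *
      (1 / 2 + 3 / 4 * (A / (1 + Co z x))) := by
    rw [h.rz.k1m_eq, show x * sg1 z x = -A by linarith]
    ring
  have tdiv : ∀ {a c : ℝ}, 0 ≤ a → 47 / 50 ≤ c → 0 ≤ a / (1 + c) ∧ a / (1 + c) ≤ 258 / 500 * a := by
    intro a c ha hc
    refine ⟨div_nonneg ha (by linarith), ?_⟩
    rw [div_le_iff₀ (by linarith)]
    have := mul_le_mul_of_nonneg_left hc ha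
    linarith
  obtain ⟨ta0, ta1⟩ := tdiv hA0 ca2
  obtain ⟨tb0, tb1⟩ := tdiv b0 cb2
  have wva := o.va0
  have vb0 : 0 ≤ -sg1 (w + z) x := by
    have : x * 0 ≤ x * -sg1 (w + z) x := by
      rw [hvb]
      linarith
    exact le_of_mul_le_mul_left this hx
  obtain ⟨D1, -⟩ := dt_x hx.le w0 wva rfl hva
  have D5 : x * dt (-sg1 z x) ≤ 17321 / 10000 * A := by
    have := mul_le_mul_of_nonneg_left (dt_le (w0.trans wva)) hx.le
    rw [← hva]
    linarith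
  have D6 : x * dt (-sg1 (w + z) x) ≤ 17321 / 10000 * -B := by
    have := mul_le_mul_of_nonneg_left (dt_le vb0) hx.le
    rw [← hvb]
    linarith
  have D7 : 0 ≤ x * dt (-sg1 (w + z) x) := mul_nonneg hx.le (dt_nonneg vb0)
  have D8 : 0 ≤ x * dt (-sg1 z x) := mul_nonneg hx.le (dt_nonneg (w0.trans wva))
  have D9 : 0 ≤ x * dt w := mul_nonneg hx.le (dt_nonneg w0)
  have sm := sum_bd (A := A) (b := -B) (pA := x * dt (-sg1 z x))
    (pB := x * dt (-sg1 (w + z) x)) (pw := x * dt w) (xk := x * k) b0 bA D8 D5 D7 D6 D9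
    (by linarith) hk0 hk1 ta0 ta1 tb0 tb1 (by linarith) (by linarith)
  rw [← ka, ← kb] at sm
  have a0 : 0 ≤ x * w := mul_nonneg hx.le w0
  have Y0 : 0 ≤ x * -(w + z) := mul_nonneg hx.le (by linarith)
  have F0 : 147 / 1000 ≤ 1 / 2 + x * k1m (w + z) x := by
    rw [kb]
    have := mul_nonneg (by linarith : 0 ≤ 1 - x * dt (-sg1 (w + z) x)) tb0
    linarith
  have F1 : 1 / 2 + x * k1m (w + z) x ≤ 1 := by
    rw [kb]
    have := mul_nonneg D7 tb0
    linarith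
  have R0 : -(549 / 1000 * (x * w)) ≤ 1 + x * k := by
    have := mul_le_mul_of_nonneg_right g2.le a0
    linarith
  obtain ⟨r1, r2⟩ := mom_bd (Y := x * -(w + z)) (W := x * w) (Z := x * z) (A := A) (H := A - B)
    Y0 a0 (by ring) (by linarith) (by linarith) R0 (by linarith) F0 F1 (by linarith)
  have hL : x * -(w + z) + x * w = -(x * z) := by ring
  have xz0 : 0 < -(x * z) := by
    have := mul_pos hx (by linarith [o.z0] : 0 < -z)
    linarith
  obtain ⟨⟨j1, t1'⟩, ⟨j2, t2'⟩, ⟨j3, t3'⟩⟩ := h.jt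
  refine .pnn (by rw [j1, j2, j3]) ?_ ?_ ?_ ?_
  · rw [t1']
    exact mul_nonneg hh.le a0
  · rw [t2']
    have : 0 ≤ h0 * -(x * z) := mul_nonneg hh.le xz0.le
    linarith
  · rw [t3']
    have := mul_nonneg hh.le Y0
    linarith
  · rw [t1', t3', show -(h0 * (x * (w + z))) = h0 * (x * -(w + z)) by ring]
    refine monNeg Y0 a0 (by rw [hL]; exact xz0) rfl rfl r1
      (costN hx h.s1 (by rw [hL]; exact xz0.le) (by rw [hL]; linarith) ?_)
    have e : 1 / 2 + x * k1m (w + z) x + -(1 + x * k) - (-(1 / 2) + x * -k1m z x) =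
        1 / 2 + x * k1m (w + z) x + (1 / 2 + x * k1m z x) - (1 + x * k) := by ring
    rw [e]
    linarith

end

end Pool.Agent.Strip051.LC.E0
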