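import Pool.Agent.Strip051.LC.E0.ClL

/-! # Small rests: opened lattice triangles, all cases -/

namespace Pool.Agent.Strip051.LC.E0

open Pool.Agent.StripNear Pool.Agent.StripSquare Pool.Agent.Strip051 Pool.Agent.Strip051.Sweep
open Pool.Agent.Strip051.LC.Line
open Pool.Agent.Strip051.LC.Exact (kE)
open G

/-- The numbers for the near vertex. -/
theorem low_num {x m l ch r a A b S ex L : ℝ} (x0 : 0 ≤ x) (x1 : x ≤ 4 / 125) (m0 : 0 ≤ m)
    (m1 : m ≤ 201 / 1000) (l1 : x * l ≤ 3 / 500) (hr : ch * r ≤ 37 / 100 * a + 15 / 4 * b)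
    (b0 : 0 ≤ b) (bA : b ≤ A) (ha : x ^ 2 * a ≤ 9 / 625 * A) (hS : S ≤ 364 / 10000 * (A + b))
    (hex : 351 / 4000 * (A + b) ≤ ex) (hL : -(1 / 2 * S) ≤ L) :
    (1 + x * l) * (3 / 50 * (A + b)) + x ^ 2 * (ch * m * r) ≤ ex + L := by
  have h7 := mul_le_mul_of_nonneg_left hr m0
  have h8 : ch * m * r ≤ m * (37 / 100 * a + 15 / 4 * b) := by linarith
  have h9 := mul_le_mul_of_nonneg_left h8 (sq_nonneg x)
  have hx2 : x ^ 2 ≤ 1 / 900 := by nlinarith
  have h10 : x ^ 2 * (15 / 4 * b) ≤ 1 / 900 * (15 / 4 * b) :=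
    mul_le_mul_of_nonneg_right hx2 (by linarith)
  have h11 : x ^ 2 * (37 / 100 * a + 15 / 4 * b) ≤ 3 / 500 * A + 1 / 200 * b := by linarith
  have h12 := mul_le_mul_of_nonneg_left h11 m0
  have h13 : m * (3 / 500 * A + 1 / 200 * b) ≤ 201 / 1000 * (3 / 500 * A + 1 / 200 * b) :=
    mul_le_mul_of_nonneg_right m1 (by linarith)
  have h14 : (1 + x * l) * (3 / 50 * (A + b)) ≤ 503 / 500 * (3 / 50 * (A + b)) :=
    mul_le_mul_of_nonneg_right (by linarith) (by linarith)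
  linarith

section

variable {x w z A B : ℝ}

theorem lev_lo (h : Win x w z) (c12 c23 c13 : ℝ) :
    -(1 / 2 * (|x ^ 2 * c12| + |x ^ 2 * c23| + |x ^ 2 * c13|)) ≤
        x ^ 2 * (G.mu x * levA x w z c12 c23 c13) ∧
      -(1 / 2 * (|x ^ 2 * c12| + |x ^ 2 * c23| + |x ^ 2 * c13|)) ≤
        x ^ 2 * (G.mu x * levB x w z c12 c23 c13) := by
  have hh := h0_pos
  have eA : levXV 3 (h0 * x) 0 (h0 * (x * w)) (h0 * (1 + x * z))
      (x ^ 2 * c12, x ^ 2 * c23, x ^ 2 * c13) = x ^ 2 * (G.mu x * levA x w z c12 c23 c13) := by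
    unfold levXV levA
    rw [mu_h0]
    simp only
    push_cast
    field_simp
    ring
  have eB : levXV 3 (h0 * x) 0 (h0 * (1 + x * z)) (h0 * (x * w))
      (-(x ^ 2 * c23), -(x ^ 2 * c12), -(x ^ 2 * c13)) =
      x ^ 2 * (G.mu x * levB x w z c12 c23 c13) := by
    unfold levXV levB
    rw [mu_h0]
    simp only
    push_cast
    field_simp
    ring
  have h1 := (levAbs h (x ^ 2 * c12, x ^ 2 * c23, x ^ 2 * c13)).1
  have h2 := (levAbs h (-(x ^ 2 * c23), -(x ^ 2 * c12), -(x ^ 2 * c13))).2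
  rw [eA] at h1
  rw [eB] at h2
  simp only [abs_neg] at h1 h2
  constructor
  · linarith [(abs_le.1 h1).1]
  · linarith [(abs_le.1 h2).1]

/-- **Opened triangles, the top below `h0`.** -/
theorem opnII (V : Vx) (o : Opn x w z A B) (hτ : w + z < 0) :
    OKV V (h0 * x) (LC.c1 (h0 * (1 + x * z)) + LC.c1 (h0 * (1 + x * (w + z))))
      (LC.c1 (h0 * (1 + x * (w + z)))) (h0 * (x * w)) (h0 * (1 + x * z)) := by
  have h := o.win
  have hx := h.x0
  have hx1 := h.x1
  have hs := h.s1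
  have hh := h0_pos
  have hq2 := h0_sq'
  have w0 := h.w0
  have a0 : 0 ≤ x * w := mul_nonneg hx.le w0
  have a1 := h.xw1
  have az := h.rz.a
  have hE0 := o.E0
  have hA1 := o.A1
  obtain ⟨b0, bA, bY, bZ⟩ := o.low hτ
  have hvb : x * -sg1 (w + z) x = -B := by
    have := o.vb
    linarith
  have hva := o.va
  have wva := o.va0
  have vb0 : 0 ≤ -sg1 (w + z) x := by
    have : x * 0 ≤ x * -sg1 (w + z) x := by
      rw [hvb]
      linarith
    exact le_of_mul_le_mul_left this hx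
  have eq1 : LC.c1 (h0 * (1 + x * z)) = 1 / 2 + x * xi1 z x := h.rz.c1
  have eq2 : LC.c1 (h0 * (1 + x * (w + z))) = 1 / 2 + x * xi1 (w + z) x := h.ru.c1
  have eqz : cc1 z x = 1 / 2 + x * xi1 z x := by rw [← c1_h1, eq1]
  have eqw : cc1 (w + z) x = 1 / 2 + x * xi1 (w + z) x := by rw [← c1_h1, eq2]
  have hX := o.gap hτ
  have hXc : LC.c1 (h0 * (1 + x * z)) + LC.c1 (h0 * (1 + x * (w + z))) ≤ c3 (h0 * (x * w)) := by
    have q1 := cc1_sq h.rz
    have q0 : 0 ≤ cc1 z x := Real.sqrt_nonneg _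
    have q2 : cc1 z x ≤ 153 / 200 := by
      by_contra hc
      push Not at hc
      have : (153 / 200 : ℝ) ^ 2 < cc1 z x ^ 2 :=
        pow_lt_pow_left₀ hc (by norm_num) (by norm_num)
      nlinarith
    have T0 := h.t0
    have T1 : h0 * (x * w) ≤ 2218 / 10000 := by
      have := mul_le_mul_of_nonneg_left a1 hh.le
      have := h0_lt
      linarith
    have e := c3_sq (t := h0 * (x * w)) (by nlinarith)
    have c0 := c3_nonneg (h0 * (x * w))
    have cl : 1717 / 1000 ≤ c3 (h0 * (x * w)) := by nlinarith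
    have pq := o.pq
    rw [c1_h1, c1_h1]
    linarith
  obtain ⟨ξ, k, χ, r, hξ, d12, e1, e2, e3, e4, e5, -⟩ :=
    dat_low hx hs w0 a1 o.hC hXc (by linarith) hX
  have hξ' : ξ = xi1 z x + xi1 (w + z) x := by
    have h7 : x * (ξ - (xi1 z x + xi1 (w + z) x)) = 0 := by
      rw [eq1, eq2] at hξ
      linarith
    rcases mul_eq_zero.1 h7 with h8 | h8
    · exact absurd h8 hx.ne'
    · linarith
  have d23 : Dat x (h0 * (1 + x * z)) (-(1 / 2)) (-xi1 z x) (-k1m z x) (-x1m z x) 0 := by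
    have := (h.rz.dat0_dn o.z0.le).neg
    simpa only [neg_zero] using this
  have d13 : Dat x (h0 * (1 + x * (w + z))) (1 / 2) (xi1 (w + z) x) (k1m (w + z) x)
      (x1m (w + z) x) 0 := h.ru.dat0_dn hτ.le
  have hs0 : 0 < h0 * x := mul_pos hh hx
  have hTT : h0 * (x * w) + h0 * (1 + x * z) ≤ 2 * h0 := by
    rw [T13]
    have := mul_le_mul_of_nonneg_left h.hu hh.le
    linarith
  have hK := fun y => (opnII_cost o hτ (by linarith) e2 e3).dir (kE_nonneg hs0 hs) hs0.le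
    (by have := h0_gt; linarith) h.t0 h.rz.T0 hTT y
  -- the levels
  have xaw := xa_lin hx hs w0
  have xba := xb_lin (v := -(sg1 z x / 2)) (by linarith)
  have xbb := xb_lin (v := -(sg1 (w + z) x / 2)) (by linarith)
  have x1a : x1m z x = xb (-(sg1 z x / 2)) := rfl
  have x1b : x1m (w + z) x = xb (-(sg1 (w + z) x / 2)) := rfl
  have s1 : x ^ 2 * xa w x ≤ 9 / 625 * A := by
    have h1 := mul_le_mul_of_nonneg_left xaw.2 hx.le
    have h2 : x * xa w x ≤ 9 / 20 * A := by linarith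
    have h3 := mul_le_mul hx1 h2 (mul_nonneg hx.le xaw.1) (by norm_num)
    have e : x ^ 2 * xa w x = x * (x * xa w x) := by ring
    rw [e]
    linarith
  have s2 : ∀ {v V : ℝ}, 0 ≤ v → 0 ≤ xb v → xb v ≤ 571 / 1000 * v → x * v = V / 2 →
      x ^ 2 * xb v ≤ 571 / 62500 * V := by
    intro v V hv h0' h1 h2
    have h3 := mul_le_mul_of_nonneg_left h1 hx.le
    have h4 := mul_nonneg hx.le h0'
    have h5 := mul_le_mul hx1 (by linarith : x * xb v ≤ 571 / 1000 * (V / 2)) h4 (by norm_num)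
    have e : x ^ 2 * xb v = x * (x * xb v) := by ring
    rw [e]
    linarith
  have s3 := s2 (by linarith) xba.1 xba.2 (by linarith : x * -(sg1 z x / 2) = A / 2)
  have s4 := s2 (by linarith) xbb.1 xbb.2 (by linarith : x * -(sg1 (w + z) x / 2) = -B / 2)
  have s5 : |x ^ 2 * χ| ≤ 9 / 625 * A + 1 / 25 * -B := by
    have h1 : |x ^ 2 * χ| ≤ |x ^ 2 * χ - x ^ 2 * xa w x| + |x ^ 2 * xa w x| := by
      have := abs_add_le (x ^ 2 * χ - x ^ 2 * xa w x) (x ^ 2 * xa w x)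
      rwa [sub_add_cancel] at this
    have h2 : |x ^ 2 * xa w x| = x ^ 2 * xa w x :=
      abs_of_nonneg (mul_nonneg (sq_nonneg x) xaw.1)
    linarith
  have s6 : |x ^ 2 * -x1m z x| ≤ 571 / 62500 * A := by
    rw [mul_neg, abs_neg, x1a, abs_of_nonneg (mul_nonneg (sq_nonneg x) xba.1)]
    exact s3
  have s7 : |x ^ 2 * x1m (w + z) x| ≤ 571 / 62500 * -B := by
    rw [x1b, abs_of_nonneg (mul_nonneg (sq_nonneg x) xbb.1)]
    exact s4
  have hS : |x ^ 2 * χ| + |x ^ 2 * -x1m z x| + |x ^ 2 * x1m (w + z) x| ≤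
      364 / 10000 * (A + -B) := by linarith
  have ex' := o.ex
  have eXX : cc1 z x + cc1 (w + z) x = 1 + x * ξ := by
    rw [hξ', eqz, eqw]
    ring
  rw [eXX, eqw] at ex'
  obtain ⟨c0, c8, m0, m1, l0, l1, el⟩ := mu_small hx hs
  have hr : ch x * |r| ≤ 37 / 100 * xa w x + 15 / 4 * -B := by
    have h1 : |r| ≤ |r - rf x * gh w| + |rf x * gh w| := by
      have := abs_add_le (r - rf x * gh w) (rf x * gh w)
      rwa [sub_add_cancel] at this
    have h2 : ch x * |rf x * gh w| ≤ 37 / 100 * xa w x := by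
      rw [abs_mul, abs_of_nonneg (gh_lin w0).1, ← mul_assoc]
      exact gain hx hs w0
    have h3 : ch x * |r - rf x * gh w| ≤ 3 / 8 * (10 * -B) :=
      mul_le_mul c8 (by linarith) (abs_nonneg _) (by norm_num)
    have h4 := mul_le_mul_of_nonneg_left h1 c0.le
    linarith
  obtain ⟨lA, lB⟩ := lev_lo h χ (-x1m z x) (x1m (w + z) x)
  have fin := opn_fin (CA := 3 / 50 * (A - B)) V h d12 d23 d13 (by rw [hξ']; ring) hK ?_ ?_ ?_
  · rw [← hξ, ← eq2] at fin
    exact fin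
  · have h5 : x ^ 2 * (|χ + -x1m z x - x1m (w + z) x| / 2) ≤
        1 / 2 * (|x ^ 2 * χ| + |x ^ 2 * -x1m z x| + |x ^ 2 * x1m (w + z) x|) := by
      have e : x ^ 2 * (|χ + -x1m z x - x1m (w + z) x| / 2) =
          1 / 2 * |x ^ 2 * χ + x ^ 2 * -x1m z x - x ^ 2 * x1m (w + z) x| := by
        rw [show x ^ 2 * χ + x ^ 2 * -x1m z x - x ^ 2 * x1m (w + z) x =
          x ^ 2 * (χ + -x1m z x - x1m (w + z) x) by ring, abs_mul, abs_of_nonneg (sq_nonneg x)]
        ring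
      rw [e]
      refine mul_le_mul_of_nonneg_left ?_ (by norm_num)
      refine (abs_sub _ _).trans ?_
      have := abs_add_le (x ^ 2 * χ) (x ^ 2 * -x1m z x)
      linarith
    linarith
  · rw [show (A - B : ℝ) = A + -B by ring]
    exact low_num hx.le hx1 m0 m1 l1 hr b0 bA s1 hS (by linarith) lA
  · rw [show (A - B : ℝ) = A + -B by ring]
    exact low_num hx.le hx1 m0 m1 l1 hr b0 bA s1 hS (by linarith) lB

end

end Pool.Agent.Strip051.LC.E0
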