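import Pool.Agent.Strip051.LC.E0.ClM

/-! # Small rests: all vertices of the window -/

namespace Pool.Agent.Strip051.LC.E0

open Pool.Agent.StripNear Pool.Agent.StripSquare Pool.Agent.Strip051 Pool.Agent.Strip051.Sweep
open Pool.Agent.Strip051.LC.Line
open G

section

variable {V : Vx} {x w z : ℝ}

/-- **Vertex `C`**: both long sides have length one. -/
theorem C_ok (V : Vx) (h : Win x w z)
    (hC : LC.c1 (h0 * (x * w)) ≤ LC.c1 (h0 * (1 + x * z)) + LC.c1 (h0 * (1 + x * (w + z)))) :
    OKV V (h0 * x) (LC.c1 (h0 * (1 + x * z)) + LC.c1 (h0 * (1 + x * (w + z))))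
      (LC.c1 (h0 * (1 + x * (w + z)))) (h0 * (x * w)) (h0 * (1 + x * z)) := by
  have hx := h.x0
  have w0 := h.w0
  rcases lt_or_ge z 0 with hz | hz
  · obtain ⟨A, B, o⟩ := opn_of h hz hC
    rcases le_or_gt 0 (w + z) with hτ | hτ
    · exact opnI V o hτ
    · exact opnII V o hτ
  · have hτ : 0 ≤ w + z := by linarith
    have e1 := (h.rz.xi1_up hz).1
    have e2 := (h.ru.xi1_up hτ).1
    have k1 : x * om w x ≤ x * (39 / 100 * w ^ 2) := mul_le_mul_of_nonneg_left h.omw_le hx.le
    have k2 : x * w * w ≤ 32 / 125 * w := mul_le_mul_of_nonneg_right h.xw1 w0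
    have k3 : x * om w x ≤ 1 / 10 * w := by
      have : x * (39 / 100 * w ^ 2) = 39 / 100 * (x * w * w) := by ring
      linarith
    have k4 := mul_le_mul_of_nonneg_left k3 hx.le
    have k5 := mul_le_mul_of_nonneg_left e1 hx.le
    have k6 := mul_le_mul_of_nonneg_left e2 hx.le
    have hc := hC
    rw [h.u_eq, h.rz.c1, h.ru.c1] at hc
    have k7 : x * (2 * z + w) ≤ 0 := by
      have a1 : x * (x * om w x) ≤ x * (1 / 10 * w) := k4
      have a2 : 0 ≤ x * z := mul_nonneg hx.le hz
      have a3 : 0 ≤ x * w := mul_nonneg hx.le w0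
      linarith
    have k8 : 2 * z + w ≤ 0 := by
      by_contra hcc
      push Not at hcc
      have := mul_pos hx hcc
      linarith
    have ew : w = 0 := by linarith
    have ez : z = 0 := by linarith
    subst ew ez
    exact (vert0 h).C hC

/-- **All vertices of the window.** -/
theorem vert (hR : Rows V) (h : Win x w z) (hX : Aux V x w z) (h8 : w + z ≤ 8) :
    Vert V x w z := by
  by_cases hl : w ≠ 0 ∨ z ≠ 0
  · exact ⟨vertA hR h hX h8 hl, vertB hR h hX h8 hl, C_ok V h⟩
  · push Not at hl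
    obtain ⟨rfl, rfl⟩ := hl
    exact vert0 h

end

end Pool.Agent.Strip051.LC.E0
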