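import Pool.Agent.Strip051.LC.Box.Two
import Pool.Agent.Strip051.LC.Box.Wall
import Pool.Agent.Strip051.LC.Box.Tall
import Pool.Agent.Strip051.LC.E0.CostQ

/-! # Small rests: the other cells -/

namespace Pool.Agent.Strip051.LC.E0

open Pool.Agent.Strip051.LC.Box Pool.Agent.Strip051.LC.Box.Fast

/-- The cost of a long edge. -/
def R : List (List Aff) := [[⟨0, 0, 256⟩]]

/-- The cost of a unit edge. -/
def U : List (List Aff) := [[⟨0, 0, 128⟩]]

def tT0 : Tree := .split 1 (.split 2 (.split 3 (.leaf 0x43f200000000000070007000000023f200000100830000800080000100840000800080000100840000800080000008)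
 (.leaf 0x70001e56000034a034a00100830000800080000100840000800080000100840000800080000010))
 (.split 3 (.leaf 0x2000000000000000700070000000000000000100830000800080000100840000800080000100840000800080000018)
 (.leaf 0x2b6100001e42000000006faf700002b0000000000100830000800080000100840000800080000100840000800080000020)))
 (.split 2 (.split 3 (.leaf 0x49e0000000000000100830000800080000100840000800080000100840000800080000028)
 (.leaf 0x49e0000000000000100830000800080000100840000800080000100840000800080000030))
 (.split 3 (.leaf 0x444c1b040000000000002fa870000000000000000100830000800080000100840000800080000100840000800080000038)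
 (.leaf 0x700000000195000000002e52700000000000135d0100830000800080000100840000800080000100840000800080000040)))
def tT1 : Tree := .split 1 (.split 2 (.split 3 (.leaf 0x5b8900007000067b000070007000687d00000100830000800080000100840000800080000100840000800080000048)
 (.leaf 0x49e0000000000000100830000800080000100840000800080000100840000800080000050))
 (.split 3 (.leaf 0x1b04444c0000000000002fa870000000000000000100830000800080000100840000800080000100840000800080000058)
 (.leaf 0x49e0000000000000100830000800080000100840000800080000100840000800080000060)))
 (.split 2 (.split 3 (.leaf 0x7000000000000000000039fe00006abf05420100830000800080000100840000800080000100840000800080000068)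
 (.leaf 0x49e0000000000000100830000800080000100840000800080000100840000800080000070))
 (.split 3 (.leaf 0x7000000000002b7f000070006639000070000100830000800080000100840000800080000100840000800080000078)
 (.leaf 0x70000000000000000000000039fe000005426abf0100830000800080000100840000800080000100840000800080000080)))
/-- A certificate. -/
def tT : Tree := .split 0 (tT0)
 (tT1)

/-- The certificate. -/
def tW : Tree := (.split 0 (.split 1 (.leaf 0xb200b1800080000000) (.leaf 0xb100b0800080000000)) (.split 1 (.leaf 0xb100b0800080000000) (.leaf 0xb000af800080000000)))

/-- The certificate. -/
def tA : Tree := (.leaf 0x939000000010000000000010284000037b3379c80008000800080000000)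

/-- The certificate. -/
def tS : Tree := (.split 0 (.split 1 (.split 0 (.leaf 0x1c200464e700000) (.leaf 0x3e70000)) (.leaf 0x18c000004a00000)) (.leaf 0x20000))

/-- The certificate. -/
def tU : Tree := (.split 0 (.split 1 (.split 0 (.leaf 0x1a4091b54150000) (.split 0 (.leaf 0x8c01a7f0000) (.split 1 (.split 1 (.split 1 (.split 0 (.leaf 0xa640e260000) (.leaf 0x46d046d20000)) (.leaf 0xb3a0f1f0000)) (.leaf 0xb500f7c0000)) (.leaf 0x225f27190000)))) (.leaf 0x18c0d0911a80000)) (.leaf 0xf2a0f2c0000))

theorem okC_C4 : okC (sc4 C) = true := by decide +kernel

theorem okC_R4 : okC (sc4 R) = true := by decide +kernel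

theorem kT : chkM tFP (tCS C R) (cutK tCD) tT tBoxF = true := by decide +kernel

theorem kW : check (wProb C) tW wBox = true := by decide +kernel

theorem kA : check (abProb C 124) tA abBox = true := by decide +kernel

theorem kS : check (shProb C 124) tS [(128, 444), (0, 256)] = true := by decide +kernel

theorem kU : check (shProbU U 124) tU [(128, 444), (0, 256)] = true := by decide +kernel

end Pool.Agent.Strip051.LC.E0
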