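import Pool.Agent.Strip051.LC.E0.Slk
import Pool.Agent.Strip051.LC.E0.Def

/-! # Small rests: the slack in scaled coordinates

`G.FinE`, `G.FoutE` are the slacks divided by `x ^ 2`; `Slk` says that one of them is nonnegative
on its domain.  `slk_mon` turns this into the modulus inequality. -/

namespace Pool.Agent.Strip051.LC.E0

open Pool.Agent.StripNear Pool.Agent.StripSquare Pool.Agent.Strip051 Pool.Agent.Strip051.Sweep
open Pool.Agent.Strip051.LC.Line
open Pool.Agent.Strip051.LC.Exact (kE)

namespace G

theorem gs_pos {x : ℝ} (hx : 0 ≤ x) (hx1 : x < 1) : 0 < gs x :=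
  Real.sqrt_pos.2 (by nlinarith)

theorem gs_sq {x : ℝ} (hx : 0 ≤ x) (hx1 : x ≤ 1) : gs x ^ 2 = 1 - 3 / 4 * x ^ 2 :=
  Real.sq_sqrt (by nlinarith)

theorem gs_le {x : ℝ} : gs x ≤ 1 := by
  unfold gs
  exact Real.sqrt_le_iff.2 ⟨by norm_num, by nlinarith [sq_nonneg x]⟩

theorem ic_pos {x : ℝ} : 0 < ic x := by
  unfold ic gs
  positivity

theorem ic_le {x : ℝ} : ic x ≤ 1 := by
  unfold ic
  rw [div_le_one (by unfold gs; positivity)]
  have : 0 ≤ gs x := Real.sqrt_nonneg _
  linarith

theorem et_one {x : ℝ} (hx1 : x < 1) : 1 + x * et x = 2 * ep x / (1 - x) := by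
  have : 1 - x ≠ 0 := by linarith
  unfold et ep
  field_simp
  ring

end G

open G

section

variable {x : ℝ}

theorem g_h0 : g (h0 * x) = gs x := by
  have hh := h0_sq'
  unfold g gs
  congr 1
  rw [mul_pow, hh]

theorem we_h0 (hx : 0 ≤ x) (hx1 : x < 1) : we (h0 * x) = x * ep x := by
  have hp := h0_pos
  have hg := gs_pos hx hx1
  have h2 := gs_sq hx hx1.le
  unfold we ep ic
  rw [g_h0]
  have e : h0 * x / (2 * h0) = x / 2 := by
    field_simp
  rw [e]
  have : (1 + gs x) ≠ 0 := by linarith
  field_simp
  nlinarith

theorem kE_h0 (hx : 0 < x) (hx1 : x < 1) : kE (h0 * x) * h0 = 2 * ep x / (1 - x) := by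
  have hp := h0_pos
  unfold kE
  rw [we_h0 hx.le hx1]
  have : 1 - x ≠ 0 := by linarith
  have : h0 - h0 * x ≠ 0 := by
    have : h0 - h0 * x = h0 * (1 - x) := by ring
    rw [this]
    positivity
  have hx' := hx.ne'
  field_simp

theorem ep_pos (hx : 0 ≤ x) (hx1 : x ≤ 1 / 2) : 0 < ep x := by
  have h1 := ic_le (x := x)
  have h2 := ic_pos (x := x)
  unfold ep
  nlinarith

/-- **The modulus inequality from the scaled slack.** -/
theorem slk_mon (hx : 0 < x) (hx1 : x < 1) (h12 : 0 < ep x) {a b l n gam del base lev A1 A2 A3 ex : ℝ}
    (hl : l = a + b) (hN : x * (n + x * gam) = x * a * A2 - x * b * A1)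
    (hD : A1 + A2 - A3 = -(x * del)) (hex : ex = x ^ 2 * (n / (2 * x) + base - lev))
    (h : Slk x a b l n gam del base lev) :
    MoN (kE (h0 * x)) (h0 * x) ex (h0 * (x * a)) (h0 * (x * b)) A1 A2 A3 := by
  have hL : x * a + x * b = x * l := by rw [hl]; ring
  have hd : (A1 + A2 - A3) * (1 - (x * a + x * b)) / 2 = -(x * del) * (1 - x * l) / 2 := by
    rw [hD, hL]
  have x1 : 0 < 1 - x := by linarith
  rcases h with ⟨⟨ha, hb, l0, l1, hc⟩, hF⟩ | ⟨⟨ha, hb, l0, n0, p0, q0, hp, hq⟩, hF⟩ |
    ⟨⟨ha, hb, l0, l1, n0⟩, hF⟩
  · have hxl : 0 < 1 - x * l := by linarith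
    have hL0 : 0 < x * a + x * b := by rw [hL]; positivity
    rcases le_or_gt del 0 with h | h
    · -- the potential is larger at the first node
      rw [if_pos h] at hc
      unfold FinE at hF
      rw [if_pos h, abs_of_nonpos h] at hF
      rw [abs_of_nonpos h] at hc
      have hd0 : 0 ≤ -(x * del) * (1 - x * l) / 2 := by
        have : 0 ≤ -(x * del) := by nlinarith
        positivity
      refine monIn1 (d := -(x * del) * (1 - x * l) / 2) (N := x * (n + x * gam)) (by positivity)
        (by positivity) hL0 hN hd.symm hd0 ?_ ?_
      · have : 2 * (x * a) * (-(x * del) * (1 - x * l) / 2) =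
            x * (x * a * -del * (1 - x * l)) := by ring
        rw [this]
        exact mul_le_mul_of_nonneg_left hc hx.le
      · rw [kE_h0 hx hx1, hex, hL]
        have hden : 0 ≤ n + x * gam + x * b * -del * (1 - x * l) := by
          have h1 : 0 ≤ x * a * -del * (1 - x * l) := by
            have : 0 ≤ -del := by linarith
            positivity
          have h2 : 0 ≤ x * b * -del * (1 - x * l) := by
            have : 0 ≤ -del := by linarith
            positivity
          linarith
        have key : x ^ 2 * (n / (2 * x) + base - lev) -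
            2 * ep x / (1 - x) * (x * (n + x * gam) / 2 * (1 - x) +
              (x - x * l) * (-(x * del) * (1 - x * l) / 2) +
              2 * (x * b) * (x * l) * (-(x * del) * (1 - x * l) / 2) ^ 2 /
                (x * (n + x * gam) + 2 * (x * b) * (-(x * del) * (1 - x * l) / 2))) =
            x ^ 2 * (3 / 4 * n * ic x + base - ep x * gam - lev -
              ep x * (1 - l) * -del * (1 - x * l) / (1 - x) -
              x * ep x * b * l * del ^ 2 * (1 - x * l) ^ 2 /
                ((1 - x) * (n + x * gam + x * b * -del * (1 - x * l)))) := by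
          have e1 : x * (n + x * gam) + 2 * (x * b) * (-(x * del) * (1 - x * l) / 2) =
              x * (n + x * gam + x * b * -del * (1 - x * l)) := by ring
          rw [e1]
          obtain ⟨M, hM⟩ : ∃ M, M = n + x * gam + x * b * -del * (1 - x * l) := ⟨_, rfl⟩
          rw [← hM]
          have e2 : n / (2 * x) = ep x * n / x + 3 / 4 * n * ic x := by
            unfold ep
            field_simp
            ring
          rw [e2]
          have hxn := hx.ne'
          have hx1n := x1.ne'
          rcases eq_or_ne M 0 with hM0 | hM0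
          · rw [hM0]
            simp only [mul_zero, div_zero]
            field_simp
            ring
          · field_simp
            ring
        have h2 : 0 ≤ x ^ 2 * (3 / 4 * n * ic x + base - ep x * gam - lev -
              ep x * (1 - l) * -del * (1 - x * l) / (1 - x) -
              x * ep x * b * l * del ^ 2 * (1 - x * l) ^ 2 /
                ((1 - x) * (n + x * gam + x * b * -del * (1 - x * l)))) := by
          refine mul_nonneg (sq_nonneg x) ?_
          exact hF
        linarith
    · rw [if_neg h.not_ge] at hc
      unfold FinE at hF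
      rw [if_neg h.not_ge, abs_of_pos h] at hF
      rw [abs_of_pos h] at hc
      have hd0 : -(x * del) * (1 - x * l) / 2 ≤ 0 := by
        have : 0 ≤ x * del * (1 - x * l) := by positivity
        linarith
      refine monIn3 (d := -(x * del) * (1 - x * l) / 2) (N := x * (n + x * gam)) (by positivity)
        (by positivity) hL0 hN hd.symm hd0 ?_ ?_
      · have : 2 * (x * b) * -(-(x * del) * (1 - x * l) / 2) =
            x * (x * b * del * (1 - x * l)) := by ring
        rw [this]
        exact mul_le_mul_of_nonneg_left hc hx.le
      · rw [kE_h0 hx hx1, hex, hL]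
        have key : x ^ 2 * (n / (2 * x) + base - lev) -
            2 * ep x / (1 - x) * (x * (n + x * gam) / 2 * (1 - x) +
              (x - x * l) * -(-(x * del) * (1 - x * l) / 2) +
              2 * (x * a) * (x * l) * (-(x * del) * (1 - x * l) / 2) ^ 2 /
                (x * (n + x * gam) + 2 * (x * a) * -(-(x * del) * (1 - x * l) / 2))) =
            x ^ 2 * (3 / 4 * n * ic x + base - ep x * gam - lev -
              ep x * (1 - l) * del * (1 - x * l) / (1 - x) -
              x * ep x * a * l * del ^ 2 * (1 - x * l) ^ 2 /
                ((1 - x) * (n + x * gam + x * a * del * (1 - x * l)))) := by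
          have e1 : x * (n + x * gam) + 2 * (x * a) * -(-(x * del) * (1 - x * l) / 2) =
              x * (n + x * gam + x * a * del * (1 - x * l)) := by ring
          rw [e1]
          obtain ⟨M, hM⟩ : ∃ M, M = n + x * gam + x * a * del * (1 - x * l) := ⟨_, rfl⟩
          rw [← hM]
          have e2 : n / (2 * x) = ep x * n / x + 3 / 4 * n * ic x := by
            unfold ep
            field_simp
            ring
          rw [e2]
          have hxn := hx.ne'
          have hx1n := x1.ne'
          rcases eq_or_ne M 0 with hM0 | hM0
          · rw [hM0]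
            simp only [mul_zero, div_zero]
            field_simp
            ring
          · field_simp
            ring
        have h2 : 0 ≤ x ^ 2 * (3 / 4 * n * ic x + base - ep x * gam - lev -
              ep x * (1 - l) * del * (1 - x * l) / (1 - x) -
              x * ep x * a * l * del ^ 2 * (1 - x * l) ^ 2 /
                ((1 - x) * (n + x * gam + x * a * del * (1 - x * l)))) := by
          refine mul_nonneg (sq_nonneg x) ?_
          exact hF
        linarith
  · have hL0 : 0 < x * a + x * b := by rw [hL]; positivity
    have e1 : x * (n + x * gam) - 2 * (x * a) * (-(x * del) * (1 - x * l) / 2) =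
        x * (n + x * gam + x * a * del * (1 - x * l)) := by ring
    have e2 : x * (n + x * gam) + 2 * (x * b) * (-(x * del) * (1 - x * l) / 2) =
        x * (n + x * gam - x * b * del * (1 - x * l)) := by ring
    refine monOut (d := -(x * del) * (1 - x * l) / 2) (N := x * (n + x * gam)) (by positivity)
      (by positivity) hx.le hL0 hN hd.symm (by positivity) (by rw [e1]; positivity)
      (by rw [e2]; positivity) ?_ ?_ ?_
    · rw [e1, hL]
      have := mul_le_mul_of_nonneg_left hp (by positivity : 0 ≤ x ^ 2)
      linarith
    · rw [e2, hL]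
      have := mul_le_mul_of_nonneg_left hq (by positivity : 0 ≤ x ^ 2)
      linarith
    · rw [kE_h0 hx hx1, hex, hL, ← et_one hx1]
      have hxn := hx.ne'
      have hln := l0.ne'
      have hnn := n0.ne'
      have key : x ^ 2 * (n / (2 * x) + base - lev) -
          (1 + x * et x) * (x * (x * (n + x * gam) / (x * l) *
            (1 - x / (2 * (x * l)) - x * l / 2) - (x * a - x * b) / (x * l) *
            (-(x * del) * (1 - x * l) / 2) * (1 - x / (x * l)) +
            2 * (x * a) * (x * b) * x * (-(x * del) * (1 - x * l) / 2) ^ 2 /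
              ((x * l) ^ 2 * (x * (n + x * gam))))) =
          x ^ 2 * FoutE x a b l n gam del base lev := by
        obtain ⟨M, hM⟩ : ∃ M, M = n + x * gam := ⟨_, rfl⟩
        have hM0 : M ≠ 0 := by rw [hM]; exact hnn
        unfold FoutE
        rw [← hM]
        have hg : n = M - x * gam := by linarith
        rw [hg]
        field_simp
        ring
      have h2 : 0 ≤ x ^ 2 * FoutE x a b l n gam del base lev := mul_nonneg (sq_nonneg x) hF
      linarith
  · have hL0 : 0 < x * a + x * b := by rw [hL]; positivity
    have hxl : 0 < 1 - x * l := by linarith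
    have hκ : 0 ≤ kE (h0 * x) := by
      have hk := kE_h0 hx hx1
      have hp := h0_pos
      have h5 : 0 ≤ kE (h0 * x) * h0 := by
        rw [hk]
        have := h12.le
        positivity
      exact nonneg_of_mul_nonneg_left h5 hp
    refine monC (d := -(x * del) * (1 - x * l) / 2) (N := x * (n + x * gam)) hκ hx.le (by positivity)
      (by positivity) hL0 hN hd.symm (by positivity) ?_
    rw [kE_h0 hx hx1, hex]
    have e0 : |-(x * del) * (1 - x * l) / 2| = x * |del| * (1 - x * l) / 2 := by
      rw [abs_div, abs_mul, abs_neg, abs_mul, abs_of_pos hx, abs_of_pos hxl,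
        abs_of_pos (by norm_num : (0 : ℝ) < 2)]
    rw [e0]
    have key : x ^ 2 * (n / (2 * x) + base - lev) -
        2 * ep x / (1 - x) * (x * (n + x * gam) / 2 * (1 - x) +
          x * (x * |del| * (1 - x * l) / 2)) = x ^ 2 * FcE x l n gam del base lev := by
      unfold FcE
      have e2 : n / (2 * x) = ep x * n / x + 3 / 4 * n * ic x := by
        unfold ep
        field_simp
        ring
      rw [e2]
      have hxn := hx.ne'
      have hx1n := x1.ne'
      field_simp
      ring
    have h2 : 0 ≤ x ^ 2 * FcE x l n gam del base lev := mul_nonneg (sq_nonneg x) hF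
    linarith

end

end Pool.Agent.Strip051.LC.E0
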