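import Pool.Agent.Strip051.LC.E0.Main

/-! # Small rests: the rows at the floor, preparations -/

namespace Pool.Agent.Strip051.LC.E0

open Pool.Agent.StripNear Pool.Agent.StripSquare Pool.Agent.Strip051 Pool.Agent.Strip051.Sweep
open Pool.Agent.Strip051.LC.Line
open Pool.Agent.Strip051.LC.Exact (kE)

/-- The value at the floor minus one half: `r` is the flux, `x` the level value, `M` the mean of the
normed profile. -/
noncomputable def FV (s μ X T r x M : ℝ) : ℝ :=
  X * (1 / 2 - we s - μ * wq s + T / (2 * h0)) -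
    (r * M + ((1 / 2 - g s * μ) - μ * ((T - s) / (2 * h0))) * x) - 1 / 2

theorem FV_add (s μ X T r x M X' r' : ℝ) : FV s μ (X + X') T (r + r') x M =
    FV s μ X T r x M + X' * (1 / 2 - we s - μ * wq s + T / (2 * h0)) - r' * M := by
  unfold FV
  ring

/-- The condition of the growth. -/
theorem monoT_of {s μ X t r x R : ℝ} (hs : 0 < s) (hs1 : s < h0) (he : 0 < we s)
    (hr : we s * R = r) (h1 : 2 * h0 * r ≤ (X + μ * x) * max s |t|)
    (h2 : -(2 * h0 * r) ≤ (X + μ * x) * (h0 - s)) (h3 : 0 ≤ X + μ * x) :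
    MonoT s (kE s) X t R (μ / h0 * x) := by
  have hh := h0_pos
  have hsh : 0 < h0 - s := by linarith
  have e : kE s * s * (h0 - s) = 2 * h0 * we s := by
    unfold kE
    field_simp
  have m1 : 0 < max s |t| := lt_of_lt_of_le hs (le_max_left _ _)
  have m2 : 0 < max (h0 - s) |t| := lt_of_lt_of_le hsh (le_max_left _ _)
  unfold MonoT
  rw [e, show h0 * (μ / h0 * x) = μ * x by field_simp]
  rcases le_total 0 R with h | h
  · rw [max_eq_left h, max_eq_right (by linarith : -R ≤ 0), zero_div, add_zero, mul_div_assoc',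
      div_le_iff₀ m1]
    calc 2 * h0 * we s * R = 2 * h0 * r := by rw [← hr]; ring
      _ ≤ _ := h1
  · rw [max_eq_right h, max_eq_left (by linarith : 0 ≤ -R), zero_div, zero_add, mul_div_assoc',
      div_le_iff₀ m2]
    calc 2 * h0 * we s * -R = -(2 * h0 * r) := by rw [← hr]; ring
      _ ≤ (X + μ * x) * (h0 - s) := h2
      _ ≤ _ := mul_le_mul_of_nonneg_left (le_max_left _ _) h3

/-- The statement at the floor from the value and the growth. -/
theorem half_of {s μ X T r x M : ℝ} {R Xi : ℝ → ℝ → ℝ} (hs : 0 < s) (hs1 : s < h0)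
    (he : 0 < we s) (hT : 0 ≤ T) (hM : mn (D s (kE s)) 0 (tau T) = we s * M)
    (hr : we s * R X T = r) (hx : Xi X T = x) (hv : 0 ≤ FV s μ X T r x M)
    (h1 : 2 * h0 * r ≤ (X + μ * x) * max s |tau T|)
    (h2 : -(2 * h0 * r) ≤ (X + μ * x) * (h0 - s)) (h3 : 0 ≤ X + μ * x) :
    Half (kE s) s μ (1 / 2 - we s - μ * wq s) R Xi (fun _ _ => 0) (fun _ => 0) 0 0 X T 0 := by
  refine Or.inr ⟨?_, ?_⟩
  · rw [hx]
    exact monoT_of hs hs1 he hr h1 h2 h3
  · have e := UT_nf (κ := kE s) (s := s) (μ := μ) (w := 1 / 2 - we s - μ * wq s) (R := R)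
      (Xi := Xi) (C := fun _ _ => 0) (f := fun _ => 0) (X := X) (y := 0) hT
    rw [UT_none] at e
    rw [e, zero_add, hM, hx]
    have e2 : R X T * (we s * M) = r * M := by rw [← hr]; ring
    rw [e2]
    unfold FV at hv
    simp only [abs_zero, zero_mul, mul_zero, add_zero, sub_zero, zero_add]
    linarith

/-! ### The mean of the profile -/

theorem mean_low {s T : ℝ} (hs : 0 < s) (hs1 : s ≤ 11 / 400) (hT : 0 ≤ T) (h : T ≤ s) :
    mn (D s (kE s)) 0 T = we s * (T / s - 1) := by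
  have hh := h0_pos
  have g1 := h0_gt
  have hsh : h0 - s ≠ 0 := by linarith
  rw [mn_low (by linarith) hT h]
  unfold kE
  field_simp

theorem mean_high {s T : ℝ} (hs : 0 < s) (hs1 : s ≤ 11 / 400) (h : s ≤ T) (h' : T ≤ h0) :
    mn (D s (kE s)) 0 T = we s * ((T - s) * (h0 - T) / (T * (h0 - s))) := by
  have hh := h0_pos
  have g1 := h0_gt
  have hsh : h0 - s ≠ 0 := by linarith
  have hT : 0 < T := by linarith
  rw [mn_high hs.le (by linarith) h h' hT]
  unfold kE
  field_simp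

theorem mean_neg {s d : ℝ} (hs : 0 < s) (hs1 : s ≤ 11 / 400) (h : 0 ≤ d) (h' : d ≤ h0 - s) :
    mn (D s (kE s)) 0 (-d) = we s * (d / (h0 - s) - 1) := by
  have hh := h0_pos
  have g1 := h0_gt
  have hsh : h0 - s ≠ 0 := by linarith
  rw [mn_neg hs.le (by linarith) (by linarith)]
  unfold kE
  field_simp
  ring

/-! ### Sharper numbers -/

theorem g_low {s : ℝ} (hs : 0 < s) (hs1 : s ≤ 11 / 400) : 9996 / 10000 ≤ g s := by
  obtain ⟨e, -, -, b⟩ := g_facts hs hs1
  nlinarith

theorem x1_low {s : ℝ} (hs : 0 < s) (hs1 : s ≤ 11 / 400) : 499 / 1000 ≤ x1 s := by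
  obtain ⟨e, a, -, -⟩ := g_facts hs hs1
  have b := g_low hs hs1
  unfold x1
  rw [le_div_iff₀ (by linarith)]
  linarith

theorem xm_low {s : ℝ} (hs : 0 < s) (hs1 : s ≤ 11 / 400) : 11 / 20 ≤ xm par s := by
  obtain ⟨-, a, -, -⟩ := g_facts hs hs1
  have b := g_low hs hs1
  have g1 := h0_gt
  have g2 := h0_lt
  have hh := h0_pos
  rw [xm_eq par hs (by linarith)]
  have k1 : s / ((1 + g s) * h0) ≤ 159 / 10000 := by
    rw [div_le_iff₀ (by positivity)]
    have : 19996 / 10000 * (8660 / 10000) ≤ (1 + g s) * h0 :=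
      mul_le_mul (by linarith) (by linarith) (by norm_num) (by linarith)
    linarith
  have k2 : 3 / g s ≤ 30013 / 10000 := by
    rw [div_le_iff₀ (by linarith)]
    nlinarith
  have k3' : 1 ≤ 2 / (1 + g s) := by
    rw [le_div_iff₀ (by linarith)]
    linarith
  have k4' : 11545 / 10000 ≤ 1 / h0 := by
    rw [le_div_iff₀ hh]
    linarith
  have k5 : 2 * s / (1 + g s) ≤ 276 / 10000 := by
    rw [div_le_iff₀ (by linarith)]
    linarith
  rw [par_one]
  obtain ⟨o1, o2⟩ := one_bd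
  have m1 : 5034 / 10000 * (11269 / 10000) ≤ 436 / 1000 / h0 * (1 / h0 - 2 * s / (1 + g s)) :=
    mul_le_mul o1 (by linarith) (by norm_num) (by linarith)
  linarith

/-- The value of the kernel at `s`. -/
theorem RA_self {s : ℝ} (hs : 0 < s) : RA par s s = 1 - 436 / 1000 / h0 * s := by
  rw [← par_one]
  unfold RA dc
  rw [div_self hs.ne', if_pos le_rfl]
  ring

theorem ratio_bd {s : ℝ} (hs : 0 < s) (hs1 : s ≤ 11 / 400) :
    11 / 10 ≤ xm par s / x1 s ∧ xm par s / x1 s ≤ 1203 / 1000 := by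
  have a := x1_bd hs hs1
  have a' := x1_low hs hs1
  have b := xm_bd hs hs1
  have b' := xm_low hs hs1
  constructor
  · rw [le_div_iff₀ (by linarith)]
    linarith
  · rw [div_le_iff₀ (by linarith)]
    linarith

theorem r2_sharp {s : ℝ} (hs : 0 < s) (hs1 : s ≤ 11 / 400) :
    0 ≤ r2 par s ∧ r2 par s ≤ 1 / 4 ∧ 0 ≤ r2 par s + r2d par s ∧
      r2 par s + r2d par s ≤ 1 / 4 ∧ 0 ≤ r2 par s - r2d par s ∧
      r2 par s - r2d par s ≤ 1 / 2 := by
  have a := x1_bd hs hs1
  obtain ⟨c1', c2'⟩ := ratio_bd hs hs1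
  obtain ⟨-, d1, -, -⟩ := g_facts hs hs1
  have d2 := g_low hs hs1
  obtain ⟨p1, p2⟩ := Pe_bd' hs hs1
  have hh := h0_pos
  have g1 := h0_gt
  have g2 := h0_lt
  set R := xm par s / x1 s with hR
  have e1 : g s * xm par s / x1 s = g s * R := by rw [hR]; ring
  have e2 : xm par s / (2 * x1 s) = R / 2 := by
    rw [hR]
    field_simp
  have k0 : s * (577 / 1000) ≤ s * (s / g s + 1 / (2 * h0)) := by
    have h1 : 0 ≤ s / g s := div_nonneg hs.le (by linarith)
    have h2 : 577 / 1000 ≤ 1 / (2 * h0) := by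
      rw [le_div_iff₀ (by positivity)]
      linarith
    exact mul_le_mul_of_nonneg_left (by linarith) hs.le
  have k1 : s * (s / g s + 1 / (2 * h0)) ≤ s * (606 / 1000) := by
    have h1 : s / g s ≤ 276 / 10000 := by
      rw [div_le_iff₀ (by linarith)]
      linarith
    have h2 : 1 / (2 * h0) ≤ 578 / 1000 := by
      rw [div_le_iff₀ (by positivity)]
      linarith
    exact mul_le_mul_of_nonneg_left (by linarith) hs.le
  have m1 : g s * R ≤ R := by nlinarith
  have m2 : 9996 / 10000 * R ≤ g s * R := by nlinarith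
  have k2' := mul_le_mul_of_nonneg_right one_bd.1 hs.le
  have k3' := mul_le_mul_of_nonneg_right one_bd.2 hs.le
  unfold r2 r2d
  rw [e1, e2, RA_self hs]
  refine ⟨?_, ?_, ?_, ?_, ?_, ?_⟩ <;> linarith

end Pool.Agent.Strip051.LC.E0
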