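import Pool.Agent.Strip051.LC.E0.FlA

/-! # Small rests: the unit circle at the floor, next to the horizontal direction -/

namespace Pool.Agent.Strip051.LC.E0

open Pool.Agent.StripNear Pool.Agent.StripSquare Pool.Agent.Strip051 Pool.Agent.Strip051.Sweep
open Pool.Agent.Strip051.LC.Line
open Pool.Agent.Strip051.LC.Exact (kE)

/-- The value for `T = s w`, `w ≤ 1`, in factors. -/
theorem low_id {g c s w k E q XM QR z μ α β κ : ℝ} (hκ : κ = α + β) (hE : E = s * k + g - 1)
    (hq : q = (1 - g) * (2 * g - 1))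
    (hX : XM = 2 * s * g * k - 2 * z * (3 / 2 - g) - 2 * E * (1 - κ * s))
    (hQ : QR = q * (z + s * k) - q * (1 - κ * s) + g * XM) :
    c * (1 / 2 - E - μ * q + s * w * k) -
        (((E + μ * q) * (1 - s * w * (α + β * w)) + μ * (QR * w)) * (w - 1) +
          ((1 / 2 - g * μ) - μ * ((s * w - s) * k)) * (w * (2 * q - XM + (XM - q) * w))) - 1 / 2 =
      (3 / 2 - g) * (c - g - (1 - w) * w * z - (1 - g) * (1 - w) ^ 2) +
        k * s * (1 - w) * (1 - c - w * (1 - g)) + E * (1 - w) ^ 2 * s * w * β +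
        μ * (-(q * (c - g - (1 - w) * w * z - (1 - g) * (1 - w) ^ 2)) +
          (1 - w) ^ 2 * w * (q * s * (β - k) + s * k * XM)) := by
  subst hκ
  subst hQ
  subst hX
  subst hq
  subst hE
  ring

/-- The value for `T = s (1 + v)` in factors. -/
theorem high_id {g c s v k E q XM QR z μ A B M κ : ℝ} (hE : E = s * k + g - 1)
    (hq : q = (1 - g) * (2 * g - 1))
    (hX : XM = 2 * s * g * k - 2 * z * (3 / 2 - g) - 2 * E * (1 - κ * s))
    (hQ : QR = q * (z + s * k) - q * (1 - κ * s) + g * XM) :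
    c * (1 / 2 - E - μ * q + s * (1 + v) * k) -
        (((E + μ * q) * A + μ * (q * B)) * M +
          ((1 / 2 - g * μ) - μ * ((s * (1 + v) - s) * k)) * (q + XM * v)) - 1 / 2 =
      (3 / 2 - g) * (c - g + v * z) - s * k * v * (g - c) +
        E * ((1 - κ * s) * v - A * M) +
        μ * (q * (g - c - v * z) + (v * (q * (1 - κ * s) + QR) - q * (A + B) * M) +
          k * s * XM * v ^ 2) := by
  subst hQ
  subst hX
  subst hq
  subst hE
  ring

/-! ### The relations between the constants -/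

theorem rel_E {s : ℝ} : we s = s * (1 / (2 * h0)) + g s - 1 := by
  unfold we
  ring

theorem rel_x1 {s : ℝ} (hs : 0 < s) (hs1 : s ≤ 11 / 400) : s ^ 2 * x1 s = wq s := by
  obtain ⟨e, -, -, b⟩ := g_facts hs hs1
  have h1 : 1 + g s ≠ 0 := by linarith
  have e2 : s ^ 2 = (1 - g s) * (1 + g s) := by linarith
  unfold x1 wq
  rw [e2]
  field_simp

theorem rel_xm {s : ℝ} (hs : 0 < s) (hs1 : s ≤ 11 / 400) : s ^ 2 * xm par s =
    2 * s * g s * (1 / (2 * h0)) - 2 * (s ^ 2 / g s) * (3 / 2 - g s) -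
      2 * we s * (1 - 436 / 1000 / h0 * s) := by
  obtain ⟨e, -, -, b⟩ := g_facts hs hs1
  have h1 : g s ≠ 0 := by linarith
  have hh := h0_pos
  unfold xm
  rw [RA_self hs]
  field_simp

theorem rel_r2 {s : ℝ} (hs : 0 < s) (hs1 : s ≤ 11 / 400) : wq s * r2 par s =
    wq s * (s ^ 2 / g s + s * (1 / (2 * h0))) - wq s * (1 - 436 / 1000 / h0 * s) +
      g s * (s ^ 2 * xm par s) := by
  obtain ⟨e, -, -, b⟩ := g_facts hs hs1
  have a := x1_bd hs hs1
  have h1 : g s ≠ 0 := by linarith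
  have h2 : x1 s ≠ 0 := by linarith
  have hh := h0_pos
  unfold r2
  rw [RA_self hs, ← rel_x1 hs hs1]
  field_simp

/-- The bounds of the constants. -/
theorem const_bd {s : ℝ} (hs : 0 < s) (hs1 : s ≤ 11 / 400) :
    we s ≤ s * (1 / (2 * h0)) - s ^ 2 / 2 ∧ 56 / 100 * s ≤ we s ∧ 0 ≤ wq s ∧
      wq s ≤ 501 / 1000 * s ^ 2 := by
  obtain ⟨e, a, c', -⟩ := g_facts hs hs1
  have b := g_low hs hs1
  have hh := h0_pos
  have g2 := h0_lt
  have k : 577 / 1000 ≤ 1 / (2 * h0) := by
    rw [le_div_iff₀ (by positivity)]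
    linarith
  have d : 1 - g s ≤ 501 / 1000 * s ^ 2 := by
    have : (1 - g s) * (1 + g s) = s ^ 2 := by linarith
    nlinarith
  have d' : s ^ 2 / 2 ≤ 1 - g s := by
    have : (1 - g s) * (1 + g s) = s ^ 2 := by linarith
    nlinarith
  rw [rel_E]
  refine ⟨by linarith, ?_, ?_, ?_⟩
  · nlinarith
  · unfold wq
    exact mul_nonneg (by linarith) (by linarith)
  · unfold wq
    nlinarith

theorem le_of_sq_le_sq' {a b : ℝ} (h : a ^ 2 ≤ b ^ 2) (hb : 0 ≤ b) (ha : 0 ≤ a) : a ≤ b := by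
  nlinarith

/-- The two square roots. -/
theorem Y_bd {g c s w : ℝ} (hs : 0 < s) (hg : g ^ 2 = 1 - s ^ 2) (hg1 : 999 / 1000 ≤ g)
    (hc : c ^ 2 = 1 - s ^ 2 * w ^ 2) (hgc : g ≤ c) (hc1 : c ≤ 1) (hw : 0 ≤ w) (hw1 : w ≤ 1) :
    -(13 / 25 * s ^ 4 * ((1 - w) ^ 2 * w)) ≤
        c - g - (1 - w) * w * (s ^ 2 / g) - (1 - g) * (1 - w) ^ 2 ∧
      c - g - (1 - w) * w * (s ^ 2 / g) - (1 - g) * (1 - w) ^ 2 ≤ s ^ 4 * ((1 - w) ^ 2 * w) ∧
      -(51 / 100 * s ^ 2 * ((1 - w) * w)) - s ^ 4 * ((1 - w) * w) ≤ 1 - c - w * (1 - g) := by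
  have g0 : 0 < g := by linarith
  have c0 : 0 < c := by linarith
  set a := 1 / (c + g) with ha
  set b := 1 / g with hb
  set d := 1 / (1 + g) with hd
  set f := 1 / (1 + c) with hf
  have ea : a * (c + g) = 1 := by rw [ha]; field_simp
  have eb : b * g = 1 := by rw [hb]; field_simp
  have ed : d * (1 + g) = 1 := by rw [hd]; field_simp
  have ef : f * (1 + c) = 1 := by rw [hf]; field_simp
  have a0 : 0 < a := by positivity
  have b0 : 0 < b := by positivity
  have d0 : 0 < d := by positivity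
  have f0 : 0 < f := by positivity
  have a1 : a ≤ 501 / 1000 := by nlinarith
  have b1 : b ≤ 1002 / 1000 := by nlinarith
  have d1 : d ≤ 501 / 1000 := by nlinarith
  have f1 : f ≤ 501 / 1000 := by nlinarith
  set u := 1 - w with hu
  have u0 : 0 ≤ u := by linarith
  have u1 : u ≤ 1 := by linarith
  -- the differences
  have D1 : c - g = s ^ 2 * u * (1 + w) * a := by
    have h1 : (c - g) * (c + g) = s ^ 2 * u * (1 + w) := by
      rw [hu]
      nlinarith
    calc c - g = (c - g) * (a * (c + g)) := by rw [ea, mul_one]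
      _ = ((c - g) * (c + g)) * a := by ring
      _ = _ := by rw [h1]
  have D2 : 1 - c = s ^ 2 * w ^ 2 * f := by
    have h1 : (1 - c) * (1 + c) = s ^ 2 * w ^ 2 := by nlinarith
    calc 1 - c = (1 - c) * (f * (1 + c)) := by rw [ef, mul_one]
      _ = ((1 - c) * (1 + c)) * f := by ring
      _ = _ := by rw [h1]
  have D3 : 1 - g = s ^ 2 * d := by
    have h1 : (1 - g) * (1 + g) = s ^ 2 := by nlinarith
    calc 1 - g = (1 - g) * (d * (1 + g)) := by rw [ed, mul_one]
      _ = ((1 - g) * (1 + g)) * d := by ring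
      _ = _ := by rw [h1]
  have ez : s ^ 2 / g = s ^ 2 * b := by rw [hb]; ring
  -- differences of the inverses
  have E1 : a - d = (1 - c) * (a * d) := by
    linear_combination d * ea - a * ed
  have E2 : 2 * a - b = -(a * b * (c - g)) := by
    linear_combination b * ea - 2 * a * eb
  have E3 : f - d = -((c - g) * (f * d)) := by
    linear_combination d * ef - f * ed
  have s2 : 0 < s ^ 2 := by positivity
  have key : c - g - u * w * (s ^ 2 / g) - (1 - g) * u ^ 2 =
      s ^ 2 * u * (u * ((s ^ 2 * w ^ 2 * f) * (a * d)) - w * (a * b * (s ^ 2 * u * (1 + w) * a))) := by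
    have h1 : c - g - u * w * (s ^ 2 / g) - (1 - g) * u ^ 2 =
        s ^ 2 * u * (u * (a - d) + w * (2 * a - b)) := by
      rw [ez, D1, D3, hu]
      ring
    rw [h1, E1, E2, D1, D2]
    ring
  have P : 0 ≤ s ^ 4 * (u ^ 2 * w) := by positivity
  refine ⟨?_, ?_, ?_⟩
  · rw [key]
    have h1 : a * b * a * (1 + w) ≤ 13 / 25 := by
      have h2 : a * b ≤ 501 / 1000 * (1002 / 1000) := mul_le_mul a1 b1 b0.le (by norm_num)
      have h3 : a * b * a ≤ 501 / 1000 * (1002 / 1000) * (501 / 1000) :=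
        mul_le_mul h2 a1 a0.le (by norm_num)
      have h4 := mul_le_mul h3 (by linarith : 1 + w ≤ 2) (by linarith) (by norm_num)
      linarith
    have h5 : 0 ≤ s ^ 2 * u * (u * ((s ^ 2 * w ^ 2 * f) * (a * d))) := by positivity
    have h6 := mul_le_mul_of_nonneg_left h1 P
    have e1 : s ^ 2 * u * (u * ((s ^ 2 * w ^ 2 * f) * (a * d)) -
        w * (a * b * (s ^ 2 * u * (1 + w) * a))) =
        s ^ 2 * u * (u * ((s ^ 2 * w ^ 2 * f) * (a * d))) -
          s ^ 4 * (u ^ 2 * w) * (a * b * a * (1 + w)) := by ring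
    rw [e1]
    linarith
  · rw [key]
    have h1 : f * (a * d) * w ≤ 1 := by
      have h2 : a * d ≤ 1 * 1 := mul_le_mul (by linarith) (by linarith) d0.le (by norm_num)
      have h3 : f * (a * d) ≤ 1 * (1 * 1) := mul_le_mul (by linarith) h2 (by positivity) (by norm_num)
      have h4 := mul_le_mul h3 hw1 hw (by norm_num)
      linarith
    have h5 : 0 ≤ s ^ 2 * u * (w * (a * b * (s ^ 2 * u * (1 + w) * a))) := by positivity
    have h6 := mul_le_mul_of_nonneg_left h1 P
    have e1 : s ^ 2 * u * (u * ((s ^ 2 * w ^ 2 * f) * (a * d)) -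
        w * (a * b * (s ^ 2 * u * (1 + w) * a))) =
        s ^ 4 * (u ^ 2 * w) * (f * (a * d) * w) -
          s ^ 2 * u * (w * (a * b * (s ^ 2 * u * (1 + w) * a))) := by ring
    rw [e1]
    linarith
  · have e1 : 1 - c - w * (1 - g) = -(s ^ 2 * (u * w) * (f + d * f * (s ^ 2 * (1 + w) * a))) := by
      have h1 : 1 - c - w * (1 - g) = s ^ 2 * w * ((f - d) - u * f) := by
        rw [D2, D3, hu]
        ring
      rw [h1, E3, D1]
      ring
    rw [e1]
    have h1 : d * f * ((1 + w) * a) ≤ 1 := by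
      have h2 : d * f ≤ 501 / 1000 * 1 := mul_le_mul d1 (by linarith) f0.le (by norm_num)
      have h3 : (1 + w) * a ≤ 2 * (501 / 1000) := mul_le_mul (by linarith) a1 a0.le (by norm_num)
      have h4 := mul_le_mul h2 h3 (by positivity) (by norm_num)
      linarith
    have Q : 0 ≤ s ^ 2 * (u * w) := by positivity
    have Q2 : 0 ≤ s ^ 4 * (u * w) := by positivity
    have h5 := mul_le_mul_of_nonneg_left (by linarith : f ≤ 51 / 100) Q
    have h6 := mul_le_mul_of_nonneg_left h1 Q2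
    have e2 : s ^ 2 * (u * w) * (f + d * f * (s ^ 2 * (1 + w) * a)) =
        s ^ 2 * (u * w) * f + s ^ 4 * (u * w) * (d * f * ((1 + w) * a)) := by ring
    rw [e2]
    linarith

/-- **The unit circle at the floor** for heights up to `s`. -/
theorem c1_low {s μ T : ℝ} (hs : 0 < s) (hs1 : s ≤ 11 / 400) (m0 : 0 ≤ μ) (m1 : μ ≤ 201 / 1000)
    (hT : 0 ≤ T) (hTs : T ≤ s) :
    0 ≤ FV s μ (c1 T) T ((we s + μ * wq s) * RA par s T + μ * (wq s * (r2 par s * taper (T / s))))
      (s ^ 2 * xA par s (T / s)) (T / s - 1) := by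
  obtain ⟨eg, a, -, -⟩ := g_facts hs hs1
  have b := g_low hs hs1
  obtain ⟨E1, E2, Q0, Q1⟩ := const_bd hs hs1
  have hh := h0_pos
  have g1 := h0_gt
  have g2 := h0_lt
  have xl := xm_low hs hs1
  set w := T / s with hw
  have w0 : 0 ≤ w := by positivity
  have w1 : w ≤ 1 := by
    rw [hw, div_le_one hs]
    exact hTs
  have eT : T = s * w := by rw [hw]; field_simp
  have hT1 : T ≤ 1 := by linarith
  have ec := c1_sq hT hT1
  have c0 := c1_nonneg T
  have hc : c1 T ^ 2 = 1 - s ^ 2 * w ^ 2 := by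
    rw [eT] at ec ⊢
    linarith
  have hc1 : c1 T ≤ 1 := by nlinarith
  have hgc : g s ≤ c1 T := by
    have h1 : s ^ 2 * w ^ 2 ≤ s ^ 2 := by
      have : w ^ 2 ≤ 1 := by nlinarith
      nlinarith
    exact le_of_sq_le_sq' (by linarith) c0 (by linarith)
  obtain ⟨y1, y2, y3⟩ := Y_bd hs eg (by linarith) hc hgc hc1 w0 w1
  have e1 : RA par s T = 1 - s * w * (2 + par.d0 + par.d1 * w) := by
    unfold RA dc
    rw [← hw, if_pos w1, eT]
    ring
  have e2 : taper w = w := if_pos w1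
  have e3 : s ^ 2 * xA par s w =
      w * (2 * wq s - s ^ 2 * xm par s + (s ^ 2 * xm par s - wq s) * w) := by
    unfold xA x0
    rw [if_pos (by linarith), if_pos w1, ← rel_x1 hs hs1]
    ring
  have hκ : 436 / 1000 / h0 = 2 + par.d0 + par.d1 := by
    rw [← par_one]
    ring
  obtain ⟨β0, β1⟩ := par_d1
  have key := low_id (c := c1 T) (w := w) (μ := μ) hκ (rel_E (s := s)) (show wq s = _ from rfl)
    (rel_xm hs hs1) (rel_r2 hs hs1)
  have e4 : FV s μ (c1 T) T ((we s + μ * wq s) * RA par s T + μ * (wq s * (r2 par s * taper w)))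
      (s ^ 2 * xA par s w) (w - 1) =
      c1 T * (1 / 2 - we s - μ * wq s + s * w * (1 / (2 * h0))) -
        (((we s + μ * wq s) * (1 - s * w * (2 + par.d0 + par.d1 * w)) +
            μ * (wq s * r2 par s * w)) * (w - 1) +
          ((1 / 2 - g s * μ) - μ * ((s * w - s) * (1 / (2 * h0)))) *
            (w * (2 * wq s - s ^ 2 * xm par s + (s ^ 2 * xm par s - wq s) * w))) - 1 / 2 := by
    unfold FV
    rw [e1, e2, e3]
    nth_rewrite 2 [eT]
    nth_rewrite 2 [eT]
    ring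
  rw [e4, key]
  -- the bounds
  set k := 1 / (2 * h0) with hk
  have k1 : 577 / 1000 ≤ k := by
    rw [hk, le_div_iff₀ (by positivity)]
    linarith
  have k2 : k ≤ 578 / 1000 := by
    rw [hk, div_le_iff₀ (by positivity)]
    linarith
  set u := 1 - w with hu
  have u0 : 0 ≤ u := by linarith
  have P : 0 ≤ s ^ 2 * (u ^ 2 * w) := by positivity
  have s2 : s ^ 2 ≤ 1 / 1000 := by nlinarith
  set Y1 := c1 T - g s - u * w * (s ^ 2 / g s) - (1 - g s) * u ^ 2 with hY1
  set Y2 := 1 - c1 T - w * (1 - g s) with hY2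
  have t1 : -(1 / 1000 * (s ^ 2 * (u ^ 2 * w))) ≤ (3 / 2 - g s) * Y1 := by
    have h1 : -(13 / 25000 * (s ^ 2 * (u ^ 2 * w))) ≤ Y1 := by
      refine le_trans ?_ y1
      have := mul_le_mul_of_nonneg_left s2 P
      have e5 : s ^ 4 * (u ^ 2 * w) = s ^ 2 * (u ^ 2 * w) * s ^ 2 := by ring
      rw [mul_assoc, e5]
      linarith
    have h2 := mul_le_mul_of_nonneg_left h1 (by linarith : 0 ≤ 3 / 2 - g s)
    have h3 := mul_le_mul_of_nonneg_right (by linarith : 3 / 2 - g s ≤ 1) P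
    nlinarith
  have t2 : -(2 / 100 * (s ^ 2 * (u ^ 2 * w))) ≤ k * s * u * Y2 := by
    have h1 : 0 ≤ k * s * u := by positivity
    have h2 := mul_le_mul_of_nonneg_left y3 h1
    refine le_trans ?_ h2
    have e5 : k * s * u * (-(51 / 100 * s ^ 2 * (u * w)) - s ^ 4 * (u * w)) =
        -(s ^ 2 * (u ^ 2 * w) * (k * s * (51 / 100 + s ^ 2))) := by ring
    rw [e5]
    have h3 : k * s * (51 / 100 + s ^ 2) ≤ 2 / 100 := by
      have : k * s ≤ 578 / 1000 * (11 / 400) := mul_le_mul k2 hs1 hs.le (by norm_num)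
      have := mul_le_mul this (by linarith : 51 / 100 + s ^ 2 ≤ 511 / 1000) (by positivity)
        (by norm_num)
      linarith
    have := mul_le_mul_of_nonneg_left h3 P
    linarith
  have t3 : 7 / 100 * (s ^ 2 * (u ^ 2 * w)) ≤ we s * u ^ 2 * s * w * par.d1 := by
    have h1 := mul_le_mul_of_nonneg_left E2 (by positivity : 0 ≤ u ^ 2 * s * w * (1281 / 10000))
    have h2 := mul_le_mul_of_nonneg_left β0
      (mul_nonneg (by linarith) (by positivity) : 0 ≤ we s * (u ^ 2 * s * w))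
    linarith
  have t4 : -(1 / 1000 * (s ^ 2 * (u ^ 2 * w))) ≤ -(wq s * Y1) := by
    have h1 : Y1 ≤ s ^ 2 * (u ^ 2 * w) := by
      refine y2.trans ?_
      have := mul_le_mul_of_nonneg_left s2 P
      have e5 : s ^ 4 * (u ^ 2 * w) = s ^ 2 * (u ^ 2 * w) * s ^ 2 := by ring
      rw [e5]
      linarith
    have h2 := mul_le_mul_of_nonneg_left h1 Q0
    have h3 := mul_le_mul_of_nonneg_right (by linarith : wq s ≤ 1 / 1000) P
    linarith
  have t5 : -(2 / 100 * (s ^ 2 * (u ^ 2 * w))) ≤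
      u ^ 2 * w * (wq s * s * (par.d1 - k) + s * k * (s ^ 2 * xm par s)) := by
    have h1 : -(2 / 100 * s ^ 2) ≤ wq s * s * (par.d1 - k) := by
      have h2 : wq s * s ≤ 501 / 1000 * s ^ 2 * (11 / 400) := mul_le_mul Q1 hs1 hs.le (by positivity)
      have h3 : 0 ≤ wq s * s := by positivity
      have h4 := mul_le_mul_of_nonneg_left (by linarith : -1 ≤ par.d1 - k) h3
      linarith
    have h4 : 0 ≤ s * k * (s ^ 2 * xm par s) := by
      have : 0 ≤ xm par s := by linarith
      positivity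
    have h5 := mul_le_mul_of_nonneg_left (by linarith :
      -(2 / 100 * s ^ 2) ≤ wq s * s * (par.d1 - k) + s * k * (s ^ 2 * xm par s))
      (by positivity : 0 ≤ u ^ 2 * w)
    linarith
  have t6 : -(1 / 100 * (s ^ 2 * (u ^ 2 * w))) ≤ μ * (-(wq s * Y1) +
      u ^ 2 * w * (wq s * s * (par.d1 - k) + s * k * (s ^ 2 * xm par s))) := by
    have h1 := mul_le_mul_of_nonneg_left (add_le_add t4 t5) m0
    have h2 := mul_le_mul_of_nonneg_right m1 P
    linarith
  linarith

end Pool.Agent.Strip051.LC.E0
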