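import Pool.Agent.Strip051.LC.E0.FlB

/-! # Small rests: the unit circle at the floor, the other heights -/

namespace Pool.Agent.Strip051.LC.E0

open Pool.Agent.StripNear Pool.Agent.StripSquare Pool.Agent.Strip051 Pool.Agent.Strip051.Sweep
open Pool.Agent.Strip051.LC.Line
open Pool.Agent.Strip051.LC.Exact (kE)

/-- The slope of the kernel next to `s`. -/
theorem slope_mid : 58 / 100 ≤ 2 + 2 * (par.d2 - (par.d0 + par.d1)) ∧
    2 + 2 * (par.d2 - (par.d0 + par.d1)) ≤ 60 / 100 := by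
  obtain ⟨a, b⟩ := par_d0
  obtain ⟨c, d⟩ := par_d1
  obtain ⟨e, f⟩ := par_d2
  constructor <;> linarith

/-- The kernel next to `s`. -/
theorem RA_mid {s w : ℝ} (hs : 0 < s) (h1 : 1 ≤ w) (h2 : w ≤ 3 / 2) :
    RA par s (s * w) = 1 - 436 / 1000 / h0 * s -
      (2 + 2 * (par.d2 - (par.d0 + par.d1))) * s * (w - 1) := by
  have e : s * w / s = w := by field_simp
  rw [← par_one]
  unfold RA
  rw [e]
  rcases h1.eq_or_lt with h | h
  · subst h
    unfold dc
    rw [if_pos le_rfl]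
    ring
  · unfold dc
    rw [if_neg h.not_ge, if_pos h2]
    unfold pl
    ring

/-- The mean next to `s`. -/
theorem mean_bd {s T : ℝ} (hs : 0 < s) (hs1 : s ≤ 11 / 400) (h : s ≤ T) (h' : T ≤ h0) :
    0 ≤ (T - s) * (h0 - T) / (T * (h0 - s)) ∧
      (T - s) * (h0 - T) / (T * (h0 - s)) ≤ (T - s) / T := by
  have hh := h0_pos
  have g1 := h0_gt
  have hT : 0 < T := by linarith
  have hd : 0 < h0 - s := by linarith
  constructor
  · exact div_nonneg (mul_nonneg (by linarith) (by linarith)) (by positivity)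
  · rw [div_le_div_iff₀ (by positivity) hT]
    have : 0 ≤ (T - s) * T := mul_nonneg (by linarith) hT.le
    nlinarith

/-- The two square roots above `s`. -/
theorem Z_bd {g c s v : ℝ} (hs : 0 < s) (hg : g ^ 2 = 1 - s ^ 2) (hg1 : 9996 / 10000 ≤ g)
    (hc : c ^ 2 = 1 - s ^ 2 * (1 + v) ^ 2) (hc1 : 998 / 1000 ≤ c) (hs1 : s ≤ 11 / 400)
    (hv : 0 ≤ v) (hv1 : v ≤ 1 / 2) :
    -(6 / 10 * (s ^ 2 * v ^ 2)) ≤ c - g + v * (s ^ 2 / g) ∧ c - g + v * (s ^ 2 / g) ≤ 0 ∧
      0 ≤ g - c ∧ g - c ≤ 2 * (s ^ 2 * v) := by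
  have g0 : 0 < g := by linarith
  have c0 : 0 < c := by linarith
  set a := 1 / (c + g) with ha
  set b := 1 / g with hb
  have ea : a * (c + g) = 1 := by rw [ha]; field_simp
  have eb : b * g = 1 := by rw [hb]; field_simp
  have a0 : 0 < a := by positivity
  have b0 : 0 < b := by positivity
  have a1 : a ≤ 501 / 1000 := by nlinarith only [ea, a0, hc1, hg1]
  have b1 : b ≤ 1001 / 1000 := by nlinarith only [eb, b0, hg1]
  have D1 : g - c = s ^ 2 * v * (2 + v) * a := by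
    have h1 : (g - c) * (c + g) = s ^ 2 * v * (2 + v) := by linear_combination hg - hc
    calc g - c = (g - c) * (a * (c + g)) := by rw [ea, mul_one]
      _ = ((g - c) * (c + g)) * a := by ring
      _ = _ := by rw [h1]
  have s2 : s ^ 2 ≤ 1 / 1000 := by nlinarith only [hs, hs1]
  have Z : c - g + v * (s ^ 2 / g) =
      -(s ^ 2 * v ^ 2 * (a * b * (s ^ 2 * (2 + v) * a) + a)) := by
    have ez : s ^ 2 / g = s ^ 2 * b := by rw [hb]; ring
    have E2 : 2 * a - b = a * b * (g - c) * (-1) * (-1) := by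
      linear_combination b * ea - 2 * a * eb
    have h1 : c - g + v * (s ^ 2 / g) = -(s ^ 2 * v * ((2 * a - b) + v * a)) := by
      rw [ez]
      linear_combination (-1) * D1
    rw [h1, E2, D1]
    ring
  have P : 0 ≤ s ^ 2 * v ^ 2 := by positivity
  refine ⟨?_, ?_, ?_, ?_⟩
  · rw [Z]
    have h1 : a * b * (s ^ 2 * (2 + v) * a) + a ≤ 6 / 10 := by
      have h2 : a * b ≤ 501 / 1000 * (1001 / 1000) := mul_le_mul a1 b1 b0.le (by norm_num)
      have h3 : s ^ 2 * (2 + v) * a ≤ 1 / 1000 * 3 * (501 / 1000) :=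
        mul_le_mul (mul_le_mul s2 (by linarith) (by linarith) (by norm_num)) a1 a0.le (by norm_num)
      have h4 := mul_le_mul h2 h3 (by positivity) (by norm_num)
      linarith
    have := mul_le_mul_of_nonneg_left h1 P
    linarith
  · rw [Z]
    have : 0 ≤ s ^ 2 * v ^ 2 * (a * b * (s ^ 2 * (2 + v) * a) + a) := by positivity
    linarith
  · rw [D1]
    positivity
  · rw [D1]
    have h3 : (2 + v) * a ≤ 5 / 2 * (501 / 1000) := mul_le_mul (by linarith) a1 a0.le (by norm_num)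
    have h4 := mul_le_mul_of_nonneg_left h3 (by positivity : 0 ≤ s ^ 2 * v)
    have : 0 ≤ s ^ 2 * v := by positivity
    linarith

theorem W_bd1 {s v M A κ : ℝ} (hs : 0 < s) (hs1 : s ≤ 11 / 400) (v1 : v ≤ 1 / 2)
    (M0 : 0 ≤ M) (M2 : M * (1 + v) ≤ v) (M3 : M ≤ v) (hκ : κ ≤ 52 / 100)
    (A1 : A ≤ 1 - κ * s) :
    6 / 10 * v ^ 2 ≤ (1 - κ * s) * v - A * M := by
  have h1 : A * M ≤ (1 - κ * s) * M := mul_le_mul_of_nonneg_right A1 M0
  have h0 : κ * s ≤ 52 / 100 * s := mul_le_mul_of_nonneg_right hκ hs.le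
  have h2 : v ^ 2 ≤ (v - M) * (1 + v) := by linarith
  have h3 : 0 ≤ (v - M) * (1 / 2 - v) := mul_nonneg (by linarith) (by linarith)
  have h4 : 2 / 3 * v ^ 2 ≤ v - M := by linarith
  have h5 : 98 / 100 * (v - M) ≤ (1 - κ * s) * (v - M) :=
    mul_le_mul_of_nonneg_right (by linarith) (by linarith)
  have : 0 ≤ v ^ 2 := sq_nonneg v
  linarith

theorem k_bd : 577 / 1000 ≤ 1 / (2 * h0) ∧ 1 / (2 * h0) ≤ 578 / 1000 := by
  have hh := h0_pos
  have g1 := h0_gt
  have g2 := h0_lt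
  constructor
  · rw [le_div_iff₀ (by positivity)]
    linarith
  · rw [div_le_iff₀ (by positivity)]
    linarith

/-- The final estimate of `c1_mid`. -/
theorem mid_sum {s v M A B k g c z E q μ XM R κ : ℝ} (hs : 0 < s) (hs1 : s ≤ 11 / 400)
    (m0 : 0 ≤ μ) (v0 : 0 ≤ v) (hg : g ≤ 1) (hg0 : 9996 / 10000 ≤ g)
    (hk0 : 0 ≤ k) (hk : k ≤ 578 / 1000) (Z1 : -(6 / 10 * (s ^ 2 * v ^ 2)) ≤ c - g + v * z)
    (Z2 : c - g + v * z ≤ 0) (G1 : g - c ≤ 2 * (s ^ 2 * v))
    (hE : 56 / 100 * s ≤ E) (W : 6 / 10 * v ^ 2 ≤ (1 - κ * s) * v - A * M)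
    (hq : 0 ≤ q) (hX : 0 ≤ XM)
    (W2 : 0 ≤ v * (q * (1 - κ * s) + R) - q * (A + B) * M) :
    0 ≤ (3 / 2 - g) * (c - g + v * z) - s * k * v * (g - c) +
        E * ((1 - κ * s) * v - A * M) +
        μ * (q * (g - c - v * z) + (v * (q * (1 - κ * s) + R) - q * (A + B) * M) +
          k * s * XM * v ^ 2) := by
  have P : 0 ≤ s * v ^ 2 := by positivity
  have T1 : -(2 / 100 * (s * v ^ 2)) ≤ (3 / 2 - g) * (c - g + v * z) := by
    have h1 := mul_le_mul_of_nonneg_left Z1 (by linarith : 0 ≤ 3 / 2 - g)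
    have h3 : s ^ 2 * v ^ 2 ≤ 11 / 400 * (s * v ^ 2) := by
      have := mul_le_mul_of_nonneg_right hs1 P
      linarith
    have h4 : (3 / 2 - g) * (6 / 10 * (s ^ 2 * v ^ 2)) ≤ 51 / 100 * (6 / 10 * (s ^ 2 * v ^ 2)) :=
      mul_le_mul_of_nonneg_right (by linarith) (by positivity)
    linarith
  have T2 : s * k * v * (g - c) ≤ 2 / 100 * (s * v ^ 2) := by
    have h1 := mul_le_mul_of_nonneg_left G1 (by positivity : 0 ≤ s * k * v)
    have h2 : k * s ^ 2 ≤ 578 / 1000 * (1 / 1000) :=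
      mul_le_mul hk (by nlinarith only [hs, hs1]) (by positivity) (by norm_num)
    have h3 := mul_le_mul_of_nonneg_left h2 P
    have e : s * k * v * (2 * (s ^ 2 * v)) = 2 * (s * v ^ 2 * (k * s ^ 2)) := by ring
    linarith
  have T3 : 3 / 10 * (s * v ^ 2) ≤ E * ((1 - κ * s) * v - A * M) := by
    have h1 := mul_le_mul hE W (by positivity) (by linarith)
    have e : 56 / 100 * s * (6 / 10 * v ^ 2) = 336 / 1000 * (s * v ^ 2) := by ring
    linarith
  have T4 : 0 ≤ q * (g - c - v * z) := mul_nonneg hq (by linarith)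
  have T5 : 0 ≤ k * s * XM * v ^ 2 := by positivity
  have T6 := mul_nonneg m0 (add_nonneg (add_nonneg T4 W2) T5)
  linarith

theorem c1_mid {s μ T : ℝ} (hs : 0 < s) (hs1 : s ≤ 11 / 400) (m0 : 0 ≤ μ)
    (hT : s ≤ T) (hTs : T ≤ 3 / 2 * s) :
    0 ≤ FV s μ (c1 T) T ((we s + μ * wq s) * RA par s T + μ * (wq s * (r2 par s * taper (T / s))))
      (s ^ 2 * xA par s (T / s)) ((T - s) * (h0 - T) / (T * (h0 - s))) := by
  obtain ⟨eg, a, -, -⟩ := g_facts hs hs1
  have b := g_low hs hs1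
  obtain ⟨E1, E2, Q0, Q1⟩ := const_bd hs hs1
  have hh := h0_pos
  have g1 := h0_gt
  have xl := xm_low hs hs1
  obtain ⟨M0, M1⟩ := mean_bd hs hs1 hT (by linarith)
  obtain ⟨rr0, rr1, -⟩ := r2_sharp hs hs1
  set M := (T - s) * (h0 - T) / (T * (h0 - s)) with hM
  set w := T / s with hw
  have eT : T = s * w := by rw [hw]; field_simp
  have w1 : 1 ≤ w := by
    rw [hw, le_div_iff₀ hs]
    linarith
  have w2 : w ≤ 3 / 2 := by
    rw [hw, div_le_iff₀ hs]
    exact hTs
  set v := w - 1 with hv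
  have v0 : 0 ≤ v := by linarith
  have v1 : v ≤ 1 / 2 := by linarith
  have eT' : T = s * (1 + v) := by rw [eT, hv]; ring
  have hT0 : 0 < T := by linarith
  have hT1 : T ≤ 1 := by linarith
  have ec := c1_sq hT0.le hT1
  have c0 := c1_nonneg T
  have hc : c1 T ^ 2 = 1 - s ^ 2 * (1 + v) ^ 2 := by
    rw [eT'] at ec ⊢
    linear_combination ec
  have hc2 : 998 / 1000 ≤ c1 T := by
    refine le_of_sq_le_sq' ?_ c0 (by norm_num)
    nlinarith only [ec, hT0, hTs, hs1]
  have e1 : RA par s T = 1 - 436 / 1000 / h0 * s -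
      (2 + 2 * (par.d2 - (par.d0 + par.d1))) * s * v := by
    rw [eT, RA_mid hs w1 w2]
  obtain ⟨l0, l1⟩ := slope_mid
  obtain ⟨o0, o1⟩ := one_bd
  have os := mul_le_mul_of_nonneg_right o1 hs.le
  set sl := 2 + 2 * (par.d2 - (par.d0 + par.d1))
  have e2 : taper w = 1 - v / 3 := by
    rcases w1.eq_or_lt with h | h
    · rw [hv, ← h]
      unfold taper
      rw [if_pos le_rfl]
      ring
    · unfold taper pl
      rw [if_neg h.not_ge, if_pos (by linarith), hv]
      ring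
  have e3 : s ^ 2 * xA par s w = wq s + s ^ 2 * xm par s * v := by
    rw [← rel_x1 hs hs1]
    rcases w1.eq_or_lt with h | h
    · rw [hv, ← h]
      unfold xA x0
      rw [if_pos (by norm_num), if_pos le_rfl]
      ring
    · unfold xA x0
      rw [if_pos w2, if_neg h.not_ge, hv]
      ring
  set A := RA par s T with hA
  set B := r2 par s * taper w with hB
  have key := high_id (c := c1 T) (v := v) (μ := μ) (A := A) (B := B) (M := M)
    (rel_E (s := s)) (show wq s = _ from rfl) (rel_xm hs hs1) (rel_r2 hs hs1)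
  have e4 : FV s μ (c1 T) T ((we s + μ * wq s) * A + μ * (wq s * B)) (s ^ 2 * xA par s w) M =
      c1 T * (1 / 2 - we s - μ * wq s + s * (1 + v) * (1 / (2 * h0))) -
        (((we s + μ * wq s) * A + μ * (wq s * B)) * M +
          ((1 / 2 - g s * μ) - μ * ((s * (1 + v) - s) * (1 / (2 * h0)))) *
            (wq s + s ^ 2 * xm par s * v)) - 1 / 2 := by
    unfold FV
    rw [e3, ← eT']
    ring
  rw [e4, key]
  -- the mean
  have M2 : M * (1 + v) ≤ v := by
    have h1 : (T - s) / T = v / (1 + v) := by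
      rw [eT', div_eq_div_iff (by positivity) (by positivity)]
      ring
    rw [h1, le_div_iff₀ (by linarith)] at M1
    exact M1
  have M3 : M ≤ v := by
    have := mul_nonneg M0 v0
    linarith
  obtain ⟨Z1, Z2, G0, G1⟩ := Z_bd hs eg b hc hc2 hs1 v0 v1
  have A1 : A ≤ 1 - 436 / 1000 / h0 * s := by
    rw [e1]
    have : 0 ≤ sl * s * v := mul_nonneg (mul_nonneg (by linarith) hs.le) v0
    linarith
  have A0 : 0 ≤ A := by
    rw [e1]
    have h1 : s * v ≤ 11 / 400 * (1 / 2) := mul_le_mul hs1 v1 v0 (by norm_num)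
    have h2 : sl * (s * v) ≤ 60 / 100 * (11 / 400 * (1 / 2)) :=
      mul_le_mul l1 h1 (by positivity) (by norm_num)
    linarith
  have B1 : B ≤ r2 par s := by
    rw [hB, e2]
    have := mul_nonneg rr0 v0
    linarith
  have B0 : 0 ≤ B := by
    rw [hB, e2]
    exact mul_nonneg rr0 (by linarith)
  have W2 : 0 ≤ v * (wq s * (1 - 436 / 1000 / h0 * s) + wq s * r2 par s) -
      wq s * (A + B) * M := by
    have h1 : (A + B) * M ≤ (1 - 436 / 1000 / h0 * s + r2 par s) * v :=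
      mul_le_mul (by linarith) M3 M0 (by linarith)
    have h2 := mul_le_mul_of_nonneg_left h1 Q0
    linarith
  exact mid_sum hs hs1 m0 v0 a b (by linarith [k_bd.1]) k_bd.2 Z1 Z2 G1 E2
    (W_bd1 hs hs1 v1 M0 M2 M3 (by linarith) A1) Q0 (by positivity) W2

end Pool.Agent.Strip051.LC.E0
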