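import Pool.Agent.Strip051.LC.E0.FlC

/-! # Small rests: the unit circle at the floor, crude estimates -/

namespace Pool.Agent.Strip051.LC.E0

open Pool.Agent.StripNear Pool.Agent.StripSquare Pool.Agent.Strip051 Pool.Agent.Strip051.Sweep
open Pool.Agent.Strip051.LC.Line
open Pool.Agent.Strip051.LC.Exact (kE)

theorem c1_par {T : ℝ} (hT : 0 ≤ T) (h : T ≤ 4331 / 10000) : 1 - 11 / 20 * T ^ 2 ≤ c1 T := by
  have e := c1_sq hT (by linarith)
  refine le_of_sq_le_sq' ?_ (c1_nonneg T) ?_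
  · have h2 : T ^ 2 ≤ 19 / 100 := by nlinarith only [hT, h]
    have h3 : 0 ≤ T ^ 2 * (1 / 10 - 121 / 400 * T ^ 2) := mul_nonneg (sq_nonneg T) (by linarith)
    linear_combination h3 - e
  · have h2 : T ^ 2 ≤ 19 / 100 := by nlinarith only [hT, h]
    linarith

theorem c1_up4331 {T : ℝ} (hT : 0 ≤ T) (h : T ≤ 4331 / 10000) :
    1 / (2 * h0) * T - 83 / 200 * T ^ 2 ≤ c1 T * (1 / 2 + 1 / (2 * h0) * T) - 1 / 2 := by
  obtain ⟨k1, k2⟩ := k_bd
  set k := 1 / (2 * h0)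
  have h1 := mul_le_mul_of_nonneg_right (c1_par hT h)
    (by positivity : 0 ≤ 1 / 2 + k * T)
  have h2 : k * T ≤ 578 / 1000 * (4331 / 10000) := mul_le_mul k2 h hT (by norm_num)
  have h3 := mul_le_mul_of_nonneg_left h2 (sq_nonneg T)
  have e : (1 - 11 / 20 * T ^ 2) * (1 / 2 + k * T) =
      1 / 2 + k * T - 11 / 40 * T ^ 2 - 11 / 20 * (T ^ 2 * (k * T)) := by ring
  have := sq_nonneg T
  linarith

/-- The main estimate for larger heights. -/
theorem far_sum {s T k : ℝ} (hs : 0 < s) (hs1 : s ≤ 11 / 400) (hT : 3 / 2 * s ≤ T)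
    (hT' : T ≤ 4331 / 10000) (hk : 577 / 1000 ≤ k) :
    0 ≤ k * T - 83 / 200 * T ^ 2 - s * k * (1 + (T - s) / T) - 86 / 100 * s ^ 2 := by
  have hT0 : 0 < T := by linarith
  have e : k * T - s * k * (1 + (T - s) / T) = k * (T - s) ^ 2 / T := by
    field_simp
    ring
  have key : 83 / 200 * T ^ 2 + 86 / 100 * s ^ 2 ≤ k * (T - s) ^ 2 / T := by
    rw [le_div_iff₀ hT0]
    have hk2 : 577 / 1000 * (T - s) ^ 2 ≤ k * (T - s) ^ 2 :=
      mul_le_mul_of_nonneg_right hk (sq_nonneg _)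
    have hT2 : 0 ≤ T ^ 2 := sq_nonneg T
    rcases le_total T (2 * s) with h1 | h1
    · have a1 : T ^ 2 ≤ 9 * (T - s) ^ 2 := by nlinarith only [hT, hs]
      have a2 : s ^ 2 * T ≤ 4 / 9 * T ^ 2 * T := by
        have : s ^ 2 ≤ 4 / 9 * T ^ 2 := by nlinarith only [hT, hs]
        exact mul_le_mul_of_nonneg_right this hT0.le
      have a3 : T ^ 2 * T ≤ T ^ 2 * (55 / 1000) := mul_le_mul_of_nonneg_left (by linarith) hT2
      linarith
    · have a2 : s ^ 2 * T ≤ 1 / 4 * T ^ 2 * T := by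
        have : s ^ 2 ≤ 1 / 4 * T ^ 2 := by nlinarith only [h1, hs]
        exact mul_le_mul_of_nonneg_right this hT0.le
      rcases le_total T (15 / 100) with h2 | h2
      · have a1 : T ^ 2 ≤ 4 * (T - s) ^ 2 := by nlinarith only [h1, hs]
        have a3 : T ^ 2 * T ≤ T ^ 2 * (15 / 100) := mul_le_mul_of_nonneg_left h2 hT2
        linarith
      · have a1 : 2 / 3 * T ^ 2 ≤ (T - s) ^ 2 := by
          have : 8166 / 10000 * T ≤ T - s := by linarith
          nlinarith only [this, hT0]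
        have a3 : T ^ 2 * T ≤ T ^ 2 * (4331 / 10000) := mul_le_mul_of_nonneg_left hT' hT2
        have a4 : s ^ 2 * T ≤ 34 / 1000 * T ^ 2 * T := by
          have : s ^ 2 ≤ 34 / 1000 * T ^ 2 := by nlinarith only [h2, hs, hs1]
          exact mul_le_mul_of_nonneg_right this hT0.le
        linarith
  linarith

/-- A lower bound of the value. -/
theorem FV_ge {s μ X T r x M : ℝ} (hs : 0 < s) (hs1 : s ≤ 11 / 400) (m0 : 0 ≤ μ)
    (m1 : μ ≤ 201 / 1000) (hT : 0 ≤ T) (hx : 0 ≤ x) :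
    X * (1 / 2 + 1 / (2 * h0) * T) - 1 / 2 - X * (we s + μ * wq s) - r * M - 1 / 2 * x ≤
      FV s μ X T r x M := by
  obtain ⟨k1, k2⟩ := k_bd
  have b := g_low hs hs1
  have h1 : 0 ≤ (g s * μ + μ * ((T - s) / (2 * h0))) * x := by
    refine mul_nonneg ?_ hx
    have e : g s * μ + μ * ((T - s) / (2 * h0)) = μ * (g s + 1 / (2 * h0) * T - s * (1 / (2 * h0))) := by
      ring
    rw [e]
    refine mul_nonneg m0 ?_
    have : 0 ≤ 1 / (2 * h0) * T := by positivity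
    have : s * (1 / (2 * h0)) ≤ 11 / 400 * (578 / 1000) :=
      mul_le_mul hs1 k2 (by linarith) (by norm_num)
    linarith
  unfold FV
  have e : X * (1 / 2 - we s - μ * wq s + T / (2 * h0)) = X * (1 / 2 + 1 / (2 * h0) * T) -
      X * (we s + μ * wq s) := by ring
  rw [e]
  linarith

/-- The bound of the second order terms. -/
theorem muq {s μ : ℝ} (hs : 0 < s) (hs1 : s ≤ 11 / 400) (m0 : 0 ≤ μ) (m1 : μ ≤ 201 / 1000) :
    0 ≤ μ * wq s ∧ μ * wq s ≤ 101 / 1000 * s ^ 2 ∧ μ * wq s ≤ 1 / 10000 ∧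
      μ * wq s ≤ 3 / 1000 * s := by
  obtain ⟨-, -, Q0, Q1⟩ := const_bd hs hs1
  have h1 : μ * wq s ≤ 201 / 1000 * (501 / 1000 * s ^ 2) := mul_le_mul m1 Q1 Q0 (by norm_num)
  have h2 : s ^ 2 ≤ 11 / 400 * s := by nlinarith only [hs, hs1]
  have := sq_nonneg s
  exact ⟨mul_nonneg m0 Q0, by linarith, by linarith, by linarith⟩

theorem c1_far {s μ T A B x M : ℝ} (hs : 0 < s) (hs1 : s ≤ 11 / 400) (m0 : 0 ≤ μ)
    (m1 : μ ≤ 201 / 1000) (hT : 3 / 2 * s ≤ T) (hT' : T ≤ 4331 / 10000) (A1 : A ≤ 1)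
    (B1 : B ≤ 1 / 4) (M0 : 0 ≤ M) (M1 : M ≤ (T - s) / T)
    (x0 : 0 ≤ x) (xx : x ≤ 32 / 25 * s ^ 2) :
    0 ≤ FV s μ (c1 T) T ((we s + μ * wq s) * A + μ * (wq s * B)) x M := by
  have hT0 : 0 < T := by linarith
  obtain ⟨q0, q1, -, -⟩ := muq hs hs1 m0 m1
  obtain ⟨k1, k2⟩ := k_bd
  obtain ⟨E1, E2, -, -⟩ := const_bd hs hs1
  refine le_trans ?_ (FV_ge hs hs1 m0 m1 hT0.le x0)
  have e0 : 0 ≤ we s := by linarith
  have ec := c1_sq hT0.le (by linarith)
  have c0 := c1_nonneg T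
  have cl : c1 T ≤ 1 := le_of_sq_le_sq' (by linarith [sq_nonneg T]) one_pos.le c0
  have M2 : M ≤ 1 := by
    refine M1.trans ?_
    rw [div_le_one hT0]
    linarith
  have t1 : c1 T * (we s + μ * wq s) ≤ we s + μ * wq s := by
    have := mul_le_mul_of_nonneg_right cl (by linarith : 0 ≤ we s + μ * wq s)
    linarith
  have t2 : ((we s + μ * wq s) * A + μ * (wq s * B)) * M ≤
      we s * ((T - s) / T) + 5 / 4 * (μ * wq s) := by
    have h1 : (we s + μ * wq s) * A + μ * (wq s * B) ≤ we s + 5 / 4 * (μ * wq s) := by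
      have h2 := mul_le_mul_of_nonneg_left A1 (by linarith : 0 ≤ we s + μ * wq s)
      have h3 := mul_le_mul_of_nonneg_left B1 q0
      linarith
    have h4 := mul_le_mul_of_nonneg_right h1 M0
    have h5 := mul_le_mul_of_nonneg_left M1 e0
    have h6 := mul_le_mul_of_nonneg_left M2 q0
    linarith
  have h7 := c1_up4331 hT0.le hT'
  have h8 := far_sum hs hs1 hT hT' k1
  have h9 : we s * (1 + (T - s) / T) ≤ s * (1 / (2 * h0)) * (1 + (T - s) / T) - s ^ 2 / 2 := by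
    have hm : 0 ≤ (T - s) / T := M0.trans M1
    have h10 := mul_le_mul_of_nonneg_right E1 (by linarith : 0 ≤ 1 + (T - s) / T)
    have h11 : 0 ≤ s ^ 2 / 2 * ((T - s) / T) := by positivity
    linarith
  have := sq_nonneg s
  linarith

/-- The growth next to the horizontal direction. -/
theorem c1_mono {s μ T A B x : ℝ} (hs : 0 < s) (hs1 : s ≤ 11 / 400) (m0 : 0 ≤ μ)
    (m1 : μ ≤ 201 / 1000) (hT : 0 ≤ T) (hT' : T ≤ 4331 / 10000) (A1 : A ≤ 1)
    (B1 : B ≤ 1 / 4) (x0 : 0 ≤ x) :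
    2 * h0 * ((we s + μ * wq s) * A + μ * (wq s * B)) ≤ (c1 T + μ * x) * max s |T| := by
  have hh := h0_pos
  have g1 := h0_gt
  have g2 := h0_lt
  obtain ⟨q0, q1, -, -⟩ := muq hs hs1 m0 m1
  obtain ⟨E1, E2, -, -⟩ := const_bd hs hs1
  have e0 : 0 ≤ we s := by linarith
  have h1 : (we s + μ * wq s) * A + μ * (wq s * B) ≤ we s + 5 / 4 * (μ * wq s) := by
    have h2 := mul_le_mul_of_nonneg_left A1 (by linarith : 0 ≤ we s + μ * wq s)
    have h3 := mul_le_mul_of_nonneg_left B1 q0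
    linarith
  have h2 : 2 * h0 * we s ≤ s - 866 / 1000 * s ^ 2 := by
    have h3 := mul_le_mul_of_nonneg_left E1 (by positivity : 0 ≤ 2 * h0)
    have e : 2 * h0 * (s * (1 / (2 * h0)) - s ^ 2 / 2) = s - h0 * s ^ 2 := by
      field_simp
    have := mul_le_mul_of_nonneg_right g1.le (sq_nonneg s)
    linarith
  have h3 : 2 * h0 * (5 / 4 * (μ * wq s)) ≤ 22 / 100 * s ^ 2 := by
    have h4 : 2 * h0 * (5 / 4 * (μ * wq s)) ≤ 2 * (8661 / 10000) * (5 / 4 * (101 / 1000 * s ^ 2)) :=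
      mul_le_mul (by linarith) (by linarith) (by positivity) (by norm_num)
    have := sq_nonneg s
    linarith
  have h4 := mul_le_mul_of_nonneg_left h1 (by positivity : 0 ≤ 2 * h0)
  have hc := c1_par hT hT'
  have key : s - s ^ 2 * s ≤ c1 T * max s |T| := by
    rw [abs_of_nonneg hT]
    rcases le_total T s with h | h
    · rw [max_eq_left h]
      have h5 : 1 - s ^ 2 ≤ c1 T := by nlinarith only [h, hT, hc, hs]
      have := mul_le_mul_of_nonneg_right h5 hs.le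
      linarith
    · rw [max_eq_right h]
      have h5 := mul_le_mul_of_nonneg_right hc hT
      have h6 : 0 ≤ (T - s) * (1 - 11 / 20 * (T ^ 2 + T * s + s ^ 2)) := by
        refine mul_nonneg (by linarith) ?_
        nlinarith only [hT, hT', hs, hs1]
      have : 0 ≤ s ^ 2 * s := by positivity
      linarith
  have h7 : c1 T * max s |T| ≤ (c1 T + μ * x) * max s |T| := by
    refine mul_le_mul_of_nonneg_right ?_ (hs.le.trans (le_max_left _ _))
    have := mul_nonneg m0 x0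
    linarith
  have h8 : s ^ 2 * s ≤ s ^ 2 * (11 / 400) := mul_le_mul_of_nonneg_left hs1 (sq_nonneg s)
  have := sq_nonneg s
  linarith

end Pool.Agent.Strip051.LC.E0
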