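import Pool.Agent.Strip051.LC.E0.FlD

/-! # Small rests: the floor, general estimates, the unit circle below `60` degrees -/

namespace Pool.Agent.Strip051.LC.E0

open Pool.Agent.StripNear Pool.Agent.StripSquare Pool.Agent.Strip051 Pool.Agent.Strip051.Sweep
open Pool.Agent.Strip051.LC.Line
open Pool.Agent.Strip051.LC.Exact (kE)

/-- The factor of the kernel. -/
theorem E_bd {s μ : ℝ} (hs : 0 < s) (hs1 : s ≤ 11 / 400) (m0 : 0 ≤ μ) (m1 : μ ≤ 201 / 1000) :
    0 ≤ we s + μ * wq s ∧ we s + μ * wq s ≤ 161 / 10000 ∧ we s + μ * wq s ≤ 58 / 100 * s ∧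
      2 * h0 * (we s + μ * wq s) ≤ s - 69 / 100 * s ^ 2 ∧
      0 ≤ 2 * h0 * (μ * wq s) ∧ 2 * h0 * (μ * wq s) ≤ 175 / 1000 * s ^ 2 := by
  have hh := h0_pos
  have g1 := h0_gt
  have g2 := h0_lt
  obtain ⟨q0, q1, q2, -⟩ := muq hs hs1 m0 m1
  obtain ⟨E1, E2, -, -⟩ := const_bd hs hs1
  obtain ⟨e0, e1⟩ := we_bd hs hs1
  obtain ⟨k1, k2⟩ := k_bd
  have h2 : 2 * h0 * we s ≤ s - 866 / 1000 * s ^ 2 := by
    have h3 := mul_le_mul_of_nonneg_left E1 (by positivity : 0 ≤ 2 * h0)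
    have e : 2 * h0 * (s * (1 / (2 * h0)) - s ^ 2 / 2) = s - h0 * s ^ 2 := by
      field_simp
    have := mul_le_mul_of_nonneg_right g1.le (sq_nonneg s)
    linarith
  have h3 : 2 * h0 * (μ * wq s) ≤ 175 / 1000 * s ^ 2 := by
    have h4 : 2 * h0 * (μ * wq s) ≤ 2 * (8661 / 10000) * (101 / 1000 * s ^ 2) :=
      mul_le_mul (by linarith) q1 (by positivity) (by norm_num)
    have := sq_nonneg s
    linarith
  have h5 : s * (1 / (2 * h0)) ≤ s * (578 / 1000) := mul_le_mul_of_nonneg_left k2 hs.le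
  have := sq_nonneg s
  exact ⟨by linarith, by linarith, by linarith, by linarith, by positivity, h3⟩

/-- A lower bound of the value. -/
theorem FV_ge' {s μ X T r x y M : ℝ} (hs : 0 < s) (hs1 : s ≤ 11 / 400) (m0 : 0 ≤ μ)
    (m1 : μ ≤ 201 / 1000) (hT : 0 ≤ T) (hT1 : T ≤ 1) (hy : 0 ≤ y) (hx : x ≤ y) :
    X * (1 / 2 + 1 / (2 * h0) * T) - 1 / 2 - X * (we s + μ * wq s) - r * M - 1 / 2 * y ≤
      FV s μ X T r x M := by
  obtain ⟨k1, k2⟩ := k_bd
  have b := g_low hs hs1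
  obtain ⟨-, a, -, -⟩ := g_facts hs hs1
  set χ := (1 / 2 - g s * μ) - μ * ((T - s) / (2 * h0)) with hχ
  have e : χ = 1 / 2 - μ * (g s + 1 / (2 * h0) * T - s * (1 / (2 * h0))) := by
    rw [hχ]
    ring
  have u0 : 0 ≤ 1 / (2 * h0) * T := by positivity
  have u1 : 1 / (2 * h0) * T ≤ 578 / 1000 * 1 := mul_le_mul k2 hT1 hT (by norm_num)
  have u2 : s * (1 / (2 * h0)) ≤ 11 / 400 * (578 / 1000) :=
    mul_le_mul hs1 k2 (by linarith) (by norm_num)
  have u3 : 0 ≤ s * (1 / (2 * h0)) := by positivity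
  have c1' : χ ≤ 1 / 2 := by
    rw [e]
    have : 0 ≤ μ * (g s + 1 / (2 * h0) * T - s * (1 / (2 * h0))) := mul_nonneg m0 (by linarith)
    linarith
  have c0' : 0 ≤ χ := by
    rw [e]
    have : μ * (g s + 1 / (2 * h0) * T - s * (1 / (2 * h0))) ≤ 201 / 1000 * 2 :=
      mul_le_mul m1 (by linarith) (by linarith) (by norm_num)
    linarith
  have h1 : χ * x ≤ χ * y := mul_le_mul_of_nonneg_left hx c0'
  have h2 : χ * y ≤ 1 / 2 * y := mul_le_mul_of_nonneg_right c1' hy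
  unfold FV
  have e2 : X * (1 / 2 - we s - μ * wq s + T / (2 * h0)) = X * (1 / 2 + 1 / (2 * h0) * T) -
      X * (we s + μ * wq s) := by ring
  rw [e2, ← hχ]
  linarith

/-- The growth, upper side. -/
theorem mono1 {s μ X A B Y x m : ℝ} (hs : 0 < s) (hs1 : s ≤ 11 / 400) (m0 : 0 ≤ μ)
    (m1 : μ ≤ 201 / 1000) (hA : A ≤ Y) (hY : 0 ≤ Y) (hB : B ≤ 1 / 2)
    (h : (s - 69 / 100 * s ^ 2) * Y + 9 / 100 * s ^ 2 ≤ (X + μ * x) * m) :
    2 * h0 * ((we s + μ * wq s) * A + μ * (wq s * B)) ≤ (X + μ * x) * m := by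
  have hh := h0_pos
  obtain ⟨a0, -, -, a2, b0, b1⟩ := E_bd hs hs1 m0 m1
  have h1 : 2 * h0 * (we s + μ * wq s) * A ≤ 2 * h0 * (we s + μ * wq s) * Y :=
    mul_le_mul_of_nonneg_left hA (by positivity)
  have h2 := mul_le_mul_of_nonneg_right a2 hY
  have h3 : 2 * h0 * (μ * wq s) * B ≤ 2 * h0 * (μ * wq s) * (1 / 2) :=
    mul_le_mul_of_nonneg_left hB b0
  have := sq_nonneg s
  linarith

/-- The growth, lower side. -/
theorem mono2 {s μ X A B x : ℝ} (hs : 0 < s) (hs1 : s ≤ 11 / 400) (m0 : 0 ≤ μ)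
    (m1 : μ ≤ 201 / 1000) (hA : |A| ≤ 5 / 2) (hB : |B| ≤ 1 / 2) (hX : 1 / 2 ≤ X)
    (hx : -(7 / 2 * s ^ 2) ≤ x) :
    -(2 * h0 * ((we s + μ * wq s) * A + μ * (wq s * B))) ≤ (X + μ * x) * (h0 - s) ∧
      0 ≤ X + μ * x := by
  have hh := h0_pos
  have g1 := h0_gt
  obtain ⟨a0, -, -, a2, b0, b1⟩ := E_bd hs hs1 m0 m1
  have s2 : s ^ 2 ≤ 11 / 400 * s := by nlinarith only [hs, hs1]
  have s3 := sq_nonneg s
  have h1 : 2 * h0 * (we s + μ * wq s) * (-A) ≤ 2 * h0 * (we s + μ * wq s) * (5 / 2) :=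
    mul_le_mul_of_nonneg_left (by linarith [(abs_le.1 hA).1]) (by positivity)
  have h3 : 2 * h0 * (μ * wq s) * (-B) ≤ 2 * h0 * (μ * wq s) * (1 / 2) :=
    mul_le_mul_of_nonneg_left (by linarith [(abs_le.1 hB).1]) b0
  have h4 : -(1 / 100) ≤ μ * x := by
    have h5 : μ * (-x) ≤ 201 / 1000 * (7 / 2 * s ^ 2) := by
      have h6 : μ * (-x) ≤ μ * (7 / 2 * s ^ 2) := mul_le_mul_of_nonneg_left (by linarith) m0
      have h7 : μ * (7 / 2 * s ^ 2) ≤ 201 / 1000 * (7 / 2 * s ^ 2) :=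
        mul_le_mul_of_nonneg_right m1 (by positivity)
      linarith
    linarith
  have h8 : 49 / 100 * (83 / 100) ≤ (X + μ * x) * (h0 - s) :=
    mul_le_mul (by linarith) (by linarith) (by norm_num) (by linarith)
  constructor
  · linarith
  · linarith

/-! ### The unit circle below `60` degrees -/

theorem c1_60 {d : ℝ} (hd : 0 ≤ d) (hd' : d ≤ 4331 / 10000) :
    1 / 2 + 9 / 10 * d ≤ c1 (h0 - d) ∧ c1 (h0 - d) ≤ 1 / 2 + 2 * h0 * d ∧
      c1 (h0 - d) ≤ 91 / 100 := by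
  have hh := h0_pos
  have g1 := h0_gt
  have g2 := h0_lt
  have hq := h0_sq'
  have e := c1_sq (t := h0 - d) (by linarith) (by linarith)
  have c0 := c1_nonneg (h0 - d)
  have e' : c1 (h0 - d) ^ 2 = 1 / 4 + 2 * h0 * d - d ^ 2 := by linear_combination e - hq
  have hd2 : d ^ 2 ≤ 4331 / 10000 * d := by nlinarith only [hd, hd']
  have hh2 : 8660 / 10000 * d ≤ h0 * d := mul_le_mul_of_nonneg_right (by linarith) hd
  have hh3 : h0 * d ≤ 8661 / 10000 * d := mul_le_mul_of_nonneg_right (by linarith) hd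
  refine ⟨?_, ?_, ?_⟩
  · refine le_of_sq_le_sq' ?_ c0 (by positivity)
    rw [e']
    linarith
  · refine le_of_sq_le_sq' ?_ (by positivity) c0
    rw [e']
    have : (1 / 2 + 2 * h0 * d) ^ 2 = 1 / 4 + 2 * h0 * d + 3 * d ^ 2 := by
      linear_combination 4 * d ^ 2 * hq
    have := sq_nonneg d
    linarith
  · refine le_of_sq_le_sq' ?_ (by norm_num) c0
    rw [e']
    have h1 : 0 ≤ (4331 / 10000 - d) * (1732 / 1000 - 4331 / 10000 - d) :=
      mul_nonneg (by linarith) (by linarith)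
    linarith

/-- The unit circle for `h0 / 2 ≤ T ≤ h0`, the value. -/
theorem c1_up {s μ d A x : ℝ} (hs : 0 < s) (hs1 : s ≤ 11 / 400) (m0 : 0 ≤ μ)
    (m1 : μ ≤ 201 / 1000) (hd : 0 ≤ d) (hd' : d ≤ 4331 / 10000) (A1 : 1 / 2 - 5 * d ≤ A)
    (A2 : |A| ≤ 1) (x1 : x ≤ s * d) :
    0 ≤ FV s μ (c1 (h0 - d)) (h0 - d) ((we s + μ * wq s) * A) x (d / (h0 - s) - 1) := by
  have hh := h0_pos
  have g1 := h0_gt
  have g2 := h0_lt
  obtain ⟨a0, a1, -, -, -, -⟩ := E_bd hs hs1 m0 m1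
  obtain ⟨k1, k2⟩ := k_bd
  obtain ⟨u1, u2, u3⟩ := c1_60 hd hd'
  refine le_trans ?_ (FV_ge' hs hs1 m0 m1 (by linarith) (by linarith) (by positivity) x1)
  set c := c1 (h0 - d)
  set k := 1 / (2 * h0) with hk
  set E := we s + μ * wq s
  have ek : k * h0 = 1 / 2 := by
    rw [hk]
    field_simp
  have m2 : d / (h0 - s) ≤ 12 / 10 * d := by
    rw [div_le_iff₀ (by linarith)]
    have : 0 ≤ d * (12 / 10 * (h0 - s) - 1) := mul_nonneg hd (by linarith)
    linarith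
  have m3 : 0 ≤ d / (h0 - s) := div_nonneg hd (by linarith)
  set m := d / (h0 - s)
  have Am : A * m ≤ 12 / 10 * d := by
    have := mul_le_mul_of_nonneg_right (abs_le.1 A2).2 m3
    linarith
  have h1 : -(8 * d) ≤ -c + A - A * m := by
    have : 2 * h0 * d ≤ 2 * (8661 / 10000) * d := by
      have := mul_le_mul_of_nonneg_right g2.le hd
      linarith
    linarith
  have h2 : -(161 / 10000 * (8 * d)) ≤ E * (-c + A - A * m) := by
    have h3 := mul_le_mul_of_nonneg_left h1 a0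
    have h4 := mul_le_mul_of_nonneg_right a1 (by positivity : 0 ≤ 8 * d)
    linarith
  have h5 : k * (c * d) ≤ 578 / 1000 * (91 / 100 * d) := by
    have h6 : c * d ≤ 91 / 100 * d := mul_le_mul_of_nonneg_right u3 hd
    have hc : 0 ≤ c := c1_nonneg _
    exact mul_le_mul k2 h6 (by positivity) (by norm_num)
  have h7 : s * d ≤ 11 / 400 * d := mul_le_mul_of_nonneg_right hs1 hd
  have e : c * (1 / 2 + k * (h0 - d)) = c - k * (c * d) := by linear_combination c * ek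
  rw [e]
  linarith

/-- The kernel on the unit circle between `30` and `60` degrees. -/
theorem R1_60 {s d : ℝ} (hs : 0 < s) (hd : 0 ≤ d) (hd' : 1 / 2 < h0 - d) :
    1 / 2 - 2 * d ≤ R1 par s (h0 - d) ∧ R1 par s (h0 - d) ≤ c1 (h0 - d) := by
  have hh := h0_pos
  have g1 := h0_gt
  have g2 := h0_lt
  have hq := h0_sq'
  obtain ⟨u1, u2, -⟩ := c1_60 hd (by linarith)
  have e := c1_sq (t := h0 - d) (by linarith) (by linarith)
  set T := h0 - d with hT
  set c := c1 T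
  have c0 : 0 ≤ c := c1_nonneg T
  set p := h0 * c - T / 2 with hp
  set b := c / 2 + h0 * T with hb
  have eb : b ^ 2 + p ^ 2 = 1 := by
    rw [hb, hp]
    linear_combination e + (c ^ 2 + T ^ 2) * hq
  have ec : c = b / 2 + h0 * p := by
    rw [hb, hp]
    linear_combination -c * hq
  have p0 : 0 ≤ p := by
    have : h0 * (1 / 2) ≤ h0 * c := mul_le_mul_of_nonneg_left (by linarith) hh.le
    linarith
  have ch : c ≤ h0 := by
    refine le_of_sq_le_sq' ?_ hh.le c0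
    rw [hq]
    nlinarith only [e, hd']
  have p1 : p ≤ 1 / 2 := by
    have : h0 * c ≤ h0 * h0 := mul_le_mul_of_nonneg_left ch hh.le
    linarith
  have p2 : p ≤ 2 * d := by
    have h1 : h0 * c ≤ h0 * (1 / 2 + 2 * h0 * d) := mul_le_mul_of_nonneg_left u2 hh.le
    have h2 : h0 * (1 / 2 + 2 * h0 * d) = h0 / 2 + 3 / 2 * d := by linear_combination 2 * d * hq
    linarith
  have b1 : 68 / 100 ≤ b := by
    have : h0 * (1 / 2) ≤ h0 * T := mul_le_mul_of_nonneg_left hd'.le hh.le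
    linarith
  have eR : R1 par s T = RA par s p * (1 / 2 + h0 * p / (1 + b)) := by
    unfold R1
    rw [if_neg (by linarith), if_neg (by linarith)]
    have h1 : |T / 2 - h0 * c| = p := by
      rw [abs_of_nonpos (by linarith)]
      ring
    have h2 : T / 2 - h0 * c = -p := by rw [hp]; ring
    rw [h1, h2]
    ring
  have f0 : 0 ≤ h0 * p / (1 + b) := by positivity
  have r1 := RA_ge hs p0
  have r2 := RA_le hs p0
  rw [eR]
  constructor
  · have h1 : (1 - 2 * p) * (1 / 2) ≤ RA par s p * (1 / 2 + h0 * p / (1 + b)) :=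
      mul_le_mul r1 (by linarith) (by norm_num) (by linarith)
    linarith
  · have h1 : RA par s p * (1 / 2 + h0 * p / (1 + b)) ≤ 1 * (1 / 2 + h0 * p / (1 + b)) :=
      mul_le_mul_of_nonneg_right r2 (by positivity)
    refine h1.trans ?_
    rw [ec, one_mul]
    have h2 : h0 * p / (1 + b) ≤ b / 2 + h0 * p - 1 / 2 := by
      rw [div_le_iff₀ (by linarith)]
      have h3 : p ^ 2 ≤ 2 * h0 * p * b := by
        have h4 : h0 * b ≥ 1 / 2 := by
          have : h0 * (68 / 100) ≤ h0 * b := mul_le_mul_of_nonneg_left b1 hh.le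
          linarith
        have h5 := mul_le_mul_of_nonneg_left h4.le (by positivity : 0 ≤ 2 * p)
        have h6 := mul_le_mul_of_nonneg_left p1 p0
        linarith
      linarith
    linarith

end Pool.Agent.Strip051.LC.E0
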