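import Pool.Agent.Strip051.LC.E0.FlE

/-! # Small rests: the floor, heights below `h0 / 2`, the unit circle -/

namespace Pool.Agent.Strip051.LC.E0

open Pool.Agent.StripNear Pool.Agent.StripSquare Pool.Agent.Strip051 Pool.Agent.Strip051.Sweep
open Pool.Agent.Strip051.LC.Line
open Pool.Agent.Strip051.LC.Exact (kE)

/-- The kernel with the factor `μ`. -/
noncomputable def vM (μ s T : ℝ) (j : Fin 4) : ℝ :=
  ((we s + μ * wq s) * vA par s T j + μ * wq s * vR par s T j) / we s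

theorem vM_zero {s : ℝ} (he : 0 < we s) : vM 0 s = vA par s := by
  funext T j
  unfold vM
  field_simp
  ring

theorem adm_vM (μ s : ℝ) : K.adm (vM μ s) := by
  have := ((admX_vA par s).lin (admX_vR par s) ((we s + μ * wq s) / we s) (μ * wq s / we s)).adm
  have e : (fun T j => (we s + μ * wq s) / we s * vA par s T j +
      μ * wq s / we s * vR par s T j) = vM μ s := by
    funext T j
    unfold vM
    ring
  rwa [e] at this

/-- The statement for the flux in the form of the tables. -/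
theorem half_ab {s μ X T A B x M : ℝ} {R Xi : ℝ → ℝ → ℝ} (hs : 0 < s) (hs1 : s ≤ 11 / 400)
    (m0 : 0 ≤ μ) (m1 : μ ≤ 201 / 1000) (hT : 0 ≤ T)
    (hR : R X T = ((we s + μ * wq s) * A + μ * wq s * B) / we s) (hx : Xi X T = x)
    (hM : mn (D s (kE s)) 0 (tau T) = we s * M)
    (hv : 0 ≤ FV s μ X T ((we s + μ * wq s) * A + μ * (wq s * B)) x M)
    (h1 : 2 * h0 * ((we s + μ * wq s) * A + μ * (wq s * B)) ≤ (X + μ * x) * max s |tau T|)
    (hA : |A| ≤ 5 / 2) (hB : |B| ≤ 1 / 2) (hX : 1 / 2 ≤ X) (hx2 : -(7 / 2 * s ^ 2) ≤ x) :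
    Half (kE s) s μ (1 / 2 - we s - μ * wq s) R Xi (fun _ _ => 0) (fun _ => 0) 0 0 X T 0 := by
  obtain ⟨e0, -⟩ := we_bd hs hs1
  obtain ⟨a, b⟩ := mono2 hs hs1 m0 m1 hA hB hX hx2
  refine half_of hs (by linarith [h0_gt]) e0 hT hM ?_ hx hv h1 a b
  rw [hR]
  field_simp

/-! ### Bounds of the tables -/

theorem x0_pos {s w : ℝ} (hs : 0 < s) (hs1 : s ≤ 11 / 400) (hw : 0 ≤ w) :
    0 ≤ x0 par s w ∧ x0 par s w ≤ w := by
  have a1 := x1_low hs hs1
  have a2 := (x1_bd hs hs1).2
  have b1 := xm_low hs hs1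
  have b2 := (xm_bd hs hs1).2
  unfold x0
  split_ifs with h
  · have h1 : 0 ≤ (xm par s - x1 s) * w := mul_nonneg (by linarith) hw
    have h2 : (xm par s - x1 s) * w ≤ (xm par s - x1 s) * 1 :=
      mul_le_mul_of_nonneg_left h (by linarith)
    constructor
    · exact mul_nonneg hw (by linarith)
    · have := mul_le_mul_of_nonneg_left
        (by linarith : 2 * x1 s - xm par s + (xm par s - x1 s) * w ≤ 1) hw
      linarith
  · have h1 : 0 ≤ xm par s * (w - 1) := mul_nonneg (by linarith) (by linarith)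
    have h2 : xm par s * (w - 1) ≤ 1 * (w - 1) :=
      mul_le_mul_of_nonneg_right (by linarith) (by linarith)
    constructor <;> linarith

theorem xA_pos {s w : ℝ} (hs : 0 < s) (hs1 : s ≤ 11 / 400) (hw : 0 ≤ w) :
    0 ≤ xA par s w ∧ xA par s w ≤ w := by
  have a1 := x1_low hs hs1
  have a2 := (x1_bd hs hs1).2
  have b1 := xm_low hs hs1
  have b2 := (xm_bd hs hs1).2
  have e : par.a1 = 319 / 250 := rfl
  unfold xA
  rw [e]
  split_ifs with h1 h2 h3
  · exact x0_pos hs hs1 hw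
  · refine ⟨le_pl (by norm_num) (not_le.1 h1).le h2 (by linarith) (by norm_num), ?_⟩
    have := pl_le (c := 319 / 250) (by norm_num) (not_le.1 h1).le h2
      (show x1 s + xm par s / 2 ≤ 319 / 250 by linarith)
      (show (319 / 250 : ℝ) ≤ 319 / 250 from le_rfl)
    linarith
  · refine ⟨le_pl (by norm_num) (not_le.1 h2).le h3 (by norm_num) (by norm_num), ?_⟩
    have := pl_le (c := 319 / 250) (by norm_num) (not_le.1 h2).le h3
      (show (319 / 250 : ℝ) ≤ 319 / 250 from le_rfl) (show (0 : ℝ) ≤ 319 / 250 by norm_num)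
    linarith
  · exact ⟨le_rfl, hw⟩

theorem xA_far {s w : ℝ} (hw : 4 < w) : xA par s w = 0 := by
  unfold xA
  rw [if_neg (by linarith), if_neg (by linarith), if_neg (by linarith)]

theorem xW_pos {s w : ℝ} (hs : 0 < s) (hs1 : s ≤ 11 / 400) (hw : 0 ≤ w) :
    0 ≤ xW par s w ∧ xW par s w ≤ w := by
  have a1 := x1_low hs hs1
  have a2 := (x1_bd hs hs1).2
  have b1 := xm_low hs hs1
  have b2 := (xm_bd hs hs1).2
  unfold xW
  split_ifs with h1 h2
  · exact x0_pos hs hs1 hw
  · refine ⟨le_pl (by norm_num) (not_le.1 h1).le h2 (by linarith) (by norm_num), ?_⟩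
    have := pl_le (c := 5 / 4) (by norm_num) (not_le.1 h1).le h2
      (show x1 s + xm par s / 2 ≤ 5 / 4 by linarith) (show (0 : ℝ) ≤ 5 / 4 by norm_num)
    linarith
  · exact ⟨le_rfl, hw⟩

theorem xB_pos {z : ℝ} (hz : 0 ≤ z) : 0 ≤ xB par z ∧ xB par z ≤ z := by
  unfold xB par
  split_ifs with h1 h2
  · simp only
    have : 0 ≤ z * (1 - z) := mul_nonneg hz (by linarith)
    have : 0 ≤ z ^ 2 := sq_nonneg z
    constructor <;> linarith
  · refine ⟨le_pl (by norm_num) (not_le.1 h1).le h2 (by norm_num) (by norm_num), ?_⟩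
    have := pl_le (c := 1) (by norm_num) (not_le.1 h1).le h2
      (show (181 / 375 + 209 / 750 : ℝ) ≤ 1 by norm_num) (show (0 : ℝ) ≤ 1 by norm_num)
    simp only
    linarith
  · exact ⟨le_rfl, hz⟩

theorem taper_pos {z : ℝ} (hz : 0 ≤ z) : 0 ≤ taper z ∧ taper z ≤ 1 := by
  have h := taper_bd hz
  refine ⟨?_, (abs_le.1 h).2⟩
  unfold taper
  split_ifs with h1 h2
  · exact hz
  · exact le_pl (by norm_num) (not_le.1 h1).le h2 (by norm_num) (by norm_num)
  · exact le_rfl

theorem rt_pos {r c z : ℝ} (hz : 0 ≤ z) (h0 : 0 ≤ r) (h1 : r ≤ c) :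
    0 ≤ r * taper z ∧ r * taper z ≤ c := by
  obtain ⟨a, b⟩ := taper_pos hz
  refine ⟨mul_nonneg h0 a, ?_⟩
  have := mul_le_mul_of_nonneg_left b h0
  linarith

/-! ### Heights below `h0 / 2` -/

theorem tau_low {T : ℝ} (h : T < h0 / 2) : tau T = T := by
  unfold tau jn
  rw [if_pos h]
  simp

theorem tau_mid {T : ℝ} (h : h0 / 2 ≤ T) (h' : T < 3 * h0 / 2) : tau T = T - h0 := by
  unfold tau jn
  rw [if_neg (by linarith), if_pos h']
  simp

theorem low_val {s μ T : ℝ} (hs : 0 < s) (hs1 : s ≤ 11 / 400) (m0 : 0 ≤ μ)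
    (m1 : μ ≤ 201 / 1000) (hT : 0 ≤ T) (hT' : T < h0 / 2) :
    ∃ M, mn (D s (kE s)) 0 (tau T) = we s * M ∧
      0 ≤ FV s μ (c1 T) T ((we s + μ * wq s) * RA par s T +
        μ * (wq s * (r2 par s * taper (T / s)))) (s ^ 2 * xA par s (T / s)) M := by
  have hh := h0_pos
  have g1 := h0_gt
  have g2 := h0_lt
  rw [tau_low hT']
  rcases le_total T s with h | h
  · exact ⟨_, mean_low hs hs1 hT h, c1_low hs hs1 m0 m1 hT h⟩
  · refine ⟨_, mean_high hs hs1 h (by linarith), ?_⟩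
    rcases le_total T (3 / 2 * s) with h2 | h2
    · exact c1_mid hs hs1 m0 h h2
    · obtain ⟨M0, M1⟩ := mean_bd hs hs1 h (by linarith)
      have z0 : 0 ≤ T / s := by positivity
      obtain ⟨x0, -⟩ := xA_pos hs hs1 z0
      have xb := (abs_le.1 (xA_bd hs hs1 z0)).2
      obtain ⟨r0, r1, -⟩ := r2_sharp hs hs1
      refine c1_far hs hs1 m0 m1 h2 (by linarith) (RA_le hs hT) (rt_pos z0 r0 r1).2 M0 M1
        (by positivity) ?_
      have := mul_le_mul_of_nonneg_left xb (sq_nonneg s)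
      linarith

/-- The curves next to the horizontal direction. -/
theorem half_low {s μ T X : ℝ} {R Xi : ℝ → ℝ → ℝ} (hs : 0 < s) (hs1 : s ≤ 11 / 400)
    (m0 : 0 ≤ μ) (m1 : μ ≤ 201 / 1000) (hT : 0 ≤ T) (hT' : T < h0 / 2) (hX : c1 T ≤ X)
    (hR : R X T = ((we s + μ * wq s) * RA par s T +
      μ * wq s * (r2 par s * taper (T / s))) / we s)
    (hx : Xi X T = s ^ 2 * xA par s (T / s)) :
    Half (kE s) s μ (1 / 2 - we s - μ * wq s) R Xi (fun _ _ => 0) (fun _ => 0) 0 0 X T 0 := by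
  have hh := h0_pos
  have g1 := h0_gt
  have g2 := h0_lt
  obtain ⟨M, hM, hv⟩ := low_val hs hs1 m0 m1 hT hT'
  have z0 : 0 ≤ T / s := by positivity
  obtain ⟨x0, -⟩ := xA_pos hs hs1 z0
  obtain ⟨r0, r1, -⟩ := r2_sharp hs hs1
  obtain ⟨B0, B1⟩ := rt_pos z0 r0 r1
  have cp := c1_par hT (by linarith : T ≤ 4331 / 10000)
  have ch : 1 / 2 ≤ c1 T := by
    have : T ^ 2 ≤ (4331 / 10000) ^ 2 := by nlinarith only [hT, hT', g2]
    linarith
  have x0' : 0 ≤ s ^ 2 * xA par s (T / s) := by positivity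
  refine half_ab hs hs1 m0 m1 hT hR hx hM ?_ ?_ ?_ ?_ (by linarith) ?_
  · have e := FV_add s μ (c1 T) T ((we s + μ * wq s) * RA par s T +
      μ * (wq s * (r2 par s * taper (T / s)))) (s ^ 2 * xA par s (T / s)) M (X - c1 T) 0
    rw [add_sub_cancel, add_zero, zero_mul, sub_zero] at e
    rw [e]
    obtain ⟨a0, a1, -⟩ := E_bd hs hs1 m0 m1
    have : 0 ≤ (X - c1 T) * (1 / 2 - we s - μ * wq s + T / (2 * h0)) := by
      refine mul_nonneg (by linarith) ?_
      have : 0 ≤ T / (2 * h0) := by positivity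
      linarith
    linarith
  · have h := c1_mono hs hs1 m0 m1 hT (by linarith) (RA_le hs hT) B1 x0'
    rw [tau_low hT']
    refine h.trans (mul_le_mul_of_nonneg_right ?_ (hs.le.trans (le_max_left _ _)))
    linarith
  · have := RA_abs hs hT (by linarith)
    linarith
  · rw [abs_of_nonneg B0]
    linarith
  · have := sq_nonneg s
    linarith

/-! ### The unit circle below `60` degrees -/

theorem X1_up {s d : ℝ} (hs : 0 < s) (hs1 : s ≤ 11 / 400) (hd : 0 ≤ d)
    (hd' : d ≤ h0 / 2) : 0 ≤ s ^ 2 * X1 par s (h0 - d) ∧ s ^ 2 * X1 par s (h0 - d) ≤ s * d := by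
  have hh := h0_pos
  have g1 := h0_gt
  have g2 := h0_lt
  have hq := h0_sq'
  unfold X1
  split_ifs with h1 h2
  · rw [xA_far, mul_zero]
    · exact ⟨le_rfl, by positivity⟩
    · rw [lt_div_iff₀ hs]
      linarith
  · obtain ⟨u1, u2, u3⟩ := c1_60 hd (by linarith)
    have p0 : 0 ≤ h0 * c1 (h0 - d) - (h0 - d) / 2 := by
      have : h0 * (1 / 2) ≤ h0 * c1 (h0 - d) := mul_le_mul_of_nonneg_left (by linarith) hh.le
      linarith
    have p2 : h0 * c1 (h0 - d) - (h0 - d) / 2 ≤ 2 * d := by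
      have h1 : h0 * c1 (h0 - d) ≤ h0 * (1 / 2 + 2 * h0 * d) :=
        mul_le_mul_of_nonneg_left u2 hh.le
      have h2 : h0 * (1 / 2 + 2 * h0 * d) = h0 / 2 + 3 / 2 * d := by
        linear_combination 2 * d * hq
      linarith
    set z := (h0 * c1 (h0 - d) - (h0 - d) / 2) / (2 * s) with hz
    have z0 : 0 ≤ z := div_nonneg p0 (by linarith)
    have z1 : s * z ≤ d := by
      have : s * z = (h0 * c1 (h0 - d) - (h0 - d) / 2) / 2 := by
        rw [hz]
        field_simp
      rw [this]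
      linarith
    obtain ⟨b0, b1⟩ := xB_pos z0
    refine ⟨by positivity, ?_⟩
    have h3 := mul_le_mul_of_nonneg_left b1 (sq_nonneg s)
    have h4 := mul_le_mul_of_nonneg_left z1 hs.le
    linarith
  · have hd0 : d = 0 := by linarith
    subst hd0
    obtain ⟨u1, u2, -⟩ := c1_60 le_rfl (by norm_num)
    have hc : c1 (h0 - 0) = 1 / 2 := by linarith
    rw [hc]
    have e : (h0 - 0) / 2 - h0 * (1 / 2) = 0 := by ring
    rw [e, zero_div, zero_div, xA_zero, xB_zero]
    constructor <;> simp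

/-- The circle of radius one at `h0 / 2 ≤ T ≤ h0`. -/
theorem half_c1_up {s μ T : ℝ} {R Xi : ℝ → ℝ → ℝ} (hs : 0 < s) (hs1 : s ≤ 11 / 400)
    (m0 : 0 ≤ μ) (m1 : μ ≤ 201 / 1000) (hT : h0 / 2 ≤ T) (hT' : T ≤ h0)
    (hR : R (c1 T) T = ((we s + μ * wq s) * R1 par s T + μ * wq s * 0) / we s)
    (hx : Xi (c1 T) T = s ^ 2 * X1 par s T) :
    Half (kE s) s μ (1 / 2 - we s - μ * wq s) R Xi (fun _ _ => 0) (fun _ => 0) 0 0 (c1 T) T 0 := by
  have hh := h0_pos
  have g1 := h0_gt
  have g2 := h0_lt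
  obtain ⟨d, hd⟩ : ∃ d, d = h0 - T := ⟨_, rfl⟩
  have eT : T = h0 - d := by linarith
  have d0 : 0 ≤ d := by linarith
  have d1 : d ≤ h0 / 2 := by linarith
  have hM : mn (D s (kE s)) 0 (tau T) = we s * (d / (h0 - s) - 1) := by
    rw [tau_mid hT (by linarith), show T - h0 = -d by linarith]
    exact mean_neg hs hs1 d0 (by linarith)
  obtain ⟨u1, u2, u3⟩ := c1_60 d0 (by linarith)
  obtain ⟨x0, x1'⟩ := X1_up hs hs1 d0 d1
  have ab := R1_abs hs (by linarith : 0 ≤ T) (by linarith)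
  have AL : 1 / 2 - 5 * d ≤ R1 par s T := by
    rcases le_or_gt T (1 / 2) with h | h
    · linarith [(abs_le.1 ab).1]
    · have := (R1_60 hs d0 (by linarith : 1 / 2 < h0 - d)).1
      rw [← eT] at this
      linarith
  have AU : R1 par s T ≤ c1 T := by
    rcases le_or_gt T (1 / 2) with h | h
    · have h1 : R1 par s T ≤ 0 := by
        unfold R1
        rw [if_neg (by linarith), if_pos h]
        refine mul_nonpos_of_nonneg_of_nonpos (RA_nonneg hs (by linarith) h) ?_
        exact div_nonpos_of_nonpos_of_nonneg (by linarith) (by linarith)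
      exact h1.trans (c1_nonneg T)
    · have := (R1_60 hs d0 (by linarith : 1 / 2 < h0 - d)).2
      rwa [← eT] at this
  rw [← eT] at u1 u2 u3 x0 x1'
  refine half_ab hs hs1 m0 m1 (by linarith) hR hx hM ?_ ?_ ?_ (by norm_num) (by linarith) ?_
  · rw [mul_zero, mul_zero, add_zero]
    have := c1_up hs hs1 m0 m1 d0 (by linarith) (A := R1 par s T) AL ab x1'
    rwa [← eT] at this
  · refine mono1 hs hs1 m0 m1 AU (by linarith) (by norm_num) ?_
    have h1 : c1 T * s ≤ (c1 T + μ * (s ^ 2 * X1 par s T)) * max s |tau T| := by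
      have := mul_nonneg m0 x0
      exact mul_le_mul (by linarith) (le_max_left _ _) hs.le (by linarith)
    have h2 : s ^ 2 * (1 / 2) ≤ s ^ 2 * c1 T :=
      mul_le_mul_of_nonneg_left (by linarith) (sq_nonneg s)
    have := sq_nonneg s
    linarith
  · linarith
  · have := sq_nonneg s
    linarith

/-- The curve at one third between the unit circle and `W`. -/
theorem half_j1 {s μ T X : ℝ} {R Xi : ℝ → ℝ → ℝ} (hs : 0 < s) (hs1 : s ≤ 11 / 400)
    (m0 : 0 ≤ μ) (m1 : μ ≤ 201 / 1000) (hT : h0 / 2 ≤ T) (hT' : T < h0) (hX : c1 T ≤ X)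
    (hX2 : X ≤ c1 T + 1)
    (hR : R X T = ((we s + μ * wq s) * (R1 par s T + 353 / 500 * (X - c1 T)) + μ * wq s * 0) /
      we s)
    (hx : Xi X T = s ^ 2 * X1 par s T) :
    Half (kE s) s μ (1 / 2 - we s - μ * wq s) R Xi (fun _ _ => 0) (fun _ => 0) 0 0 X T 0 := by
  have hh := h0_pos
  have g1 := h0_gt
  have g2 := h0_lt
  obtain ⟨d, hd⟩ : ∃ d, d = h0 - T := ⟨_, rfl⟩
  have eT : T = h0 - d := by linarith
  have d0 : 0 ≤ d := by linarith
  have d1 : d ≤ h0 / 2 := by linarith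
  have hM : mn (D s (kE s)) 0 (tau T) = we s * (d / (h0 - s) - 1) := by
    rw [tau_mid hT (by linarith), show T - h0 = -d by linarith]
    exact mean_neg hs hs1 d0 (by linarith)
  have M0 : d / (h0 - s) - 1 ≤ 0 := by
    rw [sub_nonpos, div_le_one (by linarith)]
    linarith
  obtain ⟨u1, u2, u3⟩ := c1_60 d0 (by linarith)
  obtain ⟨x0, x1'⟩ := X1_up hs hs1 d0 d1
  have ab := R1_abs hs (by linarith : 0 ≤ T) (by linarith)
  have AL : 1 / 2 - 5 * d ≤ R1 par s T := by
    rcases le_or_gt T (1 / 2) with h | h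
    · linarith [(abs_le.1 ab).1]
    · have := (R1_60 hs d0 (by linarith : 1 / 2 < h0 - d)).1
      rw [← eT] at this
      linarith
  have AU : R1 par s T ≤ c1 T := by
    rcases le_or_gt T (1 / 2) with h | h
    · have h1 : R1 par s T ≤ 0 := by
        unfold R1
        rw [if_neg (by linarith), if_pos h]
        refine mul_nonpos_of_nonneg_of_nonpos (RA_nonneg hs (by linarith) h) ?_
        exact div_nonpos_of_nonpos_of_nonneg (by linarith) (by linarith)
      exact h1.trans (c1_nonneg T)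
    · have := (R1_60 hs d0 (by linarith : 1 / 2 < h0 - d)).2
      rwa [← eT] at this
  rw [← eT] at u1 u2 u3 x0 x1'
  obtain ⟨a0, a1, -⟩ := E_bd hs hs1 m0 m1
  refine half_ab hs hs1 m0 m1 (by linarith) hR hx hM ?_ ?_ ?_ (by norm_num) (by linarith) ?_
  · rw [mul_zero, mul_zero, add_zero]
    have h1 := c1_up hs hs1 m0 m1 d0 (by linarith) (A := R1 par s T) AL ab x1'
    rw [← eT] at h1
    have e := FV_add s μ (c1 T) T ((we s + μ * wq s) * R1 par s T) (s ^ 2 * X1 par s T)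
      (d / (h0 - s) - 1) (X - c1 T) ((we s + μ * wq s) * (353 / 500 * (X - c1 T)))
    rw [add_sub_cancel, ← mul_add] at e
    rw [e]
    have h2 : 0 ≤ (X - c1 T) * (1 / 2 - we s - μ * wq s + T / (2 * h0)) := by
      refine mul_nonneg (by linarith) ?_
      have : 0 ≤ T / (2 * h0) := div_nonneg (by linarith) (by linarith)
      linarith
    have h3 : 0 ≤ (we s + μ * wq s) * (353 / 500 * (X - c1 T)) * -(d / (h0 - s) - 1) :=
      mul_nonneg (mul_nonneg a0 (by linarith)) (by linarith)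
    linarith
  · refine mono1 hs hs1 m0 m1 (Y := X) (by linarith) (by linarith) (by norm_num) ?_
    have h1 : X * s ≤ (X + μ * (s ^ 2 * X1 par s T)) * max s |tau T| := by
      have := mul_nonneg m0 x0
      exact mul_le_mul (by linarith) (le_max_left _ _) hs.le (by linarith)
    have h2 : s ^ 2 * (1 / 2) ≤ s ^ 2 * X :=
      mul_le_mul_of_nonneg_left (by linarith) (sq_nonneg s)
    have := sq_nonneg s
    linarith
  · have := abs_le.1 ab
    rw [abs_le]
    constructor <;> linarith [this.1, this.2]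
  · have := sq_nonneg s
    linarith

end Pool.Agent.Strip051.LC.E0
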