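import Pool.Agent.Strip051.LC.E0.FlF

/-! # Small rests: the floor, the circle of radius `√3` and `W` below `60` degrees -/

namespace Pool.Agent.Strip051.LC.E0

open Pool.Agent.StripNear Pool.Agent.StripSquare Pool.Agent.Strip051 Pool.Agent.Strip051.Sweep
open Pool.Agent.Strip051.LC.Line
open Pool.Agent.Strip051.LC.Exact (kE)

/-- A bound of the mean. -/
theorem mean_ex {s : ℝ} (hs : 0 < s) (hs1 : s ≤ 11 / 400) (t : ℝ) :
    ∃ M, |M| ≤ 1 ∧ mn (D s (kE s)) 0 t = we s * M := by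
  obtain ⟨e0, -⟩ := we_bd hs hs1
  have h := mn_abs (fun z => D_abs hs.le (by linarith [h0_gt]) (kE_nonneg hs hs1) z) 0 t
    (f := D s (kE s))
  have e : kE s * (s * (h0 - s) / (2 * h0)) = we s := amp_kE hs hs1
  rw [e] at h
  refine ⟨mn (D s (kE s)) 0 t / we s, ?_, by field_simp⟩
  rw [abs_div, abs_of_pos e0, div_le_one e0]
  exact h

/-- The value for long edges. -/
theorem crude_val {s μ X T A B x M : ℝ} (hs : 0 < s) (hs1 : s ≤ 11 / 400) (m0 : 0 ≤ μ)
    (m1 : μ ≤ 201 / 1000) (hT : 0 ≤ T) (hT1 : T ≤ 1) (X0 : 7 / 5 ≤ X) (X1 : X ≤ 7 / 4)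
    (hA : |A| ≤ 5 / 2) (hB : |B| ≤ 1 / 2) (hM : |M| ≤ 1) (hx : x ≤ 7 / 2 * s ^ 2) :
    0 ≤ FV s μ X T ((we s + μ * wq s) * A + μ * (wq s * B)) x M := by
  obtain ⟨a0, a1, -, -, -, -⟩ := E_bd hs hs1 m0 m1
  obtain ⟨q0, -, q2, -⟩ := muq hs hs1 m0 m1
  obtain ⟨k1, k2⟩ := k_bd
  refine le_trans ?_ (FV_ge' hs hs1 m0 m1 hT hT1 (by positivity) hx)
  have h1 : X * (1 / 2) ≤ X * (1 / 2 + 1 / (2 * h0) * T) := by
    refine mul_le_mul_of_nonneg_left ?_ (by linarith)
    have : 0 ≤ 1 / (2 * h0) * T := mul_nonneg (by linarith) hT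
    linarith
  have h2 : X * (we s + μ * wq s) ≤ 7 / 4 * (161 / 10000) := mul_le_mul X1 a1 a0 (by norm_num)
  have h3 : |(we s + μ * wq s) * A + μ * (wq s * B)| ≤ 41 / 1000 := by
    refine (abs_add_le _ _).trans ?_
    rw [abs_mul, abs_of_nonneg a0, ← mul_assoc, abs_mul, abs_of_nonneg q0]
    have h4 := mul_le_mul a1 hA (abs_nonneg _) (by norm_num)
    have h5 := mul_le_mul q2 hB (abs_nonneg _) (by norm_num)
    linarith
  have h4 : |((we s + μ * wq s) * A + μ * (wq s * B)) * M| ≤ 41 / 1000 * 1 := by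
    rw [abs_mul]
    exact mul_le_mul h3 hM (abs_nonneg _) (by norm_num)
  have h5 := (abs_le.1 h4).2
  have s2 : s ^ 2 ≤ 1 / 1000 := by nlinarith only [hs, hs1]
  linarith

/-! ### The circle of radius `√3` below `30` degrees -/

theorem c3_dn {d : ℝ} (hd : 0 ≤ d) (hd' : d ≤ 4331 / 10000) :
    3 / 2 + 2 / 5 * d ≤ c3 (h0 - d) ∧ c3 (h0 - d) ≤ 3 / 2 + 2 * h0 / 3 * d := by
  have hh := h0_pos
  have g1 := h0_gt
  have g2 := h0_lt
  have hq := h0_sq'
  have hT3 : (h0 - d) ^ 2 ≤ 3 := by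
    have : (h0 - d) ^ 2 = h0 ^ 2 - d * (2 * h0 - d) := by ring
    have : 0 ≤ d * (2 * h0 - d) := mul_nonneg hd (by linarith)
    linarith
  have e := c3_sq hT3
  have c0 := c3_nonneg (h0 - d)
  have e' : c3 (h0 - d) ^ 2 = 9 / 4 + 2 * h0 * d - d ^ 2 := by linear_combination e - hq
  have hd2 : d ^ 2 ≤ 4331 / 10000 * d := by nlinarith only [hd, hd']
  have hh2 : 8660 / 10000 * d ≤ h0 * d := mul_le_mul_of_nonneg_right (by linarith) hd
  constructor
  · refine le_of_sq_le_sq' ?_ c0 (by positivity)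
    rw [e']
    linarith
  · refine le_of_sq_le_sq' ?_ (by positivity) c0
    rw [e']
    have : (3 / 2 + 2 * h0 / 3 * d) ^ 2 = 9 / 4 + 2 * h0 * d + 1 / 3 * d ^ 2 := by
      linear_combination 4 / 9 * d ^ 2 * hq
    have := sq_nonneg d
    linarith

/-- The kernel on the circle of radius `√3` for `h0 / 2 ≤ T ≤ h0`. -/
theorem R3_dn {s d : ℝ} (hs : 0 < s) (hd : 0 ≤ d) (hd' : d ≤ h0 / 2) :
    ∃ p, 0 ≤ p ∧ p ≤ 2 / 3 * d ∧ RA par s p * (3 / 2) ≤ R3 par s (h0 - d) ∧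
      R3 par s (h0 - d) ≤ 3 / 2 + 33 / 100 * d := by
  have hh := h0_pos
  have g1 := h0_gt
  have g2 := h0_lt
  have hq := h0_sq'
  obtain ⟨u1, u2⟩ := c3_dn hd (by linarith)
  set T := h0 - d with hT
  set c := c3 T with hc
  set p := c * h0 / 3 - T / 2 with hp
  have p0 : 0 ≤ p := by
    have : 3 / 2 * h0 ≤ c * h0 := mul_le_mul_of_nonneg_right (by linarith) hh.le
    linarith
  have p1 : p ≤ 2 / 3 * d := by
    have h1 : c * h0 ≤ (3 / 2 + 2 * h0 / 3 * d) * h0 := mul_le_mul_of_nonneg_right u2 hh.le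
    have h2 : (3 / 2 + 2 * h0 / 3 * d) * h0 = 3 / 2 * h0 + d / 2 := by
      linear_combination 2 / 3 * d * hq
    linarith
  have eR : R3 par s T = RA par s p * (3 / 2 + h0 * p / (1 + (c / 2 + T / (4 * h0)))) := by
    unfold R3
    rw [if_neg (by linarith), if_pos (by linarith), quot4 (c3 T)]
    have h1 : |T / 2 - c * h0 / 3| = p := by
      rw [abs_of_nonpos (by linarith)]
      ring
    have h2 : T / 2 - c * h0 / 3 = -p := by rw [hp]; ring
    rw [← hc, h1, h2]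
    ring
  have b1 : 86 / 100 ≤ c / 2 + T / (4 * h0) := by
    have : 0 ≤ T / (4 * h0) - 1 / 8 := by
      rw [sub_nonneg, le_div_iff₀ (by positivity)]
      linarith
    linarith
  set b := c / 2 + T / (4 * h0)
  have f0 : 0 ≤ h0 * p / (1 + b) := by positivity
  have f1 : h0 * p / (1 + b) ≤ 33 / 100 * d := by
    rw [div_le_iff₀ (by linarith)]
    have h1 : h0 * p ≤ 8661 / 10000 * (2 / 3 * d) := mul_le_mul (by linarith) p1 p0 (by norm_num)
    have h2 : 33 / 100 * d * (186 / 100) ≤ 33 / 100 * d * (1 + b) :=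
      mul_le_mul_of_nonneg_left (by linarith) (by positivity)
    linarith
  have r1 := RA_ge hs p0
  have r2 := RA_le hs p0
  have rn := RA_nonneg hs p0 (by linarith)
  refine ⟨p, p0, p1, ?_, ?_⟩
  · rw [eR]
    exact mul_le_mul_of_nonneg_left (by linarith) rn
  · rw [eR]
    have h1 : RA par s p * (3 / 2 + h0 * p / (1 + b)) ≤ 1 * (3 / 2 + h0 * p / (1 + b)) :=
      mul_le_mul_of_nonneg_right r2 (by linarith)
    linarith

theorem pinLnn {s : ℝ} (hs : 0 < s) (hs1 : s ≤ 11 / 400) : 0 ≤ pinL par s := by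
  have hh := h0_pos
  have g1 := h0_gt
  obtain ⟨p, p0, p1, r1, -⟩ := R3_dn hs hs.le (by linarith)
  obtain ⟨u1, -⟩ := c3_dn hs.le (by linarith)
  obtain ⟨-, a, -, -⟩ := g_facts hs hs1
  have hP := (Pe_bd' hs hs1).2
  unfold pinL
  refine div_nonneg ?_ (by linarith)
  have w0 : 0 ≤ p / s := by positivity
  have w1 : p / s ≤ 2 / 3 := by
    rw [div_le_iff₀ hs]
    exact p1
  have e : RA par s p = 1 - (2 + par.d0) * p - par.d1 * (p * (p / s)) := by
    unfold RA dc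
    rw [if_pos (by linarith)]
    field_simp
    ring
  have h1 : p * (p / s) ≤ 2 / 3 * s * (2 / 3) := mul_le_mul p1 w1 w0 (by positivity)
  have h2 : (2 + par.d0) * p ≤ 3753 / 10000 * (2 / 3 * s) :=
    mul_le_mul (by linarith [par_d0.2]) p1 p0 (by norm_num)
  have h3 : par.d1 * (p * (p / s)) ≤ 1282 / 10000 * (2 / 3 * s * (2 / 3)) :=
    mul_le_mul par_d1.2 h1 (by positivity) (by norm_num)
  have h4 := mul_le_mul_of_nonneg_right one_bd.1 hs.le
  rw [RA_self hs]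
  rw [e] at r1
  linarith

theorem slLnn {s z : ℝ} (hs : 0 < s) (hs1 : s ≤ 11 / 400) (hz : 0 ≤ z) :
    0 ≤ slL par s z := by
  have h := pinLnn hs hs1
  have e : par.sC = 0 := rfl
  have e' : par.mC = 27 / 20 := rfl
  unfold slL
  rw [e, e']
  split_ifs with h1 h2
  · have := mul_nonneg h hz
    linarith
  · exact h
  · norm_num

/-- The curve `W` for `h0 / 2 ≤ T < h0`. -/
theorem half_W {s μ T : ℝ} {R Xi : ℝ → ℝ → ℝ} (hs : 0 < s) (hs1 : s ≤ 11 / 400)
    (m0 : 0 ≤ μ) (m1 : μ ≤ 201 / 1000) (hT : h0 / 2 ≤ T) (hT' : T < h0) {B : ℝ}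
    (B0 : 0 ≤ B) (B1 : B ≤ 1 / 2)
    (hR : R (Wc T) T = ((we s + μ * wq s) * RW par s T + μ * wq s * B) / we s)
    (hx : Xi (Wc T) T = s ^ 2 * xW par s ((h0 - T) / s)) :
    Half (kE s) s μ (1 / 2 - we s - μ * wq s) R Xi (fun _ _ => 0) (fun _ => 0) 0 0 (Wc T) T 0 := by
  have hh := h0_pos
  have g1 := h0_gt
  have g2 := h0_lt
  have hT0 : 0 ≤ T := by linarith
  obtain ⟨w1, w2⟩ := W_dn hT0 hT'
  have oW3 := (order5 hT0 (by nlinarith : T ^ 2 ≤ 3))
  obtain ⟨-, -, o3, o4, o5⟩ := oW3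
  obtain ⟨d, hd⟩ : ∃ d, d = h0 - T := ⟨_, rfl⟩
  have eT : T = h0 - d := by linarith
  have d0 : 0 < d := by linarith
  have d1 : d ≤ 4331 / 10000 := by linarith
  rw [← hd] at w1 hx
  have z0 : 0 ≤ d / s := by positivity
  have xp := (xW_pos hs hs1 z0).1
  have xb := (abs_le.1 (xW_bd hs hs1 z0)).2
  have X0 : 7 / 5 ≤ Wc T := by
    have : 9 / 10 ≤ Wc T - 1 / 2 := by
      refine le_of_sq_le_sq' ?_ w2 (by norm_num)
      nlinarith only [w1, d0, d1]
    linarith
  have X2 : Wc T ≤ 3 / 2 := by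
    have : Wc T - 1 / 2 ≤ 1 := by
      refine le_of_sq_le_sq' ?_ zero_le_one w2
      nlinarith only [w1]
    linarith
  have X3 : 3 / 2 - 55 / 100 * d ^ 2 ≤ Wc T := by
    have : 1 - 55 / 100 * d ^ 2 ≤ Wc T - 1 / 2 := by
      refine le_of_sq_le_sq' ?_ w2 ?_
      · have h2 : d ^ 2 ≤ 19 / 100 := by nlinarith only [d0, d1]
        have h3 : 0 ≤ d ^ 2 * (1 / 10 - (55 / 100) ^ 2 * d ^ 2) :=
          mul_nonneg (sq_nonneg d) (by linarith)
        linear_combination h3 - w1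
      · have h2 : d ^ 2 ≤ 19 / 100 := by nlinarith only [d0, d1]
        linarith
    linarith
  obtain ⟨M, M1, hM⟩ := mean_ex hs hs1 (tau T)
  have rw' := RW_abs hs hs1 hT0 (by nlinarith : T ^ 2 ≤ 3)
  have RU : RW par s T ≤ 3 / 2 + 33 / 100 * d := by
    obtain ⟨p, -, -, -, r3⟩ := R3_dn hs d0.le (by linarith)
    rw [← eT] at r3
    unfold RW
    rw [if_neg (by linarith), if_pos hT', ← hd]
    have := mul_nonneg (slLnn hs hs1 z0) (by linarith : 0 ≤ c3 T - Wc T)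
    linarith
  have s2 := sq_nonneg s
  refine half_ab hs hs1 m0 m1 hT0 hR hx hM ?_ ?_ (by linarith) ?_ (by linarith) ?_
  · refine crude_val hs hs1 m0 m1 hT0 (by linarith) X0 (by linarith) (by linarith) ?_ M1 ?_
    · rw [abs_of_nonneg B0]
      exact B1
    · have := mul_le_mul_of_nonneg_left xb s2
      linarith
  · refine mono1 hs hs1 m0 m1 RU (by linarith) B1 ?_
    have hmu : 0 ≤ μ * (s ^ 2 * xW par s (d / s)) := by positivity
    rw [tau_mid hT (by linarith), show T - h0 = -d by linarith, abs_neg, abs_of_pos d0]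
    rcases le_total d s with h | h
    · rw [max_eq_left h]
      have h1 : (3 / 2 - 55 / 100 * s ^ 2) * s ≤ (Wc T + μ * (s ^ 2 * xW par s (d / s))) * s := by
        refine mul_le_mul_of_nonneg_right ?_ hs.le
        have : d ^ 2 ≤ s ^ 2 := by nlinarith only [h, d0]
        linarith
      have h2 : s * d ≤ s * s := mul_le_mul_of_nonneg_left h hs.le
      have h3 : s ^ 2 * s ≤ s ^ 2 * (11 / 400) := mul_le_mul_of_nonneg_left hs1 s2
      have h4 : 0 ≤ s ^ 2 * d := by positivity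
      linarith
    · rw [max_eq_right h]
      have h1 : (3 / 2 - 55 / 100 * d ^ 2) * d ≤ (Wc T + μ * (s ^ 2 * xW par s (d / s))) * d :=
        mul_le_mul_of_nonneg_right (by linarith) d0.le
      have h4 : 0 ≤ s ^ 2 * d := by positivity
      have h5 : 0 ≤ d - s := by linarith
      have h6 : d ^ 2 * (d - s) ≤ 19 / 100 * (d - s) :=
        mul_le_mul_of_nonneg_right (by nlinarith only [d0, d1]) h5
      have h7 : d * s * d ≤ d * s * (4331 / 10000) := mul_le_mul_of_nonneg_left d1 (by positivity)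
      have h8 : s * (d - s) ≤ 11 / 400 * (d - s) := mul_le_mul_of_nonneg_right hs1 h5
      linarith
  · rw [abs_of_nonneg B0]
    exact B1
  · have : 0 ≤ s ^ 2 * xW par s (d / s) := by positivity
    linarith

/-! ### The circle of radius `√3` above `30` degrees -/

theorem root_ge {b p : ℝ} (e : b ^ 2 + p ^ 2 = 1) (b0 : 0 ≤ b) (h0 : 0 ≤ p) (h1 : p ≤ 1 / 4) :
    1 - 51 / 100 * p ^ 2 ≤ b := by
  have h2 : p ^ 2 ≤ 1 / 16 := by nlinarith only [h0, h1]
  refine le_of_sq_le_sq' ?_ b0 (by linarith)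
  have h3 : 0 ≤ p ^ 2 * (2 / 100 - (51 / 100) ^ 2 * p ^ 2) :=
    mul_nonneg (sq_nonneg p) (by linarith)
  linear_combination h3 - e

theorem R3_up {s T : ℝ} (hs : 0 < s) (hT : h0 ≤ T) (hT1 : T ≤ 1) :
    R3 par s T ≤ c3 T ∧ 1 ≤ R3 par s T := by
  have hh := h0_pos
  have g1 := h0_gt
  have g2 := h0_lt
  have hq := h0_sq'
  have hT3 : T ^ 2 ≤ 3 := by nlinarith only [hT, hT1, hh]
  have e := c3_sq hT3
  have c0 := c3_nonneg T
  have eR : R3 par s T = RA par s |T / 2 - c3 T * h0 / 3| *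
      (3 / 2 - h0 * (T / 2 - c3 T * h0 / 3) / (1 + (c3 T / 2 + T * h0 / 3))) := by
    unfold R3
    rw [if_neg (by linarith), if_pos (by linarith), quot4 (c3 T), quot4 T]
  set c := c3 T with hc
  set p := T / 2 - c * h0 / 3 with hp
  set b := c / 2 + T * h0 / 3 with hb
  have eb : b ^ 2 + p ^ 2 = 1 := by
    rw [hb, hp]
    linear_combination 1 / 3 * e + (c ^ 2 + T ^ 2) / 9 * hq
  have ec : c = 3 / 2 * b - h0 * p := by
    rw [hb, hp]
    linear_combination -c / 3 * hq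
  have cl : 1414 / 1000 ≤ c := by
    refine le_of_sq_le_sq' ?_ c0 (by norm_num)
    nlinarith only [e, hT1, hT, hh]
  have cu : c ≤ 3 / 2 := by
    refine le_of_sq_le_sq' ?_ (by norm_num) c0
    nlinarith only [e, hT, hh, hq]
  have p0 : 0 ≤ p := by
    have : c * h0 ≤ 3 / 2 * h0 := mul_le_mul_of_nonneg_right cu hh.le
    linarith
  have p1 : p ≤ 92 / 1000 := by
    have : 1414 / 1000 * (8660 / 10000) ≤ c * h0 := mul_le_mul cl (by linarith) (by norm_num) c0
    linarith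
  have b0 : 0 ≤ b := by
    have : 0 ≤ T * h0 := by nlinarith only [hT, hh]
    linarith
  have b1 : b ≤ 1 := by
    refine le_of_sq_le_sq' ?_ zero_le_one b0
    linarith [sq_nonneg p]
  have b2 := root_ge eb b0 p0 (by linarith)
  have f1 : h0 * p / 2 ≤ h0 * p / (1 + b) := by
    refine div_le_div_of_nonneg_left (by positivity) (by linarith) (by linarith)
  have f2 : h0 * p / (1 + b) ≤ h0 * p := by
    refine div_le_self (by positivity) (by linarith)
  have hp1 : h0 * p ≤ 8661 / 10000 * (92 / 1000) :=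
    mul_le_mul (by linarith) p1 p0 (by norm_num)
  rw [eR, abs_of_nonneg p0]
  have r0 := RA_nonneg hs p0 (by linarith)
  constructor
  · have h1 : RA par s p * (3 / 2 - h0 * p / (1 + b)) ≤ (1 - 375 / 1000 * p) * (3 / 2 - h0 * p / 2) :=
      mul_le_mul (RA_le2 hs p0) (by linarith) (by linarith) (by linarith)
    have h2 : 0 ≤ p * (92 / 1000 - p) := mul_nonneg p0 (by linarith)
    have h3 : h0 * p ≤ 8661 / 10000 * p := mul_le_mul_of_nonneg_right (by linarith) p0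
    have h4 : h0 * p * p ≤ 8661 / 10000 * p * p := mul_le_mul_of_nonneg_right h3 p0
    linarith
  · have h1 : (1 - 2 * p) * (14 / 10) ≤ RA par s p * (3 / 2 - h0 * p / (1 + b)) :=
      mul_le_mul (RA_ge hs p0) (by linarith) (by norm_num) r0
    linarith

/-- The circle of radius `√3`. -/
theorem half_c3 {s μ T x : ℝ} {R Xi : ℝ → ℝ → ℝ} (hs : 0 < s) (hs1 : s ≤ 11 / 400)
    (m0 : 0 ≤ μ) (m1 : μ ≤ 201 / 1000) (hT : 0 ≤ T) (hT1 : T ≤ 1)
    (hR : R (c3 T) T = ((we s + μ * wq s) * R3 par s T + μ * wq s * 0) / we s)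
    (hx : Xi (c3 T) T = x) (hxb : |x| ≤ 7 / 2 * s ^ 2) :
    Half (kE s) s μ (1 / 2 - we s - μ * wq s) R Xi (fun _ _ => 0) (fun _ => 0) 0 0 (c3 T) T 0 := by
  have hh := h0_pos
  have g1 := h0_gt
  have g2 := h0_lt
  have hq := h0_sq'
  have hT3 : T ^ 2 ≤ 3 := by nlinarith only [hT, hT1]
  have e := c3_sq hT3
  have c0 := c3_nonneg T
  have cl : 7 / 5 ≤ c3 T := by
    refine le_of_sq_le_sq' ?_ c0 (by norm_num)
    nlinarith only [e, hT1, hT]
  have cu : c3 T ≤ 7 / 4 := by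
    refine le_of_sq_le_sq' ?_ (by norm_num) c0
    nlinarith only [e, hT]
  obtain ⟨M, M1, hM⟩ := mean_ex hs hs1 (tau T)
  have ra := R3_abs hs hT hT3
  have RU : R3 par s T ≤ c3 T := by
    rcases lt_or_ge T (h0 / 2) with h | h
    · refine le_trans ?_ c0
      unfold R3
      rw [if_pos h, quot4, neg_nonpos]
      have cu2 : c3 T ≤ 2 * h0 := by
        refine le_of_sq_le_sq' ?_ (by positivity) c0
        nlinarith only [e, hq, hT]
      have h1 : c3 T * h0 / 3 ≤ 1 / 2 := by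
        have := mul_le_mul_of_nonneg_right cu2 hh.le
        nlinarith only [this, hq]
      have h2 : 0 ≤ c3 T * h0 / 3 - T / 2 := by
        have : 7 / 5 * (8660 / 10000) ≤ c3 T * h0 := mul_le_mul cl (by linarith) (by norm_num) c0
        linarith
      refine mul_nonneg hT (div_nonneg (RA_nonneg hs h2 (by linarith)) h2)
    · rcases le_or_gt T h0 with h' | h'
      · obtain ⟨p, -, -, -, r3⟩ := R3_dn hs (by linarith : 0 ≤ h0 - T) (by linarith)
        obtain ⟨u1, -⟩ := c3_dn (by linarith : 0 ≤ h0 - T) (by linarith)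
        rw [sub_sub_cancel] at r3 u1
        linarith
      · exact (R3_up hs h'.le hT1).1
  obtain ⟨x0, x1⟩ := abs_le.1 hxb
  have s2 := sq_nonneg s
  refine half_ab hs hs1 m0 m1 hT hR hx hM ?_ ?_ (by linarith) (by norm_num) (by linarith) x0
  · exact crude_val hs hs1 m0 m1 hT hT1 cl cu (by linarith) (by norm_num) M1 x1
  · refine mono1 hs hs1 m0 m1 RU c0 (by norm_num) ?_
    have h1 : -(71 / 100 * s ^ 2) ≤ μ * x := by
      have h6 : μ * (-x) ≤ μ * (7 / 2 * s ^ 2) := mul_le_mul_of_nonneg_left (by linarith) m0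
      have h7 : μ * (7 / 2 * s ^ 2) ≤ 201 / 1000 * (7 / 2 * s ^ 2) :=
        mul_le_mul_of_nonneg_right m1 (by positivity)
      linarith
    have h2 : (c3 T - 71 / 100 * s ^ 2) * s ≤ (c3 T + μ * x) * max s |tau T| := by
      have : s ^ 2 ≤ 1 / 1000 := by nlinarith only [hs, hs1]
      exact mul_le_mul (by linarith) (le_max_left _ _) hs.le (by linarith)
    have h3 : s ^ 2 * (7 / 5) ≤ s ^ 2 * c3 T := mul_le_mul_of_nonneg_left cl s2
    have h4 : s ^ 2 * s ≤ s ^ 2 * (11 / 400) := mul_le_mul_of_nonneg_left hs1 s2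
    linarith

end Pool.Agent.Strip051.LC.E0
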