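import Pool.Agent.Strip051.LC.E0.FlG

/-! # Small rests: the floor, the kernel above `60` degrees -/

namespace Pool.Agent.Strip051.LC.E0

open Pool.Agent.StripNear Pool.Agent.StripSquare Pool.Agent.Strip051 Pool.Agent.Strip051.Sweep
open Pool.Agent.Strip051.LC.Line
open Pool.Agent.Strip051.LC.Exact (kE)

theorem Pe_low {s : ℝ} (hs : 0 < s) (hs1 : s ≤ 11 / 400) : 1 - 9 / 10 * s ≤ Pe s := by
  obtain ⟨-, a, -, -⟩ := g_facts hs hs1
  have b := g_low hs hs1
  obtain ⟨k1, k2⟩ := k_bd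
  have hd : 563 / 1000 ≤ 1 / (2 * h0) - s / (1 + g s) := by
    have h1 : s / (1 + g s) ≤ 138 / 10000 := by
      rw [div_le_iff₀ (by linarith)]
      linarith
    linarith
  have h3 : 112 / 100 ≤ g s * ((1 + g s) * (1 / (2 * h0) - s / (1 + g s))) := by
    have k1 : 19996 / 10000 * (563 / 1000) ≤ (1 + g s) * (1 / (2 * h0) - s / (1 + g s)) :=
      mul_le_mul (by linarith) hd (by norm_num) (by linarith)
    have k2 := mul_le_mul b k1 (by norm_num) (by linarith)
    linarith
  rw [Pe_eq hs hs1]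
  have h4 : 1 / (g s * ((1 + g s) * (1 / (2 * h0) - s / (1 + g s)))) ≤ 9 / 10 := by
    rw [div_le_iff₀ (by linarith)]
    linarith
  have := mul_le_mul_of_nonneg_left h4 hs.le
  linarith

/-- The unit circle above `60` degrees. -/
theorem c1_61 {T : ℝ} (hT : h0 ≤ T) (hT1 : T ≤ 1) : c1 T ≤ 1 / 2 - 2 * h0 * (T - h0) := by
  have hh := h0_pos
  have g1 := h0_gt
  have g2 := h0_lt
  have hq := h0_sq'
  have e := c1_sq (by linarith : 0 ≤ T) hT1
  have h1 : h0 * (T - h0) ≤ 8661 / 10000 * (134 / 1000) :=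
    mul_le_mul (by linarith) (by linarith) (by linarith) (by norm_num)
  refine le_of_sq_le_sq' ?_ (by linarith) (c1_nonneg T)
  have h2 : (1 / 2 - 2 * h0 * (T - h0)) ^ 2 = 1 / 4 - 2 * h0 * (T - h0) + 3 * (T - h0) ^ 2 := by
    linear_combination 4 * (T - h0) ^ 2 * hq
  have h3 : c1 T ^ 2 = 1 / 4 - 2 * h0 * (T - h0) - (T - h0) ^ 2 := by
    linear_combination e - hq
  have := sq_nonneg (T - h0)
  linarith

theorem c1_61lo {T a : ℝ} (hT : h0 ≤ T) (hT1 : T ≤ 1) (ha : a ≤ 3)
    (h : (a ^ 2 + 1) * (T - h0) ≤ a - 17322 / 10000) : 1 / 2 - a * (T - h0) ≤ c1 T := by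
  have hh := h0_pos
  have g1 := h0_gt
  have g2 := h0_lt
  have hq := h0_sq'
  have e := c1_sq (by linarith : 0 ≤ T) hT1
  have hd : 0 ≤ T - h0 := by linarith
  have h3 : c1 T ^ 2 = 1 / 4 - 2 * h0 * (T - h0) - (T - h0) ^ 2 := by
    linear_combination e - hq
  have h4 := mul_le_mul_of_nonneg_right h hd
  have h5 : h0 * (T - h0) ≤ 8661 / 10000 * (T - h0) := mul_le_mul_of_nonneg_right (by linarith) hd
  have h7 : a * (T - h0) ≤ 3 * (134 / 1000) := mul_le_mul ha (by linarith) hd (by norm_num)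
  refine le_of_sq_le_sq' ?_ (c1_nonneg T) (by linarith)
  rw [h3]
  linarith

/-- The kernel on the unit circle above `60` degrees. -/
theorem R1_up {s T : ℝ} (hs : 0 < s) (hT : h0 ≤ T) (hT2 : T ≤ h0 + 55 / 1000) :
    ∃ p, p = (T - h0) / 2 + h0 * (1 / 2 - c1 T) ∧ 2 * (T - h0) ≤ p ∧
      R1 par s T ≤ c1 T + 246 / 1000 * p + 42 / 100 * p ^ 2 ∧
      RA par s p * (1 / 2 - 44 / 100 * p) ≤ R1 par s T ∧ p ≤ 226 / 100 * (T - h0) := by
  have hh := h0_pos
  have g1 := h0_gt
  have g2 := h0_lt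
  have hq := h0_sq'
  have hT1 : T ≤ 1 := by linarith
  have u1 := c1_61 hT hT1
  have u2 := c1_61lo (a := 203 / 100) hT hT1 (by norm_num) (by linarith)
  have e := c1_sq (by linarith : 0 ≤ T) hT1
  have hd : 0 ≤ T - h0 := by linarith
  have c0 := c1_nonneg T
  set c := c1 T with hc
  obtain ⟨p, hp⟩ : ∃ p, p = (T - h0) / 2 + h0 * (1 / 2 - c) := ⟨_, rfl⟩
  have hp' : T / 2 - h0 * c = p := by rw [hp]; ring
  set b := c / 2 + h0 * T with hb
  have eb : b ^ 2 + p ^ 2 = 1 := by
    rw [hb, ← hp']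
    linear_combination e + (c ^ 2 + T ^ 2) * hq
  have ec : c = b / 2 - h0 * p := by
    rw [hb, ← hp']
    linear_combination -c * hq
  have p1 : 2 * (T - h0) ≤ p := by
    have h1 : h0 * (2 * h0 * (T - h0)) ≤ h0 * (1 / 2 - c) :=
      mul_le_mul_of_nonneg_left (by linarith) hh.le
    have h2 : h0 * (2 * h0 * (T - h0)) = 3 / 2 * (T - h0) := by
      linear_combination 2 * (T - h0) * hq
    linarith
  have p0 : 0 ≤ p := by linarith
  have p2 : p ≤ 226 / 100 * (T - h0) := by
    have h1 : h0 * (1 / 2 - c) ≤ 8661 / 10000 * (203 / 100 * (T - h0)) :=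
      mul_le_mul (by linarith) (by linarith) (by linarith [mul_nonneg hh.le hd]) (by norm_num)
    linarith
  have b0 : 0 ≤ b := by
    have : 0 ≤ h0 * T := mul_nonneg hh.le (by linarith)
    linarith
  have b1 : b ≤ 1 := by
    refine le_of_sq_le_sq' ?_ zero_le_one b0
    linarith [sq_nonneg p]
  have b2 := root_ge eb b0 p0 (by linarith)
  have b3 : 99 / 100 ≤ b := by
    have : p ^ 2 ≤ 1 / 60 := by nlinarith only [p0, p2, hT2]
    linarith
  have eR : R1 par s T = RA par s p * (1 / 2 - h0 * p / (1 + b)) := by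
    unfold R1
    rw [if_neg (by linarith), if_neg (by linarith)]
    rw [← hc, hp', abs_of_nonneg p0]
  have f1 : h0 * p / 2 ≤ h0 * p / (1 + b) := by
    refine div_le_div_of_nonneg_left (by positivity) (by linarith) (by linarith)
  have f2 : h0 * p / (1 + b) ≤ 44 / 100 * p := by
    rw [div_le_iff₀ (by linarith)]
    have h1 : h0 * p ≤ 8661 / 10000 * p := mul_le_mul_of_nonneg_right (by linarith) p0
    have h2 : p * (99 / 100) ≤ p * b := mul_le_mul_of_nonneg_left b3 p0
    linarith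
  refine ⟨p, hp, p1, ?_, ?_, p2⟩
  · rw [eR]
    have h1 : RA par s p * (1 / 2 - h0 * p / (1 + b)) ≤ (1 - 375 / 1000 * p) * (1 / 2 - h0 * p / 2) :=
      mul_le_mul (RA_le2 hs p0) (by linarith) (by linarith) (by linarith)
    have h3 : h0 * p ≤ 8661 / 10000 * p := mul_le_mul_of_nonneg_right (by linarith) p0
    have h4 : h0 * p * p ≤ 8661 / 10000 * p * p := mul_le_mul_of_nonneg_right h3 p0
    have := sq_nonneg p
    linarith
  · rw [eR]
    exact mul_le_mul_of_nonneg_left (by linarith) (RA_nonneg hs p0 (by linarith))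

theorem pinU_le {s : ℝ} (hs : 0 < s) (hs1 : s ≤ 11 / 400) : pinU par s ≤ 1 := by
  have hh := h0_pos
  have g1 := h0_gt
  have g2 := h0_lt
  obtain ⟨-, a, ga, -⟩ := g_facts hs hs1
  have gl : 1 - 1 / 50 * s ≤ g s := by
    obtain ⟨e, -, -, -⟩ := g_facts hs hs1
    nlinarith
  have u1 := c1_61 (T := h0 + s) (by linarith) (by linarith)
  have u2 := c1_61lo (T := h0 + s) (a := 187 / 100) (by linarith) (by linarith) (by norm_num)
    (by linarith)
  obtain ⟨p, hp, p1, -, r1, -⟩ := R1_up (T := h0 + s) hs (by linarith) (by linarith)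
  rw [add_sub_cancel_left] at u1 u2 hp p1
  have p2 : p ≤ 212 / 100 * s := by
    have h1 : h0 * (1 / 2 - c1 (h0 + s)) ≤ 8661 / 10000 * (187 / 100 * s) :=
      mul_le_mul (by linarith) (by linarith) (by linarith [mul_nonneg hh.le hs.le]) (by norm_num)
    linarith
  have w1 : 2 ≤ p / s := by
    rw [le_div_iff₀ hs]
    exact p1
  have w2 : p / s ≤ 212 / 100 := by
    rw [div_le_iff₀ hs]
    exact p2
  obtain ⟨D0, D1⟩ := par_d2
  obtain ⟨F0, F1⟩ := par_d3
  have rA : 1 - 133 / 100 * s ≤ RA par s p := by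
    have h1 : s * dc par (p / s) = s * par.d2 + (par.d3 - par.d2) * (p - 3 / 2 * s) := by
      unfold dc
      rw [if_neg (by linarith), if_neg (by linarith), if_pos (by linarith)]
      unfold pl
      field_simp
      ring
    have h2 : (2 + (par.d3 - par.d2)) * p ≤ 7334 / 10000 * (212 / 100 * s) :=
      mul_le_mul (by linarith) p2 (by linarith) (by norm_num)
    have h3 : (par.d2 - 3 / 2 * (par.d3 - par.d2)) * s ≤ -(3 / 10) * s :=
      mul_le_mul_of_nonneg_right (by linarith) hs.le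
    unfold RA
    rw [h1]
    linarith
  have r2 : (1 - 133 / 100 * s) * (1 / 2 - 44 / 100 * p) ≤ R1 par s (h0 + s) :=
    (mul_le_mul_of_nonneg_right rA (by linarith)).trans r1
  have r3 : 1 / 2 - 16 / 10 * s ≤ R1 par s (h0 + s) := by
    have : 0 ≤ s * p := mul_nonneg hs.le (by linarith)
    linarith
  have hP := Pe_low hs hs1
  have hden : 0 < g s - 1 / 2 - c1 (h0 + s) := by
    have : 2 * (8660 / 10000) * s ≤ 2 * h0 * s := by
      have := mul_le_mul_of_nonneg_right g1.le hs.le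
      linarith
    linarith
  have ho := mul_le_mul_of_nonneg_right one_bd.1 hs.le
  unfold pinU
  rw [div_le_one hden, RA_self hs]
  have : 2 * (8660 / 10000) * s ≤ 2 * h0 * s := by
    have := mul_le_mul_of_nonneg_right g1.le hs.le
    linarith
  linarith

theorem slU_le {s z : ℝ} (hs : 0 < s) (hs1 : s ≤ 11 / 400) (hz : 0 ≤ z) : slU par s z ≤ 1 := by
  have h := pinU_le hs hs1
  have g1 := h0_gt
  have g2 := h0_lt
  have e : par.sA = 92 / 125 := rfl
  unfold slU
  rw [e]
  split_ifs with h1 h2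
  · have := mul_le_mul_of_nonneg_right h hz
    linarith
  · exact h
  · linarith

/-- The curve `W` above `h0`. -/
theorem W_up2 {T : ℝ} (hT : h0 ≤ T) (hT1 : T ≤ 1) :
    49 / 100 ≤ Wc T ∧ Wc T ≤ 1 / 2 ∧ c1 T ≤ Wc T ∧ Wc T < c3 T ∧ c3 T ≤ 3 / 2 ∧
      1414 / 1000 ≤ c3 T := by
  have hh := h0_pos
  have g1 := h0_gt
  have g2 := h0_lt
  have hq := h0_sq'
  have hT3 : T ^ 2 ≤ 3 := by nlinarith only [hT, hT1, hh]
  obtain ⟨w1, w2⟩ := W_up hT hT3
  obtain ⟨-, o2, o3, -, -⟩ := order5 (by linarith : 0 ≤ T) hT3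
  have e := c3_sq hT3
  have c0 := c3_nonneg T
  have cl : 1414 / 1000 ≤ c3 T := by
    refine le_of_sq_le_sq' ?_ c0 (by norm_num)
    nlinarith only [e, hT1, hT, hh]
  have cu : c3 T ≤ 3 / 2 := by
    refine le_of_sq_le_sq' ?_ (by norm_num) c0
    nlinarith only [e, hT, hh, hq]
  have wu : Wc T + 1 / 2 ≤ 1 := by
    refine le_of_sq_le_sq' ?_ zero_le_one w2
    linarith [sq_nonneg (T - h0)]
  have wl : 99 / 100 ≤ Wc T + 1 / 2 := by
    refine le_of_sq_le_sq' ?_ w2 (by norm_num)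
    nlinarith only [w1, hT, hT1, g1]
  exact ⟨by linarith, by linarith, by linarith, by linarith, cu, cl⟩

/-- The kernel on `W` above `h0`. -/
theorem RW_up {s T : ℝ} (hs : 0 < s) (hs1 : s ≤ 11 / 400) (hT : h0 ≤ T) (hT1 : T ≤ 1) :
    (T - h0 ≤ 2 * s → RW par s T ≤ Wc T + 68 / 100 * (T - h0)) ∧
      (T - h0 ≤ 2 * s → 1 / 2 - 10 * (T - h0) ≤ RW par s T) ∧
      (2 * s < T - h0 → RW par s T ≤ 3 / 4) := by
  have hh := h0_pos
  have g1 := h0_gt
  have g2 := h0_lt
  have hd : 0 ≤ T - h0 := by linarith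
  obtain ⟨w0, w1, w2, w3, w4, w5⟩ := W_up2 hT hT1
  have hz : 0 ≤ (T - h0) / s := by positivity
  have eW : RW par s T = (if T < 1 then R1 par s T else 0) +
      slU par s ((T - h0) / s) * (Wc T - c1 T) := by
    unfold RW
    rw [if_neg (by linarith), if_neg (by linarith)]
  have c0 := c1_nonneg T
  refine ⟨fun h => ?_, fun h => ?_, fun h => ?_⟩
  · obtain ⟨p, hp, p1, r1, -, p2⟩ := R1_up hs hT (by linarith)
    rw [eW, if_pos (by linarith)]
    have h1 := mul_le_mul_of_nonneg_right (slU_le hs hs1 hz) (sub_nonneg.2 w2)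
    have h2 : p ^ 2 ≤ 226 / 100 * (226 / 100) * (55 / 1000) * (T - h0) := by
      have h3 : p * p ≤ 226 / 100 * (T - h0) * (226 / 100 * (55 / 1000)) :=
        mul_le_mul p2 (by linarith) (by linarith) (by positivity)
      linarith
    linarith
  · obtain ⟨p, hp, p1, -, r1, p2⟩ := R1_up hs hT (by linarith)
    have u2 := c1_61lo (a := 203 / 100) hT hT1 (by norm_num) (by linarith)
    rw [eW, if_pos (by linarith)]
    have h1 : -(3 * (Wc T - c1 T)) ≤ slU par s ((T - h0) / s) * (Wc T - c1 T) := by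
      have := mul_le_mul_of_nonneg_right (abs_le.1 (slU_bd hs hs1 hz)).1 (sub_nonneg.2 w2)
      linarith
    have h3 : (1 - 2 * p) * (1 / 2 - 44 / 100 * p) ≤ R1 par s T :=
      (mul_le_mul_of_nonneg_right (RA_ge hs (by linarith)) (by linarith)).trans r1
    have := sq_nonneg p
    linarith
  · rw [eW]
    have hz2 : 2 < (T - h0) / s := by
      rw [lt_div_iff₀ hs]
      exact h
    have h1 := mul_le_mul_of_nonneg_right (abs_le.1 (slU_far (s := s) hz2)).2 (sub_nonneg.2 w2)
    have h2 : (if T < 1 then R1 par s T else 0) ≤ 1 / 2 := by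
      split_ifs with h3
      · unfold R1
        rw [if_neg (by linarith), if_neg (by linarith)]
        have e := c1_sq (by linarith : 0 ≤ T) hT1
        have cl : c1 T ≤ h0 := by linarith
        have s0 : 0 ≤ T / 2 - h0 * c1 T := by
          have : h0 * c1 T ≤ h0 * (1 / 2) := mul_le_mul_of_nonneg_left (by linarith) hh.le
          linarith
        have s1 : T / 2 - h0 * c1 T ≤ 1 / 2 := by
          have : 0 ≤ h0 * c1 T := by positivity
          linarith
        rw [abs_of_nonneg s0]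
        have f0 : 0 ≤ h0 * (T / 2 - h0 * c1 T) / (1 + (c1 T / 2 + h0 * T)) := by
          have : 0 ≤ h0 * T := mul_nonneg hh.le (by linarith)
          exact div_nonneg (mul_nonneg hh.le s0) (by linarith)
        have r0 := RA_nonneg hs s0 s1
        have r1 := RA_le hs s0
        have h4 : RA par s (T / 2 - h0 * c1 T) *
            (1 / 2 - h0 * (T / 2 - h0 * c1 T) / (1 + (c1 T / 2 + h0 * T))) ≤
            RA par s (T / 2 - h0 * c1 T) * (1 / 2) := mul_le_mul_of_nonneg_left (by linarith) r0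
        linarith
      · norm_num
    linarith

end Pool.Agent.Strip051.LC.E0
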