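import Pool.Agent.Strip051.LC.E0.FlH

/-! # Small rests: the floor above `60` degrees -/

namespace Pool.Agent.Strip051.LC.E0

open Pool.Agent.StripNear Pool.Agent.StripSquare Pool.Agent.Strip051 Pool.Agent.Strip051.Sweep
open Pool.Agent.Strip051.LC.Line
open Pool.Agent.Strip051.LC.Exact (kE)

/-- The bounds of the kernel at the distance `δ` above `h0`. -/
structure UpA (s δ X A : ℝ) : Prop where
  a1 : δ ≤ s → A ≤ X + 18 / 100 * s
  a2 : s ≤ δ → δ ≤ 2 * s → A ≤ X + (18 / 100 * s + 68 / 100 * (δ - s))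
  a3 : 2 * s < δ → A ≤ 2 * X

/-- The growth above `h0`. -/
theorem up_mono {s μ X A B x δ : ℝ} (hs : 0 < s) (hs1 : s ≤ 11 / 400) (m0 : 0 ≤ μ)
    (m1 : μ ≤ 201 / 1000) (hδ : 0 ≤ δ) (hδ1 : δ ≤ 1) (hX : 1 / 2 ≤ X) (hB : B ≤ 1 / 2)
    (x0 : -(7 / 2 * s ^ 2) ≤ x) (h : UpA s δ X A) :
    2 * h0 * ((we s + μ * wq s) * A + μ * (wq s * B)) ≤ (X + μ * x) * max s |δ| := by
  have s2 := sq_nonneg s
  have h1 : -(71 / 100 * s ^ 2) ≤ μ * x := by
    have h6 : μ * (-x) ≤ μ * (7 / 2 * s ^ 2) := mul_le_mul_of_nonneg_left (by linarith) m0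
    have h7 : μ * (7 / 2 * s ^ 2) ≤ 201 / 1000 * (7 / 2 * s ^ 2) :=
      mul_le_mul_of_nonneg_right m1 (by positivity)
    linarith
  have sX : s ^ 2 * (1 / 2) ≤ s ^ 2 * X := mul_le_mul_of_nonneg_left hX s2
  have s3 : s ^ 2 * s ≤ s ^ 2 * (11 / 400) := mul_le_mul_of_nonneg_left hs1 s2
  have s30 : 0 ≤ s ^ 2 * s := by positivity
  rw [abs_of_nonneg hδ]
  rcases le_or_gt δ (2 * s) with h2 | h2
  · rcases le_total δ s with h3 | h3
    · rw [max_eq_left h3]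
      refine mono1 hs hs1 m0 m1 (h.a1 h3) (by linarith) hB ?_
      have h4 : (X - 71 / 100 * s ^ 2) * s ≤ (X + μ * x) * s :=
        mul_le_mul_of_nonneg_right (by linarith) hs.le
      linarith
    · rw [max_eq_right h3]
      refine mono1 hs hs1 m0 m1 (h.a2 h3 h2) (by linarith) hB ?_
      have h4 : (X - 71 / 100 * s ^ 2) * δ ≤ (X + μ * x) * δ :=
        mul_le_mul_of_nonneg_right (by linarith) hδ
      have h5 : s ^ 2 * δ ≤ s ^ 2 * (2 * s) := mul_le_mul_of_nonneg_left h2 s2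
      have h6 : 1 / 2 * (δ - s) ≤ X * (δ - s) := mul_le_mul_of_nonneg_right hX (by linarith)
      have h7 : s * (δ - s) ≤ 11 / 400 * (δ - s) := mul_le_mul_of_nonneg_right hs1 (by linarith)
      have h8 : 0 ≤ s ^ 2 * (δ - s) := mul_nonneg s2 (by linarith)
      linarith
  · rw [max_eq_right (by linarith)]
    refine mono1 hs hs1 m0 m1 (h.a3 h2) (by linarith) hB ?_
    have h9 : s ^ 2 ≤ 1 / 1000 := by nlinarith only [hs, hs1]
    have h4 : (X - 71 / 100 * s ^ 2) * (2 * s) ≤ (X + μ * x) * δ :=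
      mul_le_mul (by linarith) h2.le (by linarith) (by linarith)
    linarith

/-- The value above `h0`, the first part. -/
theorem up_val1 {s μ X A B x T : ℝ} (hs : 0 < s) (hs1 : s ≤ 11 / 400) (m0 : 0 ≤ μ)
    (m1 : μ ≤ 201 / 1000) (hT : h0 ≤ T) (hTs : T - h0 ≤ s)
    (X0 : 1 / 2 + 2 * h0 * (T - h0) ≤ X) (X1 : X ≤ 1 / 2 + 203 / 100 * (T - h0))
    (A0 : 1 / 2 - 10 * (T - h0) ≤ A) (A1 : A ≤ 5 / 2) (B0 : 0 ≤ B)
    (x1 : x ≤ 2 * s * (T - h0)) :
    0 ≤ FV s μ X T ((we s + μ * wq s) * A + μ * (wq s * B)) x ((T - h0) / s - 1) := by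
  have hh := h0_pos
  have g1 := h0_gt
  have g2 := h0_lt
  obtain ⟨δ, hδ⟩ : ∃ δ, δ = T - h0 := ⟨_, rfl⟩
  have hd : 0 ≤ δ := by linarith
  rw [← hδ] at X0 X1 A0 x1 hTs ⊢
  obtain ⟨a0, a1, a2, -, -, -⟩ := E_bd hs hs1 m0 m1
  obtain ⟨q0, -, -, -⟩ := muq hs hs1 m0 m1
  obtain ⟨k1, k2⟩ := k_bd
  refine le_trans ?_ (FV_ge' hs hs1 m0 m1 (by linarith) (by linarith) (by positivity) x1)
  have e1 : X * (1 / 2 + 1 / (2 * h0) * T) = X + X * (1 / (2 * h0) * δ) := by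
    rw [hδ]
    field_simp
    ring
  have h1 : 0 ≤ X * (1 / (2 * h0) * δ) := by
    have : 0 ≤ 2 * h0 * δ := by positivity
    exact mul_nonneg (by linarith) (by positivity)
  rw [e1]
  set E := we s + μ * wq s
  set m := δ / s with hm
  have m0' : 0 ≤ m := by positivity
  have m1' : m ≤ 1 := by
    rw [hm, div_le_one hs]
    exact hTs
  have em : s * m = δ := by
    rw [hm]
    field_simp
  -- the terms
  have t1 : E * (X - A) ≤ 161 / 10000 * (13 * δ) := by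
    have h3 : E * (X - A) ≤ E * (13 * δ) := mul_le_mul_of_nonneg_left (by linarith) a0
    have h4 := mul_le_mul_of_nonneg_right a1 (by positivity : 0 ≤ 13 * δ)
    linarith
  have t2 : E * (A * m) ≤ 145 / 100 * δ := by
    have h3 : A * m ≤ 5 / 2 * m := mul_le_mul_of_nonneg_right A1 m0'
    have h4 := mul_le_mul_of_nonneg_left h3 a0
    have h5 := mul_le_mul_of_nonneg_right a2 (by positivity : 0 ≤ 5 / 2 * m)
    linarith
  have t3 : 0 ≤ μ * (wq s * B) * (1 - m) := by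
    refine mul_nonneg ?_ (by linarith)
    rw [← mul_assoc]
    exact mul_nonneg q0 B0
  have t4 : s * δ ≤ 11 / 400 * δ := mul_le_mul_of_nonneg_right hs1 hd
  have t5 : 2 * (8660 / 10000) * δ ≤ 2 * h0 * δ := by
    have := mul_le_mul_of_nonneg_right g1.le hd
    linarith
  have e2 : X + X * (1 / (2 * h0) * δ) - 1 / 2 - X * E - (E * A + μ * (wq s * B)) * (m - 1) -
      1 / 2 * (2 * s * δ) = (X - 1 / 2) + X * (1 / (2 * h0) * δ) - E * (X - A) - E * (A * m) +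
        μ * (wq s * B) * (1 - m) - s * δ := by ring
  rw [e2]
  linarith

/-- The value above `h0`, the second part. -/
theorem up_val2 {s μ X A B x M T : ℝ} (hs : 0 < s) (hs1 : s ≤ 11 / 400) (m0 : 0 ≤ μ)
    (m1 : μ ≤ 201 / 1000) (hT : h0 ≤ T) (hT1 : T ≤ 1) (hTs : s ≤ T - h0)
    (X0 : 1 / 2 + 2 * h0 * (T - h0) ≤ X) (X1 : X ≤ 1)
    (A1 : |A| ≤ 5 / 2) (B1 : |B| ≤ 1 / 2) (x1 : x ≤ 7 / 2 * s ^ 2) (M0 : 0 ≤ M)
    (M1 : M ≤ (T - h0 - s) / (T - h0)) :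
    0 ≤ FV s μ X T ((we s + μ * wq s) * A + μ * (wq s * B)) x M := by
  have hh := h0_pos
  have g1 := h0_gt
  have g2 := h0_lt
  obtain ⟨δ, hδ⟩ : ∃ δ, δ = T - h0 := ⟨_, rfl⟩
  have hd : 0 < δ := by linarith
  rw [← hδ] at X0 hTs M1
  obtain ⟨a0, a1, a2, -, -, -⟩ := E_bd hs hs1 m0 m1
  obtain ⟨q0, q1, -, -⟩ := muq hs hs1 m0 m1
  obtain ⟨k1, k2⟩ := k_bd
  refine le_trans ?_ (FV_ge' hs hs1 m0 m1 (by linarith) hT1 (by positivity) x1)
  have e1 : X * (1 / 2 + 1 / (2 * h0) * T) = X + X * (1 / (2 * h0) * δ) := by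
    rw [hδ]
    field_simp
    ring
  have t5 : 2 * (8660 / 10000) * δ ≤ 2 * h0 * δ := by
    have := mul_le_mul_of_nonneg_right g1.le hd.le
    linarith
  have h1 : 0 ≤ X * (1 / (2 * h0) * δ) := mul_nonneg (by linarith) (by positivity)
  rw [e1]
  set E := we s + μ * wq s
  have s2 : s ^ 2 ≤ 11 / 400 * δ := by
    have : s * s ≤ 11 / 400 * δ := mul_le_mul hs1 hTs hs.le (by norm_num)
    linarith
  have t1 : X * E ≤ 58 / 100 * δ := by
    have : X * E ≤ 1 * (58 / 100 * s) := mul_le_mul X1 a2 a0 (by norm_num)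
    linarith
  have r1 : E * A + μ * (wq s * B) ≤ 147 / 100 * s := by
    have h3 : E * A ≤ E * (5 / 2) := mul_le_mul_of_nonneg_left (abs_le.1 A1).2 a0
    have h4 : μ * wq s * B ≤ μ * wq s * (1 / 2) := mul_le_mul_of_nonneg_left (abs_le.1 B1).2 q0
    have h5 : s ^ 2 ≤ 11 / 400 * s := by nlinarith only [hs, hs1]
    linarith
  have t2 : (E * A + μ * (wq s * B)) * M ≤ 147 / 100 * (δ / 4) := by
    have h3 := mul_le_mul_of_nonneg_right r1 M0
    have h4 : s * M ≤ δ / 4 := by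
      have h5 : s * M ≤ s * ((δ - s) / δ) := mul_le_mul_of_nonneg_left M1 hs.le
      refine h5.trans ?_
      rw [mul_div_assoc', div_le_iff₀ hd]
      nlinarith only [sq_nonneg (δ - 2 * s)]
    linarith
  linarith

/-- The value at the curve right of `W`. -/
theorem up_val3 {s μ X A B x M T : ℝ} (hs : 0 < s) (hs1 : s ≤ 11 / 400) (m0 : 0 ≤ μ)
    (m1 : μ ≤ 201 / 1000) (hT : h0 ≤ T) (hT1 : T ≤ 1) (X0 : 62 / 100 ≤ X) (X1 : X ≤ 1)
    (A1 : |A| ≤ 5 / 2) (B1 : |B| ≤ 1 / 2) (x1 : x ≤ 7 / 2 * s ^ 2) (hM : |M| ≤ 1) :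
    0 ≤ FV s μ X T ((we s + μ * wq s) * A + μ * (wq s * B)) x M := by
  have hh := h0_pos
  have g1 := h0_gt
  have g2 := h0_lt
  obtain ⟨a0, a1, -, -, -, -⟩ := E_bd hs hs1 m0 m1
  obtain ⟨q0, -, q2, -⟩ := muq hs hs1 m0 m1
  obtain ⟨k1, k2⟩ := k_bd
  refine le_trans ?_ (FV_ge' hs hs1 m0 m1 (by linarith) hT1 (by positivity) x1)
  have e1 : X * (1 / 2 + 1 / (2 * h0) * T) = X + X * (1 / (2 * h0) * (T - h0)) := by
    field_simp
    ring
  have h1 : 0 ≤ X * (1 / (2 * h0) * (T - h0)) :=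
    mul_nonneg (by linarith) (mul_nonneg (by positivity) (by linarith))
  have h2 : X - X * (we s + μ * wq s) ≥ 62 / 100 * (1 - 161 / 10000) := by
    have : 62 / 100 * (1 - 161 / 10000) ≤ X * (1 - (we s + μ * wq s)) :=
      mul_le_mul X0 (by linarith) (by norm_num) (by linarith)
    linarith
  have h3 : |(we s + μ * wq s) * A + μ * (wq s * B)| ≤ 403 / 10000 := by
    refine (abs_add_le _ _).trans ?_
    rw [abs_mul, abs_of_nonneg a0, ← mul_assoc, abs_mul, abs_of_nonneg q0]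
    have h4 := mul_le_mul a1 A1 (abs_nonneg _) (by norm_num)
    have h5 := mul_le_mul q2 B1 (abs_nonneg _) (by norm_num)
    linarith
  have h4 : |((we s + μ * wq s) * A + μ * (wq s * B)) * M| ≤ 403 / 10000 * 1 := by
    rw [abs_mul]
    exact mul_le_mul h3 hM (abs_nonneg _) (by norm_num)
  have h5 := (abs_le.1 h4).2
  have s2 : s ^ 2 ≤ 1 / 1000 := by nlinarith only [hs, hs1]
  rw [e1]
  linarith

/-- The node values right of `W`. -/
theorem cv2_up {s T : ℝ} (hs : 0 < s) (hs1 : s ≤ 11 / 400) (hT : h0 ≤ T) (hT1 : T ≤ 1) :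
    UpA s (T - h0) (Wc T + 3 / 20 * (c3 T - Wc T))
      (RW par s T + 353 / 500 * (3 / 20 * (c3 T - Wc T))) := by
  have hh := h0_pos
  have g1 := h0_gt
  have g2 := h0_lt
  have hq := h0_sq'
  obtain ⟨w0, w1, w2, w3, w4, w5⟩ := W_up2 hT hT1
  obtain ⟨r1, r2, r3⟩ := RW_up hs hs1 hT hT1
  have key : T - h0 ≤ 2 * s → RW par s T + 353 / 500 * (3 / 20 * (c3 T - Wc T)) ≤
      Wc T + 3 / 20 * (c3 T - Wc T) := by
    intro h
    have e := c3_sq (t := T) (by nlinarith only [hT, hT1, hh])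
    have : 14659 / 10000 ≤ c3 T := by
      refine le_of_sq_le_sq' ?_ (c3_nonneg T) (by norm_num)
      have h1 : T ^ 2 ≤ (h0 + 55 / 1000) ^ 2 := by
        nlinarith only [h, hT, hs1, hh]
      have h2 : (h0 + 55 / 1000) ^ 2 = h0 ^ 2 + 11 / 100 * h0 + (55 / 1000) ^ 2 := by ring
      linarith
    have := r1 h
    linarith
  refine ⟨fun h => ?_, fun h h' => ?_, fun h => ?_⟩
  · have := key (by linarith)
    linarith
  · have := key h'
    linarith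
  · have := r3 h
    linarith

/-- The curve right of `W`. -/
theorem half_cv2 {s μ T x : ℝ} {R Xi : ℝ → ℝ → ℝ} (hs : 0 < s) (hs1 : s ≤ 11 / 400)
    (m0 : 0 ≤ μ) (m1 : μ ≤ 201 / 1000) (hT : h0 ≤ T) (hT1 : T ≤ 1) {B : ℝ}
    (hB : |B| ≤ 1 / 2)
    (hR : R (Wc T + 3 / 20 * (c3 T - Wc T)) T = ((we s + μ * wq s) *
      (RW par s T + 353 / 500 * (3 / 20 * (c3 T - Wc T))) + μ * wq s * B) / we s)
    (hx : Xi (Wc T + 3 / 20 * (c3 T - Wc T)) T = x) (hxb : |x| ≤ 7 / 2 * s ^ 2) :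
    Half (kE s) s μ (1 / 2 - we s - μ * wq s) R Xi (fun _ _ => 0) (fun _ => 0) 0 0
      (Wc T + 3 / 20 * (c3 T - Wc T)) T 0 := by
  have hh := h0_pos
  have g1 := h0_gt
  have g2 := h0_lt
  obtain ⟨w0, w1, w2, w3, w4, w5⟩ := W_up2 hT hT1
  obtain ⟨M, M1, hM⟩ := mean_ex hs hs1 (tau T)
  have A1 : |RW par s T + 353 / 500 * (3 / 20 * (c3 T - Wc T))| ≤ 5 / 2 := by
    have := abs_le.1 (RW_abs_up hs hs1 hT (by nlinarith only [hT, hT1, hh]))
    rw [abs_le]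
    constructor <;> linarith [this.1, this.2]
  obtain ⟨x0, x1⟩ := abs_le.1 hxb
  refine half_ab hs hs1 m0 m1 (by linarith) hR hx hM ?_ ?_ (by linarith) hB (by linarith) x0
  · exact up_val3 hs hs1 m0 m1 hT hT1 (by linarith) (by linarith) A1 hB x1 M1
  · rw [tau_mid (by linarith) (by linarith)]
    exact up_mono hs hs1 m0 m1 (by linarith) (by linarith) (by linarith) (abs_le.1 hB).2 x0
      (cv2_up hs hs1 hT hT1)

/-- The steep direction. -/
theorem half_steep {s μ T X A B x : ℝ} {R Xi : ℝ → ℝ → ℝ} (hs : 0 < s) (hs1 : s ≤ 11 / 400)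
    (m0 : 0 ≤ μ) (m1 : μ ≤ 201 / 1000) (hT : h0 ≤ T) (hT1 : T ≤ 1) (hX : X = 1 - c1 T)
    (B0 : 0 ≤ B) (hB : B ≤ 1 / 2) (hA : |A| ≤ 5 / 2) (hxb : |x| ≤ 7 / 2 * s ^ 2)
    (A0 : T - h0 ≤ s → 1 / 2 - 10 * (T - h0) ≤ A) (hxs : T - h0 ≤ s → x ≤ 2 * s * (T - h0))
    (hU : UpA s (T - h0) X A)
    (hR : R X T = ((we s + μ * wq s) * A + μ * wq s * B) / we s) (hx : Xi X T = x) :
    Half (kE s) s μ (1 / 2 - we s - μ * wq s) R Xi (fun _ _ => 0) (fun _ => 0) 0 0 X T 0 := by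
  have hh := h0_pos
  have g1 := h0_gt
  have g2 := h0_lt
  have u1 := c1_61 hT hT1
  have c0 := c1_nonneg T
  have hd : 0 ≤ T - h0 := by linarith
  have X0 : 1 / 2 + 2 * h0 * (T - h0) ≤ X := by linarith
  have X2 : 1 / 2 ≤ X := by
    have : 0 ≤ 2 * h0 * (T - h0) := by positivity
    linarith
  obtain ⟨x0, x1⟩ := abs_le.1 hxb
  have hBa : |B| ≤ 1 / 2 := by
    rw [abs_of_nonneg B0]
    exact hB
  have et := tau_mid (T := T) (by linarith) (by linarith)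
  have hmono : 2 * h0 * ((we s + μ * wq s) * A + μ * (wq s * B)) ≤
      (X + μ * x) * max s |tau T| := by
    rw [et]
    exact up_mono hs hs1 m0 m1 hd (by linarith) X2 hB x0 hU
  rcases le_total (T - h0) s with h | h
  · have hM : mn (D s (kE s)) 0 (tau T) = we s * ((T - h0) / s - 1) := by
      rw [et]
      exact mean_low hs hs1 hd h
    have u2 := c1_61lo (a := 203 / 100) hT hT1 (by norm_num) (by linarith)
    exact half_ab hs hs1 m0 m1 (by linarith) hR hx hM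
      (up_val1 hs hs1 m0 m1 hT h X0 (by linarith) (A0 h) (abs_le.1 hA).2 B0 (hxs h)) hmono hA hBa
      X2 x0
  · have hM := mean_high hs hs1 h (by linarith)
    rw [← et] at hM
    obtain ⟨M0, M1⟩ := mean_bd hs hs1 h (by linarith)
    rw [← et] at M0 M1
    have M1' := M1
    rw [et] at M1'
    refine half_ab hs hs1 m0 m1 (by linarith) hR hx hM ?_ hmono hA hBa X2 x0
    refine up_val2 hs hs1 m0 m1 hT hT1 h X0 (by linarith) hA hBa x1 M0 ?_
    rw [et]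
    exact M1'

end Pool.Agent.Strip051.LC.E0
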