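import Pool.Agent.Strip051.LC.E0.FlI

/-! # Small rests: the rows at the floor -/

namespace Pool.Agent.Strip051.LC.E0

open Pool.Agent.StripNear Pool.Agent.StripSquare Pool.Agent.Strip051 Pool.Agent.Strip051.Sweep
open Pool.Agent.Strip051.LC.Line
open Pool.Agent.Strip051.LC.Exact (kE)

theorem ker_val {v : ℝ → Fin 4 → ℝ} (hv : K.adm v) (j : Fin 4) {T : ℝ} (hT : 0 ≤ T)
    (h : pos.dm j T) : ker K.nodes v (fun _ _ => 0) (pos.cv j T) T = v T j :=
  K.val v hv j T hT h

theorem ker_pl {v : ℝ → Fin 4 → ℝ} (hv : K.adm v) (i : Fin 3) {X T : ℝ} (hT : 0 ≤ T)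
    (h3 : T ^ 2 ≤ 3) (h1 : pos.cv i.castSucc T ≤ X) (h2 : X ≤ pos.cv i.succ T) :
    ker K.nodes v (fun _ _ => 0) X T =
      pl (pos.cv i.castSucc T) (v T i.castSucc) (pos.cv i.succ T) (v T i.succ) X :=
  K.seg v hv i X T hT h3 h1 h2

theorem pl_self {a b y x : ℝ} : pl a y b y x = y := by
  unfold pl
  ring

theorem pl_lin {a b y1 y2 w1 w2 p q r x : ℝ} :
    pl a ((p * y1 + q * w1) / r) b ((p * y2 + q * w2) / r) x =
      (p * pl a y1 b y2 x + q * pl a w1 b w2 x) / r := by
  unfold pl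
  ring

/-! ### The values -/

section

variable {s T : ℝ}

theorem vA_z : vA par s T 0 = if T < 1 then R1 par s T else 0 := rfl

theorem vA_one (h : h0 / 2 ≤ T) : vA par s T 1 =
    if T < h0 then R1 par s T + par.l2 * (1 / 3 * (Wc T - c1 T))
    else if T < 3 * h0 / 2 then RW par s T else Wc T / 2 := by
  have e : vA par s T 1 = if T < h0 / 2 then RA par s T
    else if T < h0 then R1 par s T + par.l2 * (1 / 3 * (Wc T - c1 T))
    else if T < 3 * h0 / 2 then RW par s T else Wc T / 2 := rfl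
  rw [e, if_neg h.not_gt]

theorem vA_two : vA par s T 2 = if T < h0 then RW par s T
    else if T < 3 * h0 / 2 then RW par s T + par.l1 * (3 / 20 * (c3 T - Wc T))
    else (Wc T + 3 / 20 * (c3 T - Wc T)) / 2 := rfl

theorem vA_three : vA par s T 3 = R3 par s T := rfl

theorem vR_z : vR par s T 0 = if T < h0 / 2 then r2 par s * taper (T / s) else 0 := rfl

theorem vR_one : vR par s T 1 = if T < h0 / 2 then r2 par s * taper (T / s)
    else if T < h0 then 0
    else if T < 3 * h0 / 2 then (r2 par s + r2d par s) * taper ((T - h0) / s) else 0 := rfl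

theorem vR_two : vR par s T 2 = if T < h0 / 2 then r2 par s * taper (T / s)
    else if T < h0 then (r2 par s - r2d par s) * taper ((h0 - T) / s)
    else if T < 3 * h0 / 2 then (r2 par s + r2d par s) * taper ((T - h0) / s) else 0 := rfl

theorem vR_three : vR par s T 3 = 0 := rfl

theorem vX_z : vX par s T 0 = s ^ 2 * if T < 1 then X1 par s T else 0 := rfl

theorem vX_one (h : h0 / 2 ≤ T) (h' : T < 3 * h0 / 2) : vX par s T 1 =
    s ^ 2 * if T < h0 then X1 par s T else xW par s ((T - h0) / s) := by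
  have e : vX par s T 1 = s ^ 2 * if T < h0 / 2 then xA par s (T / s)
    else if T < h0 then X1 par s T
    else if T < 3 * h0 / 2 then xW par s ((T - h0) / s)
    else XV par s (pos.cv 2 T) * (pos.cv 1 T / pos.cv 2 T) := rfl
  rw [e, if_neg h.not_gt, if_pos h']

theorem vX_two (h' : T < 3 * h0 / 2) : vX par s T 2 =
    s ^ 2 * if T < h0 / 2 then xA par s (T / s)
      else if T < h0 then xW par s ((h0 - T) / s) else xW par s ((T - h0) / s) := by
  have e : vX par s T 2 = s ^ 2 * if T < h0 / 2 then xA par s (T / s)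
    else if T < h0 then xW par s ((h0 - T) / s)
    else if T < 3 * h0 / 2 then xW par s ((T - h0) / s)
    else XV par s (pos.cv 2 T) := rfl
  rw [e, if_pos h']

theorem vX_three : vX par s T 3 = s ^ 2 * X3 par s T := rfl

end

/-- The level table on the circle of radius `√3` next to `30` degrees. -/
theorem X3_up {s T : ℝ} (hs : 0 < s) (hs1 : s ≤ 11 / 400) (hT : h0 ≤ T) (h : T - h0 ≤ s) :
    s ^ 2 * X3 par s T ≤ 2 * s * (T - h0) := by
  have hh := h0_pos
  have g1 := h0_gt
  have g2 := h0_lt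
  have hq := h0_sq'
  have e := c3_sq (t := T) (by nlinarith only [hT, h, hs1, hh, g2])
  have c0 := c3_nonneg T
  have hd : 0 ≤ T - h0 := by linarith
  have e' : c3 T ^ 2 = 9 / 4 - 2 * h0 * (T - h0) - (T - h0) ^ 2 := by
    linear_combination e - hq
  have cl : 3 / 2 - 62 / 100 * (T - h0) ≤ c3 T := by
    refine le_of_sq_le_sq' ?_ c0 (by linarith)
    have h2 : h0 * (T - h0) ≤ 8661 / 10000 * (T - h0) :=
      mul_le_mul_of_nonneg_right (by linarith) hd
    have h3 : (T - h0) ^ 2 ≤ 11 / 400 * (T - h0) := by nlinarith only [hd, h, hs1]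
    rw [e']
    linarith
  have cu : c3 T ≤ 3 / 2 := by
    refine le_of_sq_le_sq' ?_ (by norm_num) c0
    have : 0 ≤ 2 * h0 * (T - h0) := by positivity
    have := sq_nonneg (T - h0)
    linarith
  unfold X3
  rw [quot4]
  split_ifs with h1 h2
  · have hT0 : T = h0 := le_antisymm h1 hT
    have hc : c3 T = 3 / 2 := by
      rw [hT0] at cl ⊢ cu
      linarith
    rw [hc, hT0]
    have e0 : 3 / 2 * h0 / 3 - h0 / 2 = 0 := by ring
    rw [e0, zero_div, zero_div, xA_zero, xB_zero]
    simp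
  · obtain ⟨p, hp⟩ : ∃ p, p = T / 2 - c3 T * h0 / 3 := ⟨_, rfl⟩
    rw [← hp]
    have k1 : h0 * (3 / 2 - c3 T) ≤ 8661 / 10000 * (62 / 100 * (T - h0)) :=
      mul_le_mul (by linarith) (by linarith) (by linarith) (by norm_num)
    have k2 : h0 * c3 T ≤ h0 * (3 / 2) := mul_le_mul_of_nonneg_left cu hh.le
    have p0 : 0 ≤ p := by linarith
    have p1 : p ≤ T - h0 := by linarith
    obtain ⟨-, a1⟩ := xA_pos hs hs1 (div_nonneg p0 hs.le)
    obtain ⟨b0, -⟩ := xB_pos (div_nonneg p0 (by linarith : 0 ≤ 2 * s))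
    have h3 : s ^ 2 * (2 * xA par s (p / s) - xB par (p / (2 * s))) ≤ s ^ 2 * (2 * (p / s)) :=
      mul_le_mul_of_nonneg_left (by linarith) (sq_nonneg s)
    have h4 : s ^ 2 * (2 * (p / s)) = 2 * s * p := by field_simp
    have h5 : 2 * s * p ≤ 2 * s * (T - h0) := mul_le_mul_of_nonneg_left p1 (by positivity)
    linarith
  · exfalso
    linarith

theorem vX_abs' {s T : ℝ} (hs : 0 < s) (hs1 : s ≤ 11 / 400) (hT : 0 ≤ T) (hT3 : T ^ 2 ≤ 3)
    (j : Fin 4) : |vX par s T j| ≤ 7 / 2 * s ^ 2 := by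
  unfold vX
  rw [abs_mul, abs_of_nonneg (sq_nonneg s), mul_comm]
  exact mul_le_mul_of_nonneg_right (vx_abs hs hs1 hT hT3 j) (sq_nonneg s)

/-- The steep direction. -/
theorem steepM {s μ T : ℝ} (hs : 0 < s) (hs1 : s ≤ 11 / 400) (m0 : 0 ≤ μ)
    (m1 : μ ≤ 201 / 1000) (hT : h0 ≤ T) (hT1 : T ≤ 1) :
    Half (kE s) s μ (1 / 2 - we s - μ * wq s) (ker K.nodes (vM μ s) fun _ _ => 0)
      (ker K.nodes (vX par s) fun _ _ => 0) (fun _ _ => 0) (fun _ => 0) 0 0 (1 - c1 T) T 0 := by
  have hh := h0_pos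
  have g1 := h0_gt
  have g2 := h0_lt
  have hT0 : 0 ≤ T := by linarith
  have hT3 : T ^ 2 ≤ 3 := by nlinarith only [hT0, hT1]
  have h32 : T < 3 * h0 / 2 := by linarith
  have u1 := c1_61 hT hT1
  rcases hT.eq_or_lt with hT' | hT'
  · -- the node at `h0`
    have hc : c1 h0 = 1 / 2 := by
      obtain ⟨v1, v2, -⟩ := c1_60 (le_refl (0 : ℝ)) (by norm_num)
      rw [sub_zero] at v1 v2
      linarith
    have e : 1 - c1 T = c1 T := by
      rw [← hT', hc]
      norm_num
    rw [e]
    have hdm : pos.dm 0 T := dm_zero.2 ⟨by linarith, by nlinarith only [hT0, hT1]⟩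
    have r1 := ker_val (adm_vM μ s) 0 hT0 hdm
    have r2 := ker_val (adm_vX par s) 0 hT0 hdm
    rw [cv_zero] at r1 r2
    refine half_c1_up hs hs1 m0 m1 (by linarith) hT'.ge ?_ ?_
    · rw [r1]
      unfold vM
      rw [vA_z, vR_z, if_pos (by linarith), if_neg (by linarith)]
    · rw [r2, vX_z, if_pos (by linarith)]
  obtain ⟨w0, w1, w2, w3, w4, w5⟩ := W_up2 hT hT1
  obtain ⟨ra, rb, rc⟩ := RW_up hs hs1 hT hT1
  have hd : 0 < T - h0 := by linarith
  have u0 : 2 * (8660 / 10000) * (T - h0) ≤ 2 * h0 * (T - h0) := by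
    have := mul_le_mul_of_nonneg_right g1.le hd.le
    linarith
  have c0 := c1_nonneg T
  have hz : 0 ≤ (T - h0) / s := by positivity
  obtain ⟨i, i1, i2⟩ := K.cover (1 - c1 T) T hT0 hT3 (by linarith) (by linarith)
  have i1' : pos.cv i.castSucc T ≤ 1 - c1 T := i1
  have i2' : 1 - c1 T ≤ pos.cv i.succ T := i2
  have kM := ker_pl (adm_vM μ s) i hT0 hT3 i1' i2'
  have kX := ker_pl (adm_vX par s) i hT0 hT3 i1' i2'
  have eβ1 : vR par s T 1 = (r2 par s + r2d par s) * taper ((T - h0) / s) := by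
    rw [vR_one, if_neg (by linarith), if_neg (by linarith), if_pos h32]
  have eβ2 : vR par s T 2 = (r2 par s + r2d par s) * taper ((T - h0) / s) := by
    rw [vR_two, if_neg (by linarith), if_neg (by linarith), if_pos h32]
  obtain ⟨-, -, q1, q2, -, -⟩ := r2_sharp hs hs1
  obtain ⟨β0, β1⟩ := rt_pos hz q1 q2
  set β := (r2 par s + r2d par s) * taper ((T - h0) / s)
  have eξ1 : vX par s T 1 = s ^ 2 * xW par s ((T - h0) / s) := by
    rw [vX_one (by linarith) h32, if_neg (by linarith)]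
  have eξ2 : vX par s T 2 = s ^ 2 * xW par s ((T - h0) / s) := by
    rw [vX_two h32, if_neg (by linarith), if_neg (by linarith)]
  obtain ⟨-, ξb⟩ := xW_pos hs hs1 hz
  have ξ2 : s ^ 2 * xW par s ((T - h0) / s) ≤ 2 * s * (T - h0) := by
    have h1 := mul_le_mul_of_nonneg_left ξb (sq_nonneg s)
    have h2 : s ^ 2 * ((T - h0) / s) = s * (T - h0) := by field_simp
    have : 0 ≤ s * (T - h0) := by positivity
    linarith
  have ξa : |s ^ 2 * xW par s ((T - h0) / s)| ≤ 7 / 2 * s ^ 2 := by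
    rw [abs_mul, abs_of_nonneg (sq_nonneg s)]
    have := mul_le_mul_of_nonneg_left (xW_bd hs hs1 hz) (sq_nonneg s)
    have := sq_nonneg s
    linarith
  set ξ := s ^ 2 * xW par s ((T - h0) / s)
  have eA1 : vA par s T 1 = RW par s T := by
    rw [vA_one (by linarith), if_neg (by linarith), if_pos h32]
  have eA2 : vA par s T 2 = RW par s T + 353 / 500 * (3 / 20 * (c3 T - Wc T)) := by
    rw [vA_two, if_neg (by linarith), if_pos h32]
    rfl
  have cA1 := vA_abs hs hs1 hT0 hT3 1
  have cA2 := vA_abs hs hs1 hT0 hT3 2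
  have cA3 := vA_abs hs hs1 hT0 hT3 3
  rw [eA1] at cA1
  rw [eA2] at cA2
  rw [vA_three] at cA3
  fin_cases i
  · exfalso
    have : pos.cv 1 T = Wc T := cv_one_high hT
    change 1 - c1 T ≤ pos.cv 1 T at i2'
    rw [this] at i2'
    linarith
  · change pos.cv 1 T ≤ 1 - c1 T at i1'
    change 1 - c1 T ≤ pos.cv 2 T at i2'
    change _ = pl (pos.cv 1 T) (vM μ s T 1) (pos.cv 2 T) (vM μ s T 2) _ at kM
    change _ = pl (pos.cv 1 T) (vX par s T 1) (pos.cv 2 T) (vX par s T 2) _ at kX
    rw [cv_one_high hT] at i1' kM kX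
    rw [cv_two_high hT] at i2' kM kX
    unfold vM at kM
    rw [pl_lin, eA1, eA2, eβ1, eβ2, pl_self] at kM
    rw [eξ1, eξ2, pl_self] at kX
    have eP : pl (Wc T) (RW par s T) (Wc T + 3 / 20 * (c3 T - Wc T))
        (RW par s T + 353 / 500 * (3 / 20 * (c3 T - Wc T))) (1 - c1 T) =
        RW par s T + 353 / 500 * (1 - c1 T - Wc T) := by
      have hne : 3 / 20 * (c3 T - Wc T) ≠ 0 := by linarith
      unfold pl
      rw [add_sub_cancel_left, add_sub_cancel_left]
      generalize 3 / 20 * (c3 T - Wc T) = q at hne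
      field_simp
    have aP : |pl (Wc T) (RW par s T) (Wc T + 3 / 20 * (c3 T - Wc T))
        (RW par s T + 353 / 500 * (3 / 20 * (c3 T - Wc T))) (1 - c1 T)| ≤ 5 / 2 :=
      abs_pl (by linarith) i1' i2' cA1 cA2
    rw [eP] at kM aP
    refine half_steep hs hs1 m0 m1 hT hT1 rfl β0 (by linarith) aP ξa (fun h => ?_) (fun _ => ξ2)
      ⟨fun h => ?_, fun h h' => ?_, fun h => ?_⟩ kM kX
    · have := rb (by linarith)
      linarith
    · have := ra (by linarith)
      linarith
    · have := ra h'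
      linarith
    · have := rc h
      linarith
  · change pos.cv 2 T ≤ 1 - c1 T at i1'
    change 1 - c1 T ≤ pos.cv 3 T at i2'
    change _ = pl (pos.cv 2 T) (vM μ s T 2) (pos.cv 3 T) (vM μ s T 3) _ at kM
    change _ = pl (pos.cv 2 T) (vX par s T 2) (pos.cv 3 T) (vX par s T 3) _ at kX
    rw [cv_two_high hT] at i1' kM kX
    rw [cv_three] at i2' kM kX
    unfold vM at kM
    rw [pl_lin, eA2, vA_three, eβ2, vR_three] at kM
    rw [eξ2, vX_three] at kX
    have hlt : Wc T + 3 / 20 * (c3 T - Wc T) < c3 T := by linarith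
    obtain ⟨s1, s2⟩ := R3_up hs hT hT1
    have hU := cv2_up hs hs1 hT hT1
    have ξ3 := vX_abs' hs hs1 hT0 hT3 3
    rw [vX_three] at ξ3
    refine half_steep hs hs1 m0 m1 hT hT1 rfl (le_pl hlt i1' i2' β0 le_rfl)
      (pl_le hlt i1' i2' (by linarith) (by norm_num)) (abs_pl hlt i1' i2' cA2 cA3)
      (abs_pl hlt i1' i2' ξa ξ3) (fun h => ?_) (fun h => ?_)
      ⟨fun h => ?_, fun h h' => ?_, fun h => ?_⟩ kM kX
    · refine le_pl hlt i1' i2' ?_ (by linarith)
      have := rb (by linarith)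
      linarith
    · exact pl_le hlt i1' i2' ξ2 (X3_up hs hs1 hT h)
    · have := pl_le_aff (y0 := RW par s T + 353 / 500 * (3 / 20 * (c3 T - Wc T))) (a := 1)
        (b := 18 / 100 * s) hlt i1' i2' (by linarith [hU.a1 h])
        (by linarith : R3 par s T ≤ 1 * c3 T + 18 / 100 * s)
      linarith
    · have := pl_le_aff (y0 := RW par s T + 353 / 500 * (3 / 20 * (c3 T - Wc T))) (a := 1)
        (b := 18 / 100 * s + 68 / 100 * (T - h0 - s)) hlt i1' i2'
        (by linarith [hU.a2 h h'])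
        (by linarith : R3 par s T ≤ 1 * c3 T + (18 / 100 * s + 68 / 100 * (T - h0 - s)))
      linarith
    · have := pl_le_aff (y0 := RW par s T + 353 / 500 * (3 / 20 * (c3 T - Wc T))) (a := 2)
        (b := 0) hlt i1' i2' (by linarith [hU.a3 h])
        (by linarith : R3 par s T ≤ 2 * c3 T + 0)
      linarith

/-- The nodes. -/
theorem nodeM {s μ X T : ℝ} (hs : 0 < s) (hs1 : s ≤ 11 / 400) (m0 : 0 ≤ μ)
    (m1 : μ ≤ 201 / 1000) (hT0 : 0 ≤ T) (hT1 : T ≤ 1) (hX : 0 < X) (h3 : X ^ 2 + T ^ 2 ≤ 3)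
    (hN : NodeAt K.nodes X T) (hc : T ≤ h0 ∨ 1 - c1 T ≤ X) :
    Half (kE s) s μ (1 / 2 - we s - μ * wq s) (ker K.nodes (vM μ s) fun _ _ => 0)
      (ker K.nodes (vX par s) fun _ _ => 0) (fun _ _ => 0) (fun _ => 0) 0 0 X T 0 := by
  have hh := h0_pos
  have g1 := h0_gt
  have g2 := h0_lt
  have hT3 : T ^ 2 ≤ 3 := by nlinarith only [hT0, hT1]
  have h32 : T < 3 * h0 / 2 := by linarith
  obtain ⟨j, hj, ej⟩ := K.node X T hT0 h3 hN
  rw [abs_of_pos hX] at ej
  have ej' : X = pos.cv j T := ej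
  have hj' : pos.dm j T := hj
  have kM := ker_val (adm_vM μ s) j hT0 hj'
  have kX := ker_val (adm_vX par s) j hT0 hj'
  rw [← ej'] at kM kX
  obtain ⟨o1, o2, o3, o4, o5⟩ := order5 hT0 hT3
  obtain ⟨-, -, q1, q2, q3, q4⟩ := r2_sharp hs hs1
  fin_cases j
  · change X = pos.cv 0 T at ej'
    change _ = vM μ s T 0 at kM
    change _ = vX par s T 0 at kX
    rw [cv_zero] at ej'
    have hT' : T ≤ h0 := by
      rcases hc with h | h
      · exact h
      · by_contra h4
        rw [not_le] at h4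
        have := c1_61 h4.le hT1
        have : 0 < 2 * h0 * (T - h0) := mul_pos (by positivity) (by linarith)
        linarith
    subst ej'
    unfold vM at kM
    rw [vA_z, vR_z, if_pos (by linarith)] at kM
    rw [vX_z, if_pos (by linarith)] at kX
    rcases lt_or_ge T (h0 / 2) with h | h
    · have e1 : R1 par s T = RA par s T := by
        unfold R1
        rw [if_pos h]
      have e2 : X1 par s T = xA par s (T / s) := by
        unfold X1
        rw [if_pos (by linarith)]
      rw [if_pos h, e1] at kM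
      rw [e2] at kX
      exact half_low hs hs1 m0 m1 hT0 h le_rfl kM kX
    · rw [if_neg h.not_gt] at kM
      exact half_c1_up hs hs1 m0 m1 h hT' kM kX
  · change X = pos.cv 1 T at ej'
    change _ = vM μ s T 1 at kM
    change _ = vX par s T 1 at kX
    obtain ⟨k1, k2, k3⟩ := dm_one.1 hj'
    rcases lt_or_ge T h0 with h | h
    · rw [cv_one_low h] at ej'
      unfold vM at kM
      rw [vA_one k1, vR_one, if_pos h, if_neg k1.not_gt, if_pos h] at kM
      rw [vX_one k1 h32, if_pos h] at kX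
      have e1 : par.l2 * (1 / 3 * (Wc T - c1 T)) = 353 / 500 * (X - c1 T) := by
        rw [ej']
        have : par.l2 = 353 / 500 := rfl
        rw [this]
        ring
      rw [e1] at kM
      have e3 := c3_sq hT3
      have c30 := c3_nonneg T
      have cu : c3 T ≤ 7 / 4 := by
        refine le_of_sq_le_sq' ?_ (by norm_num) c30
        nlinarith only [e3, hT0]
      refine half_j1 hs hs1 m0 m1 k1 h ?_ ?_ kM kX
      · rw [ej']
        linarith
      · rw [ej']
        linarith
    · exfalso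
      have h4 : h0 < T := lt_of_le_of_ne h (Ne.symm k3)
      rw [cv_one_high h] at ej'
      obtain ⟨-, w1, -⟩ := W_up2 h hT1
      rcases hc with h5 | h5
      · linarith
      · have := c1_61 h hT1
        have : 0 < 2 * h0 * (T - h0) := mul_pos (by positivity) (by linarith)
        linarith
  · change X = pos.cv 2 T at ej'
    change _ = vM μ s T 2 at kM
    change _ = vX par s T 2 at kX
    rcases lt_or_ge T h0 with h | h
    · rw [cv_two_low h] at ej'
      rcases lt_or_ge T (h0 / 2) with h' | h'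
      · unfold vM at kM
        rw [vA_two, vR_two, if_pos h, if_pos h'] at kM
        rw [vX_two h32, if_pos h'] at kX
        have e1 : RW par s T = RA par s T := by
          unfold RW
          rw [if_pos h']
        rw [e1] at kM
        refine half_low hs hs1 m0 m1 hT0 h' ?_ kM kX
        rw [ej']
        linarith
      · unfold vM at kM
        rw [vA_two, vR_two, if_pos h, if_neg h'.not_gt, if_pos h] at kM
        rw [vX_two h32, if_neg h'.not_gt, if_pos h] at kX
        have hz : 0 ≤ (h0 - T) / s := div_nonneg (by linarith) hs.le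
        obtain ⟨b0, b1⟩ := rt_pos hz q3 q4
        rw [ej'] at kM kX ⊢
        exact half_W hs hs1 m0 m1 h' h b0 b1 kM kX
    · rw [cv_two_high h] at ej'
      unfold vM at kM
      rw [vA_two, vR_two, if_neg h.not_gt, if_pos h32, if_neg (by linarith), if_neg h.not_gt,
        if_pos h32] at kM
      have hz : 0 ≤ (T - h0) / s := div_nonneg (by linarith) hs.le
      obtain ⟨b0, b1⟩ := rt_pos hz q1 q2
      have ξ3 := vX_abs' hs hs1 hT0 hT3 2
      rw [ej'] at kM kX ⊢
      exact half_cv2 hs hs1 m0 m1 h hT1 (by rw [abs_of_nonneg b0]; linarith) kM kX ξ3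
  · change X = pos.cv 3 T at ej'
    change _ = vM μ s T 3 at kM
    change _ = vX par s T 3 at kX
    rw [cv_three] at ej'
    unfold vM at kM
    rw [vA_three, vR_three] at kM
    have ξ3 := vX_abs' hs hs1 hT0 hT3 3
    rw [ej'] at kM kX ⊢
    exact half_c3 hs hs1 m0 m1 hT0 hT1 kM kX ξ3

theorem wallM {s μ : ℝ} (hs : 0 < s) (hs1 : s ≤ 11 / 400) (m0 : 0 ≤ μ)
    (m1 : μ ≤ 201 / 1000) :
    WallY (kE s) s μ (1 / 2 - we s - μ * wq s) (ker K.nodes (vM μ s) fun _ _ => 0)
      (ker K.nodes (vX par s) fun _ _ => 0) (fun _ _ => 0) (fun _ => 0) 0 0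
      (NodeAt K.nodes) where
  node X T hT hT1 hX _ h3 hN hc := nodeM hs hs1 m0 m1 hT hT1 hX h3 hN hc
  steep T h h' := steepM hs hs1 m0 m1 h h'

/-- **The rows at the floor for small rests.** -/
theorem walls {s : ℝ} (hs : 0 < s) (hs1 : s ≤ 11 / 400) : Walls s where
  far := by
    have h := wallM hs hs1 (μ := 0) le_rfl (by norm_num)
    rw [vM_zero (we_bd hs hs1).1, zero_mul, sub_zero] at h
    exact h
  near := wallM hs hs1 (mu_bd hs hs1).1 (mu_bd hs hs1).2

/-- **Small rests**: the count from the charts. -/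
theorem good_of_charts {s : ℝ} (hs : 0 < s) (hs1 : s ≤ 11 / 400) (h : Charts s) : Good s :=
  good hs hs1 h (walls hs hs1)

end Pool.Agent.Strip051.LC.E0
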