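import Pool.Agent.Strip051.LC.E0.Pat

/-! # Small rests: the tables in scaled coordinates, part 1

The functions of one variable. -/

namespace Pool.Agent.Strip051.LC.E0

open Pool.Agent.StripNear Pool.Agent.StripSquare Pool.Agent.Strip051 Pool.Agent.Strip051.Sweep
open G

theorem cse_sub (a b p q : ℝ) : cse (a - b) p q = if a ≤ b then p else q := by
  unfold cse
  simp only [sub_nonpos]

theorem cse_neg (a b p q : ℝ) : cse (-a - b) p q = if -a ≤ b then p else q := cse_sub _ _ _ _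

theorem root3 : Real.sqrt 3 = 2 * h0 := by
  unfold h0
  ring

theorem par_vals : h0 * (par.d0 + 2) = 13 / 40 ∧ h0 * par.d1 = 111 / 1000 ∧
    h0 * (par.d2 + 3) = 691 / 1000 ∧ h0 * (par.d3 + 5) = 1326 / 1000 := by
  have hh := h0_pos
  unfold par
  refine ⟨?_, ?_, ?_, ?_⟩ <;> · simp only; field_simp; try ring

theorem dt_eq (w : ℝ) : dt w = h0 * (2 * w + dc par w) := by
  have hh := h0_pos
  obtain ⟨e0, e1, e2, e3⟩ := par_vals
  unfold dt dc
  simp only [cse_sub]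
  split_ifs with a b c d
  · linear_combination (-w) * e0 - w ^ 2 * e1
  · unfold pl
    linear_combination (-(1 - (w - 1) / (3 / 2 - 1))) * (e0 + e1) - (w - 1) / (3 / 2 - 1) * e2
  · unfold pl
    linear_combination (-(1 - (w - 3 / 2) / (5 / 2 - 3 / 2))) * e2 -
      (w - 3 / 2) / (5 / 2 - 3 / 2) * e3
  · unfold pl
    rw [root3]
    linear_combination (-(1 - (w - 5 / 2) / (4 - 5 / 2))) * e3
  · rw [root3]
    ring

section

variable {x : ℝ}

theorem RA_h0 (hx : 0 < x) (w : ℝ) : RA par (h0 * x) (h0 * (x * w)) = 1 - x * dt w := by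
  have hh := h0_pos
  unfold RA
  rw [dt_eq, show h0 * (x * w) = h0 * x * w by ring, mul_div_cancel_left₀ _ (by positivity)]
  ring

theorem dt_one : dt 1 = 109 / 250 := by
  unfold dt
  rw [cse_sub, if_pos le_rfl]
  norm_num

theorem RA_h1 (hx : 0 < x) : RA par (h0 * x) (h0 * x) = 1 - 109 / 250 * x := by
  have := RA_h0 hx 1
  rw [mul_one, dt_one] at this
  rw [this]
  ring

theorem x1_h0 : 3 / 4 * x1 (h0 * x) = ch x := by
  unfold x1 ch ic
  rw [g_h0]
  ring

theorem xm_h0 (hx : 0 < x) (hx1 : x < 1) : 3 / 4 * xm par (h0 * x) = mm x := by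
  have hh := h0_pos
  have hsq := h0_sq'
  have hg := gs_pos hx.le hx1
  have h2 := gs_sq hx.le hx1.le
  rw [xm_eq par (by positivity) (by nlinarith [h0_lt]), par_one, g_h0]
  unfold mm ic
  have e1 : h0 * x / ((1 + gs x) * h0) = x / (1 + gs x) := by
    field_simp
  have e2 : 436 / 1000 / h0 * (1 / h0 - 2 * (h0 * x) / (1 + gs x)) =
      436 / 1000 * (4 / 3 - 2 * x / (1 + gs x)) := by
    have : 1 / h0 = 4 / 3 * h0 := by
      rw [div_eq_iff hh.ne']
      linarith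
    have e : 436 / 1000 / h0 = 436 / 1000 * (1 / h0) := by ring
    rw [e]
    have e3 : 1 / h0 * (1 / h0) = 4 / 3 := by
      rw [this]
      linear_combination (16 / 9) * hsq
    have e4 : 1 / h0 * (h0 * x) = x := by
      field_simp
    linear_combination (436 / 1000) * e3 - 436 / 1000 * 2 / (1 + gs x) * e4
  rw [e1, e2]
  have : 1 + gs x ≠ 0 := by linarith
  have := hg.ne'
  field_simp
  ring

theorem x0_h0 (hx : 0 < x) (hx1 : x < 1) (w : ℝ) : 3 / 4 * x0 par (h0 * x) w =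
    if w ≤ 1 then q1 w x else ch x + mm x * (w - 1) := by
  have e1 := x1_h0 (x := x)
  have e2 := xm_h0 hx hx1
  unfold x0 q1
  split_ifs with h
  · rw [← e1, ← e2]
    ring
  · rw [← e1, ← e2]
    ring

theorem xA_h0 (hx : 0 < x) (hx1 : x < 1) (w : ℝ) : 3 / 4 * xA par (h0 * x) w = xa w x := by
  have e1 := x1_h0 (x := x)
  have e2 := xm_h0 hx hx1
  have e3 := x0_h0 hx hx1 w
  unfold xA xa
  simp only [cse_sub]
  have ea : par.a1 = 319 / 250 := rfl
  by_cases h1 : w ≤ 1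
  · rw [if_pos (by linarith), e3, if_pos h1, if_pos h1]
  · rw [if_neg h1] at e3
    rw [if_neg h1]
    by_cases h2 : w ≤ 3 / 2
    · rw [if_pos h2, if_pos h2, e3]
    · rw [if_neg h2, if_neg h2]
      by_cases h3 : w ≤ 5 / 2
      · rw [if_pos h3, if_pos h3, ← e1, ← e2, ea]
        unfold pl
        ring
      · rw [if_neg h3, if_neg h3]
        by_cases h4 : w ≤ 4
        · rw [if_pos h4, if_pos h4, ea]
          unfold pl
          ring
        · rw [if_neg h4, if_neg h4, mul_zero]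

theorem xW_h0 (hx : 0 < x) (hx1 : x < 1) (w : ℝ) : 3 / 4 * xW par (h0 * x) w = xw w x := by
  have e1 := x1_h0 (x := x)
  have e2 := xm_h0 hx hx1
  have e3 := x0_h0 hx hx1 w
  unfold xW xw
  simp only [cse_sub]
  by_cases h1 : w ≤ 1
  · rw [if_pos (by linarith), e3, if_pos h1, if_pos h1]
  · rw [if_neg h1] at e3
    rw [if_neg h1]
    by_cases h2 : w ≤ 3 / 2
    · rw [if_pos h2, if_pos h2, e3]
    · rw [if_neg h2, if_neg h2]
      by_cases h3 : w ≤ 5 / 2
      · rw [if_pos h3, if_pos h3, ← e1, ← e2]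
        unfold pl
        ring
      · rw [if_neg h3, if_neg h3, mul_zero]

theorem xB_h0 (z : ℝ) : 3 / 4 * xB par z = xb z := by
  unfold xB xb
  simp only [cse_sub]
  have eb0 : par.b0 = 181 / 375 := rfl
  have eb1 : par.b1 = 209 / 750 := rfl
  rw [eb0, eb1]
  split_ifs with h1 h2
  · ring
  · unfold pl
    ring
  · ring

theorem taper_h0 (w : ℝ) : taper w = gh w := by
  unfold taper gh
  simp only [cse_sub]
  split_ifs with h1 h2
  · rfl
  · unfold pl
    ring
  · rfl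

theorem Pe_h0 (hx : 0 < x) (hx1 : x ≤ 1 / 2) : Pe (h0 * x) / 2 = pp2 x := by
  have hh := h0_pos
  have hsq := h0_sq'
  have hg := gs_pos hx.le (by linarith)
  have he := ep_pos hx.le hx1
  have e : 1 / (2 * h0) - h0 * x / (1 + gs x) = ep x / h0 := by
    have : 1 + gs x ≠ 0 := by linarith
    unfold ep ic
    field_simp
    linear_combination (-8) * x * hsq
  have e' : 1 / (2 * h0) - h0 * x / gs x = (1 / 2 - 3 / 4 * x / gs x) / h0 := by
    have := hg.ne'
    field_simp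
    linear_combination (-8) * x * hsq
  unfold Pe
  rw [g_h0, e, e', div_div_div_cancel_right₀ hh.ne']
  unfold pp2 pq
  have h1 : 1 / 2 - 3 / 4 * x / gs x = ep x - 3 / 4 * x / (gs x * (1 + gs x)) := by
    have h3 : 1 + gs x ≠ 0 := by linarith
    have := hg.ne'
    unfold ep ic
    field_simp
    ring
  rw [h1]
  have h3 : 1 + gs x ≠ 0 := by linarith
  have := hg.ne'
  have := he.ne'
  field_simp
  ring

theorem x1_pos' (hx : 0 < x) (hx1 : x ≤ 4 / 125) : 0 < ch x := by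
  have h2 := gs_sq hx.le (by linarith)
  have hg := gs_pos hx.le (by linarith)
  have : 1 / 2 < gs x := by nlinarith
  unfold ch
  have := ic_pos (x := x)
  have : 0 < 2 * gs x - 1 := by linarith
  positivity

theorem rat_h0 (hx : 0 < x) (hx1 : x < 1) : xm par (h0 * x) / x1 (h0 * x) = mm x / ch x := by
  rw [← x1_h0, ← xm_h0 hx hx1, mul_div_mul_left _ _ (by norm_num)]

theorem r2_h0 (hx : 0 < x) (hx1 : x < 1) : r2 par (h0 * x) = rf x := by
  have hh := h0_pos
  have hsq := h0_sq'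
  have hg := gs_pos hx.le hx1
  unfold r2 rf
  have e : g (h0 * x) * xm par (h0 * x) / x1 (h0 * x) = gs x * mm x / ch x := by
    rw [mul_div_assoc, mul_div_assoc, rat_h0 hx hx1, g_h0]
  rw [e, g_h0, RA_h1 hx]
  have e2 : h0 * x * (h0 * x / gs x + 1 / (2 * h0)) = 3 / 4 * x ^ 2 / gs x + x / 2 := by
    have := hg.ne'
    field_simp
    linear_combination 8 * x * hsq
  rw [e2]

theorem r2d_h0 (hx : 0 < x) (hx1 : x ≤ 1 / 2) :
    r2d par (h0 * x) = pp2 x - mm x / ch x / 2 := by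
  unfold r2d
  rw [Pe_h0 hx hx1]
  have := rat_h0 hx (by linarith : x < 1)
  have e : xm par (h0 * x) / (2 * x1 (h0 * x)) = xm par (h0 * x) / x1 (h0 * x) / 2 := by
    rw [div_div, mul_comm 2]
  rw [e, this]

theorem rwu_h0 (hx : 0 < x) (hx1 : x ≤ 1 / 2) :
    r2 par (h0 * x) + r2d par (h0 * x) = rwu x := by
  rw [r2_h0 hx (by linarith), r2d_h0 hx hx1]
  unfold rwu
  ring

theorem rwl_h0 (hx : 0 < x) (hx1 : x ≤ 1 / 2) :
    r2 par (h0 * x) - r2d par (h0 * x) = rwl x := by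
  rw [r2_h0 hx (by linarith), r2d_h0 hx hx1]
  unfold rwl
  ring

theorem mu_h0 : LC.mu 3 (h0 * x) = G.mu x := by
  unfold LC.mu G.mu
  rw [g_h0]
  push_cast
  rw [add_comm]

theorem wq_h0 (hx : 0 < x) (hx1 : x < 1) : wq (h0 * x) = x ^ 2 * ch x := by
  have hg := gs_pos hx.le hx1
  have h2 := gs_sq hx.le hx1.le
  unfold wq ch ic
  rw [g_h0]
  have h3 : 1 + gs x ≠ 0 := by linarith
  field_simp
  linear_combination (-4) * (2 * gs x - 1) * h2

theorem vB_h0 (hx : 0 < x) (hx1 : x ≤ 1 / 2) {T k K r : ℝ} {j : Fin 4}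
    (hA : vA par (h0 * x) T j = K + x * k) (hR : vR par (h0 * x) T j = r) :
    vB par (h0 * x) T j = K + x * nk x k K r := by
  have he := ep_pos hx.le hx1
  unfold vB nk
  rw [hA, hR, we_h0 hx.le (by linarith), mu_h0, wq_h0 hx (by linarith)]
  unfold lb
  have := he.ne'
  have := hx.ne'
  field_simp
  ring

/-! ### The circles -/

theorem qw_sq {w : ℝ} (h : 3 / 4 * x ^ 2 * w ^ 2 ≤ 1) : qw w x ^ 2 = 1 - 3 / 4 * x ^ 2 * w ^ 2 :=
  Real.sq_sqrt (by linarith)

theorem qw_eq {w : ℝ} (h : 3 / 4 * x ^ 2 * w ^ 2 ≤ 1) : qw w x = 1 - x ^ 2 * om w x := by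
  have h2 := qw_sq h
  have h0 : 0 ≤ qw w x := Real.sqrt_nonneg _
  unfold om
  have h3 : 1 + qw w x ≠ 0 := by linarith
  field_simp
  linear_combination 4 * h2

theorem om_even (w : ℝ) : om (-w) x = om w x := by
  unfold om qw
  rw [neg_sq]

theorem c1_hx (w : ℝ) : c1 (h0 * (x * w)) = qw w x := by
  have hsq := h0_sq'
  unfold c1 qw
  congr 1
  linear_combination (-(x ^ 2 * w ^ 2)) * hsq

theorem g_h0w (w : ℝ) : g (h0 * (x * w)) = qw w x := by
  have hsq := h0_sq'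
  unfold g qw
  congr 1
  linear_combination (-(x ^ 2 * w ^ 2)) * hsq

theorem c1_h1 (z : ℝ) : c1 (h0 * (1 + x * z)) = cc1 z x := by
  have hsq := h0_sq'
  unfold c1 cc1
  congr 1
  linear_combination (-(1 + x * z) ^ 2) * hsq

theorem c3_h1 (z : ℝ) : c3 (h0 * (1 + x * z)) = cc3 z x := by
  have hsq := h0_sq'
  unfold c3 cc3
  congr 1
  linear_combination (-(1 + x * z) ^ 2) * hsq

theorem cc1_eq {z : ℝ} (h : 3 / 4 * (1 + x * z) ^ 2 ≤ 1) : cc1 z x = 1 / 2 + x * xi1 z x := by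
  have h2 : cc1 z x ^ 2 = 1 - 3 / 4 * (1 + x * z) ^ 2 := Real.sq_sqrt (by linarith)
  have h0 : 0 ≤ cc1 z x := Real.sqrt_nonneg _
  unfold xi1
  have h3 : 1 / 2 + cc1 z x ≠ 0 := by linarith
  field_simp
  linear_combination 16 * h2

theorem cc3_eq {z : ℝ} (h : 3 / 4 * (1 + x * z) ^ 2 ≤ 3) : cc3 z x = 3 / 2 + x * xi3 z x := by
  have h2 : cc3 z x ^ 2 = 3 - 3 / 4 * (1 + x * z) ^ 2 := Real.sq_sqrt (by linarith)
  have h0 : 0 ≤ cc3 z x := Real.sqrt_nonneg _
  unfold xi3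
  have h3 : 3 / 2 + cc3 z x ≠ 0 := by linarith
  field_simp
  linear_combination 16 * h2

theorem Wc_h1_up {z : ℝ} (hx : 0 ≤ x) (hz : 0 ≤ z) (h : 3 / 4 * x ^ 2 * z ^ 2 ≤ 1) :
    Wc (h0 * (1 + x * z)) = 1 / 2 + x * xiw z x := by
  have hh := h0_pos
  have e : h0 * (1 + x * z) - h0 = h0 * (x * z) := by ring
  have h1 : g (h0 * (x * z)) = 1 - x ^ 2 * om z x := by rw [g_h0w, qw_eq h]
  unfold g at h1
  unfold Wc xiw
  rw [if_neg (by nlinarith [mul_nonneg hh.le (mul_nonneg hx hz)]), e, h1]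
  ring

theorem Wc_h1_dn {z : ℝ} (hx : 0 < x) (hz : z < 0) (h : 3 / 4 * x ^ 2 * z ^ 2 ≤ 1) :
    Wc (h0 * (1 + x * z)) = 3 / 2 + x * xiw z x := by
  have hh := h0_pos
  have e : h0 * (1 + x * z) - h0 = h0 * (x * z) := by ring
  have h1 : g (h0 * (x * z)) = 1 - x ^ 2 * om z x := by rw [g_h0w, qw_eq h]
  unfold g at h1
  unfold Wc xiw
  have h3 : h0 * (x * z) < 0 := mul_neg_of_pos_of_neg hh (mul_neg_of_pos_of_neg hx hz)
  rw [if_pos (by linarith), e, h1]
  ring

end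

end Pool.Agent.Strip051.LC.E0
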