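import Pool.Agent.Strip051.LC.E0.GermA

/-! # Small rests: the tables in scaled coordinates, part 2

The values of the tables at the nodes. -/

namespace Pool.Agent.Strip051.LC.E0

open Pool.Agent.StripNear Pool.Agent.StripSquare Pool.Agent.Strip051 Pool.Agent.Strip051.Sweep
open G

/-- The range of the scaled heights. -/
structure Rg (x z : ℝ) : Prop where
  x0 : 0 < x
  x1 : x ≤ 4 / 125
  a : -(32 / 125) ≤ x * z
  b : x * z ≤ 3 / 25

section

variable {x z : ℝ}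

theorem Rg.y (h : Rg x z) : 3 / 4 * (1 + x * z) ^ 2 ≤ 1 := by
  have := h.a
  have := h.b
  nlinarith

theorem Rg.xz2 (h : Rg x z) : 3 / 4 * x ^ 2 * z ^ 2 ≤ 1 := by
  have := h.a
  have := h.b
  nlinarith

theorem Rg.c1 (h : Rg x z) : LC.c1 (h0 * (1 + x * z)) = 1 / 2 + x * xi1 z x := by
  rw [c1_h1, cc1_eq h.y]

theorem Rg.c3 (h : Rg x z) : LC.c3 (h0 * (1 + x * z)) = 3 / 2 + x * xi3 z x := by
  rw [c3_h1, cc3_eq (by linarith [h.y])]

theorem Rg.sig1 (h : Rg x z) :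
    h0 * (1 + x * z) / 2 - h0 * LC.c1 (h0 * (1 + x * z)) = h0 * (x * sg1 z x) := by
  rw [h.c1]
  unfold sg1
  ring

theorem Rg.sig3 (h : Rg x z) :
    h0 * (1 + x * z) / 2 - LC.c3 (h0 * (1 + x * z)) / (4 * h0) = h0 * (x * sg3 z x) := by
  rw [h.c3, quot4]
  unfold sg3
  ring

theorem Rg.sg1_nonneg (h : Rg x z) (hz : 0 ≤ z) : 0 ≤ sg1 z x := by
  have h1 : 0 ≤ cc1 z x := Real.sqrt_nonneg _
  have := h.a
  have : 0 ≤ 3 / 4 * z * (2 + x * z) / (1 / 2 + cc1 z x) := by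
    have : 0 ≤ 2 + x * z := by linarith
    positivity
  unfold sg1 xi1
  linarith

theorem Rg.sg1_nonpos (h : Rg x z) (hz : z ≤ 0) : sg1 z x ≤ 0 := by
  have h1 : 0 ≤ cc1 z x := Real.sqrt_nonneg _
  have := h.a
  have : 0 ≤ 3 / 4 * -z * (2 + x * z) / (1 / 2 + cc1 z x) := by
    have : 0 ≤ 2 + x * z := by linarith
    have : 0 ≤ -z := by linarith
    positivity
  have e : 3 / 4 * -z * (2 + x * z) / (1 / 2 + cc1 z x) =
      -(3 / 4 * z * (2 + x * z) / (1 / 2 + cc1 z x)) := by ring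
  unfold sg1 xi1
  linarith

theorem Rg.sg3_nonneg (h : Rg x z) (hz : 0 ≤ z) : 0 ≤ sg3 z x := by
  have h1 : 0 ≤ cc3 z x := Real.sqrt_nonneg _
  have := h.a
  have : 0 ≤ 3 / 4 * z * (2 + x * z) / (3 / 2 + cc3 z x) := by
    have : 0 ≤ 2 + x * z := by linarith
    positivity
  unfold sg3 xi3
  linarith

theorem Rg.sg3_nonpos (h : Rg x z) (hz : z ≤ 0) : sg3 z x ≤ 0 := by
  have h1 : 0 ≤ cc3 z x := Real.sqrt_nonneg _
  have := h.a
  have : 0 ≤ 3 / 4 * -z * (2 + x * z) / (3 / 2 + cc3 z x) := by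
    have : 0 ≤ 2 + x * z := by linarith
    have : 0 ≤ -z := by linarith
    positivity
  have e : 3 / 4 * -z * (2 + x * z) / (3 / 2 + cc3 z x) =
      -(3 / 4 * z * (2 + x * z) / (3 / 2 + cc3 z x)) := by ring
  unfold sg3 xi3
  linarith

theorem Rg.T_gt (h : Rg x z) : 1 / 2 < h0 * (1 + x * z) := by
  have := h.a
  have := h0_gt
  nlinarith

theorem Rg.T_lt (h : Rg x z) : h0 * (1 + x * z) < 1 := by
  have := h.b
  have := h0_gt
  have := h0_lt
  nlinarith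

theorem Rg.T_half (h : Rg x z) : ¬h0 * (1 + x * z) < h0 / 2 := by
  have := h.a
  have := h0_pos
  nlinarith

theorem Rg.T_3half (h : Rg x z) : h0 * (1 + x * z) < 3 * h0 / 2 := by
  have := h.b
  have := h0_pos
  nlinarith

theorem Rg.lt_h0 (h : Rg x z) (hz : z < 0) : h0 * (1 + x * z) < h0 := by
  have hh := h0_pos
  have : h0 * (x * z) < 0 := mul_neg_of_pos_of_neg hh (mul_neg_of_pos_of_neg h.x0 hz)
  linarith

theorem Rg.ge_h0 (h : Rg x z) (hz : 0 ≤ z) : h0 ≤ h0 * (1 + x * z) := by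
  have hh := h0_pos
  have : 0 ≤ h0 * (x * z) := mul_nonneg hh.le (mul_nonneg h.x0.le hz)
  linarith

/-- The unit circle, with the sign of the rotation. -/
theorem Rg.R1 (h : Rg x z) {σ : ℝ} (hσ : |sg1 z x| = σ) :
    R1 par (h0 * x) (h0 * (1 + x * z)) = 1 / 2 + x * k1 (dt σ) z x := by
  have hh := h0_pos
  have hsq := h0_sq'
  have hx := h.x0
  unfold E0.R1
  rw [if_neg h.T_half, if_neg (by linarith [h.T_gt]), h.sig1,
    show |h0 * (x * sg1 z x)| = h0 * (x * σ) by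
      rw [abs_mul, abs_mul, abs_of_pos hh, abs_of_pos hx, hσ], RA_h0 hx, c1_h1]
  unfold k1
  have e1 : h0 * (h0 * (x * sg1 z x)) = 3 / 4 * (x * sg1 z x) := by
    linear_combination x * sg1 z x * hsq
  have e2 : h0 * (h0 * (1 + x * z)) = 3 / 4 * (1 + x * z) := by
    linear_combination (1 + x * z) * hsq
  rw [e1, e2]
  ring

theorem Rg.R3 (h : Rg x z) {σ : ℝ} (hσ : |sg3 z x| = σ) :
    R3 par (h0 * x) (h0 * (1 + x * z)) = 3 / 2 + x * k3 (dt σ) z x := by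
  have hh := h0_pos
  have hsq := h0_sq'
  have hx := h.x0
  unfold E0.R3
  rw [if_neg h.T_half, if_pos h.T_3half, h.sig3,
    show |h0 * (x * sg3 z x)| = h0 * (x * σ) by
      rw [abs_mul, abs_mul, abs_of_pos hh, abs_of_pos hx, hσ], RA_h0 hx, c3_h1]
  unfold k3
  have e1 : h0 * (h0 * (x * sg3 z x)) = 3 / 4 * (x * sg3 z x) := by
    linear_combination x * sg3 z x * hsq
  have e2 : h0 * (1 + x * z) / (4 * h0) = 1 / 4 * (1 + x * z) := by
    field_simp
  rw [e1, e2]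
  ring

theorem Rg.R1_up (h : Rg x z) (hz : 0 ≤ z) :
    E0.R1 par (h0 * x) (h0 * (1 + x * z)) = 1 / 2 + x * k1p z x :=
  h.R1 (abs_of_nonneg (h.sg1_nonneg hz))

theorem Rg.R1_dn (h : Rg x z) (hz : z ≤ 0) :
    E0.R1 par (h0 * x) (h0 * (1 + x * z)) = 1 / 2 + x * k1m z x :=
  h.R1 (abs_of_nonpos (h.sg1_nonpos hz))

theorem Rg.R3_up (h : Rg x z) (hz : 0 ≤ z) :
    E0.R3 par (h0 * x) (h0 * (1 + x * z)) = 3 / 2 + x * k3p z x :=
  h.R3 (abs_of_nonneg (h.sg3_nonneg hz))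

theorem Rg.R3_dn (h : Rg x z) (hz : z ≤ 0) :
    E0.R3 par (h0 * x) (h0 * (1 + x * z)) = 3 / 2 + x * k3m z x :=
  h.R3 (abs_of_nonpos (h.sg3_nonpos hz))

theorem Rg.W_up (h : Rg x z) (hz : 0 ≤ z) : Wc (h0 * (1 + x * z)) = 1 / 2 + x * xiw z x :=
  Wc_h1_up h.x0.le hz h.xz2

theorem Rg.W_dn (h : Rg x z) (hz : z < 0) : Wc (h0 * (1 + x * z)) = 3 / 2 + x * xiw z x :=
  Wc_h1_dn h.x0 hz h.xz2

/-! ### The slopes -/

theorem pinU_h0 (hx : 0 < x) (hx1 : x ≤ 4 / 125) : pinU par (h0 * x) = pu x := by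
  have hh := h0_pos
  have r : Rg x 1 := ⟨hx, hx1, by linarith, by linarith⟩
  have e : h0 + h0 * x = h0 * (1 + x * 1) := by ring
  have hw := r.W_up zero_le_one
  have hg : g (h0 * x) - 1 / 2 = 1 / 2 + x * xiw 1 x := by
    rw [← hw]
    unfold Wc
    rw [if_neg (by nlinarith), show h0 * (1 + x * 1) - h0 = h0 * x by ring]
    rfl
  unfold pinU
  rw [RA_h1 hx, Pe_h0 hx (by linarith), e, r.R1_up zero_le_one, hg, r.c1]
  unfold pu pp2
  rw [show 1 - 109 / 250 * x - (1 / 2 - x * pq x) - (1 / 2 + x * k1p 1 x) =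
      x * (pq x - 109 / 250 - k1p 1 x) by ring,
    show 1 / 2 + x * xiw 1 x - (1 / 2 + x * xi1 1 x) = x * (xiw 1 x - xi1 1 x) by ring,
    mul_div_mul_left _ _ hx.ne']

theorem pinL_h0 (hx : 0 < x) (hx1 : x ≤ 4 / 125) : pinL par (h0 * x) = pl' x := by
  have hh := h0_pos
  have r : Rg x (-1) := ⟨hx, hx1, by linarith, by linarith⟩
  have e : h0 - h0 * x = h0 * (1 + x * -1) := by ring
  have hg : 1 / 2 + g (h0 * x) = 3 / 2 + x * xiw (-1) x := by
    have h1 := g_h0w (x := x) 1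
    rw [mul_one, qw_eq (by nlinarith)] at h1
    rw [h1]
    unfold xiw
    rw [om_even]
    ring
  unfold pinL
  rw [RA_h1 hx, Pe_h0 hx (by linarith), e, r.R3_dn (by norm_num), hg, r.c3]
  unfold pl' pp2
  rw [show 3 / 2 + x * k3m (-1) x - (1 / 2 - x * pq x) - (1 - 109 / 250 * x) =
      x * (k3m (-1) x + 109 / 250 + pq x) by ring,
    show 3 / 2 + x * xi3 (-1) x - (3 / 2 + x * xiw (-1) x) =
      x * (xi3 (-1) x - xiw (-1) x) by ring,
    mul_div_mul_left _ _ hx.ne']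

theorem slU_h0 (hx : 0 < x) (hx1 : x ≤ 4 / 125) (z : ℝ) : slU par (h0 * x) z = su z x := by
  unfold slU su
  rw [pinU_h0 hx hx1]
  simp only [cse_sub]
  have e : par.sA = 92 / 125 := rfl
  rw [e, root3]
  split_ifs
  · rfl
  · rfl
  · ring

theorem slL_h0 (hx : 0 < x) (hx1 : x ≤ 4 / 125) (z : ℝ) : slL par (h0 * x) (-z) = G.sl z x := by
  unfold slL G.sl
  rw [pinL_h0 hx hx1]
  simp only [cse_neg]
  have e : par.sC = 0 := rfl
  have e' : par.mC = 27 / 20 := rfl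
  rw [e, e']
  split_ifs
  · ring
  · rfl
  · rfl

theorem off_z (hx : 0 < x) (z : ℝ) : (h0 * (1 + x * z) - h0) / (h0 * x) = z := by
  have hh := h0_pos
  have := hx.ne'
  field_simp
  ring

theorem off_z' (hx : 0 < x) (z : ℝ) : (h0 - h0 * (1 + x * z)) / (h0 * x) = -z := by
  have hh := h0_pos
  have := hx.ne'
  field_simp
  ring

theorem off_w (hx : 0 < x) (w : ℝ) : h0 * (x * w) / (h0 * x) = w := by
  have hh := h0_pos
  have := hx.ne'
  field_simp

theorem Rg.RW_up (h : Rg x z) (hz : 0 ≤ z) :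
    E0.RW par (h0 * x) (h0 * (1 + x * z)) = 1 / 2 + x * kwu z x := by
  unfold E0.RW
  rw [if_neg h.T_half, if_neg (h.ge_h0 hz).not_gt, if_pos h.T_lt, h.R1_up hz, off_z h.x0,
    slU_h0 h.x0 h.x1, h.W_up hz, h.c1]
  unfold kwu
  ring

theorem Rg.RW_dn (h : Rg x z) (hz : z < 0) :
    E0.RW par (h0 * x) (h0 * (1 + x * z)) = 3 / 2 + x * kwl z x := by
  unfold E0.RW
  rw [if_neg h.T_half, if_pos (h.lt_h0 hz), h.R3_dn hz.le, off_z' h.x0,
    slL_h0 h.x0 h.x1, h.W_dn hz, h.c3]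
  unfold kwl
  ring

/-! ### The far kernel at the nodes -/

theorem Rg.vA0_up (h : Rg x z) (hz : 0 ≤ z) :
    vA par (h0 * x) (h0 * (1 + x * z)) 0 = 1 / 2 + x * k1p z x := by
  change (if _ then _ else _) = _
  rw [if_pos h.T_lt, h.R1_up hz]

theorem Rg.vA0_dn (h : Rg x z) (hz : z ≤ 0) :
    vA par (h0 * x) (h0 * (1 + x * z)) 0 = 1 / 2 + x * k1m z x := by
  change (if _ then _ else _) = _
  rw [if_pos h.T_lt, h.R1_dn hz]

theorem Rg.vA1_up (h : Rg x z) (hz : 0 ≤ z) :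
    vA par (h0 * x) (h0 * (1 + x * z)) 1 = 1 / 2 + x * kwu z x := by
  change (if _ then _ else if _ then _ else if _ then _ else _) = _
  rw [if_neg h.T_half, if_neg (h.ge_h0 hz).not_gt, if_pos h.T_3half, h.RW_up hz]

theorem Rg.vA1_dn (h : Rg x z) (hz : z < 0) :
    vA par (h0 * x) (h0 * (1 + x * z)) 1 = 1 / 2 + x * k1m z x + 353 / 1500 * dwl z x := by
  change (if _ then _ else if _ then _ else if _ then _ else _) = _
  rw [if_neg h.T_half, if_pos (h.lt_h0 hz), h.R1_dn hz.le, h.W_dn hz, h.c1]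
  have e : par.l2 = 353 / 500 := rfl
  rw [e]
  unfold dwl
  ring

theorem Rg.vA2_up (h : Rg x z) (hz : 0 ≤ z) :
    vA par (h0 * x) (h0 * (1 + x * z)) 2 = 1 / 2 + x * kwu z x + 1059 / 10000 * dwu z x := by
  change (if _ then _ else if _ then _ else _) = _
  rw [if_neg (h.ge_h0 hz).not_gt, if_pos h.T_3half, h.RW_up hz, h.W_up hz, h.c3]
  have e : par.l1 = 353 / 500 := rfl
  rw [e]
  unfold dwu
  ring

theorem Rg.vA2_dn (h : Rg x z) (hz : z < 0) :
    vA par (h0 * x) (h0 * (1 + x * z)) 2 = 3 / 2 + x * kwl z x := by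
  change (if _ then _ else if _ then _ else _) = _
  rw [if_pos (h.lt_h0 hz), h.RW_dn hz]

theorem Rg.vA3_up (h : Rg x z) (hz : 0 ≤ z) :
    vA par (h0 * x) (h0 * (1 + x * z)) 3 = 3 / 2 + x * k3p z x := h.R3_up hz

theorem Rg.vA3_dn (h : Rg x z) (hz : z ≤ 0) :
    vA par (h0 * x) (h0 * (1 + x * z)) 3 = 3 / 2 + x * k3m z x := h.R3_dn hz

theorem vA_w {w : ℝ} (hx : 0 < x) (hw : x * w ≤ 32 / 125) (j : Fin 4) (hj : j ≠ 3) :
    vA par (h0 * x) (h0 * (x * w)) j = 1 + x * -dt w := by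
  have hh := h0_pos
  have g2 := h0_lt
  have h1 : h0 * (x * w) < h0 / 2 := by nlinarith
  have h2 : h0 * (x * w) < 1 := by nlinarith
  have h3 : h0 * (x * w) < h0 := by linarith
  have hR : RA par (h0 * x) (h0 * (x * w)) = 1 + x * -dt w := by rw [RA_h0 hx]; ring
  fin_cases j
  · change (if _ then _ else _) = _
    unfold E0.R1
    rw [if_pos h2, if_pos h1, hR]
  · change (if _ then _ else if _ then _ else if _ then _ else _) = _
    rw [if_pos h1, hR]
  · change (if _ then _ else if _ then _ else _) = _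
    unfold E0.RW
    rw [if_pos h3, if_pos h1, hR]
  · exact absurd rfl hj

/-! ### The level tables at the nodes -/

theorem vx0_def (s T : ℝ) : vx par s T 0 = if T < 1 then E0.X1 par s T else 0 := rfl

theorem vx1_def (s T : ℝ) : vx par s T 1 = if T < h0 / 2 then xA par s (T / s)
    else if T < h0 then E0.X1 par s T
    else if T < 3 * h0 / 2 then xW par s ((T - h0) / s)
    else XV par s (pos.cv 2 T) * (pos.cv 1 T / pos.cv 2 T) := rfl

theorem vx2_def (s T : ℝ) : vx par s T 2 = if T < h0 / 2 then xA par s (T / s)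
    else if T < h0 then xW par s ((h0 - T) / s)
    else if T < 3 * h0 / 2 then xW par s ((T - h0) / s)
    else XV par s (pos.cv 2 T) := rfl

theorem vX_h0 {T χ : ℝ} {j : Fin 4} (h : 3 / 4 * vx par (h0 * x) T j = χ) :
    vX par (h0 * x) T j = x ^ 2 * χ := by
  unfold vX
  rw [← h]
  have := h0_sq'
  linear_combination x ^ 2 * vx par (h0 * x) T j * this

theorem div_two (a : ℝ) (hx : 0 < x) : h0 * (x * a) / (2 * (h0 * x)) = a / 2 := by
  have hh := h0_pos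
  have := hx.ne'
  field_simp

theorem Rg.X1_up (h : Rg x z) (hz : 0 ≤ z) :
    3 / 4 * E0.X1 par (h0 * x) (h0 * (1 + x * z)) = x1p z x := by
  unfold E0.X1
  rw [if_neg (by linarith [h.T_gt]), if_neg (h.ge_h0 hz).not_gt, h.sig1, off_w h.x0,
    div_two _ h.x0, mul_sub, xA_h0 h.x0 (by linarith [h.x1]), xB_h0]
  rfl

theorem Rg.X1_dn (h : Rg x z) (hz : z < 0) :
    3 / 4 * E0.X1 par (h0 * x) (h0 * (1 + x * z)) = x1m z x := by
  unfold E0.X1
  have e : h0 * LC.c1 (h0 * (1 + x * z)) - h0 * (1 + x * z) / 2 = h0 * (x * -sg1 z x) := by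
    linarith [h.sig1]
  rw [if_neg (by linarith [h.T_gt]), if_pos (h.lt_h0 hz), e, div_two _ h.x0, xB_h0]
  unfold x1m
  rw [neg_div]

theorem Rg.X3_dn (h : Rg x z) (hz : z ≤ 0) :
    3 / 4 * E0.X3 par (h0 * x) (h0 * (1 + x * z)) = x3m z x := by
  unfold E0.X3
  have hh := h0_pos
  have hle : h0 * (1 + x * z) ≤ h0 := by
    have : h0 * (x * z) ≤ 0 :=
      mul_nonpos_of_nonneg_of_nonpos hh.le (mul_nonpos_of_nonneg_of_nonpos h.x0.le hz)
    linarith
  have e : LC.c3 (h0 * (1 + x * z)) / (4 * h0) - h0 * (1 + x * z) / 2 =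
      h0 * (x * -sg3 z x) := by
    linarith [h.sig3]
  rw [if_pos hle, e, off_w h.x0, div_two _ h.x0, mul_add, xA_h0 h.x0 (by linarith [h.x1]), xB_h0]
  unfold x3m
  rw [neg_div]

theorem Rg.X3_up (h : Rg x z) (hz : 0 < z) :
    3 / 4 * E0.X3 par (h0 * x) (h0 * (1 + x * z)) = x3p z x := by
  unfold E0.X3
  have hh := h0_pos
  have hlt : ¬h0 * (1 + x * z) ≤ h0 := by
    have : 0 < h0 * (x * z) := mul_pos hh (mul_pos h.x0 hz)
    linarith
  rw [if_neg hlt, if_pos (by linarith [h.T_lt]), h.sig3, off_w h.x0, div_two _ h.x0, mul_sub,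
    xB_h0]
  have e := xA_h0 h.x0 (by linarith [h.x1] : x < 1) (sg3 z x)
  unfold x3p
  rw [← e]
  ring

theorem Rg.xi_zero1 : xi1 0 x = 0 := by
  unfold xi1
  simp

theorem Rg.xi_zero3 : xi3 0 x = 0 := by
  unfold xi3
  simp

theorem q1_zero : q1 0 x = 0 := by
  unfold q1
  simp

theorem xa_zero : xa 0 x = 0 := by
  unfold xa
  rw [cse_sub, if_pos (by norm_num), q1_zero]

theorem xb_zero : xb 0 = 0 := by
  unfold xb
  rw [cse_sub, if_pos (by norm_num)]
  simp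

theorem x3_zero : x3p 0 x = 0 ∧ x3m 0 x = 0 := by
  unfold x3p x3m sg3
  rw [Rg.xi_zero3]
  simp only [zero_div, sub_zero, neg_zero, xa_zero, xb_zero]
  norm_num

theorem x1_zero : x1p 0 x = 0 ∧ x1m 0 x = 0 := by
  unfold x1p x1m sg1
  rw [Rg.xi_zero1]
  simp only [zero_div, sub_zero, neg_zero, xa_zero, xb_zero]
  norm_num

theorem Rg.X3_up' (h : Rg x z) (hz : 0 ≤ z) :
    3 / 4 * E0.X3 par (h0 * x) (h0 * (1 + x * z)) = x3p z x := by
  rcases hz.eq_or_lt with h1 | h1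
  · rw [h.X3_dn h1.symm.le, ← h1, x3_zero.1, x3_zero.2]
  · exact h.X3_up h1

theorem Rg.X1_dn' (h : Rg x z) (hz : z ≤ 0) :
    3 / 4 * E0.X1 par (h0 * x) (h0 * (1 + x * z)) = x1m z x := by
  rcases hz.eq_or_lt with h1 | h1
  · rw [h.X1_up h1.symm.le, h1, x1_zero.1, x1_zero.2]
  · exact h.X1_dn h1

theorem Rg.vX0_up (h : Rg x z) (hz : 0 ≤ z) :
    vX par (h0 * x) (h0 * (1 + x * z)) 0 = x ^ 2 * x1p z x := by
  refine vX_h0 ?_
  rw [vx0_def, if_pos h.T_lt, h.X1_up hz]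

theorem Rg.vX0_dn (h : Rg x z) (hz : z ≤ 0) :
    vX par (h0 * x) (h0 * (1 + x * z)) 0 = x ^ 2 * x1m z x := by
  refine vX_h0 ?_
  rw [vx0_def, if_pos h.T_lt, h.X1_dn' hz]

theorem Rg.vX1_up (h : Rg x z) (hz : 0 ≤ z) :
    vX par (h0 * x) (h0 * (1 + x * z)) 1 = x ^ 2 * xw z x := by
  refine vX_h0 ?_
  rw [vx1_def, if_neg h.T_half, if_neg (h.ge_h0 hz).not_gt, if_pos h.T_3half, off_z h.x0,
    xW_h0 h.x0 (by linarith [h.x1])]

theorem Rg.vX1_dn (h : Rg x z) (hz : z < 0) :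
    vX par (h0 * x) (h0 * (1 + x * z)) 1 = x ^ 2 * x1m z x := by
  refine vX_h0 ?_
  rw [vx1_def, if_neg h.T_half, if_pos (h.lt_h0 hz), h.X1_dn hz]

theorem Rg.vX2_up (h : Rg x z) (hz : 0 ≤ z) :
    vX par (h0 * x) (h0 * (1 + x * z)) 2 = x ^ 2 * xw z x := by
  refine vX_h0 ?_
  rw [vx2_def, if_neg h.T_half, if_neg (h.ge_h0 hz).not_gt, if_pos h.T_3half, off_z h.x0,
    xW_h0 h.x0 (by linarith [h.x1])]

theorem Rg.vX2_dn (h : Rg x z) (hz : z < 0) :
    vX par (h0 * x) (h0 * (1 + x * z)) 2 = x ^ 2 * xw (-z) x := by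
  refine vX_h0 ?_
  rw [vx2_def, if_neg h.T_half, if_pos (h.lt_h0 hz), off_z' h.x0, xW_h0 h.x0 (by linarith [h.x1])]

theorem Rg.vX3_up (h : Rg x z) (hz : 0 ≤ z) :
    vX par (h0 * x) (h0 * (1 + x * z)) 3 = x ^ 2 * x3p z x := by
  refine vX_h0 ?_
  exact h.X3_up' hz

theorem Rg.vX3_dn (h : Rg x z) (hz : z ≤ 0) :
    vX par (h0 * x) (h0 * (1 + x * z)) 3 = x ^ 2 * x3m z x := by
  refine vX_h0 ?_
  exact h.X3_dn hz

theorem vX_w {w : ℝ} (hx : 0 < x) (hx1 : x ≤ 4 / 125) (hw : x * w ≤ 32 / 125) (j : Fin 4)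
    (hj : j ≠ 3) : vX par (h0 * x) (h0 * (x * w)) j = x ^ 2 * xa w x := by
  have hh := h0_pos
  have g1 := h0_gt
  have g2 := h0_lt
  have h1 : h0 * (x * w) < h0 / 2 := by nlinarith
  have h2 : h0 * (x * w) < 1 := by nlinarith
  have h3 : h0 * (x * w) ≤ 1 / 2 := by nlinarith
  refine vX_h0 ?_
  rw [← xA_h0 hx (by linarith) w]
  congr 1
  fin_cases j
  · change (if _ then _ else _) = _
    unfold E0.X1
    rw [if_pos h2, if_pos h3, off_w hx]
  · change (if _ then _ else if _ then _ else if _ then _ else _) = _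
    rw [if_pos h1, off_w hx]
  · change (if _ then _ else if _ then _ else if _ then _ else _) = _
    rw [if_pos h1, off_w hx]
  · exact absurd rfl hj

/-! ### The correction at the nodes -/

theorem Rg.vR0 (h : Rg x z) : vR par (h0 * x) (h0 * (1 + x * z)) 0 = 0 := by
  change (if _ then _ else _) = _
  rw [if_neg h.T_half]

theorem vR3 (T : ℝ) : vR par (h0 * x) T 3 = 0 := rfl

theorem Rg.vR1_up (h : Rg x z) (hz : 0 ≤ z) :
    vR par (h0 * x) (h0 * (1 + x * z)) 1 = rwu x * gh z := by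
  change (if _ then _ else if _ then _ else if _ then _ else _) = _
  rw [if_neg h.T_half, if_neg (h.ge_h0 hz).not_gt, if_pos h.T_3half, off_z h.x0,
    rwu_h0 h.x0 (by linarith [h.x1]), taper_h0]

theorem Rg.vR1_dn (h : Rg x z) (hz : z < 0) :
    vR par (h0 * x) (h0 * (1 + x * z)) 1 = 0 := by
  change (if _ then _ else if _ then _ else if _ then _ else _) = _
  rw [if_neg h.T_half, if_pos (h.lt_h0 hz)]

theorem Rg.vR2_up (h : Rg x z) (hz : 0 ≤ z) :
    vR par (h0 * x) (h0 * (1 + x * z)) 2 = rwu x * gh z := by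
  change (if _ then _ else if _ then _ else if _ then _ else _) = _
  rw [if_neg h.T_half, if_neg (h.ge_h0 hz).not_gt, if_pos h.T_3half, off_z h.x0,
    rwu_h0 h.x0 (by linarith [h.x1]), taper_h0]

theorem Rg.vR2_dn (h : Rg x z) (hz : z < 0) :
    vR par (h0 * x) (h0 * (1 + x * z)) 2 = rwl x * gh (-z) := by
  change (if _ then _ else if _ then _ else if _ then _ else _) = _
  rw [if_neg h.T_half, if_pos (h.lt_h0 hz), off_z' h.x0, rwl_h0 h.x0 (by linarith [h.x1]),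
    taper_h0]

theorem vR_w {w : ℝ} (hx : 0 < x) (hx1 : x < 1) (hw : x * w ≤ 32 / 125) (j : Fin 4)
    (hj : j ≠ 3) : vR par (h0 * x) (h0 * (x * w)) j = rf x * gh w := by
  have hh := h0_pos
  have g2 := h0_lt
  have h1 : h0 * (x * w) < h0 / 2 := by nlinarith
  rw [← r2_h0 hx hx1, ← taper_h0]
  fin_cases j
  · change (if _ then _ else _) = _
    rw [if_pos h1, off_w hx]
  · change (if _ then _ else if _ then _ else if _ then _ else _) = _
    rw [if_pos h1, off_w hx]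
  · change (if _ then _ else if _ then _ else if _ then _ else _) = _
    rw [if_pos h1, off_w hx]
  · exact absurd rfl hj

end

end Pool.Agent.Strip051.LC.E0
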