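import Pool.Agent.Strip051.LC.E0.GermB

/-! # Small rests: the tables in scaled coordinates, part 3

The values between the nodes. -/

namespace Pool.Agent.Strip051.LC.E0

open Pool.Agent.StripNear Pool.Agent.StripSquare Pool.Agent.Strip051 Pool.Agent.Strip051.Sweep
open G

/-- The four numbers of a side with the displacement `(K + x ξ, T)`. -/
structure Dat (x T K ξ k χ r : ℝ) : Prop where
  a : ker E0.K.nodes (vA par (h0 * x)) (fun _ _ => 0) (K + x * ξ) T = K + x * k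
  c : ker E0.K.nodes (vX par (h0 * x)) (fun _ _ => 0) (K + x * ξ) T = x ^ 2 * χ
  b : ker E0.K.nodes (vB par (h0 * x)) (fun _ _ => 0) (K + x * ξ) T = K + x * nk x k K r

theorem nk_neg (x k K r : ℝ) : nk x (-k) (-K) (-r) = -nk x k K r := by
  unfold nk
  ring

theorem Dat.neg {x T K ξ k χ r : ℝ} (h : Dat x T K ξ k χ r) :
    Dat x T (-K) (-ξ) (-k) (-χ) (-r) where
  a := by
    rw [show -K + x * -ξ = -(K + x * ξ) by ring, E0.K.ker_neg, h.a]
    ring
  c := by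
    rw [show -K + x * -ξ = -(K + x * ξ) by ring, E0.K.ker_neg, h.c]
    ring
  b := by
    rw [show -K + x * -ξ = -(K + x * ξ) by ring, E0.K.ker_neg, h.b, nk_neg]
    ring

theorem pl_lin2 {a b y1 y2 w1 w2 p q r x : ℝ} :
    pl a ((p * y1 + q * w1) / r) b ((p * y2 + q * w2) / r) x =
      (p * pl a y1 b y2 x + q * pl a w1 b w2 x) / r := by
  unfold pl
  ring

/-- The values at a node. -/
theorem dat_node {x T K ξ k χ r : ℝ} (hx : 0 < x) (hx1 : x ≤ 4 / 125) (j : Fin 4) (hT : 0 ≤ T)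
    (hd : pos.dm j T) (e : K + x * ξ = pos.cv j T) (ha : vA par (h0 * x) T j = K + x * k)
    (hc : vX par (h0 * x) T j = x ^ 2 * χ) (hr : vR par (h0 * x) T j = r) :
    Dat x T K ξ k χ r where
  a := by
    rw [e]
    exact (E0.K.val _ (adm_vA par _) j T hT hd).trans ha
  c := by
    rw [e]
    exact (E0.K.val _ (adm_vX par _) j T hT hd).trans hc
  b := by
    rw [e]
    exact (E0.K.val _ (adm_vB par _) j T hT hd).trans (vB_h0 hx (by linarith) ha hr)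

/-- The values between two nodes. -/
theorem dat_seg {x T K ξ k χ r : ℝ} (hx : 0 < x) (hx1 : x ≤ 4 / 125) (i : Fin 3) (hT : 0 ≤ T)
    (h3 : T ^ 2 ≤ 3) (h1 : pos.cv i.castSucc T ≤ K + x * ξ) (h2 : K + x * ξ ≤ pos.cv i.succ T)
    (ha : pl (pos.cv i.castSucc T) (vA par (h0 * x) T i.castSucc) (pos.cv i.succ T)
      (vA par (h0 * x) T i.succ) (K + x * ξ) = K + x * k)
    (hc : pl (pos.cv i.castSucc T) (vX par (h0 * x) T i.castSucc) (pos.cv i.succ T)
      (vX par (h0 * x) T i.succ) (K + x * ξ) = x ^ 2 * χ)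
    (hr : pl (pos.cv i.castSucc T) (vR par (h0 * x) T i.castSucc) (pos.cv i.succ T)
      (vR par (h0 * x) T i.succ) (K + x * ξ) = r) : Dat x T K ξ k χ r where
  a := (E0.K.seg _ (adm_vA par _) i _ T hT h3 h1 h2).trans ha
  c := (E0.K.seg _ (adm_vX par _) i _ T hT h3 h1 h2).trans hc
  b := by
    refine (E0.K.seg _ (adm_vB par _) i _ T hT h3 h1 h2).trans ?_
    change pl (pos.cv i.castSucc T) (vB par (h0 * x) T i.castSucc) (pos.cv i.succ T)
      (vB par (h0 * x) T i.succ) (K + x * ξ) = _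
    unfold vB
    rw [pl_lin2, ha, hr]
    have he := ep_pos hx.le (by linarith : x ≤ 1 / 2)
    rw [we_h0 hx.le (by linarith), mu_h0, wq_h0 hx (by linarith)]
    unfold nk lb
    have := he.ne'
    have := hx.ne'
    field_simp
    ring

/-- Interpolation with a known slope. -/
theorem pl_slope {a b ya yb X m : ℝ} (h : yb - ya = m * (b - a)) (h1 : a ≤ X) (h2 : X ≤ b) :
    pl a ya b yb X = ya + m * (X - a) := by
  unfold pl
  rw [h]
  rcases eq_or_ne a b with h3 | h3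
  · have : X = a := le_antisymm (h3 ▸ h2) h1
    rw [this, h3]
    simp
  · have : b - a ≠ 0 := sub_ne_zero.2 h3.symm
    field_simp

theorem pl_ratio {a b ya yb X x N D : ℝ} (hx : x ≠ 0) (hN : X - a = x * N) (hD : b - a = x * D) :
    pl a ya b yb X = ya + (yb - ya) * (N / D) := by
  unfold pl
  rw [hN, hD, mul_div_mul_left _ _ hx]

section

variable {x z : ℝ}

theorem Rg.T0 (h : Rg x z) : 0 ≤ h0 * (1 + x * z) := by linarith [h.T_gt]

theorem Rg.T3 (h : Rg x z) : (h0 * (1 + x * z)) ^ 2 < 3 := by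
  have := h.T_gt
  have := h.T_lt
  nlinarith

theorem om_nonneg (w x : ℝ) : 0 ≤ om w x := by
  unfold om
  have : 0 ≤ qw w x := Real.sqrt_nonneg _
  positivity

theorem xiw_nonpos (hx : 0 ≤ x) : xiw z x ≤ 0 := by
  have := mul_nonneg hx (om_nonneg z x)
  unfold xiw
  linarith

theorem Rg.xi3_pos (h : Rg x z) (hz : z < 0) : 0 < xi3 z x := by
  have h1 : 0 ≤ cc3 z x := Real.sqrt_nonneg _
  have := h.a
  have : 0 < 3 / 4 * -z * (2 + x * z) / (3 / 2 + cc3 z x) := by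
    have : 0 < 2 + x * z := by linarith
    have : 0 < -z := by linarith
    positivity
  have e : 3 / 4 * -z * (2 + x * z) / (3 / 2 + cc3 z x) =
      -(3 / 4 * z * (2 + x * z) / (3 / 2 + cc3 z x)) := by ring
  unfold xi3
  linarith

theorem Rg.dm0 (h : Rg x z) : pos.dm 0 (h0 * (1 + x * z)) := dm_zero.2 ⟨h.T_lt, h.T3⟩

theorem Rg.dm3 (h : Rg x z) : pos.dm 3 (h0 * (1 + x * z)) := dm_three.2 h.T3.le

theorem Rg.dm2 (h : Rg x z) : pos.dm 2 (h0 * (1 + x * z)) :=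
  dm_two.2 ⟨h.T3, fun _ => by linarith [h.T_gt]⟩

theorem Rg.dm1 (h : Rg x z) (hz : z ≠ 0) : pos.dm 1 (h0 * (1 + x * z)) := by
  refine dm_one.2 ⟨not_lt.1 h.T_half, h.T_3half, fun e => hz ?_⟩
  have hh := h0_pos
  have h1 : h0 * (x * z) = 0 := by linarith
  rcases mul_eq_zero.1 h1 with h2 | h2
  · exact absurd h2 hh.ne'
  · exact (mul_eq_zero.1 h2).resolve_left h.x0.ne'

/-! ### The horizontal side -/

theorem dat_w {w : ℝ} (hx : 0 < x) (hx1 : x ≤ 4 / 125) (hw0 : 0 ≤ w) (hw : x * w ≤ 32 / 125) :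
    Dat x (h0 * (x * w)) 1 (-(x * om w x)) (-dt w) (xa w x) (rf x * gh w) := by
  have hh := h0_pos
  have g2 := h0_lt
  have hxw : 0 ≤ x * w := by positivity
  have hT : h0 * (x * w) ≤ 1 / 2 := by nlinarith
  have hT0 : 0 ≤ h0 * (x * w) := by positivity
  refine dat_node hx hx1 0 hT0 (dm_zero.2 ⟨by linarith, by nlinarith⟩) ?_
    (vA_w hx hw 0 (by decide)) (vX_w hx hx1 hw 0 (by decide))
    (vR_w hx (by linarith) hw 0 (by decide))
  rw [cv_zero, c1_hx, qw_eq (by nlinarith)]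
  ring

/-! ### The nodes at the height `h0 (1 + x z)` -/

theorem Rg.dat0_up (h : Rg x z) (hz : 0 ≤ z) :
    Dat x (h0 * (1 + x * z)) (1 / 2) (xi1 z x) (k1p z x) (x1p z x) 0 :=
  dat_node h.x0 h.x1 0 h.T0 h.dm0 (by rw [cv_zero, h.c1]) (h.vA0_up hz) (h.vX0_up hz) h.vR0

theorem Rg.dat0_dn (h : Rg x z) (hz : z ≤ 0) :
    Dat x (h0 * (1 + x * z)) (1 / 2) (xi1 z x) (k1m z x) (x1m z x) 0 :=
  dat_node h.x0 h.x1 0 h.T0 h.dm0 (by rw [cv_zero, h.c1]) (h.vA0_dn hz) (h.vX0_dn hz) h.vR0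

theorem Rg.dat3_up (h : Rg x z) (hz : 0 ≤ z) :
    Dat x (h0 * (1 + x * z)) (3 / 2) (xi3 z x) (k3p z x) (x3p z x) 0 :=
  dat_node h.x0 h.x1 3 h.T0 h.dm3 (by rw [cv_three, h.c3]) (h.vA3_up hz) (h.vX3_up hz) (vR3 _)

theorem Rg.dat3_dn (h : Rg x z) (hz : z ≤ 0) :
    Dat x (h0 * (1 + x * z)) (3 / 2) (xi3 z x) (k3m z x) (x3m z x) 0 :=
  dat_node h.x0 h.x1 3 h.T0 h.dm3 (by rw [cv_three, h.c3]) (h.vA3_dn hz) (h.vX3_dn hz) (vR3 _)

theorem Rg.datW_up (h : Rg x z) (hz : 0 < z) :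
    Dat x (h0 * (1 + x * z)) (1 / 2) (xiw z x) (kwu z x) (xw z x) (rwu x * gh z) :=
  dat_node h.x0 h.x1 1 h.T0 (h.dm1 hz.ne')
    (by rw [cv_one_high (h.ge_h0 hz.le), h.W_up hz.le]) (h.vA1_up hz.le) (h.vX1_up hz.le)
    (h.vR1_up hz.le)

theorem Rg.datW_dn (h : Rg x z) (hz : z < 0) :
    Dat x (h0 * (1 + x * z)) (3 / 2) (xiw z x) (kwl z x) (xw (-z) x) (rwl x * gh (-z)) :=
  dat_node h.x0 h.x1 2 h.T0 h.dm2
    (by rw [cv_two_low (h.lt_h0 hz), h.W_dn hz]) (h.vA2_dn hz) (h.vX2_dn hz)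
    (h.vR2_dn hz)

/-- The node between `W` and `c3`. -/
theorem Rg.datb (h : Rg x z) (hz : 0 ≤ z) :
    Dat x (h0 * (1 + x * z)) (1 / 2) (xiw z x + 3 / 20 * dwu z x / x)
      (kwu z x + 1059 / 10000 * dwu z x / x) (xw z x) (rwu x * gh z) := by
  have hx := h.x0.ne'
  refine dat_node h.x0 h.x1 2 h.T0 h.dm2 ?_ ?_ (h.vX2_up hz) (h.vR2_up hz)
  · rw [cv_two_high (h.ge_h0 hz), h.W_up hz, h.c3]
    unfold dwu
    field_simp
    ring
  · rw [h.vA2_up hz]
    field_simp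
    ring

/-! ### Between the nodes, above `h0` -/

/-- Between `c1` and `W`, above `h0`. -/
theorem Rg.seg0_up (h : Rg x z) (hz : 0 ≤ z) {ξ : ℝ} (h1 : xi1 z x ≤ ξ) (h2 : ξ ≤ xiw z x) :
    Dat x (h0 * (1 + x * z)) (1 / 2) ξ (k1p z x + su z x * (ξ - xi1 z x))
      (x1p z x + (xw z x - x1p z x) * ((ξ - xi1 z x) / (xiw z x - xi1 z x)))
      (rwu x * gh z * ((ξ - xi1 z x) / (xiw z x - xi1 z x))) := by
  have hx := h.x0
  have e0 : pos.cv (0 : Fin 3).castSucc (h0 * (1 + x * z)) = 1 / 2 + x * xi1 z x := by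
    rw [show (0 : Fin 3).castSucc = (0 : Fin 4) from rfl, cv_zero, h.c1]
  have e1 : pos.cv (0 : Fin 3).succ (h0 * (1 + x * z)) = 1 / 2 + x * xiw z x := by
    rw [show (0 : Fin 3).succ = (1 : Fin 4) from rfl, cv_one_high (h.ge_h0 hz), h.W_up hz]
  have k1 := mul_le_mul_of_nonneg_left h1 hx.le
  have k2 := mul_le_mul_of_nonneg_left h2 hx.le
  refine dat_seg h.x0 h.x1 0 h.T0 h.T3.le (by rw [e0]; linarith) (by rw [e1]; linarith) ?_ ?_ ?_
  · rw [e0, e1]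
    have a0 : vA par (h0 * x) (h0 * (1 + x * z)) (0 : Fin 3).castSucc = 1 / 2 + x * k1p z x :=
      h.vA0_up hz
    have a1 : vA par (h0 * x) (h0 * (1 + x * z)) (0 : Fin 3).succ = 1 / 2 + x * kwu z x :=
      h.vA1_up hz
    rw [a0, a1, pl_slope (m := su z x) (by unfold kwu; ring) (by linarith) (by linarith)]
    ring
  · rw [e0, e1]
    have a0 : vX par (h0 * x) (h0 * (1 + x * z)) (0 : Fin 3).castSucc = x ^ 2 * x1p z x :=
      h.vX0_up hz
    have a1 : vX par (h0 * x) (h0 * (1 + x * z)) (0 : Fin 3).succ = x ^ 2 * xw z x :=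
      h.vX1_up hz
    rw [a0, a1, pl_ratio (x := x) (N := ξ - xi1 z x) (D := xiw z x - xi1 z x) hx.ne' (by ring)
      (by ring)]
    ring
  · rw [e0, e1]
    have a0 : vR par (h0 * x) (h0 * (1 + x * z)) (0 : Fin 3).castSucc = 0 := h.vR0
    have a1 : vR par (h0 * x) (h0 * (1 + x * z)) (0 : Fin 3).succ = rwu x * gh z :=
      h.vR1_up hz
    rw [a0, a1, pl_ratio (x := x) (N := ξ - xi1 z x) (D := xiw z x - xi1 z x) hx.ne' (by ring)
      (by ring)]
    ring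

/-- Between `W` and `b`, above `h0`. -/
theorem Rg.seg1_up (h : Rg x z) (hz : 0 ≤ z) {ξ : ℝ} (h1 : xiw z x ≤ ξ)
    (h2 : x * (ξ - xiw z x) ≤ 3 / 20 * dwu z x) :
    Dat x (h0 * (1 + x * z)) (1 / 2) ξ (kwu z x + 353 / 500 * (ξ - xiw z x)) (xw z x)
      (rwu x * gh z) := by
  have hx := h.x0
  have e0 : pos.cv (1 : Fin 3).castSucc (h0 * (1 + x * z)) = 1 / 2 + x * xiw z x := by
    rw [show (1 : Fin 3).castSucc = (1 : Fin 4) from rfl, cv_one_high (h.ge_h0 hz), h.W_up hz]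
  have e1 : pos.cv (1 : Fin 3).succ (h0 * (1 + x * z)) =
      1 / 2 + x * xiw z x + 3 / 20 * dwu z x := by
    rw [show (1 : Fin 3).succ = (2 : Fin 4) from rfl, cv_two_high (h.ge_h0 hz), h.W_up hz, h.c3]
    unfold dwu
    ring
  have k1 := mul_le_mul_of_nonneg_left h1 hx.le
  refine dat_seg h.x0 h.x1 1 h.T0 h.T3.le (by rw [e0]; linarith) (by rw [e1]; linarith) ?_ ?_ ?_
  · rw [e0, e1]
    have a0 : vA par (h0 * x) (h0 * (1 + x * z)) (1 : Fin 3).castSucc = 1 / 2 + x * kwu z x :=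
      h.vA1_up hz
    have a1 : vA par (h0 * x) (h0 * (1 + x * z)) (1 : Fin 3).succ =
        1 / 2 + x * kwu z x + 1059 / 10000 * dwu z x := h.vA2_up hz
    rw [a0, a1, pl_slope (m := 353 / 500) (by ring) (by linarith) (by linarith)]
    ring
  · have a0 : vX par (h0 * x) (h0 * (1 + x * z)) (1 : Fin 3).castSucc = x ^ 2 * xw z x :=
      h.vX1_up hz
    have a1 : vX par (h0 * x) (h0 * (1 + x * z)) (1 : Fin 3).succ = x ^ 2 * xw z x :=
      h.vX2_up hz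
    rw [a0, a1]
    unfold pl
    ring
  · have a0 : vR par (h0 * x) (h0 * (1 + x * z)) (1 : Fin 3).castSucc = rwu x * gh z :=
      h.vR1_up hz
    have a1 : vR par (h0 * x) (h0 * (1 + x * z)) (1 : Fin 3).succ = rwu x * gh z :=
      h.vR2_up hz
    rw [a0, a1]
    unfold pl
    ring

/-- Between `b` and `c3`, above `h0`. -/
theorem Rg.seg2_up (h : Rg x z) (hz : 0 ≤ z) (hd : 0 < dwu z x) {ξ : ℝ}
    (h1 : x * (xi3 z x - ξ) ≤ 17 / 20 * dwu z x) (h2 : ξ ≤ xi3 z x) :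
    Dat x (h0 * (1 + x * z)) (3 / 2) ξ (k3p z x + sbc z x * (ξ - xi3 z x))
      (x3p z x + (x3p z x - xw z x) * (x * (ξ - xi3 z x) / (17 / 20 * dwu z x)))
      (-(rwu x * gh z * (x * (ξ - xi3 z x) / (17 / 20 * dwu z x)))) := by
  have hx := h.x0
  have hdn := hd.ne'
  have e0 : pos.cv (2 : Fin 3).castSucc (h0 * (1 + x * z)) =
      3 / 2 + x * xi3 z x - 17 / 20 * dwu z x := by
    rw [show (2 : Fin 3).castSucc = (2 : Fin 4) from rfl, cv_two_high (h.ge_h0 hz), h.W_up hz,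
      h.c3]
    unfold dwu
    ring
  have e1 : pos.cv (2 : Fin 3).succ (h0 * (1 + x * z)) = 3 / 2 + x * xi3 z x := by
    rw [show (2 : Fin 3).succ = (3 : Fin 4) from rfl, cv_three, h.c3]
  have k2 := mul_le_mul_of_nonneg_left h2 hx.le
  have eN : 3 / 2 + x * ξ - (3 / 2 + x * xi3 z x - 17 / 20 * dwu z x) =
      17 / 20 * dwu z x + x * (ξ - xi3 z x) := by ring
  have eD : 3 / 2 + x * xi3 z x - (3 / 2 + x * xi3 z x - 17 / 20 * dwu z x) =
      17 / 20 * dwu z x := by ring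
  refine dat_seg h.x0 h.x1 2 h.T0 h.T3.le (by rw [e0]; linarith) (by rw [e1]; linarith) ?_ ?_ ?_
  · rw [e0, e1]
    have a0 : vA par (h0 * x) (h0 * (1 + x * z)) (2 : Fin 3).castSucc =
        1 / 2 + x * kwu z x + 1059 / 10000 * dwu z x := h.vA2_up hz
    have a1 : vA par (h0 * x) (h0 * (1 + x * z)) (2 : Fin 3).succ = 3 / 2 + x * k3p z x :=
      h.vA3_up hz
    rw [a0, a1]
    unfold pl
    rw [eN, eD]
    unfold sbc
    field_simp
    ring
  · rw [e0, e1]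
    have a0 : vX par (h0 * x) (h0 * (1 + x * z)) (2 : Fin 3).castSucc = x ^ 2 * xw z x :=
      h.vX2_up hz
    have a1 : vX par (h0 * x) (h0 * (1 + x * z)) (2 : Fin 3).succ = x ^ 2 * x3p z x :=
      h.vX3_up hz
    rw [a0, a1]
    unfold pl
    rw [eN, eD]
    field_simp
    ring
  · rw [e0, e1]
    have a0 : vR par (h0 * x) (h0 * (1 + x * z)) (2 : Fin 3).castSucc = rwu x * gh z :=
      h.vR2_up hz
    have a1 : vR par (h0 * x) (h0 * (1 + x * z)) (2 : Fin 3).succ = 0 := vR3 _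
    rw [a0, a1]
    unfold pl
    rw [eN, eD]
    field_simp
    ring

/-! ### Between the nodes, below `h0` -/

/-- Between `c1` and `a`, below `h0`. -/
theorem Rg.seg0_dn (h : Rg x z) (hz : z < 0) {ξ : ℝ} (h1 : xi1 z x ≤ ξ)
    (h2 : x * (ξ - xi1 z x) ≤ 1 / 3 * dwl z x) :
    Dat x (h0 * (1 + x * z)) (1 / 2) ξ (k1m z x + 353 / 500 * (ξ - xi1 z x)) (x1m z x) 0 := by
  have hx := h.x0
  have e0 : pos.cv (0 : Fin 3).castSucc (h0 * (1 + x * z)) = 1 / 2 + x * xi1 z x := by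
    rw [show (0 : Fin 3).castSucc = (0 : Fin 4) from rfl, cv_zero, h.c1]
  have e1 : pos.cv (0 : Fin 3).succ (h0 * (1 + x * z)) =
      1 / 2 + x * xi1 z x + 1 / 3 * dwl z x := by
    rw [show (0 : Fin 3).succ = (1 : Fin 4) from rfl, cv_one_low (h.lt_h0 hz), h.W_dn hz, h.c1]
    unfold dwl
    ring
  have k1 := mul_le_mul_of_nonneg_left h1 hx.le
  refine dat_seg h.x0 h.x1 0 h.T0 h.T3.le (by rw [e0]; linarith) (by rw [e1]; linarith) ?_ ?_ ?_
  · rw [e0, e1]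
    have a0 : vA par (h0 * x) (h0 * (1 + x * z)) (0 : Fin 3).castSucc = 1 / 2 + x * k1m z x :=
      h.vA0_dn hz.le
    have a1 : vA par (h0 * x) (h0 * (1 + x * z)) (0 : Fin 3).succ =
        1 / 2 + x * k1m z x + 353 / 1500 * dwl z x := h.vA1_dn hz
    rw [a0, a1, pl_slope (m := 353 / 500) (by ring) (by linarith) (by linarith)]
    ring
  · have a0 : vX par (h0 * x) (h0 * (1 + x * z)) (0 : Fin 3).castSucc = x ^ 2 * x1m z x :=
      h.vX0_dn hz.le
    have a1 : vX par (h0 * x) (h0 * (1 + x * z)) (0 : Fin 3).succ = x ^ 2 * x1m z x :=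
      h.vX1_dn hz
    rw [a0, a1]
    unfold pl
    ring
  · have a0 : vR par (h0 * x) (h0 * (1 + x * z)) (0 : Fin 3).castSucc = 0 := h.vR0
    have a1 : vR par (h0 * x) (h0 * (1 + x * z)) (0 : Fin 3).succ = 0 := h.vR1_dn hz
    rw [a0, a1]
    unfold pl
    ring

/-- Between `a` and `W`, below `h0`. -/
theorem Rg.seg1_dn (h : Rg x z) (hz : z < 0) (hd : 0 < dwl z x) {ξ : ℝ}
    (h1 : x * (xiw z x - ξ) ≤ 2 / 3 * dwl z x) (h2 : ξ ≤ xiw z x) :
    Dat x (h0 * (1 + x * z)) (3 / 2) ξ (kwl z x + saw z x * (ξ - xiw z x))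
      (xw (-z) x + (xw (-z) x - x1m z x) * (x * (ξ - xiw z x) / (2 / 3 * dwl z x)))
      (rwl x * gh (-z) * (1 + x * (ξ - xiw z x) / (2 / 3 * dwl z x))) := by
  have hx := h.x0
  have hdn := hd.ne'
  have e0 : pos.cv (1 : Fin 3).castSucc (h0 * (1 + x * z)) =
      3 / 2 + x * xiw z x - 2 / 3 * dwl z x := by
    rw [show (1 : Fin 3).castSucc = (1 : Fin 4) from rfl, cv_one_low (h.lt_h0 hz), h.W_dn hz, h.c1]
    unfold dwl
    ring
  have e1 : pos.cv (1 : Fin 3).succ (h0 * (1 + x * z)) = 3 / 2 + x * xiw z x := by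
    rw [show (1 : Fin 3).succ = (2 : Fin 4) from rfl, cv_two_low (h.lt_h0 hz), h.W_dn hz]
  have k2 := mul_le_mul_of_nonneg_left h2 hx.le
  have eN : 3 / 2 + x * ξ - (3 / 2 + x * xiw z x - 2 / 3 * dwl z x) =
      2 / 3 * dwl z x + x * (ξ - xiw z x) := by ring
  have eD : 3 / 2 + x * xiw z x - (3 / 2 + x * xiw z x - 2 / 3 * dwl z x) =
      2 / 3 * dwl z x := by ring
  refine dat_seg h.x0 h.x1 1 h.T0 h.T3.le (by rw [e0]; linarith) (by rw [e1]; linarith) ?_ ?_ ?_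
  · rw [e0, e1]
    have a0 : vA par (h0 * x) (h0 * (1 + x * z)) (1 : Fin 3).castSucc =
        1 / 2 + x * k1m z x + 353 / 1500 * dwl z x := h.vA1_dn hz
    have a1 : vA par (h0 * x) (h0 * (1 + x * z)) (1 : Fin 3).succ = 3 / 2 + x * kwl z x :=
      h.vA2_dn hz
    rw [a0, a1]
    unfold pl
    rw [eN, eD]
    unfold saw
    field_simp
    ring
  · rw [e0, e1]
    have a0 : vX par (h0 * x) (h0 * (1 + x * z)) (1 : Fin 3).castSucc = x ^ 2 * x1m z x :=
      h.vX1_dn hz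
    have a1 : vX par (h0 * x) (h0 * (1 + x * z)) (1 : Fin 3).succ = x ^ 2 * xw (-z) x :=
      h.vX2_dn hz
    rw [a0, a1]
    unfold pl
    rw [eN, eD]
    field_simp
    ring
  · rw [e0, e1]
    have a0 : vR par (h0 * x) (h0 * (1 + x * z)) (1 : Fin 3).castSucc = 0 := h.vR1_dn hz
    have a1 : vR par (h0 * x) (h0 * (1 + x * z)) (1 : Fin 3).succ = rwl x * gh (-z) :=
      h.vR2_dn hz
    rw [a0, a1]
    unfold pl
    rw [eN, eD]
    field_simp
    ring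

/-- Between `W` and `c3`, below `h0`. -/
theorem Rg.seg2_dn (h : Rg x z) (hz : z < 0) {ξ : ℝ} (h1 : xiw z x ≤ ξ) (h2 : ξ ≤ xi3 z x) :
    Dat x (h0 * (1 + x * z)) (3 / 2) ξ (k3m z x - G.sl z x * (xi3 z x - ξ))
      (x3m z x + (xw (-z) x - x3m z x) * ((xi3 z x - ξ) / (xi3 z x - xiw z x)))
      (rwl x * gh (-z) * ((xi3 z x - ξ) / (xi3 z x - xiw z x))) := by
  have hx := h.x0
  have e0 : pos.cv (2 : Fin 3).castSucc (h0 * (1 + x * z)) = 3 / 2 + x * xiw z x := by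
    rw [show (2 : Fin 3).castSucc = (2 : Fin 4) from rfl, cv_two_low (h.lt_h0 hz), h.W_dn hz]
  have e1 : pos.cv (2 : Fin 3).succ (h0 * (1 + x * z)) = 3 / 2 + x * xi3 z x := by
    rw [show (2 : Fin 3).succ = (3 : Fin 4) from rfl, cv_three, h.c3]
  have k1 := mul_le_mul_of_nonneg_left h1 hx.le
  have k2 := mul_le_mul_of_nonneg_left h2 hx.le
  have hD : xi3 z x - xiw z x ≠ 0 := by
    have := h.xi3_pos hz
    have := xiw_nonpos (z := z) h.x0.le
    linarith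
  -- the interpolation from the right end
  have flip : ∀ ya yb : ℝ,
      pl (3 / 2 + x * xiw z x) ya (3 / 2 + x * xi3 z x) yb (3 / 2 + x * ξ) =
        yb + (ya - yb) * ((xi3 z x - ξ) / (xi3 z x - xiw z x)) := by
    intro ya yb
    rw [pl_ratio (x := x) (N := ξ - xiw z x) (D := xi3 z x - xiw z x) hx.ne' (by ring) (by ring)]
    field_simp
    ring
  refine dat_seg h.x0 h.x1 2 h.T0 h.T3.le (by rw [e0]; linarith) (by rw [e1]; linarith) ?_ ?_ ?_
  · rw [e0, e1]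
    have a0 : vA par (h0 * x) (h0 * (1 + x * z)) (2 : Fin 3).castSucc = 3 / 2 + x * kwl z x :=
      h.vA2_dn hz
    have a1 : vA par (h0 * x) (h0 * (1 + x * z)) (2 : Fin 3).succ = 3 / 2 + x * k3m z x :=
      h.vA3_dn hz.le
    rw [a0, a1, pl_slope (m := G.sl z x) (by unfold kwl; ring) (by linarith) (by linarith)]
    unfold kwl
    ring
  · rw [e0, e1, flip]
    have a0 : vX par (h0 * x) (h0 * (1 + x * z)) (2 : Fin 3).castSucc = x ^ 2 * xw (-z) x :=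
      h.vX2_dn hz
    have a1 : vX par (h0 * x) (h0 * (1 + x * z)) (2 : Fin 3).succ = x ^ 2 * x3m z x :=
      h.vX3_dn hz.le
    rw [a0, a1]
    ring
  · rw [e0, e1, flip]
    have a0 : vR par (h0 * x) (h0 * (1 + x * z)) (2 : Fin 3).castSucc = rwl x * gh (-z) :=
      h.vR2_dn hz
    have a1 : vR par (h0 * x) (h0 * (1 + x * z)) (2 : Fin 3).succ = 0 := vR3 _
    rw [a0, a1]
    ring

end

end Pool.Agent.Strip051.LC.E0
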