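import Pool.Agent.Strip051.LC.E0.Bd2
import Pool.Agent.Strip051.LC.Exact.WallLink

/-! # Small rests: the costs of the tables -/

namespace Pool.Agent.Strip051.LC.E0

open Pool.Agent.StripNear Pool.Agent.StripSquare Pool.Agent.Strip051 Pool.Agent.Strip051.Sweep
open Pool.Agent.Strip051.LC.Box
open Pool.Agent.Strip051.LC.Exact (kE)

theorem we_bd {s : ℝ} (hs : 0 < s) (hs1 : s ≤ 11 / 400) : 0 < we s ∧ we s ≤ 2 / 125 := by
  obtain ⟨e, a, b, c⟩ := g_facts hs hs1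
  have hh := h0_pos
  have g1 := h0_gt
  have g2 := h0_lt
  unfold we
  have h1 : s / (2 * h0) ≤ 2 / 125 := by
    rw [div_le_iff₀ (by positivity)]
    linarith
  have h2 : 577 / 1000 * s ≤ s / (2 * h0) := by
    rw [le_div_iff₀ (by positivity)]
    nlinarith
  constructor
  · nlinarith
  · linarith

theorem kE_nonneg {s : ℝ} (hs : 0 < s) (hs1 : s ≤ 11 / 400) : 0 ≤ kE s := by
  have hh := h0_pos
  have g1 := h0_gt
  unfold kE
  have : 0 < h0 - s := by linarith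
  have := (we_bd hs hs1).1
  positivity

theorem amp_kE {s : ℝ} (hs : 0 < s) (hs1 : s ≤ 11 / 400) : amp (kE s) s = we s := by
  have hh := h0_pos
  have g1 := h0_gt
  unfold amp kE
  have : h0 - s ≠ 0 := by linarith
  field_simp

theorem mu_bd {s : ℝ} (hs : 0 < s) (hs1 : s ≤ 11 / 400) : 0 ≤ mu 3 s ∧ mu 3 s ≤ 201 / 1000 := by
  obtain ⟨e, a, b, c⟩ := g_facts hs hs1
  unfold mu
  push_cast
  constructor
  · have : 0 < 3 + 2 * g s := by linarith
    positivity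
  · rw [div_le_iff₀ (by linarith)]
    linarith

theorem wq_bd {s : ℝ} (hs : 0 < s) (hs1 : s ≤ 11 / 400) : 0 ≤ wq s ∧ wq s ≤ 1 / 1000 := by
  obtain ⟨e, a, b, c⟩ := g_facts hs hs1
  unfold wq
  constructor
  · exact mul_nonneg (by linarith) (by linarith)
  · nlinarith

theorem fdst_bd {s T : ℝ} (hs : 0 < s) (hs1 : s ≤ 11 / 400) (hT : 0 ≤ T) (h3 : T ^ 2 ≤ 3) :
    0 ≤ fdst (kE s) s T ∧ fdst (kE s) s T ≤ we s := by
  have hh := h0_pos
  have g1 := h0_gt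
  refine ⟨fdst_nonneg (kE_nonneg hs hs1) hs.le (by linarith) hT h3, ?_⟩
  unfold fdst
  rw [amp_kE hs hs1]
  have h1 : 0 ≤ dst T / h0 := div_nonneg (abs_nonneg _) hh.le
  have h2 := (we_bd hs hs1).1
  nlinarith

theorem vX_abs {s T : ℝ} (hs : 0 < s) (hs1 : s ≤ 11 / 400) (hT : 0 ≤ T) (hT3 : T ^ 2 ≤ 3)
    (j : Fin 4) : |vX par s T j| ≤ 3 / 1000 := by
  unfold vX
  rw [abs_mul, abs_of_nonneg (sq_nonneg s)]
  have h1 := vx_abs hs hs1 hT hT3 j
  have h2 : s ^ 2 ≤ 8 / 10000 := by nlinarith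
  have := mul_le_mul h2 h1 (abs_nonneg _) (by norm_num)
  linarith

theorem cstF_bd {s T : ℝ} (hs : 0 < s) (hs1 : s ≤ 11 / 400) (hT : 0 ≤ T) (hT3 : T ^ 2 ≤ 3)
    (j : Fin 4) : cstF (kE s) s (vA par s) (vX par s) T j ≤ 3 / 64 := by
  have h1 := vX_abs hs hs1 hT hT3 j
  obtain ⟨f0, f1⟩ := fdst_bd hs hs1 hT hT3
  have w := we_bd hs hs1
  have h2 := mul_le_mul f1 (vA_abs hs hs1 hT hT3 j) (abs_nonneg _) w.1.le
  unfold cstF
  linarith

theorem cstF_unit {s T : ℝ} (hs : 0 < s) (hs1 : s ≤ 11 / 400) (hT : 0 ≤ T) (hT1 : T ≤ 1) :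
    cstF (kE s) s (vA par s) (vX par s) T 0 ≤ 1 / 32 := by
  have hT3 : T ^ 2 ≤ 3 := by nlinarith
  have h1 := vX_abs hs hs1 hT hT3 0
  obtain ⟨f0, f1⟩ := fdst_bd hs hs1 hT hT3
  have w := we_bd hs hs1
  have h3 : |vA par s T 0| ≤ 1 := by
    simp only [vA, Matrix.cons_val_zero]
    split_ifs with h
    · exact R1_abs hs hT hT1
    · norm_num
  have h2 := mul_le_mul f1 h3 (abs_nonneg _) w.1.le
  unfold cstF
  linarith

/-- The flux at the near vertex. -/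
theorem fvB {s T : ℝ} (hs : 0 < s) (hs1 : s ≤ 11 / 400) (hT : 0 ≤ T) (hT3 : T ^ 2 ≤ 3)
    (j : Fin 4) : fdst (kE s) s T * |vB par s T j| ≤
      (we s + mu 3 s * wq s) * |vA par s T j| + mu 3 s * wq s * |vR par s T j| := by
  obtain ⟨f0, f1⟩ := fdst_bd hs hs1 hT hT3
  have w := we_bd hs hs1
  have m := mu_bd hs hs1
  have q := wq_bd hs hs1
  have l0 : 0 ≤ mu 3 s * wq s := mul_nonneg m.1 q.1
  have h1 : |vB par s T j| ≤
      ((we s + mu 3 s * wq s) * |vA par s T j| + mu 3 s * wq s * |vR par s T j|) / we s := by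
    unfold vB
    rw [abs_div, abs_of_pos w.1]
    refine div_le_div_of_nonneg_right ?_ w.1.le
    refine (abs_add_le _ _).trans ?_
    rw [abs_mul, abs_mul, abs_of_nonneg l0, abs_of_nonneg (by linarith [w.1] : 0 ≤ we s + mu 3 s * wq s)]
  refine (mul_le_mul f1 h1 (abs_nonneg _) w.1.le).trans ?_
  rw [mul_div_cancel₀ _ w.1.ne']

theorem cstN_bd {s T : ℝ} (hs : 0 < s) (hs1 : s ≤ 11 / 400) (hT : 0 ≤ T) (hT3 : T ^ 2 ≤ 3)
    (j : Fin 4) : cstN 3 (kE s) s (vB par s) (vX par s) T j ≤ 3 / 64 := by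
  have hh := h0_pos
  have g1 := h0_gt
  have h1 := vX_abs hs hs1 hT hT3 j
  have w := we_bd hs hs1
  have m := mu_bd hs hs1
  have q := wq_bd hs hs1
  have l0 : 0 ≤ mu 3 s * wq s := mul_nonneg m.1 q.1
  have l1 : mu 3 s * wq s ≤ 201 / 1000 * (1 / 1000) :=
    mul_le_mul m.2 q.2 q.1 (by norm_num)
  have h2 := fvB hs hs1 hT hT3 j
  have h3 := mul_le_mul (by linarith [w.2] : we s + mu 3 s * wq s ≤ 163 / 10000)
    (vA_abs hs hs1 hT hT3 j) (abs_nonneg _) (by norm_num)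
  have h4 := mul_le_mul l1 (vR_abs hs hs1 hT j) (abs_nonneg _) (by norm_num)
  have h5 : mu 3 s * ((3 : ℕ) + s / h0) / 2 ≤ 1 / 2 := by
    push_cast
    have e : s / h0 ≤ 1 := by
      rw [div_le_one hh]
      linarith
    have e0 : 0 ≤ s / h0 := by positivity
    nlinarith [m.1, m.2]
  have h6 : 0 ≤ mu 3 s * ((3 : ℕ) + s / h0) / 2 := by
    have : 0 ≤ s / h0 := by positivity
    have := m.1
    positivity
  have h7 := mul_le_mul h5 h1 (abs_nonneg _) (by norm_num)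
  unfold cstN
  linarith

theorem cstN_unit {s T : ℝ} (hs : 0 < s) (hs1 : s ≤ 11 / 400) (hT : 0 ≤ T) (hT1 : T ≤ 1) :
    cstN 3 (kE s) s (vB par s) (vX par s) T 0 ≤ 1 / 32 := by
  have hh := h0_pos
  have g1 := h0_gt
  have hT3 : T ^ 2 ≤ 3 := by nlinarith
  have h1 := vX_abs hs hs1 hT hT3 0
  have w := we_bd hs hs1
  have m := mu_bd hs hs1
  have q := wq_bd hs hs1
  have l0 : 0 ≤ mu 3 s * wq s := mul_nonneg m.1 q.1
  have l1 : mu 3 s * wq s ≤ 201 / 1000 * (1 / 1000) :=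
    mul_le_mul m.2 q.2 q.1 (by norm_num)
  have h2 := fvB hs hs1 hT hT3 0
  have h8 : |vA par s T 0| ≤ 1 := by
    simp only [vA, Matrix.cons_val_zero]
    split_ifs with h
    · exact R1_abs hs hT hT1
    · norm_num
  have h3 := mul_le_mul (by linarith [w.2] : we s + mu 3 s * wq s ≤ 163 / 10000)
    h8 (abs_nonneg _) (by norm_num)
  have h4 := mul_le_mul l1 (vR_abs hs hs1 hT 0) (abs_nonneg _) (by norm_num)
  have h5 : mu 3 s * ((3 : ℕ) + s / h0) / 2 ≤ 1 / 2 := by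
    push_cast
    have e : s / h0 ≤ 1 := by
      rw [div_le_one hh]
      linarith
    have e0 : 0 ≤ s / h0 := by positivity
    nlinarith [m.1, m.2]
  have h6 : 0 ≤ mu 3 s * ((3 : ℕ) + s / h0) / 2 := by
    have : 0 ≤ s / h0 := by positivity
    have := m.1
    positivity
  have h7 := mul_le_mul h5 h1 (abs_nonneg _) (by norm_num)
  unfold cstN
  linarith

/-- A constant bound is enough. -/
theorem segOK_of {cst : ℝ → Fin 4 → ℝ} (h : ∀ T j, 0 ≤ T → T ^ 2 ≤ 3 → cst T j ≤ 3 / 64) :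
    SegOK K C cst := by
  intro i T hT h3 _
  refine ⟨[⟨0, 0, 192⟩], by simp [C], by simp, ?_, ?_⟩
  · have e : mnv [⟨0, 0, 192⟩] (K.cv i.castSucc T) T = 3 / 64 := by
      simp only [mnv, affv]
      norm_num
    rw [e]
    exact h T _ hT h3
  · have e : mnv [⟨0, 0, 192⟩] (K.cv i.succ T) T = 3 / 64 := by
      simp only [mnv, affv]
      norm_num
    rw [e]
    exact h T _ hT h3

theorem segF {s : ℝ} (hs : 0 < s) (hs1 : s ≤ 11 / 400) :
    SegOK K C (cstF (kE s) s (vA par s) (vX par s)) :=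
  segOK_of fun _ j hT h3 => cstF_bd hs hs1 hT h3 j

theorem segN {s : ℝ} (hs : 0 < s) (hs1 : s ≤ 11 / 400) :
    SegOK K C (cstN 3 (kE s) s (vB par s) (vX par s)) :=
  segOK_of fun _ j hT h3 => cstN_bd hs hs1 hT h3 j

theorem uniF {s : ℝ} (hs : 0 < s) (hs1 : s ≤ 11 / 400) :
    UniOK K U (cstF (kE s) s (vA par s) (vX par s)) := fun _ hT hT1 => by
  rw [cU]
  exact cstF_unit hs hs1 hT hT1

theorem uniN {s : ℝ} (hs : 0 < s) (hs1 : s ≤ 11 / 400) :
    UniOK K U (cstN 3 (kE s) s (vB par s) (vX par s)) := fun _ hT hT1 => by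
  rw [cU]
  exact cstN_unit hs hs1 hT hT1

/-- The tables are bounded. -/
theorem bdd {s : ℝ} (hs : 0 < s) (hs1 : s ≤ 11 / 400) :
    ∃ C, ∀ T i, 0 ≤ T → T ^ 2 ≤ 3 → |vA par s T i| ≤ C ∧ |vB par s T i| ≤ C ∧
      |vX par s T i| ≤ C := by
  have w := we_bd hs hs1
  have m := mu_bd hs hs1
  have q := wq_bd hs hs1
  have l0 : 0 ≤ mu 3 s * wq s := mul_nonneg m.1 q.1
  have l1 : mu 3 s * wq s ≤ 1 :=
    (mul_le_mul m.2 q.2 q.1 (by norm_num)).trans (by norm_num)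
  refine ⟨10 / we s, fun T i hT h3 => ⟨?_, ?_, ?_⟩⟩
  · rw [le_div_iff₀ w.1]
    have := mul_le_mul (vA_abs hs hs1 hT h3 i) w.2 w.1.le (by norm_num)
    linarith
  · unfold vB
    rw [abs_div, abs_of_pos w.1]
    refine div_le_div_of_nonneg_right ?_ w.1.le
    refine (abs_add_le _ _).trans ?_
    rw [abs_mul, abs_mul, abs_of_nonneg l0,
      abs_of_nonneg (by linarith [w.1] : 0 ≤ we s + mu 3 s * wq s)]
    have a := mul_le_mul (by linarith [w.2] : we s + mu 3 s * wq s ≤ 2)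
      (vA_abs hs hs1 hT h3 i) (abs_nonneg _) (by norm_num)
    have b := mul_le_mul l1 (vR_abs hs hs1 hT i) (abs_nonneg _) (by norm_num)
    linarith
  · rw [le_div_iff₀ w.1]
    have := mul_le_mul (vX_abs hs hs1 hT h3 i) w.2 w.1.le (by norm_num)
    linarith

end Pool.Agent.Strip051.LC.E0
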