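import Pool.Agent.Strip051.LC.E0.OutE
import Pool.Agent.Strip051.LC.E0.Seg

/-! # Small rests: the trivial criterion at both vertices -/

namespace Pool.Agent.Strip051.LC.E0

open Pool.Agent.StripNear Pool.Agent.StripSquare Pool.Agent.Strip051 Pool.Agent.Strip051.Sweep
open Pool.Agent.Strip051.LC.Exact (kE)

/-! ### The level tables -/

theorem xA_nonneg {s w : ℝ} (hs : 0 < s) (hs1 : s ≤ 11 / 400) (hw : 0 ≤ w) :
    0 ≤ xA par s w := by
  obtain ⟨a1, a2⟩ := x1_bd hs hs1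
  obtain ⟨b1, b2⟩ := xm_bd hs hs1
  unfold xA x0
  split_ifs with h1 h2 h3 h4
  · refine mul_nonneg hw ?_
    have := mul_nonneg hw (by linarith : 0 ≤ xm par s - x1 s + 3 / 25)
    rcases le_total 0 (xm par s - x1 s) with h | h
    · have := mul_nonneg h hw
      linarith
    · nlinarith
  · nlinarith
  · exact le_pl (by norm_num) (not_le.1 h1).le h3 (by linarith) (by unfold par; norm_num)
  · exact le_pl (by norm_num) (not_le.1 h3).le h4 (by unfold par; norm_num) (by norm_num)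
  · exact le_rfl

theorem xB_nonneg {z : ℝ} (hz : 0 ≤ z) : 0 ≤ xB par z := by
  unfold xB par
  split_ifs with h1 h2
  · simp only
    exact mul_nonneg hz (by linarith)
  · exact le_pl (by norm_num) (not_le.1 h1).le h2 (by norm_num) (by norm_num)
  · exact le_rfl

theorem vx_256 {s T : ℝ} (hs : 0 < s) (hs1 : s ≤ 11 / 400) (hT : 0 ≤ T) (hT3 : T ^ 2 ≤ 3)
    (j : Fin 4) : |vx par s T j| ≤ 64 / 25 := by
  have hh := h0_pos
  have g1 := h0_gt
  have g2 := h0_lt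
  have hq := h0_sq'
  obtain ⟨o1, o2, o3, o4, o5⟩ := order5 hT hT3
  have e3 := c3_sq hT3
  have c30 := c3_nonneg T
  have A : ∀ w, 0 ≤ w → 0 ≤ xA par s (w / s) ∧ xA par s (w / s) ≤ 32 / 25 := fun w hw =>
    ⟨xA_nonneg hs hs1 (div_nonneg hw hs.le),
      le_trans (le_abs_self _) (xA_bd hs hs1 (div_nonneg hw hs.le))⟩
  have B : ∀ w, 0 ≤ w → 0 ≤ xB par (w / (2 * s)) ∧ xB par (w / (2 * s)) ≤ 4 / 5 := fun w hw =>
    ⟨xB_nonneg (div_nonneg hw (by linarith)),
      le_trans (le_abs_self _) (xB_bd (div_nonneg hw (by linarith)))⟩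
  have V : ∀ X, 0 ≤ X → |XV par s X| ≤ 64 / 25 := by
    intro X hX
    have hx : 0 ≤ X / (2 * h0) := by positivity
    have a := A _ hx
    have b := B _ hx
    unfold XV
    rw [abs_le]
    constructor <;> linarith [a.1, a.2, b.1, b.2]
  have U : T < 1 → |X1 par s T| ≤ 64 / 25 := by
    intro h
    have e := c1_sq hT h.le
    unfold X1
    split_ifs with k1 k2
    · rw [abs_of_nonneg (A T hT).1]
      linarith [(A T hT).2]
    · have : 0 ≤ h0 * c1 T - T / 2 := by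
        have : 1 / 2 ≤ c1 T := by nlinarith [c1_nonneg T]
        nlinarith
      rw [abs_of_nonneg (B _ this).1]
      linarith [(B _ this).2]
    · rw [not_lt] at k2
      have : 0 ≤ T / 2 - h0 * c1 T := by
        have : c1 T ≤ 1 / 2 := by nlinarith [c1_nonneg T]
        nlinarith
      have a := A _ this
      have b := B _ this
      rw [abs_le]
      constructor <;> linarith [a.1, a.2, b.1, b.2]
  have c1p : 0 ≤ pos.cv 1 T := (c1_nonneg T).trans (pos.low 1 hT hT3)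
  have c2p : 0 ≤ pos.cv 2 T := (c1_nonneg T).trans (pos.low 2 hT hT3)
  have c12 : pos.cv 1 T ≤ pos.cv 2 T := pos.cv_mono hT hT3 (by decide)
  have AT : |xA par s (T / s)| ≤ 64 / 25 := by
    rw [abs_of_nonneg (A T hT).1]
    linarith [(A T hT).2]
  fin_cases j
  · simp only [vx, Fin.zero_eta, Matrix.cons_val_zero]
    split_ifs with h
    · exact U h
    · norm_num
  · simp only [vx, Fin.mk_one, Matrix.cons_val_one, Matrix.cons_val_zero]
    split_ifs with h1 h2 h3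
    · exact AT
    · exact U (by linarith)
    · have : 0 ≤ (T - h0) / s := div_nonneg (by linarith) hs.le
      linarith [xW_bd hs hs1 this]
    · rw [abs_mul]
      have k : |pos.cv 1 T / pos.cv 2 T| ≤ 1 := by
        rw [abs_of_nonneg (div_nonneg c1p c2p)]
        exact div_le_one_of_le₀ c12 c2p
      have := mul_le_mul (V _ c2p) k (abs_nonneg _) (by norm_num)
      linarith
  · simp only [vx, Fin.reduceFinMk, Matrix.cons_val]
    split_ifs with h1 h2 h3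
    · exact AT
    · have : 0 ≤ (h0 - T) / s := div_nonneg (by linarith) hs.le
      linarith [xW_bd hs hs1 this]
    · have : 0 ≤ (T - h0) / s := div_nonneg (by linarith) hs.le
      linarith [xW_bd hs hs1 this]
    · exact V _ c2p
  · simp only [vx, Fin.reduceFinMk, Matrix.cons_val]
    unfold X3
    rw [quot4]
    split_ifs with h1 h2
    · have : 0 ≤ c3 T * h0 / 3 - T / 2 := by
        have : 3 / 2 ≤ c3 T := by nlinarith
        nlinarith
      have a := A _ this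
      have b := B _ this
      rw [abs_le]
      constructor <;> linarith [a.1, a.2, b.1, b.2]
    · rw [not_le] at h1
      have : 0 ≤ T / 2 - c3 T * h0 / 3 := by
        have : c3 T ≤ 3 / 2 := by nlinarith
        nlinarith
      have a := A _ this
      have b := B _ this
      rw [abs_le]
      constructor <;> linarith [a.1, a.2, b.1, b.2]
    · exact V _ c30

theorem bnd_vX {s T : ℝ} (hs : 0 < s) (hs1 : s ≤ 11 / 400) (hT : 0 ≤ T) (hT3 : T ^ 2 ≤ 3) :
    Bnd (vX par s) T 0 0 0 (64 / 25 * s ^ 2) := by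
  have key : ∀ j, |vX par s T j| ≤ 64 / 25 * s ^ 2 := fun j => by
    unfold vX
    rw [abs_mul, abs_of_nonneg (sq_nonneg s)]
    have := mul_le_mul_of_nonneg_left (vx_256 hs hs1 hT hT3 j) (sq_nonneg s)
    linarith
  exact ⟨fun j => by linarith [key j], fun j => by linarith [key j]⟩

/-! ### The numbers -/

theorem we_up {s : ℝ} (hs : 0 < s) (hs1 : s ≤ 11 / 400) :
    0 < we s ∧ we s ≤ 57736 / 100000 * s - s ^ 2 / 2 := by
  refine ⟨(we_bd hs hs1).1, ?_⟩
  obtain ⟨e, a, b, c⟩ := g_facts hs hs1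
  have hh := h0_pos
  obtain ⟨b1, b2⟩ := h0_bd
  have k1 : s / (2 * h0) ≤ 57736 / 100000 * s := by
    rw [div_le_iff₀ (by positivity)]
    have := mul_nonneg hs.le (by linarith : 0 ≤ h0 - 86602 / 100000)
    linarith
  have k2 : g s ≤ 1 - s ^ 2 / 2 := by
    refine le_of_sq2 (by nlinarith) ?_
    rw [e]
    nlinarith [sq_nonneg (s ^ 2)]
  unfold we
  linarith

theorem lam_up {s : ℝ} (hs : 0 < s) (hs1 : s ≤ 11 / 400) :
    0 ≤ mu 3 s * wq s ∧ mu 3 s * wq s ≤ 101 / 1000 * s ^ 2 := by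
  obtain ⟨e, a, b, c⟩ := g_facts hs hs1
  obtain ⟨m0, m1⟩ := mu_bd hs hs1
  have q0 := (wq_bd hs hs1).1
  refine ⟨mul_nonneg m0 q0, ?_⟩
  have k1 : (1 - g s) * (1999 / 1000) ≤ s ^ 2 := by
    have e2 : (1 - g s) * (1 + g s) = s ^ 2 := by linear_combination -e
    rw [← e2]
    exact mul_le_mul_of_nonneg_left (by linarith) (by linarith)
  have k2 : wq s ≤ 1 - g s := by
    unfold wq
    have := mul_le_mul_of_nonneg_left (by linarith : 2 * g s - 1 ≤ 1)
      (by linarith : 0 ≤ 1 - g s)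
    linarith
  have k3 := mul_le_mul m1 k2 q0 (by norm_num)
  linarith

/-- The level term at the near vertex. -/
theorem lev_abs {s t t' m : ℝ} {x : ℝ × ℝ × ℝ} (hs : 0 < s) (hs1 : s ≤ 11 / 400)
    (ht : 0 ≤ t) (ht' : 0 ≤ t') (h3 : (t + t') ^ 2 ≤ 3) (hm : 0 ≤ m) (h1 : |x.1| ≤ m)
    (h2 : |x.2.1| ≤ m) (h13 : |x.2.2| ≤ m) :
    |levXV 3 s 0 t t' x| ≤ 92 / 100 * m := by
  have hh := h0_pos
  have g1 := h0_gt
  have hq := h0_sq'
  obtain ⟨m0, m1⟩ := mu_bd hs hs1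
  have tt : t + t' ≤ 2 * h0 := by
    refine le_of_sq2 (by linarith) ?_
    linarith
  have s0 : 0 ≤ s / h0 := by positivity
  have s1 : s / h0 ≤ 32 / 1000 := by
    rw [div_le_iff₀ hh]
    linarith
  have u1 : 0 ≤ t / (2 * h0) ∧ t / (2 * h0) ≤ 1 := by
    refine ⟨by positivity, ?_⟩
    rw [div_le_one (by positivity)]
    linarith
  have u2 : 0 ≤ (2 * t + t') / (2 * h0) ∧ (2 * t + t') / (2 * h0) ≤ 2 := by
    refine ⟨by positivity, ?_⟩
    rw [div_le_iff₀ (by positivity)]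
    linarith
  have u3 : 0 ≤ (t + t') / (2 * h0) ∧ (t + t') / (2 * h0) ≤ 1 := by
    refine ⟨by positivity, ?_⟩
    rw [div_le_one (by positivity)]
    linarith
  have e : levXV 3 s 0 t t' x = mu 3 s * (((3 + s / h0) / 2 - t / (2 * h0)) * x.1 +
      ((3 + s / h0) / 2 - (2 * t + t') / (2 * h0)) * x.2.1 -
      ((3 + s / h0) / 2 - (t + t') / (2 * h0)) * x.2.2) := by
    unfold levXV
    push_cast
    rw [zero_div, add_zero]
    field_simp
    ring
  have key : ∀ a y : ℝ, |a| ≤ 1516 / 1000 → |y| ≤ m → |a * y| ≤ 1516 / 1000 * m :=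
    fun a y ha hy => by
      rw [abs_mul]
      exact mul_le_mul ha hy (abs_nonneg _) (by norm_num)
  have v1 := abs_le.1 (key ((3 + s / h0) / 2 - t / (2 * h0)) x.1 (by
    rw [abs_le]
    constructor <;> linarith [u1.1, u1.2]) h1)
  have v2 := abs_le.1 (key ((3 + s / h0) / 2 - (2 * t + t') / (2 * h0)) x.2.1 (by
    rw [abs_le]
    constructor <;> linarith [u2.1, u2.2]) h2)
  have v3 := abs_le.1 (key ((3 + s / h0) / 2 - (t + t') / (2 * h0)) x.2.2 (by
    rw [abs_le]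
    constructor <;> linarith [u3.1, u3.2]) h13)
  rw [e, abs_mul, abs_of_nonneg m0]
  have k : |((3 + s / h0) / 2 - t / (2 * h0)) * x.1 +
      ((3 + s / h0) / 2 - (2 * t + t') / (2 * h0)) * x.2.1 -
      ((3 + s / h0) / 2 - (t + t') / (2 * h0)) * x.2.2| ≤ 4548 / 1000 * m := by
    rw [abs_le]
    constructor <;> linarith [v1.1, v1.2, v2.1, v2.2, v3.1, v3.2]
  have := mul_le_mul m1 k (abs_nonneg _) (by norm_num)
  linarith

/-! ### The table of the near vertex -/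

theorem bnd_vB {s T : ℝ} (hs : 0 < s) (hs1 : s ≤ 11 / 400) (hT : 0 ≤ T) (hT3 : T ^ 2 ≤ 3) :
    Bnd (vB par s) T ((we s + mu 3 s * wq s) / we s) (s / 2) (3 + 5 / 4 * s)
      (2 * (mu 3 s * wq s) / we s) := by
  obtain ⟨w0, w1⟩ := we_up hs hs1
  obtain ⟨l0, l1⟩ := lam_up hs hs1
  have hA := bnd_vA hs hs1 hT hT3
  have key : ∀ j, |vB par s T j| ≤
      (we s + mu 3 s * wq s) / we s * |vA par s T j| + 2 * (mu 3 s * wq s) / we s := by
    intro j
    unfold vB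
    rw [abs_div, abs_of_pos w0, div_mul_eq_mul_div, ← add_div]
    refine div_le_div_of_nonneg_right ?_ w0.le
    refine (abs_add_le _ _).trans ?_
    rw [abs_mul, abs_mul, abs_of_nonneg l0, abs_of_nonneg (by linarith : 0 ≤ we s + mu 3 s * wq s)]
    have := mul_le_mul_of_nonneg_left (vR_abs hs hs1 hT j) l0
    linarith
  have β0 : 0 ≤ (we s + mu 3 s * wq s) / we s := div_nonneg (by linarith) w0.le
  constructor
  · intro j
    have h1 := mul_le_mul_of_nonneg_left (hA.one j) β0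
    have h2 := key j
    linarith
  · intro j
    have h1 := mul_le_mul_of_nonneg_left (hA.sum j) β0
    have h2 := key j
    linarith

/-! ### The sides of a triangle -/

/-- The three sides have admissible lengths. -/
structure Sides (X12 X13 t t' : ℝ) : Prop where
  t0 : 0 ≤ t
  t1 : 0 ≤ t'
  a1 : 1 ≤ X12 ^ 2 + t ^ 2
  a3 : X12 ^ 2 + t ^ 2 ≤ 3
  b1 : 1 ≤ (X13 - X12) ^ 2 + t' ^ 2
  b3 : (X13 - X12) ^ 2 + t' ^ 2 ≤ 3
  c1 : 1 ≤ X13 ^ 2 + (t + t') ^ 2
  c3 : X13 ^ 2 + (t + t') ^ 2 ≤ 3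

theorem Sides.sum {X12 X13 t t' β a b γ : ℝ} (h : Sides X12 X13 t t') {v : ℝ → Fin 4 → ℝ}
    (hv : K.adm v) (hB : ∀ T, 0 ≤ T → T ^ 2 ≤ 3 → Bnd v T β a b γ) :
    |(K.valK X12 X13 t t' v).1| + |(K.valK X12 X13 t t' v).2.1| +
      |(K.valK X12 X13 t t' v).2.2| ≤ β * (b + 2 * a) + 3 * γ := by
  have hT : 0 ≤ t + t' := add_nonneg h.t0 h.t1
  have k1 : t ^ 2 ≤ 3 := by nlinarith [sq_nonneg X12, h.a3]
  have k2 : t' ^ 2 ≤ 3 := by nlinarith [sq_nonneg (X13 - X12), h.b3]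
  have k3 : (t + t') ^ 2 ≤ 3 := by nlinarith [sq_nonneg X13, h.c3]
  exact sum_bnd (ker_bnd hv h.t0 h.a1 h.a3 (hB _ h.t0 k1))
    (ker_bnd hv h.t1 h.b1 h.b3 (hB _ h.t1 k2)) (ker_bnd hv hT h.c1 h.c3 (hB _ hT k3))

theorem Sides.lev {X12 X13 t t' : ℝ} (h : Sides X12 X13 t t') {s : ℝ} (hs : 0 < s)
    (hs1 : s ≤ 11 / 400) :
    |(K.valK X12 X13 t t' (vX par s)).1| ≤ 64 / 25 * s ^ 2 ∧
      |(K.valK X12 X13 t t' (vX par s)).2.1| ≤ 64 / 25 * s ^ 2 ∧
      |(K.valK X12 X13 t t' (vX par s)).2.2| ≤ 64 / 25 * s ^ 2 := by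
  have hT : 0 ≤ t + t' := add_nonneg h.t0 h.t1
  have k1 : t ^ 2 ≤ 3 := by nlinarith [sq_nonneg X12, h.a3]
  have k2 : t' ^ 2 ≤ 3 := by nlinarith [sq_nonneg (X13 - X12), h.b3]
  have k3 : (t + t') ^ 2 ≤ 3 := by nlinarith [sq_nonneg X13, h.c3]
  have hv : K.adm (vX par s) := adm_vX par s
  have q1 := (ker_bnd hv h.t0 h.a1 h.a3 (bnd_vX hs hs1 h.t0 k1)).1
  have q2 := (ker_bnd hv h.t1 h.b1 h.b3 (bnd_vX hs hs1 h.t1 k2)).1
  have q3 := (ker_bnd hv hT h.c1 h.c3 (bnd_vX hs hs1 hT k3)).1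
  rw [zero_mul, zero_add] at q1 q2 q3
  exact ⟨q1, q2, q3⟩

/-! ### The criterion -/

theorem far_triv {s X12 X13 t t' : ℝ} (hs : 0 < s) (hs1 : s ≤ 11 / 400)
    (h : Sides X12 X13 t t') (hE : 17321 / 10000 * s + 37 / 10 * s ^ 2 ≤ exn X12 X13 t t') :
    farD (kE s) s (vA par s) (vX par s) X12 X13 t t' (K.valK X12 X13 t t') := by
  have g1 := h0_gt
  have hv : K.adm (vA par s) := adm_vA par s
  refine far_crude hs.le (by linarith) (kE_nonneg hs hs1) ?_
  rw [amp_kE hs hs1]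
  have S := h.sum hv (fun T hT hT3 => bnd_vA hs hs1 hT hT3)
  obtain ⟨l1, l2, l3⟩ := h.lev hs hs1
  obtain ⟨w0, w1⟩ := we_up hs hs1
  have L : |farXV (K.valK X12 X13 t t' (vX par s))| ≤ 3 / 2 * (64 / 25 * s ^ 2) := by
    have a := abs_le.1 l1
    have b := abs_le.1 l2
    have c := abs_le.1 l3
    unfold farXV
    rw [abs_le]
    constructor <;> linarith [a.1, a.2, b.1, b.2, c.1, c.2]
  have k := mul_le_mul_of_nonneg_left S w0.le
  have k2 := mul_le_mul_of_nonneg_right w1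
    (by linarith : 0 ≤ 1 * (3 + 5 / 4 * s + 2 * (s / 2)) + 3 * 0)
  have k3 : 0 ≤ s ^ 3 := by positivity
  nlinarith

theorem near_triv {s X12 X13 t t' : ℝ} (hs : 0 < s) (hs1 : s ≤ 11 / 400)
    (h : Sides X12 X13 t t') (hE : 17321 / 10000 * s + 37 / 10 * s ^ 2 ≤ exn X12 X13 t t') :
    nearT 0 3 (kE s) s (vB par s) (vX par s) X12 X13 t t' (K.valK X12 X13 t t') := by
  have g1 := h0_gt
  have hv : K.adm (vB par s) := adm_vB par s
  refine near_crude hs.le (by linarith) (kE_nonneg hs hs1) ?_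
  rw [amp_kE hs hs1]
  have S := h.sum hv (fun T hT hT3 => bnd_vB hs hs1 hT hT3)
  obtain ⟨l1, l2, l3⟩ := h.lev hs hs1
  obtain ⟨w0, w1⟩ := we_up hs hs1
  obtain ⟨lam0, lam1⟩ := lam_up hs hs1
  have h3 : (t + t') ^ 2 ≤ 3 := by nlinarith [sq_nonneg X13, h.c3]
  have m0 : 0 ≤ 64 / 25 * s ^ 2 := by positivity
  have L1 := abs_le.1 (lev_abs hs hs1 h.t0 h.t1 h3 m0 l1 l2 l3)
  have L2 := abs_le.1 (lev_abs (x := (-(K.valK X12 X13 t t' (vX par s)).2.1,
    -(K.valK X12 X13 t t' (vX par s)).1, -(K.valK X12 X13 t t' (vX par s)).2.2)) hs hs1 h.t1 h.t0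
    (by rwa [add_comm]) m0 (by rwa [abs_neg]) (by rwa [abs_neg]) (by rwa [abs_neg]))
  have L : -(92 / 100 * (64 / 25 * s ^ 2)) ≤
      min (levXV 3 s 0 t t' (K.valK X12 X13 t t' (vX par s)))
        (levXV 3 s 0 t' t (-(K.valK X12 X13 t t' (vX par s)).2.1,
          -(K.valK X12 X13 t t' (vX par s)).1, -(K.valK X12 X13 t t' (vX par s)).2.2)) :=
    le_min L1.1 L2.1
  have k := mul_le_mul_of_nonneg_left S w0.le
  have e : we s * ((we s + mu 3 s * wq s) / we s * (3 + 5 / 4 * s + 2 * (s / 2)) +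
      3 * (2 * (mu 3 s * wq s) / we s)) =
      we s * (3 + 9 / 4 * s) + mu 3 s * wq s * (9 + 9 / 4 * s) := by
    field_simp
    ring
  rw [e] at k
  have k2 := mul_le_mul_of_nonneg_right w1 (by linarith : 0 ≤ 3 + 9 / 4 * s)
  have k4 := mul_le_mul_of_nonneg_right lam1 (by linarith : 0 ≤ 9 + 9 / 4 * s)
  have k3 : 0 ≤ s ^ 2 * (11 / 400 - s) := mul_nonneg (sq_nonneg s) (by linarith)
  nlinarith

end Pool.Agent.Strip051.LC.E0
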