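import Pool.Agent.Strip051.LC.E0.VwK
import Pool.Agent.Strip051.LC.E0.OutF

/-! # Small rests: the windows and the rest together -/

namespace Pool.Agent.Strip051.LC.E0

open Pool.Agent.StripNear Pool.Agent.StripSquare Pool.Agent.Strip051 Pool.Agent.Strip051.Sweep
open Pool.Agent.Strip051.LC.Line

/-- The first window. -/
structure InH (s t t' : ℝ) : Prop where
  w1 : t ≤ 8 * s
  w2 : |t' - h0| ≤ 8 * s
  w3 : |t + t' - h0| ≤ 8 * s
  w4 : t' ≤ 28 / 25 * h0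
  w5 : t + t' ≤ 28 / 25 * h0

/-- The vertical window. -/
structure InV (s t t' : ℝ) : Prop where
  w1 : |t - h0| ≤ 8 * s
  w2 : |t' - h0| ≤ 8 * s
  w3 : |t + t' - 2 * h0| ≤ 8 * s
  w4 : t ≤ 28 / 25 * h0
  w5 : t' ≤ 28 / 25 * h0

/-- The statements outside the windows. -/
def OutOK (s : ℝ) : Prop := ∀ (V : Vx) (X12 X13 t t' : ℝ), Tri X12 X13 t t' → Nd X12 t →
  (Nd (X13 - X12) t' ∨ Nd X13 (t + t')) →
  exn X12 X13 t t' < 17321 / 10000 * s + 37 / 10 * s ^ 2 →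
  ¬ InH s t t' → ¬ InH s t' t → ¬ InV s t t' → OKV V s X12 X13 t t'

theorem Tri.sides {X12 X13 t t' : ℝ} (h : Tri X12 X13 t t') : Sides X12 X13 t t' :=
  ⟨h.t0, h.t1, h.a1, h.a3, h.b1, h.b3, h.c1, h.c3⟩

theorem okv_triv (V : Vx) {s X12 X13 t t' : ℝ} (hs : 0 < s) (hs1 : s ≤ 11 / 400)
    (h : Tri X12 X13 t t') (hE : 17321 / 10000 * s + 37 / 10 * s ^ 2 ≤ exn X12 X13 t t') :
    OKV V s X12 X13 t t' := by
  cases V
  · exact far_triv hs hs1 h.sides hE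
  · exact near_triv hs hs1 h.sides hE

/-- **All triangles with two nodes.** -/
theorem allok {s : ℝ} (hs : 0 < s) (hs1 : s ≤ 11 / 400) (hR : ∀ V, Rows V)
    (hA : ∀ V x w z, Win x w z → w + z ≤ 8 → Aux V x w z) (hO : OutOK s) : AllOK s := by
  intro V X12 X13 t t' h h1 h2
  rcases le_or_gt (17321 / 10000 * s + 37 / 10 * s ^ 2) (exn X12 X13 t t') with hE | hE
  · exact okv_triv V hs hs1 h hE
  by_cases c1 : InH s t t'
  · exact h0_ok (hR V) (hA V) hs hs1 h c1.w1 c1.w2 c1.w3 c1.w4 c1.w5 h2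
  by_cases c2 : InH s t' t
  · refine h1_ok (hR V) (hA V) hs hs1 h c2.w2 c2.w1 ?_ c2.w4 ?_ (Or.inl h1)
    · have := c2.w3
      rwa [add_comm] at this
    · have := c2.w5
      rwa [add_comm] at this
  by_cases c3 : InV s t t'
  · exact v_ok hs hs1 h c3.w1 c3.w2 c3.w3 c3.w4 c3.w5 (by nlinarith)
  exact hO V X12 X13 t t' h h1 h2 hE c1 c2 c3

end Pool.Agent.Strip051.LC.E0
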