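import Pool.Agent.Strip051.LC.E0.All
import Pool.Agent.Strip051.LC.E0.FlJ
import Pool.Agent.Strip051.LC.E0.GluA

/-! # Small rests: everything but the triangles outside the windows -/

namespace Pool.Agent.Strip051.LC.E0

open Pool.Agent.StripNear Pool.Agent.StripSquare Pool.Agent.Strip051 Pool.Agent.Strip051.Sweep
open Pool.Agent.Strip051.LC.Line

theorem rows_all (V : Vx) : Rows V := by
  cases V
  · exact rows_far
  · exact rows_near

/-- **Small rests**, from the statements outside the windows and next to them. -/
theorem good0_of (hA : ∀ V x w z, Win x w z → w + z ≤ 8 → Aux V x w z)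
    (hO : ∀ s : ℝ, 0 < s → s ≤ 11 / 400 → OutOK s) (s : ℝ) (hs : 0 < s) (hs1 : s ≤ 11 / 400) :
    Good s :=
  good_of_charts hs hs1 (charts_of (allok hs hs1 rows_all hA (hO s hs hs1)))

end Pool.Agent.Strip051.LC.E0
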