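import Pool.Agent.Strip051.LC.E0.GluA

/-! # Small rests: two short sides on the unit circle next to the first window -/

namespace Pool.Agent.Strip051.LC.E0

open Pool.Agent.StripNear Pool.Agent.StripSquare Pool.Agent.Strip051 Pool.Agent.Strip051.Sweep
open Pool.Agent.Strip051.LC.Line

/-- The pairs next to the window. -/
theorem wx_ok {V : Vx} {s X12 X13 t t' : ℝ} (hR : Rows V) (hs : 0 < s) (hs1 : s ≤ 11 / 400)
    (h : Tri X12 X13 t t') (e1 : X12 = c1 t) (e2 : X13 = c1 t + c1 t') (w1 : t ≤ 4 * s)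
    (w3 : 8 * s ≤ t + t' - h0) (w4 : t + t' - h0 ≤ 46 / 5 * s)
    (w5 : t + t' ≤ 28 / 25 * h0) (hE : exn X12 X13 t t' < (174 / 100 + 3 * s) * s) :
    OKV V s X12 X13 t t' := by
  have hh := h0_pos
  have g1 := h0_gt
  have g2 := h0_lt
  have t0 := h.t0
  -- the height of the second side
  have zz : t' - h0 ≤ 8 * s := by
    by_contra hc
    push Not at hc
    have t2 : t ≤ 6 / 5 * s := by linarith
    have k1 : t ≤ 11 / 100 := by linarith
    have e := c1_sq t0 (by linarith : t ≤ 1)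
    have c0 := c1_nonneg t
    have a1 : 1 - t ^ 2 ≤ c1 t := by
      refine abs_le_of_sq_le_sq' ?_ c0 |>.2
      nlinarith [sq_nonneg t]
    have a2 : c1 t' ≤ 1 / 2 := by
      have b0 := c1_nonneg t'
      have b1 : c1 t' ^ 2 ≤ (1 / 2) ^ 2 := by
        rcases le_or_gt t' 1 with h5 | h5
        · have := c1_sq (by linarith : 0 ≤ t') h5
          have := h0_sq'
          nlinarith
        · rw [c1_zero h5.le]
          norm_num
      exact abs_le_of_sq_le_sq' b1 (by norm_num) |>.2
    have e3 : exn X12 X13 t t' = (c1 t * t' - c1 t' * t) / (2 * h0) - 1 / 2 := by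
      unfold exn
      rw [e1, e2]
      ring
    rw [e3] at hE
    have q1 : (1 - t ^ 2) * (h0 + 8 * s) ≤ c1 t * t' :=
      mul_le_mul a1 (by linarith) (by linarith) c0
    have q2 : c1 t' * t ≤ 1 / 2 * t := mul_le_mul_of_nonneg_right a2 t0
    have q3 : (1 / 2 + (174 / 100 + 3 * s) * s) * (2 * h0) ≤ c1 t * t' - c1 t' * t := by
      have r1 : (174 / 100 + 3 * s) * s ≤ 1823 / 1000 * s :=
        mul_le_mul_of_nonneg_right (by linarith) hs.le
      have r2 : (174 / 100 + 3 * s) * s * (2 * h0) ≤ 1823 / 1000 * s * (2 * h0) :=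
        mul_le_mul_of_nonneg_right r1 (by linarith)
      have r3 : t ^ 2 ≤ 11 / 100 * (6 / 5 * s) := by nlinarith
      have r4 : s * h0 ≤ 8661 / 10000 * s := by nlinarith
      have r5 : t ^ 2 * (h0 + 8 * s) ≤ 11 / 100 * (6 / 5 * s) * (11 / 10) :=
        mul_le_mul r3 (by linarith) (by linarith) (by positivity)
      nlinarith
    have := (le_div_iff₀ (by linarith : 0 < 2 * h0)).2 q3
    linarith
  obtain ⟨x, hx⟩ : ∃ x, x = s / h0 := ⟨_, rfl⟩
  obtain ⟨w, hw⟩ : ∃ w, w = t / s := ⟨_, rfl⟩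
  obtain ⟨z, hz⟩ : ∃ z, z = (t' - h0) / s := ⟨_, rfl⟩
  have es : s = h0 * x := by
    rw [hx]
    field_simp
  have et : t = h0 * (x * w) := by
    rw [hw, hx]
    field_simp
  have et' : t' = h0 * (1 + x * z) := by
    rw [hz, hx]
    field_simp
    ring
  have eT : t + t' = h0 * (1 + x * (w + z)) := by
    rw [et, et']
    ring
  have u1 : w + z ≤ 46 / 5 := by
    rw [hz, hw, ← add_div, div_le_iff₀ hs]
    linarith
  have u0 : 8 ≤ w + z := by
    rw [hz, hw, ← add_div, le_div_iff₀ hs]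
    linarith
  have z4 : 4 ≤ z := by
    rw [hz, le_div_iff₀ hs]
    linarith
  have w40 : w ≤ 4 := by
    rw [hw, div_le_iff₀ hs]
    exact w1
  have hW : Win x w z := by
    refine ⟨by rw [hx]; positivity, by rw [← es]; exact hs1, by rw [hw]; exact div_nonneg h.t0 hs.le,
      by linarith, by linarith, ?_, by linarith, u1, ?_, ?_⟩
    · rw [hz, div_le_iff₀ hs]
      linarith
    · have : h0 * (x * z) ≤ h0 * (3 / 25) := by linarith
      exact le_of_mul_le_mul_left this hh
    · have : h0 * (x * (w + z)) ≤ h0 * (3 / 25) := by linarith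
      exact le_of_mul_le_mul_left this hh
  have hT : 0 ≤ t + t' := add_nonneg h.t0 h.t1
  have p6 := abs_c3 h.c3
  have c2 : c1 (h0 * (x * w)) + c1 (h0 * (1 + x * z)) ≤ c3 (h0 * (1 + x * (w + z))) := by
    rw [← et, ← et', ← eT, ← e2]
    exact (le_abs_self _).trans p6
  have := t2x hR hW w40 (by linarith) (by linarith) c2 (by
    rw [← et, ← et', ← es, ← e2, ← e1]
    exact hE)
  rw [← et, ← et', ← es, ← e2, ← e1] at this
  exact this

end Pool.Agent.Strip051.LC.E0
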