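import Pool.Agent.Strip051.LC.E0.OutF

/-! # Small rests: the excess of the triangles with an inner node, tools

Outside the windows of size `8 s` next to the three lattice triangles the excess of a triangle with
a node on an inner curve is at least `thr s`.  Here are the statements of the rows and the lemmas
which are used for all of them. -/

namespace Pool.Agent.Strip051.LC.E0

open Pool.Agent.StripNear Pool.Agent.StripSquare Pool.Agent.Strip051 Pool.Agent.Strip051.Sweep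

/-- The threshold of the trivial criterion. -/
noncomputable def thr (s : ℝ) : ℝ := 17321 / 10000 * s + 37 / 10 * s ^ 2

/-- The windows of size `8 s`. -/
def Win8 (s t t' : ℝ) : Prop :=
  (t ≤ 8 * s ∧ |t' - h0| ≤ 8 * s ∧ |t + t' - h0| ≤ 8 * s) ∨
    (|t - h0| ≤ 8 * s ∧ t' ≤ 8 * s ∧ |t + t' - h0| ≤ 8 * s) ∨
    (|t - h0| ≤ 8 * s ∧ |t' - h0| ≤ 8 * s ∧ |t + t' - 2 * h0| ≤ 8 * s)

/-- A node on the unit circle. -/
def NCir (x T : ℝ) : Prop := x = c1 T ∧ 0 ≤ T ∧ T < 1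

/-- A node on the circle of radius `√3`. -/
def NC3 (x T : ℝ) : Prop := x = c3 T ∧ 0 ≤ T ∧ T ^ 2 ≤ 3

/-- A node on `W` below `h0`. -/
def NLow (x T : ℝ) : Prop := x = Wc T ∧ 0 ≤ T ∧ T < h0

/-- A node on `W` above `h0`. -/
def NUpp (x T : ℝ) : Prop := x = Wc T ∧ h0 ≤ T ∧ T ≤ 3 * h0 / 2

/-- A node at one third between the unit circle and `W`. -/
def NF (x T : ℝ) : Prop := x = c1 T + 1 / 3 * (Wc T - c1 T) ∧ h0 / 2 ≤ T ∧ T < h0

/-- A node at `3 / 20` between `W` and the circle of radius `√3`. -/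
def NB (x T : ℝ) : Prop := x = Wc T + 3 / 20 * (c3 T - Wc T) ∧ h0 ≤ T ∧ T ^ 2 ≤ 3

/-- A node on `W`. -/
def NW (x T : ℝ) : Prop := NLow x T ∨ NUpp x T

/-- A node with a squared length at least `1.17`. -/
def NLong (x T : ℝ) : Prop := NF x T ∨ NB x T ∨ NC3 x T

/-- The rows with nodes on the sides bottom-middle and middle-top. -/
def RowA (P Q : ℝ → ℝ → Prop) : Prop :=
  ∀ s x y t t' σ σ' : ℝ, 0 < s → s ≤ 11 / 400 → P x t → Q y t' → (σ = 1 ∨ σ = -1) →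
    (σ' = 1 ∨ σ' = -1) → Sides (σ * x) (σ * x + σ' * y) t t' →
    0 ≤ σ * x * t' - σ' * y * t →
    Win8 s t t' ∨ thr s ≤ exn (σ * x) (σ * x + σ' * y) t t'

/-- The rows with nodes on the sides bottom-middle and bottom-top. -/
def RowB (P Q : ℝ → ℝ → Prop) : Prop :=
  ∀ s x y t t' σ σ' : ℝ, 0 < s → s ≤ 11 / 400 → P x t → Q y (t + t') → (σ = 1 ∨ σ = -1) →
    (σ' = 1 ∨ σ' = -1) → Sides (σ * x) (σ' * y) t t' →
    0 ≤ σ * x * (t + t') - σ' * y * t →
    Win8 s t t' ∨ thr s ≤ exn (σ * x) (σ' * y) t t'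

/-! ### Excess and area -/

theorem thr_of_cross {s X12 X13 t t' : ℝ}
    (h : h0 * (1 + 2 * thr s) ≤ X12 * (t + t') - X13 * t) : thr s ≤ exn X12 X13 t t' := by
  have hh := h0_pos
  unfold exn
  have : 1 / 2 + thr s ≤ (X12 * (t + t') - X13 * t) / (2 * h0) := by
    rw [le_div_iff₀ (by positivity)]
    linarith
  linarith

theorem thr_nonneg {s : ℝ} (hs : 0 < s) : 0 ≤ thr s := by
  unfold thr
  positivity

/-- The threshold is at most `.0505`. -/
theorem thr_le {s : ℝ} (hs : 0 < s) (hs1 : s ≤ 11 / 400) :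
    h0 * (1 + 2 * thr s) ≤ 9534 / 10000 := by
  obtain ⟨b1, b2⟩ := h0_bd
  have h1 : thr s ≤ 5044 / 100000 := by
    unfold thr
    nlinarith
  have h2 := thr_nonneg hs
  have := mul_le_mul b2.le (by linarith : 1 + 2 * thr s ≤ 1 + 2 * (5044 / 100000))
    (by linarith) (by norm_num)
  linarith

/-- The threshold in the linear form. -/
theorem thr_lin {s : ℝ} (hs : 0 < s) (hs1 : s ≤ 11 / 400) :
    h0 * (1 + 2 * thr s) ≤ h0 + 32 / 10 * s := by
  obtain ⟨b1, b2⟩ := h0_bd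
  have h1 : 2 * thr s ≤ 3669 / 1000 * s := by
    unfold thr
    nlinarith
  have h2 := thr_nonneg hs
  have := mul_le_mul b2.le h1 (by linarith) (by norm_num)
  linarith

section

variable {X12 X13 t t' : ℝ}

/-- The doubled area and the squared lengths `p`, `q`, `r`. -/
theorem heron (X12 X13 t t' : ℝ) :
    4 * (X12 * (t + t') - X13 * t) ^ 2 = 4 * (X12 ^ 2 + t ^ 2) * ((X13 - X12) ^ 2 + t' ^ 2) -
      (X12 ^ 2 + t ^ 2 + ((X13 - X12) ^ 2 + t' ^ 2) - (X13 ^ 2 + (t + t') ^ 2)) ^ 2 := by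
  ring

/-- The area is bounded below by the length of the side `12`. -/
theorem side12 (h : Sides X12 X13 t t') (hc : 0 ≤ X12 * (t + t') - X13 * t) :
    (X12 ^ 2 + t ^ 2) * (4 - (X12 ^ 2 + t ^ 2)) ≤ 4 * (X12 * (t + t') - X13 * t) ^ 2 := by
  have := exn_side (u1 := X12) (u2 := t) (v1 := X13 - X12) (v2 := t')
    (by linarith) h.a1 h.a3 h.b1 h.b3
    (by rw [show X12 + (X13 - X12) = X13 by ring]; exact h.c1)
    (by rw [show X12 + (X13 - X12) = X13 by ring]; exact h.c3)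
  rw [show X12 * t' - t * (X13 - X12) = X12 * (t + t') - X13 * t by ring] at this
  linarith

theorem side23 (h : Sides X12 X13 t t') (hc : 0 ≤ X12 * (t + t') - X13 * t) :
    ((X13 - X12) ^ 2 + t' ^ 2) * (4 - ((X13 - X12) ^ 2 + t' ^ 2)) ≤
      4 * (X12 * (t + t') - X13 * t) ^ 2 := by
  have := exn_side (u1 := X13 - X12) (u2 := t') (v1 := -X13) (v2 := -(t + t'))
    (by linarith) h.b1 h.b3 (by rw [neg_sq, neg_sq]; exact h.c1)
    (by rw [neg_sq, neg_sq]; exact h.c3)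
    (by rw [show X13 - X12 + -X13 = -X12 by ring, show t' + -(t + t') = -t by ring, neg_sq,
      neg_sq]; exact h.a1)
    (by rw [show X13 - X12 + -X13 = -X12 by ring, show t' + -(t + t') = -t by ring, neg_sq,
      neg_sq]; exact h.a3)
  rw [show (X13 - X12) * -(t + t') - t' * -X13 = X12 * (t + t') - X13 * t by ring] at this
  linarith

theorem side13 (h : Sides X12 X13 t t') (hc : 0 ≤ X12 * (t + t') - X13 * t) :
    (X13 ^ 2 + (t + t') ^ 2) * (4 - (X13 ^ 2 + (t + t') ^ 2)) ≤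
      4 * (X12 * (t + t') - X13 * t) ^ 2 := by
  have := exn_side (u1 := -X13) (u2 := -(t + t')) (v1 := X12) (v2 := t)
    (by linarith) (by rw [neg_sq, neg_sq]; exact h.c1) (by rw [neg_sq, neg_sq]; exact h.c3)
    h.a1 h.a3
    (by rw [show -X13 + X12 = -(X13 - X12) by ring, show -(t + t') + t = -t' by ring, neg_sq,
      neg_sq]; exact h.b1)
    (by rw [show -X13 + X12 = -(X13 - X12) by ring, show -(t + t') + t = -t' by ring, neg_sq,
      neg_sq]; exact h.b3)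
  rw [show -X13 * t - -(t + t') * X12 = X12 * (t + t') - X13 * t by ring] at this
  linarith

/-- The area is at least the one of the equilateral triangle. -/
theorem cross_ge (h : Sides X12 X13 t t') (hc : 0 ≤ X12 * (t + t') - X13 * t) :
    h0 ≤ X12 * (t + t') - X13 * t := by
  have h1 := side12 h hc
  refine le_of_sq2 hc ?_
  rw [h0_sq']
  nlinarith [h.a1, h.a3]

end

/-- From a bound `q` of the squared length of a side: `p (4 - p)` is at least its value at the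
ends. -/
theorem of_side {p c s : ℝ} (hs : 0 < s) (hs1 : s ≤ 11 / 400) (hc : 0 ≤ c)
    (h : p * (4 - p) ≤ 4 * c ^ 2) (h1 : 13966 / 10000 ≤ p) (h2 : p ≤ 26034 / 10000) :
    h0 * (1 + 2 * thr s) ≤ c := by
  refine (thr_le hs hs1).trans (le_of_sq2 hc ?_)
  nlinarith [mul_nonneg (sub_nonneg.2 h1) (sub_nonneg.2 h2)]

/-! ### The line of triangles with two unit sides -/

/-- The triangle with two unit sides, one of them on a lattice direction. -/
theorem line_thr {s δ C : ℝ} (hs : 0 < s) (hs1 : s ≤ 11 / 400) (h1 : 8 * s ≤ δ)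
    (h2 : δ ≤ h0 - 5 * s) (hC : 0 ≤ C) (h : C ^ 2 + δ ^ 2 = 1) :
    h0 * (1 + 2 * thr s) ≤ h0 * C + δ / 2 := by
  obtain ⟨b1, b2⟩ := h0_bd
  have hh := h0_pos
  have hq := h0_sq'
  have d0 : 0 ≤ δ := by linarith
  rcases le_or_gt δ (11 / 50) with h3 | h3
  · -- next to the lattice triangle
    have c1' : 1 - 508 / 1000 * δ ^ 2 ≤ C := by
      refine le_of_sq2 hC ?_
      have u1 : δ ^ 2 ≤ 484 / 10000 := by nlinarith
      have u2 := mul_nonneg (sq_nonneg δ) (by linarith : 0 ≤ 484 / 10000 - δ ^ 2)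
      nlinarith
    have c2 := mul_le_mul_of_nonneg_left c1' hh.le
    have c3' : h0 * (508 / 1000 * δ ^ 2) ≤ 86603 / 100000 * (508 / 1000 * δ ^ 2) :=
      mul_le_mul_of_nonneg_right b2.le (by positivity)
    have c4 : h0 * (2 * thr s) ≤ 86603 / 100000 * (2 * thr s) :=
      mul_le_mul_of_nonneg_right b2.le (by linarith [thr_nonneg hs])
    have c5 : thr s ≤ 17321 / 10000 * (δ / 8) + 37 / 10 * (δ / 8) ^ 2 := by
      unfold thr
      have : s ^ 2 ≤ (δ / 8) ^ 2 := pow_le_pow_left₀ hs.le (by linarith) 2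
      linarith
    have c6 := mul_nonneg d0 (by linarith : 0 ≤ 11 / 50 - δ)
    linarith
  rcases le_or_gt δ (731 / 1000) with h4 | h4
  · -- far away
    refine (thr_le hs hs1).trans ?_
    have u1 : 9534 / 10000 - δ / 2 ≤ h0 * C := by
      refine le_of_sq2 (mul_nonneg hh.le hC) ?_
      have e : (h0 * C) ^ 2 = 3 / 4 * (1 - δ ^ 2) := by
        rw [mul_pow, hq]
        linear_combination (3 / 4) * h
      rw [e]
      have := mul_nonneg (by linarith : 0 ≤ δ - 11 / 50) (by linarith : 0 ≤ 731 / 1000 - δ)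
      linarith
    linarith
  · -- next to the other end
    obtain ⟨u, rfl⟩ : ∃ u, δ = h0 - u := ⟨h0 - δ, by ring⟩
    have u0 : 5 * s ≤ u := by linarith
    have u1 : u ≤ 13503 / 100000 := by linarith
    have u2 : 0 ≤ u := by linarith
    have c1' : 1 / 2 + 135 / 100 * u ≤ C := by
      refine le_of_sq2 hC ?_
      have e : C ^ 2 = 1 / 4 + 2 * h0 * u - u ^ 2 := by linear_combination h - hq
      rw [e]
      have v1 := mul_nonneg u2 (by linarith : 0 ≤ 13503 / 100000 - u)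
      have v2 := mul_nonneg u2 (by linarith : 0 ≤ h0 - 86602 / 100000)
      linarith
    have c2 := mul_le_mul_of_nonneg_left c1' hh.le
    have c3' := mul_nonneg u2 (by linarith : 0 ≤ h0 - 86602 / 100000)
    have c4 : h0 * (2 * thr s) ≤ 86603 / 100000 * (2 * thr s) :=
      mul_le_mul_of_nonneg_right b2.le (by linarith [thr_nonneg hs])
    have c5 : thr s ≤ 17321 / 10000 * (u / 5) + 37 / 10 * (u / 5) ^ 2 := by
      unfold thr
      have : s ^ 2 ≤ (u / 5) ^ 2 := pow_le_pow_left₀ hs.le (by linarith) 2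
      linarith
    have c6 := mul_nonneg u2 (by linarith : 0 ≤ 13503 / 100000 - u)
    linarith

/-- A side `p = 2 + 2 cos β`, `sin β = h0 C + δ / 2`. -/
theorem of_line {p c S : ℝ} (hc : 0 ≤ c) (h : p * (4 - p) ≤ 4 * c ^ 2)
    (e : p * (4 - p) = 4 * S ^ 2) : S ≤ c :=
  le_of_sq2 hc (by linarith)

/-- The squared length of a node edge on `W` above `h0`. -/
theorem upp_sq {T : ℝ} (h1 : h0 ≤ T) (h3 : T ^ 2 ≤ 3) :
    ∃ C, 0 ≤ C ∧ C ^ 2 + (T - h0) ^ 2 = 1 ∧ Wc T = C - 1 / 2 ∧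
      Wc T ^ 2 + T ^ 2 = 2 - C + 2 * h0 * (T - h0) ∧
      (Wc T ^ 2 + T ^ 2) * (4 - (Wc T ^ 2 + T ^ 2)) = 4 * (h0 * C + (T - h0) / 2) ^ 2 := by
  obtain ⟨w1, w2⟩ := W_up h1 h3
  have hq := h0_sq'
  obtain ⟨C, hC⟩ : ∃ C, Wc T = C - 1 / 2 := ⟨Wc T + 1 / 2, by ring⟩
  rw [hC, sub_add_cancel] at w1 w2
  have e : (C - 1 / 2) ^ 2 + T ^ 2 = 2 - C + 2 * h0 * (T - h0) := by
    linear_combination w1 + hq
  refine ⟨C, w2, w1, hC, by rw [hC, e], ?_⟩
  rw [hC, e]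
  have : C ^ 2 = 1 - (T - h0) ^ 2 := by linarith
  have e2 : (2 - C + 2 * h0 * (T - h0)) * (4 - (2 - C + 2 * h0 * (T - h0))) -
      4 * (h0 * C + (T - h0) / 2) ^ 2 = 4 - C ^ 2 * (1 + 4 * h0 ^ 2) -
      (T - h0) ^ 2 * (1 + 4 * h0 ^ 2) := by ring
  have e3 : 4 - C ^ 2 * (1 + 4 * h0 ^ 2) - (T - h0) ^ 2 * (1 + 4 * h0 ^ 2) = 0 := by
    rw [hq, this]
    ring
  linarith

/-- The squared length of a node edge on `W` below `h0`. -/
theorem low_sq {T : ℝ} (h1 : 0 ≤ T) (h3 : T < h0) :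
    ∃ C, 0 ≤ C ∧ C ^ 2 + (h0 - T) ^ 2 = 1 ∧ Wc T = C + 1 / 2 ∧
      Wc T ^ 2 + T ^ 2 = 2 + C - 2 * h0 * (h0 - T) ∧
      (Wc T ^ 2 + T ^ 2) * (4 - (Wc T ^ 2 + T ^ 2)) = 4 * (h0 * C + (h0 - T) / 2) ^ 2 := by
  obtain ⟨w1, w2⟩ := W_dn h1 h3
  have hq := h0_sq'
  obtain ⟨C, hC⟩ : ∃ C, Wc T = C + 1 / 2 := ⟨Wc T - 1 / 2, by ring⟩
  rw [hC, add_sub_cancel_right] at w1 w2
  have e : (C + 1 / 2) ^ 2 + T ^ 2 = 2 + C - 2 * h0 * (h0 - T) := by
    linear_combination w1 + hq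
  refine ⟨C, w2, w1, hC, by rw [hC, e], ?_⟩
  rw [hC, e]
  have : C ^ 2 = 1 - (h0 - T) ^ 2 := by linarith
  have e2 : (2 + C - 2 * h0 * (h0 - T)) * (4 - (2 + C - 2 * h0 * (h0 - T))) -
      4 * (h0 * C + (h0 - T) / 2) ^ 2 = 4 - C ^ 2 * (1 + 4 * h0 ^ 2) -
      (h0 - T) ^ 2 * (1 + 4 * h0 ^ 2) := by ring
  have e3 : 4 - C ^ 2 * (1 + 4 * h0 ^ 2) - (h0 - T) ^ 2 * (1 + 4 * h0 ^ 2) = 0 := by
    rw [hq, this]
    ring
  linarith

/-- A side on `W` below `h0` decides unless it is next to a lattice direction. -/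
theorem low_side {s T c : ℝ} (hs : 0 < s) (hs1 : s ≤ 11 / 400) (h1 : 5 * s ≤ T)
    (h2 : T ≤ h0 - 8 * s) (hc : 0 ≤ c)
    (h : (Wc T ^ 2 + T ^ 2) * (4 - (Wc T ^ 2 + T ^ 2)) ≤ 4 * c ^ 2) :
    h0 * (1 + 2 * thr s) ≤ c := by
  obtain ⟨C, C0, eC, -, -, e⟩ := low_sq (by linarith : 0 ≤ T) (by linarith : T < h0)
  exact (line_thr hs hs1 (by linarith) (by linarith) C0 eC).trans (of_line hc h e)

/-- A side on `W` above `h0` decides unless it is next to a lattice direction. -/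
theorem upp_side {s T c : ℝ} (hs : 0 < s) (hs1 : s ≤ 11 / 400) (h1 : h0 + 8 * s ≤ T)
    (h2 : T ≤ 3 * h0 / 2) (hc : 0 ≤ c)
    (h : (Wc T ^ 2 + T ^ 2) * (4 - (Wc T ^ 2 + T ^ 2)) ≤ 4 * c ^ 2) :
    h0 * (1 + 2 * thr s) ≤ c := by
  obtain ⟨b1, b2⟩ := h0_bd
  have h3 : T ^ 2 ≤ 3 := by
    have := pow_le_pow_left₀ (by linarith : 0 ≤ T) (by linarith : T ≤ 17 / 10) 2
    linarith
  obtain ⟨C, C0, eC, -, -, e⟩ := upp_sq (by linarith : h0 ≤ T) h3
  exact (line_thr hs hs1 (by linarith) (by linarith) C0 eC).trans (of_line hc h e)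

/-! ### A side of length `√3` -/

/-- The area with a side of squared length `3`. -/
theorem with_three {p r c : ℝ} (hr : 1 ≤ r) (hr3 : r ≤ 3)
    (h : 4 * c ^ 2 = 4 * 3 * p - (3 + p - r) ^ 2) :
    8 * p - p ^ 2 - 4 + (r - 1) * (2 * p + 1) ≤ 4 * c ^ 2 := by
  rw [h]
  nlinarith

/-- Two sides which are not short. -/
theorem two_sides {p q r c s : ℝ} (hs : 0 < s) (hs1 : s ≤ 11 / 400) (hc : 0 ≤ c)
    (hp : 117 / 100 ≤ p) (hp3 : p ≤ 3) (hq : 117 / 100 ≤ q) (hq3 : q ≤ 3) (hr : 1 ≤ r)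
    (hr3 : r ≤ 3) (h : 4 * c ^ 2 = 4 * p * q - (p + q - r) ^ 2) :
    h0 * (1 + 2 * thr s) ≤ c := by
  refine (thr_le hs hs1).trans (le_of_sq2 hc ?_)
  have k1 := mul_nonneg (sub_nonneg.2 hp) (sub_nonneg.2 hq)
  have k2 := mul_nonneg (sub_nonneg.2 hp) (sub_nonneg.2 hp3)
  have k3 := mul_nonneg (sub_nonneg.2 hq) (sub_nonneg.2 hq3)
  have k4 := mul_nonneg (sub_nonneg.2 hr) (sub_nonneg.2 hr3)
  have k5 := mul_nonneg (sub_nonneg.2 hp) (sub_nonneg.2 hr)
  have k6 := mul_nonneg (sub_nonneg.2 hq) (sub_nonneg.2 hr)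
  nlinarith

end Pool.Agent.Strip051.LC.E0
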