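import Pool.Agent.Strip051.LC.E0.GluC
import Pool.Agent.Strip051.LC.E0.O4.Ring
import Pool.Agent.Strip051.LC.E0.O4.Asm

/-! # Small rests: the statements outside the windows in the scaled form -/

namespace Pool.Agent.Strip051.LC.E0

open Pool.Agent.StripNear Pool.Agent.StripSquare Pool.Agent.Strip051 Pool.Agent.Strip051.Sweep
open Pool.Agent.Strip051.LC.Line
open G

theorem okv_of_ok2 (V : Vx) {s X12 X13 t t' : ℝ} (h : Out.OK2 s X12 X13 t t') :
    OKV V s X12 X13 t t' := by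
  cases V
  · exact h.1
  · exact h.2

/-- The length of a side from its abscissa. -/
theorem len_lo {X T : ℝ} (hT : 0 ≤ T) (h1 : T ≤ 1) (h : LC.c1 T ≤ |X|) : 1 ≤ X ^ 2 + T ^ 2 := by
  have e := c1_sq hT h1
  have c := c1_nonneg T
  have := pow_le_pow_left₀ c h 2
  rw [sq_abs] at this
  linarith

theorem len_hi {X T : ℝ} (h1 : T ^ 2 ≤ 3) (h : |X| ≤ LC.c3 T) : X ^ 2 + T ^ 2 ≤ 3 := by
  have e := c3_sq h1
  have := pow_le_pow_left₀ (abs_nonneg X) h 2
  rw [sq_abs] at this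
  linarith

section

variable {x w z : ℝ}

theorem Win.hts (h : Win x w z) :
    0 ≤ h0 * (x * w) ∧ h0 * (x * w) ≤ 8 * (h0 * x) ∧
      0 ≤ h0 * (1 + x * z) ∧ h0 * (1 + x * z) < 1 ∧ 0 ≤ h0 * (1 + x * (w + z)) ∧
      h0 * (1 + x * (w + z)) < 1 ∧
      h0 * (x * w) + h0 * (1 + x * z) = h0 * (1 + x * (w + z)) := by
  have hh := h0_pos
  have g2 := h0_lt
  have hx := h.x0
  refine ⟨mul_nonneg hh.le (mul_nonneg hx.le h.w0), ?_, h.rz.T0, ?_, h.ru.T0, ?_, by ring⟩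
  · have := mul_le_mul_of_nonneg_left h.w1 (mul_nonneg hh.le hx.le)
    linarith
  · have := mul_le_mul_of_nonneg_left h.hz hh.le
    linarith
  · have := mul_le_mul_of_nonneg_left h.hu hh.le
    linarith

theorem Shp.sides {X12 X13 : ℝ} (h : Shp x w z X12 X13) :
    Sides X12 X13 (h0 * (x * w)) (h0 * (1 + x * z)) := by
  obtain ⟨a0, a1, b0, b1, d0, d1, e⟩ := h.win.hts
  have hs1 := h.win.s1
  have n1 := h.win.nums.1
  have ax : |X12| = X12 := abs_of_nonneg (by linarith [h.a1])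
  refine ⟨a0, b0, ?_, ?_, ?_, ?_, ?_, ?_⟩
  · exact len_lo a0 (by linarith) (by rw [ax]; exact h.a1)
  · exact len_hi (by nlinarith) (by rw [ax]; exact h.a2)
  · exact len_lo b0 b1.le h.b1
  · exact len_hi (by nlinarith) h.b2
  · rw [e]
    exact len_lo d0 d1.le h.c1
  · rw [e]
    exact len_hi (by nlinarith) h.c2

theorem Win.w8 (h : Win x w z) (h8 : w + z ≤ 8) :
    Out.W8 (h0 * x) (h0 * (x * w)) (h0 * (1 + x * z)) := by
  obtain ⟨a0, a1, b0, b1, d0, d1, e⟩ := h.hts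
  have hh := h0_pos
  have hx := h.x0
  have hp : 0 ≤ h0 * x := mul_nonneg hh.le hx.le
  have k1 := mul_le_mul_of_nonneg_left h.z0 hp
  have k2 := mul_le_mul_of_nonneg_left h.z1 hp
  have k3 := mul_le_mul_of_nonneg_left h.u0 hp
  have k4 := mul_le_mul_of_nonneg_left h8 hp
  have k5 := mul_le_mul_of_nonneg_left h.hu hh.le
  refine ⟨a1, ?_, ?_, ?_⟩
  · rw [abs_le]
    constructor <;> linarith
  · rw [e, abs_le]
    constructor <;> linarith
  · rw [e]
    linarith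

theorem Win.w6 (h : Win x w z) (h6 : ¬ In6 w z) :
    ¬ Out.W6 (h0 * x) (h0 * (x * w)) (h0 * (1 + x * z)) := by
  rintro ⟨q1, q2, q3⟩
  obtain ⟨a0, a1, b0, b1, d0, d1, e⟩ := h.hts
  have hp : 0 < h0 * x := mul_pos h0_pos h.x0
  obtain ⟨m1, m2⟩ := abs_le.1 q2
  rw [e] at q3
  obtain ⟨m3, m4⟩ := abs_le.1 q3
  refine h6 ⟨?_, ?_, ?_, ?_, ?_⟩
  · exact le_of_mul_le_mul_left (by linarith : h0 * x * w ≤ h0 * x * 6) hp
  · exact le_of_mul_le_mul_left (by linarith : h0 * x * -6 ≤ h0 * x * z) hp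
  · exact le_of_mul_le_mul_left (by linarith : h0 * x * z ≤ h0 * x * 6) hp
  · exact le_of_mul_le_mul_left (by linarith : h0 * x * -6 ≤ h0 * x * (w + z)) hp
  · exact le_of_mul_le_mul_left (by linarith : h0 * x * (w + z) ≤ h0 * x * 6) hp

theorem Win.z7 (h : Win x w z) (h7 : 4 < w ∨ z < -(31 / 5) ∨ -6 < z) :
    4 * (h0 * x) < h0 * (x * w) ∨ h0 * (1 + x * z) - h0 < -(31 / 5 * (h0 * x)) ∨
      -(6 * (h0 * x)) < h0 * (1 + x * z) - h0 := by
  have hp : 0 < h0 * x := mul_pos h0_pos h.x0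
  rcases h7 with h1 | h1 | h1
  · exact Or.inl (by have := mul_lt_mul_of_pos_left h1 hp; linarith)
  · exact Or.inr (Or.inl (by have := mul_lt_mul_of_pos_left h1 hp; linarith))
  · exact Or.inr (Or.inr (by have := mul_lt_mul_of_pos_left h1 hp; linarith))

/-- **The statements next to the charts.** -/
theorem aux_ok (V : Vx) (x w z : ℝ) (h : Win x w z) (h8 : w + z ≤ 8) : Aux V x w z := by
  have hh := h0_pos
  have hx := h.x0
  have hs : 0 < h0 * x := mul_pos hh hx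
  have hs1 := h.s1
  obtain ⟨a0, a1, b0, b1, d0, d1, e⟩ := h.hts
  obtain ⟨n1, n2⟩ := h.nums
  have W := h.w8 h8
  have hN : NCir |c1 (h0 * (x * w))| (h0 * (x * w)) :=
    ⟨abs_of_nonneg (by linarith), a0, by linarith⟩
  have p1 := h.rz.c1_pos
  have p2 := h.ru.c1_pos
  refine ⟨?_, ?_, ?_, ?_, ?_, ?_, ?_, ?_⟩
  · intro k X23 _ _ hS hE
    exact okv_of_ok2 V (Out.big_ok hs hs1 hS.sides (Or.inl hN) hE)
  · intro k X13 _ _ hS hE
    exact okv_of_ok2 V (Out.big_ok hs hs1 hS.sides (Or.inl hN) hE)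
  · intro k X23 hk hk' hS h6 hc h7 hW
    have q := Out.ns_of b0 k hk hk'
    refine okv_of_ok2 V (Out.ringA hs hs1 hS.sides W ?_ (h.w6 h6) ?_ (h.z7 h7) ?_)
    · rw [add_sub_cancel_left]
      exact q
    · rw [add_sub_cancel_left]
      rcases hc with hc | hc
      · exact Or.inl hc
      · exact Or.inr (by have := mul_lt_mul_of_pos_left hc hs; linarith)
    · rw [add_sub_cancel_left]
      exact hW
  · intro k X13 hk hk' hS h6 h7 hW
    have q := Out.ns_of d0 k hk hk'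
    refine okv_of_ok2 V (Out.ringB hs hs1 hS.sides W ?_ (h.w6 h6) (h.z7 h7) ?_)
    · rw [e]
      exact q
    · rw [e]
      exact hW
  · intro hz hS
    have k := h.rz.b_bd hz
    refine okv_of_ok2 V (Out.ring_b23 hs hs1 hS.sides W (h.rz.ge_h0 hz) (by linarith) ?_)
    rw [cv_two_high (h.rz.ge_h0 hz)]
    linarith
  · intro hz hS hb
    have hτ : 0 ≤ w + z := add_nonneg h.w0 hz
    refine okv_of_ok2 V (Out.ring_b13 hs hs1 hS.sides W ?_ (by linarith) ?_)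
    · rw [e]
      exact h.ru.ge_h0 hτ
    · rw [e, ← cv_two_high (h.ru.ge_h0 hτ)]
      exact hb
  · intro hz hS
    have hτ : 0 ≤ w + z := add_nonneg h.w0 hz
    have k := h.ru.b_bd hτ
    refine okv_of_ok2 V (Out.ring_b13 hs hs1 hS.sides W ?_ (by linarith) ?_)
    · rw [e]
      exact h.ru.ge_h0 hτ
    · rw [e, ← cv_two_high (h.ru.ge_h0 hτ)]
  · intro hz hS hb
    refine okv_of_ok2 V (Out.ring_b23 hs hs1 hS.sides W (h.rz.ge_h0 hz) (by linarith) ?_)
    rw [← cv_two_high (h.rz.ge_h0 hz)]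
    linarith

end

/-- **The triangles outside the windows.** -/
theorem out_ok {s : ℝ} (hs : 0 < s) (hs1 : s ≤ 11 / 400) (hR : ∀ V, Rows V) : OutOK s := by
  intro V X12 X13 t t' h h1 h2 hE w1 w2 w3
  have g1 := h0_gt
  have F : Out.Fin3 s X12 X13 t t' := by
    obtain ⟨k, m1, m2⟩ := h1
    have q := Out.ns_of h.t0 k m1 m2
    rcases h2 with ⟨j, m3, m4⟩ | ⟨j, m3, m4⟩
    · exact Out.pairA hs hs1 h.sides h.cr q (Out.ns_of h.t1 j m3 m4)
    · exact Out.pairB hs hs1 h.sides h.cr q (Out.ns_of (add_nonneg h.t0 h.t1) j m3 m4)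
  have WX : ∀ X12 X13 t t' : ℝ, Tri X12 X13 t t' → Out.WX s X12 X13 t t' →
      OKV V s X12 X13 t t' := by
    intro X12 X13 t t' h hw
    obtain ⟨e1, e2, q1, q2, q3, q4, q5⟩ := hw
    rcases le_or_gt ((174 / 100 + 3 * s) * s) (exn X12 X13 t t') with hc | hc
    · refine okv_of_ok2 V (Out.big_ok hs hs1 h.sides (Or.inl ⟨?_, h.t0, by linarith⟩) hc)
      rw [e1, abs_of_nonneg (c1_nonneg t)]
    · exact wx_ok (hR V) hs hs1 h e1 e2 q1 q3 q4 q5 hc
  rcases F with F | F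
  · exact okv_of_ok2 V F
  rcases F with F | F | F | F | F
  · obtain ⟨a, b, c, d, e⟩ := F
    exact absurd ⟨a, b, c, d, e⟩ w1
  · obtain ⟨a, b, c, d, e⟩ := F
    exact absurd ⟨a, b, c, d, e⟩ w2
  · obtain ⟨a, b, c, d, e⟩ := F
    exact absurd ⟨a, b, c, d, e⟩ w3
  · exact WX _ _ _ _ h F
  · exact okv_mir V hs.le (by linarith) (WX _ _ _ _ h.mir F)

end Pool.Agent.Strip051.LC.E0
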