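import Pool.Agent.Strip051.LC.E0.GluB
import Pool.Agent.Strip051.LC.E0.GluD

/-! # Small rests -/

namespace Pool.Agent.Strip051.LC.E0

open Pool.Agent.Strip051.LC.Line

/-- **Small rests.** -/
theorem good0 (s : ℝ) (hs : 0 < s) (hs1 : s ≤ 11 / 400) : Good s :=
  good0_of aux_ok (fun _ h h1 => out_ok h h1 rows_all) s hs hs1

end Pool.Agent.Strip051.LC.E0
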