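import Pool.Agent.Strip051.LC.E0.Seg

/-! # Small rests: the assembly

`Charts s` collects the statements about the small triangles, `Walls s` the rows at the floor. -/

namespace Pool.Agent.Strip051.LC.E0

open Pool.Agent.StripNear Pool.Agent.StripSquare Pool.Agent.Strip051 Pool.Agent.Strip051.Sweep
open Pool.Agent.Strip051.LC.Box
open Pool.Agent.Strip051.LC.Exact (kE)

/-- The statements about the small triangles. -/
structure Charts (s : ℝ) : Prop where
  farA : ∀ j k, j ≤ k → K.AllA (farD (kE s) s (vA par s) (vX par s)) j k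
  farB : ∀ j k, K.AllB (farD (kE s) s (vA par s) (vX par s)) j k
  nearA : ∀ j k, j ≤ k → K.AllA (nearT 0 3 (kE s) s (vB par s) (vX par s)) j k
  nearB : ∀ j k, K.AllB (nearT 0 3 (kE s) s (vB par s) (vX par s)) j k

/-- The rows at the floor. -/
structure Walls (s : ℝ) : Prop where
  far : WallY (kE s) s 0 (1 / 2 - we s) (ker K.nodes (vA par s) fun _ _ => 0)
    (ker K.nodes (vX par s) fun _ _ => 0) (fun _ _ => 0) (fun _ => 0) 0 0 (NodeAt K.nodes)
  near : WallY (kE s) s (mu 3 s) (1 / 2 - we s - mu 3 s * wq s)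
    (ker K.nodes (vB par s) fun _ _ => 0) (ker K.nodes (vX par s) fun _ _ => 0)
    (fun _ _ => 0) (fun _ => 0) 0 0 (NodeAt K.nodes)

theorem certT {s : ℝ} (hs : 0 < s) (hs1 : s ≤ 11 / 400) (h : Charts s) :
    CertT K (vA par s) (vB par s) (vX par s) 3 0 (kE s) s where
  two := by norm_num
  a0 := le_rfl
  κ0 := kE_nonneg hs hs1
  s0 := hs.le
  s1 := by linarith [h0_gt]
  admA := adm_vA par s
  admB := adm_vB par s
  admX := adm_vX par s
  adm0 := by
    have h0 : pos.Adm (vA par s) := adm_vA par s
    have h1 := h0.smul 0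
    simp only [zero_mul] at h1
    exact h1
  bdd := bdd hs hs1
  farA := h.farA
  farB := h.farB
  nearA := h.nearA
  nearB := h.nearB

/-- **Small rests**: the count from the charts and the rows at the floor. -/
theorem good {s : ℝ} (hs : 0 < s) (hs1 : s ≤ 11 / 400) (h : Charts s) (w : Walls s) : Good s := by
  have hx : s ≤ h0 / 16 := by linarith [h0_gt]
  have hc := certT hs hs1 h
  exact count_of_certT hc (PosQ.first pos) (hc.rowWallY hs w.far w.near) (segF hs hs1)
    (segN hs hs1) (uniF hs hs1) (uniN hs hs1) (costOK (we_le' hs.le hx)) (costOK (wn_le' hs.le hx))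

end Pool.Agent.Strip051.LC.E0
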