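import Pool.Agent.Strip051.LC.E0.RowW

/-! # Small rests: the slopes of the tables in the window -/

namespace Pool.Agent.Strip051.LC.E0

open Pool.Agent.StripNear Pool.Agent.StripSquare Pool.Agent.Strip051 Pool.Agent.Strip051.Sweep
open G

section

variable {x z : ℝ}

theorem ch_bd (hx : 0 < x) (hs : h0 * x ≤ 11 / 400) : 147 / 400 ≤ ch x ∧ ch x ≤ 3 / 8 := by
  have hh := h0_pos
  have := x1_bd (s := h0 * x) (by positivity) hs
  rw [← x1_h0]
  constructor <;> linarith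

theorem x_le (hx : 0 < x) (hs : h0 * x ≤ 11 / 400) : x ≤ 4 / 125 := by
  have := h0_gt
  nlinarith

theorem mm_bd (hx : 0 < x) (hs : h0 * x ≤ 11 / 400) : 3 / 8 ≤ mm x ∧ mm x ≤ 9 / 20 := by
  have hh := h0_pos
  have := xm_bd (s := h0 * x) (by positivity) hs
  rw [← xm_h0 hx (by linarith [x_le hx hs])]
  constructor <;> linarith

theorem q1_bd (hx : 0 < x) (hs : h0 * x ≤ 11 / 400) {w : ℝ} (hw : 0 ≤ w) (hw1 : w ≤ 1) :
    0 ≤ q1 w x ∧ q1 w x ≤ 9 / 20 * w := by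
  obtain ⟨a, b⟩ := ch_bd hx hs
  obtain ⟨c, d⟩ := mm_bd hx hs
  unfold q1
  have h1 : 0 ≤ (mm x - ch x) * w := mul_nonneg (by linarith) hw
  have h2 : (mm x - ch x) * w ≤ mm x - ch x := by
    have : 0 ≤ mm x - ch x := by linarith
    nlinarith
  constructor
  · exact mul_nonneg hw (by linarith)
  · nlinarith

theorem pl_between {y0 y1 t lo hi : ℝ} (t0 : 0 ≤ t) (t1 : t ≤ 1) (a : lo ≤ y0) (b : lo ≤ y1)
    (c : y0 ≤ hi) (d : y1 ≤ hi) : lo ≤ y0 + (y1 - y0) * t ∧ y0 + (y1 - y0) * t ≤ hi := by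
  constructor <;> nlinarith [mul_nonneg t0 (sub_nonneg.2 b), mul_nonneg t0 (sub_nonneg.2 d),
    mul_nonneg (sub_nonneg.2 t1) (sub_nonneg.2 a), mul_nonneg (sub_nonneg.2 t1) (sub_nonneg.2 c)]

theorem xa_lin (hx : 0 < x) (hs : h0 * x ≤ 11 / 400) {w : ℝ} (hw : 0 ≤ w) :
    0 ≤ xa w x ∧ xa w x ≤ 9 / 20 * w := by
  obtain ⟨a, b⟩ := ch_bd hx hs
  obtain ⟨c, d⟩ := mm_bd hx hs
  unfold xa
  simp only [cse_sub]
  split_ifs with h1 h2 h3 h4
  · exact q1_bd hx hs hw h1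
  · have h5 : 0 ≤ w - 1 := by linarith
    constructor
    · have := mul_nonneg (by linarith : 0 ≤ mm x) h5
      linarith
    · nlinarith
  · have := pl_between (y0 := ch x + mm x / 2) (y1 := 957 / 1000) (t := w - 3 / 2) (lo := 0)
      (hi := 957 / 1000) (by linarith) (by linarith) (by linarith) (by norm_num) (by linarith)
      (by norm_num)
    refine ⟨this.1, ?_⟩
    nlinarith
  · constructor <;> linarith
  · constructor <;> linarith

theorem xw_lin (hx : 0 < x) (hs : h0 * x ≤ 11 / 400) {w : ℝ} (hw : 0 ≤ w) :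
    0 ≤ xw w x ∧ xw w x ≤ 9 / 20 * w := by
  obtain ⟨a, b⟩ := ch_bd hx hs
  obtain ⟨c, d⟩ := mm_bd hx hs
  unfold xw
  simp only [cse_sub]
  split_ifs with h1 h2 h3
  · exact q1_bd hx hs hw h1
  · have h5 : 0 ≤ w - 1 := by linarith
    constructor
    · have := mul_nonneg (by linarith : 0 ≤ mm x) h5
      linarith
    · nlinarith
  · have h5 : 0 ≤ 5 / 2 - w := by linarith
    have h6 : 5 / 2 - w ≤ 1 := by linarith
    have h7 : 0 ≤ ch x + mm x / 2 := by linarith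
    constructor
    · positivity
    · nlinarith
  · constructor <;> linarith

theorem xb_lin {v : ℝ} (hv : 0 ≤ v) : 0 ≤ xb v ∧ xb v ≤ 571 / 1000 * v := by
  unfold xb
  simp only [cse_sub]
  split_ifs with h1 h2
  · constructor <;> nlinarith
  · constructor <;> nlinarith
  · constructor <;> linarith

theorem gh_lin {w : ℝ} (hw : 0 ≤ w) : 0 ≤ gh w ∧ gh w ≤ w := by
  unfold gh
  simp only [cse_sub]
  split_ifs with h1 h2
  · exact ⟨hw, le_rfl⟩
  · constructor <;> linarith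
  · exact ⟨le_rfl, hw⟩

/-! ### The curves -/

theorem Rg.cc1_up (hz : 0 ≤ z) (h : Rg x z) : cc1 z x ≤ 1 / 2 := by
  have hx := h.x0
  unfold cc1
  refine Real.sqrt_le_iff.2 ⟨by norm_num, ?_⟩
  nlinarith [mul_nonneg hx.le hz]

theorem Rg.xi1_up (h : Rg x z) (hz : 0 ≤ z) : 3 / 2 * z ≤ -xi1 z x ∧ -xi1 z x ≤ 33 / 10 * z := by
  have h1 : 0 ≤ cc1 z x := Real.sqrt_nonneg _
  have h2 := Rg.cc1_up hz h
  have h3 : 0 ≤ x * z := mul_nonneg h.x0.le hz
  have h4 := h.b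
  unfold xi1
  rw [neg_neg]
  constructor
  · rw [le_div_iff₀ (by linarith)]
    nlinarith [mul_nonneg hz h3]
  · rw [div_le_iff₀ (by linarith)]
    nlinarith [mul_nonneg hz h1, mul_nonneg hz (sub_nonneg.2 h4)]

theorem Rg.qw_ge (h : Rg x z) : 97 / 100 ≤ qw z x := by
  have := h.a
  have := h.b
  unfold qw
  refine Real.le_sqrt_of_sq_le ?_
  nlinarith

theorem Rg.om_le (h : Rg x z) : om z x ≤ 39 / 100 * z ^ 2 := by
  have := h.qw_ge
  unfold om
  rw [div_le_iff₀ (by linarith)]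
  nlinarith [sq_nonneg z]

theorem Rg.xiw_up (h : Rg x z) (hz : 0 ≤ z) : -(1 / 10 * z) ≤ xiw z x := by
  have h1 := h.om_le
  have h2 := h.b
  have h3 : x * om z x ≤ x * (39 / 100 * z ^ 2) := mul_le_mul_of_nonneg_left h1 h.x0.le
  have h4 : x * z * z ≤ 3 / 25 * z := mul_le_mul_of_nonneg_right h2 hz
  unfold xiw
  nlinarith

/-- `W - c1` above `h0`. -/
theorem Rg.gap1 (h : Rg x z) (hz : 0 ≤ z) : 7 / 5 * z ≤ xiw z x - xi1 z x := by
  have := (h.xi1_up hz).1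
  have := h.xiw_up hz
  linarith

theorem Rg.cc3_dn (h : Rg x z) (hz : z ≤ 0) : 3 / 2 ≤ cc3 z x ∧ cc3 z x ≤ 161 / 100 := by
  have hx := h.x0
  have ha := h.a
  have h1 : x * z ≤ 0 := mul_nonpos_of_nonneg_of_nonpos hx.le hz
  unfold cc3
  constructor
  · refine Real.le_sqrt_of_sq_le ?_
    nlinarith
  · refine Real.sqrt_le_iff.2 ⟨by norm_num, ?_⟩
    nlinarith

theorem Rg.xi3_dn (h : Rg x z) (hz : z ≤ 0) : 21 / 50 * -z ≤ xi3 z x ∧ xi3 z x ≤ 1 / 2 * -z := by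
  obtain ⟨h1, h2⟩ := h.cc3_dn hz
  have ha := h.a
  have h3 : x * z ≤ 0 := mul_nonpos_of_nonneg_of_nonpos h.x0.le hz
  have e : xi3 z x = 3 / 4 * -z * (2 + x * z) / (3 / 2 + cc3 z x) := by
    unfold xi3
    ring
  rw [e]
  have hz' : 0 ≤ -z := by linarith
  constructor
  · rw [le_div_iff₀ (by linarith)]
    nlinarith [mul_nonneg hz' (sub_nonneg.2 h2), mul_nonneg hz' (sub_nonneg.2 ha)]
  · rw [div_le_iff₀ (by linarith)]
    nlinarith [mul_nonneg hz' (sub_nonneg.2 h1)]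

/-- `c3 - W` below `h0`. -/
theorem Rg.gap3 (h : Rg x z) (hz : z ≤ 0) : 21 / 50 * -z ≤ xi3 z x - xiw z x := by
  have := (h.xi3_dn hz).1
  have := xiw_nonpos (z := z) h.x0.le
  linarith

theorem Rg.dwu_ge (h : Rg x z) (hz : 0 ≤ z) : 9 / 10 ≤ dwu z x := by
  have hx := h.x0
  have e1 := h.W_up hz
  have e2 := h.c3
  have hq := h0_sq'
  have h1 : Wc (h0 * (1 + x * z)) ≤ 1 / 2 := by
    rw [e1]
    have := mul_nonneg hx.le (sub_nonneg.2 (xiw_nonpos (z := z) hx.le))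
    linarith
  have hb := h.b
  have ha : 0 ≤ x * z := mul_nonneg hx.le hz
  have h2 : 141 / 100 ≤ LC.c3 (h0 * (1 + x * z)) := by
    rw [c3_h1]
    unfold cc3
    refine Real.le_sqrt_of_sq_le ?_
    nlinarith
  unfold dwu
  linarith

theorem Rg.dwl_ge (h : Rg x z) (hz : z < 0) : 7 / 10 ≤ dwl z x := by
  have hx := h.x0
  have e1 := h.W_dn hz
  have e2 := h.c1
  have ha := h.a
  have hb : x * z ≤ 0 := mul_nonpos_of_nonneg_of_nonpos hx.le hz.le
  have h1 : 147 / 100 ≤ Wc (h0 * (1 + x * z)) := by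
    rw [e1]
    unfold xiw
    have := h.qw_ge
    rw [qw_eq h.xz2] at this
    linarith
  have h2 : LC.c1 (h0 * (1 + x * z)) ≤ 77 / 100 := by
    rw [c1_h1]
    unfold cc1
    refine Real.sqrt_le_iff.2 ⟨by norm_num, ?_⟩
    nlinarith
  unfold dwl
  linarith

theorem Rg.sg1_up (h : Rg x z) (hz : 0 ≤ z) : sg1 z x ≤ 19 / 5 * z := by
  have := (h.xi1_up hz).2
  unfold sg1
  linarith

theorem Rg.sg3_dn (h : Rg x z) (hz : z ≤ 0) : -sg3 z x ≤ 67 / 100 * -z := by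
  have := (h.xi3_dn hz).2
  unfold sg3
  linarith

theorem Rg.x1p_bd (h : Rg x z) (hs : h0 * x ≤ 11 / 400) (hz : 0 ≤ z) :
    -(11 / 10 * z) ≤ x1p z x ∧ x1p z x ≤ 9 / 5 * z := by
  have h1 := h.sg1_nonneg hz
  have h2 := h.sg1_up hz
  obtain ⟨a, b⟩ := xa_lin h.x0 hs h1
  obtain ⟨c, d⟩ := xb_lin (v := sg1 z x / 2) (by linarith)
  unfold x1p
  constructor <;> linarith

theorem Rg.x3m_bd (h : Rg x z) (hs : h0 * x ≤ 11 / 400) (hz : z ≤ 0) :
    0 ≤ x3m z x ∧ x3m z x ≤ 1 / 2 * -z := by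
  have h1 := h.sg3_nonpos hz
  have h2 := h.sg3_dn hz
  obtain ⟨a, b⟩ := xa_lin h.x0 hs (by linarith : 0 ≤ -sg3 z x)
  obtain ⟨c, d⟩ := xb_lin (v := -(sg3 z x / 2)) (by linarith)
  unfold x3m
  constructor <;> linarith

end

/-! ### Slope bounds -/

/-- All slopes of a table at the height `T` are at most `L`. -/
def SB (v : ℝ → Fin 4 → ℝ) (T L : ℝ) : Prop :=
  ∀ i : Fin 3, |v T i.succ - v T i.castSucc| ≤ L * (pos.cv i.succ T - pos.cv i.castSucc T)

theorem ker_step {v : ℝ → Fin 4 → ℝ} (hv : E0.K.adm v) {T L : ℝ} (hT : 0 ≤ T) (h3 : T ^ 2 ≤ 3)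
    (hL : SB v T L) (i : Fin 3) {X X' : ℝ} (h1 : pos.cv i.castSucc T ≤ X) (h2 : X ≤ X')
    (h4 : X' ≤ pos.cv i.succ T) :
    |ker E0.K.nodes v (fun _ _ => 0) X' T - ker E0.K.nodes v (fun _ _ => 0) X T| ≤
      L * (X' - X) := by
  have e1 : ker E0.K.nodes v (fun _ _ => 0) X T = v T i.castSucc +
      (v T i.succ - v T i.castSucc) *
        ((X - pos.cv i.castSucc T) / (pos.cv i.succ T - pos.cv i.castSucc T)) :=
    E0.K.seg v hv i X T hT h3 h1 (h2.trans h4)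
  have e2 : ker E0.K.nodes v (fun _ _ => 0) X' T = v T i.castSucc +
      (v T i.succ - v T i.castSucc) *
        ((X' - pos.cv i.castSucc T) / (pos.cv i.succ T - pos.cv i.castSucc T)) :=
    E0.K.seg v hv i X' T hT h3 (h1.trans h2) h4
  have h5 := hL i
  rw [e1, e2]
  rcases eq_or_ne (pos.cv i.succ T - pos.cv i.castSucc T) 0 with h6 | h6
  · have : X' = X := by linarith
    rw [this]
    simp
  · have h7 : 0 < pos.cv i.succ T - pos.cv i.castSucc T :=
      lt_of_le_of_ne (by linarith) (Ne.symm h6)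
    have e3 : v T i.castSucc + (v T i.succ - v T i.castSucc) *
        ((X' - pos.cv i.castSucc T) / (pos.cv i.succ T - pos.cv i.castSucc T)) -
        (v T i.castSucc + (v T i.succ - v T i.castSucc) *
        ((X - pos.cv i.castSucc T) / (pos.cv i.succ T - pos.cv i.castSucc T))) =
        (v T i.succ - v T i.castSucc) * ((X' - X) / (pos.cv i.succ T - pos.cv i.castSucc T)) := by
      ring
    rw [e3, abs_mul, abs_of_nonneg (div_nonneg (sub_nonneg.2 h2) h7.le), mul_div_assoc',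
      div_le_iff₀ h7]
    have := mul_le_mul_of_nonneg_right h5 (sub_nonneg.2 h2)
    linarith

/-- **The kernel is Lipschitz.** -/
theorem ker_lip {v : ℝ → Fin 4 → ℝ} (hv : E0.K.adm v) {T L : ℝ} (hT : 0 ≤ T) (h3 : T ^ 2 ≤ 3)
    (hL : SB v T L) {X X' : ℝ} (h1 : c1 T ≤ X) (h2 : X ≤ X') (h4 : X' ≤ c3 T) :
    |ker E0.K.nodes v (fun _ _ => 0) X' T - ker E0.K.nodes v (fun _ _ => 0) X T| ≤
      L * (X' - X) := by
  set f : ℝ → ℝ := fun X => ker E0.K.nodes v (fun _ _ => 0) X T with hf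
  have s0 : ∀ {a b : ℝ}, pos.cv 0 T ≤ a → a ≤ b → b ≤ pos.cv 1 T → |f b - f a| ≤ L * (b - a) :=
    fun h h' h'' => ker_step hv hT h3 hL 0 h h' h''
  have s1 : ∀ {a b : ℝ}, pos.cv 1 T ≤ a → a ≤ b → b ≤ pos.cv 2 T → |f b - f a| ≤ L * (b - a) :=
    fun h h' h'' => ker_step hv hT h3 hL 1 h h' h''
  have s2 : ∀ {a b : ℝ}, pos.cv 2 T ≤ a → a ≤ b → b ≤ pos.cv 3 T → |f b - f a| ≤ L * (b - a) :=
    fun h h' h'' => ker_step hv hT h3 hL 2 h h' h''
  have m0 : pos.cv 0 T ≤ pos.cv 1 T := pos.cv_mono hT h3 (by decide)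
  have m1 : pos.cv 1 T ≤ pos.cv 2 T := pos.cv_mono hT h3 (by decide)
  have m2 : pos.cv 2 T ≤ pos.cv 3 T := pos.cv_mono hT h3 (by decide)
  rw [← cv_zero] at h1
  rw [← cv_three] at h4
  have tri : ∀ {a b c : ℝ}, |f b - f a| ≤ L * (b - a) → |f c - f b| ≤ L * (c - b) →
      |f c - f a| ≤ L * (c - a) := by
    intro a b c h h'
    have : f c - f a = (f c - f b) + (f b - f a) := by ring
    rw [this]
    refine (abs_add_le _ _).trans ?_
    linarith
  change |f X' - f X| ≤ L * (X' - X)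
  -- up to the second node, then up to the third one, then to the end
  have t01 : ∀ {a b : ℝ}, pos.cv 0 T ≤ a → a ≤ b → b ≤ pos.cv 2 T → |f b - f a| ≤ L * (b - a) := by
    intro a b ha hab hb
    rcases le_total b (pos.cv 1 T) with h | h
    · exact s0 ha hab h
    · rcases le_total a (pos.cv 1 T) with h' | h'
      · exact tri (s0 ha h' le_rfl) (s1 le_rfl h hb)
      · exact s1 h' hab hb
  rcases le_total X' (pos.cv 2 T) with h | h
  · exact t01 h1 h2 h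
  · rcases le_total X (pos.cv 2 T) with h' | h'
    · exact tri (t01 h1 h' le_rfl) (s2 le_rfl h h4)
    · exact s2 h' h2 h4

end Pool.Agent.Strip051.LC.E0
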