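import Pool.Agent.Strip051.LC.E0.MonoA

/-! # Small rests: the slopes of the three tables in the window -/

namespace Pool.Agent.Strip051.LC.E0

open Pool.Agent.StripNear Pool.Agent.StripSquare Pool.Agent.Strip051 Pool.Agent.Strip051.Sweep
open G

section

variable {x z : ℝ}

theorem vX_bd (hx : 0 < x) (hs : h0 * x ≤ 11 / 400) {T : ℝ} (hT : 0 ≤ T) (hT3 : T ^ 2 ≤ 3)
    (j : Fin 4) : |vX par (h0 * x) T j| ≤ 3 / 1000 := by
  have hh := h0_pos
  exact vX_abs (by positivity) hs hT hT3 j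

theorem abs_dif {a b A B C : ℝ} (ha : |a| ≤ A) (hb : |b| ≤ B) (h : A + B ≤ C) : |a - b| ≤ C :=
  (abs_sub _ _).trans (by linarith)

/-- The differences of the curves above `h0`. -/
theorem Rg.dif_up (h : Rg x z) (hz : 0 ≤ z) :
    pos.cv (0 : Fin 3).succ (h0 * (1 + x * z)) - pos.cv (0 : Fin 3).castSucc (h0 * (1 + x * z)) =
      x * (xiw z x - xi1 z x) ∧
    pos.cv (1 : Fin 3).succ (h0 * (1 + x * z)) - pos.cv (1 : Fin 3).castSucc (h0 * (1 + x * z)) =
      3 / 20 * dwu z x ∧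
    pos.cv (2 : Fin 3).succ (h0 * (1 + x * z)) - pos.cv (2 : Fin 3).castSucc (h0 * (1 + x * z)) =
      17 / 20 * dwu z x := by
  rw [show (0 : Fin 3).succ = (1 : Fin 4) from rfl, show (0 : Fin 3).castSucc = (0 : Fin 4) from rfl,
    show (1 : Fin 3).succ = (2 : Fin 4) from rfl, show (1 : Fin 3).castSucc = (1 : Fin 4) from rfl,
    show (2 : Fin 3).succ = (3 : Fin 4) from rfl, show (2 : Fin 3).castSucc = (2 : Fin 4) from rfl,
    cv_zero, cv_one_high (h.ge_h0 hz), cv_two_high (h.ge_h0 hz), cv_three, h.c1, h.c3, h.W_up hz]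
  unfold dwu
  refine ⟨by ring, by ring, by ring⟩

/-- The differences of the curves below `h0`. -/
theorem Rg.dif_dn (h : Rg x z) (hz : z < 0) :
    pos.cv (0 : Fin 3).succ (h0 * (1 + x * z)) - pos.cv (0 : Fin 3).castSucc (h0 * (1 + x * z)) =
      1 / 3 * dwl z x ∧
    pos.cv (1 : Fin 3).succ (h0 * (1 + x * z)) - pos.cv (1 : Fin 3).castSucc (h0 * (1 + x * z)) =
      2 / 3 * dwl z x ∧
    pos.cv (2 : Fin 3).succ (h0 * (1 + x * z)) - pos.cv (2 : Fin 3).castSucc (h0 * (1 + x * z)) =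
      x * (xi3 z x - xiw z x) := by
  rw [show (0 : Fin 3).succ = (1 : Fin 4) from rfl, show (0 : Fin 3).castSucc = (0 : Fin 4) from rfl,
    show (1 : Fin 3).succ = (2 : Fin 4) from rfl, show (1 : Fin 3).castSucc = (1 : Fin 4) from rfl,
    show (2 : Fin 3).succ = (3 : Fin 4) from rfl, show (2 : Fin 3).castSucc = (2 : Fin 4) from rfl,
    cv_zero, cv_one_low (h.lt_h0 hz), cv_two_low (h.lt_h0 hz), cv_three, h.c1, h.c3, h.W_dn hz]
  unfold dwl
  refine ⟨by ring, by ring, by ring⟩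

theorem Rg.vA1_abs (h : Rg x z) (hs : h0 * x ≤ 11 / 400) (hz : z < 0) :
    |vA par (h0 * x) (h0 * (1 + x * z)) 1| ≤ 3 / 2 := by
  have hh := h0_pos
  have g2 := h0_lt
  have hx := h.x0
  have hs0 : 0 < h0 * x := by positivity
  have hT1 : h0 * (1 + x * z) ≤ 1 := by linarith [h.lt_h0 hz]
  have e0 : vA par (h0 * x) (h0 * (1 + x * z)) 0 = E0.R1 par (h0 * x) (h0 * (1 + x * z)) := by
    change (if _ then _ else _) = _
    rw [if_pos h.T_lt]
  have e1 : vA par (h0 * x) (h0 * (1 + x * z)) 1 =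
      vA par (h0 * x) (h0 * (1 + x * z)) 0 + 353 / 1500 * dwl z x := by
    rw [h.vA1_dn hz, h.vA0_dn hz.le]
  have a := abs_le.1 (R1_abs hs0 h.T0 hT1)
  have d1 := h.dwl_ge hz
  have d2 : dwl z x ≤ 3 / 2 := by
    have e2 := h.W_dn hz
    have e3 := h.c1
    have c0 := c1_nonneg (h0 * (1 + x * z))
    have : x * xiw z x ≤ 0 := mul_nonpos_of_nonneg_of_nonpos hx.le (xiw_nonpos hx.le)
    unfold dwl
    linarith
  rw [e1, e0, abs_le]
  constructor <;> linarith [a.1, a.2]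

theorem Rg.vA2_abs (h : Rg x z) (hs : h0 * x ≤ 11 / 400) (hz : z < 0) :
    |vA par (h0 * x) (h0 * (1 + x * z)) 2| ≤ 12 / 5 := by
  have hh := h0_pos
  have hx := h.x0
  have hs0 : 0 < h0 * x := by positivity
  have e : vA par (h0 * x) (h0 * (1 + x * z)) 2 = RW par (h0 * x) (h0 * (1 + x * z)) := by
    change (if _ then _ else if _ then _ else _) = _
    rw [if_pos (h.lt_h0 hz)]
  rw [e]
  exact RW_abs hs0 hs h.T0 h.T3.le

theorem Rg.sbA (h : Rg x z) (hs : h0 * x ≤ 11 / 400) :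
    SB (vA par (h0 * x)) (h0 * (1 + x * z)) 10 := by
  have hh := h0_pos
  have hx := h.x0
  have hs0 : 0 < h0 * x := by positivity
  have b := fun j => vA_abs hs0 hs h.T0 h.T3.le j
  have b3 := R3_abs hs0 h.T0 h.T3.le
  rcases le_or_gt 0 z with hz | hz
  · obtain ⟨e0, e1, e2⟩ := h.dif_up hz
    have hd := h.dwu_ge hz
    intro i
    fin_cases i
    · refine le_of_eq_of_le ?_ (le_of_le_of_eq (b := 10 * (x * (xiw z x - xi1 z x))) ?_
        (by rw [← e0]; rfl)) (b := |x * (su z x * (xiw z x - xi1 z x))|)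
      · have a0 : vA par (h0 * x) (h0 * (1 + x * z)) 0 = 1 / 2 + x * k1p z x := h.vA0_up hz
        have a1 : vA par (h0 * x) (h0 * (1 + x * z)) 1 = 1 / 2 + x * kwu z x := h.vA1_up hz
        change |vA par (h0 * x) (h0 * (1 + x * z)) 1 - vA par (h0 * x) (h0 * (1 + x * z)) 0| = _
        rw [a0, a1]
        congr 1
        unfold kwu
        ring
      · have hsu : |su z x| ≤ 3 := by
          rw [← slU_h0 hx h.x1]
          exact slU_bd hs0 hs hz
        have hg := h.gap1 hz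
        have hg0 : 0 ≤ xiw z x - xi1 z x := by linarith
        rw [abs_mul, abs_mul, abs_of_pos hx, abs_of_nonneg hg0]
        have := mul_le_mul_of_nonneg_right hsu (mul_nonneg hx.le hg0)
        nlinarith [mul_nonneg hx.le hg0]
    · refine le_of_le_of_eq (b := 10 * (3 / 20 * dwu z x)) ?_ (by rw [← e1]; rfl)
      have a1 : vA par (h0 * x) (h0 * (1 + x * z)) 1 = 1 / 2 + x * kwu z x := h.vA1_up hz
      have a2 : vA par (h0 * x) (h0 * (1 + x * z)) 2 =
          1 / 2 + x * kwu z x + 1059 / 10000 * dwu z x := h.vA2_up hz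
      change |vA par (h0 * x) (h0 * (1 + x * z)) 2 - vA par (h0 * x) (h0 * (1 + x * z)) 1| ≤ _
      rw [a1, a2, show 1 / 2 + x * kwu z x + 1059 / 10000 * dwu z x - (1 / 2 + x * kwu z x) =
        1059 / 10000 * dwu z x by ring, abs_of_nonneg (by linarith)]
      linarith
    · refine le_of_le_of_eq (b := 10 * (17 / 20 * dwu z x)) ?_ (by rw [← e2]; rfl)
      change |vA par (h0 * x) (h0 * (1 + x * z)) 3 - vA par (h0 * x) (h0 * (1 + x * z)) 2| ≤ _
      exact abs_dif (b 3) (b 2) (by linarith)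
  · obtain ⟨e0, e1, e2⟩ := h.dif_dn hz
    have hd := h.dwl_ge hz
    intro i
    fin_cases i
    · refine le_of_le_of_eq (b := 10 * (1 / 3 * dwl z x)) ?_ (by rw [← e0]; rfl)
      have a0 : vA par (h0 * x) (h0 * (1 + x * z)) 0 = 1 / 2 + x * k1m z x := h.vA0_dn hz.le
      have a1 : vA par (h0 * x) (h0 * (1 + x * z)) 1 =
          1 / 2 + x * k1m z x + 353 / 1500 * dwl z x := h.vA1_dn hz
      change |vA par (h0 * x) (h0 * (1 + x * z)) 1 - vA par (h0 * x) (h0 * (1 + x * z)) 0| ≤ _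
      rw [a0, a1, show 1 / 2 + x * k1m z x + 353 / 1500 * dwl z x - (1 / 2 + x * k1m z x) =
        353 / 1500 * dwl z x by ring, abs_of_nonneg (by linarith)]
      linarith
    · refine le_of_le_of_eq (b := 10 * (2 / 3 * dwl z x)) ?_ (by rw [← e1]; rfl)
      change |vA par (h0 * x) (h0 * (1 + x * z)) 2 - vA par (h0 * x) (h0 * (1 + x * z)) 1| ≤ _
      exact abs_dif (h.vA2_abs hs hz) (h.vA1_abs hs hz) (by linarith)
    · refine le_of_eq_of_le ?_ (le_of_le_of_eq (b := 10 * (x * (xi3 z x - xiw z x))) ?_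
        (by rw [← e2]; rfl)) (b := |x * (G.sl z x * (xi3 z x - xiw z x))|)
      · have a2 : vA par (h0 * x) (h0 * (1 + x * z)) 2 = 3 / 2 + x * kwl z x := h.vA2_dn hz
        have a3 : vA par (h0 * x) (h0 * (1 + x * z)) 3 = 3 / 2 + x * k3m z x := h.vA3_dn hz.le
        change |vA par (h0 * x) (h0 * (1 + x * z)) 3 - vA par (h0 * x) (h0 * (1 + x * z)) 2| = _
        rw [a2, a3]
        congr 1
        unfold kwl
        ring
      · have hsl : |G.sl z x| ≤ 8 := by
          rw [← slL_h0 hx h.x1]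
          exact slL_bd hs0 hs (by linarith)
        have hg := h.gap3 hz.le
        have hg0 : 0 ≤ xi3 z x - xiw z x := by linarith
        rw [abs_mul, abs_mul, abs_of_pos hx, abs_of_nonneg hg0]
        have := mul_le_mul_of_nonneg_right hsl (mul_nonneg hx.le hg0)
        nlinarith [mul_nonneg hx.le hg0]

theorem Rg.sbX (h : Rg x z) (hs : h0 * x ≤ 11 / 400) :
    SB (vX par (h0 * x)) (h0 * (1 + x * z)) (1 / 20) := by
  have hh := h0_pos
  have hx := h.x0
  have hx1 := h.x1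
  have b := fun j => vX_bd hx hs h.T0 h.T3.le j
  rcases le_or_gt 0 z with hz | hz
  · obtain ⟨e0, e1, e2⟩ := h.dif_up hz
    have hd := h.dwu_ge hz
    intro i
    fin_cases i
    · refine le_of_le_of_eq (b := 1 / 20 * (x * (xiw z x - xi1 z x))) ?_ (by rw [← e0]; rfl)
      have a0 : vX par (h0 * x) (h0 * (1 + x * z)) 0 = x ^ 2 * x1p z x := h.vX0_up hz
      have a1 : vX par (h0 * x) (h0 * (1 + x * z)) 1 = x ^ 2 * xw z x := h.vX1_up hz
      change |vX par (h0 * x) (h0 * (1 + x * z)) 1 - vX par (h0 * x) (h0 * (1 + x * z)) 0| ≤ _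
      rw [a0, a1, ← mul_sub, abs_mul, abs_of_nonneg (sq_nonneg x)]
      have k1 := h.x1p_bd hs hz
      have k2 := xw_lin hx hs hz
      have k3 : |xw z x - x1p z x| ≤ 9 / 5 * z := by
        rw [abs_le]
        constructor <;> linarith
      have hg := h.gap1 hz
      have k4 : x * |xw z x - x1p z x| ≤ 4 / 125 * (9 / 5 * z) :=
        mul_le_mul hx1 k3 (abs_nonneg _) (by norm_num)
      have k5 : x * (x * |xw z x - x1p z x|) ≤ x * (1 / 20 * (xiw z x - xi1 z x)) :=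
        mul_le_mul_of_nonneg_left (by linarith) hx.le
      nlinarith
    · refine le_of_le_of_eq (b := 1 / 20 * (3 / 20 * dwu z x)) ?_ (by rw [← e1]; rfl)
      have a1 : vX par (h0 * x) (h0 * (1 + x * z)) 1 = x ^ 2 * xw z x := h.vX1_up hz
      have a2 : vX par (h0 * x) (h0 * (1 + x * z)) 2 = x ^ 2 * xw z x := h.vX2_up hz
      change |vX par (h0 * x) (h0 * (1 + x * z)) 2 - vX par (h0 * x) (h0 * (1 + x * z)) 1| ≤ _
      rw [a1, a2, sub_self, abs_zero]
      linarith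
    · refine le_of_le_of_eq (b := 1 / 20 * (17 / 20 * dwu z x)) ?_ (by rw [← e2]; rfl)
      change |vX par (h0 * x) (h0 * (1 + x * z)) 3 - vX par (h0 * x) (h0 * (1 + x * z)) 2| ≤ _
      exact abs_dif (b 3) (b 2) (by linarith)
  · obtain ⟨e0, e1, e2⟩ := h.dif_dn hz
    have hd := h.dwl_ge hz
    intro i
    fin_cases i
    · refine le_of_le_of_eq (b := 1 / 20 * (1 / 3 * dwl z x)) ?_ (by rw [← e0]; rfl)
      have a0 : vX par (h0 * x) (h0 * (1 + x * z)) 0 = x ^ 2 * x1m z x := h.vX0_dn hz.le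
      have a1 : vX par (h0 * x) (h0 * (1 + x * z)) 1 = x ^ 2 * x1m z x := h.vX1_dn hz
      change |vX par (h0 * x) (h0 * (1 + x * z)) 1 - vX par (h0 * x) (h0 * (1 + x * z)) 0| ≤ _
      rw [a0, a1, sub_self, abs_zero]
      linarith
    · refine le_of_le_of_eq (b := 1 / 20 * (2 / 3 * dwl z x)) ?_ (by rw [← e1]; rfl)
      change |vX par (h0 * x) (h0 * (1 + x * z)) 2 - vX par (h0 * x) (h0 * (1 + x * z)) 1| ≤ _
      exact abs_dif (b 2) (b 1) (by linarith)
    · refine le_of_le_of_eq (b := 1 / 20 * (x * (xi3 z x - xiw z x))) ?_ (by rw [← e2]; rfl)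
      have a2 : vX par (h0 * x) (h0 * (1 + x * z)) 2 = x ^ 2 * xw (-z) x := h.vX2_dn hz
      have a3 : vX par (h0 * x) (h0 * (1 + x * z)) 3 = x ^ 2 * x3m z x := h.vX3_dn hz.le
      change |vX par (h0 * x) (h0 * (1 + x * z)) 3 - vX par (h0 * x) (h0 * (1 + x * z)) 2| ≤ _
      rw [a2, a3, ← mul_sub, abs_mul, abs_of_nonneg (sq_nonneg x)]
      have k1 := h.x3m_bd hs hz.le
      have k2 := xw_lin hx hs (by linarith : 0 ≤ -z)
      have k3 : |x3m z x - xw (-z) x| ≤ 1 / 2 * -z := by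
        rw [abs_le]
        constructor <;> linarith
      have hg := h.gap3 hz.le
      have k4 : x * |x3m z x - xw (-z) x| ≤ 4 / 125 * (1 / 2 * -z) :=
        mul_le_mul hx1 k3 (abs_nonneg _) (by norm_num)
      have k5 : x * (x * |x3m z x - xw (-z) x|) ≤ x * (1 / 20 * (xi3 z x - xiw z x)) :=
        mul_le_mul_of_nonneg_left (by linarith) hx.le
      nlinarith

theorem rw_bd (hx : 0 < x) (hs : h0 * x ≤ 11 / 400) : |rwu x| ≤ 2 ∧ |rwl x| ≤ 2 := by
  have hh := h0_pos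
  obtain ⟨a, b⟩ := r2_bd (s := h0 * x) (by positivity) hs
  have hx1 := x_le hx hs
  rw [← rwu_h0 hx (by linarith), ← rwl_h0 hx (by linarith)]
  exact ⟨(abs_add_le _ _).trans (by linarith), (abs_sub _ _).trans (by linarith)⟩

theorem Rg.sbR (h : Rg x z) (hs : h0 * x ≤ 11 / 400) :
    SB (vR par (h0 * x)) (h0 * (1 + x * z)) (5 / x) := by
  have hh := h0_pos
  have hx := h.x0
  have hx1 := h.x1
  have hs0 : 0 < h0 * x := by positivity
  have b := fun j => vR_abs hs0 hs h.T0 j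
  obtain ⟨ru, rl⟩ := rw_bd hx hs
  have k5 : 100 ≤ 5 / x := by
    rw [le_div_iff₀ hx]
    linarith
  have ex : ∀ d : ℝ, 5 / x * (x * d) = 5 * d := fun d => by
    have := hx.ne'
    field_simp
  rcases le_or_gt 0 z with hz | hz
  · obtain ⟨e0, e1, e2⟩ := h.dif_up hz
    have hd := h.dwu_ge hz
    intro i
    fin_cases i
    · refine le_of_le_of_eq (b := 5 / x * (x * (xiw z x - xi1 z x))) ?_ (by rw [← e0]; rfl)
      have a0 : vR par (h0 * x) (h0 * (1 + x * z)) 0 = 0 := h.vR0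
      have a1 : vR par (h0 * x) (h0 * (1 + x * z)) 1 = rwu x * gh z := h.vR1_up hz
      change |vR par (h0 * x) (h0 * (1 + x * z)) 1 - vR par (h0 * x) (h0 * (1 + x * z)) 0| ≤ _
      obtain ⟨q0, q1⟩ := gh_lin hz
      rw [a0, a1, sub_zero, abs_mul, abs_of_nonneg q0, ex]
      have hg := h.gap1 hz
      have := mul_le_mul ru q1 q0 (by norm_num)
      linarith
    · refine le_of_le_of_eq (b := 5 / x * (3 / 20 * dwu z x)) ?_ (by rw [← e1]; rfl)
      have a1 : vR par (h0 * x) (h0 * (1 + x * z)) 1 = rwu x * gh z := h.vR1_up hz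
      have a2 : vR par (h0 * x) (h0 * (1 + x * z)) 2 = rwu x * gh z := h.vR2_up hz
      change |vR par (h0 * x) (h0 * (1 + x * z)) 2 - vR par (h0 * x) (h0 * (1 + x * z)) 1| ≤ _
      rw [a1, a2, sub_self, abs_zero]
      positivity
    · refine le_of_le_of_eq (b := 5 / x * (17 / 20 * dwu z x)) ?_ (by rw [← e2]; rfl)
      change |vR par (h0 * x) (h0 * (1 + x * z)) 3 - vR par (h0 * x) (h0 * (1 + x * z)) 2| ≤ _
      refine abs_dif (b 3) (b 2) ?_
      have := mul_le_mul k5 (by linarith : 1 / 2 ≤ 17 / 20 * dwu z x) (by norm_num) (by linarith)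
      linarith
  · obtain ⟨e0, e1, e2⟩ := h.dif_dn hz
    have hd := h.dwl_ge hz
    intro i
    fin_cases i
    · refine le_of_le_of_eq (b := 5 / x * (1 / 3 * dwl z x)) ?_ (by rw [← e0]; rfl)
      have a0 : vR par (h0 * x) (h0 * (1 + x * z)) 0 = 0 := h.vR0
      have a1 : vR par (h0 * x) (h0 * (1 + x * z)) 1 = 0 := h.vR1_dn hz
      change |vR par (h0 * x) (h0 * (1 + x * z)) 1 - vR par (h0 * x) (h0 * (1 + x * z)) 0| ≤ _
      rw [a0, a1, sub_self, abs_zero]
      positivity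
    · refine le_of_le_of_eq (b := 5 / x * (2 / 3 * dwl z x)) ?_ (by rw [← e1]; rfl)
      change |vR par (h0 * x) (h0 * (1 + x * z)) 2 - vR par (h0 * x) (h0 * (1 + x * z)) 1| ≤ _
      refine abs_dif (b 2) (b 1) ?_
      have := mul_le_mul k5 (by linarith : 2 / 5 ≤ 2 / 3 * dwl z x) (by norm_num) (by linarith)
      linarith
    · refine le_of_le_of_eq (b := 5 / x * (x * (xi3 z x - xiw z x))) ?_ (by rw [← e2]; rfl)
      have a2 : vR par (h0 * x) (h0 * (1 + x * z)) 2 = rwl x * gh (-z) := h.vR2_dn hz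
      have a3 : vR par (h0 * x) (h0 * (1 + x * z)) 3 = 0 := vR3 _
      change |vR par (h0 * x) (h0 * (1 + x * z)) 3 - vR par (h0 * x) (h0 * (1 + x * z)) 2| ≤ _
      obtain ⟨q0, q1⟩ := gh_lin (by linarith : 0 ≤ -z)
      rw [a2, a3, zero_sub, abs_neg, abs_mul, abs_of_nonneg q0, ex]
      have hg := h.gap3 hz.le
      have := mul_le_mul rl q1 q0 (by norm_num)
      linarith

/-! ### Small heights -/

theorem low_gap (hx : 0 < x) {w : ℝ} (hw0 : 0 ≤ w) (hw : x * w ≤ 32 / 125) :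
    43 / 100 ≤ c3 (h0 * (x * w)) - Wc (h0 * (x * w)) := by
  have hh := h0_pos
  have g1 := h0_gt
  have g2 := h0_lt
  have hq := h0_sq'
  set T := h0 * (x * w) with hTd
  have hT : 0 ≤ T := by positivity
  have hT1 : T ≤ 2218 / 10000 := by nlinarith
  have h1 : 17 / 10 ≤ c3 T := by
    unfold c3
    refine Real.le_sqrt_of_sq_le ?_
    nlinarith
  obtain ⟨e, h2⟩ := W_dn hT (by linarith : T < h0)
  have h3 : Wc T - 1 / 2 ≤ 77 / 100 := by
    nlinarith
  linarith

theorem sbA_low (hx : 0 < x) (hs : h0 * x ≤ 11 / 400) {w : ℝ} (hw0 : 0 ≤ w)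
    (hw : x * w ≤ 32 / 125) : SB (vA par (h0 * x)) (h0 * (x * w)) 7 := by
  have hh := h0_pos
  have g2 := h0_lt
  have hs0 : 0 < h0 * x := by positivity
  set T := h0 * (x * w) with hTd
  have hT : 0 ≤ T := by positivity
  have hT1 : T ≤ 2218 / 10000 := by nlinarith
  have hT3 : T ^ 2 ≤ 3 := by nlinarith
  have hlt : T < h0 := by linarith [h0_gt]
  have hgap := low_gap hx hw0 hw
  have e : ∀ j : Fin 4, j ≠ 3 → vA par (h0 * x) T j = 1 + x * -dt w := fun j hj =>
    vA_w hx hw j hj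
  have m0 : pos.cv 0 T ≤ pos.cv 1 T := pos.cv_mono hT hT3 (by decide)
  have m1 : pos.cv 1 T ≤ pos.cv 2 T := pos.cv_mono hT hT3 (by decide)
  intro i
  fin_cases i
  · change |vA par (h0 * x) T 1 - vA par (h0 * x) T 0| ≤ 7 * (pos.cv 1 T - pos.cv 0 T)
    rw [e 0 (by decide), e 1 (by decide), sub_self, abs_zero]
    linarith
  · change |vA par (h0 * x) T 2 - vA par (h0 * x) T 1| ≤ 7 * (pos.cv 2 T - pos.cv 1 T)
    rw [e 1 (by decide), e 2 (by decide), sub_self, abs_zero]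
    linarith
  · change |vA par (h0 * x) T 3 - vA par (h0 * x) T 2| ≤ 7 * (pos.cv 3 T - pos.cv 2 T)
    rw [cv_three, cv_two_low hlt]
    have a2 : |vA par (h0 * x) T 2| ≤ 1 := by
      have : vA par (h0 * x) T 2 = RA par (h0 * x) T := by
        rw [e 2 (by decide), hTd, RA_h0 hx]
        ring
      rw [this]
      exact RA_abs hs0 hT (by linarith)
    have a3 : |vA par (h0 * x) T 3| ≤ 2 := R3_abs hs0 hT hT3
    exact abs_dif a3 a2 (by linarith)

theorem sbX_low (hx : 0 < x) (hs : h0 * x ≤ 11 / 400) {w : ℝ} (hw0 : 0 ≤ w)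
    (hw : x * w ≤ 32 / 125) : SB (vX par (h0 * x)) (h0 * (x * w)) (1 / 50) := by
  have hh := h0_pos
  have g2 := h0_lt
  have hs0 : 0 < h0 * x := by positivity
  set T := h0 * (x * w) with hTd
  have hT : 0 ≤ T := by positivity
  have hT1 : T ≤ 2218 / 10000 := by nlinarith
  have hT3 : T ^ 2 ≤ 3 := by nlinarith
  have hlt : T < h0 := by linarith [h0_gt]
  have hgap := low_gap hx hw0 hw
  have e : ∀ j : Fin 4, j ≠ 3 → vX par (h0 * x) T j = x ^ 2 * xa w x := fun j hj =>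
    vX_w hx (x_le hx hs) hw j hj
  have b := fun j => vX_bd hx hs hT hT3 j
  have m0 : pos.cv 0 T ≤ pos.cv 1 T := pos.cv_mono hT hT3 (by decide)
  have m1 : pos.cv 1 T ≤ pos.cv 2 T := pos.cv_mono hT hT3 (by decide)
  intro i
  fin_cases i
  · change |vX par (h0 * x) T 1 - vX par (h0 * x) T 0| ≤ 1 / 50 * (pos.cv 1 T - pos.cv 0 T)
    rw [e 0 (by decide), e 1 (by decide), sub_self, abs_zero]
    linarith
  · change |vX par (h0 * x) T 2 - vX par (h0 * x) T 1| ≤ 1 / 50 * (pos.cv 2 T - pos.cv 1 T)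
    rw [e 1 (by decide), e 2 (by decide), sub_self, abs_zero]
    linarith
  · change |vX par (h0 * x) T 3 - vX par (h0 * x) T 2| ≤ 1 / 50 * (pos.cv 3 T - pos.cv 2 T)
    rw [cv_three, cv_two_low hlt]
    exact abs_dif (b 3) (b 2) (by linarith)

theorem sbR_low (hx : 0 < x) (hs : h0 * x ≤ 11 / 400) {w : ℝ} (hw0 : 0 ≤ w)
    (hw : x * w ≤ 32 / 125) : SB (vR par (h0 * x)) (h0 * (x * w)) 5 := by
  have hh := h0_pos
  have g2 := h0_lt
  have hs0 : 0 < h0 * x := by positivity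
  set T := h0 * (x * w) with hTd
  have hT : 0 ≤ T := by positivity
  have hT1 : T ≤ 2218 / 10000 := by nlinarith
  have hT3 : T ^ 2 ≤ 3 := by nlinarith
  have hlt : T < h0 := by linarith [h0_gt]
  have hgap := low_gap hx hw0 hw
  have e : ∀ j : Fin 4, j ≠ 3 → vR par (h0 * x) T j = rf x * gh w := fun j hj =>
    vR_w hx (by linarith [x_le hx hs]) hw j hj
  have b := fun j => vR_abs hs0 hs hT j
  have m0 : pos.cv 0 T ≤ pos.cv 1 T := pos.cv_mono hT hT3 (by decide)
  have m1 : pos.cv 1 T ≤ pos.cv 2 T := pos.cv_mono hT hT3 (by decide)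
  intro i
  fin_cases i
  · change |vR par (h0 * x) T 1 - vR par (h0 * x) T 0| ≤ 5 * (pos.cv 1 T - pos.cv 0 T)
    rw [e 0 (by decide), e 1 (by decide), sub_self, abs_zero]
    linarith
  · change |vR par (h0 * x) T 2 - vR par (h0 * x) T 1| ≤ 5 * (pos.cv 2 T - pos.cv 1 T)
    rw [e 1 (by decide), e 2 (by decide), sub_self, abs_zero]
    linarith
  · change |vR par (h0 * x) T 3 - vR par (h0 * x) T 2| ≤ 5 * (pos.cv 3 T - pos.cv 2 T)
    rw [cv_three, cv_two_low hlt, vR3, zero_sub, abs_neg]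
    linarith [b 2]

end

end Pool.Agent.Strip051.LC.E0
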