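import Pool.Agent.Strip051.LC.E0.MonoB

/-! # Small rests: monotonicity in the window

At fixed heights the slack increases with the abscissa of the horizontal side, both for a fixed
side middle-top and for a fixed side bottom-top. -/

namespace Pool.Agent.Strip051.LC.E0

open Pool.Agent.StripNear Pool.Agent.StripSquare Pool.Agent.Strip051 Pool.Agent.Strip051.Sweep
open Pool.Agent.Strip051.LC.Line
open Pool.Agent.Strip051.LC.Exact (kE)
open G

theorem Win.rz {x w z : ℝ} (h : Win x w z) : Rg x z :=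
  ⟨h.x0, h.x1, (h.xz h.z0 h.z1).1, h.hz⟩

theorem Win.ru {x w z : ℝ} (h : Win x w z) : Rg x (w + z) :=
  ⟨h.x0, h.x1, h.xu.1, h.hu⟩

theorem Win.xw1 {x w z : ℝ} (h : Win x w z) : x * w ≤ 32 / 125 :=
  (h.xz (u := w) (by linarith [h.w0]) h.w1).2

/-- Both abscissas have the same sign. -/
def Same (X X' : ℝ) : Prop := (0 ≤ X ∧ 0 ≤ X') ∨ (X ≤ 0 ∧ X' ≤ 0)

theorem ker_lip' {v : ℝ → Fin 4 → ℝ} (hv : E0.K.adm v) {T L : ℝ} (hT : 0 ≤ T) (h3 : T ^ 2 ≤ 3)
    (hL : SB v T L) {X X' : ℝ} (hs : Same X X') (h1 : c1 T ≤ |X|) (h2 : |X| ≤ c3 T)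
    (h1' : c1 T ≤ |X'|) (h2' : |X'| ≤ c3 T) :
    |ker E0.K.nodes v (fun _ _ => 0) X' T - ker E0.K.nodes v (fun _ _ => 0) X T| ≤
      L * |X' - X| := by
  have key : ∀ {a b : ℝ}, c1 T ≤ a → a ≤ c3 T → c1 T ≤ b → b ≤ c3 T →
      |ker E0.K.nodes v (fun _ _ => 0) b T - ker E0.K.nodes v (fun _ _ => 0) a T| ≤
        L * |b - a| := by
    intro a b a1 a2 b1 b2
    rcases le_total a b with h | h
    · rw [abs_of_nonneg (sub_nonneg.2 h)]
      exact ker_lip hv hT h3 hL a1 h b2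
    · rw [abs_sub_comm, abs_sub_comm b a, abs_of_nonneg (sub_nonneg.2 h)]
      exact ker_lip hv hT h3 hL b1 h a2
  rcases hs with ⟨p, q⟩ | ⟨p, q⟩
  · rw [abs_of_nonneg p] at h1 h2
    rw [abs_of_nonneg q] at h1' h2'
    exact key h1 h2 h1' h2'
  · rw [abs_of_nonpos p] at h1 h2
    rw [abs_of_nonpos q] at h1' h2'
    have := key h1 h2 h1' h2'
    rw [E0.K.ker_neg, E0.K.ker_neg] at this
    rw [show -ker E0.K.nodes v (fun _ _ => 0) X' T - -ker E0.K.nodes v (fun _ _ => 0) X T =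
      -(ker E0.K.nodes v (fun _ _ => 0) X' T - ker E0.K.nodes v (fun _ _ => 0) X T) by ring,
      abs_neg, show -X' - -X = -(X' - X) by ring, abs_neg] at this
    exact this

/-- The slopes of the near kernel. -/
theorem SB.vB {x T LA LR : ℝ} (hx : 0 < x) (hs : h0 * x ≤ 11 / 400)
    (hA : SB (vA par (h0 * x)) T LA) (hR : SB (vR par (h0 * x)) T LR) :
    SB (vB par (h0 * x)) T (((we (h0 * x) + LC.mu 3 (h0 * x) * wq (h0 * x)) * LA +
      LC.mu 3 (h0 * x) * wq (h0 * x) * LR) / we (h0 * x)) := by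
  have hh := h0_pos
  have hs0 : 0 < h0 * x := by positivity
  obtain ⟨e0, -⟩ := we_bd hs0 hs
  obtain ⟨m0, -⟩ := mu_bd hs0 hs
  obtain ⟨q0, -⟩ := wq_bd hs0 hs
  have mq : 0 ≤ LC.mu 3 (h0 * x) * wq (h0 * x) := mul_nonneg m0 q0
  intro i
  unfold E0.vB
  set e := we (h0 * x)
  set p := LC.mu 3 (h0 * x) * wq (h0 * x)
  rw [show ((e + p) * vA par (h0 * x) T i.succ + p * vR par (h0 * x) T i.succ) / e -
    ((e + p) * vA par (h0 * x) T i.castSucc + p * vR par (h0 * x) T i.castSucc) / e =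
    ((e + p) * (vA par (h0 * x) T i.succ - vA par (h0 * x) T i.castSucc) +
      p * (vR par (h0 * x) T i.succ - vR par (h0 * x) T i.castSucc)) / e by ring,
    abs_div, abs_of_pos e0, div_mul_eq_mul_div, div_le_div_iff_of_pos_right e0]
  refine (abs_add_le _ _).trans ?_
  rw [abs_mul, abs_mul, abs_of_nonneg (by linarith : 0 ≤ e + p), abs_of_nonneg mq]
  have h1 := mul_le_mul_of_nonneg_left (hA i) (by linarith : 0 ≤ e + p)
  have h2 := mul_le_mul_of_nonneg_left (hR i) mq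
  linarith

/-- The kernel of a vertex. -/
noncomputable def vV (V : Vx) (s : ℝ) : ℝ → Fin 4 → ℝ :=
  match V with
  | .far => vA par s
  | .near => vB par s

theorem adm_vV (V : Vx) (s : ℝ) : E0.K.adm (vV V s) := by
  cases V
  · exact adm_vA par s
  · exact adm_vB par s

/-- The statement for a vertex. -/
def OKV (V : Vx) (s X12 X13 t t' : ℝ) : Prop :=
  match V with
  | .far => FarOK s X12 X13 t t'
  | .near => NearOK s X12 X13 t t'

section

variable {x w z : ℝ}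

/-- Slopes at small heights. -/
theorem slope_low (V : Vx) (h : Win x w z) : ∃ L, SB (vV V (h0 * x)) (h0 * (x * w)) L ∧
    we (h0 * x) * L ≤ 23 / 200 ∧ 0 ≤ L := by
  have hh := h0_pos
  have hx := h.x0
  have hs0 : 0 < h0 * x := by positivity
  obtain ⟨e0, e1⟩ := we_bd hs0 h.s1
  obtain ⟨m0, m1⟩ := mu_bd hs0 h.s1
  obtain ⟨q0, q1⟩ := wq_bd hs0 h.s1
  have hA := sbA_low hx h.s1 h.w0 h.xw1
  cases V
  · exact ⟨7, hA, by linarith, by norm_num⟩
  · have hR := sbR_low hx h.s1 h.w0 h.xw1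
    have mq : 0 ≤ LC.mu 3 (h0 * x) * wq (h0 * x) := mul_nonneg m0 q0
    have mq1 : LC.mu 3 (h0 * x) * wq (h0 * x) ≤ 201 / 1000 * (1 / 1000) :=
      mul_le_mul m1 q1 q0 (by norm_num)
    refine ⟨_, SB.vB hx h.s1 hA hR, ?_, ?_⟩
    · rw [mul_div_cancel₀ _ e0.ne']
      linarith
    · positivity

/-- Slopes next to `h0`. -/
theorem slopeMid (V : Vx) {u : ℝ} (h : Rg x u) (hs : h0 * x ≤ 11 / 400) :
    ∃ L, SB (vV V (h0 * x)) (h0 * (1 + x * u)) L ∧ we (h0 * x) * L ≤ 9 / 50 ∧ 0 ≤ L := by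
  have hh := h0_pos
  have hx := h.x0
  have hs0 : 0 < h0 * x := by positivity
  obtain ⟨e0, e1⟩ := we_bd hs0 hs
  obtain ⟨m0, m1⟩ := mu_bd hs0 hs
  obtain ⟨q0, q1⟩ := wq_bd hs0 hs
  have hA := h.sbA hs
  cases V
  · exact ⟨10, hA, by linarith, by norm_num⟩
  · have hR := h.sbR hs
    have mq : 0 ≤ LC.mu 3 (h0 * x) * wq (h0 * x) := mul_nonneg m0 q0
    have mq1 : LC.mu 3 (h0 * x) * wq (h0 * x) ≤ 201 / 1000 * (1 / 1000) :=
      mul_le_mul m1 q1 q0 (by norm_num)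
    have mq2 : LC.mu 3 (h0 * x) * wq (h0 * x) * (5 / x) ≤ 3 / 200 := by
      rw [wq_h0 hx (by linarith [h.x1])]
      have hc := ch_bd hx hs
      have e : LC.mu 3 (h0 * x) * (x ^ 2 * ch x) * (5 / x) =
          5 * (LC.mu 3 (h0 * x) * (x * ch x)) := by
        have := hx.ne'
        field_simp
      rw [e]
      have h1 : x * ch x ≤ 4 / 125 * (3 / 8) := mul_le_mul h.x1 hc.2 (by linarith) (by norm_num)
      have h2 := mul_le_mul m1 h1 (mul_nonneg hx.le (by linarith)) (by norm_num)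
      linarith
    refine ⟨_, SB.vB hx hs hA hR, ?_, ?_⟩
    · rw [mul_div_cancel₀ _ e0.ne']
      linarith
    · positivity

/-! ### The change of the statement -/

theorem kf_sub (κ s : ℝ) (r r' : ℝ × ℝ × ℝ) (t t' y : ℝ) :
    kf κ s r' t t' y = kf κ s r t t' y +
      kf κ s (r'.1 - r.1, r'.2.1 - r.2.1, r'.2.2 - r.2.2) t t' y := by
  unfold kf
  ring

theorem levAbs (h : Win x w z) (d : ℝ × ℝ × ℝ) :
    |levXV 3 (h0 * x) 0 (h0 * (x * w)) (h0 * (1 + x * z)) d| ≤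
      1 / 2 * (|d.1| + |d.2.1| + |d.2.2|) ∧
    |levXV 3 (h0 * x) 0 (h0 * (1 + x * z)) (h0 * (x * w)) d| ≤
      1 / 2 * (|d.1| + |d.2.1| + |d.2.2|) := by
  have hh := h0_pos
  have hx := h.x0
  have hx1 := h.x1
  have hs0 : 0 < h0 * x := by positivity
  obtain ⟨m0, m1⟩ := mu_bd hs0 h.s1
  have a := h.xw1
  have a0 : 0 ≤ x * w := mul_nonneg hx.le h.w0
  have b := h.rz.b
  have b0 := h.rz.a
  have key : ∀ p q r : ℝ, |p| ≤ 2 → |q| ≤ 2 → |r| ≤ 2 →
      |LC.mu 3 (h0 * x) * (p * d.1 + q * d.2.1 + r * d.2.2)| ≤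
        1 / 2 * (|d.1| + |d.2.1| + |d.2.2|) := by
    intro p q r hp hq hr
    rw [abs_mul, abs_of_nonneg m0]
    have h1 := abs_add_three (p * d.1) (q * d.2.1) (r * d.2.2)
    rw [abs_mul, abs_mul, abs_mul] at h1
    have k1 := mul_le_mul_of_nonneg_right hp (abs_nonneg d.1)
    have k2 := mul_le_mul_of_nonneg_right hq (abs_nonneg d.2.1)
    have k3 := mul_le_mul_of_nonneg_right hr (abs_nonneg d.2.2)
    have k4 : 0 ≤ |p * d.1 + q * d.2.1 + r * d.2.2| := abs_nonneg _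
    have k5 := mul_le_mul_of_nonneg_right m1 k4
    have k6 : 0 ≤ |d.1| + |d.2.1| + |d.2.2| := by positivity
    nlinarith
  constructor
  · have e : levXV 3 (h0 * x) 0 (h0 * (x * w)) (h0 * (1 + x * z)) d =
        LC.mu 3 (h0 * x) * (((3 + x) / 2 - x * w / 2) * d.1 +
          ((3 + x) / 2 - (1 + 2 * (x * w) + x * z) / 2) * d.2.1 +
          (-((3 + x) / 2) + (1 + x * w + x * z) / 2) * d.2.2) := by
      unfold levXV
      push_cast
      field_simp
      ring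
    rw [e]
    refine key _ _ _ ?_ ?_ ?_ <;> (rw [abs_le]; constructor <;> linarith)
  · have e : levXV 3 (h0 * x) 0 (h0 * (1 + x * z)) (h0 * (x * w)) d =
        LC.mu 3 (h0 * x) * (((3 + x) / 2 - (1 + x * z) / 2) * d.1 +
          ((3 + x) / 2 - (2 * (1 + x * z) + x * w) / 2) * d.2.1 +
          (-((3 + x) / 2) + (1 + x * w + x * z) / 2) * d.2.2) := by
      unfold levXV
      push_cast
      field_simp
      ring
    rw [e]
    refine key _ _ _ ?_ ?_ ?_ <;> (rw [abs_le]; constructor <;> linarith)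

theorem levXV_sub (N0 : ℕ) (s l t t' : ℝ) (x x' : ℝ × ℝ × ℝ) :
    levXV N0 s l t t' x' = levXV N0 s l t t' x +
      levXV N0 s l t t' (x'.1 - x.1, x'.2.1 - x.2.1, x'.2.2 - x.2.2) := by
  unfold levXV
  simp only
  ring

/-- The statement for a larger excess. -/
theorem okv_of {V : Vx} (h : Win x w z) {X12 X13 X12' X13' : ℝ} {A B C a b c : ℝ}
    (hA : |(E0.K.valK X12' X13' (h0 * (x * w)) (h0 * (1 + x * z)) (vV V (h0 * x))).1 -
      (E0.K.valK X12 X13 (h0 * (x * w)) (h0 * (1 + x * z)) (vV V (h0 * x))).1| ≤ A)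
    (hB : |(E0.K.valK X12' X13' (h0 * (x * w)) (h0 * (1 + x * z)) (vV V (h0 * x))).2.1 -
      (E0.K.valK X12 X13 (h0 * (x * w)) (h0 * (1 + x * z)) (vV V (h0 * x))).2.1| ≤ B)
    (hC : |(E0.K.valK X12' X13' (h0 * (x * w)) (h0 * (1 + x * z)) (vV V (h0 * x))).2.2 -
      (E0.K.valK X12 X13 (h0 * (x * w)) (h0 * (1 + x * z)) (vV V (h0 * x))).2.2| ≤ C)
    (ha : |(E0.K.valK X12' X13' (h0 * (x * w)) (h0 * (1 + x * z)) (vX par (h0 * x))).1 -
      (E0.K.valK X12 X13 (h0 * (x * w)) (h0 * (1 + x * z)) (vX par (h0 * x))).1| ≤ a)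
    (hb : |(E0.K.valK X12' X13' (h0 * (x * w)) (h0 * (1 + x * z)) (vX par (h0 * x))).2.1 -
      (E0.K.valK X12 X13 (h0 * (x * w)) (h0 * (1 + x * z)) (vX par (h0 * x))).2.1| ≤ b)
    (hc : |(E0.K.valK X12' X13' (h0 * (x * w)) (h0 * (1 + x * z)) (vX par (h0 * x))).2.2 -
      (E0.K.valK X12 X13 (h0 * (x * w)) (h0 * (1 + x * z)) (vX par (h0 * x))).2.2| ≤ c)
    (hE : we (h0 * x) * (A + B + C) + 1 / 2 * (a + b + c) ≤
      exn X12' X13' (h0 * (x * w)) (h0 * (1 + x * z)) -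
        exn X12 X13 (h0 * (x * w)) (h0 * (1 + x * z)))
    (hV : OKV V (h0 * x) X12 X13 (h0 * (x * w)) (h0 * (1 + x * z))) :
    OKV V (h0 * x) X12' X13' (h0 * (x * w)) (h0 * (1 + x * z)) := by
  have hh := h0_pos
  have hx := h.x0
  have hs0 : 0 < h0 * x := by positivity
  have hs1 : h0 * x < h0 := by nlinarith [h.x1]
  have hκ := kE_nonneg hs0 h.s1
  obtain ⟨e0, -⟩ := we_bd hs0 h.s1
  set t := h0 * (x * w) with ht
  set t' := h0 * (1 + x * z) with ht'
  -- the change of the kernel term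
  have hk : ∀ y, kf (kE (h0 * x)) (h0 * x) (E0.K.valK X12 X13 t t' (vV V (h0 * x))) t t' y -
      we (h0 * x) * (A + B + C) ≤
      kf (kE (h0 * x)) (h0 * x) (E0.K.valK X12' X13' t t' (vV V (h0 * x))) t t' y := by
    intro y
    rw [kf_sub _ _ (E0.K.valK X12 X13 t t' (vV V (h0 * x)))
      (E0.K.valK X12' X13' t t' (vV V (h0 * x)))]
    have h1 := kf_abs hs0.le hs1 hκ
      ((E0.K.valK X12' X13' t t' (vV V (h0 * x))).1 - (E0.K.valK X12 X13 t t' (vV V (h0 * x))).1,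
        (E0.K.valK X12' X13' t t' (vV V (h0 * x))).2.1 -
          (E0.K.valK X12 X13 t t' (vV V (h0 * x))).2.1,
        (E0.K.valK X12' X13' t t' (vV V (h0 * x))).2.2 -
          (E0.K.valK X12 X13 t t' (vV V (h0 * x))).2.2) t t' y
    rw [amp_kE hs0 h.s1] at h1
    have h2 := (abs_le.1 h1).1
    simp only at h2
    have h3 := mul_le_mul_of_nonneg_left (add_le_add (add_le_add hA hB) hC) e0.le
    linarith
  cases V
  · intro y
    have h1 := hV y
    have h2 := hk y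
    have h3 : |farXV (E0.K.valK X12' X13' t t' (vX par (h0 * x)))| ≤
        |farXV (E0.K.valK X12 X13 t t' (vX par (h0 * x)))| + 1 / 2 * (a + b + c) := by
      unfold farXV
      set p := E0.K.valK X12 X13 t t' (vX par (h0 * x))
      set p' := E0.K.valK X12' X13' t t' (vX par (h0 * x))
      have e : 1 / 2 * (p'.1 + p'.2.1 - p'.2.2) = 1 / 2 * (p.1 + p.2.1 - p.2.2) +
          1 / 2 * ((p'.1 - p.1) + (p'.2.1 - p.2.1) - (p'.2.2 - p.2.2)) := by ring
      rw [e]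
      refine (abs_add_le _ _).trans ?_
      have h4 : |1 / 2 * ((p'.1 - p.1) + (p'.2.1 - p.2.1) - (p'.2.2 - p.2.2))| ≤
          1 / 2 * (a + b + c) := by
        rw [abs_mul, abs_of_pos (by norm_num : (0 : ℝ) < 1 / 2)]
        refine mul_le_mul_of_nonneg_left ?_ (by norm_num)
        refine (abs_sub _ _).trans ?_
        linarith [abs_add_le (p'.1 - p.1) (p'.2.1 - p.2.1)]
      have h5 : 0 ≤ a + b + c := by
        have := abs_nonneg (p'.1 - p.1)
        have := abs_nonneg (p'.2.1 - p.2.1)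
        have := abs_nonneg (p'.2.2 - p.2.2)
        linarith
      linarith
    change 0 ≤ exn X12 X13 t t' - |farXV (E0.K.valK X12 X13 t t' (vX par (h0 * x)))| +
      kf (kE (h0 * x)) (h0 * x) (E0.K.valK X12 X13 t t' (vA par (h0 * x))) t t' y at h1
    change kf (kE (h0 * x)) (h0 * x) (E0.K.valK X12 X13 t t' (vA par (h0 * x))) t t' y -
      we (h0 * x) * (A + B + C) ≤
      kf (kE (h0 * x)) (h0 * x) (E0.K.valK X12' X13' t t' (vA par (h0 * x))) t t' y at h2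
    change 0 ≤ exn X12' X13' t t' - |farXV (E0.K.valK X12' X13' t t' (vX par (h0 * x)))| +
      kf (kE (h0 * x)) (h0 * x) (E0.K.valK X12' X13' t t' (vA par (h0 * x))) t t' y
    linarith
  · intro y
    have h1 := hV y
    have h2 := hk y
    set p := E0.K.valK X12 X13 t t' (vX par (h0 * x)) with hp
    set p' := E0.K.valK X12' X13' t t' (vX par (h0 * x)) with hp'
    have h3 : min (levXV 3 (h0 * x) 0 t t' p)
        (levXV 3 (h0 * x) 0 t' t (-p.2.1, -p.1, -p.2.2)) - 1 / 2 * (a + b + c) ≤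
        min (levXV 3 (h0 * x) 0 t t' p') (levXV 3 (h0 * x) 0 t' t (-p'.2.1, -p'.1, -p'.2.2)) := by
      have hd := levAbs h (p'.1 - p.1, p'.2.1 - p.2.1, p'.2.2 - p.2.2)
      have hd' := levAbs h (-p'.2.1 - -p.2.1, -p'.1 - -p.1, -p'.2.2 - -p.2.2)
      have g1 := (abs_le.1 hd.1).1
      have g2 := (abs_le.1 hd'.2).1
      have q1 : |-p'.2.1 - -p.2.1| = |p'.2.1 - p.2.1| := by
        rw [show -p'.2.1 - -p.2.1 = -(p'.2.1 - p.2.1) by ring, abs_neg]
      have q2 : |-p'.1 - -p.1| = |p'.1 - p.1| := by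
        rw [show -p'.1 - -p.1 = -(p'.1 - p.1) by ring, abs_neg]
      have q3 : |-p'.2.2 - -p.2.2| = |p'.2.2 - p.2.2| := by
        rw [show -p'.2.2 - -p.2.2 = -(p'.2.2 - p.2.2) by ring, abs_neg]
      simp only at g1 g2
      rw [q1, q2, q3] at g2
      refine le_min ?_ ?_
      · rw [levXV_sub 3 (h0 * x) 0 t t' p p']
        have := min_le_left (levXV 3 (h0 * x) 0 t t' p)
          (levXV 3 (h0 * x) 0 t' t (-p.2.1, -p.1, -p.2.2))
        linarith
      · rw [levXV_sub 3 (h0 * x) 0 t' t (-p.2.1, -p.1, -p.2.2) (-p'.2.1, -p'.1, -p'.2.2)]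
        have := min_le_right (levXV 3 (h0 * x) 0 t t' p)
          (levXV 3 (h0 * x) 0 t' t (-p.2.1, -p.1, -p.2.2))
        simp only
        linarith
    change 0 ≤ exn X12 X13 t t' + min (levXV 3 (h0 * x) 0 t t' p)
        (levXV 3 (h0 * x) 0 t' t (-p.2.1, -p.1, -p.2.2)) +
      kf (kE (h0 * x)) (h0 * x) (E0.K.valK X12 X13 t t' (vB par (h0 * x))) t t' y at h1
    change kf (kE (h0 * x)) (h0 * x) (E0.K.valK X12 X13 t t' (vB par (h0 * x))) t t' y -
      we (h0 * x) * (A + B + C) ≤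
      kf (kE (h0 * x)) (h0 * x) (E0.K.valK X12' X13' t t' (vB par (h0 * x))) t t' y at h2
    change 0 ≤ exn X12' X13' t t' + min (levXV 3 (h0 * x) 0 t t' p')
        (levXV 3 (h0 * x) 0 t' t (-p'.2.1, -p'.1, -p'.2.2)) +
      kf (kE (h0 * x)) (h0 * x) (E0.K.valK X12' X13' t t' (vB par (h0 * x))) t t' y
    linarith

end

end Pool.Agent.Strip051.LC.E0
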