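import Pool.Agent.Strip051.LC.E0.MonoC

/-! # Small rests: the two moves in the window -/

namespace Pool.Agent.Strip051.LC.E0

open Pool.Agent.StripNear Pool.Agent.StripSquare Pool.Agent.Strip051 Pool.Agent.Strip051.Sweep
open Pool.Agent.Strip051.LC.Line
open Pool.Agent.Strip051.LC.Exact (kE)
open G

section

variable {x w z : ℝ}

theorem Win.t0 (h : Win x w z) : 0 ≤ h0 * (x * w) := by
  have := h0_pos
  have := h.x0
  have := h.w0
  positivity

theorem Win.t3 (h : Win x w z) : (h0 * (x * w)) ^ 2 ≤ 3 := by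
  have := h.t0
  have := h.xw1
  have := h0_lt
  have := h0_pos
  have : h0 * (x * w) ≤ 1 := by nlinarith
  nlinarith

/-- The excess grows. -/
theorem exn_move23 (h : Win x w z) {X12 X12' X23 : ℝ} (h2 : X12 ≤ X12') :
    37 / 100 * (X12' - X12) ≤ exn X12' (X12' + X23) (h0 * (x * w)) (h0 * (1 + x * z)) -
      exn X12 (X12 + X23) (h0 * (x * w)) (h0 * (1 + x * z)) := by
  have hh := h0_pos
  have ha := h.rz.a
  have e : exn X12' (X12' + X23) (h0 * (x * w)) (h0 * (1 + x * z)) -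
      exn X12 (X12 + X23) (h0 * (x * w)) (h0 * (1 + x * z)) =
      (X12' - X12) * ((1 + x * z) / 2) := by
    unfold exn
    field_simp
    ring
  rw [e]
  nlinarith [sub_nonneg.2 h2]

theorem exn_move13 (h : Win x w z) {X12 X12' X13 : ℝ} (h2 : X12 ≤ X12') :
    37 / 100 * (X12' - X12) ≤ exn X12' X13 (h0 * (x * w)) (h0 * (1 + x * z)) -
      exn X12 X13 (h0 * (x * w)) (h0 * (1 + x * z)) := by
  have hh := h0_pos
  have ha := h.ru.a
  have e : exn X12' X13 (h0 * (x * w)) (h0 * (1 + x * z)) -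
      exn X12 X13 (h0 * (x * w)) (h0 * (1 + x * z)) =
      (X12' - X12) * ((1 + x * (w + z)) / 2) := by
    unfold exn
    field_simp
    ring
  rw [e]
  nlinarith [sub_nonneg.2 h2]

/-- **The side middle-top is fixed.** -/
theorem move23 (V : Vx) (h : Win x w z) {X12 X12' X23 : ℝ} (h1 : c1 (h0 * (x * w)) ≤ X12)
    (h2 : X12 ≤ X12') (h3 : X12' ≤ c3 (h0 * (x * w))) (hS : Same (X12 + X23) (X12' + X23))
    (a1 : c1 (h0 * (1 + x * (w + z))) ≤ |X12 + X23|)
    (a2 : |X12 + X23| ≤ c3 (h0 * (1 + x * (w + z))))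
    (b1 : c1 (h0 * (1 + x * (w + z))) ≤ |X12' + X23|)
    (b2 : |X12' + X23| ≤ c3 (h0 * (1 + x * (w + z))))
    (hV : OKV V (h0 * x) X12 (X12 + X23) (h0 * (x * w)) (h0 * (1 + x * z))) :
    OKV V (h0 * x) X12' (X12' + X23) (h0 * (x * w)) (h0 * (1 + x * z)) := by
  have hh := h0_pos
  have hx := h.x0
  have hs0 : 0 < h0 * x := by positivity
  obtain ⟨e0, -⟩ := we_bd hs0 h.s1
  obtain ⟨L, hL, l1, l0⟩ := slope_low V h
  obtain ⟨M, hM, m1, m0⟩ := slopeMid V h.ru h.s1
  have hX := sbX_low hx h.s1 h.w0 h.xw1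
  have hY := h.ru.sbX h.s1
  have d0 := sub_nonneg.2 h2
  have c0 := c1_nonneg (h0 * (x * w))
  have s12 : Same X12 X12' := Or.inl ⟨by linarith, by linarith⟩
  have r1 : |X12| = X12 := abs_of_nonneg (by linarith)
  have r2 : |X12'| = X12' := abs_of_nonneg (by linarith)
  have r3 : |X12' - X12| = X12' - X12 := abs_of_nonneg d0
  have r4 : |X12' + X23 - (X12 + X23)| = X12' - X12 := by
    rw [show X12' + X23 - (X12 + X23) = X12' - X12 by ring, r3]
  have k12 : ∀ {v : ℝ → Fin 4 → ℝ} (_ : E0.K.adm v) {S : ℝ} (_ : SB v (h0 * (x * w)) S),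
      |ker E0.K.nodes v (fun _ _ => 0) X12' (h0 * (x * w)) -
        ker E0.K.nodes v (fun _ _ => 0) X12 (h0 * (x * w))| ≤ S * (X12' - X12) := by
    intro v hv S hS'
    have := ker_lip' hv h.t0 h.t3 hS' s12 (by rw [r1]; exact h1) (by rw [r1]; linarith)
      (by rw [r2]; linarith) (by rw [r2]; exact h3)
    rwa [r3] at this
  have k13 : ∀ {v : ℝ → Fin 4 → ℝ} (_ : E0.K.adm v) {S : ℝ}
      (_ : SB v (h0 * (1 + x * (w + z))) S),
      |ker E0.K.nodes v (fun _ _ => 0) (X12' + X23) (h0 * (x * w) + h0 * (1 + x * z)) -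
        ker E0.K.nodes v (fun _ _ => 0) (X12 + X23) (h0 * (x * w) + h0 * (1 + x * z))| ≤
        S * (X12' - X12) := by
    intro v hv S hS'
    have := ker_lip' hv h.ru.T0 h.ru.T3.le hS' hS a1 a2 b1 b2
    rw [r4] at this
    rwa [T13]
  refine okv_of h (A := L * (X12' - X12)) (B := 0) (C := M * (X12' - X12))
    (a := 1 / 50 * (X12' - X12)) (b := 0) (c := 1 / 20 * (X12' - X12)) ?_ ?_ ?_ ?_ ?_ ?_ ?_ hV
  · exact k12 (adm_vV V _) hL
  · unfold Cur.valK
    simp only [add_sub_cancel_left, sub_self, abs_zero, le_refl]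
  · exact k13 (adm_vV V _) hM
  · exact k12 (adm_vX par _) hX
  · unfold Cur.valK
    simp only [add_sub_cancel_left, sub_self, abs_zero, le_refl]
  · exact k13 (adm_vX par _) hY
  · refine le_trans ?_ (exn_move23 h h2)
    have k1 := mul_le_mul_of_nonneg_right l1 d0
    have k2 := mul_le_mul_of_nonneg_right m1 d0
    have e : we (h0 * x) * (L * (X12' - X12) + 0 + M * (X12' - X12)) =
      we (h0 * x) * L * (X12' - X12) + we (h0 * x) * M * (X12' - X12) := by ring
    rw [e]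
    linarith

/-- **The side bottom-top is fixed.** -/
theorem move13 (V : Vx) (h : Win x w z) {X12 X12' X13 : ℝ} (h1 : c1 (h0 * (x * w)) ≤ X12)
    (h2 : X12 ≤ X12') (h3 : X12' ≤ c3 (h0 * (x * w))) (hS : Same (X13 - X12) (X13 - X12'))
    (a1 : c1 (h0 * (1 + x * z)) ≤ |X13 - X12|)
    (a2 : |X13 - X12| ≤ c3 (h0 * (1 + x * z)))
    (b1 : c1 (h0 * (1 + x * z)) ≤ |X13 - X12'|)
    (b2 : |X13 - X12'| ≤ c3 (h0 * (1 + x * z)))
    (hV : OKV V (h0 * x) X12 X13 (h0 * (x * w)) (h0 * (1 + x * z))) :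
    OKV V (h0 * x) X12' X13 (h0 * (x * w)) (h0 * (1 + x * z)) := by
  have hh := h0_pos
  have hx := h.x0
  have hs0 : 0 < h0 * x := by positivity
  obtain ⟨e0, -⟩ := we_bd hs0 h.s1
  obtain ⟨L, hL, l1, l0⟩ := slope_low V h
  obtain ⟨M, hM, m1, m0⟩ := slopeMid V h.rz h.s1
  have hX := sbX_low hx h.s1 h.w0 h.xw1
  have hY := h.rz.sbX h.s1
  have d0 := sub_nonneg.2 h2
  have c0 := c1_nonneg (h0 * (x * w))
  have s12 : Same X12 X12' := Or.inl ⟨by linarith, by linarith⟩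
  have r1 : |X12| = X12 := abs_of_nonneg (by linarith)
  have r2 : |X12'| = X12' := abs_of_nonneg (by linarith)
  have r3 : |X12' - X12| = X12' - X12 := abs_of_nonneg d0
  have r4 : |X13 - X12' - (X13 - X12)| = X12' - X12 := by
    rw [show X13 - X12' - (X13 - X12) = -(X12' - X12) by ring, abs_neg, r3]
  have k12 : ∀ {v : ℝ → Fin 4 → ℝ} (_ : E0.K.adm v) {S : ℝ} (_ : SB v (h0 * (x * w)) S),
      |ker E0.K.nodes v (fun _ _ => 0) X12' (h0 * (x * w)) -
        ker E0.K.nodes v (fun _ _ => 0) X12 (h0 * (x * w))| ≤ S * (X12' - X12) := by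
    intro v hv S hS'
    have := ker_lip' hv h.t0 h.t3 hS' s12 (by rw [r1]; exact h1) (by rw [r1]; linarith)
      (by rw [r2]; linarith) (by rw [r2]; exact h3)
    rwa [r3] at this
  have k23 : ∀ {v : ℝ → Fin 4 → ℝ} (_ : E0.K.adm v) {S : ℝ} (_ : SB v (h0 * (1 + x * z)) S),
      |ker E0.K.nodes v (fun _ _ => 0) (X13 - X12') (h0 * (1 + x * z)) -
        ker E0.K.nodes v (fun _ _ => 0) (X13 - X12) (h0 * (1 + x * z))| ≤ S * (X12' - X12) := by
    intro v hv S hS'
    have := ker_lip' hv h.rz.T0 h.rz.T3.le hS' hS a1 a2 b1 b2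
    rwa [r4] at this
  refine okv_of h (A := L * (X12' - X12)) (B := M * (X12' - X12)) (C := 0)
    (a := 1 / 50 * (X12' - X12)) (b := 1 / 20 * (X12' - X12)) (c := 0) ?_ ?_ ?_ ?_ ?_ ?_ ?_ hV
  · exact k12 (adm_vV V _) hL
  · exact k23 (adm_vV V _) hM
  · unfold Cur.valK
    simp only [sub_self, abs_zero, le_refl]
  · exact k12 (adm_vX par _) hX
  · exact k23 (adm_vX par _) hY
  · unfold Cur.valK
    simp only [sub_self, abs_zero, le_refl]
  · refine le_trans ?_ (exn_move13 h h2)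
    have k1 := mul_le_mul_of_nonneg_right l1 d0
    have k2 := mul_le_mul_of_nonneg_right m1 d0
    have e : we (h0 * x) * (L * (X12' - X12) + M * (X12' - X12) + 0) =
      we (h0 * x) * L * (X12' - X12) + we (h0 * x) * M * (X12' - X12) := by ring
    rw [e]
    linarith

end

end Pool.Agent.Strip051.LC.E0
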