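import Pool.Agent.Strip051.LC.E0.Bd2

/-! # Small rests: the kernel and the abscissa

On every curve the kernel is at most the abscissa plus `s / 2`, and the sum of both is at most
`3 + 5 s / 4`. -/

namespace Pool.Agent.Strip051.LC.E0

open Pool.Agent.StripNear Pool.Agent.StripSquare Pool.Agent.Strip051 Pool.Agent.Strip051.Sweep

/-! ### The kernel on the unit circle -/

theorem h0_bd : (86602 / 100000 : ℝ) < h0 ∧ h0 < 86603 / 100000 := by
  have hh := h0_pos
  have hq := h0_sq'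
  constructor <;> nlinarith

theorem RA_eq {s σ : ℝ} (hs : 0 < s) (h : 4 * s ≤ σ) : RA par s σ = 1 - 2 * σ := by
  have h1 : 4 ≤ σ / s := by rwa [le_div_iff₀ hs]
  have h2 : dc par (σ / s) = 0 := by
    unfold dc
    rw [if_neg (by linarith), if_neg (by linarith), if_neg (by linarith)]
    split_ifs with h3
    · have h4 : σ / s = 4 := le_antisymm h3 h1
      rw [h4, pl_right (by norm_num)]
    · rfl
  unfold RA
  rw [h2]
  ring

/-- An affine bound. -/
theorem RA_le9 {s σ : ℝ} (hs : 0 < s) (h : 0 ≤ σ) : RA par s σ ≤ 1 - 9 / 10 * σ + 3 / 4 * s := by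
  have key : ∀ w : ℝ, 0 ≤ w → -(11 / 10) * w + -(3 / 4) ≤ dc par w := by
    intro w hw
    have a := par_d0
    have b := par_d1
    have c := par_d2
    have d := par_d3
    unfold dc
    split_ifs with h1 h2 h3 h4
    · have h5 := mul_le_mul_of_nonneg_left a.1 hw
      have h6 : 0 ≤ w * (par.d1 * w) := mul_nonneg hw (mul_nonneg (by linarith [b.1]) hw)
      linarith
    · exact le_pl_aff (by norm_num) (not_le.1 h1).le h2 (by linarith [b.1, a.1])
        (by linarith [c.1])
    · exact le_pl_aff (by norm_num) (not_le.1 h2).le h3 (by linarith [c.1]) (by linarith [d.1])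
    · exact le_pl_aff (by norm_num) (not_le.1 h3).le h4 (by linarith [d.1]) (by norm_num)
    · linarith
  have h1 := mul_le_mul_of_nonneg_left (key (σ / s) (div_nonneg h hs.le)) hs.le
  have e : s * (-(11 / 10) * (σ / s) + -(3 / 4)) = -(11 / 10) * σ - 3 / 4 * s := by
    field_simp
    ring
  rw [e] at h1
  unfold RA
  linarith

/-- The kernel between `5 s / 2` and `4 s`. -/
theorem RA_mid' {s σ : ℝ} (hs : 0 < s) (h : 5 / 2 * s ≤ σ) (h' : σ ≤ 4 * s) :
    RA par s σ ≤ 1 - 2 * σ + 2313 / 1000 * (4 * s - σ) := by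
  have h1 : 5 / 2 ≤ σ / s := by rwa [le_div_iff₀ hs]
  have h2 : σ / s ≤ 4 := by rwa [div_le_iff₀ hs]
  have d := par_d3.1
  have key : -(2313 / 1000) * (4 - σ / s) ≤ dc par (σ / s) := by
    rcases h1.eq_or_lt with h3 | h3
    · have e : dc par (5 / 2) = par.d3 := by
        unfold dc
        rw [if_neg (by norm_num), if_neg (by norm_num), if_pos le_rfl, pl_right (by norm_num)]
      rw [← h3, e]
      linarith
    · unfold dc
      rw [if_neg (by linarith), if_neg (by linarith), if_neg (by linarith), if_pos h2]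
      have := le_pl_aff (a := 2313 / 1000) (b := -(2313 / 1000) * 4) (y0 := par.d3) (y1 := 0)
        (by norm_num : (5 / 2 : ℝ) < 4) h1 h2 (by linarith) (by norm_num)
      linarith
  have h4 := mul_le_mul_of_nonneg_left key hs.le
  have e : s * (-(2313 / 1000) * (4 - σ / s)) = -(2313 / 1000) * (4 * s - σ) := by
    field_simp
  rw [e] at h4
  unfold RA
  linarith

/-- A lower bound. -/
theorem RA_ge6 {s σ : ℝ} (hs : 0 < s) (h : 0 ≤ σ) (h' : σ ≤ 5 / 2 * s) :
    1 - 613 / 1000 * σ ≤ RA par s σ := by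
  have key : ∀ w : ℝ, 0 ≤ w → w ≤ 5 / 2 → dc par w ≤ -(1387 / 1000) * w + 0 := by
    intro w hw hw2
    have a := par_d0
    have b := par_d1
    have c := par_d2
    have d := par_d3
    unfold dc
    split_ifs with h1 h2
    · have h5 := mul_le_mul_of_nonneg_left a.2 hw
      have h6 : par.d1 * w ≤ 1282 / 10000 * 1 := mul_le_mul b.2 h1 hw (by norm_num)
      have h7 := mul_le_mul_of_nonneg_left h6 hw
      linarith
    · exact pl_le_aff (by norm_num) (not_le.1 h1).le h2 (by linarith [b.2, a.2])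
        (by linarith [c.2])
    · exact pl_le_aff (by norm_num) (not_le.1 h2).le hw2 (by linarith [c.2]) (by linarith [d.2])
  have h1 := mul_le_mul_of_nonneg_left (key (σ / s) (div_nonneg h hs.le)
    (by rwa [div_le_iff₀ hs])) hs.le
  have e : s * (-(1387 / 1000) * (σ / s) + 0) = -(1387 / 1000) * σ := by
    field_simp
    ring
  rw [e] at h1
  unfold RA
  linarith

/-- Cancel a square. -/
theorem le_of_sq2 {a b : ℝ} (hb : 0 ≤ b) (h : a ^ 2 ≤ b ^ 2) : a ≤ b := by
  by_contra h1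
  rw [not_le] at h1
  nlinarith

/-- The half angle: for `C ^ 2 + x ^ 2 = 1`. -/
theorem half_bd {C x : ℝ} (hC : h0 ≤ C) (hx : 0 ≤ x) (h : C ^ 2 + x ^ 2 = 1) :
    433 / 1000 * x ≤ h0 * x / (1 + C) ∧ h0 * x / (1 + C) ≤ 465 / 1000 * x ∧
      1 - 536 / 1000 * x ^ 2 ≤ C ∧ C ≤ 1 - x ^ 2 / 2 := by
  have hh := h0_pos
  obtain ⟨b1, b2⟩ := h0_bd
  have hC1 : C ≤ 1 := by nlinarith
  refine ⟨?_, ?_, ?_, ?_⟩
  · rw [le_div_iff₀ (by linarith)]
    nlinarith
  · rw [div_le_iff₀ (by linarith)]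
    nlinarith
  · nlinarith
  · nlinarith

/-- The chord: for `C ^ 2 + x ^ 2 = 1`, `x ≤ 1 / 2`. -/
theorem chord_bd {C x : ℝ} (hC : 0 ≤ C) (hx : 0 ≤ x) (h : C ^ 2 + x ^ 2 = 1) (h1 : x ≤ 1 / 2) :
    1 - 2 * (1 - h0) * x ≤ C := by
  have hh := h0_pos
  have hq := h0_sq'
  have h2 := h0_lt
  refine le_of_sq2 hC ?_
  have e : C ^ 2 - (1 - 2 * (1 - h0) * x) ^ 2 = 4 * (1 - h0) * x * (1 - 2 * x) +
      x ^ 2 * (4 * (3 / 4 - h0 ^ 2)) := by
    linear_combination h
  have h3 : 0 ≤ 4 * (1 - h0) * x * (1 - 2 * x) :=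
    mul_nonneg (mul_nonneg (by linarith) hx) (by linarith)
  have h4 : x ^ 2 * (4 * (3 / 4 - h0 ^ 2)) = 0 := by
    rw [show (3 / 4 - h0 ^ 2 : ℝ) = 0 by nlinarith]
    ring
  linarith

/-! ### The circles -/

/-- The unit circle in the coordinates next to the direction of `60` degrees. -/
theorem c1_rot {T : ℝ} (hT : 0 ≤ T) (hT1 : T ≤ 1) :
    (c1 T / 2 + h0 * T) ^ 2 + (T / 2 - h0 * c1 T) ^ 2 = 1 ∧
      c1 T = (c1 T / 2 + h0 * T) / 2 - h0 * (T / 2 - h0 * c1 T) := by
  have e := c1_sq hT hT1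
  have hq := h0_sq'
  constructor
  · linear_combination (c1 T ^ 2 + T ^ 2) * hq + e
  · linear_combination (-c1 T) * hq

/-- The circle of radius `√3` in the coordinates next to the direction of `30` degrees. -/
theorem c3_rot {T : ℝ} (h : T ^ 2 ≤ 3) :
    (c3 T / 2 + T / (4 * h0)) ^ 2 + (T / 2 - c3 T / (4 * h0)) ^ 2 = 1 ∧
      c3 T = 3 / 2 * (c3 T / 2 + T / (4 * h0)) - h0 * (T / 2 - c3 T / (4 * h0)) ∧
      T = h0 * (c3 T / 2 + T / (4 * h0)) + 3 / 2 * (T / 2 - c3 T / (4 * h0)) := by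
  have e := c3_sq h
  have hq := h0_sq'
  rw [quot4, quot4]
  refine ⟨?_, ?_, ?_⟩
  · linear_combination (c3 T ^ 2 + T ^ 2) / 9 * hq + 1 / 3 * e
  · linear_combination (-c3 T / 3) * hq
  · linear_combination (-T / 3) * hq

/-- The unit circle. -/
theorem R1_le {s T : ℝ} (hs : 0 < s) (hs1 : s ≤ 11 / 400) (hT : 0 ≤ T) (hT1 : T ≤ 1) :
    |R1 par s T| ≤ c1 T + s / 2 := by
  have g1 := h0_gt
  have g2 := h0_lt
  obtain ⟨b1, b2⟩ := h0_bd
  have hh := h0_pos
  have hq := h0_sq'
  have e := c1_sq hT hT1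
  have c0 := c1_nonneg T
  have low : T ≤ 1 / 2 → |RA par s T| ≤ c1 T := fun h => by
    rw [abs_of_nonneg (RA_nonneg hs hT h)]
    refine (RA_le2 hs hT).trans (le_of_sq2 c0 ?_)
    nlinarith
  unfold R1
  split_ifs with h1 h2
  · linarith [low (by linarith)]
  · rw [not_lt] at h1
    rw [abs_mul]
    have a2 : |(T - h0) / T| ≤ 1 := by
      refine abs_div_le (by linarith) ?_
      rw [abs_le]
      constructor <;> linarith
    have := mul_le_mul (low h2) a2 (abs_nonneg _) c0
    linarith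
  · rw [not_le] at h2
    obtain ⟨r1, r2⟩ := c1_rot hT hT1
    have x1 : |T / 2 - h0 * c1 T| ≤ 1 / 2 := by
      have cl : c1 T ≤ h0 := by nlinarith
      rw [abs_le]
      constructor <;> nlinarith
    have C0 : 0 ≤ c1 T / 2 + h0 * T := by positivity
    generalize T / 2 - h0 * c1 T = x at r1 r2 x1 ⊢
    generalize c1 T / 2 + h0 * T = C at r1 r2 C0 ⊢
    rw [r2]
    have hC : h0 ≤ C := by
      refine le_of_sq2 C0 ?_
      have := sq_abs x
      nlinarith [abs_nonneg x]
    have r1' : C ^ 2 + |x| ^ 2 = 1 := by rw [sq_abs]; exact r1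
    obtain ⟨k1, k2, k3, k4⟩ := half_bd hC (abs_nonneg x) r1'
    have k5 := chord_bd C0 (abs_nonneg x) r1' x1
    have A0 := RA_nonneg hs (abs_nonneg x) x1
    rw [abs_mul, abs_of_nonneg A0]
    rcases le_or_gt x 0 with hx | hx
    · rw [abs_of_nonpos hx] at *
      set y := -x with hy
      have ey : x = -y := by rw [hy, neg_neg]
      rw [ey, show 1 / 2 - h0 * -y / (1 + C) = 1 / 2 + h0 * y / (1 + C) by ring] at *
      set P := h0 * y / (1 + C) with hP
      have y0 : 0 ≤ y := by linarith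
      have P0 : 0 ≤ P := by linarith
      rw [abs_of_nonneg (by linarith)]
      have A1 := RA_le2 hs y0
      have := mul_le_mul_of_nonneg_right A1 (by linarith : 0 ≤ 1 / 2 + P)
      have a4 := mul_nonneg y0 P0
      have a5 := mul_nonneg y0 (by linarith : 0 ≤ 1 / 2 - y)
      have a6 := mul_nonneg y0 (by linarith : 0 ≤ h0 - 86602 / 100000)
      linarith
    · rw [abs_of_pos hx] at *
      set P := h0 * x / (1 + C) with hP
      have P0 : 0 ≤ P := by linarith
      have P1 : 0 ≤ 1 / 2 - P := by linarith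
      rw [abs_of_nonneg P1]
      rcases le_or_gt (4 * s) x with h3 | h3
      · rw [RA_eq hs h3]
        have := mul_le_mul_of_nonneg_left (by linarith : 1 / 2 - P ≤ 1 / 2)
          (by linarith : 0 ≤ 1 - 2 * x)
        linarith
      rcases le_or_gt (5 / 2 * s) x with h4 | h4
      · have A1 := RA_mid' hs h4 h3.le
        have a2 := mul_le_mul_of_nonneg_right A1 P1
        have a3 := mul_le_mul_of_nonneg_left (by linarith : 1 / 2 - P ≤ 1 / 2 - 433 / 1000 * x)
          (A0.trans A1)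
        have a4 := mul_nonneg (by linarith : 0 ≤ x - 5 / 2 * s) (by linarith : 0 ≤ 4 * s - x)
        have a5 := mul_nonneg (by linarith : 0 ≤ x - 5 / 2 * s) (by linarith : 0 ≤ 11 / 400 - s)
        have a6 := mul_nonneg hx.le (by linarith : 0 ≤ 86603 / 100000 - h0)
        have a7 := mul_nonneg hs.le (by linarith : 0 ≤ 11 / 400 - s)
        linarith
      · have A1 := RA_le9 hs hx.le (s := s)
        have a2 := mul_le_mul_of_nonneg_right A1 P1
        have a3 := mul_le_mul_of_nonneg_left (by linarith : 1 / 2 - P ≤ 1 / 2 - 433 / 1000 * x)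
          (A0.trans A1)
        have a4 := mul_nonneg hx.le (by linarith : 0 ≤ 11 / 160 - x)
        have a5 := mul_nonneg hx.le hs.le
        have a6 := mul_nonneg hx.le (by linarith : 0 ≤ 86603 / 100000 - h0)
        linarith

end Pool.Agent.Strip051.LC.E0
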