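import Pool.Agent.Strip051.LC.E0.OutA

/-! # Small rests: the kernel and the abscissa on the circle of radius `√3` and on `W` -/

namespace Pool.Agent.Strip051.LC.E0

open Pool.Agent.StripNear Pool.Agent.StripSquare Pool.Agent.Strip051 Pool.Agent.Strip051.Sweep

/-- The middle part of the circle of radius `√3`. -/
theorem R3_mid {s C x : ℝ} (hs : 0 < s) (hs1 : s ≤ 11 / 400) (h : C ^ 2 + x ^ 2 = 1)
    (hC0 : 0 ≤ C) (hx1 : |x| ≤ 1 / 2) (hx : -(3 / 10) ≤ x) :
    |RA par s |x| * (3 / 2 - h0 * x / (1 + C))| ≤ 3 / 2 * C - h0 * x ∧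
      |RA par s |x| * (3 / 2 - h0 * x / (1 + C))| + (3 / 2 * C - h0 * x) ≤ 3 + 5 / 4 * s := by
  have g1 := h0_gt
  have g2 := h0_lt
  obtain ⟨b1, b2⟩ := h0_bd
  have hh := h0_pos
  have hq := h0_sq'
  have hC : h0 ≤ C := by
    refine le_of_sq2 hC0 ?_
    have := sq_abs x
    nlinarith [abs_nonneg x]
  have r1' : C ^ 2 + |x| ^ 2 = 1 := by rw [sq_abs]; exact h
  obtain ⟨k1, k2, k3, k4⟩ := half_bd hC (abs_nonneg x) r1'
  have k5 := chord_bd hC0 (abs_nonneg x) r1' hx1
  have A0 := RA_nonneg hs (abs_nonneg x) hx1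
  rcases le_or_gt x 0 with hx' | hx'
  · rw [abs_of_nonpos hx'] at *
    set y := -x with hy
    have ey : x = -y := by rw [hy, neg_neg]
    rw [ey, show 3 / 2 - h0 * -y / (1 + C) = 3 / 2 + h0 * y / (1 + C) by ring] at *
    set P := h0 * y / (1 + C) with hP
    have y0 : 0 ≤ y := by linarith
    have P0 : 0 ≤ P := by linarith
    rw [abs_mul, abs_of_nonneg A0, abs_of_nonneg (by linarith : (0 : ℝ) ≤ 3 / 2 + P)]
    have a4 := mul_nonneg y0 P0
    have a5 := mul_nonneg y0 (by linarith : 0 ≤ 3 / 10 - y)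
    have a6 := mul_nonneg y0 (by linarith : 0 ≤ h0 - 86602 / 100000)
    have a7 := mul_nonneg y0 (by linarith : 0 ≤ 86603 / 100000 - h0)
    constructor
    · have := mul_le_mul_of_nonneg_right (RA_le2 hs y0) (by linarith : 0 ≤ 3 / 2 + P)
      linarith
    · have := mul_le_mul_of_nonneg_right (RA_le9 hs y0) (by linarith : 0 ≤ 3 / 2 + P)
      have a8 := mul_nonneg hs.le (by linarith : 0 ≤ 14 / 100 - P)
      have a9 := mul_nonneg y0 (by linarith : 0 ≤ P - 433 / 1000 * y)
      have a10 : P ≤ 445 / 1000 * y := by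
        rw [hP, div_le_iff₀ (by linarith)]
        have : 95 / 100 ≤ C := by nlinarith
        nlinarith
      linarith
  · rw [abs_of_pos hx'] at *
    set P := h0 * x / (1 + C) with hP
    have P0 : 0 ≤ P := by linarith
    have P1 : 0 ≤ 3 / 2 - P := by linarith
    rw [abs_mul, abs_of_nonneg A0, abs_of_nonneg P1]
    have C1 : C ≤ 1 := by nlinarith
    have a6 := mul_nonneg hx'.le (by linarith : 0 ≤ 86603 / 100000 - h0)
    have a7 := mul_nonneg hx'.le (by linarith : 0 ≤ h0)
    have low : RA par s x * (3 / 2 - P) ≤ 3 / 2 * C - h0 * x := by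
      rcases le_or_gt (4 * s) x with h3 | h3
      · rw [RA_eq hs h3]
        have := mul_le_mul_of_nonneg_left (by linarith : 3 / 2 - P ≤ 3 / 2)
          (by linarith : 0 ≤ 1 - 2 * x)
        linarith
      · have := mul_le_mul_of_nonneg_right (RA_le2 hs hx'.le) P1
        have a4 := mul_nonneg hx'.le (by linarith : 0 ≤ 465 / 1000 * x - P)
        have a5 := mul_nonneg hx'.le (by linarith : 0 ≤ 11 / 100 - x)
        linarith
    refine ⟨low, ?_⟩
    linarith

/-- The circle of radius `√3`. -/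
theorem R3_le {s T : ℝ} (hs : 0 < s) (hs1 : s ≤ 11 / 400) (hT : 0 ≤ T) (hT3 : T ^ 2 ≤ 3) :
    |R3 par s T| ≤ c3 T ∧ |R3 par s T| + c3 T ≤ 3 + 5 / 4 * s := by
  have g1 := h0_gt
  have g2 := h0_lt
  obtain ⟨b1, b2⟩ := h0_bd
  have hh := h0_pos
  have hq := h0_sq'
  have e := c3_sq hT3
  have c0 := c3_nonneg T
  unfold R3
  split_ifs with h1 h2 h3
  · have cc : 167 / 100 ≤ c3 T := by nlinarith
    have cu : c3 T ≤ 174 / 100 := by nlinarith
    have x1 : 1 / 4 ≤ c3 T / (4 * h0) - T / 2 := by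
      rw [quot4]
      nlinarith
    have x2 : c3 T / (4 * h0) - T / 2 ≤ 51 / 100 := by
      rw [quot4]
      nlinarith
    rw [abs_neg, abs_mul, abs_of_nonneg hT, RA_eq hs (by linarith)]
    have a2 : |(1 - 2 * (c3 T / (4 * h0) - T / 2)) / (c3 T / (4 * h0) - T / 2)| ≤ 2 := by
      refine abs_div_le (by linarith) ?_
      rw [abs_le]
      constructor <;> linarith
    have := mul_le_mul h1.le a2 (abs_nonneg _) (by positivity)
    constructor <;> linarith
  · rw [not_lt] at h1
    have cc : 11 / 10 ≤ c3 T := by nlinarith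
    have cu : c3 T ≤ 17 / 10 := by nlinarith
    obtain ⟨r1, r2, r3⟩ := c3_rot hT3
    have x1 : |T / 2 - c3 T / (4 * h0)| ≤ 1 / 2 := by
      rw [quot4, abs_le]
      constructor <;> nlinarith
    have x2 : -(3 / 10) ≤ T / 2 - c3 T / (4 * h0) := by
      rw [quot4]
      nlinarith
    have C0 : 0 ≤ c3 T / 2 + T / (4 * h0) := by positivity
    have key := R3_mid hs hs1 r1 C0 x1 x2
    rw [← r2] at key
    exact key
  · rw [not_lt] at h2
    have x1 : c3 T / (2 * h0) ≤ 1 / 2 := by
      rw [div_le_iff₀ (by positivity)]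
      linarith
    have a1 := RA_abs hs (σ := c3 T / (2 * h0)) (by positivity) x1
    have a2 : |c3 T / (1 + T / (2 * h0))| ≤ c3 T := by
      have h5 : 0 ≤ T / (2 * h0) := by positivity
      refine abs_div_le (by linarith) ?_
      rw [abs_of_nonneg c0]
      nlinarith [mul_nonneg c0 h5]
    rw [abs_mul]
    have := mul_le_mul a1 a2 (abs_nonneg _) zero_le_one
    constructor <;> linarith
  · rw [not_lt] at h2
    rw [not_le] at h3
    have hT32 : T < 3 / 2 := by nlinarith
    have cu : c3 T ≤ 6 / 5 := by nlinarith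
    have x1 : 3 / 10 ≤ T / 2 - c3 T / (4 * h0) := by
      rw [quot4]
      nlinarith [mul_le_mul_of_nonneg_left g2.le c0]
    have x2 : T / 2 - c3 T / (4 * h0) ≤ 1 / 2 := by
      rw [quot4]
      nlinarith [mul_le_mul_of_nonneg_left g1.le c0]
    rw [RA_eq hs (by linarith)]
    have a2 : |(1 - 2 * (T / 2 - c3 T / (4 * h0))) / (T / 2 - c3 T / (4 * h0))| ≤ 4 / 3 := by
      refine abs_div_le (by linarith) ?_
      rw [abs_le]
      constructor <;> linarith
    have a3 : |T - 2 * h0| ≤ 1 / 2 := by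
      rw [abs_le]
      constructor <;> linarith
    rw [abs_mul]
    have := mul_le_mul a3 a2 (abs_nonneg _) (by norm_num)
    constructor <;> linarith

end Pool.Agent.Strip051.LC.E0
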