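import Pool.Agent.Strip051.LC.E0.OutB

/-! # Small rests: the kernel and the abscissa on all curves -/

namespace Pool.Agent.Strip051.LC.E0

open Pool.Agent.StripNear Pool.Agent.StripSquare Pool.Agent.Strip051 Pool.Agent.Strip051.Sweep

theorem RA_one {s : ℝ} (hs : 0 < s) :
    1 - 5035 / 10000 * s ≤ RA par s s ∧ RA par s s ≤ 1 - 5034 / 10000 * s := by
  have h := par_one
  obtain ⟨a, b⟩ := one_bd
  rw [← h] at a b
  have e : RA par s s = 1 - s * (2 + (par.d0 + par.d1)) := by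
    unfold RA dc
    rw [div_self hs.ne', if_pos le_rfl]
    ring
  rw [e]
  have := mul_le_mul_of_nonneg_left a hs.le
  have := mul_le_mul_of_nonneg_left b hs.le
  constructor <;> linarith

theorem Pe_bd9 {s : ℝ} (hs : 0 < s) (hs1 : s ≤ 11 / 400) :
    1 - 9 / 10 * s ≤ Pe s ∧ Pe s ≤ 1 - 86 / 100 * s := by
  obtain ⟨-, a, -, b⟩ := g_facts hs hs1
  have hh := h0_pos
  have g2 := h0_lt
  obtain ⟨b1, b2⟩ := h0_bd
  have hd0 : 57734 / 100000 - 138 / 10000 ≤ 1 / (2 * h0) - s / (1 + g s) := by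
    have h1 : s / (1 + g s) ≤ 138 / 10000 := by
      rw [div_le_iff₀ (by linarith)]
      linarith
    have h2 : 57734 / 100000 ≤ 1 / (2 * h0) := by
      rw [le_div_iff₀ (by positivity)]
      linarith
    linarith
  have hd1 : 1 / (2 * h0) - s / (1 + g s) ≤ 57736 / 100000 := by
    have h1 : 0 ≤ s / (1 + g s) := div_nonneg hs.le (by linarith)
    have h2 : 1 / (2 * h0) ≤ 57736 / 100000 := by
      rw [div_le_iff₀ (by positivity)]
      linarith
    linarith
  rw [Pe_eq hs hs1]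
  set d := 1 / (2 * h0) - s / (1 + g s) with hd
  have k1 : (1 + g s) * d ≤ 2 * (57736 / 100000) :=
    mul_le_mul (by linarith) hd1 (by linarith) (by norm_num)
  have k2 : 1999 / 1000 * (57734 / 100000 - 138 / 10000) ≤ (1 + g s) * d :=
    mul_le_mul (by linarith) hd0 (by norm_num) (by linarith)
  have k3 : g s * ((1 + g s) * d) ≤ 1 * (2 * (57736 / 100000)) :=
    mul_le_mul a k1 (by linarith) (by norm_num)
  have k4 : 999 / 1000 * (1999 / 1000 * (57734 / 100000 - 138 / 10000)) ≤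
      g s * ((1 + g s) * d) := mul_le_mul b k2 (by norm_num) (by linarith)
  have k5 : 0 < g s * ((1 + g s) * d) := by linarith
  have k6 : 1 / (g s * ((1 + g s) * d)) ≤ 9 / 10 := by
    rw [div_le_iff₀ k5]
    linarith
  have k7 : 86 / 100 ≤ 1 / (g s * ((1 + g s) * d)) := by
    rw [le_div_iff₀ k5]
    linarith
  have := mul_le_mul_of_nonneg_left k6 hs.le
  have := mul_le_mul_of_nonneg_left k7 hs.le
  constructor <;> linarith

/-- The pinned slope above `h0`. -/
theorem pinU_one {s : ℝ} (hs : 0 < s) (hs1 : s ≤ 11 / 400) : |pinU par s| ≤ 1 := by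
  obtain ⟨eg, a, ag, b⟩ := g_facts hs hs1
  have hh := h0_pos
  have g1 := h0_gt
  have g2 := h0_lt
  obtain ⟨b1, b2⟩ := h0_bd
  have hq := h0_sq'
  set T := h0 + s with hTd
  have hT1 : T < 1 := by linarith
  have hT0 : 0 ≤ T := by positivity
  have e := c1_sq hT0 hT1.le
  have c0 := c1_nonneg T
  have cl : c1 T ≤ 1 / 2 := by nlinarith
  have c4 : 44 / 100 ≤ c1 T := by nlinarith
  have ec : (1 / 2 - c1 T) * (1 / 2 + c1 T) = s * (2 * h0 + s) := by
    rw [hTd] at e ⊢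
    nlinarith
  have d1 : 17 / 10 * s ≤ g s - 1 / 2 - c1 T := by nlinarith
  have u1 : 1 / 2 - c1 T ≤ 188 / 100 * s := by
    have k1 : (1 / 2 - c1 T) * (94 / 100) ≤ s * (2 * h0 + s) := by
      rw [← ec]
      exact mul_le_mul_of_nonneg_left (by linarith) (by linarith)
    have k2 := mul_le_mul_of_nonneg_left
      (by linarith : 2 * h0 + s ≤ 176 / 100) hs.le
    linarith
  obtain ⟨r1, r2⟩ := c1_rot hT0 hT1.le
  have ex : T / 2 - h0 * c1 T = s / 2 + h0 * (1 / 2 - c1 T) := by rw [hTd]; ring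
  have s0 : 0 ≤ T / 2 - h0 * c1 T := by
    rw [ex]
    have := mul_nonneg hh.le (by linarith : 0 ≤ 1 / 2 - c1 T)
    linarith
  have s1 : T / 2 - h0 * c1 T ≤ 214 / 100 * s := by
    rw [ex]
    have := mul_le_mul b2.le u1 (by linarith) (by norm_num)
    linarith
  have n1 : R1 par s T = RA par s (T / 2 - h0 * c1 T) *
      (1 / 2 - h0 * (T / 2 - h0 * c1 T) / (1 + (c1 T / 2 + h0 * T))) := by
    unfold R1
    rw [if_neg (by linarith), if_neg (by linarith), abs_of_nonneg s0]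
  have C0 : 99 / 100 ≤ c1 T / 2 + h0 * T := by nlinarith
  generalize T / 2 - h0 * c1 T = x at *
  generalize c1 T / 2 + h0 * T = C at *
  have f0 : 0 ≤ h0 * x / (1 + C) := by
    have : 0 < 1 + C := by linarith
    positivity
  have f1 : h0 * x / (1 + C) ≤ 935 / 1000 * s := by
    rw [div_le_iff₀ (by linarith)]
    have k1 := mul_le_mul b2.le s1 s0 (by norm_num)
    have k2 := mul_nonneg hs.le (by linarith : 0 ≤ C - 99 / 100)
    linarith
  obtain ⟨q1, q2⟩ := RA_one hs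
  obtain ⟨p1, p2⟩ := Pe_bd9 hs hs1
  have r3 := RA_ge6 hs s0 (by linarith)
  have r4 := RA_le hs s0
  have n3 : 1 / 2 - 16 / 10 * s ≤ R1 par s T := by
    rw [n1]
    have k1 := mul_le_mul_of_nonneg_right r3
      (by linarith : 0 ≤ 1 / 2 - h0 * x / (1 + C))
    have k2 := mul_nonneg s0 f0
    linarith
  have n2 : R1 par s T ≤ 1 / 2 := by
    rw [n1]
    have k1 := mul_le_mul_of_nonneg_right r4
      (by linarith : 0 ≤ 1 / 2 - h0 * x / (1 + C))
    linarith
  unfold pinU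
  rw [← hTd]
  refine abs_div_le (by linarith) ?_
  rw [abs_le]
  constructor <;> linarith

theorem slU_one {s z : ℝ} (hs : 0 < s) (hs1 : s ≤ 11 / 400) (hz : 0 ≤ z) :
    |slU par s z| ≤ 1 := by
  have h := abs_le.1 (pinU_one hs hs1)
  have g1 := h0_gt
  have g2 := h0_lt
  have e : par.sA = 92 / 125 := rfl
  unfold slU
  split_ifs with h1 h2
  · rw [abs_le, e]
    constructor <;> nlinarith
  · exact pinU_one hs hs1
  · rw [abs_le]
    constructor <;> linarith

/-- The pinned slope below `h0`. -/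
theorem pinL_nonneg {s : ℝ} (hs : 0 < s) (hs1 : s ≤ 11 / 400) : 0 ≤ pinL par s := by
  obtain ⟨eg, a, ag, b⟩ := g_facts hs hs1
  have hh := h0_pos
  have g1 := h0_gt
  have g2 := h0_lt
  have hq := h0_sq'
  set T := h0 - s with hTd
  have hT0 : 0 ≤ T := by linarith
  have hT3 : T ^ 2 ≤ 3 := by nlinarith
  have e := c3_sq hT3
  have c0 := c3_nonneg T
  have cl : 3 / 2 ≤ c3 T := by nlinarith
  have c4 : c3 T ≤ 31 / 20 := by nlinarith
  have ec : (c3 T - 3 / 2) * (c3 T + 3 / 2) = s * (2 * h0 - s) := by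
    rw [hTd] at e ⊢
    nlinarith
  have b1 : 1 / 2 * s ≤ c3 T - 3 / 2 := by nlinarith
  have b2 : c3 T - 3 / 2 ≤ 3 / 5 * s := by nlinarith
  have d1 : 0 ≤ c3 T - (1 / 2 + g s) := by linarith
  have es : T / 2 - c3 T / (4 * h0) = -(s / 2 + (c3 T - 3 / 2) * h0 / 3) := by
    rw [quot4, hTd]
    ring
  have s0 : 0 ≤ s / 2 + (c3 T - 3 / 2) * h0 / 3 := by
    have : 0 ≤ (c3 T - 3 / 2) * h0 := mul_nonneg (by linarith) hh.le
    linarith
  have s1 : s / 2 + (c3 T - 3 / 2) * h0 / 3 ≤ 7 / 10 * s := by nlinarith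
  have n1 : R3 par s T = RA par s (s / 2 + (c3 T - 3 / 2) * h0 / 3) *
      (3 / 2 + h0 * (s / 2 + (c3 T - 3 / 2) * h0 / 3) / (1 + (c3 T / 2 + T / (4 * h0)))) := by
    unfold R3
    rw [if_neg (by linarith), if_pos (by linarith), es, abs_neg, abs_of_nonneg s0]
    ring
  generalize s / 2 + (c3 T - 3 / 2) * h0 / 3 = σ at *
  obtain ⟨q1, q2⟩ := RA_one hs
  obtain ⟨p1, p2⟩ := Pe_bd9 hs hs1
  have r3 := RA_ge6 hs s0 (by linarith)
  have f0 : 0 ≤ h0 * σ / (1 + (c3 T / 2 + T / (4 * h0))) := by positivity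
  have n3 : 3 / 2 - 65 / 100 * s ≤ R3 par s T := by
    rw [n1]
    have k1 := mul_le_mul_of_nonneg_left (by linarith : (3 / 2 : ℝ) ≤
      3 / 2 + h0 * σ / (1 + (c3 T / 2 + T / (4 * h0)))) (by linarith : 0 ≤ RA par s σ)
    linarith
  unfold pinL
  rw [← hTd]
  exact div_nonneg (by linarith) d1

theorem slL_nonneg {s z : ℝ} (hs : 0 < s) (hs1 : s ≤ 11 / 400) (hz : 0 ≤ z) :
    0 ≤ slL par s z := by
  have h := pinL_nonneg hs hs1
  have e : par.sC = 0 := rfl
  have e' : par.mC = 27 / 20 := rfl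
  unfold slL
  split_ifs with h1 h2
  · rw [e]
    nlinarith
  · exact h
  · rw [e']
    norm_num

end Pool.Agent.Strip051.LC.E0
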