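import Pool.Agent.Strip051.LC.E0.OutC
import Pool.Agent.Strip051.LC.Exact.Gauge

/-! # Small rests: the kernel and the abscissa on all curves -/

namespace Pool.Agent.Strip051.LC.E0

open Pool.Agent.StripNear Pool.Agent.StripSquare Pool.Agent.Strip051 Pool.Agent.Strip051.Sweep

/-- The curve `W` above `h0`. -/
theorem RW_le_up {s T : ℝ} (hs : 0 < s) (hs1 : s ≤ 11 / 400) (h2' : h0 ≤ T)
    (hT3 : T ^ 2 ≤ 3) : |RW par s T| ≤ Wc T + s / 2 := by
  have hh := h0_pos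
  have hT : 0 ≤ T := by linarith
  obtain ⟨o1, o2, o3, o4, o5⟩ := order5 hT hT3
  have oW : c1 T ≤ Wc T := by linarith
  have k0 : 0 ≤ (T - h0) / s := div_nonneg (by linarith) hs.le
  have key : |slU par s ((T - h0) / s) * (Wc T - c1 T)| ≤ Wc T - c1 T := by
    rw [abs_mul, abs_of_nonneg (sub_nonneg.2 oW)]
    have := mul_le_mul_of_nonneg_right (slU_one hs hs1 k0) (sub_nonneg.2 oW)
    linarith
  unfold RW
  rw [if_neg (by linarith), if_neg (by linarith)]
  split_ifs with h3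
  · have a1 := R1_le hs hs1 hT h3.le
    exact (abs_add_le _ _).trans (by linarith)
  · rw [zero_add]
    linarith

/-- The correction below `h0`. -/
theorem slL_small {s T : ℝ} (hs : 0 < s) (hs1 : s ≤ 11 / 400) (hT : h0 / 2 ≤ T) (h2 : T < h0) :
    0 ≤ slL par s ((h0 - T) / s) * (c3 T - Wc T) ∧
      slL par s ((h0 - T) / s) * (c3 T - Wc T) ≤ 2 / 5 := by
  have hh := h0_pos
  have g1 := h0_gt
  have g2 := h0_lt
  have hT0 : 0 ≤ T := by linarith
  have hT3 : T ^ 2 ≤ 3 := by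
    have := pow_le_pow_left₀ hT0 (by linarith : T ≤ 1) 2
    linarith
  obtain ⟨o1, o2, o3, o4, o5⟩ := order5 hT0 hT3
  have oW3 : Wc T ≤ c3 T := by linarith
  have k0 : 0 ≤ (h0 - T) / s := div_nonneg (by linarith) hs.le
  obtain ⟨w1, w2⟩ := W_dn hT0 h2
  have e3 := c3_sq hT3
  have sl0 : 0 ≤ slL par s ((h0 - T) / s) * (c3 T - Wc T) :=
    mul_nonneg (slL_nonneg hs hs1 k0) (sub_nonneg.2 oW3)
  refine ⟨sl0, ?_⟩
  rcases le_or_gt ((h0 - T) / s) 2 with h4 | h4
  · have h5 : h0 - T ≤ 2 * s := by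
      rw [div_le_iff₀ hs] at h4
      exact h4
    have h6 : c3 T - Wc T ≤ 1 / 20 := by
      have k1 : 997 / 1000 ≤ Wc T - 1 / 2 := by nlinarith
      have k2 : c3 T ≤ 154 / 100 := by nlinarith
      linarith
    have h7 := le_trans (le_abs_self _) (slL_bd hs hs1 k0)
    have := mul_le_mul h7 h6 (sub_nonneg.2 oW3) (by norm_num)
    linarith
  · have h6 : c3 T - Wc T ≤ 28 / 100 := by
      have k1 : 9 / 10 ≤ Wc T - 1 / 2 := by nlinarith
      have k2 : c3 T ≤ 168 / 100 := by nlinarith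
      linarith
    have h7 := le_trans (le_abs_self _) (slL_far (s := s) h4)
    have := mul_le_mul h7 h6 (sub_nonneg.2 oW3) (by norm_num)
    linarith

/-- The circle of radius `√3` below `h0` in the rotated coordinates. -/
theorem low_rot {T : ℝ} (hT : h0 / 2 ≤ T) (h2 : T < h0) : ∃ C y : ℝ, 0 ≤ y ∧ y ≤ 3 / 10 ∧
    95 / 100 ≤ C ∧ C ^ 2 + y ^ 2 = 1 ∧ h0 - T = h0 * (1 - C) + 3 / 2 * y ∧
    ∀ s, R3 par s T = RA par s y * (3 / 2 + h0 * y / (1 + C)) := by
  have hh := h0_pos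
  have g1 := h0_gt
  have g2 := h0_lt
  have hT0 : 0 ≤ T := by linarith
  have hT3 : T ^ 2 ≤ 3 := by
    have := pow_le_pow_left₀ hT0 (by linarith : T ≤ 1) 2
    linarith
  have e3 := c3_sq hT3
  have c0 := c3_nonneg T
  have hq := h0_sq'
  obtain ⟨r1, r2, rT⟩ := c3_rot hT3
  have cc : 3 / 2 ≤ c3 T := by nlinarith
  have cu : c3 T ≤ 17 / 10 := by nlinarith
  have x1 : T / 2 - c3 T / (4 * h0) ≤ 0 := by
    rw [quot4]
    nlinarith
  have x2 : -(3 / 10) ≤ T / 2 - c3 T / (4 * h0) := by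
    rw [quot4]
    nlinarith
  have C0 : 0 ≤ c3 T / 2 + T / (4 * h0) := by positivity
  have eR : ∀ s, R3 par s T = RA par s |T / 2 - c3 T / (4 * h0)| *
      (3 / 2 - h0 * (T / 2 - c3 T / (4 * h0)) / (1 + (c3 T / 2 + T / (4 * h0)))) := fun s => by
    unfold R3
    rw [if_neg (by linarith), if_pos (by linarith)]
  generalize T / 2 - c3 T / (4 * h0) = x at r1 r2 rT x1 x2 eR
  generalize c3 T / 2 + T / (4 * h0) = C at r1 r2 rT C0 eR
  refine ⟨C, -x, by linarith, by linarith, ?_, by rw [neg_sq]; exact r1, ?_, fun s => ?_⟩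
  · clear eR e3 hq
    nlinarith
  · rw [rT]
    ring
  · rw [eR, abs_of_nonpos x1]
    ring

/-- On the circle of radius `√3` the kernel is at most the abscissa of `W`. -/
theorem R3_le_W {s T : ℝ} (hs : 0 < s) (hs1 : s ≤ 11 / 400) (hT : h0 / 2 ≤ T) (h2 : T < h0) :
    0 ≤ R3 par s T ∧ R3 par s T ≤ Wc T + s / 2 := by
  obtain ⟨b1, b2⟩ := h0_bd
  have hh := h0_pos
  obtain ⟨C, y, y0, y3, C5, r1, rT, eR⟩ := low_rot hT h2
  obtain ⟨w1, w2⟩ := W_dn (by linarith : 0 ≤ T) h2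
  obtain ⟨k1, k2, k3, k4⟩ := half_bd (by linarith) y0 r1
  have A0 := RA_nonneg hs y0 (by linarith)
  have v4 : h0 * y / (1 + C) ≤ 445 / 1000 * y := by
    rw [div_le_iff₀ (by linarith)]
    have u1 := mul_nonneg y0 (by linarith : 0 ≤ 86603 / 100000 - h0)
    have u2 := mul_nonneg y0 (by linarith : 0 ≤ C - 95 / 100)
    linarith
  rw [eR]
  set P := h0 * y / (1 + C) with hP
  have P0 : 0 ≤ P := by linarith
  refine ⟨mul_nonneg A0 (by linarith), ?_⟩
  have d1 : h0 - T ≤ 165 / 100 * y := by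
    rw [rT]
    have u1 : 1 - C ≤ 536 / 1000 * y ^ 2 := by linarith
    have u2 := mul_le_mul b2.le u1 (by linarith) (by norm_num)
    have u3 := mul_nonneg y0 (by linarith : 0 ≤ 3 / 10 - y)
    linarith
  have W1 : 3 / 2 - 144 / 100 * y ^ 2 ≤ Wc T := by
    have u1 : 0 ≤ h0 - T := by linarith
    have u2 : (h0 - T) ^ 2 ≤ (165 / 100 * y) ^ 2 := pow_le_pow_left₀ u1 d1 2
    have u0 : (h0 - T) ^ 2 ≤ (434 / 1000) ^ 2 := pow_le_pow_left₀ u1 (by linarith) 2
    have u3 : 9 / 10 ≤ Wc T - 1 / 2 := by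
      refine le_of_sq2 w2 ?_
      linarith
    have u4 : (1 - (Wc T - 1 / 2)) * (19 / 10) ≤ (h0 - T) ^ 2 := by
      have e : (1 - (Wc T - 1 / 2)) * (1 + (Wc T - 1 / 2)) = (h0 - T) ^ 2 := by
        linear_combination -w1
      rw [← e]
      have u5 : Wc T - 1 / 2 ≤ 1 := by
        refine le_of_sq2 zero_le_one ?_
        have := sq_nonneg (h0 - T)
        linarith
      exact mul_le_mul_of_nonneg_left (by linarith) (by linarith)
    have := sq_nonneg y
    linarith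
  rcases le_or_gt (4 * s) y with h3 | h3
  · rw [RA_eq hs h3]
    have := mul_nonneg y0 P0
    have := mul_nonneg y0 (by linarith : 0 ≤ 3 / 10 - y)
    linarith
  · have v1 := mul_le_mul_of_nonneg_right (RA_le2 hs y0) (by linarith : 0 ≤ 3 / 2 + P)
    have v2 := mul_nonneg y0 (by linarith : 0 ≤ P - 433 / 1000 * y)
    have v3 := mul_nonneg y0 (by linarith : 0 ≤ 11 / 100 - y)
    linarith

/-- The curve `W` below `h0`. -/
theorem RW_le_dn {s T : ℝ} (hs : 0 < s) (hs1 : s ≤ 11 / 400) (hT : 0 ≤ T) (h2 : T < h0) :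
    |RW par s T| ≤ Wc T + s / 2 ∧ |RW par s T| + Wc T ≤ 3 + 5 / 4 * s := by
  have hh := h0_pos
  have g1 := h0_gt
  have g2 := h0_lt
  have hT3 : T ^ 2 ≤ 3 := by
    have := pow_le_pow_left₀ hT (by linarith : T ≤ 1) 2
    linarith
  obtain ⟨o1, o2, o3, o4, o5⟩ := order5 hT hT3
  have oW3 : Wc T ≤ c3 T := by linarith
  obtain ⟨w1, w2⟩ := W_dn hT h2
  have w3 : Wc T - 1 / 2 ≤ 1 := by
    refine le_of_sq2 zero_le_one ?_
    have := sq_nonneg (h0 - T)
    linarith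
  have w4 : 1 / 2 ≤ Wc T - 1 / 2 := by
    refine le_of_sq2 w2 ?_
    have := pow_le_pow_left₀ (by linarith : 0 ≤ h0 - T) (by linarith : h0 - T ≤ h0) 2
    have := h0_sq'
    linarith
  unfold RW
  split_ifs with h1
  · have := RA_abs hs hT (by linarith)
    constructor <;> linarith
  · rw [not_lt] at h1
    obtain ⟨r3, r3'⟩ := R3_le hs hs1 hT hT3
    obtain ⟨l0, l1⟩ := slL_small hs hs1 h1 h2
    obtain ⟨q0, q1⟩ := R3_le_W hs hs1 h1 h2
    rw [abs_of_nonneg q0] at r3 r3'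
    constructor
    · rw [abs_le]
      constructor <;> linarith
    · rcases abs_cases (R3 par s T - slL par s ((h0 - T) / s) * (c3 T - Wc T)) with
        ⟨h, -⟩ | ⟨h, -⟩ <;> rw [h] <;> linarith

end Pool.Agent.Strip051.LC.E0
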