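import Pool.Agent.Strip051.LC.E0.OutD
import Pool.Agent.Strip051.LC.Exact.WallLink

/-! # Small rests: the trivial criterion

The sum of the kernels on the three sides of an admissible triangle is at most `3 + 9 s / 4`:
every triangle whose excess is not small is good at both vertices. -/

namespace Pool.Agent.Strip051.LC.E0

open Pool.Agent.StripNear Pool.Agent.StripSquare Pool.Agent.Strip051 Pool.Agent.Strip051.Sweep
open Pool.Agent.Strip051.LC.Exact (kE)

/-- A bound of a table by the abscissa. -/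
structure Bnd (v : ℝ → Fin 4 → ℝ) (T β a b γ : ℝ) : Prop where
  one : ∀ j, |v T j| ≤ β * (K.cv j T + a) + γ
  sum : ∀ j, |v T j| + β * K.cv j T ≤ β * b + γ

theorem ker_bnd {v : ℝ → Fin 4 → ℝ} (hv : K.adm v) {X T β a b γ : ℝ} (hT : 0 ≤ T)
    (h1 : 1 ≤ X ^ 2 + T ^ 2) (h3 : X ^ 2 + T ^ 2 ≤ 3) (hB : Bnd v T β a b γ) :
    |ker K.nodes v (fun _ _ => 0) X T| ≤ β * (|X| + a) + γ ∧
      |ker K.nodes v (fun _ _ => 0) X T| + β * |X| ≤ β * b + γ := by
  have hT3 : T ^ 2 ≤ 3 := by nlinarith [sq_nonneg X]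
  have key : ∀ σ : ℝ, (σ = 1 ∨ σ = -1) → |X| = σ * X → (∃ i : Fin 3,
      K.cv i.castSucc T ≤ σ * X ∧ σ * X ≤ K.cv i.succ T) →
      |ker K.nodes v (fun _ _ => 0) X T| ≤ β * (|X| + a) + γ ∧
      |ker K.nodes v (fun _ _ => 0) X T| + β * |X| ≤ β * b + γ := by
    rintro σ hσ eX ⟨i, g1, g2⟩
    have e := K.ker_lin hv hσ hT hT3 g1 g2
    have ea : |ker K.nodes v (fun _ _ => 0) X T| = |K.lin v i (σ * X) T| := by
      rw [e, abs_mul]
      rcases hσ with rfl | rfl <;> simp
    rw [ea, eX]
    generalize σ * X = Y at g1 g2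
    unfold Cur.lin
    have o0 := hB.one i.castSucc
    have o1 := hB.one i.succ
    have s0 := hB.sum i.castSucc
    have s1 := hB.sum i.succ
    change |v T i.castSucc + (v T i.succ - v T i.castSucc) * _| ≤ _ ∧
      |v T i.castSucc + (v T i.succ - v T i.castSucc) * _| + _ ≤ _
    generalize v T i.castSucc = p0 at *
    generalize v T i.succ = p1 at *
    generalize K.cv i.castSucc T = q0 at *
    generalize K.cv i.succ T = q1 at *
    have hl : ∃ l : ℝ, 0 ≤ l ∧ l ≤ 1 ∧ (Y - q0) / (q1 - q0) = l ∧ Y = (1 - l) * q0 + l * q1 := by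
      rcases (g1.trans g2).eq_or_lt with h | h
      · exact ⟨0, le_rfl, zero_le_one, by rw [h, sub_self, div_zero], by linarith⟩
      · have : 0 < q1 - q0 := by linarith
        refine ⟨(Y - q0) / (q1 - q0), div_nonneg (by linarith) this.le, ?_, rfl, ?_⟩
        · rw [div_le_one this]
          linarith
        · field_simp
          ring
    obtain ⟨l, l0, l1, el, eY⟩ := hl
    rw [el]
    have h5 : |p0 + (p1 - p0) * l| ≤ (1 - l) * |p0| + l * |p1| := by
      rw [show p0 + (p1 - p0) * l = (1 - l) * p0 + l * p1 by ring]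
      refine (abs_add_le _ _).trans ?_
      rw [abs_mul, abs_mul, abs_of_nonneg l0, abs_of_nonneg (by linarith : 0 ≤ 1 - l)]
    have h6 := mul_le_mul_of_nonneg_left o0 (by linarith : 0 ≤ 1 - l)
    have h7 := mul_le_mul_of_nonneg_left o1 l0
    have h8 := mul_le_mul_of_nonneg_left s0 (by linarith : 0 ≤ 1 - l)
    have h9 := mul_le_mul_of_nonneg_left s1 l0
    rw [eY]
    constructor <;> linarith
  rcases le_total 0 X with hX | hX
  · exact key 1 (Or.inl rfl) (by rw [abs_of_nonneg hX, one_mul]) (K.seg_pos hT hX h1 h3)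
  · exact key (-1) (Or.inr rfl) (by rw [abs_of_nonpos hX, neg_one_mul]) (K.seg_neg hT hX h1 h3)

/-- The sum of the three values. -/
theorem sum_bnd {X12 X13 r12 r23 r13 β a b γ : ℝ}
    (h12 : |r12| ≤ β * (|X12| + a) + γ ∧ |r12| + β * |X12| ≤ β * b + γ)
    (h23 : |r23| ≤ β * (|X13 - X12| + a) + γ ∧ |r23| + β * |X13 - X12| ≤ β * b + γ)
    (h13 : |r13| ≤ β * (|X13| + a) + γ ∧ |r13| + β * |X13| ≤ β * b + γ) :
    |r12| + |r23| + |r13| ≤ β * (b + 2 * a) + 3 * γ := by
  obtain ⟨a1, a2⟩ := h12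
  obtain ⟨b1, b2⟩ := h23
  obtain ⟨c1', c2⟩ := h13
  have cases : |X13| = |X12| + |X13 - X12| ∨ |X12| = |X13| + |X13 - X12| ∨
      |X13 - X12| = |X12| + |X13| := by
    rcases abs_cases X13 with ⟨h1, h1'⟩ | ⟨h1, h1'⟩ <;>
    rcases abs_cases X12 with ⟨h2, h2'⟩ | ⟨h2, h2'⟩ <;>
    rcases abs_cases (X13 - X12) with ⟨h3, h3'⟩ | ⟨h3, h3'⟩ <;> rw [h1, h2, h3]
    · left; ring
    · right; left; ring
    · right; right; ring
    · exfalso; linarith
    · exfalso; linarith
    · right; right; ring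
    · right; left; ring
    · left; ring
  rcases cases with h | h | h
  · rw [h] at c2
    linarith
  · rw [h] at a2
    linarith
  · rw [h] at b2
    linarith

/-! ### The table of the far vertex -/

theorem W_le_half {T : ℝ} (h : h0 ≤ T) (hT3 : T ^ 2 ≤ 3) : Wc T ≤ 1 / 2 := by
  obtain ⟨w1, w2⟩ := W_up h hT3
  have : Wc T + 1 / 2 ≤ 1 := by
    refine le_of_sq2 zero_le_one ?_
    have := sq_nonneg (T - h0)
    linarith
  linarith

theorem bnd_vA {s T : ℝ} (hs : 0 < s) (hs1 : s ≤ 11 / 400) (hT : 0 ≤ T) (hT3 : T ^ 2 ≤ 3) :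
    Bnd (vA par s) T 1 (s / 2) (3 + 5 / 4 * s) 0 := by
  have hh := h0_pos
  have g1 := h0_gt
  have g2 := h0_lt
  obtain ⟨o1, o2, o3, o4, o5⟩ := order5 hT hT3
  have oW : c1 T ≤ Wc T := by linarith
  have oW3 : Wc T ≤ c3 T := by linarith
  have c0 := c1_nonneg T
  have e3 := c3_sq hT3
  have c11 : c1 T ≤ 1 := by
    rcases le_or_gt T 1 with h | h
    · refine le_of_sq2 zero_le_one ?_
      have := c1_sq hT h
      have := sq_nonneg T
      linarith
    · rw [c1_zero h.le]
      exact zero_le_one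
  obtain ⟨r3, r3'⟩ := R3_le hs hs1 hT hT3
  have q1 : T < 1 → |R1 par s T| ≤ c1 T + s / 2 := fun h => R1_le hs hs1 hT h.le
  have q2 : T < h0 → |RW par s T| ≤ Wc T + s / 2 ∧ |RW par s T| + Wc T ≤ 3 + 5 / 4 * s :=
    fun h => RW_le_dn hs hs1 hT h
  have q3 : h0 ≤ T → |RW par s T| ≤ Wc T + s / 2 ∧ Wc T ≤ 1 / 2 ∧ c3 T ≤ 3 / 2 := fun h =>
    ⟨RW_le_up hs hs1 h hT3, W_le_half h hT3, by
      refine le_of_sq2 (by norm_num) ?_
      have := pow_le_pow_left₀ hh.le h 2
      have := h0_sq'
      linarith⟩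
  have w1 : T < h0 → Wc T ≤ 3 / 2 := fun h => by
    obtain ⟨u1, u2⟩ := W_dn hT h
    have : Wc T - 1 / 2 ≤ 1 := by
      refine le_of_sq2 zero_le_one ?_
      have := sq_nonneg (h0 - T)
      linarith
    linarith
  have both : ∀ j, |vA par s T j| ≤ K.cv j T + s / 2 ∧
      |vA par s T j| + K.cv j T ≤ 3 + 5 / 4 * s := by
    intro j
    change |vA par s T j| ≤ pos.cv j T + s / 2 ∧ |vA par s T j| + pos.cv j T ≤ 3 + 5 / 4 * s
    fin_cases j
    · simp only [vA, Fin.zero_eta, Matrix.cons_val_zero]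
      rw [cv_zero]
      split_ifs with h
      · have := q1 h
        constructor <;> linarith
      · rw [abs_zero]
        constructor <;> linarith
    · simp only [vA, Fin.mk_one, Matrix.cons_val_one, Matrix.cons_val_zero]
      split_ifs with h1 h2 h3
      · have h4 := q1 (by linarith)
        unfold R1 at h4
        rw [if_pos h1] at h4
        rw [cv_one_low (by linarith)]
        have := w1 (by linarith)
        constructor <;> linarith
      · have h4 := q1 (by linarith)
        have := w1 h2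
        rw [cv_one_low h2]
        have e : par.l2 = 353 / 500 := rfl
        have h5 : |R1 par s T + par.l2 * (1 / 3 * (Wc T - c1 T))| ≤
            c1 T + s / 2 + 353 / 500 * (1 / 3 * (Wc T - c1 T)) := by
          refine (abs_add_le _ _).trans ?_
          rw [e, abs_of_nonneg (by linarith : 0 ≤ 353 / 500 * (1 / 3 * (Wc T - c1 T)))]
          linarith
        constructor <;> linarith
      · rw [not_lt] at h2
        obtain ⟨u1, u2, u3⟩ := q3 h2
        rw [cv_one_high h2]
        constructor <;> linarith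
      · rw [not_lt] at h2
        obtain ⟨u1, u2, u3⟩ := q3 h2
        rw [cv_one_high h2, abs_of_nonneg (by linarith : 0 ≤ Wc T / 2)]
        constructor <;> linarith
    · simp only [vA, Fin.reduceFinMk, Matrix.cons_val]
      split_ifs with h1 h2
      · obtain ⟨u1, u2⟩ := q2 h1
        rw [cv_two_low h1]
        constructor <;> linarith
      · rw [not_lt] at h1
        obtain ⟨u1, u2, u3⟩ := q3 h1
        rw [cv_two_high h1]
        have e : par.l1 = 353 / 500 := rfl
        have h5 : |RW par s T + par.l1 * (3 / 20 * (c3 T - Wc T))| ≤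
            Wc T + s / 2 + 353 / 500 * (3 / 20 * (c3 T - Wc T)) := by
          refine (abs_add_le _ _).trans ?_
          rw [e, abs_of_nonneg (by linarith : 0 ≤ 353 / 500 * (3 / 20 * (c3 T - Wc T)))]
          linarith
        constructor <;> linarith
      · rw [not_lt] at h1
        obtain ⟨u1, u2, u3⟩ := q3 h1
        rw [cv_two_high h1,
          abs_of_nonneg (by linarith : 0 ≤ (Wc T + 3 / 20 * (c3 T - Wc T)) / 2)]
        constructor <;> linarith
    · simp only [vA, Fin.reduceFinMk, Matrix.cons_val]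
      rw [cv_three]
      constructor <;> linarith
  exact ⟨fun j => by linarith [(both j).1], fun j => by linarith [(both j).2]⟩

end Pool.Agent.Strip051.LC.E0
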