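import Pool.Agent.Strip051.LC.E0.OutG

/-! # Small rests: chords of the node curves and bounds at the inner nodes -/

namespace Pool.Agent.Strip051.LC.E0

open Pool.Agent.StripNear Pool.Agent.StripSquare Pool.Agent.Strip051 Pool.Agent.Strip051.Sweep

/-- Square roots of `1 - x ^ 2` lie above their chords. -/
theorem chord_aux {a b x A B C : ℝ} (hC : 0 ≤ C)
    (eA : A ^ 2 + a ^ 2 = 1) (eB : B ^ 2 + b ^ 2 = 1) (eC : C ^ 2 + x ^ 2 = 1) (h1 : a ≤ x)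
    (h2 : x ≤ b) : A * (b - x) + B * (x - a) ≤ C * (b - a) := by
  refine le_of_sq2 (mul_nonneg hC (by linarith)) ?_
  have h3 : 0 ≤ (b - x) * (x - a) := mul_nonneg (by linarith) (by linarith)
  have h4 : 2 * (A * B) ≤ 2 - 2 * (a * b) := by
    nlinarith [sq_nonneg (A - B), sq_nonneg (a - b)]
  have h5 := mul_le_mul_of_nonneg_left h4 h3
  have e1 : (A * (b - x) + B * (x - a)) ^ 2 = (1 - a ^ 2) * (b - x) ^ 2 +
      (1 - b ^ 2) * (x - a) ^ 2 + (b - x) * (x - a) * (2 * (A * B)) := by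
    linear_combination (b - x) ^ 2 * eA + (x - a) ^ 2 * eB
  have e2 : (C * (b - a)) ^ 2 = (1 - x ^ 2) * (b - a) ^ 2 := by
    linear_combination (b - a) ^ 2 * eC
  rw [e1, e2]
  nlinarith

/-- The unit circle lies above its chords. -/
theorem c1_chord {a b x : ℝ} (ha : 0 ≤ a) (h1 : a ≤ x) (h2 : x ≤ b) (hb : b ≤ 1) :
    c1 a * (b - x) + c1 b * (x - a) ≤ c1 x * (b - a) :=
  chord_aux (c1_nonneg x) (c1_sq ha (by linarith))
    (c1_sq (by linarith) hb) (c1_sq (by linarith) (by linarith)) h1 h2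

/-- The unit circle is decreasing. -/
theorem c1_anti {a b : ℝ} (ha : 0 ≤ a) (h : a ≤ b) (hb : b ≤ 1) : c1 b ≤ c1 a := by
  refine le_of_sq2 (c1_nonneg a) ?_
  have e1 := c1_sq ha (by linarith)
  have e2 := c1_sq (by linarith) hb
  have := pow_le_pow_left₀ ha h 2
  linarith

/-- The circle of radius `√3` is decreasing. -/
theorem c3_anti {a b : ℝ} (ha : 0 ≤ a) (h : a ≤ b) (hb : b ^ 2 ≤ 3) : c3 b ≤ c3 a := by
  have h1 := pow_le_pow_left₀ ha h 2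
  refine le_of_sq2 (c3_nonneg a) ?_
  have e1 := c3_sq (by linarith : a ^ 2 ≤ 3)
  have e2 := c3_sq hb
  linarith

/-! ### Values at `h0` -/

theorem c1_h0 : c1 h0 = 1 / 2 := by
  have e := c1_sq h0_pos.le h0_lt_one.le
  have h := h0_sq'
  have c := c1_nonneg h0
  nlinarith

theorem c3_h0 : c3 h0 = 3 / 2 := by
  have h := h0_sq'
  have e := c3_sq (by linarith : h0 ^ 2 ≤ 3)
  have c := c3_nonneg h0
  nlinarith

/-- Below `h0` the unit circle is at least `1 / 2`, above at most. -/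
theorem c1_half {T : ℝ} (hT : 0 ≤ T) (h1 : T ≤ 1) :
    (T ≤ h0 → 1 / 2 ≤ c1 T) ∧ (h0 ≤ T → c1 T ≤ 1 / 2) :=
  ⟨fun h => by rw [← c1_h0]; exact c1_anti hT h h0_lt_one.le,
    fun h => by rw [← c1_h0]; exact c1_anti h0_pos.le h h1⟩

theorem c3_half {T : ℝ} (hT : 0 ≤ T) (h1 : T ^ 2 ≤ 3) :
    (T ≤ h0 → 3 / 2 ≤ c3 T) ∧ (h0 ≤ T → c3 T ≤ 3 / 2) :=
  ⟨fun h => by rw [← c3_h0]; exact c3_anti hT h (by linarith [h0_sq']),
    fun h => by rw [← c3_h0]; exact c3_anti h0_pos.le h h1⟩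

/-- The curve `W` below `h0`. -/
theorem low_bd {T : ℝ} (hT : 0 ≤ T) (h1 : T < h0) :
    1 + T / 2 ≤ Wc T ∧ Wc T ≤ 3 / 2 ∧ Wc T ≤ 1 + 2 * h0 * T ∧ 3 / 2 - (h0 - T) ^ 2 ≤ Wc T := by
  obtain ⟨C, C0, eC, eW, -, -⟩ := low_sq hT h1
  have hq := h0_sq'
  have hh := h0_pos
  have g1 := h0_gt
  rw [eW]
  refine ⟨?_, ?_, ?_, ?_⟩
  · have : 1 / 2 + T / 2 ≤ C := by
      refine le_of_sq2 C0 ?_
      nlinarith
    linarith
  · have : C ≤ 1 := by
      refine le_of_sq2 zero_le_one ?_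
      nlinarith
    linarith
  · have : C ≤ 1 / 2 + 2 * h0 * T := by
      refine le_of_sq2 (by positivity) ?_
      have e1 : C ^ 2 = 1 / 4 + 2 * h0 * T - T ^ 2 := by linear_combination eC - hq
      have e2 : (1 / 2 + 2 * h0 * T) ^ 2 = 1 / 4 + 2 * h0 * T + 3 * T ^ 2 := by
        linear_combination 4 * T ^ 2 * hq
      rw [e1, e2]
      have := sq_nonneg T
      linarith
    linarith
  · have : 1 - (h0 - T) ^ 2 ≤ C := by
      have : C ≤ 1 := by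
        refine le_of_sq2 zero_le_one ?_
        nlinarith
      nlinarith
    linarith

/-- The curve `W` near the horizontal direction. -/
theorem low_near {T : ℝ} (hT : 0 ≤ T) (h1 : T ≤ 7 / 50) : 1 + 13 / 10 * T ≤ Wc T := by
  obtain ⟨b1, b2⟩ := h0_bd
  obtain ⟨C, C0, eC, eW, -, -⟩ := low_sq hT (by linarith)
  have hq := h0_sq'
  have : 1 / 2 + 13 / 10 * T ≤ C := by
    refine le_of_sq2 C0 ?_
    have e1 : C ^ 2 = 1 / 4 + 2 * h0 * T - T ^ 2 := by linear_combination eC - hq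
    have e2 := mul_nonneg hT (by linarith : 0 ≤ h0 - 86602 / 100000)
    have e3 := mul_nonneg hT (by linarith : 0 ≤ 7 / 50 - T)
    rw [e1]
    linarith
  linarith

/-- The curve `W` above `h0`. -/
theorem upp_bd {T : ℝ} (h1 : h0 ≤ T) (h3 : T ^ 2 ≤ 3) :
    0 ≤ Wc T ∧ Wc T ≤ 1 / 2 ∧ 1 / 2 - (T - h0) ^ 2 ≤ Wc T := by
  have hh := h0_pos
  have hT : 0 ≤ T := by linarith
  obtain ⟨C, C0, eC, eW, -, -⟩ := upp_sq h1 h3
  obtain ⟨o1, o2, o3, o4, o5⟩ := order5 hT h3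
  have : C ≤ 1 := by
    refine le_of_sq2 zero_le_one ?_
    nlinarith
  refine ⟨by linarith, by linarith, ?_⟩
  rw [eW]
  nlinarith

/-- The outer inner node next to `h0`. -/
theorem nb_near {x T : ℝ} (h : NB x T) (h4 : T ≤ 11 / 10) :
    13 / 20 - 21 / 200 * (T - h0) - 9 / 20 * (T - h0) ^ 2 ≤ x := by
  obtain ⟨rfl, h1, h3⟩ := h
  have hq := h0_sq'
  obtain ⟨b1, b2⟩ := h0_bd
  obtain ⟨C, C0, eC, eW, -, -⟩ := upp_sq h1 h3
  have e3 := c3_sq h3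
  have c0 := c3_nonneg T
  obtain ⟨δ, rfl⟩ : ∃ δ, T = h0 + δ := ⟨T - h0, by ring⟩
  rw [add_sub_cancel_left] at *
  have d0 : 0 ≤ δ := by linarith
  have d1 : δ ≤ 234 / 1000 := by linarith
  have d2 := mul_nonneg d0 (by linarith : 0 ≤ 234 / 1000 - δ)
  have k1 : 3 / 2 - 7 / 10 * δ ≤ c3 (h0 + δ) := by
    refine le_of_sq2 c0 ?_
    have e : c3 (h0 + δ) ^ 2 = 9 / 4 - 2 * h0 * δ - δ ^ 2 := by linear_combination e3 - hq
    rw [e]
    have := mul_nonneg d0 (by linarith : 0 ≤ 86603 / 100000 - h0)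
    linarith
  have k2 : 1 - 52 / 100 * δ ^ 2 ≤ C := by
    refine le_of_sq2 C0 ?_
    have u1 : δ ^ 2 ≤ 55 / 1000 := by linarith
    have u2 := mul_nonneg (sq_nonneg δ) (by linarith : 0 ≤ 55 / 1000 - δ ^ 2)
    nlinarith
  rw [eW]
  nlinarith [sq_nonneg δ]

/-- The outer inner node. -/
theorem nb_bd {x T : ℝ} (h : NB x T) :
    0 ≤ x ∧ Wc T ≤ x ∧ x ≤ c3 T ∧ x ≤ 13 / 20 ∧ 117 / 100 ≤ x ^ 2 + T ^ 2 ∧
      x ^ 2 + T ^ 2 ≤ 3 := by
  have hn := h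
  obtain ⟨rfl, h1, h3⟩ := h
  have hh := h0_pos
  have hq := h0_sq'
  obtain ⟨b1, b2⟩ := h0_bd
  have hT : 0 ≤ T := by linarith
  obtain ⟨u1, u2, u3⟩ := upp_bd h1 h3
  have c0 := c3_nonneg T
  have c2 := (c3_half hT h3).2 h1
  have e3 := c3_sq h3
  obtain ⟨o1, o2, o3, o4, o5⟩ := order5 hT h3
  have oW3 : Wc T ≤ c3 T := by linarith
  have x0 : 0 ≤ Wc T + 3 / 20 * (c3 T - Wc T) := by linarith
  have x3 : Wc T + 3 / 20 * (c3 T - Wc T) ≤ c3 T := by linarith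
  refine ⟨x0, by linarith, x3, by linarith, ?_, ?_⟩
  · rcases le_or_gt T (11 / 10) with h4 | h4
    · have k := nb_near hn h4
      obtain ⟨δ, rfl⟩ : ∃ δ, T = h0 + δ := ⟨T - h0, by ring⟩
      rw [add_sub_cancel_left] at k
      have d0 : 0 ≤ δ := by linarith
      have d1 : δ ≤ 234 / 1000 := by linarith
      have d2 := mul_nonneg d0 (by linarith : 0 ≤ 234 / 1000 - δ)
      have k1 : 0 ≤ 13 / 20 - 21 / 200 * δ - 9 / 20 * δ ^ 2 := by linarith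
      have k2 := pow_le_pow_left₀ k1 k 2
      have k3 : 4225 / 10000 - 14 / 100 * δ - 6 / 10 * δ ^ 2 ≤
          (13 / 20 - 21 / 200 * δ - 9 / 20 * δ ^ 2) ^ 2 := by
        nlinarith [sq_nonneg (21 / 200 * δ + 9 / 20 * δ ^ 2)]
      have k4 := mul_nonneg d0 (by linarith : 0 ≤ h0 - 86602 / 100000)
      nlinarith
    · have := sq_nonneg (Wc T + 3 / 20 * (c3 T - Wc T))
      nlinarith
  · have := pow_le_pow_left₀ x0 x3 2
    linarith

end Pool.Agent.Strip051.LC.E0
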