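import Pool.Agent.Strip051.LC.E0.OutH

/-! # Small rests: the unit circle above the height `h0`

The height `T` in terms of the tangent `u` of half the angle to the direction of `60` degrees, and
the affine form of the kernel between the unit circle and `W`: there it is
`Gu T - 2 (T - h0) + (4 h0 - 3) X` with a nearly constant function `Gu`. -/

namespace Pool.Agent.Strip051.LC.E0.Out

open Pool.Agent.StripNear Pool.Agent.StripSquare Pool.Agent.Strip051 Pool.Agent.Strip051.Sweep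

/-- The tangent of half the angle to the direction of `60` degrees. -/
noncomputable def tu (T : ℝ) : ℝ := (T / 2 - h0 * c1 T) / (1 + (c1 T / 2 + h0 * T))

/-- The constant of the affine form. -/
noncomputable def Gu (T : ℝ) : ℝ := 1 / 2 - h0 * tu T - (4 * h0 - 3) * c1 T

/-- The facts about `tu` on `[h0, 1]`. -/
structure TU (T u C x : ℝ) : Prop where
  u0 : 0 ≤ u
  u1 : u ≤ 2 - 2 * h0
  x0 : 0 ≤ x
  x1 : x ≤ 1 / 2
  C0 : h0 ≤ C
  C1 : C ≤ 1
  ux : u * (1 + C) = x
  xu : x * u = 1 - C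
  eT : T = x / 2 + h0 * C
  ec : c1 T = C / 2 - h0 * x
  sq : C ^ 2 + x ^ 2 = 1

theorem tu_facts {T : ℝ} (h : h0 ≤ T) (h1 : T ≤ 1) :
    TU T (tu T) (c1 T / 2 + h0 * T) (T / 2 - h0 * c1 T) := by
  have hh := h0_pos
  have hq := h0_sq'
  have g1 := h0_gt
  have g2 := h0_lt
  have hT : 0 ≤ T := by linarith
  obtain ⟨r1, r2⟩ := c1_rot hT h1
  have c0 := c1_nonneg T
  have e := c1_sq hT h1
  have cl : c1 T ≤ 1 / 2 := by
    refine le_of_sq2 (by norm_num) ?_
    have := pow_le_pow_left₀ hh.le h 2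
    linarith
  have x0 : 0 ≤ T / 2 - h0 * c1 T := by nlinarith
  have x1 : T / 2 - h0 * c1 T ≤ 1 / 2 := by nlinarith
  have C0 : 0 ≤ c1 T / 2 + h0 * T := by positivity
  have eT : T = (T / 2 - h0 * c1 T) / 2 + h0 * (c1 T / 2 + h0 * T) := by
    linear_combination (-T) * hq
  unfold tu
  generalize T / 2 - h0 * c1 T = x at *
  generalize c1 T / 2 + h0 * T = C at *
  have hC : h0 ≤ C := by
    refine le_of_sq2 C0 ?_
    nlinarith
  have C1 : C ≤ 1 := by nlinarith
  have ne : (1 + C) ≠ 0 := by linarith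
  have e1 : x / (1 + C) * (1 + C) = x := div_mul_cancel₀ _ ne
  have e2 : x * (x / (1 + C)) = 1 - C := by
    field_simp
    linear_combination r1
  refine ⟨div_nonneg x0 (by linarith), ?_, x0, x1, hC, C1, e1, e2, eT, r2, r1⟩
  rw [div_le_iff₀ (by linarith)]
  nlinarith

/-- The kernel on the unit circle. -/
theorem R1_up {s T : ℝ} (hs : 0 < s) (h : h0 ≤ T) (h1 : T ≤ 1)
    (hx : 4 * s ≤ T / 2 - h0 * c1 T) :
    R1 par s T + 2 * (T - h0) = 1 / 2 - h0 * tu T := by
  have g1 := h0_gt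
  have hq := h0_sq'
  have F := tu_facts h h1
  have e : R1 par s T = (1 - 2 * (T / 2 - h0 * c1 T)) * (1 / 2 - h0 * tu T) := by
    unfold R1
    rw [if_neg (by linarith), if_neg (by linarith), abs_of_nonneg F.x0, RA_eq hs hx]
    unfold tu
    ring
  rw [e]
  have e1 := F.xu
  have e2 := F.eT
  generalize tu T = u at *
  generalize T / 2 - h0 * c1 T = x at *
  generalize c1 T / 2 + h0 * T = C at *
  rw [e2]
  linear_combination 2 * h0 * e1

/-- The distance of `T` to `1`. -/
theorem one_sub {T : ℝ} (h : h0 ≤ T) (h1 : T ≤ 1) :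
    1 - T = (1 + h0) * (2 - 2 * h0 - tu T) ^ 2 / (1 + tu T ^ 2) := by
  have hq := h0_sq'
  have F := tu_facts h h1
  have e0 := F.ux
  have e1 := F.xu
  have e2 := F.eT
  generalize tu T = u at *
  generalize T / 2 - h0 * c1 T = x at *
  generalize c1 T / 2 + h0 * T = C at *
  rw [eq_div_iff (by positivity), e2]
  have eC : C * (1 + u ^ 2) = 1 - u ^ 2 := by
    linear_combination u * e0 + e1
  have ex : x * (1 + u ^ 2) = 2 * u := by
    have : x = u * (1 + C) := e0.symm
    rw [this]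
    linear_combination u * eC
  linear_combination (-1 / 2) * ex - h0 * eC + (4 * (1 - h0) - 4 * u) * hq

theorem Gu_eq {T : ℝ} (h : h0 ≤ T) (h1 : T ≤ 1) :
    Gu T = 2 - 2 * h0 - (4 * h0 - 3) * (tu T * (1 - T)) := by
  have hq := h0_sq'
  have F := tu_facts h h1
  have e0 := F.ux
  have e1 := F.xu
  have e2 := F.eT
  have e3 := F.ec
  unfold Gu
  generalize tu T = u at *
  generalize T / 2 - h0 * c1 T = x at *
  generalize c1 T / 2 + h0 * T = C at *
  have eC : C * (1 + u ^ 2) = 1 - u ^ 2 := by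
    linear_combination u * e0 + e1
  have ex : x * (1 + u ^ 2) = 2 * u := by
    have : x = u * (1 + C) := e0.symm
    rw [this]
    linear_combination u * eC
  have ne : (1 + u ^ 2) ≠ 0 := by positivity
  rw [e3, e2]
  refine mul_right_cancel₀ ne ?_
  linear_combination (-(4 * h0 - 3) / 2 - (4 * h0 - 3) * u * h0) * eC +
    ((4 * h0 - 3) * h0 - (4 * h0 - 3) * u / 2) * ex + 4 * (u + u ^ 3) * hq

/-- The bounds of `Gu`. -/
theorem Gu_bd {T : ℝ} (h : h0 ≤ T) (h1 : T ≤ 1) :
    2654 / 10000 ≤ Gu T ∧ Gu T ≤ 2 - 2 * h0 := by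
  have hh := h0_pos
  have hq := h0_sq'
  obtain ⟨b1, b2⟩ := h0_bd
  have F := tu_facts h h1
  have u0 := F.u0
  have u1 := F.u1
  have e := one_sub h h1
  have e' : 1 - T ≤ (1 + h0) * (2 - 2 * h0 - tu T) ^ 2 := by
    rw [e]
    exact div_le_self (by positivity) (by nlinarith [sq_nonneg (tu T)])
  rw [Gu_eq h h1]
  have p0 : 0 ≤ tu T * (1 - T) := mul_nonneg u0 (by linarith)
  have p1 : tu T * (1 - T) ≤ 532 / 100000 := by
    refine (mul_le_mul_of_nonneg_left e' u0).trans ?_
    generalize tu T = u at *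
    have m : u * (2 - 2 * h0 - u) ^ 2 ≤ 28505 / 10000000 := by
      set w := 2 - 2 * h0 with hw
      have w1 : w ≤ 26796 / 100000 := by linarith
      have w0 : 0 ≤ w := by linarith
      have a : 0 ≤ (u - w / 3) ^ 2 * (4 * w / 3 - u) := mul_nonneg (sq_nonneg _) (by linarith)
      have b : w ^ 3 ≤ (26796 / 100000) ^ 3 := pow_le_pow_left₀ w0 w1 3
      nlinarith
    nlinarith
  constructor
  · nlinarith
  · nlinarith

/-- `Gu` is nearly constant. -/
theorem Gu_lip {T T' : ℝ} (h : h0 ≤ T) (hTT : T ≤ T') (h1 : T' ≤ 1) :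
    |Gu T' - Gu T| ≤ 1 / 8 * (T' - T) := by
  have hh := h0_pos
  have hq := h0_sq'
  obtain ⟨b1, b2⟩ := h0_bd
  have F := tu_facts h (hTT.trans h1)
  have F' := tu_facts (h.trans hTT) h1
  have u0 := F.u0
  have u1 := F.u1
  have v0 := F'.u0
  have v1 := F'.u1
  have e := one_sub h (hTT.trans h1)
  have e' := one_sub (h.trans hTT) h1
  rw [Gu_eq h (hTT.trans h1), Gu_eq (h.trans hTT) h1]
  rw [eq_div_iff (by positivity)] at e e'
  generalize tu T = u at *
  generalize tu T' = v at *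
  have t0 : 0 ≤ 1 - T := by linarith
  have t1 : 0 ≤ 1 - T' := by linarith
  have uv : u ≤ v := by
    by_contra hc
    rw [not_le] at hc
    have a1 : (1 + h0) * (2 - 2 * h0 - u) ^ 2 < (1 + h0) * (2 - 2 * h0 - v) ^ 2 := by
      have : (2 - 2 * h0 - u) ^ 2 < (2 - 2 * h0 - v) ^ 2 := by nlinarith
      nlinarith
    have a2 : (1 - T') * (1 + v ^ 2) ≤ (1 - T) * (1 + u ^ 2) :=
      mul_le_mul (by linarith) (by nlinarith) (by positivity) t0
    linarith
  have key : (v - u) * (1 - T') ≤ (2 - 2 * h0) * (T' - T) := by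
    have b0 : 0 < 1 + v ^ 2 := by positivity
    have b1 : (1 + h0) * ((v - u) * (2 * (2 - 2 * h0) - u - v)) ≤ (T' - T) * (1 + v ^ 2) := by
      have : (1 - T) * (1 + u ^ 2) ≤ (1 - T) * (1 + v ^ 2) :=
        mul_le_mul_of_nonneg_left (by nlinarith) t0
      nlinarith
    have b2 : (2 - 2 * h0 - v) ^ 2 ≤ (2 - 2 * h0) * (2 * (2 - 2 * h0) - u - v) := by
      nlinarith
    have b3 := mul_le_mul_of_nonneg_left b2
      (mul_nonneg (by linarith : 0 ≤ v - u) (by linarith : 0 ≤ 1 + h0))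
    have b4 := mul_le_mul_of_nonneg_left b1 (by linarith : 0 ≤ 2 - 2 * h0)
    refine le_of_mul_le_mul_right ?_ b0
    have b5 : (v - u) * (1 - T') * (1 + v ^ 2) = (v - u) * ((1 + h0) * (2 - 2 * h0 - v) ^ 2) := by
      rw [← e']
      ring
    rw [b5]
    linarith
  have k1 : 0 ≤ u * (T' - T) := mul_nonneg u0 (by linarith)
  have k2 : u * (T' - T) ≤ (2 - 2 * h0) * (T' - T) := mul_le_mul_of_nonneg_right u1 (by linarith)
  have k3 : 0 ≤ (v - u) * (1 - T') := mul_nonneg (by linarith) t1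
  have k4 : (4 * h0 - 3) * ((2 - 2 * h0) * (T' - T)) ≤ 1 / 8 * (T' - T) := by
    have : (4 * h0 - 3) * (2 - 2 * h0) ≤ 1 / 8 := by nlinarith
    have := mul_le_mul_of_nonneg_right this (by linarith : 0 ≤ T' - T)
    linarith
  have k5 := mul_le_mul_of_nonneg_left key (by linarith : 0 ≤ 4 * h0 - 3)
  have k6 := mul_le_mul_of_nonneg_left k2 (by linarith : 0 ≤ 4 * h0 - 3)
  have k7 := mul_nonneg (by linarith : 0 ≤ 4 * h0 - 3) k1
  have k8 := mul_nonneg (by linarith : 0 ≤ 4 * h0 - 3) k3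
  have e5 : 2 - 2 * h0 - (4 * h0 - 3) * (v * (1 - T')) -
      (2 - 2 * h0 - (4 * h0 - 3) * (u * (1 - T))) =
      (4 * h0 - 3) * (u * (T' - T)) - (4 * h0 - 3) * ((v - u) * (1 - T')) := by ring
  rw [e5, abs_le]
  constructor <;> linarith

/-- The value of `Gu` at both ends. -/
theorem Gu_h0 : Gu h0 = 2 - 2 * h0 := by
  have hh := h0_pos
  have hq := h0_sq'
  unfold Gu tu
  rw [c1_h0]
  have : h0 / 2 - h0 * (1 / 2) = 0 := by ring
  rw [this, zero_div]
  linarith

theorem Gu_one : Gu 1 = 2 - 2 * h0 := by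
  rw [Gu_eq h0_lt_one.le le_rfl]
  ring

/-- The kernel on the unit circle, extended by zero. -/
noncomputable def R1x (s T : ℝ) : ℝ := if T < 1 then R1 par s T else 0

/-- The kernel between the unit circle and `W`, above `h0`. -/
theorem ker_c1W {s X T : ℝ} (h : h0 ≤ T) (h1 : T < 3 * h0 / 2) (a : c1 T ≤ X) (b : X ≤ Wc T) :
    ker K.nodes (vA par s) (fun _ _ => 0) X T =
      R1x s T + slU par s ((T - h0) / s) * (X - c1 T) := by
  have hh := h0_pos
  have hq := h0_sq'
  have hT : 0 ≤ T := by linarith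
  have hT3 : T ^ 2 ≤ 3 := by nlinarith
  have e0 : pos.cv 0 T = c1 T := cv_zero T
  have e1 : pos.cv 1 T = Wc T := cv_one_high h
  have e := K.seg (vA par s) (adm_vA par s) 0 X T hT hT3 (by
    change pos.cv 0 T ≤ X
    rwa [e0]) (by
    change X ≤ pos.cv 1 T
    rwa [e1])
  rw [e]
  have v0 : vA par s T 0 = R1x s T := rfl
  have v1 : vA par s T 1 = R1x s T + slU par s ((T - h0) / s) * (Wc T - c1 T) := by
    simp only [vA, Matrix.cons_val_one, Matrix.cons_val_zero]
    rw [if_neg (by linarith), if_neg (by linarith), if_pos h1]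
    unfold RW
    rw [if_neg (by linarith), if_neg (by linarith)]
    rfl
  change vA par s T 0 + (vA par s T 1 - vA par s T 0) *
    ((X - pos.cv 0 T) / (pos.cv 1 T - pos.cv 0 T)) = _
  rw [e0, e1, v0, v1]
  rcases (a.trans b).eq_or_lt with h2 | h2
  · have : X = c1 T := le_antisymm (by linarith) a
    rw [this, sub_self, zero_div, mul_zero, mul_zero]
  · have : Wc T - c1 T ≠ 0 := by linarith
    field_simp
    ring

/-- The constant of the affine form, extended. -/
noncomputable def Gx (T : ℝ) : ℝ := if T ≤ 1 then Gu T else 2 * (T - h0)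

/-- The affine form of the kernel between the unit circle and `W`. -/
theorem ker_c1W_aff {s X T : ℝ} (hs : 0 < s) (h : h0 + 2 * s < T) (h1 : T < 3 * h0 / 2)
    (hx : T < 1 → 4 * s ≤ T / 2 - h0 * c1 T) (a : c1 T ≤ X) (b : X ≤ Wc T) :
    ker K.nodes (vA par s) (fun _ _ => 0) X T = Gx T - 2 * (T - h0) + (4 * h0 - 3) * X := by
  have hh := h0_pos
  have g1 := h0_lt_one
  rw [ker_c1W (by linarith) h1 a b]
  have z : 2 < (T - h0) / s := by
    rw [lt_div_iff₀ hs]
    linarith
  have e : slU par s ((T - h0) / s) = 4 * h0 - 3 := by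
    unfold slU
    rw [if_neg (by linarith), if_neg (by linarith)]
  rw [e]
  rcases lt_trichotomy T 1 with h2 | h2 | h2
  · have e1 : R1x s T = R1 par s T := if_pos h2
    have e2 : Gx T = Gu T := if_pos h2.le
    have e3 := R1_up hs (by linarith) h2.le (hx h2)
    rw [e1, e2]
    unfold Gu
    linarith
  · subst h2
    have e1 : R1x s 1 = 0 := if_neg (lt_irrefl _)
    have e2 : Gx 1 = Gu 1 := if_pos le_rfl
    rw [e1, e2, Gu_one, c1_zero le_rfl]
    ring
  · have e1 : R1x s T = 0 := if_neg h2.not_gt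
    have e2 : Gx T = 2 * (T - h0) := if_neg h2.not_ge
    rw [e1, e2, c1_zero h2.le]
    ring

end Pool.Agent.Strip051.LC.E0.Out
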