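import Pool.Agent.Strip051.LC.E0.OutI
import Pool.Agent.Strip051.LC.Exact.Gauge

/-! # Small rests: large excesses with the side 12 on the unit circle, and the gauge criterion

`OK3` is the crude criterion for both vertices after subtracting a gauge. -/

namespace Pool.Agent.Strip051.LC.E0.Out

open Pool.Agent.StripNear Pool.Agent.StripSquare Pool.Agent.Strip051 Pool.Agent.Strip051.Sweep
open Pool.Agent.Strip051.LC.Exact (kE)
open Pool.Agent.Strip051.LC.Line (tau)

/-- The level term at the near vertex. -/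
theorem lev_abs3 {s t t' : ℝ} {x : ℝ × ℝ × ℝ} (hs : 0 < s) (hs1 : s ≤ 11 / 400)
    (ht : 0 ≤ t) (ht' : 0 ≤ t') (h3 : (t + t') ^ 2 ≤ 3) :
    |levXV 3 s 0 t t' x| ≤ 305 / 1000 * (|x.1| + |x.2.1| + |x.2.2|) := by
  have hh := h0_pos
  have g1 := h0_gt
  have hq := h0_sq'
  obtain ⟨m0, m1⟩ := mu_bd hs hs1
  have tt : t + t' ≤ 2 * h0 := by
    refine le_of_sq2 (by linarith) ?_
    linarith
  have s0 : 0 ≤ s / h0 := by positivity
  have s1 : s / h0 ≤ 32 / 1000 := by
    rw [div_le_iff₀ hh]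
    linarith
  have u1 : 0 ≤ t / (2 * h0) ∧ t / (2 * h0) ≤ 1 := by
    refine ⟨by positivity, ?_⟩
    rw [div_le_one (by positivity)]
    linarith
  have u2 : 0 ≤ (2 * t + t') / (2 * h0) ∧ (2 * t + t') / (2 * h0) ≤ 2 := by
    refine ⟨by positivity, ?_⟩
    rw [div_le_iff₀ (by positivity)]
    linarith
  have u3 : 0 ≤ (t + t') / (2 * h0) ∧ (t + t') / (2 * h0) ≤ 1 := by
    refine ⟨by positivity, ?_⟩
    rw [div_le_one (by positivity)]
    linarith
  have e : levXV 3 s 0 t t' x = mu 3 s * (((3 + s / h0) / 2 - t / (2 * h0)) * x.1 +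
      ((3 + s / h0) / 2 - (2 * t + t') / (2 * h0)) * x.2.1 -
      ((3 + s / h0) / 2 - (t + t') / (2 * h0)) * x.2.2) := by
    unfold levXV
    push_cast
    rw [zero_div, add_zero]
    field_simp
    ring
  have key : ∀ a y : ℝ, |a| ≤ 1516 / 1000 → |a * y| ≤ 1516 / 1000 * |y| :=
    fun a y ha => by
      rw [abs_mul]
      exact mul_le_mul_of_nonneg_right ha (abs_nonneg _)
  have v1 := abs_le.1 (key ((3 + s / h0) / 2 - t / (2 * h0)) x.1 (by
    rw [abs_le]
    constructor <;> linarith [u1.1, u1.2]))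
  have v2 := abs_le.1 (key ((3 + s / h0) / 2 - (2 * t + t') / (2 * h0)) x.2.1 (by
    rw [abs_le]
    constructor <;> linarith [u2.1, u2.2]))
  have v3 := abs_le.1 (key ((3 + s / h0) / 2 - (t + t') / (2 * h0)) x.2.2 (by
    rw [abs_le]
    constructor <;> linarith [u3.1, u3.2]))
  rw [e, abs_mul, abs_of_nonneg m0]
  have k : |((3 + s / h0) / 2 - t / (2 * h0)) * x.1 +
      ((3 + s / h0) / 2 - (2 * t + t') / (2 * h0)) * x.2.1 -
      ((3 + s / h0) / 2 - (t + t') / (2 * h0)) * x.2.2| ≤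
      1516 / 1000 * (|x.1| + |x.2.1| + |x.2.2|) := by
    rw [abs_le]
    constructor <;> linarith [v1.1, v1.2, v2.1, v2.2, v3.1, v3.2]
  have := mul_le_mul m1 k (abs_nonneg _) (by norm_num)
  have := abs_nonneg x.1
  have := abs_nonneg x.2.1
  have := abs_nonneg x.2.2
  linarith

/-- The level table on the unit circle. -/
theorem X1_128 {s T : ℝ} (hs : 0 < s) (hs1 : s ≤ 11 / 400) (hT : 0 ≤ T) (hT1 : T < 1) :
    |X1 par s T| ≤ 32 / 25 := by
  have hh := h0_pos
  have g1 := h0_gt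
  have g2 := h0_lt
  have hq := h0_sq'
  have A : ∀ w, 0 ≤ w → 0 ≤ xA par s (w / s) ∧ xA par s (w / s) ≤ 32 / 25 := fun w hw =>
    ⟨xA_nonneg hs hs1 (div_nonneg hw hs.le),
      le_trans (le_abs_self _) (xA_bd hs hs1 (div_nonneg hw hs.le))⟩
  have B : ∀ w, 0 ≤ w → 0 ≤ xB par (w / (2 * s)) ∧ xB par (w / (2 * s)) ≤ 4 / 5 := fun w hw =>
    ⟨xB_nonneg (div_nonneg hw (by linarith)),
      le_trans (le_abs_self _) (xB_bd (div_nonneg hw (by linarith)))⟩
  have e := c1_sq hT hT1.le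
  unfold X1
  split_ifs with k1 k2
  · rw [abs_of_nonneg (A T hT).1]
    linarith [(A T hT).2]
  · have : 0 ≤ h0 * c1 T - T / 2 := by
      have : 1 / 2 ≤ c1 T := by nlinarith [c1_nonneg T]
      nlinarith
    rw [abs_of_nonneg (B _ this).1]
    linarith [(B _ this).2]
  · rw [not_lt] at k2
    have : 0 ≤ T / 2 - h0 * c1 T := by
      have : c1 T ≤ 1 / 2 := by nlinarith [c1_nonneg T]
      nlinarith
    have a := A _ this
    have b := B _ this
    rw [abs_le]
    constructor <;> linarith [a.1, a.2, b.1, b.2]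

/-- The level of the side 12 on the unit circle. -/
theorem lev_cir {s T X : ℝ} (hs : 0 < s) (hs1 : s ≤ 11 / 400) (hT : 0 ≤ T) (hT1 : T < 1)
    (hX : |X| = c1 T) : |ker K.nodes (vX par s) (fun _ _ => 0) X T| ≤ 32 / 25 * s ^ 2 := by
  have hv : K.adm (vX par s) := adm_vX par s
  have dm : K.dm 0 T := dm_zero.2 ⟨hT1, by nlinarith⟩
  have e : ∀ σ : ℝ, (σ = 1 ∨ σ = -1) → ker K.nodes (vX par s) (fun _ _ => 0) (σ * c1 T) T =
      σ * vX par s T 0 := by
    intro σ hσ
    have := K.ker_cv hv hσ (j := 0) hT dm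
    have e0 : K.cv 0 T = c1 T := cv_zero T
    rw [e0] at this
    exact this
  have b : |vX par s T 0| ≤ 32 / 25 * s ^ 2 := by
    have e1 : vX par s T 0 = s ^ 2 * X1 par s T := by
      unfold vX vx
      simp [if_pos hT1]
    rw [e1, abs_mul, abs_of_nonneg (sq_nonneg s)]
    have := mul_le_mul_of_nonneg_left (X1_128 hs hs1 hT hT1) (sq_nonneg s)
    linarith
  rcases abs_cases X with ⟨h1, -⟩ | ⟨h1, -⟩
  · have hX' : X = 1 * c1 T := by rw [one_mul, ← hX, h1]
    rw [hX', e 1 (Or.inl rfl), one_mul]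
    exact b
  · have hX' : X = -1 * c1 T := by rw [← hX, h1]; ring
    rw [hX', e (-1) (Or.inr rfl), neg_one_mul, abs_neg]
    exact b

/-- **Large excesses**, the side 12 on the unit circle. -/
theorem far_big {s X12 X13 t t' : ℝ} (hs : 0 < s) (hs1 : s ≤ 11 / 400)
    (h : Sides X12 X13 t t') (ht : t < 1) (h12 : |X12| = c1 t)
    (hE : (174 / 100 + 3 * s) * s ≤ exn X12 X13 t t') :
    farD (kE s) s (vA par s) (vX par s) X12 X13 t t' (K.valK X12 X13 t t') := by
  have g1 := h0_gt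
  have hv : K.adm (vA par s) := adm_vA par s
  refine far_crude hs.le (by linarith) (kE_nonneg hs hs1) ?_
  rw [amp_kE hs hs1]
  have S := h.sum hv (fun T hT hT3 => bnd_vA hs hs1 hT hT3)
  obtain ⟨l1, l2, l3⟩ := h.lev hs hs1
  have l1' : |(K.valK X12 X13 t t' (vX par s)).1| ≤ 32 / 25 * s ^ 2 :=
    lev_cir hs hs1 h.t0 ht h12
  obtain ⟨w0, w1⟩ := we_up hs hs1
  have L : |farXV (K.valK X12 X13 t t' (vX par s))| ≤ 16 / 5 * s ^ 2 := by
    have a := abs_le.1 l1'
    have b := abs_le.1 l2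
    have c := abs_le.1 l3
    unfold farXV
    rw [abs_le]
    constructor <;> linarith [a.1, a.2, b.1, b.2, c.1, c.2]
  have k := mul_le_mul_of_nonneg_left S w0.le
  have k2 := mul_le_mul_of_nonneg_right w1
    (by linarith : 0 ≤ 1 * (3 + 5 / 4 * s + 2 * (s / 2)) + 3 * 0)
  have k3 : 0 ≤ s ^ 3 := by positivity
  nlinarith

theorem near_big {s X12 X13 t t' : ℝ} (hs : 0 < s) (hs1 : s ≤ 11 / 400)
    (h : Sides X12 X13 t t') (ht : t < 1) (h12 : |X12| = c1 t)
    (hE : (174 / 100 + 3 * s) * s ≤ exn X12 X13 t t') :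
    nearT 0 3 (kE s) s (vB par s) (vX par s) X12 X13 t t' (K.valK X12 X13 t t') := by
  have g1 := h0_gt
  have hv : K.adm (vB par s) := adm_vB par s
  refine near_crude hs.le (by linarith) (kE_nonneg hs hs1) ?_
  rw [amp_kE hs hs1]
  have S := h.sum hv (fun T hT hT3 => bnd_vB hs hs1 hT hT3)
  obtain ⟨l1, l2, l3⟩ := h.lev hs hs1
  have l1' : |(K.valK X12 X13 t t' (vX par s)).1| ≤ 32 / 25 * s ^ 2 :=
    lev_cir hs hs1 h.t0 ht h12
  obtain ⟨w0, w1⟩ := we_up hs hs1
  obtain ⟨lam0, lam1⟩ := lam_up hs hs1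
  have h3 : (t + t') ^ 2 ≤ 3 := by nlinarith [sq_nonneg X13, h.c3]
  have L1 := abs_le.1 (lev_abs3 (x := K.valK X12 X13 t t' (vX par s)) hs hs1 h.t0 h.t1 h3)
  have L2 := abs_le.1 (lev_abs3 (x := (-(K.valK X12 X13 t t' (vX par s)).2.1,
    -(K.valK X12 X13 t t' (vX par s)).1, -(K.valK X12 X13 t t' (vX par s)).2.2)) hs hs1 h.t1 h.t0
    (by rwa [add_comm]))
  simp only [abs_neg] at L2
  have L : -(305 / 1000 * (32 / 25 * s ^ 2 + 64 / 25 * s ^ 2 + 64 / 25 * s ^ 2)) ≤
      min (levXV 3 s 0 t t' (K.valK X12 X13 t t' (vX par s)))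
        (levXV 3 s 0 t' t (-(K.valK X12 X13 t t' (vX par s)).2.1,
          -(K.valK X12 X13 t t' (vX par s)).1, -(K.valK X12 X13 t t' (vX par s)).2.2)) :=
    le_min (by linarith [L1.1]) (by linarith [L2.1])
  have k := mul_le_mul_of_nonneg_left S w0.le
  have e : we s * ((we s + mu 3 s * wq s) / we s * (3 + 5 / 4 * s + 2 * (s / 2)) +
      3 * (2 * (mu 3 s * wq s) / we s)) =
      we s * (3 + 9 / 4 * s) + mu 3 s * wq s * (9 + 9 / 4 * s) := by
    field_simp
    ring
  rw [e] at k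
  have k2 := mul_le_mul_of_nonneg_right w1 (by linarith : 0 ≤ 3 + 9 / 4 * s)
  have k3 := mul_le_mul_of_nonneg_right lam1 (by linarith : 0 ≤ 9 + 9 / 4 * s)
  have k4 : 0 ≤ s ^ 3 := by positivity
  have k5 : s ^ 3 ≤ 11 / 400 * s ^ 2 := by nlinarith [sq_nonneg s]
  nlinarith

/-! ### The gauge criterion -/

/-- The first kernel. -/
noncomputable def kA (s X T : ℝ) : ℝ := ker K.nodes (vA par s) (fun _ _ => 0) X T

/-- The correction of the kernel at the near vertex. -/
noncomputable def kR (s X T : ℝ) : ℝ := ker K.nodes (vR par s) (fun _ _ => 0) X T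

/-- The second kernel. -/
noncomputable def kX (s X T : ℝ) : ℝ := ker K.nodes (vX par s) (fun _ _ => 0) X T

theorem adm_vR (s : ℝ) : K.adm (vR par s) := (admX_vR par s).adm

theorem kB_eq {s X T : ℝ} (hs : 0 < s) (hs1 : s ≤ 11 / 400) (hT : 0 ≤ T)
    (h1 : 1 ≤ X ^ 2 + T ^ 2) (h3 : X ^ 2 + T ^ 2 ≤ 3) :
    we s * ker K.nodes (vB par s) (fun _ _ => 0) X T =
      (we s + mu 3 s * wq s) * kA s X T + mu 3 s * wq s * kR s X T := by
  have hT3 : T ^ 2 ≤ 3 := by nlinarith [sq_nonneg X]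
  have w0 : we s ≠ 0 := (we_up hs hs1).1.ne'
  have a1 : K.adm (vA par s) := adm_vA par s
  have a2 : K.adm (vB par s) := adm_vB par s
  have a3 := adm_vR s
  have key : ∀ σ : ℝ, (σ = 1 ∨ σ = -1) → (∃ i : Fin 3,
      K.cv i.castSucc T ≤ σ * X ∧ σ * X ≤ K.cv i.succ T) →
      we s * ker K.nodes (vB par s) (fun _ _ => 0) X T =
      (we s + mu 3 s * wq s) * kA s X T + mu 3 s * wq s * kR s X T := by
    rintro σ hσ ⟨i, g1, g2⟩
    unfold kA kR
    rw [K.ker_lin a1 hσ hT hT3 g1 g2, K.ker_lin a2 hσ hT hT3 g1 g2, K.ker_lin a3 hσ hT hT3 g1 g2]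
    unfold Cur.lin
    have e : ∀ j, we s * vB par s T j =
        (we s + mu 3 s * wq s) * vA par s T j + mu 3 s * wq s * vR par s T j := fun j => by
      unfold vB
      field_simp
    have e1 := e (K.tg i.castSucc)
    have e2 := e (K.tg i.succ)
    generalize (σ * X - K.cv i.castSucc T) / (K.cv i.succ T - K.cv i.castSucc T) = l
    linear_combination σ * (1 - l) * e1 + σ * l * e2
  rcases le_total 0 X with hX | hX
  · exact key 1 (Or.inl rfl) (K.seg_pos hT hX h1 h3)
  · exact key (-1) (Or.inr rfl) (K.seg_neg hT hX h1 h3)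

/-- The cost after subtracting the gauge `k`. -/
noncomputable def cost3 (s k X12 X13 t t' : ℝ) : ℝ :=
  57736 / 100000 * s * (|kA s X12 t - k * tau t| + |kA s (X13 - X12) t' - k * tau t'| +
    |kA s X13 (t + t') - k * tau (t + t')|) +
  101 / 1000 * s ^ 2 * (|kR s X12 t| + |kR s (X13 - X12) t'| + |kR s X13 (t + t')|) +
  1 / 2 * (|kX s X12 t| + |kX s (X13 - X12) t'| + |kX s X13 (t + t')|)

/-- **The gauge criterion.** -/
theorem of_cost3 {s k X12 X13 t t' : ℝ} (hs : 0 < s) (hs1 : s ≤ 11 / 400)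
    (h : Sides X12 X13 t t') (hE : cost3 s k X12 X13 t t' ≤ exn X12 X13 t t') :
    farD (kE s) s (vA par s) (vX par s) X12 X13 t t' (K.valK X12 X13 t t') ∧
      nearT 0 3 (kE s) s (vB par s) (vX par s) X12 X13 t t' (K.valK X12 X13 t t') := by
  have g1 := h0_gt
  obtain ⟨w0, w1⟩ := we_up hs hs1
  obtain ⟨lam0, lam1⟩ := lam_up hs hs1
  have s2 : 0 ≤ s ^ 2 := sq_nonneg s
  have wl : we s + mu 3 s * wq s ≤ 57736 / 100000 * s := by linarith
  have h3 : (t + t') ^ 2 ≤ 3 := by nlinarith [sq_nonneg X13, h.c3]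
  have hT : 0 ≤ t + t' := add_nonneg h.t0 h.t1
  have b12 := kB_eq hs hs1 h.t0 h.a1 h.a3
  have b23 := kB_eq hs hs1 h.t1 h.b1 h.b3
  have b13 := kB_eq hs hs1 hT h.c1 h.c3
  unfold cost3 at hE
  set p12 := kA s X12 t - k * tau t with hp12
  set p23 := kA s (X13 - X12) t' - k * tau t' with hp23
  set p13 := kA s X13 (t + t') - k * tau (t + t') with hp13
  have q1 := abs_nonneg p12
  have q2 := abs_nonneg p23
  have q3 := abs_nonneg p13
  have r1 := abs_nonneg (kR s X12 t)
  have r2 := abs_nonneg (kR s (X13 - X12) t')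
  have r3 := abs_nonneg (kR s X13 (t + t'))
  have x1 := abs_nonneg (kX s X12 t)
  have x2 := abs_nonneg (kX s (X13 - X12) t')
  have x3 := abs_nonneg (kX s X13 (t + t'))
  have m1 := mul_le_mul_of_nonneg_right wl (by positivity : 0 ≤ |p12| + |p23| + |p13|)
  have m2 := mul_le_mul_of_nonneg_right lam1
    (by positivity : 0 ≤ |kR s X12 t| + |kR s (X13 - X12) t'| + |kR s X13 (t + t')|)
  have m3 := mul_le_mul_of_nonneg_right (by linarith : we s ≤ we s + mu 3 s * wq s)
    (by positivity : 0 ≤ |p12| + |p23| + |p13|)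
  have m4 := mul_nonneg lam0
    (by positivity : 0 ≤ |kR s X12 t| + |kR s (X13 - X12) t'| + |kR s X13 (t + t')|)
  constructor
  · refine far_crude_gauge hs.le (by linarith) (kE_nonneg hs hs1) k ?_
    rw [amp_kE hs hs1]
    have L : |farXV (K.valK X12 X13 t t' (vX par s))| ≤
        1 / 2 * (|kX s X12 t| + |kX s (X13 - X12) t'| + |kX s X13 (t + t')|) := by
      unfold farXV Cur.valK
      simp only
      have a := abs_le.1 (le_refl |kX s X12 t|)
      have b := abs_le.1 (le_refl |kX s (X13 - X12) t'|)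
      have c := abs_le.1 (le_refl |kX s X13 (t + t')|)
      unfold kX at a b c ⊢
      rw [abs_le]
      constructor <;> linarith [a.1, a.2, b.1, b.2, c.1, c.2]
    have e : we s * (|(K.valK X12 X13 t t' (vA par s)).1 - k * tau t| +
        |(K.valK X12 X13 t t' (vA par s)).2.1 - k * tau t'| +
        |(K.valK X12 X13 t t' (vA par s)).2.2 - k * tau (t + t')|) =
        we s * (|p12| + |p23| + |p13|) := rfl
    rw [e]
    linarith
  · refine near_crude_gauge hs.le (by linarith) (kE_nonneg hs hs1)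
      ((we s + mu 3 s * wq s) / we s * k) ?_
    rw [amp_kE hs hs1]
    have L1 := abs_le.1 (lev_abs3 (x := K.valK X12 X13 t t' (vX par s)) hs hs1 h.t0 h.t1 h3)
    have L2 := abs_le.1 (lev_abs3 (x := (-(K.valK X12 X13 t t' (vX par s)).2.1,
      -(K.valK X12 X13 t t' (vX par s)).1, -(K.valK X12 X13 t t' (vX par s)).2.2)) hs hs1 h.t1
      h.t0 (by rwa [add_comm]))
    simp only [abs_neg] at L2
    have e0 : |(K.valK X12 X13 t t' (vX par s)).1| + |(K.valK X12 X13 t t' (vX par s)).2.1| +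
        |(K.valK X12 X13 t t' (vX par s)).2.2| =
        |kX s X12 t| + |kX s (X13 - X12) t'| + |kX s X13 (t + t')| := rfl
    have L : -(1 / 2 * (|kX s X12 t| + |kX s (X13 - X12) t'| + |kX s X13 (t + t')|)) ≤
        min (levXV 3 s 0 t t' (K.valK X12 X13 t t' (vX par s)))
          (levXV 3 s 0 t' t (-(K.valK X12 X13 t t' (vX par s)).2.1,
            -(K.valK X12 X13 t t' (vX par s)).1, -(K.valK X12 X13 t t' (vX par s)).2.2)) :=
      le_min (by linarith [L1.1]) (by linarith [L2.1])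
    have key : ∀ B A R τ : ℝ, we s * B = (we s + mu 3 s * wq s) * A + mu 3 s * wq s * R →
        we s * |B - (we s + mu 3 s * wq s) / we s * k * τ| ≤
          (we s + mu 3 s * wq s) * |A - k * τ| + mu 3 s * wq s * |R| := by
      intro B A R τ hB
      have e1 : we s * (B - (we s + mu 3 s * wq s) / we s * k * τ) =
          (we s + mu 3 s * wq s) * (A - k * τ) + mu 3 s * wq s * R := by
        have e2 : we s * ((we s + mu 3 s * wq s) / we s * k * τ) =
            (we s + mu 3 s * wq s) * (k * τ) := by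
          field_simp
        rw [mul_sub, e2, hB]
        ring
      rw [← abs_of_pos w0, ← abs_mul, abs_of_pos w0, e1]
      refine (abs_add_le _ _).trans ?_
      rw [abs_mul, abs_mul, abs_of_nonneg lam0,
        abs_of_nonneg (by linarith : 0 ≤ we s + mu 3 s * wq s)]
    have c1 := key _ _ _ (tau t) b12
    have c2 := key _ _ _ (tau t') b23
    have c3 := key _ _ _ (tau (t + t')) b13
    have e : ∀ c, we s * (|(K.valK X12 X13 t t' (vB par s)).1 - c * tau t| +
        |(K.valK X12 X13 t t' (vB par s)).2.1 - c * tau t'| +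
        |(K.valK X12 X13 t t' (vB par s)).2.2 - c * tau (t + t')|) =
        we s * |ker K.nodes (vB par s) (fun _ _ => 0) X12 t - c * tau t| +
        we s * |ker K.nodes (vB par s) (fun _ _ => 0) (X13 - X12) t' - c * tau t'| +
        we s * |ker K.nodes (vB par s) (fun _ _ => 0) X13 (t + t') - c * tau (t + t')| := by
      intro c
      unfold Cur.valK
      ring
    rw [e]
    linarith

end Pool.Agent.Strip051.LC.E0.Out
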