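import Pool.Agent.Strip051.LC.E0.OutJ

/-! # Small rests: the nodes on the two circles and the gauge criterion with levels

The kernel at a circle node whose direction is the sine `x` away from a lattice direction is
`RA |x| / x` times the signed distance of the height to the lattice height. -/

namespace Pool.Agent.Strip051.LC.E0.Out

open Pool.Agent.StripNear Pool.Agent.StripSquare Pool.Agent.Strip051 Pool.Agent.Strip051.Sweep
open Pool.Agent.Strip051.LC.Exact (kE)
open Pool.Agent.Strip051.LC.Line (tau tau_bd jn)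

/-! ### The signed distance -/

theorem tau_lo {T : ℝ} (h : T < h0 / 2) : tau T = T := by
  unfold tau jn
  rw [if_pos h]
  simp

theorem tau_mi {T : ℝ} (h : h0 / 2 ≤ T) (h' : T < 3 * h0 / 2) : tau T = T - h0 := by
  unfold tau jn
  rw [if_neg h.not_gt, if_pos h']
  simp

theorem tau_hi {T : ℝ} (h : 3 * h0 / 2 ≤ T) : tau T = T - 2 * h0 := by
  have := h0_pos
  unfold tau jn
  rw [if_neg (by linarith), if_neg h.not_gt]
  push_cast
  ring

/-! ### The values on the circles -/

theorem ker_c1 {v : ℝ → Fin 4 → ℝ} (hv : K.adm v) {T : ℝ} (hT : 0 ≤ T) (h3 : T ^ 2 ≤ 3) :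
    ker K.nodes v (fun _ _ => 0) (c1 T) T = v T 0 := by
  have e0 : pos.cv 0 T = c1 T := cv_zero T
  have h01 : pos.cv 0 T ≤ pos.cv 1 T := pos.cv_mono hT h3 (by decide)
  have e := K.seg v hv 0 (c1 T) T hT h3 (by
    change pos.cv 0 T ≤ c1 T
    rw [e0]) (by
    change c1 T ≤ pos.cv 1 T
    rwa [← e0])
  rw [e]
  change v T 0 + (v T 1 - v T 0) * ((c1 T - pos.cv 0 T) / (pos.cv 1 T - pos.cv 0 T)) = v T 0
  rw [e0, sub_self, zero_div, mul_zero, add_zero]

theorem ker_c3 {v : ℝ → Fin 4 → ℝ} (hv : K.adm v) {T : ℝ} (hT : 0 ≤ T) (h3 : T ^ 2 ≤ 3) :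
    ker K.nodes v (fun _ _ => 0) (c3 T) T = v T 3 := by
  have e := K.ker_cv hv (Or.inl rfl : (1 : ℝ) = 1 ∨ (1 : ℝ) = -1) (j := 3) hT
    (dm_three.2 h3)
  have e3 : K.cv 3 T = c3 T := cv_three T
  rw [e3, one_mul, one_mul] at e
  exact e

theorem kA_neg (s X T : ℝ) : kA s (-X) T = -kA s X T := K.ker_neg _ X T

theorem kR_neg (s X T : ℝ) : kR s (-X) T = -kR s X T := K.ker_neg _ X T

theorem kX_neg (s X T : ℝ) : kX s (-X) T = -kX s X T := K.ker_neg _ X T

theorem kA_c1 {s T : ℝ} (hT : 0 ≤ T) (h1 : T < 1) : kA s (c1 T) T = R1 par s T := by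
  unfold kA
  rw [ker_c1 (adm_vA par s) hT (by nlinarith)]
  exact if_pos h1

theorem kA_c1' {s T : ℝ} (h1 : 1 ≤ T) (h3 : T ^ 2 ≤ 3) : kA s (c1 T) T = 0 := by
  unfold kA
  rw [ker_c1 (adm_vA par s) (by linarith) h3]
  exact if_neg h1.not_gt

theorem kA_c3 {s T : ℝ} (hT : 0 ≤ T) (h3 : T ^ 2 ≤ 3) : kA s (c3 T) T = R3 par s T := by
  unfold kA
  rw [ker_c3 (adm_vA par s) hT h3]
  rfl

theorem kR_c1 {s T : ℝ} (hs : 0 < s) (hT : 4 * s ≤ T) (h3 : T ^ 2 ≤ 3) :
    kR s (c1 T) T = 0 := by
  unfold kR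
  rw [ker_c1 (adm_vR s) (by linarith) h3]
  have h4 : 4 ≤ T / s := by rwa [le_div_iff₀ hs]
  simp only [vR, Matrix.cons_val_zero]
  split_ifs with h
  · have : taper (T / s) = 0 := by
      unfold taper
      rw [if_neg (by linarith)]
      split_ifs with h5
      · rw [le_antisymm h5 h4, pl_right (by norm_num)]
      · rfl
    rw [this, mul_zero]
  · rfl

theorem kR_c1' {s T : ℝ} (h : h0 / 2 ≤ T) (h3 : T ^ 2 ≤ 3) : kR s (c1 T) T = 0 := by
  have hh := h0_pos
  unfold kR
  rw [ker_c1 (adm_vR s) (by linarith) h3]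
  exact if_neg h.not_gt

theorem kR_c3 {s T : ℝ} (hT : 0 ≤ T) (h3 : T ^ 2 ≤ 3) : kR s (c3 T) T = 0 := by
  unfold kR
  rw [ker_c3 (adm_vR s) hT h3]
  rfl

theorem kX_c1 {s T : ℝ} (hT : 0 ≤ T) (h1 : T < 1) : kX s (c1 T) T = s ^ 2 * X1 par s T := by
  unfold kX
  rw [ker_c1 (adm_vX par s) hT (by nlinarith)]
  unfold vX vx
  simp [if_pos h1]

theorem kX_c1' {s T : ℝ} (h1 : 1 ≤ T) (h3 : T ^ 2 ≤ 3) : kX s (c1 T) T = 0 := by
  unfold kX
  rw [ker_c1 (adm_vX par s) (by linarith) h3]
  unfold vX vx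
  simp [if_neg h1.not_gt]

theorem kX_c3 {s T : ℝ} (hT : 0 ≤ T) (h3 : T ^ 2 ≤ 3) : kX s (c3 T) T = s ^ 2 * X3 par s T := by
  unfold kX
  rw [ker_c3 (adm_vX par s) hT h3]
  rfl

/-! ### The level functions far away -/

theorem xA_far {s x : ℝ} (hs : 0 < s) (h : 4 * s ≤ x) : xA par s (x / s) = 0 := by
  have h4 : 4 ≤ x / s := by rwa [le_div_iff₀ hs]
  unfold xA
  rw [if_neg (by linarith), if_neg (by linarith)]
  split_ifs with h5
  · rw [le_antisymm h5 h4, pl_right (by norm_num)]
  · rfl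

/-- The level at the distance `x`. -/
noncomputable def lvl (s x : ℝ) : ℝ := s ^ 2 * xB par (x / (2 * s))

theorem lvl_far {s x : ℝ} (hs : 0 < s) (h : 5 * s ≤ x) : lvl s x = 0 := by
  have h4 : 5 / 2 ≤ x / (2 * s) := by
    rw [le_div_iff₀ (by linarith)]
    linarith
  unfold lvl xB
  rw [if_neg (by linarith)]
  split_ifs with h5
  · rw [le_antisymm h5 h4, pl_right (by norm_num), mul_zero]
  · rw [mul_zero]

theorem lvl_nonneg {s x : ℝ} (hs : 0 < s) (h : 0 ≤ x) : 0 ≤ lvl s x :=
  mul_nonneg (sq_nonneg s) (xB_nonneg (div_nonneg h (by linarith)))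

theorem lvl_mid {s x : ℝ} (hs : 0 < s) (h : 2 * s ≤ x) (h' : x ≤ 5 * s) :
    lvl s x = 571 / 2250 * (s * (5 * s - x)) := by
  have h1 : 1 ≤ x / (2 * s) := by
    rw [le_div_iff₀ (by linarith)]
    linarith
  have h2 : x / (2 * s) ≤ 5 / 2 := by
    rw [div_le_iff₀ (by linarith)]
    linarith
  have e : xB par (x / (2 * s)) = 571 / 1125 * (5 / 2 - x / (2 * s)) := by
    unfold xB
    rcases h1.eq_or_lt with h3 | h3
    · rw [← h3, if_pos le_rfl]
      unfold par
      norm_num
    · rw [if_neg (by linarith), if_pos h2]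
      unfold pl par
      simp only
      ring
  unfold lvl
  rw [e]
  field_simp
  ring

/-- The coordinates of a node: the sine and the cosine of the angle to the lattice direction. -/
structure Rot (C x : ℝ) : Prop where
  C0 : 0 ≤ C
  sq : C ^ 2 + x ^ 2 = 1
  lo : -(1 / 2) ≤ x
  hi : x ≤ 1 / 2

namespace Rot

variable {C x : ℝ}

theorem C1 (h : Rot C x) : C ≤ 1 := by
  have := h.sq
  have := h.C0
  nlinarith [sq_nonneg x]

theorem Ch (h : Rot C x) : h0 ≤ C := by
  have hh := h0_pos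
  refine le_of_sq2 h.C0 ?_
  have := h.sq
  have := h0_sq'
  have := h.lo
  have := h.hi
  nlinarith

theorem abs (h : Rot C x) : |x| ≤ 1 / 2 := abs_le.2 ⟨h.lo, h.hi⟩

theorem neg (h : Rot C x) : Rot C (-x) :=
  ⟨h.C0, by rw [neg_sq]; exact h.sq, by linarith [h.hi], by linarith [h.lo]⟩

/-- `1 - C` by the half angle. -/
theorem one_sub (h : Rot C x) : x * (x / (1 + C)) = 1 - C := by
  have h1 := h.Ch
  have h2 := h0_pos
  have h3 : (1 + C) ≠ 0 := by linarith
  field_simp
  linear_combination h.sq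

end Rot

/-! ### The direction of `60` degrees -/

section

variable {s C x : ℝ}

/-- The height. -/
theorem n60_facts (h : Rot C x) :
    c1 (h0 * C + x / 2) = C / 2 - h0 * x ∧ 1 / 2 ≤ h0 * C + x / 2 ∧ h0 * C + x / 2 ≤ 1 ∧
      (h0 * C + x / 2) / 2 - h0 * (C / 2 - h0 * x) = x ∧
      (C / 2 - h0 * x) / 2 + h0 * (h0 * C + x / 2) = C ∧
      h0 * C + x / 2 - h0 = x * (1 / 2 - h0 * x / (1 + C)) := by
  have hh := h0_pos
  have hq := h0_sq'
  have a := h.Ch
  have b := h.sq
  have c := h.lo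
  have d := h.hi
  have e := h.one_sub
  have g1 := h0_lt_one
  have X0 : 0 ≤ C / 2 - h0 * x := by
    have := mul_le_mul_of_nonneg_left d hh.le
    linarith
  have T0 : 1 / 2 ≤ h0 * C + x / 2 := by
    have := mul_le_mul_of_nonneg_left a hh.le
    nlinarith
  have sq : (C / 2 - h0 * x) ^ 2 + (h0 * C + x / 2) ^ 2 = 1 := by
    linear_combination (C ^ 2 + x ^ 2) * hq + b
  have T1 : h0 * C + x / 2 ≤ 1 := le_of_sq2 zero_le_one (by nlinarith [sq_nonneg (C / 2 - h0 * x)])
  refine ⟨?_, T0, T1, by linear_combination x * hq, by linear_combination C * hq, ?_⟩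
  · have e1 := c1_sq (by linarith : 0 ≤ h0 * C + x / 2) T1
    have e2 := c1_nonneg (h0 * C + x / 2)
    have : (c1 (h0 * C + x / 2) - (C / 2 - h0 * x)) * (c1 (h0 * C + x / 2) + (C / 2 - h0 * x)) = 0 := by
      linear_combination e1 - sq
    rcases mul_eq_zero.1 this with h1 | h1
    · linarith
    · linarith
  · have : x * (h0 * x / (1 + C)) = h0 * (1 - C) := by
      rw [← e]
      ring
    linear_combination this

/-- The kernel. -/
theorem n60_kA (hs : 0 < s) (hs1 : s ≤ 11 / 400) (h : Rot C x) (hx : x ≠ 0) :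
    kA s (C / 2 - h0 * x) (h0 * C + x / 2) = RA par s |x| / x * tau (h0 * C + x / 2) := by
  have hh := h0_pos
  have g1 := h0_gt
  have g2 := h0_lt
  obtain ⟨e1, e2, e3, e4, e5, e6⟩ := n60_facts h
  have et : tau (h0 * C + x / 2) = x * (1 / 2 - h0 * x / (1 + C)) := by
    rw [tau_mi (by linarith) (by linarith), e6]
  have er : RA par s |x| / x * tau (h0 * C + x / 2) =
      RA par s |x| * (1 / 2 - h0 * x / (1 + C)) := by
    rw [et]
    field_simp
  rw [er, ← e1]
  rcases e3.lt_or_eq with h1 | h1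
  · rw [kA_c1 (by linarith) h1]
    rcases e2.eq_or_lt with h2 | h2
    · -- `x = -1/2`
      have h3 : x = -(1 / 2) := by
        have a := h.Ch
        have := h.lo
        have := mul_le_mul_of_nonneg_left a hh.le
        have := h0_sq'
        nlinarith
      have z : RA par s (1 / 2) = 0 := by
        rw [RA_eq hs (by linarith)]
        norm_num
      have z1 : |x| = 1 / 2 := by
        rw [h3]
        norm_num
      rw [← h2, z1, z, zero_mul]
      unfold R1
      rw [if_neg (by linarith), if_pos le_rfl, z, zero_mul]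
    · unfold R1
      rw [if_neg (by linarith), if_neg (by linarith), e1, e4, e5]
  · rw [h1]
    have h3 : x = 1 / 2 := by
      have b := h.sq
      have c : (C / 2 - h0 * x) ^ 2 + (h0 * C + x / 2) ^ 2 = 1 := by
        linear_combination (C ^ 2 + x ^ 2) * h0_sq' + b
      rw [h1] at c
      have c' : C / 2 - h0 * x = 0 := by
        have : (C / 2 - h0 * x) ^ 2 = 0 := by linarith
        exact pow_eq_zero_iff (by norm_num) |>.1 this
      rw [h1, c'] at e4
      linarith
    have z : RA par s |x| = 0 := by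
      rw [h3, abs_of_pos (by norm_num), RA_eq hs (by linarith)]
      norm_num
    rw [kA_c1' le_rfl (by norm_num), z, zero_mul]

theorem n60_kR (h : Rot C x) : kR s (C / 2 - h0 * x) (h0 * C + x / 2) = 0 := by
  have g2 := h0_lt
  obtain ⟨e1, e2, e3, -⟩ := n60_facts h
  rw [← e1]
  exact kR_c1' (by linarith) (by nlinarith)

/-- The level, above. -/
theorem n60_kX_up (hs : 0 < s) (hs1 : s ≤ 11 / 400) (h : Rot C x) (hx : 0 ≤ x) :
    kX s (C / 2 - h0 * x) (h0 * C + x / 2) = s ^ 2 * xA par s (x / s) - lvl s x := by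
  have hh := h0_pos
  have g1 := h0_gt
  have g2 := h0_lt
  obtain ⟨e1, e2, e3, e4, e5, e6⟩ := n60_facts h
  rw [← e1]
  have hT : h0 ≤ h0 * C + x / 2 := by
    have a := h.Ch
    have : 0 ≤ x * (1 / 2 - h0 * x / (1 + C)) := by
      refine mul_nonneg hx ?_
      have : h0 * x / (1 + C) ≤ 1 / 2 := by
        rw [div_le_iff₀ (by linarith)]
        have := mul_le_mul_of_nonneg_left h.hi hh.le
        linarith
      linarith
    linarith
  rcases e3.lt_or_eq with h1 | h1
  · rw [kX_c1 (by linarith) h1]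
    unfold X1 lvl
    rw [if_neg (by linarith), if_neg (by linarith), e1, e4]
    ring
  · rw [h1, kX_c1' le_rfl (by norm_num)]
    have h3 : x = 1 / 2 := by
      have b := h.sq
      have c : (C / 2 - h0 * x) ^ 2 + (h0 * C + x / 2) ^ 2 = 1 := by
        linear_combination (C ^ 2 + x ^ 2) * h0_sq' + b
      rw [h1] at c
      have c' : C / 2 - h0 * x = 0 := by
        have : (C / 2 - h0 * x) ^ 2 = 0 := by linarith
        exact pow_eq_zero_iff (by norm_num) |>.1 this
      rw [h1, c'] at e4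
      linarith
    rw [xA_far hs (by linarith), lvl_far hs (by linarith)]
    ring

/-- The level, below. -/
theorem n60_kX_dn (hs : 0 < s) (hs1 : s ≤ 11 / 400) (h : Rot C x) (hx : x < 0) :
    kX s (C / 2 - h0 * x) (h0 * C + x / 2) = lvl s (-x) := by
  have hh := h0_pos
  have g1 := h0_gt
  have g2 := h0_lt
  obtain ⟨e1, e2, e3, e4, e5, e6⟩ := n60_facts h
  rw [← e1]
  have hT : h0 * C + x / 2 < h0 := by
    have := mul_le_mul_of_nonneg_left h.C1 hh.le
    linarith
  rw [kX_c1 (by linarith) (by linarith)]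
  unfold X1 lvl
  rcases e2.eq_or_lt with h2 | h2
  · rw [if_pos h2.ge, ← h2]
    have h3 : x = -(1 / 2) := by
      have a := h.Ch
      have := h.lo
      have := mul_le_mul_of_nonneg_left a hh.le
      have := h0_sq'
      nlinarith
    have l := lvl_far hs (by linarith : 5 * s ≤ -x)
    unfold lvl at l
    rw [l, xA_far hs (by linarith), mul_zero]
  · rw [if_neg (by linarith), if_pos hT, e1,
      show h0 * (C / 2 - h0 * x) - (h0 * C + x / 2) / 2 = -x by linear_combination (-x) * h0_sq']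

/-! ### The direction of `30` degrees -/

theorem n30_facts (h : Rot C x) :
    c3 (h0 * C + 3 / 2 * x) = 3 / 2 * C - h0 * x ∧ 0 ≤ h0 * C + 3 / 2 * x ∧
      h0 * C + 3 / 2 * x ≤ 3 / 2 ∧ (h0 * C + 3 / 2 * x) ^ 2 ≤ 3 ∧
      (h0 * C + 3 / 2 * x) / 2 - (3 / 2 * C - h0 * x) / (4 * h0) = x ∧
      (3 / 2 * C - h0 * x) / 2 + (h0 * C + 3 / 2 * x) / (4 * h0) = C ∧
      h0 * C + 3 / 2 * x - h0 = x * (3 / 2 - h0 * x / (1 + C)) := by
  have hh := h0_pos
  have hq := h0_sq'
  have a := h.Ch
  have b := h.sq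
  have c := h.lo
  have d := h.hi
  have e := h.one_sub
  have g1 := h0_lt_one
  have X0 : 0 ≤ 3 / 2 * C - h0 * x := by
    have := mul_le_mul_of_nonneg_left d hh.le
    linarith
  have T0 : 0 ≤ h0 * C + 3 / 2 * x := by
    have := mul_le_mul_of_nonneg_left a hh.le
    nlinarith
  have sq : (3 / 2 * C - h0 * x) ^ 2 + (h0 * C + 3 / 2 * x) ^ 2 = 3 := by
    linear_combination (C ^ 2 + x ^ 2) * hq + 3 * b
  have T3 : (h0 * C + 3 / 2 * x) ^ 2 ≤ 3 := by nlinarith [sq_nonneg (3 / 2 * C - h0 * x)]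
  have X1 : h0 ≤ 3 / 2 * C - h0 * x := by nlinarith
  have T1 : h0 * C + 3 / 2 * x ≤ 3 / 2 := le_of_sq2 (by norm_num) (by nlinarith)
  refine ⟨?_, T0, T1, T3, ?_, ?_, ?_⟩
  · have e1 := c3_sq T3
    have e2 := c3_nonneg (h0 * C + 3 / 2 * x)
    have : (c3 (h0 * C + 3 / 2 * x) - (3 / 2 * C - h0 * x)) *
        (c3 (h0 * C + 3 / 2 * x) + (3 / 2 * C - h0 * x)) = 0 := by
      linear_combination e1 - sq
    rcases mul_eq_zero.1 this with h1 | h1
    · linarith
    · linarith
  · rw [quot4]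
    linear_combination (x / 3) * hq
  · rw [quot4]
    linear_combination (C / 3) * hq
  · have : x * (h0 * x / (1 + C)) = h0 * (1 - C) := by
      rw [← e]
      ring
    linear_combination this

theorem n30_kA (hs : 0 < s) (hs1 : s ≤ 11 / 400) (h : Rot C x) (hx : x ≠ 0) :
    kA s (3 / 2 * C - h0 * x) (h0 * C + 3 / 2 * x) =
      RA par s |x| / x * tau (h0 * C + 3 / 2 * x) := by
  have hh := h0_pos
  have g1 := h0_gt
  have g2 := h0_lt
  obtain ⟨e1, e2, e3, e3', e4, e5, e6⟩ := n30_facts h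
  have eC : c3 (h0 * C + 3 / 2 * x) / (4 * h0) - (h0 * C + 3 / 2 * x) / 2 = -x := by
    rw [e1]
    linear_combination -e4
  rw [← e1, kA_c3 e2 e3', ]
  unfold R3
  split_ifs with h1 h2 h3
  · rw [tau_lo h1, eC]
    have hx' : x < 0 := by
      by_contra hc
      rw [not_lt] at hc
      have := mul_le_mul_of_nonneg_left h.Ch hh.le
      have := h0_sq'
      nlinarith
    rw [abs_of_neg hx']
    field_simp
  · rw [tau_mi (by linarith) h2, e6, e1, e4, e5]
    field_simp
  · -- `x = 1/2`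
    have h4 : (3 / 2 * C - h0 * x) ≤ h0 := by rwa [← e1]
    have h5 : x = 1 / 2 := by
      have := h.hi
      have := mul_le_mul_of_nonneg_left h.Ch hh.le
      nlinarith [h.Ch, h0_sq']
    have h6 : C = h0 := by
      have a := h.sq
      rw [h5] at a
      have := h.C0
      have := h0_sq'
      nlinarith
    have z : RA par s (1 / 2) = 0 := by
      rw [RA_eq hs (by linarith)]
      norm_num
    have z1 : |x| = 1 / 2 := by
      rw [h5]
      norm_num
    have z2 : c3 (h0 * C + 3 / 2 * x) / (2 * h0) = 1 / 2 := by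
      rw [e1, h5, h6]
      field_simp
      norm_num
    rw [z1, z2, z]
    ring
  · rw [tau_hi (by linarith)]
    have hx' : 0 < x := by
      by_contra hc
      rw [not_lt] at hc
      have := mul_le_mul_of_nonneg_left h.C1 hh.le
      nlinarith
    rw [e1, e4, abs_of_pos hx']
    ring

theorem n30_kR (h : Rot C x) : kR s (3 / 2 * C - h0 * x) (h0 * C + 3 / 2 * x) = 0 := by
  obtain ⟨e1, e2, e3, e3', -⟩ := n30_facts h
  rw [← e1]
  exact kR_c3 e2 e3'

/-- The level, above. -/
theorem n30_kX_up (h : Rot C x) (hx : 0 ≤ x) :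
    kX s (3 / 2 * C - h0 * x) (h0 * C + 3 / 2 * x) = 2 * (s ^ 2 * xA par s (x / s)) - lvl s x := by
  have hh := h0_pos
  obtain ⟨e1, e2, e3, e3', e4, e5, e6⟩ := n30_facts h
  have hT : h0 ≤ h0 * C + 3 / 2 * x := by
    have : 0 ≤ x * (3 / 2 - h0 * x / (1 + C)) := by
      refine mul_nonneg hx ?_
      have : h0 * x / (1 + C) ≤ 1 / 2 := by
        rw [div_le_iff₀ (by linarith [h.C0])]
        have := mul_le_mul_of_nonneg_left h.hi hh.le
        linarith [h.Ch]
      linarith
    linarith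
  rw [← e1, kX_c3 e2 e3']
  unfold X3 lvl
  rcases hT.eq_or_lt with h1 | h1
  · have h2 : x = 0 := by
      rcases hx.eq_or_lt with h3 | h3
      · exact h3.symm
      · exfalso
        have : 0 < x * (3 / 2 - h0 * x / (1 + C)) := by
          refine mul_pos h3 ?_
          have : h0 * x / (1 + C) ≤ 1 / 2 := by
            rw [div_le_iff₀ (by linarith [h.C0])]
            have := mul_le_mul_of_nonneg_left h.hi hh.le
            linarith [h.Ch]
          linarith
        linarith
    rw [if_pos h1.ge, e1]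
    have e4' : (3 / 2 * C - h0 * x) / (4 * h0) - (h0 * C + 3 / 2 * x) / 2 = 0 := by
      rw [h2] at e4 ⊢
      linarith
    rw [e4', h2, zero_div, zero_div, xA_zero, xB_zero]
    ring
  · rw [if_neg (by linarith), if_pos e3, e1, e4]
    ring

/-- The level, below. -/
theorem n30_kX_dn (h : Rot C x) (hx : x < 0) :
    kX s (3 / 2 * C - h0 * x) (h0 * C + 3 / 2 * x) = s ^ 2 * xA par s (-x / s) + lvl s (-x) := by
  have hh := h0_pos
  obtain ⟨e1, e2, e3, e3', e4, e5, e6⟩ := n30_facts h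
  have hT : h0 * C + 3 / 2 * x < h0 := by
    have := mul_le_mul_of_nonneg_left h.C1 hh.le
    linarith
  have eC : c3 (h0 * C + 3 / 2 * x) / (4 * h0) - (h0 * C + 3 / 2 * x) / 2 = -x := by
    rw [e1]
    linear_combination -e4
  rw [← e1, kX_c3 e2 e3']
  unfold X3 lvl
  rw [if_pos hT.le, eC]
  ring

/-! ### The vertical direction -/

theorem n90_facts (h : Rot C x) (hx : 0 ≤ x) :
    c3 (2 * h0 * C) = 2 * h0 * x ∧ 3 / 2 ≤ 2 * h0 * C ∧ (2 * h0 * C) ^ 2 ≤ 3 ∧
      2 * h0 * C - 2 * h0 = -(2 * h0 * x * (x / (1 + C))) := by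
  have hh := h0_pos
  have hq := h0_sq'
  have a := h.Ch
  have b := h.sq
  have e := h.one_sub
  have T0 : 3 / 2 ≤ 2 * h0 * C := by nlinarith
  have sq : (2 * h0 * x) ^ 2 + (2 * h0 * C) ^ 2 = 3 := by
    linear_combination 4 * (C ^ 2 + x ^ 2) * hq + 3 * b
  have T3 : (2 * h0 * C) ^ 2 ≤ 3 := by nlinarith [sq_nonneg (2 * h0 * x)]
  refine ⟨?_, T0, T3, ?_⟩
  · have e1 := c3_sq T3
    have e2 := c3_nonneg (2 * h0 * C)
    have X0 : 0 ≤ 2 * h0 * x := by positivity
    have : (c3 (2 * h0 * C) - 2 * h0 * x) * (c3 (2 * h0 * C) + 2 * h0 * x) = 0 := by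
      linear_combination e1 - sq
    rcases mul_eq_zero.1 this with h1 | h1
    · linarith
    · linarith
  · linear_combination (2 * h0) * e

theorem n90_kA (hs : 0 < s) (hs1 : s ≤ 11 / 400) (h : Rot C x) (hx : 0 < x) :
    kA s (2 * h0 * x) (2 * h0 * C) = -(RA par s x / x) * tau (2 * h0 * C) := by
  have hh := h0_pos
  have g1 := h0_gt
  have g2 := h0_lt
  obtain ⟨e1, e2, e3, e4⟩ := n90_facts h hx.le
  have z : c3 (2 * h0 * C) / (2 * h0) = x := by
    rw [e1]
    field_simp
  rw [← e1, kA_c3 (by linarith) e3, tau_hi (by linarith), e4]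
  unfold R3
  rw [if_neg (by linarith), if_neg (by linarith), if_pos (by
    rw [e1]
    have := mul_le_mul_of_nonneg_left h.hi (by positivity : 0 ≤ 2 * h0)
    linarith), z, e1, show 2 * h0 * C / (2 * h0) = C by field_simp]
  field_simp

theorem n90_kR (h : Rot C x) (hx : 0 ≤ x) : kR s (2 * h0 * x) (2 * h0 * C) = 0 := by
  obtain ⟨e1, e2, e3, e4⟩ := n90_facts h hx
  rw [← e1]
  exact kR_c3 (by linarith) e3

/-! ### The horizontal direction -/

theorem n0_facts (h : Rot C x) (hx : 0 ≤ x) : c1 x = C := by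
  have e1 := c1_sq hx (by linarith [h.hi])
  have e2 := c1_nonneg x
  have b := h.sq
  have c := h.Ch
  have hh := h0_pos
  have : (c1 x - C) * (c1 x + C) = 0 := by linear_combination e1 - b
  rcases mul_eq_zero.1 this with h1 | h1
  · linarith
  · linarith

theorem n0_kA (h : Rot C x) (hx : 0 < x) : kA s C x = RA par s x / x * tau x := by
  have hh := h0_pos
  have g1 := h0_gt
  have e := n0_facts h hx.le
  rw [← e, kA_c1 hx.le (by linarith [h.hi])]
  unfold R1
  split_ifs with h1 h2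
  · rw [tau_lo h1]
    field_simp
  · rw [tau_mi (by linarith) (by linarith)]
    ring
  · exact absurd h.hi h2

theorem n0_kR (hs : 0 < s) (h : Rot C x) (hx : 4 * s ≤ x) : kR s C x = 0 := by
  have e := n0_facts h (by linarith)
  rw [← e]
  exact kR_c1 hs hx (by
    have := h.hi
    have : 0 ≤ x := by linarith
    nlinarith)

theorem n0_kX (hs : 0 < s) (h : Rot C x) (hx : 4 * s ≤ x) : kX s C x = 0 := by
  have e := n0_facts h (by linarith)
  rw [← e, kX_c1 (by linarith) (by linarith [h.hi])]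
  unfold X1
  rw [if_pos h.hi, xA_far hs hx, mul_zero]

end

/-! ### The criterion -/

/-- The cost after subtracting the gauge `k`, with the levels `0`, `-b`, `-b`. -/
noncomputable def cost (s k b X12 X13 t t' : ℝ) : ℝ :=
  57736 / 100000 * s * (|kA s X12 t - k * tau t| + |kA s (X13 - X12) t' - k * tau t'| +
    |kA s X13 (t + t') - k * tau (t + t')|) +
  101 / 1000 * s ^ 2 * (|kR s X12 t| + |kR s (X13 - X12) t'| + |kR s X13 (t + t')|) +
  1 / 2 * (|kX s X12 t| + |kX s (X13 - X12) t' + b| + |kX s X13 (t + t') + b|)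

/-- **The gauge criterion with levels.** -/
theorem of_cost {s k b X12 X13 t t' : ℝ} (hs : 0 < s) (hs1 : s ≤ 11 / 400) (hb : 0 ≤ b)
    (h : Sides X12 X13 t t') (hE : cost s k b X12 X13 t t' ≤ exn X12 X13 t t') :
    farD (kE s) s (vA par s) (vX par s) X12 X13 t t' (K.valK X12 X13 t t') ∧
      nearT 0 3 (kE s) s (vB par s) (vX par s) X12 X13 t t' (K.valK X12 X13 t t') := by
  have g1 := h0_gt
  have hh := h0_pos
  obtain ⟨w0, w1⟩ := we_up hs hs1
  obtain ⟨lam0, lam1⟩ := lam_up hs hs1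
  obtain ⟨m0, -⟩ := mu_bd hs hs1
  have s2 : 0 ≤ s ^ 2 := sq_nonneg s
  have wl : we s + mu 3 s * wq s ≤ 57736 / 100000 * s := by linarith
  have h3 : (t + t') ^ 2 ≤ 3 := by nlinarith [sq_nonneg X13, h.c3]
  have hT : 0 ≤ t + t' := add_nonneg h.t0 h.t1
  have ht := h.t0
  have b12 := kB_eq hs hs1 h.t0 h.a1 h.a3
  have b23 := kB_eq hs hs1 h.t1 h.b1 h.b3
  have b13 := kB_eq hs hs1 hT h.c1 h.c3
  unfold cost at hE
  set p12 := kA s X12 t - k * tau t with hp12
  set p23 := kA s (X13 - X12) t' - k * tau t' with hp23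
  set p13 := kA s X13 (t + t') - k * tau (t + t') with hp13
  have q1 := abs_nonneg p12
  have q2 := abs_nonneg p23
  have q3 := abs_nonneg p13
  have r1 := abs_nonneg (kR s X12 t)
  have r2 := abs_nonneg (kR s (X13 - X12) t')
  have r3 := abs_nonneg (kR s X13 (t + t'))
  have x1 := abs_nonneg (kX s X12 t)
  have x2 := abs_nonneg (kX s (X13 - X12) t' + b)
  have x3 := abs_nonneg (kX s X13 (t + t') + b)
  have m1 := mul_le_mul_of_nonneg_right wl (by positivity : 0 ≤ |p12| + |p23| + |p13|)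
  have m2 := mul_le_mul_of_nonneg_right lam1
    (by positivity : 0 ≤ |kR s X12 t| + |kR s (X13 - X12) t'| + |kR s X13 (t + t')|)
  have m3 := mul_le_mul_of_nonneg_right (by linarith : we s ≤ we s + mu 3 s * wq s)
    (by positivity : 0 ≤ |p12| + |p23| + |p13|)
  have m4 := mul_nonneg lam0
    (by positivity : 0 ≤ |kR s X12 t| + |kR s (X13 - X12) t'| + |kR s X13 (t + t')|)
  constructor
  · refine far_crude_gauge hs.le (by linarith) (kE_nonneg hs hs1) k ?_
    rw [amp_kE hs hs1]
    have L : |farXV (K.valK X12 X13 t t' (vX par s))| ≤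
        1 / 2 * (|kX s X12 t| + |kX s (X13 - X12) t' + b| + |kX s X13 (t + t') + b|) := by
      unfold farXV Cur.valK
      simp only
      have a := abs_le.1 (le_refl |kX s X12 t|)
      have b' := abs_le.1 (le_refl |kX s (X13 - X12) t' + b|)
      have c := abs_le.1 (le_refl |kX s X13 (t + t') + b|)
      unfold kX at a b' c ⊢
      rw [abs_le]
      constructor <;> linarith [a.1, a.2, b'.1, b'.2, c.1, c.2]
    have e : we s * (|(K.valK X12 X13 t t' (vA par s)).1 - k * tau t| +
        |(K.valK X12 X13 t t' (vA par s)).2.1 - k * tau t'| +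
        |(K.valK X12 X13 t t' (vA par s)).2.2 - k * tau (t + t')|) =
        we s * (|p12| + |p23| + |p13|) := rfl
    rw [e]
    linarith
  · refine near_crude_gauge hs.le (by linarith) (kE_nonneg hs hs1)
      ((we s + mu 3 s * wq s) / we s * k) ?_
    rw [amp_kE hs hs1]
    have L1 := abs_le.1 (lev_abs3 (x := (kX s X12 t, kX s (X13 - X12) t' + b,
      kX s X13 (t + t') + b)) hs hs1 h.t0 h.t1 h3)
    have L2 := abs_le.1 (lev_abs3 (x := (-(kX s (X13 - X12) t' + b),
      -kX s X12 t, -(kX s X13 (t + t') + b))) hs hs1 h.t1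
      h.t0 (by rwa [add_comm]))
    simp only [abs_neg] at L1 L2
    have tb : 0 ≤ mu 3 s * (t * b / (2 * h0)) := by positivity
    have eA : levXV 3 s 0 t t' (K.valK X12 X13 t t' (vX par s)) =
        levXV 3 s 0 t t' (kX s X12 t, kX s (X13 - X12) t' + b, kX s X13 (t + t') + b) +
          mu 3 s * (t * b / (2 * h0)) := by
      unfold levXV Cur.valK kX
      simp only
      field_simp
      ring
    have eB : levXV 3 s 0 t' t (-(K.valK X12 X13 t t' (vX par s)).2.1,
        -(K.valK X12 X13 t t' (vX par s)).1, -(K.valK X12 X13 t t' (vX par s)).2.2) =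
        levXV 3 s 0 t' t (-(kX s (X13 - X12) t' + b), -kX s X12 t, -(kX s X13 (t + t') + b)) +
          mu 3 s * (t * b / (2 * h0)) := by
      unfold levXV Cur.valK kX
      simp only
      field_simp
      ring
    have L : -(1 / 2 * (|kX s X12 t| + |kX s (X13 - X12) t' + b| + |kX s X13 (t + t') + b|)) ≤
        min (levXV 3 s 0 t t' (K.valK X12 X13 t t' (vX par s)))
          (levXV 3 s 0 t' t (-(K.valK X12 X13 t t' (vX par s)).2.1,
            -(K.valK X12 X13 t t' (vX par s)).1, -(K.valK X12 X13 t t' (vX par s)).2.2)) := by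
      rw [eA, eB]
      exact le_min (by linarith [L1.1]) (by linarith [L2.1])
    have key : ∀ B A R τ : ℝ, we s * B = (we s + mu 3 s * wq s) * A + mu 3 s * wq s * R →
        we s * |B - (we s + mu 3 s * wq s) / we s * k * τ| ≤
          (we s + mu 3 s * wq s) * |A - k * τ| + mu 3 s * wq s * |R| := by
      intro B A R τ hB
      have e1 : we s * (B - (we s + mu 3 s * wq s) / we s * k * τ) =
          (we s + mu 3 s * wq s) * (A - k * τ) + mu 3 s * wq s * R := by
        have e2 : we s * ((we s + mu 3 s * wq s) / we s * k * τ) =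
            (we s + mu 3 s * wq s) * (k * τ) := by
          field_simp
        rw [mul_sub, e2, hB]
        ring
      rw [← abs_of_pos w0, ← abs_mul, abs_of_pos w0, e1]
      refine (abs_add_le _ _).trans ?_
      rw [abs_mul, abs_mul, abs_of_nonneg lam0,
        abs_of_nonneg (by linarith : 0 ≤ we s + mu 3 s * wq s)]
    have c1 := key _ _ _ (tau t) b12
    have c2 := key _ _ _ (tau t') b23
    have c3 := key _ _ _ (tau (t + t')) b13
    have e : ∀ c, we s * (|(K.valK X12 X13 t t' (vB par s)).1 - c * tau t| +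
        |(K.valK X12 X13 t t' (vB par s)).2.1 - c * tau t'| +
        |(K.valK X12 X13 t t' (vB par s)).2.2 - c * tau (t + t')|) =
        we s * |ker K.nodes (vB par s) (fun _ _ => 0) X12 t - c * tau t| +
        we s * |ker K.nodes (vB par s) (fun _ _ => 0) (X13 - X12) t' - c * tau t'| +
        we s * |ker K.nodes (vB par s) (fun _ _ => 0) X13 (t + t') - c * tau (t + t')| := by
      intro c
      unfold Cur.valK
      ring
    rw [e]
    linarith

end Pool.Agent.Strip051.LC.E0.Out
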