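import Pool.Agent.Strip051.LC.E0.OutK

/-! # Small rests: the strips, definitions

`Sec` collects the bounds of the kernels at a point `X T` next to the point `X0 T0` of a circle
whose direction is the sine `x` away from a lattice direction. -/

namespace Pool.Agent.Strip051.LC.E0.Out

open Pool.Agent.StripNear Pool.Agent.StripSquare Pool.Agent.Strip051 Pool.Agent.Strip051.Sweep
open Pool.Agent.Strip051.LC.Line (tau)

/-- An admissible edge. -/
structure Ann (X T : ℝ) : Prop where
  T0 : 0 ≤ T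
  lo : 1 ≤ X ^ 2 + T ^ 2
  hi : X ^ 2 + T ^ 2 ≤ 3

/-- The point `X T` is next to `X0 T0`. -/
def Nr (s X0 T0 X T : ℝ) : Prop := (X - X0) ^ 2 + (T - T0) ^ 2 ≤ (79 / 10 * s) ^ 2

/-- The bounds of the kernels next to a point of a circle. -/
structure Sec (s k x χ X0 T0 X T aT aX : ℝ) : Prop where
  A : |kA s X T - k * tau T| ≤ (1 / x + aT) * |T - T0| + aX * |X - X0|
  R : s * |kR s X T| ≤ 1 / 16 * (|T - T0| + |X - X0|)
  L : |kX s X T - χ| ≤ 1 / 25 * (|T - T0| + |X - X0|)
  L5 : 5 * s ≤ x → |kX s X T| ≤ 1 / 64 * (|T - T0| + |X - X0|)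

theorem Nr.abs {s X0 T0 X T : ℝ} (hs : 0 < s) (h : Nr s X0 T0 X T) :
    |X - X0| ≤ 79 / 10 * s ∧ |T - T0| ≤ 79 / 10 * s := by
  unfold Nr at h
  constructor
  · refine le_of_sq2 (by linarith) ?_
    rw [sq_abs]
    nlinarith [sq_nonneg (T - T0)]
  · refine le_of_sq2 (by linarith) ?_
    rw [sq_abs]
    nlinarith [sq_nonneg (X - X0)]

/-- The correction of the kernel vanishes from `4 s` on and is at most `7 / 3 (4 s - x)` below. -/
theorem dc_bd {w : ℝ} (h : 0 ≤ w) (h4 : w ≤ 4) : -(2313 / 1000) * (4 - w) ≤ dc par w := by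
  have a := par_d0
  have b := par_d1
  have c := par_d2
  have d := par_d3
  unfold dc
  split_ifs with h1 h2 h3
  · have h5 := mul_le_mul_of_nonneg_left a.1 h
    have h6 : 0 ≤ w * (par.d1 * w) := mul_nonneg h (mul_nonneg (by linarith [b.1]) h)
    linarith
  · have := le_pl_aff (a := 2313 / 1000) (b := -(2313 / 1000) * 4) (y0 := par.d0 + par.d1)
      (y1 := par.d2) (by norm_num : (1 : ℝ) < 3 / 2) (not_le.1 h1).le h2
      (by linarith [b.1, a.1]) (by linarith [c.1])
    linarith
  · have := le_pl_aff (a := 2313 / 1000) (b := -(2313 / 1000) * 4) (y0 := par.d2)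
      (y1 := par.d3) (by norm_num : (3 / 2 : ℝ) < 5 / 2) (not_le.1 h2).le h3
      (by linarith [c.1]) (by linarith [d.1])
    linarith
  · have := le_pl_aff (a := 2313 / 1000) (b := -(2313 / 1000) * 4) (y0 := par.d3) (y1 := 0)
      (by norm_num : (5 / 2 : ℝ) < 4) (not_le.1 h3).le h4 (by linarith) (by norm_num)
    linarith

/-- The kernel on the circles. -/
theorem RA_bd {s x : ℝ} (hs : 0 < s) (hx : 0 ≤ x) :
    1 - 2 * x ≤ RA par s x ∧ RA par s x ≤ 1 - 2 * x + 2313 / 1000 * max (4 * s - x) 0 := by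
  refine ⟨RA_ge hs hx, ?_⟩
  rcases le_or_gt (4 * s) x with h | h
  · rw [RA_eq hs h]
    have := le_max_right (4 * s - x) 0
    linarith
  · have h1 : x / s ≤ 4 := by
      rw [div_le_iff₀ hs]
      linarith
    have h2 := dc_bd (div_nonneg hx hs.le) h1
    have h3 := mul_le_mul_of_nonneg_left h2 hs.le
    have e : s * (-(2313 / 1000) * (4 - x / s)) = -(2313 / 1000) * (4 * s - x) := by
      field_simp
    rw [e] at h3
    have := le_max_left (4 * s - x) 0
    unfold RA
    linarith

/-- The residue of a circle node with the sine `x'` for the gauge of the sine `x`. -/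
theorem psi_dn {s x x' : ℝ} (hs : 0 < s) (hx : 4 * s ≤ x) (hx1 : x ≤ 1 / 2) (h : x' ≤ x) :
    |RA par s |x'| - (1 / x - 2) * x'| ≤ (1 / x + 7 / 3) * (x - x') := by
  have x0 : 0 < x := by linarith
  have ix : 2 ≤ 1 / x := by
    rw [le_div_iff₀ x0]
    linarith
  have e1 : 1 / x * x = 1 := by field_simp
  rcases le_or_gt 0 x' with h2 | h2
  · rw [abs_of_nonneg h2]
    obtain ⟨a, b⟩ := RA_bd hs h2
    have c : max (4 * s - x') 0 ≤ x - x' := max_le (by linarith) (by linarith)
    have d : 1 / x * x' ≤ 1 / x * x := mul_le_mul_of_nonneg_left h (by linarith)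
    rw [abs_le]
    constructor
    · nlinarith
    · nlinarith
  · rw [abs_of_neg h2]
    have a := RA_ge (s := s) hs (by linarith : 0 ≤ -x')
    have b := RA_le hs (by linarith : 0 ≤ -x') (s := s)
    have d : 0 ≤ 1 / x * -x' := mul_nonneg (by linarith) (by linarith)
    have f : 2 * -x' ≤ 1 / x * -x' := mul_le_mul_of_nonneg_right ix (by linarith)
    have b2 : RA par s (-x') ≤ 1 - 2 * -x' + 1625 / 1000 * -x' := by
      have g := dc_ge' (div_nonneg (by linarith : 0 ≤ -x') hs.le)
      have g2 := mul_le_mul_of_nonneg_left g hs.le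
      have e : s * (-(1625 / 1000) * (-x' / s)) = -(1625 / 1000) * -x' := by
        field_simp
      rw [e] at g2
      unfold RA
      linarith
    rw [abs_le]
    constructor
    · nlinarith
    · nlinarith

theorem psi_up {s x x' : ℝ} (hs : 0 < s) (hx : 4 * s ≤ x) (h : x ≤ x') :
    |RA par s |x'| - (1 / x - 2) * x'| = 1 / x * (x' - x) := by
  have x0 : 0 < x := by linarith
  have e1 : 1 / x * x = 1 := by field_simp
  rw [abs_of_nonneg (by linarith : 0 ≤ x'), RA_eq hs (by linarith)]
  have e : 1 - 2 * x' - (1 / x - 2) * x' = -(1 / x * (x' - x)) := by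
    linear_combination -e1
  rw [e, abs_neg, abs_of_nonneg (mul_nonneg (by positivity) (by linarith))]

/-- The reference side has no residue. -/
theorem ref_zero {s x τ : ℝ} (hs : 0 < s) (hx : 4 * s ≤ x) :
    RA par s |x| / x * τ - (1 / x - 2) * τ = 0 := by
  have x0 : 0 < x := by linarith
  rw [abs_of_nonneg (by linarith : 0 ≤ x), RA_eq hs hx]
  field_simp
  ring

end Pool.Agent.Strip051.LC.E0.Out
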