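import Pool.Agent.Strip051.LC.E0.OutL

/-! # Small rests: the residues of the circle nodes, the crossing criterion -/

namespace Pool.Agent.Strip051.LC.E0.Out

open Pool.Agent.StripNear Pool.Agent.StripSquare Pool.Agent.Strip051 Pool.Agent.Strip051.Sweep
open Pool.Agent.Strip051.LC.Line (tau)

/-- A lower bound for the excess if two unit sides deviate by the sine `a`. -/
noncomputable def E1 (a : ℝ) : ℝ := a * (288 / 1000 - 26 / 100 * a)

/-- The gauge criterion holds for some gauge. -/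
def OKC (s X12 X13 t t' : ℝ) : Prop :=
  ∃ k b : ℝ, 0 ≤ b ∧ cost s k b X12 X13 t t' ≤ exn X12 X13 t t'

/-! ### Moving a node -/

section

variable {C x C' x' : ℝ}

/-- The displacement of the cosine. -/
theorem mv (h : Rot C x) (h' : Rot C' x') : ∃ q : ℝ, C' - C = (x - x') * q ∧
    |q| * (2 * h0) ≤ |x + x'| ∧ q * (C + C') = x + x' ∧ |q| ≤ 29 / 50 := by
  have hh := h0_pos
  obtain ⟨b1, b2⟩ := h0_bd
  have a := h.Ch
  have a' := h'.Ch
  have p : 0 < C + C' := by linarith
  have e : |x + x'| ≤ 1 := by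
    rw [abs_le]
    constructor <;> linarith [h.lo, h.hi, h'.lo, h'.hi]
  have key : |(x + x') / (C + C')| * (2 * h0) ≤ |x + x'| := by
    rw [abs_div, abs_of_pos p, div_mul_eq_mul_div, div_le_iff₀ p]
    exact mul_le_mul_of_nonneg_left (by linarith) (abs_nonneg _)
  refine ⟨(x + x') / (C + C'), ?_, key, div_mul_cancel₀ _ p.ne', ?_⟩
  · rw [mul_div_assoc', eq_div_iff p.ne']
    linear_combination h'.sq - h.sq
  · nlinarith [abs_nonneg ((x + x') / (C + C'))]

/-- The half angle. -/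
theorem Rot.half (h : Rot C x) : ∃ u : ℝ, x / (1 + C) = u ∧ u * (1 + C) = x ∧ |u| ≤ 67 / 250 ∧
    (0 ≤ x → 0 ≤ u) ∧ (x ≤ 0 → u ≤ 0) := by
  obtain ⟨b1, b2⟩ := h0_bd
  have a := h.Ch
  have p : 0 < 1 + C := by linarith
  refine ⟨x / (1 + C), rfl, div_mul_cancel₀ _ p.ne', ?_, fun h1 => div_nonneg h1 p.le,
    fun h1 => div_nonpos_of_nonpos_of_nonneg h1 p.le⟩
  rw [abs_div, abs_of_pos p, div_le_iff₀ p]
  have := h.abs
  linarith

end

/-! ### The kernel at the nodes without division -/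

section

variable {s C x : ℝ}

theorem Rot.zero (h : Rot C 0) : C = 1 := by
  have := h.sq
  have := h.C0
  nlinarith

theorem n60_kA0 (hs : 0 < s) (hs1 : s ≤ 11 / 400) (h : Rot C x) :
    kA s (C / 2 - h0 * x) (h0 * C + x / 2) = RA par s |x| * (1 / 2 - h0 * (x / (1 + C))) := by
  have hh := h0_pos
  have g1 := h0_gt
  have g2 := h0_lt
  have g3 := h0_lt_one
  by_cases hx : x = 0
  · subst hx
    have e := h.zero
    subst e
    have e1 : (1 : ℝ) / 2 - h0 * 0 = c1 h0 := by rw [c1_h0]; ring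
    have e2 : h0 * 1 + (0 : ℝ) / 2 = h0 := by ring
    rw [e1, e2, kA_c1 hh.le g3]
    unfold R1
    rw [if_neg (by linarith), if_neg (by linarith), c1_h0]
    have e3 : h0 / 2 - h0 * (1 / 2) = 0 := by ring
    rw [e3]
    simp
  · obtain ⟨-, e2, e3, -, -, e6⟩ := n60_facts h
    rw [n60_kA hs hs1 h hx, tau_mi (by linarith) (by linarith), e6]
    field_simp

/-- The residue of a node next to 60 degrees. -/
theorem n60_res (hs : 0 < s) (hs1 : s ≤ 11 / 400) (h : Rot C x) (κ : ℝ) :
    |kA s (C / 2 - h0 * x) (h0 * C + x / 2) - κ * tau (h0 * C + x / 2)| =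
      |RA par s |x| - κ * x| * (1 / 2 - h0 * (x / (1 + C))) := by
  have hh := h0_pos
  have g1 := h0_gt
  have g2 := h0_lt
  obtain ⟨b1, b2⟩ := h0_bd
  obtain ⟨-, e2, e3, -, -, e6⟩ := n60_facts h
  obtain ⟨u, hu, -, hu2, -, -⟩ := h.half
  rw [n60_kA0 hs hs1 h, tau_mi (by linarith) (by linarith), e6, mul_div_assoc, hu]
  have p : 0 ≤ 1 / 2 - h0 * u := by
    have := (abs_le.1 hu2).2
    nlinarith
  have e : RA par s |x| * (1 / 2 - h0 * u) - κ * (x * (1 / 2 - h0 * u)) =
      (RA par s |x| - κ * x) * (1 / 2 - h0 * u) := by ring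
  rw [e, abs_mul, abs_of_nonneg p]

/-- The residue of a node next to 30 degrees. -/
theorem n30_res (hs : 0 < s) (hs1 : s ≤ 11 / 400) (h : Rot C x) (κ : ℝ) :
    |kA s (3 / 2 * C - h0 * x) (h0 * C + 3 / 2 * x) - κ * tau (h0 * C + 3 / 2 * x)| ≤
      |RA par s |x| - κ * x| * (3 / 2 - h0 * (x / (1 + C))) := by
  have hh := h0_pos
  have g1 := h0_gt
  have g2 := h0_lt
  obtain ⟨b1, b2⟩ := h0_bd
  by_cases hx : x = 0
  · subst hx
    have e := h.zero
    subst e
    have e1 : (3 : ℝ) / 2 * 1 - h0 * 0 = c3 h0 := by rw [c3_h0]; ring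
    have e2 : h0 * 1 + (3 : ℝ) / 2 * 0 = h0 := by ring
    rw [e1, e2, kA_c3 hh.le (by rw [h0_sq']; norm_num), tau_mi (by linarith) (by linarith)]
    unfold R3
    rw [if_neg (by linarith), if_pos (by linarith), c3_h0]
    have e3 : h0 / 2 - 3 / 2 / (4 * h0) = 0 := by
      rw [quot4]
      ring
    rw [e3]
    simp only [abs_zero, zero_div, mul_zero, sub_zero, sub_self, abs_mul]
    rw [abs_of_pos (by norm_num : (0 : ℝ) < 3 / 2)]
  · obtain ⟨-, e2, e3, -, -, -, e6⟩ := n30_facts h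
    rw [n30_kA hs hs1 h hx]
    have e : RA par s |x| / x * tau (h0 * C + 3 / 2 * x) - κ * tau (h0 * C + 3 / 2 * x) =
        (RA par s |x| - κ * x) * (tau (h0 * C + 3 / 2 * x) / x) := by
      field_simp
    rw [e, abs_mul]
    refine mul_le_mul_of_nonneg_left ?_ (abs_nonneg _)
    rw [mul_div_assoc] at e6
    obtain ⟨u, hu, -, hu2, -, -⟩ := h.half
    rw [hu] at e6 ⊢
    have p : 0 ≤ 3 / 2 - h0 * u := by
      have := (abs_le.1 hu2).2
      nlinarith
    have ax : 0 < |x| := abs_pos.2 hx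
    rw [abs_div, div_le_iff₀ ax]
    have e7 : (3 / 2 - h0 * u) * |x| = |h0 * C + 3 / 2 * x - h0| := by
      rw [e6, abs_mul, abs_of_nonneg p]
      ring
    rw [e7]
    rcases lt_or_ge (h0 * C + 3 / 2 * x) (h0 / 2) with h1 | h1
    · rw [tau_lo h1, abs_of_nonneg e2, abs_of_neg (by linarith)]
      linarith
    · rcases lt_or_ge (h0 * C + 3 / 2 * x) (3 * h0 / 2) with h2 | h2
      · rw [tau_mi h1 h2]
      · rw [tau_hi h2, abs_of_neg (by linarith), abs_of_nonneg (by linarith)]
        linarith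

/-- The residue of a node next to the horizontal direction. -/
theorem n0_res (h : Rot C x) (hx : 0 ≤ x) (κ : ℝ) :
    |kA s C x - κ * tau x| ≤ |RA par s x - κ * x| := by
  have hh := h0_pos
  have g1 := h0_gt
  rcases hx.eq_or_lt with h0' | h0'
  · subst h0'
    have e := h.zero
    subst e
    have e1 : (1 : ℝ) = c1 0 := (n0_facts h le_rfl).symm
    have e2 : kA s 1 0 = RA par s 0 := by
      conv_lhs => rw [e1]
      rw [kA_c1 le_rfl zero_lt_one]
      unfold R1
      rw [if_pos (by linarith)]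
    rw [e2, tau_lo (by linarith)]
  · rw [n0_kA h h0']
    have e : RA par s x / x * tau x - κ * tau x = (RA par s x - κ * x) * (tau x / x) := by
      field_simp
    rw [e, abs_mul]
    have e2 : |tau x / x| ≤ 1 := by
      rw [abs_div, abs_of_pos h0', div_le_one h0']
      rcases lt_or_ge x (h0 / 2) with h1 | h1
      · rw [tau_lo h1, abs_of_pos h0']
      · rw [tau_mi h1 (by linarith [h.hi]), abs_of_neg (by linarith [h.hi])]
        linarith
    calc |RA par s x - κ * x| * |tau x / x| ≤ |RA par s x - κ * x| * 1 :=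
          mul_le_mul_of_nonneg_left e2 (abs_nonneg _)
      _ = _ := mul_one _

/-- The residue of a node next to the vertical direction. -/
theorem n90_res (hs : 0 < s) (hs1 : s ≤ 11 / 400) (h : Rot C x) (hx : 0 < x) (κ : ℝ) :
    |kA s (2 * h0 * x) (2 * h0 * C) + κ * tau (2 * h0 * C)| =
      |RA par s x - κ * x| * (2 * h0 * (x / (1 + C))) := by
  have hh := h0_pos
  have g2 := h0_lt
  obtain ⟨-, e2, -, e4⟩ := n90_facts h hx.le
  obtain ⟨u, hu, -, -, hu3, -⟩ := h.half
  have u0 := hu3 hx.le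
  rw [n90_kA hs hs1 h hx, tau_hi (by linarith), e4, hu]
  have e : -(RA par s x / x) * -(2 * h0 * x * u) + κ * -(2 * h0 * x * u) =
      (RA par s x - κ * x) * (2 * h0 * u) := by
    field_simp
    ring
  rw [e, abs_mul, abs_of_nonneg (mul_nonneg (by positivity) u0)]

/-- The level at a long node next to the vertical direction. -/
theorem n90_kX (hs : 0 < s) (hs1 : s ≤ 11 / 400) (h : Rot C x) (hx : 0 ≤ x) :
    kX s (2 * h0 * x) (2 * h0 * C) = 2 * lvl s x - s ^ 2 * xA par s (x / s) := by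
  have hh := h0_pos
  obtain ⟨e1, e2, e3, e4⟩ := n90_facts h hx
  have z : c3 (2 * h0 * C) / (2 * h0) = x := by
    rw [e1]
    field_simp
  rw [← e1, kX_c3 (by linarith) e3]
  have g2 := h0_lt
  rcases e2.eq_or_lt with h2 | h2
  · -- `x = 1/2`
    have h5 : C = h0 := by
      have hq := h0_sq'
      have : h0 * (C - h0) = 0 := by linarith
      rcases mul_eq_zero.1 this with h6 | h6
      · linarith
      · linarith
    have h4 : x = 1 / 2 := by
      have a := h.sq
      rw [h5] at a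
      have := h0_sq'
      nlinarith
    have z0 : (2 * h0 * C) / 2 - c3 (2 * h0 * C) / (4 * h0) = 1 / 2 := by
      rw [e1, ← h2, h4, quot4]
      have := h0_sq'
      linear_combination (-1 / 3) * this
    have l := lvl_far hs (by linarith : 5 * s ≤ (1 / 2 : ℝ))
    have a := xA_far hs (by linarith : 4 * s ≤ (1 / 2 : ℝ))
    unfold X3
    rw [if_neg (by linarith), if_pos h2.ge, z0, h4, a, l]
    unfold lvl at l
    linear_combination -l
  · unfold X3 lvl
    rw [if_neg (by linarith), if_neg (by linarith), z]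
    ring

end

/-! ### Where the kernels vanish -/

/-- The bounds at the distance `d` from a point where the kernels vanish. -/
structure Zn (s X T d : ℝ) : Prop where
  A : |kA s X T| ≤ 16 / 5 * d
  R : s * |kR s X T| ≤ 1 / 10 * d
  L : |kX s X T| ≤ 1 / 40 * d

theorem Zn.neg {s X T d : ℝ} (h : Zn s X T d) : Zn s (-X) T d := by
  refine ⟨?_, ?_, ?_⟩
  · rw [kA_neg, abs_neg]
    exact h.A
  · rw [kR_neg, abs_neg]
    exact h.R
  · rw [kX_neg, abs_neg]
    exact h.L

/-- The bounds from the sum of the displacements. -/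
theorem zn_of {s X T dX dT d : ℝ} (hd : 0 ≤ d) (h : dX ^ 2 + dT ^ 2 ≤ d ^ 2)
    (hA : |kA s X T| ≤ 9 / 4 * (|dX| + |dT|)) (hR : s * |kR s X T| ≤ 1 / 16 * (|dX| + |dT|))
    (hL : |kX s X T| ≤ 1 / 64 * (|dX| + |dT|)) : Zn s X T d := by
  have a := abs_nonneg dX
  have b := abs_nonneg dT
  have k : |dX| + |dT| ≤ 1415 / 1000 * d := by
    refine le_of_sq2 (by positivity) ?_
    have e1 := sq_abs dX
    have e2 := sq_abs dT
    nlinarith [sq_nonneg (|dX| - |dT|)]
  exact ⟨by linarith, by linarith, by linarith⟩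

/-- **The crossing criterion.** -/
theorem cross_ok {s X12 X13 t t' d12 d23 d13 : ℝ} (hs : 0 < s) (hs1 : s ≤ 11 / 400)
    (z1 : Zn s X12 t d12) (z2 : Zn s (X13 - X12) t' d23) (z3 : Zn s X13 (t + t') d13)
    (hE : 7 / 100 * (d12 + d23 + d13) ≤ exn X12 X13 t t') : OKC s X12 X13 t t' := by
  have n1 : 0 ≤ d12 := by linarith [z1.A, abs_nonneg (kA s X12 t)]
  have n2 : 0 ≤ d23 := by linarith [z2.A, abs_nonneg (kA s (X13 - X12) t')]
  have n3 : 0 ≤ d13 := by linarith [z3.A, abs_nonneg (kA s X13 (t + t'))]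
  refine ⟨0, 0, le_rfl, le_trans ?_ hE⟩
  unfold cost
  simp only [zero_mul, sub_zero, add_zero]
  have a := mul_le_mul_of_nonneg_left (add_le_add (add_le_add z1.A z2.A) z3.A) hs.le
  have b := mul_le_mul_of_nonneg_left (add_le_add (add_le_add z1.R z2.R) z3.R) hs.le
  have c := add_le_add (add_le_add z1.L z2.L) z3.L
  have n : 0 ≤ d12 + d23 + d13 := by linarith
  have e := mul_nonneg n (by linarith : 0 ≤ 11 / 400 - s)
  nlinarith

end Pool.Agent.Strip051.LC.E0.Out
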