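import Pool.Agent.Strip051.LC.E0.OutM
import Pool.Agent.Strip051.LC.E0.O3.Zer2

/-! # Small rests: nodes on the circles, the reflection -/

namespace Pool.Agent.Strip051.LC.E0.Out

open Pool.Agent.StripNear Pool.Agent.StripSquare Pool.Agent.Strip051 Pool.Agent.Strip051.Sweep
open Pool.Agent.Strip051.LC.Exact (kE)
open Pool.Agent.Strip051.LC.Line (tau)

/-- The statements at both vertices. -/
def OK2 (s X12 X13 t t' : ℝ) : Prop :=
  farD (kE s) s (vA par s) (vX par s) X12 X13 t t' (K.valK X12 X13 t t') ∧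
    nearT 0 3 (kE s) s (vB par s) (vX par s) X12 X13 t t' (K.valK X12 X13 t t')

theorem ok2_of {s X12 X13 t t' : ℝ} (hs : 0 < s) (hs1 : s ≤ 11 / 400)
    (h : Sides X12 X13 t t') (hE : OKC s X12 X13 t t') : OK2 s X12 X13 t t' := by
  obtain ⟨k, b, hb, hc⟩ := hE
  exact of_cost hs hs1 hb h hc

/-- The statements are symmetric. -/
theorem ok2_mir {s X12 X13 t t' : ℝ} (hs0 : 0 ≤ s) (hs1 : s < h0)
    (h : OK2 s (X12 - X13) (-X13) t' t) : OK2 s X12 X13 t t' := by
  obtain ⟨h1, h2⟩ := h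
  constructor
  · rw [Cur.valK_flip] at h1
    exact farD_sym hs0 hs1 _ _ _ _ _ h1
  · rw [Cur.valK_flip] at h2
    have h2' : nearD 0 3 (kE s) s (fun _ => 0) (vB par s) (vX par s) (fun _ _ => 0) (X12 - X13)
        (-X13) t' t (Cur.flip (K.valK X12 X13 t t')) := by
      intro y
      rw [pf_zero_den, mul_zero, add_zero]
      exact h2 y
    have h3 := nearD_sym hs0 hs1 (fun x => by simp) _ _ _ _ _ h2'
    intro y
    have := h3 y
    rw [pf_zero_den, mul_zero, add_zero] at this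
    exact this

theorem sides_mir {X12 X13 t t' : ℝ} (h : Sides X12 X13 t t') : Sides (X12 - X13) (-X13) t' t where
  t0 := h.t1
  t1 := h.t0
  a1 := by
    have := h.b1
    nlinarith
  a3 := by
    have := h.b3
    nlinarith
  b1 := by
    have := h.a1
    nlinarith
  b3 := by
    have := h.a3
    nlinarith
  c1 := by
    have := h.c1
    nlinarith
  c3 := by
    have := h.c3
    nlinarith

theorem exn_mir (X12 X13 t t' : ℝ) : exn (X12 - X13) (-X13) t' t = exn X12 X13 t t' := by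
  unfold exn
  ring

/-! ### The nodes -/

/-- The directions of the unit nodes. -/
def D1 (i : Fin 4) (C x X T : ℝ) : Prop :=
  match i with
  | 0 => 0 ≤ x ∧ X = C ∧ T = x
  | 1 => X = C / 2 - h0 * x ∧ T = h0 * C + x / 2
  | 2 => X = -(C / 2) - h0 * x ∧ T = h0 * C - x / 2
  | 3 => x ≤ 0 ∧ X = -C ∧ T = -x

theorem node_c1 {X T : ℝ} (hT : 0 ≤ T) (h1 : T ≤ 1) (h : |X| = c1 T) :
    ∃ (i : Fin 4) (C x : ℝ), Rot C x ∧ D1 i C x X T := by
  have hh := h0_pos
  have hq := h0_sq'
  have e := c1_sq hT h1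
  have c := c1_nonneg T
  rcases le_or_gt T (1 / 2) with h2 | h2
  · rcases abs_cases X with ⟨h3, h4⟩ | ⟨h3, h4⟩
    · exact ⟨0, c1 T, T, ⟨c, e, by linarith, h2⟩, hT, by rw [← h, h3], rfl⟩
    · exact ⟨3, c1 T, -T, ⟨c, by rw [neg_sq]; exact e, by linarith, by linarith⟩,
        by linarith, by rw [← h, h3]; ring, by ring⟩
  · have ch : c1 T ≤ h0 := by
      refine le_of_sq2 hh.le ?_
      nlinarith
    have hR : Rot (c1 T / 2 + h0 * T) (T / 2 - h0 * c1 T) := by
      refine ⟨by positivity, (c1_rot hT h1).1, ?_, ?_⟩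
      · nlinarith
      · nlinarith
    rcases abs_cases X with ⟨h3, h4⟩ | ⟨h3, h4⟩
    · refine ⟨1, _, _, hR, ?_, ?_⟩
      · rw [← h3, h]
        linear_combination (-c1 T) * hq
      · linear_combination (-T) * hq
    · refine ⟨2, _, _, hR.neg, ?_, ?_⟩
      · have : X = -c1 T := by rw [← h, h3]; ring
        rw [this]
        linear_combination (c1 T) * hq
      · linear_combination (-T) * hq

/-- The directions of the long nodes. -/
def D3 (i : Fin 3) (C x X T : ℝ) : Prop :=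
  match i with
  | 0 => X = 3 / 2 * C - h0 * x ∧ T = h0 * C + 3 / 2 * x
  | 1 => X = -(2 * h0 * x) ∧ T = 2 * h0 * C
  | 2 => X = -(3 / 2 * C) - h0 * x ∧ T = h0 * C - 3 / 2 * x

theorem node_c3 {X T : ℝ} (hT : 0 ≤ T) (h1 : T ^ 2 ≤ 3) (h : |X| = c3 T) :
    ∃ (i : Fin 3) (C x : ℝ), Rot C x ∧ D3 i C x X T := by
  have hh := h0_pos
  have hq := h0_sq'
  have e := c3_sq h1
  have c := c3_nonneg T
  have g2 := h0_lt
  have hi : 1 / h0 = 4 / 3 * h0 := by
    field_simp
    linarith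
  rcases le_or_gt (3 / 2) T with h2 | h2
  · have ch : c3 T ≤ h0 := by
      refine le_of_sq2 hh.le ?_
      nlinarith
    have eX : X ^ 2 = c3 T ^ 2 := by rw [← h, sq_abs]
    have aX : |X| ≤ h0 := by rw [h]; exact ch
    obtain ⟨x0, x1⟩ := abs_le.1 aX
    refine ⟨1, T * (2 / 3 * h0), -X * (2 / 3 * h0), ⟨by positivity, ?_, ?_, ?_⟩, ?_, ?_⟩
    · linear_combination (4 / 9 * h0 ^ 2) * eX + (4 / 9 * h0 ^ 2) * e + 4 / 3 * hq
    · nlinarith
    · nlinarith
    · linear_combination (-4 / 3 * X) * hq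
    · linear_combination (-4 / 3 * T) * hq
  · have cl : h0 ≤ c3 T := by
      refine le_of_sq2 c ?_
      nlinarith
    have cu : c3 T ≤ 2 * h0 := by
      refine le_of_sq2 (by positivity) ?_
      nlinarith
    have key : ∀ Y : ℝ, Y = c3 T → Rot (Y / 2 + T * (h0 / 3)) (T / 2 - Y * (h0 / 3)) := by
      intro Y hY
      subst hY
      refine ⟨by positivity, ?_, ?_, ?_⟩
      · linear_combination ((c3 T) ^ 2 / 9 + T ^ 2 / 9) * hq + 1 / 3 * e
      · nlinarith
      · nlinarith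
    rcases abs_cases X with ⟨h3, h4⟩ | ⟨h3, h4⟩
    · refine ⟨0, _, _, key (c3 T) rfl, ?_, ?_⟩
      · rw [← h3, h]
        linear_combination (-c3 T / 3) * hq
      · linear_combination (-T / 3) * hq
    · refine ⟨2, _, _, (key (c3 T) rfl).neg, ?_, ?_⟩
      · have : X = -c3 T := by rw [← h, h3]; ring
        rw [this]
        linear_combination (c3 T / 3) * hq
      · linear_combination (-T / 3) * hq

end Pool.Agent.Strip051.LC.E0.Out
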