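import Pool.Agent.Strip051.LC.E0.Fin

/-! # Small rests: the sign patterns -/

namespace Pool.Agent.Strip051.LC.E0

open Pool.Agent.StripNear Pool.Agent.StripSquare Pool.Agent.Strip051 Pool.Agent.Strip051.Sweep
open Pool.Agent.Strip051.LC.Line
open Pool.Agent.Strip051.LC.Exact (kE)
open G

theorem jt_low {T : ℝ} (h : T < h0 / 2) : jn T = 0 ∧ tau T = T := by
  have e : jn T = 0 := if_pos h
  refine ⟨e, ?_⟩
  unfold tau
  rw [e]
  simp

theorem jt_mid {T : ℝ} (h : h0 / 2 ≤ T) (h' : T < 3 * h0 / 2) : jn T = 1 ∧ tau T = T - h0 := by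
  have e : jn T = 1 := by
    unfold jn
    rw [if_neg h.not_gt, if_pos h']
  refine ⟨e, ?_⟩
  unfold tau
  rw [e]
  simp

theorem jt_top {T : ℝ} (h : 3 * h0 / 2 ≤ T) : jn T = 2 ∧ tau T = T - 2 * h0 := by
  have hp := h0_pos
  have e : jn T = 2 := by
    unfold jn
    rw [if_neg (by linarith), if_neg (by linarith)]
  refine ⟨e, ?_⟩
  unfold tau
  rw [e]
  push_cast
  ring

/-- The heights of the window. -/
structure Win (x w z : ℝ) : Prop where
  x0 : 0 < x
  s1 : h0 * x ≤ 11 / 400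
  w0 : 0 ≤ w
  w1 : w ≤ 8
  z0 : -8 ≤ z
  z1 : z ≤ 8
  u0 : -8 ≤ w + z
  u1 : w + z ≤ 46 / 5
  hz : x * z ≤ 3 / 25
  hu : x * (w + z) ≤ 3 / 25

section

variable {x w z : ℝ}

theorem Win.x1 (h : Win x w z) : x ≤ 4 / 125 := by
  have := h.s1
  have := h.x0
  have := h0_gt
  nlinarith

theorem Win.xz (h : Win x w z) {u : ℝ} (u0 : -8 ≤ u) (u1 : u ≤ 8) :
    -(32 / 125) ≤ x * u ∧ x * u ≤ 32 / 125 := by
  have := h.x0
  have := h.x1
  constructor <;> nlinarith

theorem Win.xu (h : Win x w z) : -(32 / 125) ≤ x * (w + z) ∧ x * (w + z) ≤ 32 / 125 := by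
  have h0' := h.x0
  have h1 := h.x1
  have h2 := h.u0
  have h3 := h.hu
  constructor <;> nlinarith

theorem Win.jt (h : Win x w z) : (jn (h0 * (x * w)) = 0 ∧ tau (h0 * (x * w)) = h0 * (x * w)) ∧
    (jn (h0 * (1 + x * z)) = 1 ∧ tau (h0 * (1 + x * z)) = h0 * (x * z)) ∧
    (jn (h0 * (x * w) + h0 * (1 + x * z)) = 1 ∧
      tau (h0 * (x * w) + h0 * (1 + x * z)) = h0 * (x * (w + z))) := by
  have hh := h0_pos
  have a := h.xz (u := w) (by linarith [h.w0]) h.w1
  have b := h.xz h.z0 h.z1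
  have c := h.xu
  have q1 := jt_low (T := h0 * (x * w)) (by nlinarith)
  have q2 := jt_mid (T := h0 * (1 + x * z)) (by nlinarith) (by nlinarith)
  have q3 := jt_mid (T := h0 * (x * w) + h0 * (1 + x * z))
    (by rw [← mul_add]; nlinarith) (by rw [← mul_add]; nlinarith)
  refine ⟨q1, ⟨q2.1, ?_⟩, q3.1, ?_⟩
  · rw [q2.2]; ring
  · rw [q3.2]; ring

theorem exn_win {X12 X13 om K13 xi : ℝ} (hx : x ≠ 0) (h12 : X12 = 1 - x ^ 2 * om)
    (h13 : X13 = K13 + x * xi) : exn X12 X13 (h0 * (x * w)) (h0 * (1 + x * z)) =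
      x ^ 2 * ((w + z - w * K13) / (2 * x) + -(om * (1 + x * (w + z)) + xi * w) / 2) := by
  have hh := h0_pos
  unfold exn
  rw [h12, h13]
  field_simp
  ring

variable {X12 X13 K13 k12 k23 k13 base lev : ℝ}

/-- All three residues are nonnegative. -/
theorem pat_pp (h : Win x w z) (hz : 0 ≤ z)
    (hE : exn X12 X13 (h0 * (x * w)) (h0 * (1 + x * z)) =
      x ^ 2 * ((w + z - w * K13) / (2 * x) + base))
    (hS : Slk x w z (w + z) (w + z - w * K13) (z * k12 - w * k23) (k12 + k23 - k13) base lev)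
    (y : ℝ) : 0 ≤ exn X12 X13 (h0 * (x * w)) (h0 * (1 + x * z)) - x ^ 2 * lev +
      kf (kE (h0 * x)) (h0 * x) (1 + x * k12, K13 - 1 + x * k23, K13 + x * k13)
        (h0 * (x * w)) (h0 * (1 + x * z)) y := by
  have hh := h0_pos
  have hx0 := h.x0
  have hx1 := h.x1
  have g1 := h0_gt
  have g2 := h0_lt
  obtain ⟨⟨j1, e1⟩, ⟨j2, e2⟩, ⟨j3, e3⟩⟩ := h.jt
  have b := h.xu
  have b2 := h.xz h.z0 h.z1
  have key : NGV (kE (h0 * x)) (h0 * x)
      (exn X12 X13 (h0 * (x * w)) (h0 * (1 + x * z)) - x ^ 2 * lev) (h0 * (x * w))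
      (h0 * (1 + x * z)) (1 + x * k12, K13 - 1 + x * k23, K13 + x * k13) := by
    refine .pp (by rw [j1, j2, j3]) ?_ ?_ ?_
    · rw [e1]
      have := h.w0
      positivity
    · rw [e2]
      positivity
    · rw [e1, e2]
      refine slk_mon hx0 (by linarith) (ep_pos hx0.le (by linarith)) (l := w + z) (n := w + z - w * K13)
        (gam := z * k12 - w * k23) (del := k12 + k23 - k13) (base := base) (lev := lev) rfl
        ?_ ?_ ?_ hS
      · simp only
        ring
      · simp only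
        ring
      · rw [hE]
        ring
  exact key.dir (kE_nonneg (by positivity) h.s1) (by positivity) (by nlinarith)
    (by have := h.w0; positivity) (by nlinarith) (by rw [← mul_add]; nlinarith) y

/-- The residue of the middle-top side is negative. -/
theorem pat_pnp (h : Win x w z) (hz : z ≤ 0) (hu : 0 ≤ w + z)
    (hE : exn X12 X13 (h0 * (x * w)) (h0 * (1 + x * z)) =
      x ^ 2 * ((w + z - w * K13) / (2 * x) + base))
    (hS : Slk x (w + z) (-z) w (w + z - w * K13)
      (z * k12 - w * k23 - z * (k12 + k23 - k13)) (k12 + k23 - k13) base lev)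
    (y : ℝ) : 0 ≤ exn X12 X13 (h0 * (x * w)) (h0 * (1 + x * z)) - x ^ 2 * lev +
      kf (kE (h0 * x)) (h0 * x) (1 + x * k12, K13 - 1 + x * k23, K13 + x * k13)
        (h0 * (x * w)) (h0 * (1 + x * z)) y := by
  have hh := h0_pos
  have hx0 := h.x0
  have hx1 := h.x1
  have g1 := h0_gt
  have g2 := h0_lt
  obtain ⟨⟨j1, e1⟩, ⟨j2, e2⟩, ⟨j3, e3⟩⟩ := h.jt
  have b := h.xu
  have b2 := h.xz h.z0 h.z1
  have key : NGV (kE (h0 * x)) (h0 * x)
      (exn X12 X13 (h0 * (x * w)) (h0 * (1 + x * z)) - x ^ 2 * lev) (h0 * (x * w))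
      (h0 * (1 + x * z)) (1 + x * k12, K13 - 1 + x * k23, K13 + x * k13) := by
    refine .pnp (by rw [j1, j2, j3]) ?_ ?_ ?_ ?_
    · rw [e1]
      have := h.w0
      positivity
    · rw [e2]
      have : 0 ≤ h0 * (x * -z) := by
        have : 0 ≤ -z := by linarith
        positivity
      linarith
    · rw [e3]
      positivity
    · rw [e2, e3, show -(h0 * (x * z)) = h0 * (x * -z) by ring]
      refine slk_mon hx0 (by linarith) (ep_pos hx0.le (by linarith)) (l := w) (n := w + z - w * K13)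
        (gam := z * k12 - w * k23 - z * (k12 + k23 - k13)) (del := k12 + k23 - k13)
        (base := base) (lev := lev) (by ring) ?_ ?_ ?_ hS
      · simp only
        ring
      · simp only
        ring
      · rw [hE]
        ring
  exact key.dir (kE_nonneg (by positivity) h.s1) (by positivity) (by nlinarith)
    (by have := h.w0; positivity) (by nlinarith) (by rw [← mul_add]; nlinarith) y

/-- The residues of the middle-top and of the bottom-top side are negative. -/
theorem pat_pnn (h : Win x w z) (hu : w + z ≤ 0)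
    (hE : exn X12 X13 (h0 * (x * w)) (h0 * (1 + x * z)) =
      x ^ 2 * ((w + z - w * K13) / (2 * x) + base))
    (hS : Slk x (-(w + z)) w (-z) (w + z - w * K13)
      (z * k12 - w * k23 + w * (k12 + k23 - k13)) (k12 + k23 - k13) base lev)
    (y : ℝ) : 0 ≤ exn X12 X13 (h0 * (x * w)) (h0 * (1 + x * z)) - x ^ 2 * lev +
      kf (kE (h0 * x)) (h0 * x) (1 + x * k12, K13 - 1 + x * k23, K13 + x * k13)
        (h0 * (x * w)) (h0 * (1 + x * z)) y := by
  have hh := h0_pos
  have hx0 := h.x0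
  have hx1 := h.x1
  have g1 := h0_gt
  have g2 := h0_lt
  have hw := h.w0
  obtain ⟨⟨j1, e1⟩, ⟨j2, e2⟩, ⟨j3, e3⟩⟩ := h.jt
  have b := h.xu
  have b2 := h.xz h.z0 h.z1
  have key : NGV (kE (h0 * x)) (h0 * x)
      (exn X12 X13 (h0 * (x * w)) (h0 * (1 + x * z)) - x ^ 2 * lev) (h0 * (x * w))
      (h0 * (1 + x * z)) (1 + x * k12, K13 - 1 + x * k23, K13 + x * k13) := by
    refine .pnn (by rw [j1, j2, j3]) ?_ ?_ ?_ ?_
    · rw [e1]
      positivity
    · rw [e2]
      have : 0 ≤ h0 * (x * -z) := by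
        have : 0 ≤ -z := by linarith
        positivity
      linarith
    · rw [e3]
      have : 0 ≤ h0 * (x * -(w + z)) := by
        have : 0 ≤ -(w + z) := by linarith
        positivity
      linarith
    · rw [e1, e3, show -(h0 * (x * (w + z))) = h0 * (x * -(w + z)) by ring]
      refine slk_mon hx0 (by linarith) (ep_pos hx0.le (by linarith)) (l := -z) (n := w + z - w * K13)
        (gam := z * k12 - w * k23 + w * (k12 + k23 - k13)) (del := k12 + k23 - k13)
        (base := base) (lev := lev) (by ring) ?_ ?_ ?_ hS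
      · simp only
        ring
      · simp only
        ring
      · rw [hE]
        ring
  exact key.dir (kE_nonneg (by positivity) h.s1) (by positivity) (by nlinarith)
    (by positivity) (by nlinarith) (by rw [← mul_add]; nlinarith) y

end

end Pool.Agent.Strip051.LC.E0
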