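import Pool.Agent.Strip051.LC.Exact.FamQ
import Pool.Agent.Strip051.LC.Exact.CertT

/-! # The curves for small rests

Below the height `h0`: `c1`, the point at one third between `c1` and `W` (a node only above
`h0 / 2`), `W`, `c3`.  Above `h0`: `c1`, `W` (a node only below `3 h0 / 2`), the point at `3 / 20`
between `W` and `c3`, `c3`. -/

namespace Pool.Agent.Strip051.LC.E0

open Pool.Agent.StripNear Pool.Agent.StripSquare Pool.Agent.Strip051 Pool.Agent.Strip051.Sweep

/-- The positions below `h0`. -/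
noncomputable def posL : Pos 3 where
  ρ := ![0, 1 / 3, 1, 2]
  zero := rfl
  last := rfl
  mono := by
    rw [Fin.strictMono_iff_lt_succ]
    intro i
    fin_cases i <;> simp [Fin.castSucc, Fin.succ] <;> norm_num

/-- The positions above `h0`. -/
noncomputable def posU : Pos 3 where
  ρ := ![0, 1, 23 / 20, 2]
  zero := rfl
  last := rfl
  mono := by
    rw [Fin.strictMono_iff_lt_succ]
    intro i
    fin_cases i <;> simp [Fin.castSucc, Fin.succ] <;> norm_num

/-- The curves. -/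
noncomputable def pos : PosQ 3 where
  Q T := if T < h0 then posL else posU
  real j T := j = 1 → h0 / 2 ≤ T ∧ T < 3 * h0 / 2
  real0 _ h := by simp at h
  realL _ h := by
    have : (Fin.last 3 : Fin 4) = 3 := rfl
    rw [this] at h
    simp at h

/-- The system of curves. -/
noncomputable def K : Cur 3 (Fin 4) := pos.cur

theorem Q_low {T : ℝ} (h : T < h0) : pos.Q T = posL := if_pos h

theorem Q_high {T : ℝ} (h : h0 ≤ T) : pos.Q T = posU := if_neg h.not_gt

theorem cv_zero (T : ℝ) : pos.cv 0 T = c1 T := pos.cv_zero T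

theorem cv_three (T : ℝ) : pos.cv 3 T = c3 T := pos.cv_last T

theorem cv_one_low {T : ℝ} (h : T < h0) : pos.cv 1 T = c1 T + 1 / 3 * (Wc T - c1 T) := by
  unfold PosQ.cv Pos.cv
  rw [Q_low h]
  exact gam_low (by simp [posL]; norm_num)

theorem cv_two_low {T : ℝ} (h : T < h0) : pos.cv 2 T = Wc T := by
  unfold PosQ.cv Pos.cv
  rw [Q_low h]
  exact gam_one T

theorem cv_one_high {T : ℝ} (h : h0 ≤ T) : pos.cv 1 T = Wc T := by
  unfold PosQ.cv Pos.cv
  rw [Q_high h]
  exact gam_one T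

theorem cv_two_high {T : ℝ} (h : h0 ≤ T) : pos.cv 2 T = Wc T + 3 / 20 * (c3 T - Wc T) := by
  unfold PosQ.cv Pos.cv
  rw [Q_high h]
  have e : posU.ρ 2 = 23 / 20 := rfl
  rw [e, gam_high (by norm_num)]
  norm_num

theorem dm_zero {T : ℝ} : pos.dm 0 T ↔ T < 1 ∧ T ^ 2 < 3 := by
  unfold PosQ.dm Pos.dm
  constructor
  · rintro ⟨⟨h1, -, h3, -⟩, -⟩
    exact ⟨h1 rfl, h3 (by decide)⟩
  · rintro ⟨h1, h2⟩
    exact ⟨⟨fun _ => h1, fun h => absurd rfl h, fun _ => h2, h2.le⟩, pos.real0 T⟩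

theorem dm_three {T : ℝ} : pos.dm 3 T ↔ T ^ 2 ≤ 3 := by
  constructor
  · intro h
    exact h.1.2.2.2
  · intro h
    exact pos.dm_last h

theorem dm_one {T : ℝ} : pos.dm 1 T ↔ h0 / 2 ≤ T ∧ T < 3 * h0 / 2 ∧ T ≠ h0 := by
  have hp := h0_pos
  have hs := h0_sq'
  unfold PosQ.dm Pos.dm
  constructor
  · rintro ⟨⟨-, h2, -, -⟩, h5⟩
    have h6 := h5 rfl
    refine ⟨h6.1, h6.2, fun h => ?_⟩
    have := h2 (by decide) (by
      rw [h, Q_high le_rfl]
      exact le_rfl)
    exact this.2 h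
  · rintro ⟨h1, h2, h3⟩
    have h4 : T ^ 2 < 3 := by nlinarith
    exact ⟨⟨fun h => by simp at h, fun _ _ => ⟨by linarith, h3⟩, fun _ => h4, h4.le⟩,
      fun _ => ⟨h1, h2⟩⟩

theorem dm_two {T : ℝ} : pos.dm 2 T ↔ T ^ 2 < 3 ∧ (T < h0 → 0 < T) := by
  have hp := h0_pos
  unfold PosQ.dm Pos.dm
  constructor
  · rintro ⟨⟨-, h2, h3, -⟩, -⟩
    refine ⟨h3 (by decide), fun h => ?_⟩
    exact (h2 (by decide) (by
      rw [Q_low h]
      exact le_rfl)).1
  · rintro ⟨h1, h2⟩
    refine ⟨⟨fun h => by simp at h, fun _ h => ?_, fun _ => h1, h1.le⟩, fun h => by simp at h⟩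
    rcases lt_or_ge T h0 with h5 | h5
    · exact ⟨h2 h5, h5.ne⟩
    · rw [Q_high h5] at h
      exfalso
      have e : posU.ρ 2 = 23 / 20 := rfl
      rw [e] at h
      norm_num at h

end Pool.Agent.Strip051.LC.E0
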