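import Pool.Agent.Strip051.LC.E0.MoveW

/-! # Small rests: reduction to the horizontal side on the unit circle -/

namespace Pool.Agent.Strip051.LC.E0

open Pool.Agent.StripNear Pool.Agent.StripSquare Pool.Agent.Strip051 Pool.Agent.Strip051.Sweep
open Pool.Agent.Strip051.LC.Line
open G

section

variable {x w z : ℝ}

/-- The numbers. -/
theorem Win.nums (h : Win x w z) : 39 / 40 ≤ c1 (h0 * (x * w)) ∧ c1 (h0 * (x * w)) ≤ 1 := by
  have h1 := (h.rz.x0)
  have a0 : 0 ≤ x * w := mul_nonneg h1.le h.w0
  have a1 := h.xw1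
  rw [c1_hx]
  unfold qw
  constructor
  · refine Real.le_sqrt_of_sq_le ?_
    nlinarith
  · refine Real.sqrt_le_iff.2 ⟨by norm_num, ?_⟩
    nlinarith

theorem Rg.nums (h : Rg x z) : LC.c1 (h0 * (1 + x * z)) ≤ 77 / 100 ∧
    LC.c3 (h0 * (1 + x * z)) ≤ 201 / 125 ∧ 143 / 100 ≤ LC.c3 (h0 * (1 + x * z)) := by
  have ha := h.a
  have hb := h.b
  rw [c1_h1, c3_h1]
  unfold cc1 cc3
  refine ⟨?_, ?_, ?_⟩
  · refine Real.sqrt_le_iff.2 ⟨by norm_num, ?_⟩
    nlinarith
  · refine Real.sqrt_le_iff.2 ⟨by norm_num, ?_⟩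
    nlinarith
  · refine Real.le_sqrt_of_sq_le ?_
    nlinarith

/-- An admissible shape in the window. -/
structure Shp (x w z X12 X13 : ℝ) : Prop where
  win : Win x w z
  a1 : c1 (h0 * (x * w)) ≤ X12
  a2 : X12 ≤ c3 (h0 * (x * w))
  b1 : c1 (h0 * (1 + x * z)) ≤ |X13 - X12|
  b2 : |X13 - X12| ≤ c3 (h0 * (1 + x * z))
  c1 : LC.c1 (h0 * (1 + x * (w + z))) ≤ |X13|
  c2 : |X13| ≤ c3 (h0 * (1 + x * (w + z)))

/-- The vertices of the window. -/
structure Vert (V : Vx) (x w z : ℝ) : Prop where
  /-- the side middle-top is a node -/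
  A : ∀ (k : Fin 4) (X23 : ℝ), pos.dm k (h0 * (1 + x * z)) →
    |X23| = pos.cv k (h0 * (1 + x * z)) →
    Shp x w z (c1 (h0 * (x * w))) (c1 (h0 * (x * w)) + X23) →
    OKV V (h0 * x) (c1 (h0 * (x * w))) (c1 (h0 * (x * w)) + X23) (h0 * (x * w))
      (h0 * (1 + x * z))
  /-- the side bottom-top is a node -/
  B : ∀ (k : Fin 4) (X13 : ℝ), pos.dm k (h0 * (1 + x * (w + z))) →
    |X13| = pos.cv k (h0 * (1 + x * (w + z))) →
    Shp x w z (c1 (h0 * (x * w))) X13 →
    OKV V (h0 * x) (c1 (h0 * (x * w))) X13 (h0 * (x * w)) (h0 * (1 + x * z))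
  /-- the sides middle-top and bottom-top have length one -/
  C : c1 (h0 * (x * w)) ≤ c1 (h0 * (1 + x * z)) + c1 (h0 * (1 + x * (w + z))) →
    OKV V (h0 * x) (c1 (h0 * (1 + x * z)) + c1 (h0 * (1 + x * (w + z))))
      (c1 (h0 * (1 + x * (w + z)))) (h0 * (x * w)) (h0 * (1 + x * z))

variable {V : Vx}

/-- The side bottom-top on the unit circle. -/
theorem red13 (hW : Win x w z) (hV : Vert V x w z) {X12 : ℝ} (h1 : c1 (h0 * (x * w)) ≤ X12)
    (h2 : X12 ≤ c3 (h0 * (x * w)))
    (h3 : c1 (h0 * (1 + x * z)) ≤ X12 - c1 (h0 * (1 + x * (w + z))))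
    (h4 : X12 - c1 (h0 * (1 + x * (w + z))) ≤ c3 (h0 * (1 + x * z))) :
    OKV V (h0 * x) X12 (c1 (h0 * (1 + x * (w + z)))) (h0 * (x * w)) (h0 * (1 + x * z)) := by
  obtain ⟨n1, n2⟩ := hW.nums
  obtain ⟨m1, m2, m3⟩ := hW.rz.nums
  obtain ⟨k1, k2, k3⟩ := hW.ru.nums
  have p0 := c1_nonneg (h0 * (1 + x * (w + z)))
  have q0 := c1_nonneg (h0 * (1 + x * z))
  set u := c1 (h0 * (x * w))
  set p := c1 (h0 * (1 + x * (w + z)))
  set q := c1 (h0 * (1 + x * z))
  rcases le_total (q + p) u with hc | hc
  · -- down to the unit circle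
    have e1 : |p - u| = u - p := by rw [abs_sub_comm, abs_of_nonneg (by linarith)]
    have hB := hV.B 0 p hW.ru.dm0 (by rw [cv_zero]; exact abs_of_nonneg p0)
      ⟨hW, le_rfl, by linarith, by rw [e1]; linarith, by rw [e1]; linarith,
        by rw [abs_of_nonneg p0], by rw [abs_of_nonneg p0]; linarith⟩
    have e2 : |p - X12| = X12 - p := by rw [abs_sub_comm, abs_of_nonneg (by linarith)]
    exact move13 V hW le_rfl h1 h2 (Or.inr ⟨by linarith, by linarith⟩) (by rw [e1]; linarith)
      (by rw [e1]; linarith) (by rw [e2]; linarith) (by rw [e2]; linarith) hB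
  · have hC := hV.C hc
    have e1 : |p - (q + p)| = q := by rw [abs_sub_comm, abs_of_nonneg (by linarith)]; ring
    have e2 : |p - X12| = X12 - p := by rw [abs_sub_comm, abs_of_nonneg (by linarith)]
    exact move13 V hW hc (by linarith) h2 (Or.inr ⟨by linarith, by linarith⟩) (by rw [e1])
      (by rw [e1]; linarith) (by rw [e2]; linarith) (by rw [e2]; linarith) hC

/-- The side middle-top on the unit circle. -/
theorem red23 (hW : Win x w z) (hV : Vert V x w z) {X12 : ℝ} (h1 : c1 (h0 * (x * w)) ≤ X12)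
    (h2 : X12 ≤ c3 (h0 * (x * w)))
    (h3 : c1 (h0 * (1 + x * (w + z))) ≤ X12 - c1 (h0 * (1 + x * z)))
    (h4 : X12 - c1 (h0 * (1 + x * z)) ≤ c3 (h0 * (1 + x * (w + z)))) :
    OKV V (h0 * x) X12 (X12 + -c1 (h0 * (1 + x * z))) (h0 * (x * w)) (h0 * (1 + x * z)) := by
  obtain ⟨n1, n2⟩ := hW.nums
  obtain ⟨m1, m2, m3⟩ := hW.rz.nums
  obtain ⟨k1, k2, k3⟩ := hW.ru.nums
  have p0 := c1_nonneg (h0 * (1 + x * (w + z)))
  have q0 := c1_nonneg (h0 * (1 + x * z))
  set u := c1 (h0 * (x * w))
  set p := c1 (h0 * (1 + x * (w + z)))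
  set q := c1 (h0 * (1 + x * z))
  have e2 : |X12 + -q| = X12 - q := by rw [abs_of_nonneg (by linarith)]; ring
  rcases le_total (q + p) u with hc | hc
  · have e1 : |u + -q| = u - q := by rw [abs_of_nonneg (by linarith)]; ring
    have e3 : |u + -q - u| = q := by
      rw [show u + -q - u = -q by ring, abs_neg, abs_of_nonneg q0]
    have hA := hV.A 0 (-q) hW.rz.dm0 (by rw [cv_zero, abs_neg]; exact abs_of_nonneg q0)
      ⟨hW, le_rfl, by linarith, by rw [e3], by rw [e3]; linarith, by rw [e1]; linarith,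
        by rw [e1]; linarith⟩
    exact move23 V hW le_rfl h1 h2 (Or.inl ⟨by linarith, by linarith⟩) (by rw [e1]; linarith)
      (by rw [e1]; linarith) (by rw [e2]; linarith) (by rw [e2]; linarith) hA
  · have hC := hV.C hc
    have e0 : p = q + p + -q := by ring
    have e1 : |q + p + -q| = p := by rw [← e0, abs_of_nonneg p0]
    refine move23 V hW hc (by linarith) h2 (Or.inl ⟨by linarith, by linarith⟩) (by rw [e1])
      (by rw [e1]; linarith) (by rw [e2]; linarith) (by rw [e2]; linarith) ?_
    rw [← e0]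
    exact hC

/-- **All shapes of the window with a node on one of the two long sides.** -/
theorem red (hV : Vert V x w z) {X12 X13 : ℝ} (h : Shp x w z X12 X13)
    (hn : (∃ k : Fin 4, pos.dm k (h0 * (1 + x * z)) ∧
        |X13 - X12| = pos.cv k (h0 * (1 + x * z))) ∨
      (∃ k : Fin 4, pos.dm k (h0 * (1 + x * (w + z))) ∧
        |X13| = pos.cv k (h0 * (1 + x * (w + z))))) :
    OKV V (h0 * x) X12 X13 (h0 * (x * w)) (h0 * (1 + x * z)) := by
  obtain ⟨hW, a1, a2, b1, b2, c1', c2⟩ := h
  obtain ⟨n1, n2⟩ := hW.nums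
  obtain ⟨m1, m2, m3⟩ := hW.rz.nums
  obtain ⟨k1, k2, k3⟩ := hW.ru.nums
  have p0 := c1_nonneg (h0 * (1 + x * (w + z)))
  have q0 := c1_nonneg (h0 * (1 + x * z))
  obtain ⟨X23, hX⟩ : ∃ X23, X23 = X13 - X12 := ⟨_, rfl⟩
  have hX13 : X13 = X12 + X23 := by rw [hX]; ring
  have r13 := fun Y => red13 hW hV (X12 := Y)
  have r23 := fun Y => red23 hW hV (X12 := Y)
  have hA := hV.A
  have hB := hV.B
  set t := h0 * (x * w) with ht
  set t' := h0 * (1 + x * z) with ht'
  set T := h0 * (1 + x * (w + z)) with hT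
  set u := LC.c1 t with hu
  set p := LC.c1 T with hp
  set q := LC.c1 t' with hq
  rw [← hX] at hn b1 b2
  -- the two vertices
  have vA : (∃ k : Fin 4, pos.dm k t' ∧ |X23| = pos.cv k t') → p ≤ |u + X23| →
      |u + X23| ≤ c3 T → OKV V (h0 * x) u (u + X23) t t' := by
    rintro ⟨k, hk, hk'⟩ g1 g2
    exact hA k X23 hk hk' ⟨hW, le_rfl, by linarith, by rw [add_sub_cancel_left]; exact b1,
      by rw [add_sub_cancel_left]; exact b2, g1, g2⟩
  have vB : (∃ k : Fin 4, pos.dm k T ∧ |X13| = pos.cv k T) → q ≤ |X13 - u| →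
      |X13 - u| ≤ c3 t' → OKV V (h0 * x) u X13 t t' := by
    rintro ⟨k, hk, hk'⟩ g1 g2
    exact hB k X13 hk hk' ⟨hW, le_rfl, by linarith, g1, g2, c1', c2⟩
  rcases le_or_gt 0 X23 with s23 | s23
  · -- both are positive
    have s13 : 0 ≤ X13 := by linarith
    rw [abs_of_nonneg s23] at b1 b2
    have c2' := c2
    rw [abs_of_nonneg s13] at c2'
    rcases hn with hn | hn
    · have e : |u + X23| = u + X23 := abs_of_nonneg (by linarith)
      have e' : |X12 + X23| = X12 + X23 := abs_of_nonneg (by linarith)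
      have h1 := vA hn (by rw [e]; linarith) (by rw [e]; linarith)
      rw [hX13]
      exact move23 V hW le_rfl a1 a2 (Or.inl ⟨by linarith, by linarith⟩) (by rw [e]; linarith)
        (by rw [e]; linarith) (by rw [e']; linarith) (by rw [e']; linarith) h1
    · have e : |X13 - u| = X13 - u := abs_of_nonneg (by linarith)
      have e' : |X13 - X12| = X13 - X12 := abs_of_nonneg (by linarith)
      have h1 := vB hn (by rw [e]; linarith) (by rw [e]; linarith)
      exact move13 V hW le_rfl a1 a2 (Or.inl ⟨by linarith, by linarith⟩) (by rw [e]; linarith)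
        (by rw [e]; linarith) (by rw [e']; linarith) (by rw [e']; linarith) h1
  · rw [abs_of_neg s23] at b1 b2
    rcases le_or_gt X13 0 with s13 | s13
    · -- both are negative
      have c1'' := c1'
      have c2' := c2
      rw [abs_of_nonpos s13] at c1'' c2'
      rcases hn with hn | hn
      · have e : |u + X23| = -(u + X23) := abs_of_nonpos (by linarith)
        have e' : |X12 + X23| = -(X12 + X23) := abs_of_nonpos (by linarith)
        have h1 := vA hn (by rw [e]; linarith) (by rw [e]; linarith)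
        rw [hX13]
        exact move23 V hW le_rfl a1 a2 (Or.inr ⟨by linarith, by linarith⟩) (by rw [e]; linarith)
          (by rw [e]; linarith) (by rw [e']; linarith) (by rw [e']; linarith) h1
      · have e : |X13 - u| = -(X13 - u) := abs_of_nonpos (by linarith)
        have e' : |X13 - X12| = -(X13 - X12) := abs_of_nonpos (by linarith)
        have h1 := vB hn (by rw [e]; linarith) (by rw [e]; linarith)
        exact move13 V hW le_rfl a1 a2 (Or.inr ⟨by linarith, by linarith⟩) (by rw [e]; linarith)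
          (by rw [e]; linarith) (by rw [e']; linarith) (by rw [e']; linarith) h1
    · -- middle-top is negative, bottom-top is positive
      have c1'' := c1'
      have c2' := c2
      rw [abs_of_pos s13] at c1'' c2'
      have e13 : |X13 - X12| = X12 - X13 := by
        rw [abs_sub_comm, abs_of_nonneg (by linarith)]
      have e13' : |X12 + X23| = X12 + X23 := abs_of_nonneg (by linarith)
      rcases hn with hn | hn
      · rw [hX13]
        rcases le_total (p - X23) u with hc | hc
        · have e : |u + X23| = u + X23 := abs_of_nonneg (by linarith)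
          have h1 := vA hn (by rw [e]; linarith) (by rw [e]; linarith)
          exact move23 V hW le_rfl a1 a2 (Or.inl ⟨by linarith, by linarith⟩)
            (by rw [e]; linarith) (by rw [e]; linarith) (by rw [e13']; linarith)
            (by rw [e13']; linarith) h1
        · have h1 := r13 (p - X23) hc (by linarith) (by linarith) (by linarith)
          have e0 : p - X23 + X23 = p := by ring
          have e : |p - X23 + X23| = p := by rw [e0]; exact abs_of_nonneg p0
          refine move23 V hW hc (by linarith) a2 (Or.inl ⟨by linarith, by linarith⟩)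
            (by rw [e]) (by rw [e]; linarith) (by rw [e13']; linarith)
            (by rw [e13']; linarith) ?_
          rw [e0]
          exact h1
      · rcases le_total (X13 + q) u with hc | hc
        · have e : |X13 - u| = u - X13 := by
            rw [abs_sub_comm, abs_of_nonneg (by linarith)]
          have h1 := vB hn (by rw [e]; linarith) (by rw [e]; linarith)
          exact move13 V hW le_rfl a1 a2 (Or.inr ⟨by linarith, by linarith⟩)
            (by rw [e]; linarith) (by rw [e]; linarith) (by rw [e13]; linarith)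
            (by rw [e13]; linarith) h1
        · have h1 := r23 (X13 + q) hc (by linarith) (by linarith) (by linarith)
          rw [show X13 + q + -q = X13 by ring] at h1
          have e : |X13 - (X13 + q)| = q := by
            rw [show X13 - (X13 + q) = -q by ring, abs_neg, abs_of_nonneg q0]
          exact move13 V hW hc (by linarith) a2 (Or.inr ⟨by linarith, by linarith⟩)
            (by rw [e]) (by rw [e]; linarith) (by rw [e13]; linarith)
            (by rw [e13]; linarith) h1

end

end Pool.Agent.Strip051.LC.E0
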