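import Pool.Agent.Strip051.LC.E0.GermC

/-! # Small rests: the rows of the window

`FarC`, `NearC` are the statements of the charts; together with the data of the three sides they
give the statement about the triangle. -/

namespace Pool.Agent.Strip051.LC.E0

open Pool.Agent.StripNear Pool.Agent.StripSquare Pool.Agent.Strip051 Pool.Agent.Strip051.Sweep
open Pool.Agent.Strip051.LC.Line
open Pool.Agent.Strip051.LC.Exact (kE)
open G

/-- The far statement for the values of the kernels. -/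
def FarOK (s X12 X13 t t' : ℝ) : Prop :=
  farD (kE s) s (vA par s) (vX par s) X12 X13 t t' (E0.K.valK X12 X13 t t')

/-- The near statement for the values of the kernels. -/
def NearOK (s X12 X13 t t' : ℝ) : Prop :=
  nearT 0 3 (kE s) s (vB par s) (vX par s) X12 X13 t t' (E0.K.valK X12 X13 t t')

section

variable {x w z X12 X13 K13 k12 k23 k13 base lev : ℝ}

theorem slkP_kf {P : Pat} (h : Win x w z) (hP : P.Ok w z)
    (hE : exn X12 X13 (h0 * (x * w)) (h0 * (1 + x * z)) =
      x ^ 2 * ((w + z - w * K13) / (2 * x) + base))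
    (hS : SlkP P x w z K13 base k12 k23 k13 lev) (y : ℝ) :
    0 ≤ exn X12 X13 (h0 * (x * w)) (h0 * (1 + x * z)) - x ^ 2 * lev +
      kf (kE (h0 * x)) (h0 * x) (1 + x * k12, K13 - 1 + x * k23, K13 + x * k13)
        (h0 * (x * w)) (h0 * (1 + x * z)) y := by
  cases P with
  | pp => exact pat_pp h hP hE hS y
  | pnp => exact pat_pnp h hP.1 hP.2 hE hS y
  | pnn => exact pat_pnn h hP hE hS y

variable {xi12 xi13 c12 c23 c13 r12 r23 r13 : ℝ}

/-- The third side. -/
theorem T13 : h0 * (x * w) + h0 * (1 + x * z) = h0 * (1 + x * (w + z)) := by ring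

theorem valK_eq {v : ℝ → Fin 4 → ℝ} {R12 R23 R13 : ℝ}
    (e12 : ker E0.K.nodes v (fun _ _ => 0) (1 + x * xi12) (h0 * (x * w)) = R12)
    (e23 : ker E0.K.nodes v (fun _ _ => 0) (K13 - 1 + x * (xi13 - xi12))
      (h0 * (1 + x * z)) = R23)
    (e13 : ker E0.K.nodes v (fun _ _ => 0) (K13 + x * xi13) (h0 * (1 + x * (w + z))) = R13) :
    E0.K.valK (1 + x * xi12) (K13 + x * xi13) (h0 * (x * w)) (h0 * (1 + x * z)) v =
      (R12, R23, R13) := by
  unfold Cur.valK
  rw [T13, e12, e13, show K13 + x * xi13 - (1 + x * xi12) = K13 - 1 + x * (xi13 - xi12) by ring,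
    e23]

/-- **A row of the far vertex.** -/
theorem far_row {P : Pat} (h : Win x w z) (hP : P.Ok w z)
    (hx12 : xi12 = -(x * om w x))
    (d12 : Dat x (h0 * (x * w)) 1 xi12 k12 c12 r12)
    (d23 : Dat x (h0 * (1 + x * z)) (K13 - 1) (xi13 - xi12) k23 c23 r23)
    (d13 : Dat x (h0 * (1 + x * (w + z))) K13 xi13 k13 c13 r13)
    (hS : FarC P x w z K13 xi13 k12 k23 k13 c12 c23 c13) :
    FarOK (h0 * x) (1 + x * xi12) (K13 + x * xi13) (h0 * (x * w)) (h0 * (1 + x * z)) := by
  intro y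
  rw [valK_eq d12.a d23.a d13.a, valK_eq d12.c d23.c d13.c]
  have hE := exn_win (w := w) (z := z) (X12 := 1 + x * xi12) (X13 := K13 + x * xi13)
    (om := om w x) (K13 := K13) (xi := xi13) h.x0.ne' (by rw [hx12]; ring) rfl
  have key := slkP_kf h hP hE hS y
  have e : |farXV (x ^ 2 * c12, x ^ 2 * c23, x ^ 2 * c13)| = x ^ 2 * (|c12 + c23 - c13| / 2) := by
    unfold farXV
    simp only
    rw [show 1 / 2 * (x ^ 2 * c12 + x ^ 2 * c23 - x ^ 2 * c13) =
      x ^ 2 / 2 * (c12 + c23 - c13) by ring, abs_mul, abs_of_nonneg (by positivity)]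
    ring
  rw [e]
  exact key

/-- **A row of the near vertex.** -/
theorem near_row {P : Pat} (h : Win x w z) (hP : P.Ok w z)
    (hx12 : xi12 = -(x * om w x))
    (d12 : Dat x (h0 * (x * w)) 1 xi12 k12 c12 r12)
    (d23 : Dat x (h0 * (1 + x * z)) (K13 - 1) (xi13 - xi12) k23 c23 r23)
    (d13 : Dat x (h0 * (1 + x * (w + z))) K13 xi13 k13 c13 r13)
    (hS : NearC P x w z K13 xi13 k12 k23 k13 c12 c23 c13 r12 r23 r13) :
    NearOK (h0 * x) (1 + x * xi12) (K13 + x * xi13) (h0 * (x * w)) (h0 * (1 + x * z)) := by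
  have hh := h0_pos
  intro y
  rw [valK_eq d12.b d23.b d13.b, valK_eq d12.c d23.c d13.c]
  have hE := exn_win (w := w) (z := z) (X12 := 1 + x * xi12) (X13 := K13 + x * xi13)
    (om := om w x) (K13 := K13) (xi := xi13) h.x0.ne' (by rw [hx12]; ring) rfl
  have key := slkP_kf h hP hE hS y
  have eA : levXV 3 (h0 * x) 0 (h0 * (x * w)) (h0 * (1 + x * z))
      (x ^ 2 * c12, x ^ 2 * c23, x ^ 2 * c13) = x ^ 2 * (G.mu x * levA x w z c12 c23 c13) := by
    unfold levXV levA
    rw [mu_h0]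
    simp only
    push_cast
    field_simp
    ring
  have eB : levXV 3 (h0 * x) 0 (h0 * (1 + x * z)) (h0 * (x * w))
      (-(x ^ 2 * c23), -(x ^ 2 * c12), -(x ^ 2 * c13)) =
      x ^ 2 * (G.mu x * levB x w z c12 c23 c13) := by
    unfold levXV levB
    rw [mu_h0]
    simp only
    push_cast
    field_simp
    ring
  simp only
  rw [eA, eB, ← mul_min_of_nonneg _ _ (sq_nonneg x)]
  have e : exn (1 + x * xi12) (K13 + x * xi13) (h0 * (x * w)) (h0 * (1 + x * z)) +
      x ^ 2 * min (G.mu x * levA x w z c12 c23 c13) (G.mu x * levB x w z c12 c23 c13) =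
      exn (1 + x * xi12) (K13 + x * xi13) (h0 * (x * w)) (h0 * (1 + x * z)) -
      x ^ 2 * -min (G.mu x * levA x w z c12 c23 c13) (G.mu x * levB x w z c12 c23 c13) := by
    ring
  rw [e]
  exact key

/-- **A row of the near vertex, second form.** -/
theorem near_row2 {P : Pat} (h : Win x w z) (hP : P.Ok w z)
    (hx12 : xi12 = -(x * om w x))
    (d12 : Dat x (h0 * (x * w)) 1 xi12 k12 c12 r12)
    (d23 : Dat x (h0 * (1 + x * z)) (K13 - 1) (xi13 - xi12) k23 c23 r23)
    (d13 : Dat x (h0 * (1 + x * (w + z))) K13 xi13 k13 c13 r13)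
    (hS : NearC2 P x w z K13 xi13 k12 k23 k13 c12 c23 c13 r12 r23 r13) :
    NearOK (h0 * x) (1 + x * xi12) (K13 + x * xi13) (h0 * (x * w)) (h0 * (1 + x * z)) := by
  have hh := h0_pos
  have hx := h.x0
  have hx1 := h.x1
  intro y
  rw [valK_eq d12.b d23.b d13.b, valK_eq d12.c d23.c d13.c]
  have hE := exn_win (w := w) (z := z) (X12 := 1 + x * xi12) (X13 := K13 + x * xi13)
    (om := om w x) (K13 := K13) (xi := xi13) h.x0.ne' (by rw [hx12]; ring) rfl
  have key := slkP_kf h hP hE hS y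
  have eA : levXV 3 (h0 * x) 0 (h0 * (x * w)) (h0 * (1 + x * z))
      (x ^ 2 * c12, x ^ 2 * c23, x ^ 2 * c13) = x ^ 2 * (G.mu x * levA x w z c12 c23 c13) := by
    unfold levXV levA
    rw [mu_h0]
    simp only
    push_cast
    field_simp
    ring
  have eB : levXV 3 (h0 * x) 0 (h0 * (1 + x * z)) (h0 * (x * w))
      (-(x ^ 2 * c23), -(x ^ 2 * c12), -(x ^ 2 * c13)) =
      x ^ 2 * (G.mu x * levB x w z c12 c23 c13) := by
    unfold levXV levB
    rw [mu_h0]
    simp only
    push_cast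
    field_simp
    ring
  simp only
  rw [eA, eB, ← mul_min_of_nonneg _ _ (sq_nonneg x)]
  have hs0 : 0 < h0 * x := by positivity
  have hkf := kf_abs (s := h0 * x) hs0.le (by nlinarith) (kE_nonneg (by positivity) h.s1)
    (x * (lb x * r12), x * (lb x * r23), x * (lb x * r13)) (h0 * (x * w)) (h0 * (1 + x * z)) y
  rw [amp_kE hs0 h.s1, we_h0 hx.le (by linarith)] at hkf
  simp only at hkf
  have hlb : 0 ≤ lb x := by
    have h1 := ep_pos hx.le (by linarith)
    have h2 := gs_pos hx.le (by linarith)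
    have h3 := gs_sq hx.le (by linarith)
    have h4 : 1 / 2 ≤ gs x := by nlinarith
    have h5 : 0 < ic x := ic_pos
    have h6 : 0 ≤ ch x := by
      unfold ch
      have : 0 ≤ 2 * gs x - 1 := by linarith
      positivity
    have h7 : 0 ≤ G.mu x := by
      unfold G.mu
      positivity
    unfold lb
    positivity
  have hab : |x * (lb x * r12)| + |x * (lb x * r23)| + |x * (lb x * r13)| =
      x * lb x * (|r12| + |r23| + |r13|) := by
    rw [abs_mul, abs_mul, abs_mul, abs_mul, abs_mul, abs_mul, abs_of_pos hx, abs_of_nonneg hlb]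
    ring
  rw [hab] at hkf
  have hk := (abs_le.1 hkf).1
  have hsplit : kf (kE (h0 * x)) (h0 * x) (1 + x * nk x k12 1 r12,
      K13 - 1 + x * nk x k23 (K13 - 1) r23, K13 + x * nk x k13 K13 r13) (h0 * (x * w))
        (h0 * (1 + x * z)) y =
      kf (kE (h0 * x)) (h0 * x) (1 + x * nk x k12 1 0,
        K13 - 1 + x * nk x k23 (K13 - 1) 0, K13 + x * nk x k13 K13 0) (h0 * (x * w))
          (h0 * (1 + x * z)) y +
      kf (kE (h0 * x)) (h0 * x) (x * (lb x * r12), x * (lb x * r23), x * (lb x * r13))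
        (h0 * (x * w)) (h0 * (1 + x * z)) y := by
    unfold kf nk
    ring
  rw [hsplit]
  have e : x * ep x * (x * lb x * (|r12| + |r23| + |r13|)) =
      x ^ 2 * (ep x * lb x * (|r12| + |r23| + |r13|)) := by ring
  rw [e] at hk
  have e2 : exn (1 + x * xi12) (K13 + x * xi13) (h0 * (x * w)) (h0 * (1 + x * z)) -
      x ^ 2 * (-min (G.mu x * levA x w z c12 c23 c13) (G.mu x * levB x w z c12 c23 c13) +
        ep x * lb x * (|r12| + |r23| + |r13|)) =
      exn (1 + x * xi12) (K13 + x * xi13) (h0 * (x * w)) (h0 * (1 + x * z)) +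
      x ^ 2 * min (G.mu x * levA x w z c12 c23 c13) (G.mu x * levB x w z c12 c23 c13) -
      x ^ 2 * (ep x * lb x * (|r12| + |r23| + |r13|)) := by
    ring
  rw [e2] at key
  linarith

end

end Pool.Agent.Strip051.LC.E0
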