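import Pool.Agent.Strip051.LC.E0.Seg

/-! # Small rests: the modulus inequality in closed form

Near a lattice triangle with a horizontal side all three heights lie in a short window.  The slack
with the best level of the potential is a closed form, inside one cell (`FinE`) and beyond it
(`FoutE`); all quantities are divided by `x = s / h0`. -/

namespace Pool.Agent.Strip051.LC.E0

open Pool.Agent.StripNear Pool.Agent.StripSquare Pool.Agent.Strip051 Pool.Agent.Strip051.Sweep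
open Pool.Agent.Strip051.LC.Line
open Pool.Agent.Strip051.LC.Exact (kE)

/-! ### The two levels -/

section

variable {κ x ex l1 l2 A1 A2 A3 N d : ℝ}

theorem pot1 (hN : N = l1 * A2 - l2 * A1) (hd : d = (A1 + A2 - A3) * (1 - (l1 + l2)) / 2) :
    (A1 * (h0 - h0 * l1) + A2 * (h0 - 2 * (h0 * l1) - h0 * l2) -
      A3 * (h0 - h0 * l1 - h0 * l2)) / (2 * h0) = d - N / 2 := by
  have hh := h0_pos
  rw [hN, hd]
  field_simp
  ring

theorem pot3 (hN : N = l1 * A2 - l2 * A1) (hd : d = (A1 + A2 - A3) * (1 - (l1 + l2)) / 2) :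
    (-A1 * (h0 - h0 * l1 - 2 * (h0 * l2)) - A2 * (h0 - h0 * l2) +
      A3 * (h0 - h0 * l1 - h0 * l2)) / (2 * h0) = -d - N / 2 := by
  have hh := h0_pos
  rw [hN, hd]
  field_simp
  ring

theorem pot2 (hL : 0 < l1 + l2) (hN : N = l1 * A2 - l2 * A1)
    (hd : d = (A1 + A2 - A3) * (1 - (l1 + l2)) / 2) :
    (-A1 * (h0 - h0 * l1) + A2 * (h0 - h0 * l2) +
      A3 * (h0 * l1 - h0 * l2) / (h0 * l1 + h0 * l2) * (h0 - h0 * l1 - h0 * l2)) / (2 * h0) =
      N / (l1 + l2) - N / 2 - (l1 - l2) * d / (l1 + l2) := by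
  have hh := h0_pos
  have e : A3 * (h0 * l1 - h0 * l2) / (h0 * l1 + h0 * l2) = A3 * (l1 - l2) / (l1 + l2) := by
    rw [← mul_sub, ← mul_add, mul_left_comm, mul_div_mul_left _ _ hh.ne']
  rw [e, hN, hd]
  field_simp
  ring

/-- The level at the first node. -/
theorem monIn1 (h1 : 0 ≤ l1) (h2 : 0 ≤ l2) (hL : 0 < l1 + l2) (hN : N = l1 * A2 - l2 * A1)
    (hd : d = (A1 + A2 - A3) * (1 - (l1 + l2)) / 2) (hd0 : 0 ≤ d) (hc : 2 * l1 * d ≤ N)
    (h : κ * h0 * (N / 2 * (1 - x) + (x - (l1 + l2)) * d +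
      2 * l2 * (l1 + l2) * d ^ 2 / (N + 2 * l2 * d)) ≤ ex) :
    MoN κ (h0 * x) ex (h0 * l1) (h0 * l2) A1 A2 A3 := by
  unfold MoN
  rw [pot1 hN hd, pot2 hL hN hd, pot3 hN hd]
  refine ⟨d - N / 2, ?_⟩
  have N0 : 0 ≤ N := le_trans (by positivity) hc
  set L := l1 + l2 with hLd
  have e1 : d - N / 2 - (d - N / 2) = 0 := by ring
  have e2 : N / L - N / 2 - (l1 - l2) * d / L - (d - N / 2) = (N - 2 * l1 * d) / L := by
    have : L ≠ 0 := hL.ne'
    field_simp
    ring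
  have e3 : -d - N / 2 - (d - N / 2) = -(2 * d) := by ring
  rw [e1, e2, e3]
  have u0 : 0 ≤ (N - 2 * l1 * d) / L := div_nonneg (by linarith) hL.le
  rw [phi_nonneg_nonneg le_rfl u0, phi_pos_neg u0 (by linarith), phi_nonpos_nonpos (by linarith) le_rfl]
  refine le_trans (le_of_eq ?_) h
  have e4 : (N - 2 * l1 * d) / L - -(2 * d) = (N + 2 * l2 * d) / L := by
    have : L ≠ 0 := hL.ne'
    field_simp
    ring
  rw [e4]
  rcases (add_nonneg N0 (by positivity : 0 ≤ 2 * l2 * d)).eq_or_lt with h5 | h5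
  · -- everything vanishes
    have q1 : 0 ≤ l1 * d := mul_nonneg h1 hd0
    have q2 : 0 ≤ l2 * d := mul_nonneg h2 hd0
    have a1 : N = 0 := by linarith
    have a2 : l1 * d = 0 := by linarith
    have a3 : l2 * d = 0 := by linarith
    have a4 : L * d = 0 := by
      have : L * d = l1 * d + l2 * d := by ring
      linarith
    have a5 : d = 0 := by
      rcases mul_eq_zero.1 a4 with h6 | h6
      · exact absurd h6 hL.ne'
      · exact h6
    rw [a5, a1]
    simp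
  · have hLn : L ≠ 0 := hL.ne'
    obtain ⟨P, hP⟩ : ∃ P, P = N + 2 * l2 * d := ⟨_, rfl⟩
    have hN' : N = P - 2 * l2 * d := by linarith
    have h6 : P ≠ 0 := by
      rw [hP]
      exact h5.ne'
    rw [← hP, hN']
    field_simp
    rw [hLd]
    ring

theorem monIn3 (h1 : 0 ≤ l1) (h2 : 0 ≤ l2) (hL : 0 < l1 + l2) (hN : N = l1 * A2 - l2 * A1)
    (hd : d = (A1 + A2 - A3) * (1 - (l1 + l2)) / 2) (hd0 : d ≤ 0) (hc : 2 * l2 * -d ≤ N)
    (h : κ * h0 * (N / 2 * (1 - x) + (x - (l1 + l2)) * -d +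
      2 * l1 * (l1 + l2) * d ^ 2 / (N + 2 * l1 * -d)) ≤ ex) :
    MoN κ (h0 * x) ex (h0 * l1) (h0 * l2) A1 A2 A3 := by
  unfold MoN
  rw [pot1 hN hd, pot2 hL hN hd, pot3 hN hd]
  refine ⟨-d - N / 2, ?_⟩
  have d0 : 0 ≤ -d := by linarith
  have N0 : 0 ≤ N := le_trans (by positivity) hc
  set L := l1 + l2 with hLd
  have e1 : d - N / 2 - (-d - N / 2) = 2 * d := by ring
  have e2 : N / L - N / 2 - (l1 - l2) * d / L - (-d - N / 2) = (N - 2 * l2 * -d) / L := by
    have : L ≠ 0 := hL.ne'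
    field_simp
    ring
  have e3 : -d - N / 2 - (-d - N / 2) = 0 := by ring
  rw [e1, e2, e3]
  have u0 : 0 ≤ (N - 2 * l2 * -d) / L := div_nonneg (by linarith) hL.le
  rw [phi_neg_pos (by linarith) u0, phi_nonneg_nonneg u0 le_rfl,
    phi_nonpos_nonpos le_rfl (by linarith)]
  refine le_trans (le_of_eq ?_) h
  have e4 : (N - 2 * l2 * -d) / L - 2 * d = (N + 2 * l1 * -d) / L := by
    have : L ≠ 0 := hL.ne'
    field_simp
    ring
  rw [e4]
  rcases (add_nonneg N0 (by positivity : 0 ≤ 2 * l1 * -d)).eq_or_lt with h5 | h5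
  · have q1 : 0 ≤ l1 * -d := mul_nonneg h1 d0
    have q2 : 0 ≤ l2 * -d := mul_nonneg h2 d0
    have a1 : N = 0 := by linarith
    have a2 : l1 * -d = 0 := by linarith
    have a3 : l2 * -d = 0 := by linarith
    have a4 : L * d = 0 := by
      have : L * d = -(l1 * -d + l2 * -d) := by ring
      linarith
    have a5 : d = 0 := by
      rcases mul_eq_zero.1 a4 with h6 | h6
      · exact absurd h6 hL.ne'
      · exact h6
    rw [a5, a1]
    simp
  · have hLn : L ≠ 0 := hL.ne'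
    obtain ⟨P, hP⟩ : ∃ P, P = N + 2 * l1 * -d := ⟨_, rfl⟩
    have hN' : N = P + 2 * l1 * d := by linarith
    have h6 : P ≠ 0 := by
      rw [hP]
      exact h5.ne'
    rw [← hP, hN']
    field_simp
    rw [hLd]
    ring

/-- A cruder bound inside one cell, without a condition on the arcs. -/
theorem monC (hκ : 0 ≤ κ) (hx : 0 ≤ x) (h1 : 0 ≤ l1) (h2 : 0 ≤ l2) (hL : 0 < l1 + l2)
    (hN : N = l1 * A2 - l2 * A1) (hd : d = (A1 + A2 - A3) * (1 - (l1 + l2)) / 2) (hN0 : 0 ≤ N)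
    (h : κ * h0 * (N / 2 * (1 - x) + x * |d|) ≤ ex) :
    MoN κ (h0 * x) ex (h0 * l1) (h0 * l2) A1 A2 A3 := by
  have hh := h0_pos
  unfold MoN
  rw [pot1 hN hd, pot2 hL hN hd, pot3 hN hd]
  refine ⟨|d| - N / 2, ?_⟩
  have a1 := le_abs_self d
  have a2 := neg_abs_le d
  have a3 := abs_nonneg d
  set L := l1 + l2 with hLd
  obtain ⟨u, hu⟩ : ∃ u, u = N / L - N / 2 - (l1 - l2) * d / L - (|d| - N / 2) := ⟨_, rfl⟩
  rw [← hu]
  have uL : u * L = N - (l1 - l2) * d - L * |d| := by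
    rw [hu]
    have : L ≠ 0 := hL.ne'
    field_simp
    ring
  have w1 : d - N / 2 - (|d| - N / 2) ≤ 0 := by linarith
  have w3 : -d - N / 2 - (|d| - N / 2) ≤ 0 := by linarith
  rw [phi_nonpos_nonpos w3 w1]
  have hx0 : 0 ≤ h0 * x := by positivity
  have hκh : 0 ≤ κ * h0 := mul_nonneg hκ hh.le
  rcases le_or_gt u 0 with hu0 | hu0
  · rw [phi_nonpos_nonpos w1 hu0, phi_nonpos_nonpos hu0 w3]
    refine le_trans ?_ h
    have e : κ * (h0 * l1 * 0 + h0 * l2 * 0 + (h0 - h0 * l1 - h0 * l2) * 0 +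
        (|d| - N / 2) * (h0 * x)) = κ * h0 * ((|d| - N / 2) * x) := by ring
    rw [e]
    refine mul_le_mul_of_nonneg_left ?_ hκh
    linarith
  · have hc : ∀ v : ℝ, v ≤ 0 → Line.phi u v ≤ u / 2 ∧ Line.phi v u ≤ u / 2 := by
      intro v hv
      rw [phi_pos_neg hu0.le hv, phi_neg_pos hv hu0.le]
      have k1 : u ^ 2 / (2 * (u - v)) ≤ u / 2 := by
        rw [div_le_iff₀ (by linarith)]
        nlinarith
      exact ⟨k1, k1⟩
    have f1 := (hc _ w1).2
    have f2 := (hc _ w3).1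
    refine le_trans ?_ h
    have g1 := mul_le_mul_of_nonneg_left f1 (mul_nonneg hh.le h1)
    have g2 := mul_le_mul_of_nonneg_left f2 (mul_nonneg hh.le h2)
    have g3 : h0 * l1 * (u / 2) + h0 * l2 * (u / 2) = h0 * (u * L / 2) := by
      rw [hLd]
      ring
    have g4 : u * L ≤ N - 2 * min l1 l2 * |d| := by
      rw [uL]
      rcases le_total 0 d with h6 | h6
      · rw [abs_of_nonneg h6]
        have := mul_le_mul_of_nonneg_right (min_le_left l1 l2) h6
        have e : N - (l1 - l2) * d - L * d = N - 2 * l1 * d := by rw [hLd]; ring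
        rw [e]
        linarith
      · rw [abs_of_nonpos h6]
        have := mul_le_mul_of_nonneg_right (min_le_right l1 l2) (by linarith : 0 ≤ -d)
        have e : N - (l1 - l2) * d - L * -d = N - 2 * l2 * -d := by rw [hLd]; ring
        rw [e]
        linarith
    have g5 : 0 ≤ min l1 l2 * |d| := mul_nonneg (le_min h1 h2) a3
    have g6 : h0 * l1 * Line.phi (d - N / 2 - (|d| - N / 2)) u +
        h0 * l2 * Line.phi u (-d - N / 2 - (|d| - N / 2)) ≤ h0 * (N / 2) := by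
      have : h0 * (u * L / 2) ≤ h0 * (N / 2) := mul_le_mul_of_nonneg_left (by linarith) hh.le
      linarith
    have e : κ * h0 * (N / 2 * (1 - x) + x * |d|) =
        κ * (h0 * (N / 2) + (h0 - h0 * l1 - h0 * l2) * 0 + (|d| - N / 2) * (h0 * x)) := by ring
    rw [e]
    refine mul_le_mul_of_nonneg_left ?_ hκ
    linarith

/-- The optimal level beyond one cell. -/
theorem monOut (h1 : 0 ≤ l1) (h2 : 0 ≤ l2) (hx : 0 ≤ x) (hL : 0 < l1 + l2)
    (hN : N = l1 * A2 - l2 * A1) (hd : d = (A1 + A2 - A3) * (1 - (l1 + l2)) / 2)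
    (hN0 : 0 < N) (hp : 0 < N - 2 * l1 * d) (hq : 0 < N + 2 * l2 * d)
    (hxp : x * (N - 2 * l1 * d) ≤ N * (l1 + l2)) (hxq : x * (N + 2 * l2 * d) ≤ N * (l1 + l2))
    (h : κ * h0 * (x * (N / (l1 + l2) * (1 - x / (2 * (l1 + l2)) - (l1 + l2) / 2) -
      (l1 - l2) / (l1 + l2) * d * (1 - x / (l1 + l2)) +
      2 * l1 * l2 * x * d ^ 2 / ((l1 + l2) ^ 2 * N))) ≤ ex) :
    MoN κ (h0 * x) ex (h0 * l1) (h0 * l2) A1 A2 A3 := by
  unfold MoN
  rw [pot1 hN hd, pot2 hL hN hd, pot3 hN hd]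
  set L := l1 + l2 with hLd
  set p := (N - 2 * l1 * d) / L with hpd
  set q := (N + 2 * l2 * d) / L with hqd
  have p0 : 0 < p := div_pos hp hL
  have q0 : 0 < q := div_pos hq hL
  obtain ⟨θ, hθ⟩ : ∃ θ, θ = x * p * q / N := ⟨_, rfl⟩
  have θ0 : 0 ≤ θ := by
    rw [hθ]
    positivity
  have θp : θ ≤ p := by
    rw [hθ, div_le_iff₀ hN0]
    have : x * q ≤ N := by
      rw [hqd, mul_div_assoc', div_le_iff₀ hL]
      exact hxq
    have := mul_le_mul_of_nonneg_left this p0.le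
    linarith
  have θq : θ ≤ q := by
    rw [hθ, div_le_iff₀ hN0]
    have : x * p ≤ N := by
      rw [hpd, mul_div_assoc', div_le_iff₀ hL]
      exact hxp
    have := mul_le_mul_of_nonneg_left this q0.le
    linarith
  obtain ⟨W2, hW2⟩ : ∃ W2, W2 = N / L - N / 2 - (l1 - l2) * d / L := ⟨_, rfl⟩
  have e1 : d - N / 2 = W2 - p := by
    have : L ≠ 0 := hL.ne'
    rw [hW2, hpd]
    field_simp
    rw [hLd]
    ring
  have e3 : -d - N / 2 = W2 - q := by
    have : L ≠ 0 := hL.ne'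
    rw [hW2, hqd]
    field_simp
    rw [hLd]
    ring
  rw [e1, e3, ← hW2]
  refine ⟨W2 - θ, ?_⟩
  rw [show W2 - p - (W2 - θ) = θ - p by ring, show W2 - (W2 - θ) = θ by ring,
    show W2 - q - (W2 - θ) = θ - q by ring, phi_neg_pos (by linarith) θ0,
    phi_pos_neg θ0 (by linarith), phi_nonpos_nonpos (by linarith) (by linarith),
    show θ - (θ - p) = p by ring, show θ - (θ - q) = q by ring]
  refine le_trans (le_of_eq ?_) h
  have hNn := hN0.ne'
  have hLn : L ≠ 0 := hL.ne'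
  have e5 : l1 * (θ ^ 2 / (2 * p)) + l2 * (θ ^ 2 / (2 * q)) = x * θ / 2 := by
    have h6 : l1 * q + l2 * p = N := by
      rw [hpd, hqd]
      field_simp
      rw [hLd]
      ring
    have h7 : θ * N = x * p * q := by
      rw [hθ]
      field_simp
    field_simp
    linear_combination θ ^ 2 * h6 + θ * h7
  have e6 : θ = x / (L ^ 2) * (N - 2 * (l1 - l2) * d - 4 * l1 * l2 * d ^ 2 / N) := by
    rw [hθ, hpd, hqd]
    field_simp
    ring
  have e7 : κ * (h0 * l1 * (θ ^ 2 / (2 * p)) + h0 * l2 * (θ ^ 2 / (2 * q)) +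
      (h0 - h0 * l1 - h0 * l2) * 0 + (W2 - θ) * (h0 * x)) =
      κ * h0 * ((l1 * (θ ^ 2 / (2 * p)) + l2 * (θ ^ 2 / (2 * q))) + (W2 - θ) * x) := by ring
  rw [e7, e5]
  have e8 : x * θ / 2 + (W2 - θ) * x = x * (W2 - θ / 2) := by ring
  rw [e8, e6, hW2]
  have e9 : N / L - N / 2 - (l1 - l2) * d / L -
      x / L ^ 2 * (N - 2 * (l1 - l2) * d - 4 * l1 * l2 * d ^ 2 / N) / 2 =
      N / L * (1 - x / (2 * L) - L / 2) - (l1 - l2) / L * d * (1 - x / L) +
        2 * l1 * l2 * x * d ^ 2 / (L ^ 2 * N) := by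
    field_simp
    ring
  rw [e9]

end

end Pool.Agent.Strip051.LC.E0
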