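import Pool.Agent.Strip051.LC.E0.Pos

/-! # The tables for small rests

All tables are closed forms in the height `T` and the rest `s`; next to the lattice directions they
are functions of the distance divided by `s`.  The numbers are collected in a structure. -/

namespace Pool.Agent.Strip051.LC.E0

open Pool.Agent.StripNear Pool.Agent.StripSquare Pool.Agent.Strip051 Pool.Agent.Strip051.Sweep

/-- The numbers of a set of tables: `d0, d1` the correction of the kernel `w (d0 + d1 w)` on
`[0, 1]`; `d2, d3` its values at `3 / 2`, `5 / 2` (it vanishes from `4` on); `sA, sC` the slopes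
next to `h0`, `mC` the slope far below; `l1` the slope right of `W`, `l2` left of the curve at one
third; `a1` the value at `5 / 2` of the level table on the unit circle; `b0, b1` the level table near `60` degrees `z (b0 + b1 z)` on `[0, 1]`. -/
structure Par where
  d0 : ℝ
  d1 : ℝ
  d2 : ℝ
  d3 : ℝ
  sA : ℝ
  sC : ℝ
  mC : ℝ
  l1 : ℝ
  l2 : ℝ
  a1 : ℝ
  b0 : ℝ
  b1 : ℝ

/-- Piecewise linear interpolation. -/
noncomputable def pl (x0 y0 x1 y1 x : ℝ) : ℝ := y0 + (y1 - y0) * ((x - x0) / (x1 - x0))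

theorem pl_left {x0 y0 x1 y1 : ℝ} : pl x0 y0 x1 y1 x0 = y0 := by
  unfold pl
  rw [sub_self, zero_div, mul_zero, add_zero]

theorem pl_right {x0 y0 x1 y1 : ℝ} (h : x0 ≠ x1) : pl x0 y0 x1 y1 x1 = y1 := by
  unfold pl
  rw [div_self (sub_ne_zero.2 h.symm)]
  ring

variable (p : Par)

/-! ### The kernel on the unit circle -/

/-- The correction of the kernel. -/
noncomputable def dc (w : ℝ) : ℝ :=
  if w ≤ 1 then w * (p.d0 + p.d1 * w)
  else if w ≤ 3 / 2 then pl 1 (p.d0 + p.d1) (3 / 2) p.d2 w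
  else if w ≤ 5 / 2 then pl (3 / 2) p.d2 (5 / 2) p.d3 w
  else if w ≤ 4 then pl (5 / 2) p.d3 4 0 w
  else 0

/-- The kernel on the unit circle times the distance to the lattice height, as a function of the
sine `σ ≥ 0` of the angle to the lattice direction. -/
noncomputable def RA (s σ : ℝ) : ℝ := 1 - 2 * σ - s * dc p (σ / s)

/-- `s e' / e`. -/
noncomputable def Pe (s : ℝ) : ℝ :=
  (1 / (2 * h0) - s / g s) / (1 / (2 * h0) - s / (1 + g s))

/-- The unit circle. -/
noncomputable def R1 (s T : ℝ) : ℝ :=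
  if T < h0 / 2 then RA p s T
  else if T ≤ 1 / 2 then RA p s T * ((T - h0) / T)
  else RA p s |T / 2 - h0 * c1 T| *
    (1 / 2 - h0 * (T / 2 - h0 * c1 T) / (1 + (c1 T / 2 + h0 * T)))

/-- The circle of radius `√3`. -/
noncomputable def R3 (s T : ℝ) : ℝ :=
  if T < h0 / 2 then
    -(T * (RA p s (c3 T / (4 * h0) - T / 2) / (c3 T / (4 * h0) - T / 2)))
  else if T < 3 * h0 / 2 then RA p s |T / 2 - c3 T / (4 * h0)| *
    (3 / 2 - h0 * (T / 2 - c3 T / (4 * h0)) / (1 + (c3 T / 2 + T / (4 * h0))))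
  else if c3 T ≤ h0 then RA p s (c3 T / (2 * h0)) * (c3 T / (1 + T / (2 * h0)))
  else (T - 2 * h0) * (RA p s (T / 2 - c3 T / (4 * h0)) / (T / 2 - c3 T / (4 * h0)))

/-- The pinned slope above the height `h0`. -/
noncomputable def pinU (s : ℝ) : ℝ :=
  (RA p s s - Pe s / 2 - R1 p s (h0 + s)) / (g s - 1 / 2 - c1 (h0 + s))

/-- The pinned slope below the height `h0`. -/
noncomputable def pinL (s : ℝ) : ℝ :=
  (R3 p s (h0 - s) - Pe s / 2 - RA p s s) / (c3 (h0 - s) - (1 / 2 + g s))

/-- The slope above the height `h0`, `z = (T - h0) / s`. -/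
noncomputable def slU (s z : ℝ) : ℝ :=
  if z ≤ 1 then p.sA + (pinU p s - p.sA) * z
  else if z ≤ 2 then pinU p s
  else 4 * h0 - 3

/-- The slope below the height `h0`, `z = (h0 - T) / s`. -/
noncomputable def slL (s z : ℝ) : ℝ :=
  if z ≤ 1 then p.sC + (pinL p s - p.sC) * z
  else if z ≤ 2 then pinL p s
  else p.mC

/-- The kernel on the curve `W`. -/
noncomputable def RW (s T : ℝ) : ℝ :=
  if T < h0 / 2 then RA p s T
  else if T < h0 then R3 p s T - slL p s ((h0 - T) / s) * (c3 T - Wc T)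
  else (if T < 1 then R1 p s T else 0) + slU p s ((T - h0) / s) * (Wc T - c1 T)

/-- The kernel at the far vertex. -/
noncomputable def vA (s T : ℝ) : Fin 4 → ℝ := ![
  if T < 1 then R1 p s T else 0,
  if T < h0 / 2 then RA p s T
  else if T < h0 then R1 p s T + p.l2 * (1 / 3 * (Wc T - c1 T))
  else if T < 3 * h0 / 2 then RW p s T
  else Wc T / 2,
  if T < h0 then RW p s T
  else if T < 3 * h0 / 2 then RW p s T + p.l1 * (3 / 20 * (c3 T - Wc T))
  else (Wc T + 3 / 20 * (c3 T - Wc T)) / 2,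
  R3 p s T]

/-! ### The level tables -/

/-- The value at `s`. -/
noncomputable def x1 (s : ℝ) : ℝ := (2 * g s - 1) / (1 + g s)

/-- The slope at `s`. -/
noncomputable def xm (s : ℝ) : ℝ :=
  (2 / g s * (g s ^ 2 / (2 * h0) - s * (3 / 2 - g s)) - RA p s s / s * (2 * we s)) / s

/-- The common form up to `3 / 2`. -/
noncomputable def x0 (s w : ℝ) : ℝ :=
  if w ≤ 1 then w * (2 * x1 s - xm p s + (xm p s - x1 s) * w)
  else x1 s + xm p s * (w - 1)

/-- Near the horizontal direction. -/
noncomputable def xA (s w : ℝ) : ℝ :=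
  if w ≤ 3 / 2 then x0 p s w
  else if w ≤ 5 / 2 then pl (3 / 2) (x1 s + xm p s / 2) (5 / 2) p.a1 w
  else if w ≤ 4 then pl (5 / 2) p.a1 4 0 w
  else 0

/-- Near `60` degrees. -/
noncomputable def xB (z : ℝ) : ℝ :=
  if z ≤ 1 then z * (p.b0 + p.b1 * z)
  else if z ≤ 5 / 2 then pl 1 (p.b0 + p.b1) (5 / 2) 0 z
  else 0

/-- On `W`. -/
noncomputable def xW (s z : ℝ) : ℝ :=
  if z ≤ 3 / 2 then x0 p s z
  else if z ≤ 5 / 2 then pl (3 / 2) (x1 s + xm p s / 2) (5 / 2) 0 z
  else 0

/-- The level table on the unit circle, `T < 1`. -/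
noncomputable def X1 (s T : ℝ) : ℝ :=
  if T ≤ 1 / 2 then xA p s (T / s)
  else if T < h0 then xB p ((h0 * c1 T - T / 2) / (2 * s))
  else xA p s ((T / 2 - h0 * c1 T) / s) - xB p ((T / 2 - h0 * c1 T) / (2 * s))

/-- The level table on the circle of radius `√3`. -/
noncomputable def X3 (s T : ℝ) : ℝ :=
  if T ≤ h0 then xA p s ((c3 T / (4 * h0) - T / 2) / s) +
    xB p ((c3 T / (4 * h0) - T / 2) / (2 * s))
  else if T ≤ 3 / 2 then
    2 * xA p s ((T / 2 - c3 T / (4 * h0)) / s) - xB p ((T / 2 - c3 T / (4 * h0)) / (2 * s))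
  else 2 * xB p (c3 T / (2 * h0) / (2 * s)) - xA p s (c3 T / (2 * h0) / s)

/-- The level table of a long edge near the vertical direction with the displacement `X`. -/
noncomputable def XV (s X : ℝ) : ℝ :=
  2 * xB p (X / (2 * h0) / (2 * s)) - xA p s (X / (2 * h0) / s)

/-- The level tables, without the factor `s ^ 2`. -/
noncomputable def vx (s T : ℝ) : Fin 4 → ℝ := ![
  if T < 1 then X1 p s T else 0,
  if T < h0 / 2 then xA p s (T / s)
  else if T < h0 then X1 p s T
  else if T < 3 * h0 / 2 then xW p s ((T - h0) / s)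
  else XV p s (pos.cv 2 T) * (pos.cv 1 T / pos.cv 2 T),
  if T < h0 / 2 then xA p s (T / s)
  else if T < h0 then xW p s ((h0 - T) / s)
  else if T < 3 * h0 / 2 then xW p s ((T - h0) / s)
  else XV p s (pos.cv 2 T),
  X3 p s T]

/-- The level tables. -/
noncomputable def vX (s T : ℝ) (j : Fin 4) : ℝ := s ^ 2 * vx p s T j

/-! ### The near vertex -/

/-- The profile of the correction. -/
noncomputable def taper (z : ℝ) : ℝ :=
  if z ≤ 1 then z else if z ≤ 4 then pl 1 1 4 0 z else 0

/-- The correction near the horizontal direction. -/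
noncomputable def r2 (s : ℝ) : ℝ :=
  s * (s / g s + 1 / (2 * h0)) - RA p s s + g s * xm p s / x1 s

/-- The difference on `W`. -/
noncomputable def r2d (s : ℝ) : ℝ := Pe s / 2 - xm p s / (2 * x1 s)

/-- The correction of the kernel at the near vertex. -/
noncomputable def vR (s T : ℝ) : Fin 4 → ℝ := ![
  if T < h0 / 2 then r2 p s * taper (T / s) else 0,
  if T < h0 / 2 then r2 p s * taper (T / s)
  else if T < h0 then 0
  else if T < 3 * h0 / 2 then (r2 p s + r2d p s) * taper ((T - h0) / s)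
  else 0,
  if T < h0 / 2 then r2 p s * taper (T / s)
  else if T < h0 then (r2 p s - r2d p s) * taper ((h0 - T) / s)
  else if T < 3 * h0 / 2 then (r2 p s + r2d p s) * taper ((T - h0) / s)
  else 0,
  0]

/-- The kernel at the near vertex. -/
noncomputable def vB (s T : ℝ) (j : Fin 4) : ℝ :=
  ((we s + mu 3 s * wq s) * vA p s T j + mu 3 s * wq s * vR p s T j) / we s

end Pool.Agent.Strip051.LC.E0
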