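import Pool.Agent.Strip051.LC.E0.ClN
import Pool.Agent.Strip051.LC.E0.Main

/-! # Small rests: the windows next to the two slanted lattice directions

`Tri` collects the hypotheses for a triangle in normal form, `Two` says that two of the sides
bottom-middle, middle-top, bottom-top are nodes, one of them bottom-middle. -/

namespace Pool.Agent.Strip051.LC.E0

open Pool.Agent.StripNear Pool.Agent.StripSquare Pool.Agent.Strip051 Pool.Agent.Strip051.Sweep
open Pool.Agent.Strip051.LC.Line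
open Pool.Agent.Strip051.LC.Exact (kE)
open G

/-- The triangles in normal form. -/
structure Tri (X12 X13 t t' : ℝ) : Prop where
  t0 : 0 ≤ t
  t1 : 0 ≤ t'
  cr : 0 ≤ X12 * (t + t') - X13 * t
  a1 : 1 ≤ X12 ^ 2 + t ^ 2
  a3 : X12 ^ 2 + t ^ 2 ≤ 3
  b1 : 1 ≤ (X13 - X12) ^ 2 + t' ^ 2
  b3 : (X13 - X12) ^ 2 + t' ^ 2 ≤ 3
  c1 : 1 ≤ X13 ^ 2 + (t + t') ^ 2
  c3 : X13 ^ 2 + (t + t') ^ 2 ≤ 3

/-- A node. -/
def Nd (X T : ℝ) : Prop := ∃ k : Fin 4, pos.dm k T ∧ |X| = pos.cv k T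

theorem Nd.neg {X T : ℝ} (h : Nd X T) : Nd (-X) T := by
  obtain ⟨k, h1, h2⟩ := h
  exact ⟨k, h1, by rw [abs_neg]; exact h2⟩

/-- The abscissa of an admissible side. -/
theorem abs_c1 {X T : ℝ} (hT : 0 ≤ T) (h : 1 ≤ X ^ 2 + T ^ 2) : LC.c1 T ≤ |X| := by
  rcases le_or_gt T 1 with h1 | h1
  · have e := c1_sq hT h1
    have c := c1_nonneg T
    rw [← sq_abs X] at h
    exact abs_le_of_sq_le_sq' (by linarith) (abs_nonneg X) |>.2
  · rw [c1_zero h1.le]
    exact abs_nonneg X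

theorem abs_c3 {X T : ℝ} (h : X ^ 2 + T ^ 2 ≤ 3) : |X| ≤ LC.c3 T := by
  have e := c3_sq (t := T) (by nlinarith [sq_nonneg X])
  have c := c3_nonneg T
  rw [← sq_abs X] at h
  exact abs_le_of_sq_le_sq' (by linarith) c |>.2

/-! ### The reflection -/

section

variable {X12 X13 t t' s : ℝ}

theorem Tri.mir (h : Tri X12 X13 t t') : Tri (X12 - X13) (-X13) t' t where
  t0 := h.t1
  t1 := h.t0
  cr := by
    have := h.cr
    linarith
  a1 := by
    have := h.b1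
    nlinarith
  a3 := by
    have := h.b3
    nlinarith
  b1 := by
    have := h.a1
    nlinarith
  b3 := by
    have := h.a3
    nlinarith
  c1 := by
    have := h.c1
    nlinarith
  c3 := by
    have := h.c3
    nlinarith

/-- The statements are symmetric. -/
theorem okv_mir (V : Vx) (hs0 : 0 ≤ s) (hs1 : s < h0) (h : OKV V s (X12 - X13) (-X13) t' t) :
    OKV V s X12 X13 t t' := by
  cases V
  · have h' : farD (kE s) s (vA par s) (vX par s) (X12 - X13) (-X13) t' t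
        (E0.K.valK (X12 - X13) (-X13) t' t) := h
    rw [Cur.valK_flip] at h'
    exact farD_sym hs0 hs1 _ _ _ _ _ h'
  · have h' : nearT 0 3 (kE s) s (vB par s) (vX par s) (X12 - X13) (-X13) t' t
        (E0.K.valK (X12 - X13) (-X13) t' t) := h
    rw [Cur.valK_flip] at h'
    have h2 : nearD 0 3 (kE s) s (fun _ => 0) (vB par s) (vX par s) (fun _ _ => 0) (X12 - X13)
        (-X13) t' t (Cur.flip (E0.K.valK X12 X13 t t')) := by
      intro y
      rw [pf_zero_den, mul_zero, add_zero]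
      exact h' y
    have h3 := nearD_sym hs0 hs1 (fun x => by simp) _ _ _ _ _ h2
    intro y
    have := h3 y
    rw [pf_zero_den, mul_zero, add_zero] at this
    exact this

end

/-! ### The window at the horizontal direction -/

section

variable {V : Vx} {s X12 X13 t t' : ℝ}

/-- **The first window.** -/
theorem h0_ok (hR : Rows V) (hA : ∀ x w z, Win x w z → w + z ≤ 8 → Aux V x w z) (hs : 0 < s)
    (hs1 : s ≤ 11 / 400) (h : Tri X12 X13 t t') (w1 : t ≤ 8 * s) (w2 : |t' - h0| ≤ 8 * s)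
    (w3 : |t + t' - h0| ≤ 8 * s) (w4 : t' ≤ 28 / 25 * h0) (w5 : t + t' ≤ 28 / 25 * h0)
    (hn : Nd (X13 - X12) t' ∨ Nd X13 (t + t')) : OKV V s X12 X13 t t' := by
  have hh := h0_pos
  have g1 := h0_gt
  have g2 := h0_lt
  obtain ⟨a, b⟩ := abs_le.1 w2
  obtain ⟨c, d⟩ := abs_le.1 w3
  obtain ⟨x, hx⟩ : ∃ x, x = s / h0 := ⟨_, rfl⟩
  obtain ⟨w, hw⟩ : ∃ w, w = t / s := ⟨_, rfl⟩
  obtain ⟨z, hz⟩ : ∃ z, z = (t' - h0) / s := ⟨_, rfl⟩
  have es : s = h0 * x := by
    rw [hx]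
    field_simp
  have et : t = h0 * (x * w) := by
    rw [hw, hx]
    field_simp
  have et' : t' = h0 * (1 + x * z) := by
    rw [hz, hx]
    field_simp
    ring
  have eT : t + t' = h0 * (1 + x * (w + z)) := by
    rw [et, et']
    ring
  have h8 : w + z ≤ 8 := by
    rw [hz, hw, ← add_div, div_le_iff₀ hs]
    linarith
  have hW : Win x w z := by
    refine ⟨by rw [hx]; positivity, by rw [← es]; exact hs1, by rw [hw]; exact div_nonneg h.t0 hs.le,
      ?_, ?_, ?_, ?_, ?_, ?_, ?_⟩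
    · rw [hw, div_le_iff₀ hs]
      exact w1
    · rw [hz, le_div_iff₀ hs]
      linarith
    · rw [hz, div_le_iff₀ hs]
      linarith
    · rw [hz, hw, ← add_div, le_div_iff₀ hs]
      linarith
    · linarith
    · have : h0 * (x * z) ≤ h0 * (3 / 25) := by linarith
      exact le_of_mul_le_mul_left this hh
    · have : h0 * (x * (w + z)) ≤ h0 * (3 / 25) := by linarith
      exact le_of_mul_le_mul_left this hh
  -- the horizontal side points to the right
  have hT : 0 ≤ t + t' := add_nonneg h.t0 h.t1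
  have p1 := abs_c1 h.t0 h.a1
  have p2 := abs_c3 h.a3
  have p3 := abs_c1 h.t1 h.b1
  have p4 := abs_c3 h.b3
  have p5 := abs_c1 hT h.c1
  have p6 := abs_c3 h.c3
  have n1 := hW.nums.1
  have m2 := hW.rz.nums.2.1
  rw [← et] at n1
  rw [← et'] at m2
  have hX : 0 ≤ X12 := by
    by_contra hc
    push Not at hc
    rw [abs_of_neg hc] at p1
    have e : X12 * (t + t') - X13 * t = X12 * t' - (X13 - X12) * t := by ring
    have hcr := h.cr
    rw [e] at hcr
    have q1 : (-X12) * t' ≥ 39 / 40 * t' := mul_le_mul_of_nonneg_right (by linarith) h.t1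
    have q2 : -(X13 - X12) * t ≤ 201 / 125 * t :=
      mul_le_mul_of_nonneg_right ((neg_le_abs _).trans (p4.trans m2)) h.t0
    nlinarith
  rw [abs_of_nonneg hX] at p1 p2
  have hS : Shp x w z X12 X13 := by
    refine ⟨hW, ?_, ?_, ?_, ?_, ?_, ?_⟩
    · rw [← et]; exact p1
    · rw [← et]; exact p2
    · rw [← et']; exact p3
    · rw [← et']; exact p4
    · rw [← eT]; exact p5
    · rw [← eT]; exact p6
  have hV := vert hR hW (hA x w z hW h8) h8
  have := red hV hS (by rw [← et', ← eT]; exact hn)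
  rwa [← es, ← et, ← et'] at this

/-- **The second window.** -/
theorem h1_ok (hR : Rows V) (hA : ∀ x w z, Win x w z → w + z ≤ 8 → Aux V x w z) (hs : 0 < s)
    (hs1 : s ≤ 11 / 400) (h : Tri X12 X13 t t') (w1 : |t - h0| ≤ 8 * s) (w2 : t' ≤ 8 * s)
    (w3 : |t + t' - h0| ≤ 8 * s) (w4 : t ≤ 28 / 25 * h0) (w5 : t + t' ≤ 28 / 25 * h0)
    (hn : Nd X12 t ∨ Nd X13 (t + t')) : OKV V s X12 X13 t t' := by
  have g1 := h0_gt
  refine okv_mir V hs.le (by linarith) ?_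
  refine h0_ok hR hA hs hs1 h.mir w2 w1 (by rwa [add_comm]) w4 (by rwa [add_comm]) ?_
  rw [show -X13 - (X12 - X13) = -X12 by ring, add_comm t' t]
  rcases hn with h1 | h1
  · exact Or.inl h1.neg
  · exact Or.inr h1.neg

end

/-! ### The charts from the statements about triangles -/

/-- All statements about triangles with two nodes, one of them the side bottom-middle. -/
def AllOK (s : ℝ) : Prop := ∀ (V : Vx) (X12 X13 t t' : ℝ), Tri X12 X13 t t' → Nd X12 t →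
  (Nd (X13 - X12) t' ∨ Nd X13 (t + t')) → OKV V s X12 X13 t t'

theorem nd_cv {σ T : ℝ} (hσ : σ = 1 ∨ σ = -1) {j : Fin 4} (hT : 0 ≤ T) (h : E0.K.dm j T) :
    Nd (σ * E0.K.cv j T) T := by
  refine ⟨j, h, ?_⟩
  have c := E0.K.nonneg j hT (E0.K.dm_sq j T hT h)
  rcases hσ with rfl | rfl
  · rw [one_mul]
    exact abs_of_nonneg c
  · rw [neg_one_mul, abs_neg]
    exact abs_of_nonneg c

theorem sq_cv {σ T : ℝ} (hσ : σ = 1 ∨ σ = -1) {j : Fin 4} (hT : 0 ≤ T) (h : E0.K.dm j T) :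
    1 ≤ (σ * E0.K.cv j T) ^ 2 + T ^ 2 ∧ (σ * E0.K.cv j T) ^ 2 + T ^ 2 ≤ 3 := by
  have e : (σ * E0.K.cv j T) ^ 2 = E0.K.cv j T ^ 2 := by
    rcases hσ with rfl | rfl <;> ring
  rw [e]
  exact E0.K.len hT h

theorem exA_of {s : ℝ} {P : ℝ → ℝ → ℝ → ℝ → ((ℝ → Fin 4 → ℝ) → ℝ × ℝ × ℝ) → Prop}
    (hP : E0.K.Congr P) (h : ∀ X12 X13 t t' : ℝ, Tri X12 X13 t t' → Nd X12 t →
      (Nd (X13 - X12) t' ∨ Nd X13 (t + t')) → P X12 X13 t t' (E0.K.valK X12 X13 t t'))
    (j k : Fin 4) {σ σ' ε : ℝ} (hσ : σ = 1 ∨ σ = -1) (hσ' : σ' = 1 ∨ σ' = -1)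
    (hε : ε = 1 ∨ ε = -1) : E0.K.ExA P j k σ σ' ε := by
  intro i t t' hy
  have hy' := hy
  obtain ⟨t0, t1, d1, d2, cr, c1, c3, -, -⟩ := hy'
  have a := sq_cv hσ t0 d1
  have b := sq_cv hσ' t1 d2
  have e : σ * E0.K.cv j t + σ' * E0.K.cv k t' - σ * E0.K.cv j t = σ' * E0.K.cv k t' := by ring
  refine hP _ _ _ _ _ _ (fun v hv => Cur.valK_A hv hσ hσ' hε hy) (h _ _ _ _ ?_ (nd_cv hσ t0 d1)
    (Or.inl (by rw [e]; exact nd_cv hσ' t1 d2)))
  exact ⟨t0, t1, by linarith, a.1, a.2, by rw [e]; exact b.1, by rw [e]; exact b.2, c1, c3⟩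

theorem exB_of {s : ℝ} {P : ℝ → ℝ → ℝ → ℝ → ((ℝ → Fin 4 → ℝ) → ℝ × ℝ × ℝ) → Prop}
    (hP : E0.K.Congr P) (h : ∀ X12 X13 t t' : ℝ, Tri X12 X13 t t' → Nd X12 t →
      (Nd (X13 - X12) t' ∨ Nd X13 (t + t')) → P X12 X13 t t' (E0.K.valK X12 X13 t t'))
    (j k : Fin 4) {σ σ' ε : ℝ} (hσ : σ = 1 ∨ σ = -1) (hσ' : σ' = 1 ∨ σ' = -1)
    (hε : ε = 1 ∨ ε = -1) : E0.K.ExB P j k σ σ' ε := by
  intro i t t' hy
  have hy' := hy
  obtain ⟨t0, t1, d1, d2, cr, b1, b3, -, -⟩ := hy'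
  have hT : 0 ≤ t + t' := add_nonneg t0 t1
  have a := sq_cv hσ t0 d1
  have c := sq_cv hσ' hT d2
  refine hP _ _ _ _ _ _ (fun v hv => Cur.valK_B hv hσ hσ' hε hy) (h _ _ _ _ ?_ (nd_cv hσ t0 d1)
    (Or.inr (nd_cv hσ' hT d2)))
  exact ⟨t0, t1, cr, a.1, a.2, b1, b3, c.1, c.2⟩

theorem congr_far (s : ℝ) : E0.K.Congr (farD (kE s) s (vA par s) (vX par s)) := by
  intro X12 X13 t t' w w' e h y
  have := h y
  rw [e _ (adm_vA par s), e _ (adm_vX par s)] at this
  exact this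

theorem congr_near (s : ℝ) : E0.K.Congr (nearT 0 3 (kE s) s (vB par s) (vX par s)) := by
  intro X12 X13 t t' w w' e h y
  have := h y
  rw [e _ (adm_vB par s), e _ (adm_vX par s)] at this
  exact this

/-- **The charts from all triangles.** -/
theorem charts_of {s : ℝ} (h : AllOK s) : Charts s := by
  have p : (1 : ℝ) = 1 ∨ (1 : ℝ) = -1 := Or.inl rfl
  have m : (-1 : ℝ) = 1 ∨ (-1 : ℝ) = -1 := Or.inr rfl
  have F := exA_of (s := s) (congr_far s) (h .far)
  have F' := exB_of (s := s) (congr_far s) (h .far)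
  have N := exA_of (s := s) (congr_near s) (h .near)
  have N' := exB_of (s := s) (congr_near s) (h .near)
  exact ⟨fun j k _ => ⟨F j k p p p, F j k p m p, F j k p m m, F j k m m m⟩,
    fun j k => ⟨F' j k p p p, F' j k p p m, F' j k p m m, F' j k m m p, F' j k m m m⟩,
    fun j k _ => ⟨N j k p p p, N j k p m p, N j k p m m, N j k m m m⟩,
    fun j k => ⟨N' j k p p p, N' j k p p m, N' j k p m m, N' j k m m p, N' j k m m m⟩⟩

end Pool.Agent.Strip051.LC.E0
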