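import Pool.Agent.Strip051.LC.E0.VwV
import Pool.Agent.Strip051.LC.E0.WinA

/-! # Small rests: the long vertical side -/

namespace Pool.Agent.Strip051.LC.E0

open Pool.Agent.StripNear Pool.Agent.StripSquare Pool.Agent.Strip051 Pool.Agent.Strip051.Sweep
open Pool.Agent.Strip051.LC.Line
open G

/-- The values of a side. -/
structure Val (x X T a c r : ℝ) : Prop where
  ka : ker E0.K.nodes (vA par (h0 * x)) (fun _ _ => 0) X T = a
  kc : ker E0.K.nodes (vX par (h0 * x)) (fun _ _ => 0) X T = x ^ 2 * c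
  kb : ker E0.K.nodes (vB par (h0 * x)) (fun _ _ => 0) X T = (1 + x * lb x) * a + x * lb x * r

theorem Dat.val {x T K ξ k χ r : ℝ} (h : Dat x T K ξ k χ r) :
    Val x (K + x * ξ) T (K + x * k) χ r where
  ka := h.a
  kc := h.c
  kb := by
    rw [h.b]
    unfold nk
    ring

theorem Val.neg {x X T a c r : ℝ} (h : Val x X T a c r) : Val x (-X) T (-a) (-c) (-r) where
  ka := by rw [E0.K.ker_neg, h.ka]
  kc := by
    rw [E0.K.ker_neg, h.kc]
    ring
  kb := by
    rw [E0.K.ker_neg, h.kb]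
    ring

theorem val_seg {x X T a c r : ℝ} (hx : 0 < x) (hx1 : x ≤ 4 / 125) (i : Fin 3) (hT : 0 ≤ T)
    (h3 : T ^ 2 ≤ 3) (h1 : pos.cv i.castSucc T ≤ X) (h2 : X ≤ pos.cv i.succ T)
    (ha : pl (pos.cv i.castSucc T) (vA par (h0 * x) T i.castSucc) (pos.cv i.succ T)
      (vA par (h0 * x) T i.succ) X = a)
    (hc : pl (pos.cv i.castSucc T) (vX par (h0 * x) T i.castSucc) (pos.cv i.succ T)
      (vX par (h0 * x) T i.succ) X = x ^ 2 * c)
    (hr : pl (pos.cv i.castSucc T) (vR par (h0 * x) T i.castSucc) (pos.cv i.succ T)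
      (vR par (h0 * x) T i.succ) X = r) : Val x X T a c r where
  ka := (E0.K.seg _ (adm_vA par _) i _ T hT h3 h1 h2).trans ha
  kc := (E0.K.seg _ (adm_vX par _) i _ T hT h3 h1 h2).trans hc
  kb := by
    refine (E0.K.seg _ (adm_vB par _) i _ T hT h3 h1 h2).trans ?_
    change pl (pos.cv i.castSucc T) (vB par (h0 * x) T i.castSucc) (pos.cv i.succ T)
      (vB par (h0 * x) T i.succ) X = _
    unfold vB
    rw [pl_lin2, ha, hr]
    have he := ep_pos hx.le (by linarith : x ≤ 1 / 2)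
    rw [we_h0 hx.le (by linarith), mu_h0, wq_h0 hx (by linarith)]
    unfold lb
    have := he.ne'
    have := hx.ne'
    field_simp

/-- The heights next to `2 h0`. -/
structure Top (x C τ : ℝ) : Prop where
  x0 : 0 < x
  s1 : h0 * x ≤ 11 / 400
  C0 : 109 / 125 ≤ C
  C1 : C ≤ 1
  t0 : 0 ≤ τ
  e : C ^ 2 + 3 / 4 * τ ^ 2 = 1

/-- The kernel at the circle of radius `√3`. -/
noncomputable def Ph (x C τ : ℝ) : ℝ := (1 - x * dt (τ / x)) * (3 / 2 * (τ / (1 + C)))

section

variable {x C τ : ℝ}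

theorem Top.x1 (h : Top x C τ) : x ≤ 4 / 125 := x_le h.x0 h.s1

theorem Top.t1 (h : Top x C τ) : τ ≤ 283 / 500 := by
  have e := h.e
  have c := h.C0
  have t := h.t0
  by_contra hc
  push Not at hc
  nlinarith

theorem Top.T1 (h : Top x C τ) : 3 / 2 < h0 * (2 * C) := by
  have := h.C0
  have := h0_gt
  have hh := h0_pos
  nlinarith

theorem Top.T2 (h : Top x C τ) : 3 * h0 / 2 ≤ h0 * (2 * C) := by
  have := h.C0
  have hh := h0_pos
  nlinarith

theorem Top.T3 (h : Top x C τ) : (h0 * (2 * C)) ^ 2 ≤ 3 := by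
  have e := h.e
  have q := h0_sq'
  nlinarith [sq_nonneg τ]

theorem Top.c3 (h : Top x C τ) : LC.c3 (h0 * (2 * C)) = 3 / 2 * τ := by
  have e := h.e
  have q := h0_sq'
  unfold LC.c3
  rw [show 3 - (h0 * (2 * C)) ^ 2 = (3 / 2 * τ) ^ 2 by
    linear_combination (-4 * C ^ 2) * q - 3 * e]
  exact Real.sqrt_sq (by linarith [h.t0])

theorem Top.c1 (h : Top x C τ) : pos.cv 0 (h0 * (2 * C)) = 0 := by
  rw [cv_zero, c1_zero (by linarith [h.T1])]

/-- The curve `W`. -/
theorem Top.W (h : Top x C τ) : 0 ≤ Wc (h0 * (2 * C)) ∧ Wc (h0 * (2 * C)) ≤ 9 / 8 * τ ^ 2 := by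
  have e := h.e
  have q := h0_sq'
  have hh := h0_pos
  have c0 := h.C0
  have c1 := h.C1
  have hT : ¬h0 * (2 * C) < h0 := by
    have := h.T2
    intro hc
    linarith
  have hC : 0 ≤ C * (1 - C) := mul_nonneg (by linarith) (by linarith)
  have e2 : 1 - (h0 * (2 * C) - h0) ^ 2 = 1 / 4 + 3 * (C * (1 - C)) := by
    linear_combination (-(2 * C - 1) ^ 2) * q
  have e3 : C * (1 - C) ≤ 3 / 8 * τ ^ 2 := by nlinarith
  have hW : Wc (h0 * (2 * C)) = Real.sqrt (1 / 4 + 3 * (C * (1 - C))) - 1 / 2 := by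
    unfold Wc
    rw [if_neg hT, e2]
  rw [hW]
  constructor
  · have : 1 / 2 ≤ Real.sqrt (1 / 4 + 3 * (C * (1 - C))) :=
      Real.le_sqrt_of_sq_le (by linarith)
    linarith
  · have : Real.sqrt (1 / 4 + 3 * (C * (1 - C))) ≤ 1 / 2 + 9 / 8 * τ ^ 2 := by
      refine Real.sqrt_le_iff.2 ⟨by positivity, ?_⟩
      nlinarith [sq_nonneg (τ ^ 2)]
    linarith

/-- The last segment. -/
theorem Top.gap (h : Top x C τ) : 17 / 20 * (3 / 2 * τ - Wc (h0 * (2 * C))) ≥ 733 / 1000 * τ := by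
  have hw := h.W.2
  have t0 := h.t0
  have t1 := h.t1
  nlinarith [mul_nonneg t0 (sub_nonneg.2 t1)]

theorem Top.cv2 (h : Top x C τ) : pos.cv 2 (h0 * (2 * C)) =
    Wc (h0 * (2 * C)) + 3 / 20 * (3 / 2 * τ - Wc (h0 * (2 * C))) := by
  rw [cv_two_high (by have := h.T2; have := h0_pos; linarith), h.c3]

theorem Top.v0 (h : Top x C τ) : vA par (h0 * x) (h0 * (2 * C)) 0 = 0 ∧
    vX par (h0 * x) (h0 * (2 * C)) 0 = 0 ∧ vR par (h0 * x) (h0 * (2 * C)) 0 = 0 := by
  have a := h.T1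
  have b := h.T2
  have hh := h0_pos
  refine ⟨?_, ?_, ?_⟩
  · change (if _ then _ else _) = _
    rw [if_neg (by linarith)]
  · unfold vX
    rw [vx0_def, if_neg (by linarith), mul_zero]
  · change (if _ then _ else _) = _
    rw [if_neg (by linarith)]

theorem Top.v1 (h : Top x C τ) : vA par (h0 * x) (h0 * (2 * C)) 1 = Wc (h0 * (2 * C)) / 2 ∧
    vR par (h0 * x) (h0 * (2 * C)) 1 = 0 := by
  have b := h.T2
  have hh := h0_pos
  refine ⟨?_, ?_⟩
  · change (if _ then _ else if _ then _ else if _ then _ else _) = _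
    rw [if_neg (by linarith), if_neg (by linarith), if_neg (by linarith)]
  · change (if _ then _ else if _ then _ else if _ then _ else _) = _
    rw [if_neg (by linarith), if_neg (by linarith), if_neg (by linarith)]

theorem Top.v2 (h : Top x C τ) : vA par (h0 * x) (h0 * (2 * C)) 2 =
    pos.cv 2 (h0 * (2 * C)) / 2 ∧ vR par (h0 * x) (h0 * (2 * C)) 2 = 0 := by
  have b := h.T2
  have hh := h0_pos
  refine ⟨?_, ?_⟩
  · change (if _ then _ else if _ then _ else _) = _
    rw [if_neg (by linarith), if_neg (by linarith), cv_two_high (by linarith)]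
  · change (if _ then _ else if _ then _ else if _ then _ else _) = _
    rw [if_neg (by linarith), if_neg (by linarith), if_neg (by linarith)]

theorem Top.v3 (h : Top x C τ) : vA par (h0 * x) (h0 * (2 * C)) 3 = Ph x C τ := by
  have b := h.T2
  have hh := h0_pos
  have q := h0_sq'
  have t1 := h.t1
  have g1 := h0_gt
  have hx := h.x0
  change E0.R3 par (h0 * x) (h0 * (2 * C)) = _
  unfold E0.R3
  rw [if_neg (by linarith), if_neg (by linarith), h.c3, if_pos (by linarith)]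
  have e1 : 3 / 2 * τ / (2 * h0) = h0 * (x * (τ / x)) := by
    have : x * (τ / x) = τ := by field_simp
    rw [this]
    field_simp
    linear_combination (-4 * τ) * q
  have e2 : h0 * (2 * C) / (2 * h0) = C := by field_simp
  rw [e1, RA_h0 hx, e2]
  unfold Ph
  ring

theorem XV_h0 (hx : 0 < x) (hx1 : x < 1) (v : ℝ) :
    3 / 4 * XV par (h0 * x) (3 / 2 * (x * v)) = vf x v := by
  have hh := h0_pos
  have q := h0_sq'
  have e1 : 3 / 2 * (x * v) / (2 * h0) / (2 * (h0 * x)) = v / 2 := by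
    field_simp
    linear_combination (-4 * v) * q
  have e2 : 3 / 2 * (x * v) / (2 * h0) / (h0 * x) = v := by
    field_simp
    linear_combination (-4 * v) * q
  unfold XV vf
  rw [e1, e2, mul_sub, xA_h0 hx hx1, ← xB_h0]
  ring

/-- The levels at the top. -/
theorem Top.X (h : Top x C τ) {v1 v2 : ℝ} (e1 : 3 / 2 * (x * v1) = pos.cv 2 (h0 * (2 * C)))
    (e2 : x * v2 = τ) :
    vX par (h0 * x) (h0 * (2 * C)) 1 =
      x ^ 2 * (vf x v1 * (Wc (h0 * (2 * C)) / pos.cv 2 (h0 * (2 * C)))) ∧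
    vX par (h0 * x) (h0 * (2 * C)) 2 = x ^ 2 * vf x v1 ∧
    vX par (h0 * x) (h0 * (2 * C)) 3 = x ^ 2 * vf x v2 := by
  have a := h.T1
  have b := h.T2
  have hh := h0_pos
  have g1 := h0_lt
  have hx := h.x0
  have hx1 := h.x1
  have cw : pos.cv 1 (h0 * (2 * C)) = Wc (h0 * (2 * C)) := cv_one_high (by linarith)
  refine ⟨vX_h0 ?_, vX_h0 ?_, vX_h0 ?_⟩
  · rw [vx1_def, if_neg (by linarith), if_neg (by linarith), if_neg (by linarith), cw, ← mul_assoc,
      ← e1, XV_h0 hx (by linarith)]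
  · rw [vx2_def, if_neg (by linarith), if_neg (by linarith), if_neg (by linarith), ← e1,
      XV_h0 hx (by linarith)]
  · have e3 : vx par (h0 * x) (h0 * (2 * C)) 3 = E0.X3 par (h0 * x) (h0 * (2 * C)) := rfl
    rw [e3, ← XV_h0 hx (by linarith) v2, e2]
    unfold E0.X3 XV
    rw [if_neg (by linarith), if_neg (by linarith), h.c3]

end

end Pool.Agent.Strip051.LC.E0
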