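import Pool.Agent.Strip051.LC.E0.VwA

/-! # Small rests: the kernel of a long vertical side -/

namespace Pool.Agent.Strip051.LC.E0

open Pool.Agent.StripNear Pool.Agent.StripSquare Pool.Agent.Strip051 Pool.Agent.Strip051.Sweep
open Pool.Agent.Strip051.LC.Line
open G

section

variable {x C τ : ℝ}

/-- The factor of the kernel. -/
theorem fac_bd (hx : 0 < x) {v u : ℝ} (hv : 0 ≤ v) (e : x * v = u) :
    1 - 17321 / 10000 * u ≤ 1 - x * dt v ∧ 1 - x * dt v ≤ 1 - 3247 / 10000 * u := by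
  have hh := h0_pos
  have g1 := h0_gt
  have h1 := dt_le hv
  have h2 := RA_le2 (s := h0 * x) (σ := h0 * (x * v)) (by positivity) (by positivity)
  rw [RA_h0 hx] at h2
  have h3 := mul_le_mul_of_nonneg_left h1 hx.le
  have u0 : 0 ≤ u := by
    rw [← e]
    positivity
  have h4 := mul_le_mul_of_nonneg_right g1.le u0
  rw [e] at h2
  constructor
  · rw [← e]
    linarith
  · linarith

theorem Top.Ebd (h : Top x C τ) : 0 ≤ 3 / 4 * τ - Ph x C τ ∧
    3 / 4 * τ - Ph x C τ ≤ 1299075 / 1000000 * τ ^ 2 := by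
  have hx := h.x0
  have t0 := h.t0
  have t1 := h.t1
  have c0 := h.C0
  have c1 := h.C1
  have e := h.e
  obtain ⟨f1, f2⟩ := fac_bd hx (v := τ / x) (u := τ) (div_nonneg t0 hx.le) (by field_simp)
  obtain ⟨t, ht⟩ : ∃ t, t = τ / (1 + C) := ⟨_, rfl⟩
  have et : t * (1 + C) = τ := by
    rw [ht]
    field_simp
  have tn : 0 ≤ t := by
    rw [ht]
    positivity
  have tlo : τ ≤ 2 * t := by nlinarith
  unfold Ph
  rw [← ht]
  set r := 1 - x * dt (τ / x)
  have r0 : 0 ≤ r := by linarith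
  have e1 : (1 - C) * (1 + C) = 3 / 4 * τ ^ 2 := by linear_combination -e
  have hC : 1 - C ≤ 227 / 1000 * τ := by
    have : (1 - C) * (234 / 125) ≤ (1 - C) * (1 + C) :=
      mul_le_mul_of_nonneg_left (by linarith) (by linarith)
    nlinarith
  constructor
  · have k : r * (2 * t) ≤ τ := by
      have k1 : 2 * r ≤ 1 + C := by linarith
      have k2 := mul_le_mul_of_nonneg_right k1 tn
      linarith
    linarith
  · have k : (1 - 17321 / 10000 * τ) * τ ≤ r * (2 * t) := by
      have k1 : (1 - 17321 / 10000 * τ) * τ ≤ r * τ := mul_le_mul_of_nonneg_right f1 t0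
      have k2 : r * τ ≤ r * (2 * t) := mul_le_mul_of_nonneg_left tlo r0
      linarith
    nlinarith

theorem Ph_zero : Ph x C 0 = 0 := by
  unfold Ph
  simp

/-- **The value of the kernel at the top.** -/
theorem top_val (h : Top x C τ) {ψ : ℝ} (p0 : 0 ≤ ψ) (p1 : ψ ≤ τ) :
    ∃ a c, Val x (3 / 2 * ψ) (h0 * (2 * C)) a c 0 ∧ a ≤ 3 / 4 * ψ ∧ ψ * Ph x C τ ≤ τ * a ∧
      a ≤ Ph x C τ - 3 / 4 * (τ - ψ) + 133 / 50 * (τ * (τ - ψ)) ∧
      x ^ 2 * |c - vf x (ψ / x)| ≤ 7 / 20 * (τ ^ 2 - ψ ^ 2) ∧ |c| ≤ 2 / 5 := by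
  have hx := h.x0
  have hx1 := h.x1
  have t0 := h.t0
  have hT0 : 0 ≤ h0 * (2 * C) := by linarith [h.T1]
  have hT3 := h.T3
  obtain ⟨a0, b0, c0⟩ := h.v0
  obtain ⟨a1, c1⟩ := h.v1
  obtain ⟨a2, c2⟩ := h.v2
  have a3 := h.v3
  obtain ⟨w0, w1⟩ := h.W
  have hc0 := h.c1
  have hc1 : pos.cv 1 (h0 * (2 * C)) = Wc (h0 * (2 * C)) := cv_one_high (by
    have := h.T2
    have := h0_pos
    linarith)
  have hc2 := h.cv2
  have hc3 : pos.cv 3 (h0 * (2 * C)) = 3 / 2 * τ := by rw [cv_three, h.c3]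
  have hg := h.gap
  obtain ⟨E0', E1⟩ := h.Ebd
  rcases t0.eq_or_lt with hz | tp
  · have hψ : ψ = 0 := by linarith
    subst hψ
    rw [← hz] at *
    refine ⟨0, 0, ?_, by simp, by simp, by rw [Ph_zero]; simp, ?_, by norm_num⟩
    · refine val_seg hx hx1 0 hT0 hT3 ?_ ?_ ?_ ?_ ?_
      · change pos.cv 0 _ ≤ _
        rw [hc0]
        simp
      · change _ ≤ pos.cv 1 _
        rw [hc1]
        simpa using w0
      · change pl (pos.cv 0 _) (vA par (h0 * x) (h0 * (2 * C)) 0) _ _ _ = _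
        rw [hc0, a0]
        unfold pl
        simp
      · change pl (pos.cv 0 _) (vX par (h0 * x) (h0 * (2 * C)) 0) _ _ _ = _
        rw [hc0, b0]
        unfold pl
        simp
      · change pl (pos.cv 0 _) (vR par (h0 * x) (h0 * (2 * C)) 0) _ _ _ = _
        rw [hc0, c0]
        unfold pl
        simp
    · rw [zero_div, vf_zero]
      simp
  -- the general case
  obtain ⟨b, hb⟩ : ∃ b, b = pos.cv 2 (h0 * (2 * C)) := ⟨_, rfl⟩
  obtain ⟨W, hW⟩ : ∃ W, W = Wc (h0 * (2 * C)) := ⟨_, rfl⟩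
  rw [← hb, ← hW] at hc2
  rw [← hW] at w0 w1 hg a1 hc1
  rw [← hb] at a2
  have hb0 : 0 < b := by nlinarith
  have hWb : W ≤ b := by nlinarith
  have hgap : 733 / 1000 * τ ≤ 3 / 2 * τ - b := by rw [hc2]; linarith
  obtain ⟨v1, hv1⟩ : ∃ v1, v1 = b / (3 / 2 * x) := ⟨_, rfl⟩
  have ev1 : 3 / 2 * (x * v1) = b := by
    rw [hv1]
    field_simp
  have ev2 : x * (τ / x) = τ := by field_simp
  obtain ⟨X1, X2, X3⟩ := h.X (v1 := v1) (by rw [← hb]; exact ev1) ev2
  rw [← hb, ← hW] at X1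
  have v10 : 0 < v1 := by
    rw [hv1]
    positivity
  have v12 : v1 < τ / x := by
    rw [lt_div_iff₀ hx]
    linarith
  have lev : ∀ c, c = itp (vf x) v1 (τ / x) (ψ / x) →
      x ^ 2 * |c - vf x (ψ / x)| ≤ 7 / 20 * (τ ^ 2 - ψ ^ 2) ∧ |c| ≤ 2 / 5 := by
    intro c hc
    rw [hc]
    refine ⟨?_, itp_rg hx h.s1 v10.le v12 (div_nonneg p0 hx.le)
      (div_le_div_of_nonneg_right p1 hx.le)⟩
    have k := itp_vf hx h.s1 v10.le v12 (div_nonneg p0 hx.le) (div_le_div_of_nonneg_right p1 hx.le)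
    have k2 := mul_le_mul_of_nonneg_left k (sq_nonneg x)
    refine k2.trans (le_of_eq ?_)
    field_simp
  rcases le_or_gt (3 / 2 * ψ) b with hXb | hXb
  · -- the first two segments
    have hV : Val x (3 / 2 * ψ) (h0 * (2 * C)) (3 / 4 * ψ) (itp (vf x) v1 (τ / x) (ψ / x)) 0 := by
      have ei : itp (vf x) v1 (τ / x) (ψ / x) = vf x v1 / b * (3 / 2 * ψ) := by
        unfold itp
        rw [if_pos (by rw [div_le_iff₀ hx]; linarith)]
        rw [hv1]
        field_simp
      rcases le_total (3 / 2 * ψ) W with h1 | h1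
      · refine val_seg hx hx1 0 hT0 hT3 ?_ ?_ ?_ ?_ ?_
        · change pos.cv 0 _ ≤ _
          rw [hc0]
          linarith
        · change _ ≤ pos.cv 1 _
          rw [hc1]
          exact h1
        · change pl (pos.cv 0 _) (vA par (h0 * x) (h0 * (2 * C)) 0) (pos.cv 1 _)
            (vA par (h0 * x) (h0 * (2 * C)) 1) _ = _
          rw [hc0, a0, hc1, a1, pl_slope (m := 1 / 2) (by ring) (by linarith) h1]
          ring
        · change pl (pos.cv 0 _) (vX par (h0 * x) (h0 * (2 * C)) 0) (pos.cv 1 _)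
            (vX par (h0 * x) (h0 * (2 * C)) 1) _ = _
          rw [hc0, b0, hc1, X1, pl_slope (m := x ^ 2 * (vf x v1 / b)) (by ring) (by linarith) h1,
            ei]
          ring
        · change pl (pos.cv 0 _) (vR par (h0 * x) (h0 * (2 * C)) 0) (pos.cv 1 _)
            (vR par (h0 * x) (h0 * (2 * C)) 1) _ = _
          rw [c0, c1]
          unfold pl
          simp
      · refine val_seg hx hx1 1 hT0 hT3 ?_ ?_ ?_ ?_ ?_
        · change pos.cv 1 _ ≤ _
          rw [hc1]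
          exact h1
        · change _ ≤ pos.cv 2 _
          rw [← hb]
          exact hXb
        · change pl (pos.cv 1 _) (vA par (h0 * x) (h0 * (2 * C)) 1) (pos.cv 2 _)
            (vA par (h0 * x) (h0 * (2 * C)) 2) _ = _
          rw [hc1, a1, ← hb, a2, pl_slope (m := 1 / 2) (by ring) h1 hXb]
          ring
        · change pl (pos.cv 1 _) (vX par (h0 * x) (h0 * (2 * C)) 1) (pos.cv 2 _)
            (vX par (h0 * x) (h0 * (2 * C)) 2) _ = _
          have hbn := hb0.ne'
          rw [hc1, X1, ← hb, X2, pl_slope (m := x ^ 2 * (vf x v1 / b)) (by field_simp) h1 hXb,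
            ei]
          ring
        · change pl (pos.cv 1 _) (vR par (h0 * x) (h0 * (2 * C)) 1) (pos.cv 2 _)
            (vR par (h0 * x) (h0 * (2 * C)) 2) _ = _
          rw [c1, c2]
          unfold pl
          simp
    refine ⟨_, _, hV, le_rfl, ?_, ?_, lev _ rfl⟩
    · have := mul_nonneg p0 E0'
      linarith
    · have k1 : 733 / 1500 * τ ≤ τ - ψ := by linarith
      have k2 := mul_le_mul_of_nonneg_left k1 t0
      nlinarith [sq_nonneg τ]
  · -- the last segment
    have hcb : 0 < 3 / 2 * τ - b := by linarith [mul_pos (by norm_num : (0 : ℝ) < 733 / 1000) tp]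
    obtain ⟨l, hl⟩ : ∃ l, l = (3 / 2 * τ - 3 / 2 * ψ) / (3 / 2 * τ - b) := ⟨_, rfl⟩
    have el : l * (3 / 2 * τ - b) = 3 / 2 * τ - 3 / 2 * ψ := by
      rw [hl, div_mul_cancel₀ _ hcb.ne']
    have l0 : 0 ≤ l := by
      rw [hl]
      exact div_nonneg (by linarith) hcb.le
    have e1 : (3 / 2 * ψ - b) / (3 / 2 * τ - b) = 1 - l := by
      rw [div_eq_iff hcb.ne']
      linear_combination el
    have hV : Val x (3 / 2 * ψ) (h0 * (2 * C)) (3 / 4 * ψ - (3 / 4 * τ - Ph x C τ) * (1 - l))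
        (itp (vf x) v1 (τ / x) (ψ / x)) 0 := by
      have ei : itp (vf x) v1 (τ / x) (ψ / x) = vf x v1 + (vf x (τ / x) - vf x v1) * (1 - l) := by
        unfold itp
        rw [if_neg (by rw [not_le, lt_div_iff₀ hx]; linarith)]
        congr 2
        rw [← e1, ← ev1]
        field_simp
      refine val_seg hx hx1 2 hT0 hT3 ?_ ?_ ?_ ?_ ?_
      · change pos.cv 2 _ ≤ _
        rw [← hb]
        exact hXb.le
      · change _ ≤ pos.cv 3 _
        rw [hc3]
        linarith
      · change pl (pos.cv 2 _) (vA par (h0 * x) (h0 * (2 * C)) 2) (pos.cv 3 _)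
          (vA par (h0 * x) (h0 * (2 * C)) 3) _ = _
        rw [← hb, a2, hc3, a3]
        unfold pl
        rw [e1]
        linear_combination (-(1 / 2)) * el
      · change pl (pos.cv 2 _) (vX par (h0 * x) (h0 * (2 * C)) 2) (pos.cv 3 _)
          (vX par (h0 * x) (h0 * (2 * C)) 3) _ = _
        rw [← hb, X2, hc3, X3, ei]
        unfold pl
        rw [e1]
        ring
      · change pl (pos.cv 2 _) (vR par (h0 * x) (h0 * (2 * C)) 2) (pos.cv 3 _)
          (vR par (h0 * x) (h0 * (2 * C)) 3) _ = _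
        rw [c2, vR3]
        unfold pl
        simp
    have l1 : l ≤ 1 := by
      rw [hl, div_le_one hcb]
      linarith
    refine ⟨_, _, hV, ?_, ?_, ?_, lev _ rfl⟩
    · have := mul_nonneg E0' (by linarith : 0 ≤ 1 - l)
      linarith
    · -- the chord
      have k1 : 0 ≤ ψ - τ * (1 - l) := by
        have k2 : (ψ - τ * (1 - l)) * (3 / 2 * τ - b) = b * (τ - ψ) := by
          linear_combination τ * el
        have k3 : 0 ≤ b * (τ - ψ) := mul_nonneg hb0.le (by linarith)
        rw [← k2] at k3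
        exact nonneg_of_mul_nonneg_left k3 hcb
      have := mul_nonneg E0' k1
      linarith
    · have k1 : (3 / 4 * τ - Ph x C τ) * l ≤ 133 / 50 * (τ * (τ - ψ)) := by
        have k2 : (3 / 4 * τ - Ph x C τ) * l ≤ 1299075 / 1000000 * τ ^ 2 * l :=
          mul_le_mul_of_nonneg_right E1 l0
        have k3 : 733 / 1000 * τ * l ≤ 3 / 2 * (τ - ψ) := by
          have := mul_le_mul_of_nonneg_right hgap l0
          linarith
        have k4 := mul_le_mul_of_nonneg_left k3 t0
        have k5 : 0 ≤ τ * (τ - ψ) := mul_nonneg t0 (by linarith)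
        nlinarith
      linarith

end

end Pool.Agent.Strip051.LC.E0
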