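import Pool.Agent.Strip051.LC.E0.VwB

/-! # Small rests: two unit sides near the vertical lattice triangle -/

namespace Pool.Agent.Strip051.LC.E0

open Pool.Agent.StripNear Pool.Agent.StripSquare Pool.Agent.Strip051 Pool.Agent.Strip051.Sweep
open Pool.Agent.Strip051.LC.Line
open G

/-- Two unit sides and their angles. -/
structure Ang (a b q p A B Ca Cb : ℝ) : Prop where
  ea : Ca ^ 2 + 3 / 4 * A ^ 2 = 1
  eb : Cb ^ 2 + 3 / 4 * B ^ 2 = 1
  ha : a = Ca - A / 2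
  hq : q = Ca / 2 + 3 / 4 * A
  hb : b = Cb + B / 2
  hp : p = Cb / 2 - 3 / 4 * B
  A0 : 0 ≤ A
  A1 : A ≤ 393 / 1000
  B0 : -A ≤ B
  B1 : B ≤ 8 / 25
  ca : 47 / 50 ≤ Ca
  cb : 47 / 50 ≤ Cb

section

variable {a b q p A B Ca Cb : ℝ}

theorem Ang.dC (h : Ang a b q p A B Ca Cb) :
    (Cb - Ca) * (Ca + Cb) = 3 / 4 * ((A - B) * (A + B)) := by
  linear_combination h.eb - h.ea

theorem cos_le {C D : ℝ} (h : C ^ 2 + 3 / 4 * D ^ 2 = 1) : C ≤ 1 := by
  nlinarith [sq_nonneg D, sq_nonneg (C - 1)]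

/-- The difference of the cosines. -/
theorem Ang.dC' (h : Ang a b q p A B Ca Cb) (hD : 0 ≤ A - B) :
    0 ≤ Cb - Ca ∧ Cb - Ca ≤ 157 / 500 * (A - B) := by
  have e := h.dC
  have A0 := h.A0
  have A1 := h.A1
  have B0 := h.B0
  have ca := h.ca
  have cb := h.cb
  have k0 : 0 ≤ (A - B) * (A + B) := mul_nonneg hD (by linarith)
  have k1 : (A - B) * (A + B) ≤ (A - B) * (393 / 500) :=
    mul_le_mul_of_nonneg_left (by linarith) hD
  have h0' : 0 ≤ Cb - Ca := by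
    refine nonneg_of_mul_nonneg_left (b := Ca + Cb) ?_ (by linarith)
    rw [e]
    linarith
  refine ⟨h0', ?_⟩
  have k2 : (Cb - Ca) * (47 / 25) ≤ (Cb - Ca) * (Ca + Cb) :=
    mul_le_mul_of_nonneg_left (by linarith) h0'
  linarith

theorem Ang.KS (h : Ang a b q p A B Ca Cb) :
    (Ca * Cb + 3 / 4 * (A * B)) ^ 2 + 3 / 4 * (A * Cb - B * Ca) ^ 2 = 1 := by
  have h1 := h.ea
  have h2 := h.eb
  linear_combination (Cb ^ 2 + 3 / 4 * B ^ 2) * h1 + h2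

theorem Ang.K0 (h : Ang a b q p A B Ca Cb) : 19 / 25 ≤ Ca * Cb + 3 / 4 * (A * B) ∧
    Ca * Cb + 3 / 4 * (A * B) ≤ 1 := by
  have h1 := h.ca
  have h2 := h.cb
  have k1 : (47 / 50) * (47 / 50) ≤ Ca * Cb := mul_le_mul h1 h2 (by norm_num) (by linarith)
  have k2 : -(A * B) ≤ 393 / 1000 * (393 / 1000) := by
    have A0 := h.A0
    have A1 := h.A1
    have B0 := h.B0
    rcases le_total 0 B with hB | hB
    · have := mul_nonneg A0 hB
      linarith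
    · have := mul_le_mul A1 (by linarith : -B ≤ 393 / 1000) (by linarith) (by norm_num)
      linarith
  have e := h.KS
  constructor
  · linarith
  · nlinarith [sq_nonneg (A * Cb - B * Ca), sq_nonneg (Ca * Cb + 3 / 4 * (A * B) - 1)]

/-- The excess. -/
theorem Ang.exc (h : Ang a b q p A B Ca Cb) : (p * a + q * b - 1) / 2 =
    (Ca * Cb + 3 / 4 * (A * B) - 1) / 2 + (A * Cb - B * Ca) / 4 := by
  rw [h.ha, h.hb, h.hq, h.hp]
  ring

/-- The third side. -/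
theorem Ang.third (h : Ang a b q p A B Ca Cb) {C τ ψ : ℝ} (hC : C = (a + b) / 2)
    (e : C ^ 2 + 3 / 4 * τ ^ 2 = 1) (hψ : ψ = 2 / 3 * (q - p)) :
    9 / 4 * (τ ^ 2 - ψ ^ 2) = 1 - (Ca * Cb + 3 / 4 * (A * B)) + 3 / 2 * (A * Cb - B * Ca) := by
  have h1 := h.ea
  have h2 := h.eb
  rw [hψ, h.hq, h.hp]
  rw [hC, h.ha, h.hb] at e
  linear_combination 3 * e - h1 - h2

theorem Ang.psi (h : Ang a b q p A B Ca Cb) {ψ : ℝ} (hψ : ψ = 2 / 3 * (q - p)) :
    A - ψ = (A - B) / 2 + (Cb - Ca) / 3 := by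
  rw [hψ, h.hq, h.hp]
  ring

/-- The numbers for the opening angle. -/
theorem vcc_num {K S ex : ℝ} (e : K ^ 2 + 3 / 4 * S ^ 2 = 1) (K0 : 19 / 25 ≤ K) (K1 : K ≤ 1)
    (Sup : S ≤ 393 / 500) (Slo : -(393 / 500) ≤ S) (hM : 0 ≤ 1 - K + 3 / 2 * S)
    (hE : ex = (K - 1) / 2 + S / 4) (hx : ex ≤ 101 / 2000) :
    0 ≤ S ∧ 0 ≤ 1 - K ∧ ((S ≤ 416 / 100 * ex ∧ 1 - K ≤ 8 / 100 * ex) ∨
      (S ≤ 494 / 100 * ex ∧ 1 - K ≤ 47 / 100 * ex ∧ 1 / 100 ≤ ex)) := by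
  have k1 : (1 - K) * (1 + K) = 3 / 4 * S ^ 2 := by linear_combination -e
  have S0 : 0 ≤ S := by
    by_contra hc
    push Not at hc
    have h1 : (1 - K) * (44 / 25) ≤ (1 - K) * (1 + K) :=
      mul_le_mul_of_nonneg_left (by linarith) (by linarith)
    nlinarith
  have S1 : S ≤ 1 / 4 := by
    by_contra hc
    push Not at hc
    have h1 : K ≤ 1101 / 1000 - S / 2 := by linarith
    have h2 : K ^ 2 ≤ (1101 / 1000 - S / 2) ^ 2 := pow_le_pow_left₀ (by linarith) h1 2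
    nlinarith [mul_nonneg (by linarith : 0 ≤ S - 1 / 4) (by linarith : 0 ≤ 393 / 500 - S)]
  have S2 : S ^ 2 ≤ 1 / 4 * S := by nlinarith
  have hK1 : 976 / 1000 ≤ K := by
    by_contra hc
    push Not at hc
    nlinarith
  have hK2 : 1 - K ≤ 38 / 100 * S ^ 2 := by
    have h1 : (1 - K) * (1976 / 1000) ≤ (1 - K) * (1 + K) :=
      mul_le_mul_of_nonneg_left (by linarith) (by linarith)
    have h2 : (1 - K) * (1976 / 1000) ≤ 3 / 4 * S ^ 2 := h1.trans_eq k1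
    linarith [sq_nonneg S]
  have ex0 : 2025 / 10000 * S ≤ ex := by linarith
  refine ⟨S0, by linarith, ?_⟩
  rcases le_total S (1 / 20) with h5 | h5
  · left
    have S3 : S ^ 2 ≤ 1 / 20 * S := by nlinarith
    have ex1 : 2405 / 10000 * S ≤ ex := by linarith
    constructor <;> linarith
  · right
    refine ⟨by linarith, by linarith, by linarith⟩

theorem Ang.Sbd (h : Ang a b q p A B Ca Cb) : A * Cb - B * Ca ≤ 393 / 500 ∧
    -(393 / 500) ≤ A * Cb - B * Ca := by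
  have A0 := h.A0
  have A1 := h.A1
  have B0 := h.B0
  have B1 := h.B1
  have ca := h.ca
  have cb := h.cb
  have ca1 := cos_le h.ea
  have cb1 := cos_le h.eb
  constructor
  · have u1 : A * Cb ≤ 393 / 1000 * 1 := mul_le_mul A1 cb1 (by linarith) (by norm_num)
    have u2 : -B * Ca ≤ 393 / 1000 * 1 := by
      rcases le_total 0 B with hB | hB
      · have := mul_nonneg hB (by linarith : 0 ≤ Ca)
        linarith
      · exact mul_le_mul (by linarith) ca1 (by linarith) (by norm_num)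
    linarith
  · have u1 : 0 ≤ A * Cb := mul_nonneg A0 (by linarith)
    have u2 : B * Ca ≤ 8 / 25 * 1 := by
      rcases le_total 0 B with hB | hB
      · exact mul_le_mul B1 ca1 (by linarith) (by norm_num)
      · have := mul_nonneg (neg_nonneg.2 hB) (by linarith : 0 ≤ Ca)
        linarith
    linarith

/-- The sign of the difference of the angles. -/
theorem Ang.sgn (h : Ang a b q p A B Ca Cb) (S0 : 0 ≤ A * Cb - B * Ca) : 0 ≤ A - B := by
  have A0 := h.A0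
  have B0 := h.B0
  have ca := h.ca
  have cb := h.cb
  have eS : (A * Cb - B * Ca) * (Ca + Cb) =
      (A - B) * (Ca * (Ca + Cb) + 3 / 4 * (A * (A + B))) := by
    linear_combination A * h.dC
  have br : 0 < Ca * (Ca + Cb) + 3 / 4 * (A * (A + B)) := by
    have : 0 ≤ A * (A + B) := mul_nonneg A0 (by linarith)
    have : 0 < Ca * (Ca + Cb) := mul_pos (by linarith) (by linarith)
    linarith
  refine nonneg_of_mul_nonneg_left ?_ br
  rw [← eS]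
  exact mul_nonneg S0 (by linarith)

theorem Ang.DS (h : Ang a b q p A B Ca Cb) (hD : 0 ≤ A - B) :
    47 / 50 * (A - B) ≤ A * Cb - B * Ca := by
  obtain ⟨c0, c1⟩ := h.dC' hD
  have e1 : A * Cb - B * Ca = (A - B) * Ca + A * (Cb - Ca) := by ring
  have h1 := mul_nonneg h.A0 c0
  have h2 := mul_le_mul_of_nonneg_left h.ca hD
  rw [e1]
  linarith

theorem Ang.Aτ (h : Ang a b q p A B Ca Cb) (hD : 0 ≤ A - B) {C τ : ℝ} (hC : C = (a + b) / 2)
    (e : C ^ 2 + 3 / 4 * τ ^ 2 = 1) (t0 : 0 ≤ τ) : A ≤ τ := by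
  obtain ⟨c0, c1⟩ := h.dC' hD
  have e1 : C = Ca + (Cb - Ca) / 2 - (A - B) / 4 := by
    rw [hC, h.ha, h.hb]
    ring
  have hCC : C ≤ Ca := by linarith
  have hC0 : 0 ≤ C := by
    have := h.ca
    have := h.A1
    have := h.B0
    linarith
  have h1 : C ^ 2 ≤ Ca ^ 2 := pow_le_pow_left₀ hC0 hCC 2
  have h2 := h.ea
  have h3 : A ^ 2 ≤ τ ^ 2 := by linarith
  exact abs_le_of_sq_le_sq' h3 t0 |>.2

/-- **The lattice distance of a closed triangle.** -/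
theorem Ang.vcc (h : Ang a b q p A B Ca Cb) {C τ ψ ex : ℝ} (hC : C = (a + b) / 2)
    (e : C ^ 2 + 3 / 4 * τ ^ 2 = 1) (t0 : 0 ≤ τ) (hψ : ψ = 2 / 3 * (q - p)) (p0 : 0 ≤ ψ)
    (p1 : ψ ≤ τ) (hex : ex = (p * a + q * b - 1) / 2) (hx : ex ≤ 101 / 2000) :
    0 ≤ A - B ∧ 1 / 2 * (A - B) ≤ A - ψ ∧ A - ψ ≤ 121 / 200 * (A - B) ∧ A ≤ τ ∧ 0 ≤ ex ∧
      ((A - B ≤ 443 / 100 * ex ∧ τ ^ 2 - ψ ^ 2 ≤ 281 / 100 * ex) ∨
        (A - B ≤ 526 / 100 * ex ∧ τ ^ 2 - ψ ^ 2 ≤ 351 / 100 * ex ∧ 1 / 100 ≤ ex)) := by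
  have hM := h.third hC e hψ
  have hM0 : 0 ≤ τ ^ 2 - ψ ^ 2 := sub_nonneg.2 (pow_le_pow_left₀ p0 p1 2)
  have hE := h.exc
  rw [← hex] at hE
  obtain ⟨K0, K1⟩ := h.K0
  obtain ⟨Sup, Slo⟩ := h.Sbd
  obtain ⟨S0, K2, hcase⟩ := vcc_num h.KS K0 K1 Sup Slo (by linarith) hE hx
  have D0 := h.sgn S0
  have hDS := h.DS D0
  have hAτ := h.Aτ D0 hC e t0
  obtain ⟨c0, c1⟩ := h.dC' D0
  have hpsi := h.psi hψ
  clear hex hE K0 K1 Sup Slo hx e t0
  refine ⟨D0, by linarith, by linarith, hAτ, ?_, ?_⟩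
  · rcases hcase with ⟨a1, -⟩ | ⟨-, -, a1⟩ <;> linarith
  · rcases hcase with ⟨a1, a2⟩ | ⟨a1, a2, a3⟩
    · left
      constructor <;> linarith
    · right
      refine ⟨by linarith, by linarith, a3⟩

end

end Pool.Agent.Strip051.LC.E0
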