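import Pool.Agent.Strip051.LC.E0.VwC

/-! # Small rests: the kernel of two unit sides near the vertical lattice triangle -/

namespace Pool.Agent.Strip051.LC.E0

open Pool.Agent.StripNear Pool.Agent.StripSquare Pool.Agent.Strip051 Pool.Agent.Strip051.Sweep
open Pool.Agent.Strip051.LC.Line
open Pool.Agent.Strip051.LC.Exact (kE)
open G

/-- The factor of the kernel at the angle `B`. -/
noncomputable def rr (x B : ℝ) : ℝ := 1 - x * dt (|B| / x)

/-- The kernel on the unit circle. -/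
noncomputable def Fu (x B C : ℝ) : ℝ := rr x B * (1 / 2 - 3 / 4 * (B / (1 + C)))

section

variable {x : ℝ}

theorem rr_neg (B : ℝ) : rr x (-B) = rr x B := by
  unfold rr
  rw [abs_neg]

theorem rr_bd (hx : 0 < x) (B : ℝ) :
    1 - 17321 / 10000 * |B| ≤ rr x B ∧ rr x B ≤ 1 - 3247 / 10000 * |B| :=
  fac_bd hx (div_nonneg (abs_nonneg B) hx.le) (by field_simp)

theorem rr_le (hx : 0 < x) (B : ℝ) : rr x B ≤ 1 := by
  have := (rr_bd hx B).2
  have := abs_nonneg B
  linarith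

theorem rr_dif (hx : 0 < x) {u v : ℝ} (h : |u| ≤ |v|) :
    0 ≤ rr x u - rr x v ∧ rr x u - rr x v ≤ 187 / 50 * (|v| - |u|) := by
  have k := dt_x hx.le (u := |u| / x) (v := |v| / x) (U := |u|) (V := |v|)
    (div_nonneg (abs_nonneg u) hx.le) (div_le_div_of_nonneg_right h hx.le) (by field_simp)
    (by field_simp)
  unfold rr
  constructor <;> linarith [k.1, k.2]

theorem Ph_eq {C τ : ℝ} (t0 : 0 ≤ τ) : Ph x C τ = rr x τ * (3 / 2 * (τ / (1 + C))) := by
  unfold Ph rr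
  rw [abs_of_nonneg t0]

theorem Fu_neg (A C : ℝ) : Fu x (-A) C = rr x A * (1 / 2 + 3 / 4 * (A / (1 + C))) := by
  unfold Fu
  rw [rr_neg, neg_div]
  ring

end

section

variable {x a b q p A B Ca Cb : ℝ}

/-- The tangents of the half angles. -/
theorem Ang.tan (h : Ang a b q p A B Ca Cb) (hD : 0 ≤ A - B) :
    0 ≤ A / (1 + Ca) - B / (1 + Cb) ∧
    A / (1 + Ca) - B / (1 + Cb) ≤ 11 / 20 * (A - B) := by
  rcases le_total 0 B with hB | hB
  · exact tan_dif h.ea h.eb hB (by linarith) (by linarith [h.A1]) h.ca h.cb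
  · have ca := h.ca
    have cb := h.cb
    have A0 := h.A0
    have k1 : 0 ≤ A / (1 + Ca) := div_nonneg A0 (by linarith)
    have k2 : A / (1 + Ca) ≤ 11 / 20 * A := by
      rw [div_le_iff₀ (by linarith)]
      nlinarith
    have k3 : 0 ≤ -B / (1 + Cb) := div_nonneg (by linarith) (by linarith)
    have k4 : -B / (1 + Cb) ≤ 11 / 20 * -B := by
      rw [div_le_iff₀ (by linarith)]
      nlinarith
    rw [neg_div] at k3 k4
    constructor <;> linarith

theorem Ang.tA (h : Ang a b q p A B Ca Cb) : 0 ≤ A / (1 + Ca) ∧ A / (1 + Ca) ≤ 41 / 200 := by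
  have ca := h.ca
  have A0 := h.A0
  have A1 := h.A1
  refine ⟨div_nonneg A0 (by linarith), ?_⟩
  rw [div_le_iff₀ (by linarith)]
  linarith

theorem Ang.tB (h : Ang a b q p A B Ca Cb) :
    -(41 / 200) ≤ B / (1 + Cb) ∧ B / (1 + Cb) ≤ 33 / 200 := by
  have cb := h.cb
  have B0 := h.B0
  have B1 := h.B1
  have A1 := h.A1
  constructor
  · rw [le_div_iff₀ (by linarith)]
    linarith
  · rw [div_le_iff₀ (by linarith)]
    linarith

theorem Ang.absB (h : Ang a b q p A B Ca Cb) : |B| ≤ 393 / 1000 := by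
  have := h.B0
  have := h.B1
  have := h.A1
  rw [abs_le]
  constructor <;> linarith

/-- The difference of the values on the unit circle. -/
theorem Ang.S1 (h : Ang a b q p A B Ca Cb) (hx : 0 < x) (hD : 0 ≤ A - B) :
    0 ≤ Fu x B Cb - Fu x A Ca ∧ Fu x B Cb - Fu x A Ca ≤ 229 / 100 * (A - B) := by
  have A0 := h.A0
  have B0 := h.B0
  have hBA : |B| ≤ |A| := by
    rw [abs_of_nonneg A0, abs_le]
    constructor <;> linarith
  obtain ⟨d1, d2⟩ := rr_dif hx hBA
  obtain ⟨t1, t2⟩ := h.tan hD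
  obtain ⟨a1, a2⟩ := h.tA
  have r0 := (rr_bd hx B).1
  have r1 := rr_le hx B
  have aB := h.absB
  have d3 : |A| - |B| ≤ A - B := by
    rw [abs_of_nonneg A0]
    have := neg_abs_le B
    have := le_abs_self B
    linarith
  exact Qbd d1 (by linarith) (by linarith) r1 t1 t2 a1 a2 hD

/-- The second moment. -/
theorem Ang.N (h : Ang a b q p A B Ca Cb) (hx : 0 < x) :
    (a - 1) * Fu x B Cb + (b - 1) * Fu x (-A) Ca =
      -((1 / 2 - 3 / 4 * (B / (1 + Cb))) * (1 / 2 + 3 / 4 * (A / (1 + Ca))) *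
        (A * rr x B - B * rr x A)) := by
  have ca := h.ca
  have cb := h.cb
  rw [Fu_neg]
  unfold Fu
  have ra := rel_lat (C := Ca) (D := A) (t := A / (1 + Ca)) (Z := a - 1) (r := 1) h.ea
    (by linarith) (div_mul_cancel₀ _ (by linarith)) (by rw [h.ha]; ring)
  have rb := rel_lat (C := Cb) (D := -B) (t := -B / (1 + Cb)) (Z := b - 1) (r := 1)
    (by linear_combination h.eb) (by linarith) (div_mul_cancel₀ _ (by linarith))
    (by rw [h.hb]; ring)
  rw [neg_div] at rb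
  linear_combination (rr x B * (1 / 2 - 3 / 4 * (B / (1 + Cb)))) * ra +
    (rr x A * (1 / 2 + 3 / 4 * (A / (1 + Ca)))) * rb

theorem Ang.Nbd (h : Ang a b q p A B Ca Cb) (hx : 0 < x) (hD : 0 ≤ A - B) :
    (a - 1) * Fu x B Cb + (b - 1) * Fu x (-A) Ca ≤ 0 ∧
      -(41 / 50 * (A - B)) ≤ (a - 1) * Fu x B Cb + (b - 1) * Fu x (-A) Ca := by
  have A0 := h.A0
  have A1 := h.A1
  have B0 := h.B0
  have B1 := h.B1
  have hBA : |B| ≤ |A| := by
    rw [abs_of_nonneg A0, abs_le]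
    constructor <;> linarith
  obtain ⟨d1, d2⟩ := rr_dif hx hBA
  obtain ⟨a1, a2⟩ := h.tA
  obtain ⟨b1, b2⟩ := h.tB
  have rA0 := (rr_bd hx A).1
  have rA1 := rr_le hx A
  have rB1 := rr_le hx B
  have aB := h.absB
  rw [abs_of_nonneg A0] at d2 rA0
  rw [h.N hx]
  obtain ⟨u, hu⟩ : ∃ u, u = 1 / 2 - 3 / 4 * (B / (1 + Cb)) := ⟨_, rfl⟩
  obtain ⟨v, hv⟩ : ∃ v, v = 1 / 2 + 3 / 4 * (A / (1 + Ca)) := ⟨_, rfl⟩
  obtain ⟨m, hm⟩ : ∃ m, m = A * rr x B - B * rr x A := ⟨_, rfl⟩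
  rw [← hu, ← hv, ← hm]
  have v0 : 0 ≤ v := by linarith
  have v1 : v ≤ 131 / 200 := by linarith
  have u0 : 0 ≤ u := by linarith
  have hm2 : m = (A - B) * rr x B + B * (rr x B - rr x A) := by
    rw [hm]
    ring
  have hm3 : m = (A - B) * rr x A + A * (rr x B - rr x A) := by
    rw [hm]
    ring
  have m0 : 0 ≤ m := by
    rw [hm3]
    have := mul_nonneg hD (by linarith : 0 ≤ rr x A)
    have := mul_nonneg A0 d1
    linarith
  have huv : 0 ≤ u * v := mul_nonneg u0 v0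
  refine ⟨by have := mul_nonneg huv m0; linarith, ?_⟩
  rcases le_total 0 B with hB | hB
  · have u1 : u ≤ 1 / 2 := by
      have : 0 ≤ B / (1 + Cb) := div_nonneg hB (by linarith [h.cb])
      linarith
    rw [abs_of_nonneg hB] at d2
    have m1 : m ≤ 11 / 5 * (A - B) := by
      rw [hm2]
      have k1 := mul_le_mul_of_nonneg_left rB1 hD
      have k2 : B * (rr x B - rr x A) ≤ 8 / 25 * (187 / 50 * (A - B)) :=
        mul_le_mul B1 d2 d1 (by norm_num)
      linarith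
    have k3 : u * v ≤ 1 / 2 * (131 / 200) := mul_le_mul u1 v1 v0 (by norm_num)
    have k4 : u * v * m ≤ 1 / 2 * (131 / 200) * (11 / 5 * (A - B)) :=
      mul_le_mul k3 m1 m0 (by norm_num)
    linarith
  · have m1 : m ≤ A - B := by
      rw [hm]
      have k1 := mul_le_mul_of_nonneg_left rB1 A0
      have k2 := mul_le_mul_of_nonneg_left rA1 (neg_nonneg.2 hB)
      linarith
    have u1 : u ≤ 131 / 200 := by linarith
    have k3 : u * v ≤ 131 / 200 * (131 / 200) := mul_le_mul u1 v1 v0 (by norm_num)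
    have k4 : u * v * m ≤ 131 / 200 * (131 / 200) * (A - B) :=
      mul_le_mul k3 m1 m0 (by norm_num)
    linarith

end

/-! ### The top side -/

/-- The half angles next to the top. -/
theorem tan_top {A τ Ca C : ℝ} (ha : Ca ^ 2 + 3 / 4 * A ^ 2 = 1) (e : C ^ 2 + 3 / 4 * τ ^ 2 = 1)
    (A0 : 0 ≤ A) (h : A ≤ τ) (t1 : τ ≤ 283 / 500) (c0 : 109 / 125 ≤ C) (ca : 0 ≤ Ca) :
    A / (1 + Ca) ≤ τ / (1 + C) ∧
    τ / (1 + C) - A / (1 + Ca) ≤ (1 / 2 + 1 / 5 * τ) * (τ - A) := by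
  have k0 : 0 ≤ τ - A := by linarith
  have e1 : (Ca - C) * (Ca + C) = 3 / 4 * ((τ - A) * (τ + A)) := by linear_combination ha - e
  have k1 : 0 ≤ (τ - A) * (τ + A) := mul_nonneg k0 (by linarith)
  have h1 : 0 ≤ Ca - C := by
    refine nonneg_of_mul_nonneg_left (b := Ca + C) ?_ (by linarith)
    rw [e1]
    linarith
  have k2 : (τ - A) * (τ + A) ≤ (τ - A) * (2 * τ) := mul_le_mul_of_nonneg_left (by linarith) k0
  have h2 : (Ca - C) * (218 / 125) ≤ 3 / 2 * (τ * (τ - A)) := by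
    have : (Ca - C) * (218 / 125) ≤ (Ca - C) * (Ca + C) :=
      mul_le_mul_of_nonneg_left (by linarith) h1
    linarith
  have e2 : τ / (1 + C) - A / (1 + Ca) =
      ((τ - A) * (1 + C) + τ * (Ca - C)) / ((1 + C) * (1 + Ca)) := by
    field_simp
    ring
  have p1 : 0 < (1 + C) * (1 + Ca) := mul_pos (by linarith) (by linarith)
  constructor
  · have : 0 ≤ τ / (1 + C) - A / (1 + Ca) := by
      rw [e2]
      refine div_nonneg ?_ p1.le
      have := mul_nonneg k0 (by linarith : 0 ≤ 1 + C)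
      have := mul_nonneg (by linarith : 0 ≤ τ) h1
      linarith
    linarith
  · rw [e2, div_le_iff₀ p1]
    -- the two parts
    have g1 : (1 - C) * (1 + C) = 3 / 4 * τ ^ 2 := by linear_combination -e
    have g2 : 1 - 3 / 8 * τ ^ 2 / (1 + C) ≤ (1 + Ca) / 2 := by
      have : (1 - C) / 2 = 3 / 8 * τ ^ 2 / (1 + C) := by
        rw [eq_div_iff (by linarith)]
        linear_combination (1 / 2) * g1
      rw [← this]
      linarith
    have g3 : (1 + C) - 3 / 8 * τ ^ 2 ≤ 1 / 2 * ((1 + C) * (1 + Ca)) := by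
      have k3 := mul_le_mul_of_nonneg_left g2 (by linarith : 0 ≤ 1 + C)
      have : (1 + C) * (1 - 3 / 8 * τ ^ 2 / (1 + C)) = (1 + C) - 3 / 8 * τ ^ 2 := by
        have : 1 + C ≠ 0 := by linarith
        field_simp
      linarith
    have g4 : 35 / 10 ≤ (1 + C) * (1 + Ca) := by nlinarith
    have g5 : τ * (Ca - C) ≤ τ * (861 / 1000 * (τ * (τ - A))) :=
      mul_le_mul_of_nonneg_left (by linarith [mul_nonneg (by linarith : 0 ≤ τ) k0]) (by linarith)
    have g6 : (861 / 1000 + 3 / 8) * τ ^ 2 ≤ 1 / 5 * τ * ((1 + C) * (1 + Ca)) := by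
      have t0 : 0 ≤ τ := by linarith
      have : 1 / 5 * τ * (35 / 10) ≤ 1 / 5 * τ * ((1 + C) * (1 + Ca)) :=
        mul_le_mul_of_nonneg_left g4 (by linarith)
      nlinarith
    have g7 : (1 + C) + 861 / 1000 * τ ^ 2 ≤ (1 / 2 + 1 / 5 * τ) * ((1 + C) * (1 + Ca)) := by
      linarith
    have g8 := mul_le_mul_of_nonneg_right g7 k0
    linarith

/-- **The third residue.** -/
theorem del_bd {x A D S Ca C τ ψ k : ℝ} (h : Top x C τ) (ha : Ca ^ 2 + 3 / 4 * A ^ 2 = 1)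
    (ca : 47 / 50 ≤ Ca) (A0 : 0 ≤ A) (hA : A ≤ τ) (hτ : 0 < τ) (p0 : 0 ≤ ψ)
    (hψ1 : 1 / 2 * D ≤ A - ψ) (hψ2 : A - ψ ≤ 121 / 200 * D) (D0 : 0 ≤ D) (S0 : 0 ≤ S)
    (S1 : S ≤ 229 / 100 * D) (k1 : ψ * Ph x C τ ≤ τ * k)
    (k2 : k ≤ Ph x C τ - 3 / 4 * (τ - ψ) + 133 / 50 * (τ * (τ - ψ))) :
    |S + k - rr x A * (3 / 2 * (A / (1 + Ca)))| ≤
      48 / 25 * D + 297 / 100 * (τ ^ 2 - ψ ^ 2) := by
  have hx := h.x0
  have t1 := h.t1
  have c0 := h.C0
  obtain ⟨q1, q2⟩ := tan_top ha h.e A0 hA t1 c0 (by linarith)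
  have hψA : ψ ≤ A := by linarith
  have M0 : τ * (τ - ψ) ≤ τ ^ 2 - ψ ^ 2 := by
    have := mul_nonneg p0 (by linarith : 0 ≤ τ - ψ)
    nlinarith
  have M1 : 0 ≤ τ * (τ - ψ) := mul_nonneg hτ.le (by linarith)
  have M2 : τ * (τ - A) ≤ τ * (τ - ψ) := mul_le_mul_of_nonneg_left (by linarith) hτ.le
  have hE := h.Ebd.1
  rw [Ph_eq h.t0] at k1 k2 hE
  have hrA : |A| ≤ |τ| := by rw [abs_of_nonneg A0, abs_of_nonneg h.t0]; exact hA
  obtain ⟨d1, d2⟩ := rr_dif hx hrA
  have rA1 := rr_le hx A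
  have rTb := (rr_bd hx τ).1
  rw [abs_of_nonneg A0, abs_of_nonneg h.t0] at d2
  rw [abs_of_nonneg h.t0] at rTb
  have rT0 : 0 ≤ rr x τ := by linarith
  obtain ⟨tA, htA⟩ : ∃ t, t = A / (1 + Ca) := ⟨_, rfl⟩
  obtain ⟨tT, htT⟩ : ∃ t, t = τ / (1 + C) := ⟨_, rfl⟩
  rw [← htA] at q1 q2 ⊢
  rw [← htT] at q1 q2 k1 k2 hE
  have etA : tA * (1 + Ca) = A := by rw [htA, div_mul_cancel₀ _ (by linarith)]
  have etT : tT * (1 + C) = τ := by rw [htT, div_mul_cancel₀ _ (by linarith)]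
  have tA0 : 0 ≤ tA := by rw [htA]; exact div_nonneg A0 (by linarith)
  have tT0 : 0 ≤ tT := by rw [htT]; exact div_nonneg hτ.le (by linarith)
  set rA := rr x A
  set rT := rr x τ
  rw [abs_le]
  constructor
  · -- from below
    have g1 : rT * tT ≤ 1 / 2 * τ := by linarith
    have g2 : rA * tA * τ ≤ A * (rT * tT) + 194 / 100 * (A * (τ * (τ - A))) := by
      -- `rA tA / A - rT tT / τ` in the form of products
      have e1 : rA * tA * τ - A * (rT * tT) = tA * tT * (rA * (1 + C) - rT * (1 + Ca)) := by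
        rw [← etA, ← etT]
        ring
      have hCC : C ≤ Ca := by
        by_contra hc
        push Not at hc
        have u1 : Ca ^ 2 < C ^ 2 := pow_lt_pow_left₀ hc (by linarith) (by norm_num)
        have u2 : A ^ 2 ≤ τ ^ 2 := pow_le_pow_left₀ A0 hA 2
        have := h.e
        linarith
      have g3 : rA * (1 + C) - rT * (1 + Ca) ≤ (rA - rT) * (1 + C) := by
        have := mul_nonneg rT0 (sub_nonneg.2 hCC)
        linarith
      have g4 : (rA - rT) * (1 + C) ≤ 187 / 50 * (τ - A) * (1 + C) :=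
        mul_le_mul_of_nonneg_right d2 (by linarith)
      have g5 : tA * tT * (187 / 50 * (τ - A) * (1 + C)) = 187 / 50 * (tA * (τ * (τ - A))) := by
        rw [← etT]
        ring
      have g6 : tA * (τ * (τ - A)) ≤ 50 / 97 * A * (τ * (τ - A)) := by
        refine mul_le_mul_of_nonneg_right ?_ (mul_nonneg hτ.le (by linarith))
        have := mul_nonneg tA0 (by linarith : 0 ≤ Ca - 47 / 50)
        linarith
      have g7 := mul_le_mul_of_nonneg_left (g3.trans g4) (mul_nonneg tA0 tT0)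
      have g8 : 0 ≤ A * (τ * (τ - A)) := mul_nonneg A0 (mul_nonneg hτ.le (by linarith))
      linarith
    -- multiply by `τ`
    have g3 : -(48 / 25 * D + 297 / 100 * (τ ^ 2 - ψ ^ 2)) * τ ≤
        (S + k - rA * (3 / 2 * tA)) * τ := by
      have u1 : 0 ≤ S * τ := mul_nonneg S0 hτ.le
      have u2 : (A - ψ) * (rT * tT) ≤ (A - ψ) * (1 / 2 * τ) :=
        mul_le_mul_of_nonneg_left g1 (by linarith)
      have u3 : (A - ψ) * τ ≤ 121 / 200 * D * τ := mul_le_mul_of_nonneg_right hψ2 hτ.le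
      have u4 : A * (τ * (τ - A)) ≤ τ * (τ ^ 2 - ψ ^ 2) := by
        have v1 : A * (τ - A) ≤ τ * (τ - A) := mul_le_mul_of_nonneg_right hA (by linarith)
        have v2 := mul_le_mul_of_nonneg_left (v1.trans (M2.trans M0)) hτ.le
        linarith
      have u5 : 0 ≤ D * τ := mul_nonneg D0 hτ.le
      have u6 : 0 ≤ τ * (τ ^ 2 - ψ ^ 2) := mul_nonneg hτ.le (by linarith)
      linarith
    exact le_of_mul_le_mul_right g3 hτ
  · -- from above
    have g1 : rT * tT - rA * tA ≤ (1 / 2 + 1 / 5 * τ) * (τ - A) := by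
      have u1 : rT * tT ≤ rA * tT := mul_le_mul_of_nonneg_right (by linarith) tT0
      have u2 : rA * (tT - tA) ≤ 1 * (tT - tA) := mul_le_mul_of_nonneg_right rA1 (by linarith)
      linarith
    linarith

end Pool.Agent.Strip051.LC.E0
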