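import Pool.Agent.Strip051.LC.E0.VwD

/-! # Small rests: the vertical window, values and levels -/

namespace Pool.Agent.Strip051.LC.E0

open Pool.Agent.StripNear Pool.Agent.StripSquare Pool.Agent.Strip051 Pool.Agent.Strip051.Sweep
open Pool.Agent.Strip051.LC.Line
open Pool.Agent.Strip051.LC.Exact (kE)
open G

/-- The level on the unit circle next to `60` degrees. -/
noncomputable def lv (x v : ℝ) : ℝ := if 0 ≤ v then xa v x - xb (v / 2) else xb (-(v / 2))

section

variable {x z : ℝ}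

theorem lv_nonpos {v : ℝ} (h : v ≤ 0) : lv x v = xb (-(v / 2)) := by
  unfold lv
  split_ifs with h1
  · have : v = 0 := le_antisymm h h1
    rw [this]
    simp [xa_zero, xb_zero]
  · rfl

theorem Rg.c1_lt (h : Rg x z) : h0 * (1 + x * z) < 1 := h.T_lt

/-- **The values at the unit circle.** -/
theorem Rg.val1 (h : Rg x z) : Val x (cc1 z x) (h0 * (1 + x * z)) (Fu x (x * sg1 z x) (Co z x))
    (lv x (sg1 z x)) 0 := by
  have hx := h.x0
  have e1 : cc1 z x = 1 / 2 + x * xi1 z x := cc1_eq h.y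
  have er : ∀ u : ℝ, |u| = x * |sg1 z x| → |u| / x = |sg1 z x| := by
    intro u hu
    rw [hu]
    field_simp
  have ex : |x * sg1 z x| / x = |sg1 z x| := er _ (by rw [abs_mul, abs_of_pos hx])
  rcases le_total 0 z with hz | hz
  · have k := (h.dat0_up hz).val
    have s0 := h.sg1_nonneg hz
    have e2 : 1 / 2 + x * k1p z x = Fu x (x * sg1 z x) (Co z x) := by
      rw [h.k1p_eq]
      unfold Fu rr
      rw [ex, abs_of_nonneg s0]
    have e3 : x1p z x = lv x (sg1 z x) := by
      unfold lv x1p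
      rw [if_pos s0]
    rw [← e1, e2, e3] at k
    exact k
  · have k := (h.dat0_dn hz).val
    have s0 := h.sg1_nonpos hz
    have e2 : 1 / 2 + x * k1m z x = Fu x (x * sg1 z x) (Co z x) := by
      rw [h.k1m_eq]
      unfold Fu rr
      rw [ex, abs_of_nonpos s0]
    have e3 : x1m z x = lv x (sg1 z x) := by
      rw [lv_nonpos s0]
      rfl
    rw [← e1, e2, e3] at k
    exact k

theorem xa_rg (hx : 0 < x) (hs : h0 * x ≤ 11 / 400) {v : ℝ} (hv : 0 ≤ v) :
    0 ≤ xa v x ∧ xa v x ≤ 1 := by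
  refine ⟨(xa_lin hx hs hv).1, ?_⟩
  obtain ⟨a, b⟩ := ch_bd hx hs
  obtain ⟨c, d⟩ := mm_bd hx hs
  rcases le_total v 1 with h1 | h1
  · have := (xa_lin hx hs hv).2
    linarith
  rcases le_total v (3 / 2) with h2 | h2
  · have := (xa_lin hx hs hv).2
    linarith
  rcases le_total v (5 / 2) with h3 | h3
  · rw [xa_p3 h2 h3]
    have := mul_nonneg (by linarith : 0 ≤ 957 / 1000 - (ch x + mm x / 2)) (sub_nonneg.2 h3)
    linarith
  rcases le_total v 4 with h4 | h4
  · rw [xa_p4 h3 h4]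
    linarith
  · rw [xa_p5 h4]
    norm_num

theorem xb_rg {v : ℝ} (hv : 0 ≤ v) : 0 ≤ xb v ∧ xb v ≤ 3 / 5 := by
  refine ⟨(xb_lin hv).1, ?_⟩
  rcases le_total v 1 with h1 | h1
  · have := (xb_lin hv).2
    linarith
  rcases le_total v (5 / 2) with h2 | h2
  · rw [xb_p2 h1 h2]
    linarith
  · rw [xb_p3 h2]
    norm_num

theorem lv_rg (hx : 0 < x) (hs : h0 * x ≤ 11 / 400) (v : ℝ) : |lv x v| ≤ 1 := by
  rcases le_total 0 v with hb | hb
  · have e : lv x v = xa v x - xb (v / 2) := by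
      unfold lv
      rw [if_pos hb]
    obtain ⟨p0, p1⟩ := xa_rg hx hs hb
    obtain ⟨q0, q1⟩ := xb_rg (v := v / 2) (by linarith)
    rw [e, abs_le]
    constructor <;> linarith
  · obtain ⟨q0, q1⟩ := xb_rg (v := -(v / 2)) (by linarith)
    rw [lv_nonpos hb, abs_le]
    constructor <;> linarith

/-- The difference of the levels. -/
theorem lv_dif (hx : 0 < x) (hs : h0 * x ≤ 11 / 400) {va vb : ℝ} (va0 : 0 ≤ va) (h : -va ≤ vb) :
    |lv x vb - xb (va / 2) + vf x va| ≤ 103 / 100 * |va - vb| := by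
  unfold vf
  rcases le_total 0 vb with hb | hb
  · have e : lv x vb = xa vb x - xb (vb / 2) := by
      unfold lv
      rw [if_pos hb]
    have k1 := (xa_sl hx hs).abs (L := 16 / 25) (by norm_num) (by norm_num) va0 hb
    have k2 := xb_sl.abs (L := 39 / 50) (by norm_num) (by norm_num) (u := va / 2) (v := vb / 2)
      (by linarith) (by linarith)
    rw [show vb / 2 - va / 2 = (vb - va) / 2 by ring, abs_div,
      abs_of_pos (by norm_num : (0 : ℝ) < 2)] at k2
    rw [e, show xa vb x - xb (vb / 2) - xb (va / 2) + (2 * xb (va / 2) - xa va x) =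
      (xa vb x - xa va x) - (xb (vb / 2) - xb (va / 2)) by ring, abs_sub_comm va vb]
    refine (abs_sub _ _).trans ?_
    linarith
  · rw [lv_nonpos hb, show xb (-(vb / 2)) - xb (va / 2) + (2 * xb (va / 2) - xa va x) =
      xb (-(vb / 2)) + xb (va / 2) - xa va x by ring, abs_of_nonneg (by linarith : 0 ≤ va - vb)]
    obtain ⟨p0, p1⟩ := xb_lin (v := -(vb / 2)) (by linarith)
    obtain ⟨q0, q1⟩ := xb_lin (v := va / 2) (by linarith)
    obtain ⟨r0, r1⟩ := xa_lin hx hs va0
    rw [abs_le]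
    constructor <;> linarith

/-- The main part of the level at the near vertex. -/
theorem lv_main {va vb a b : ℝ} (hx : 0 < x) (hs : h0 * x ≤ 11 / 400) (va0 : 0 ≤ va)
    (a0 : 0 ≤ a) (ab : a ≤ b) :
    -(39 / 100 * (a * |va - vb|)) ≤ a * lv x vb + b * xb (va / 2) := by
  obtain ⟨q0, q1⟩ := xb_lin (v := va / 2) (by linarith)
  have k3 := mul_nonneg (sub_nonneg.2 ab) q0
  rcases le_total 0 vb with hb | hb
  · have e : lv x vb = xa vb x - xb (vb / 2) := by
      unfold lv
      rw [if_pos hb]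
    have k2 := xb_sl.abs (L := 39 / 50) (by norm_num) (by norm_num) (u := vb / 2) (v := va / 2)
      (by linarith) (by linarith)
    rw [show va / 2 - vb / 2 = (va - vb) / 2 by ring, abs_div,
      abs_of_pos (by norm_num : (0 : ℝ) < 2)] at k2
    have k4 := mul_le_mul_of_nonneg_left (abs_le.1 k2).1 a0
    have k5 := mul_nonneg a0 (xa_lin hx hs hb).1
    rw [e]
    linarith
  · rw [lv_nonpos hb]
    obtain ⟨p0, p1⟩ := xb_lin (v := -(vb / 2)) (by linarith)
    have k4 := mul_nonneg a0 p0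
    have k5 := mul_nonneg (a0.trans ab) q0
    have k6 := mul_nonneg a0 (abs_nonneg (va - vb))
    linarith

end

/-- **The statement from its cost.** -/
theorem v_fin (V : Vx) {x b a X12 X13 k12 k23 k13 c12 c23 c13 r12 CA : ℝ} (hx : 0 < x)
    (hs : h0 * x ≤ 11 / 400) (d12 : Val x X12 (h0 * b) k12 c12 r12)
    (d23 : Val x (X13 - X12) (h0 * a) k23 c23 0)
    (d13 : Val x X13 (h0 * b + h0 * a) k13 c13 0)
    (hK : ∀ y, 0 ≤ CA + kf (kE (h0 * x)) (h0 * x) (k12, k23, k13) (h0 * b) (h0 * a) y)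
    (hF : CA + x ^ 2 * (|c12 + c23 - c13| / 2) ≤ exn X12 X13 (h0 * b) (h0 * a))
    (hN : (1 + x * lb x) * CA + x ^ 2 * (ch x * G.mu x * |r12|) + x ^ 2 * (G.mu x / 2 *
      (|3 + x - a - b| * |c12 + c23 - c13| - (a * c12 - b * c23))) ≤
        exn X12 X13 (h0 * b) (h0 * a)) :
    OKV V (h0 * x) X12 X13 (h0 * b) (h0 * a) := by
  have hh := h0_pos
  have hx1 := x_le hx hs
  cases V
  · intro y
    unfold Cur.valK
    rw [d12.ka, d23.ka, d13.ka, d12.kc, d23.kc, d13.kc]
    have h1 : |farXV (x ^ 2 * c12, x ^ 2 * c23, x ^ 2 * c13)| =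
        x ^ 2 * (|c12 + c23 - c13| / 2) := by
      unfold farXV
      simp only
      rw [show 1 / 2 * (x ^ 2 * c12 + x ^ 2 * c23 - x ^ 2 * c13) =
        x ^ 2 / 2 * (c12 + c23 - c13) by ring, abs_mul, abs_of_nonneg (by positivity)]
      ring
    have h2 := hK y
    rw [h1]
    linarith
  · intro y
    unfold Cur.valK
    rw [d12.kb, d23.kb, d13.kb, d12.kc, d23.kc, d13.kc]
    have eA : levXV 3 (h0 * x) 0 (h0 * b) (h0 * a)
        (x ^ 2 * c12, x ^ 2 * c23, x ^ 2 * c13) = x ^ 2 * (G.mu x / 2 *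
          ((3 + x - a - b) * (c12 + c23 - c13) + (a * c12 - b * c23))) := by
      unfold levXV
      rw [mu_h0]
      simp only
      push_cast
      field_simp
      ring
    have eB : levXV 3 (h0 * x) 0 (h0 * a) (h0 * b)
        (-(x ^ 2 * c23), -(x ^ 2 * c12), -(x ^ 2 * c13)) = x ^ 2 * (G.mu x / 2 *
          (-((3 + x - a - b) * (c12 + c23 - c13)) + (a * c12 - b * c23))) := by
      unfold levXV
      rw [mu_h0]
      simp only
      push_cast
      field_simp
      ring
    simp only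
    rw [eA, eB]
    have hs0 : 0 < h0 * x := by positivity
    obtain ⟨-, -, m0, -, l0, -, el⟩ := mu_small hx hs
    have hkf := kf_abs (s := h0 * x) hs0.le (by nlinarith) (kE_nonneg (by positivity) hs)
      (r12, 0, 0) (h0 * b) (h0 * a) y
    rw [amp_kE hs0 hs, we_h0 hx.le (by linarith)] at hkf
    simp only [abs_zero, add_zero] at hkf
    have hsplit : kf (kE (h0 * x)) (h0 * x) ((1 + x * lb x) * k12 + x * lb x * r12,
        (1 + x * lb x) * k23 + x * lb x * 0, (1 + x * lb x) * k13 + x * lb x * 0) (h0 * b)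
          (h0 * a) y =
        (1 + x * lb x) * kf (kE (h0 * x)) (h0 * x) (k12, k23, k13) (h0 * b) (h0 * a) y +
        x * lb x * kf (kE (h0 * x)) (h0 * x) (r12, 0, 0) (h0 * b) (h0 * a) y := by
      unfold kf
      ring
    rw [hsplit]
    have m1 := mul_le_mul_of_nonneg_left (abs_le.1 hkf).1 (mul_nonneg hx.le l0)
    have m2 := mul_nonneg (by have := mul_nonneg hx.le l0; linarith : 0 ≤ 1 + x * lb x) (hK y)
    have e3 : x * lb x * (-(x * ep x * |r12|)) = -(x ^ 2 * (ch x * G.mu x * |r12|)) := by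
      rw [← el]
      ring
    rw [e3] at m1
    have hq : 0 ≤ x ^ 2 * (G.mu x / 2) := by positivity
    have u1 : |(3 + x - a - b) * (c12 + c23 - c13)| = |3 + x - a - b| * |c12 + c23 - c13| :=
      abs_mul _ _
    have u2 := mul_le_mul_of_nonneg_left (le_abs_self ((3 + x - a - b) * (c12 + c23 - c13))) hq
    have u3 := mul_le_mul_of_nonneg_left (neg_abs_le ((3 + x - a - b) * (c12 + c23 - c13))) hq
    rw [u1] at u2 u3
    have m3 : (1 + x * lb x) * CA + x ^ 2 * (ch x * G.mu x * |r12|) ≤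
        exn X12 X13 (h0 * b) (h0 * a) +
        min (x ^ 2 * (G.mu x / 2 *
          ((3 + x - a - b) * (c12 + c23 - c13) + (a * c12 - b * c23))))
          (x ^ 2 * (G.mu x / 2 *
          (-((3 + x - a - b) * (c12 + c23 - c13)) + (a * c12 - b * c23)))) := by
      rcases min_choice (x ^ 2 * (G.mu x / 2 *
          ((3 + x - a - b) * (c12 + c23 - c13) + (a * c12 - b * c23))))
          (x ^ 2 * (G.mu x / 2 *
          (-((3 + x - a - b) * (c12 + c23 - c13)) + (a * c12 - b * c23)))) with h5 | h5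
      · rw [h5]
        linarith
      · rw [h5]
        linarith
    linarith

end Pool.Agent.Strip051.LC.E0
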