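import Pool.Agent.Strip051.LC.E0.VwE

/-! # Small rests: the vertical window, the cost of the kernel -/

namespace Pool.Agent.Strip051.LC.E0

open Pool.Agent.StripNear Pool.Agent.StripSquare Pool.Agent.Strip051 Pool.Agent.Strip051.Sweep
open Pool.Agent.Strip051.LC.Line
open Pool.Agent.Strip051.LC.Exact (kE)
open G

/-- The heights of the vertical window. -/
structure VW (x w v : ℝ) : Prop where
  x0 : 0 < x
  s1 : h0 * x ≤ 11 / 400
  vw : v ≤ w
  v0 : -8 ≤ v
  u0 : -8 ≤ w + v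
  u1 : w + v ≤ 0
  hw : x * w ≤ 3 / 25

section

variable {x w v : ℝ}

theorem VW.x1 (h : VW x w v) : x ≤ 4 / 125 := x_le h.x0 h.s1

theorem VW.vn (h : VW x w v) : v ≤ 0 := by
  have := h.vw
  have := h.u1
  linarith

theorem VW.rv (h : VW x w v) : Rg x v := by
  have := h.x0
  have := h.x1
  have := h.v0
  have := h.vn
  refine ⟨h.x0, h.x1, by nlinarith, by nlinarith⟩

theorem VW.rw (h : VW x w v) : Rg x w := by
  have := h.x0
  have := h.x1
  have := h.v0
  have := h.vw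
  refine ⟨h.x0, h.x1, by nlinarith, h.hw⟩

theorem VW.xu (h : VW x w v) : -(32 / 125) ≤ x * (w + v) ∧ x * (w + v) ≤ 0 := by
  have := h.x0
  have := h.x1
  have := h.u0
  have := h.u1
  constructor <;> nlinarith

/-- The angles of the two unit sides. -/
theorem VW.ang (h : VW x w v) : Ang (1 + x * v) (1 + x * w) (cc1 v x) (cc1 w x)
    (-(x * sg1 v x)) (x * sg1 w x) (Co v x) (Co w x) := by
  have hx := h.x0
  have rv := h.rv
  have rw' := h.rw
  have e1 := rv.x_sg1
  have e2 := rw'.x_sg1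
  have q2 := cc1_sq rv
  have p2 := cc1_sq rw'
  have q0 : 0 ≤ cc1 v x := Real.sqrt_nonneg _
  have p0 : 0 ≤ cc1 w x := Real.sqrt_nonneg _
  have pq : x * v ≤ x * w := mul_le_mul_of_nonneg_left h.vw hx.le
  have av := rv.a
  have aw := rw'.a
  have hqp : cc1 w x ≤ cc1 v x := by
    refine abs_le_of_sq_le_sq' ?_ q0 |>.2
    nlinarith
  have q1 : cc1 v x ≤ 153 / 200 := by
    by_contra hc
    push Not at hc
    have : (153 / 200 : ℝ) ^ 2 < cc1 v x ^ 2 := pow_lt_pow_left₀ hc (by norm_num) (by norm_num)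
    nlinarith
  have p1 : 6 / 25 ≤ cc1 w x := by
    have := rw'.c1_pos
    rwa [c1_h1] at this
  have A1 : -(x * sg1 v x) ≤ 393 / 1000 := by linarith
  have A0 : 0 ≤ -(x * sg1 v x) := by
    have := mul_nonneg hx.le (neg_nonneg.2 (rv.sg1_nonpos h.vn))
    linarith
  have B0 : -(-(x * sg1 v x)) ≤ x * sg1 w x := by linarith
  have B1 : x * sg1 w x ≤ 8 / 25 := by
    have := h.hw
    linarith
  refine ⟨?_, rw'.Co_sq, ?_, ?_, ?_, ?_, A0, A1, B0, B1, ?_, ?_⟩
  · have := rv.Co_sq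
    rw [neg_sq]
    exact this
  · rw [e1]
    unfold Co
    ring
  · rw [e1]
    unfold Co
    ring
  · rw [e2]
    unfold Co
    ring
  · rw [e2]
    unfold Co
    ring
  · exact co_ge rv.Co_sq rv.Co_nonneg (by linarith) (by linarith)
  · exact co_ge rw'.Co_sq rw'.Co_nonneg (by linarith) (by linarith)

/-- The top side. -/
theorem VW.top (h : VW x w v) : ∃ τ, Top x (1 + x * (w + v) / 2) τ := by
  obtain ⟨a, b⟩ := h.xu
  have c0 : 109 / 125 ≤ 1 + x * (w + v) / 2 := by linarith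
  have c1 : 1 + x * (w + v) / 2 ≤ 1 := by linarith
  have h1 : 0 ≤ 4 / 3 * (1 - (1 + x * (w + v) / 2) ^ 2) := by nlinarith
  refine ⟨Real.sqrt (4 / 3 * (1 - (1 + x * (w + v) / 2) ^ 2)), h.x0, h.s1, c0, c1,
    Real.sqrt_nonneg _, ?_⟩
  rw [Real.sq_sqrt h1]
  ring

theorem VW.jt (h : VW x w v) :
    (jn (h0 * (1 + x * w)) = 1 ∧ tau (h0 * (1 + x * w)) = h0 * (x * w)) ∧
    (jn (h0 * (1 + x * v)) = 1 ∧ tau (h0 * (1 + x * v)) = h0 * (x * v)) ∧
    (jn (h0 * (1 + x * w) + h0 * (1 + x * v)) = 2 ∧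
      tau (h0 * (1 + x * w) + h0 * (1 + x * v)) = h0 * (x * (w + v))) := by
  have hh := h0_pos
  have a := h.rw
  have b := h.rv
  obtain ⟨c, d⟩ := h.xu
  have q1 := jt_mid (T := h0 * (1 + x * w)) (not_lt.1 a.T_half) a.T_3half
  have q2 := jt_mid (T := h0 * (1 + x * v)) (not_lt.1 b.T_half) b.T_3half
  have q3 := jt_top (T := h0 * (1 + x * w) + h0 * (1 + x * v)) (by
    rw [← mul_add]
    nlinarith)
  refine ⟨⟨q1.1, ?_⟩, ⟨q2.1, ?_⟩, q3.1, ?_⟩
  · rw [q1.2]; ring
  · rw [q2.2]; ring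
  · rw [q3.2]; ring

/-- The kernel for a closed triangle. -/
theorem VW.ngv (h : VW x w v) (hv : v < 0) {k12 k23 N : ℝ} (eN : N = x * v * k12 - x * w * k23)
    (hN : N ≤ 0) : NGV (kE (h0 * x)) (h0 * x) (331 / 20000 * -N) (h0 * (1 + x * w))
      (h0 * (1 + x * v)) (k12, k23, k12 + k23) := by
  have hh := h0_pos
  have hx := h.x0
  obtain ⟨⟨j1, t1⟩, ⟨j2, t2⟩, ⟨j3, t3⟩⟩ := h.jt
  obtain ⟨c, d⟩ := h.xu
  have av := h.rv.a
  have xv : x * v < 0 := mul_neg_of_pos_of_neg hx hv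
  rcases le_total 0 w with hw | hw
  · have xw : 0 ≤ x * w := mul_nonneg hx.le hw
    refine .pnn (by rw [j1, j2, j3]) ?_ ?_ ?_ ?_
    · rw [t1]
      exact mul_nonneg hh.le xw
    · rw [t2]
      exact mul_nonpos_of_nonneg_of_nonpos hh.le xv.le
    · rw [t3]
      exact mul_nonpos_of_nonneg_of_nonpos hh.le d
    · rw [t1, t3, show -(h0 * (x * (w + v))) = h0 * (x * -(w + v)) by ring]
      have hL : x * -(w + v) + x * w = -(x * v) := by ring
      have e0 : k12 + k23 + -k12 - k23 = 0 := by ring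
      have e1 : x * -(w + v) * -k12 - x * w * (k12 + k23) = N := by
        rw [eN]
        ring
      refine monNeg (by nlinarith) xw (by rw [hL]; linarith) rfl rfl (by rw [e1]; exact hN)
        (costN hx h.s1 (by rw [hL]; linarith) (by rw [hL]; linarith) ?_)
      rw [e0, e1, abs_zero, abs_of_nonpos hN]
      linarith
  · have xw : x * w ≤ 0 := mul_nonpos_of_nonneg_of_nonpos hx.le hw
    refine .nn (by rw [j1, j2, j3]) ?_ ?_ ?_
    · rw [t1]
      exact mul_nonpos_of_nonneg_of_nonpos hh.le xw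
    · rw [t2]
      exact mul_nonpos_of_nonneg_of_nonpos hh.le xv.le
    · rw [t1, t2, show -(h0 * (x * v)) = h0 * (-(x * v)) by ring,
        show -(h0 * (x * w)) = h0 * (-(x * w)) by ring]
      have hL : -(x * v) + -(x * w) = -(x * (w + v)) := by ring
      have e0 : -k23 + -k12 - -(k12 + k23) = 0 := by ring
      have e1 : -(x * v) * -k12 - -(x * w) * -k23 = N := by
        rw [eN]
        ring
      refine monNeg (by linarith) (by linarith) (by linarith) rfl rfl (by rw [e1]; exact hN)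
        (costN hx h.s1 (by rw [hL]; linarith) (by rw [hL]; linarith) ?_)
      rw [e0, e1, abs_zero, abs_of_nonpos hN]
      linarith

/-- The kernel term from below. -/
theorem VW.kcost (h : VW x w v) (hv : v < 0) {k12 k23 k13 N : ℝ}
    (eN : N = x * v * k12 - x * w * k23) (hN : N ≤ 0) (y : ℝ) :
    0 ≤ (331 / 20000 * -N + x * ep x * |k12 + k23 - k13|) +
      kf (kE (h0 * x)) (h0 * x) (k12, k23, k13) (h0 * (1 + x * w)) (h0 * (1 + x * v)) y := by
  have hh := h0_pos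
  have hx := h.x0
  have hx1 := h.x1
  have hs0 : 0 < h0 * x := by positivity
  have hs1 : h0 * x < h0 := by nlinarith
  have k1 := (h.ngv hv eN hN).dir (kE_nonneg hs0 h.s1) hs0.le hs1 h.rw.T0 h.rv.T0 (by
    have := h.xu.2
    nlinarith) y
  have k2 := kf_abs hs0.le hs1 (kE_nonneg hs0 h.s1) (0, 0, k13 - (k12 + k23))
    (h0 * (1 + x * w)) (h0 * (1 + x * v)) y
  rw [amp_kE hs0 h.s1, we_h0 hx.le (by linarith)] at k2
  simp only [abs_zero, zero_add] at k2
  have e : LC.kf (kE (h0 * x)) (h0 * x) (k12, k23, k13) (h0 * (1 + x * w)) (h0 * (1 + x * v)) y =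
      LC.kf (kE (h0 * x)) (h0 * x) (k12, k23, k12 + k23) (h0 * (1 + x * w))
        (h0 * (1 + x * v)) y +
      LC.kf (kE (h0 * x)) (h0 * x) (0, 0, k13 - (k12 + k23)) (h0 * (1 + x * w))
        (h0 * (1 + x * v)) y := by
    unfold LC.kf
    ring
  rw [e, abs_sub_comm]
  have := (abs_le.1 k2).1
  linarith

/-- The kernel term from below, second form. -/
theorem VW.kcost2 (h : VW x w v) (hv : v < 0) {k12 k23 k13 P : ℝ}
    (eP : x * v * (k12 - P) - x * w * k23 = 0) (y : ℝ) :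
    0 ≤ x * ep x * (2 * |P| + |k12 + k23 - k13|) +
      kf (kE (h0 * x)) (h0 * x) (k12, k23, k13) (h0 * (1 + x * w)) (h0 * (1 + x * v)) y := by
  have hh := h0_pos
  have hx := h.x0
  have hx1 := h.x1
  have hs0 : 0 < h0 * x := by positivity
  have hs1 : h0 * x < h0 := by nlinarith
  have k1 := h.kcost hv (k12 := k12 - P) (k23 := k23) (k13 := k12 - P + k23) eP.symm le_rfl y
  rw [neg_zero, mul_zero, sub_self, abs_zero, mul_zero, add_zero, zero_add] at k1
  have k2 := kf_abs hs0.le hs1 (kE_nonneg hs0 h.s1) (P, 0, k13 - (k12 - P + k23))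
    (h0 * (1 + x * w)) (h0 * (1 + x * v)) y
  rw [amp_kE hs0 h.s1, we_h0 hx.le (by linarith)] at k2
  simp only [abs_zero, add_zero] at k2
  have e : LC.kf (kE (h0 * x)) (h0 * x) (k12, k23, k13) (h0 * (1 + x * w)) (h0 * (1 + x * v)) y =
      LC.kf (kE (h0 * x)) (h0 * x) (k12 - P, k23, k12 - P + k23) (h0 * (1 + x * w))
        (h0 * (1 + x * v)) y +
      LC.kf (kE (h0 * x)) (h0 * x) (P, 0, k13 - (k12 - P + k23)) (h0 * (1 + x * w))
        (h0 * (1 + x * v)) y := by
    unfold LC.kf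
    ring
  have hab : |k13 - (k12 - P + k23)| ≤ |P| + |k12 + k23 - k13| := by
    rw [show k13 - (k12 - P + k23) = P - (k12 + k23 - k13) by ring]
    exact abs_sub _ _
  have e0 : 0 ≤ x * ep x := mul_nonneg hx.le (ep_pos hx.le (by linarith)).le
  have k3 := mul_le_mul_of_nonneg_left hab e0
  rw [e]
  have := (abs_le.1 k2).1
  linarith

end

end Pool.Agent.Strip051.LC.E0
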