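import Pool.Agent.Strip051.LC.E0.VwF

/-! # Small rests: the vertical window, two unit sides -/

namespace Pool.Agent.Strip051.LC.E0

open Pool.Agent.StripNear Pool.Agent.StripSquare Pool.Agent.Strip051 Pool.Agent.Strip051.Sweep
open Pool.Agent.Strip051.LC.Line
open Pool.Agent.Strip051.LC.Exact (kE)
open G

/-- The final numbers. -/
theorem vcc_lin {x l m w CA L G D M ex : ℝ} (D0 : 0 ≤ D) (M0 : 0 ≤ M) (e0 : 0 ≤ ex)
    (xl0 : 0 ≤ x * l) (xl : x * l ≤ 3 / 500) (m0 : 0 ≤ m) (m1 : m ≤ 201 / 1000) (w0 : 0 ≤ w)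
    (w1 : w ≤ 13 / 10) (CA0 : 0 ≤ CA) (hCA : CA ≤ 443 / 10000 * D + 4753 / 100000 * M)
    (L0 : 0 ≤ L) (hL : L ≤ 483 / 10000 * D + 7 / 20 * M) (hL2 : L ≤ 1 / 400)
    (hG : -(1 / 80 * D) ≤ G)
    (hc : (D ≤ 443 / 100 * ex ∧ M ≤ 281 / 100 * ex) ∨
      (D ≤ 526 / 100 * ex ∧ M ≤ 351 / 100 * ex ∧ 1 / 100 ≤ ex)) :
    CA + L / 2 ≤ ex ∧ (1 + x * l) * CA + m / 2 * (w * L - G) ≤ ex := by
  have k1 : x * l * CA ≤ 3 / 500 * CA := mul_le_mul_of_nonneg_right xl CA0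
  have k2 : w * L ≤ 13 / 10 * L := mul_le_mul_of_nonneg_right w1 L0
  have k3 : m / 2 * (w * L - G) ≤ 201 / 2000 * (13 / 10 * L + 1 / 80 * D) := by
    have u1 : w * L - G ≤ 13 / 10 * L + 1 / 80 * D := by linarith
    have u2 : 0 ≤ 13 / 10 * L + 1 / 80 * D := by linarith
    have u3 := mul_le_mul_of_nonneg_left u1 (by linarith : 0 ≤ m / 2)
    have u4 := mul_le_mul_of_nonneg_right (by linarith : m / 2 ≤ 201 / 2000) u2
    linarith
  rcases hc with ⟨a1, a2⟩ | ⟨a1, a2, a3⟩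
  · constructor <;> linarith
  · constructor <;> linarith

section

variable {x w v : ℝ}

theorem VW.ab (h : VW x w v) : 0 ≤ 1 + x * v ∧ 1 + x * v ≤ 1 + x * w ∧ 1 + x * v ≤ 1 ∧
    0 ≤ 3 + x - (1 + x * v) - (1 + x * w) ∧ 3 + x - (1 + x * v) - (1 + x * w) ≤ 13 / 10 := by
  have hx := h.x0
  have hx1 := h.x1
  have a := h.rv.a
  have b := mul_le_mul_of_nonneg_left h.vw hx.le
  have c := mul_nonpos_of_nonneg_of_nonpos hx.le h.vn
  obtain ⟨d, e⟩ := h.xu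
  have f : x * (w + v) = x * w + x * v := by ring
  refine ⟨by linarith, by linarith, by linarith, by linarith, by linarith⟩

/-- The level of the top side. -/
theorem vf_dif (hx : 0 < x) (hs : h0 * x ≤ 11 / 400) {u v : ℝ} (hu : 0 ≤ u) (huv : u ≤ v) :
    x ^ 2 * |vf x (u / x) - vf x (v / x)| ≤ 79 / 100 * (x * (v - u)) := by
  have k := (vf_sl hx hs).abs (L := 79 / 100) (by norm_num) (by norm_num)
    (div_nonneg (hu.trans huv) hx.le) (div_nonneg hu hx.le)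
  have e : |u / x - v / x| = (v - u) / x := by
    rw [← sub_div, abs_div, abs_of_pos hx, abs_sub_comm, abs_of_nonneg (by linarith)]
  rw [e] at k
  have k2 := mul_le_mul_of_nonneg_left k (sq_nonneg x)
  have e2 : x ^ 2 * (79 / 100 * ((v - u) / x)) = 79 / 100 * (x * (v - u)) := by
    field_simp
  linarith

theorem VW.exn_eq (h0x : 0 < x) (X12 X23 : ℝ) :
    exn X12 (X12 + X23) (h0 * (1 + x * w)) (h0 * (1 + x * v)) =
      (X12 * (1 + x * v) - X23 * (1 + x * w) - 1) / 2 := by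
  have hh := h0_pos
  unfold exn
  field_simp
  ring

/-- **Two unit sides.** -/
theorem VW.vcc (V : Vx) (h : VW x w v) (hv : v < 0) {τ : ℝ} (ht : Top x (1 + x * (w + v) / 2) τ)
    (hq : 2 / 3 * (cc1 v x - cc1 w x) ≤ τ)
    (hex : exn (cc1 w x) (cc1 w x + -cc1 v x) (h0 * (1 + x * w)) (h0 * (1 + x * v)) ≤
      101 / 2000) :
    OKV V (h0 * x) (cc1 w x) (cc1 w x + -cc1 v x) (h0 * (1 + x * w)) (h0 * (1 + x * v)) := by
  have hx := h.x0
  have hx1 := h.x1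
  have g := h.ang
  have hh := h0_pos
  obtain ⟨A, hA⟩ : ∃ A, A = -(x * sg1 v x) := ⟨_, rfl⟩
  obtain ⟨B, hB⟩ : ∃ B, B = x * sg1 w x := ⟨_, rfl⟩
  rw [← hA, ← hB] at g
  obtain ⟨ψ, hψ⟩ : ∃ ψ, ψ = 2 / 3 * (cc1 v x - cc1 w x) := ⟨_, rfl⟩
  have p0 : 0 ≤ ψ := by
    have e1 := cc1_sq h.rv
    have e2 := cc1_sq h.rw
    have q0 : 0 ≤ cc1 v x := Real.sqrt_nonneg _
    obtain ⟨a1, a2, a3, a4, a5⟩ := h.ab
    have : cc1 w x ≤ cc1 v x := by
      refine abs_le_of_sq_le_sq' ?_ q0 |>.2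
      nlinarith
    rw [hψ]
    linarith
  have eexn := VW.exn_eq (w := w) (v := v) hx (cc1 w x) (-cc1 v x)
  obtain ⟨ex, hexd⟩ : ∃ ex, ex = exn (cc1 w x) (cc1 w x + -cc1 v x) (h0 * (1 + x * w))
    (h0 * (1 + x * v)) := ⟨_, rfl⟩
  rw [← hexd] at hex eexn
  obtain ⟨D0, ψ1, ψ2, Aτ, e0, hcase⟩ := g.vcc (C := 1 + x * (w + v) / 2) (τ := τ) (ψ := ψ)
    (ex := ex) (by ring) ht.e ht.t0 hψ p0 (by rw [hψ]; exact hq) (by rw [eexn]; ring) hex
  -- the top side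
  obtain ⟨k, c, hV, k0, k1, k2, lc, c1⟩ := top_val ht p0 (by rw [hψ]; exact hq)
  have A0 : 0 < A := by
    have e1 := h.rv.x_sg1
    have e2 := (h.rv.c1_dn' hv)
    rw [c1_h1] at e2
    have : x * v < 0 := mul_neg_of_pos_of_neg hx hv
    rw [hA, e1]
    linarith
  have τ0 : 0 < τ := by linarith
  obtain ⟨S0, S1⟩ := g.S1 hx D0
  have hΔ := del_bd ht g.ea g.ca A0.le Aτ τ0 p0 ψ1 ψ2 D0 S0 S1 k1 k2
  -- the values
  have d12 := h.rw.val1
  have d23 := h.rv.val1.neg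
  have d13 := hV.neg
  rw [← hB] at d12
  have eA : x * sg1 v x = -A := by rw [hA]; ring
  rw [eA, neg_zero] at d23
  have vaA : -sg1 v x = A / x := by
    rw [hA]
    field_simp
  have vbB : sg1 w x = B / x := by
    rw [hB]
    field_simp
  have va0 : 0 ≤ A / x := div_nonneg A0.le hx.le
  have vab : -(A / x) ≤ B / x := by
    rw [← neg_div]
    exact div_le_div_of_nonneg_right g.B0 hx.le
  have elv : lv x (sg1 v x) = xb (A / x / 2) := by
    rw [lv_nonpos (by linarith), ← vaA]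
    congr 1
    ring
  rw [elv] at d23
  have eT : h0 * (2 * (1 + x * (w + v) / 2)) = h0 * (1 + x * w) + h0 * (1 + x * v) := by ring
  have eX : -(3 / 2 * ψ) = cc1 w x + -cc1 v x := by
    rw [hψ]
    ring
  rw [eX, eT, neg_zero] at d13
  have d23' : Val x (cc1 w x + -cc1 v x - cc1 w x) (h0 * (1 + x * v)) (-Fu x (-A) (Co v x))
      (-xb (A / x / 2)) 0 := by
    rw [show cc1 w x + -cc1 v x - cc1 w x = -cc1 v x by ring]
    exact d23
  -- the residues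
  obtain ⟨N, hN⟩ : ∃ N, N = x * v * Fu x B (Co w x) - x * w * -Fu x (-A) (Co v x) := ⟨_, rfl⟩
  obtain ⟨N0, N1⟩ := g.Nbd hx D0
  have eN : (1 + x * v - 1) * Fu x B (Co w x) + (1 + x * w - 1) * Fu x (-A) (Co v x) = N := by
    rw [hN]
    ring
  rw [eN] at N0 N1
  obtain ⟨Δ, hΔe⟩ : ∃ Δ, Δ = Fu x B (Co w x) + -Fu x (-A) (Co v x) - -k := ⟨_, rfl⟩
  have eΔ : Fu x B (Co w x) - Fu x A (Co v x) + k - rr x A * (3 / 2 * (A / (1 + Co v x))) = Δ := by
    rw [hΔe, Fu_neg]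
    unfold Fu
    ring
  rw [eΔ] at hΔ
  have hK := fun y => h.kcost (k13 := -k) hv hN N0 y
  rw [← hΔe] at hK
  have ep1 : x * ep x ≤ 2 / 125 := by
    have : ep x ≤ 1 / 2 := by
      unfold ep
      have := mul_nonneg hx.le (ic_pos (x := x)).le
      linarith
    have := mul_le_mul hx1 this (ep_pos hx.le (by linarith)).le (by norm_num)
    linarith
  have ep0 : 0 ≤ x * ep x := mul_nonneg hx.le (ep_pos hx.le (by linarith)).le
  obtain ⟨CA, hCA⟩ : ∃ CA, CA = 331 / 20000 * -N + x * ep x * |Δ| := ⟨_, rfl⟩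
  rw [← hCA] at hK
  have M0 : 0 ≤ τ ^ 2 - ψ ^ 2 := sub_nonneg.2 (pow_le_pow_left₀ p0 (by rw [hψ]; exact hq) 2)
  have CA0 : 0 ≤ CA := by
    rw [hCA]
    have := mul_nonneg ep0 (abs_nonneg Δ)
    linarith
  have CA1 : CA ≤ 443 / 10000 * (A - B) + 4753 / 100000 * (τ ^ 2 - ψ ^ 2) := by
    rw [hCA]
    have := mul_le_mul ep1 hΔ (abs_nonneg Δ) (by norm_num)
    linarith
  -- the levels
  obtain ⟨Lv, hLv⟩ : ∃ Lv, Lv = lv x (sg1 w x) + -xb (A / x / 2) - -c := ⟨_, rfl⟩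
  have L0 : 0 ≤ x ^ 2 * |Lv| := by positivity
  have hDx : |A / x - B / x| = (A - B) / x := by
    rw [← sub_div, abs_of_nonneg (div_nonneg D0 hx.le)]
  have L1 : x ^ 2 * |Lv| ≤ 483 / 10000 * (A - B) + 7 / 20 * (τ ^ 2 - ψ ^ 2) := by
    have e : Lv = (lv x (B / x) - xb (A / x / 2) + vf x (A / x)) + (c - vf x (ψ / x)) +
        (vf x (ψ / x) - vf x (A / x)) := by
      rw [hLv, vbB]
      ring
    have t1 := lv_dif hx h.s1 va0 vab
    rw [hDx] at t1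
    have t1' := mul_le_mul_of_nonneg_left t1 (sq_nonneg x)
    have e2 : x ^ 2 * (103 / 100 * ((A - B) / x)) = 103 / 100 * (x * (A - B)) := by
      field_simp
    have t3 := vf_dif hx h.s1 p0 (by linarith : ψ ≤ A)
    have t4 := abs_add_three (lv x (B / x) - xb (A / x / 2) + vf x (A / x)) (c - vf x (ψ / x))
      (vf x (ψ / x) - vf x (A / x))
    rw [← e] at t4
    have t5 := mul_le_mul_of_nonneg_left t4 (sq_nonneg x)
    have t6 : x * (A - ψ) ≤ x * (121 / 200 * (A - B)) := mul_le_mul_of_nonneg_left ψ2 hx.le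
    have t7 : x * (A - B) ≤ 4 / 125 * (A - B) := mul_le_mul_of_nonneg_right hx1 D0
    linarith
  have L2 : x ^ 2 * |Lv| ≤ 1 / 400 := by
    have t1 := lv_rg hx h.s1 (sg1 w x)
    obtain ⟨t2, t3⟩ := xb_rg (v := A / x / 2) (by linarith)
    have t4 : |Lv| ≤ 2 := by
      rw [hLv, abs_le]
      have := abs_le.1 t1
      have := abs_le.1 c1
      constructor <;> linarith [this.1, this.2]
    have t5 : x ^ 2 ≤ 1 / 900 := by nlinarith
    have := mul_le_mul t5 t4 (abs_nonneg _) (by norm_num)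
    linarith
  obtain ⟨a1, a2, a3, a4, a5⟩ := h.ab
  have G1 : -(1 / 80 * (A - B)) ≤
      x ^ 2 * ((1 + x * v) * lv x (sg1 w x) - (1 + x * w) * -xb (A / x / 2)) := by
    have t1 := lv_main hx h.s1 va0 a1 a2 (vb := B / x)
    rw [hDx] at t1
    have t2 : (1 + x * v) * ((A - B) / x) ≤ 1 * ((A - B) / x) :=
      mul_le_mul_of_nonneg_right a3 (div_nonneg D0 hx.le)
    have t3 : -(39 / 100 * ((A - B) / x)) ≤
        (1 + x * v) * lv x (sg1 w x) - (1 + x * w) * -xb (A / x / 2) := by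
      rw [vbB]
      linarith
    have t4 := mul_le_mul_of_nonneg_left t3 (sq_nonneg x)
    have e2 : x ^ 2 * -(39 / 100 * ((A - B) / x)) = -(39 / 100 * (x * (A - B))) := by
      field_simp
    have t7 : x * (A - B) ≤ 4 / 125 * (A - B) := mul_le_mul_of_nonneg_right hx1 D0
    linarith
  obtain ⟨-, -, m0, m1, l0, xl1, -⟩ := mu_small hx h.s1
  obtain ⟨f1, f2⟩ := vcc_lin (x := x) (l := lb x) (m := G.mu x)
    (w := 3 + x - (1 + x * v) - (1 + x * w)) D0 M0 e0 (mul_nonneg hx.le l0) xl1 m0 m1 a4 a5 CA0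
    CA1 L0 L1 L2 G1 hcase
  refine v_fin V hx h.s1 d12 d23' d13 hK ?_ ?_
  · rw [← hLv, ← hexd]
    linarith
  · rw [← hLv, ← hexd, abs_zero, mul_zero, mul_zero, add_zero, abs_of_nonneg a4]
    refine le_trans (le_of_eq ?_) f2
    ring

end

end Pool.Agent.Strip051.LC.E0
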