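import Pool.Agent.Strip051.LC.E0.VwS

/-! # Small rests: the vertical window, a long top side, the geometry -/

namespace Pool.Agent.Strip051.LC.E0

open Pool.Agent.StripNear Pool.Agent.StripSquare Pool.Agent.Strip051 Pool.Agent.Strip051.Sweep
open Pool.Agent.Strip051.LC.Line
open G

section

variable {a b q p A B Ca Cb : ℝ}

/-- The angles in the other order. -/
structure Rev (A B Ca Cb : ℝ) : Prop where
  ea : Ca ^ 2 + 3 / 4 * A ^ 2 = 1
  eb : Cb ^ 2 + 3 / 4 * B ^ 2 = 1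
  A0 : 0 ≤ A
  AB : A ≤ B
  B1 : B ≤ 8 / 25
  ca : 24 / 25 ≤ Ca
  cb : 24 / 25 ≤ Cb
  c0 : 0 ≤ Ca - Cb
  c1 : Ca - Cb ≤ 1 / 4 * (B - A)
  s0 : 24 / 25 * (B - A) ≤ B * Ca - A * Cb
  s1 : B * Ca - A * Cb ≤ 8 / 25

theorem Ang.rev (h : Ang a b q p A B Ca Cb) (hS : A * Cb - B * Ca ≤ 0) : Rev A B Ca Cb := by
  have A0 := h.A0
  have B0 := h.B0
  have B1 := h.B1
  have ca := h.ca
  have cb := h.cb
  have ea := h.ea
  have eb := h.eb
  have eS : (A * Cb - B * Ca) * (Ca + Cb) =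
      (A - B) * (Ca * (Ca + Cb) + 3 / 4 * (A * (A + B))) := by
    linear_combination A * h.dC
  have br : 0 < Ca * (Ca + Cb) + 3 / 4 * (A * (A + B)) := by
    have : 0 ≤ A * (A + B) := mul_nonneg A0 (by linarith)
    have : 0 < Ca * (Ca + Cb) := mul_pos (by linarith) (by linarith)
    linarith
  have hAB : A ≤ B := by
    by_contra hc
    push Not at hc
    have h1 : 0 < (A - B) * (Ca * (Ca + Cb) + 3 / 4 * (A * (A + B))) :=
      mul_pos (by linarith) br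
    rw [← eS] at h1
    have h2 : (A * Cb - B * Ca) * (Ca + Cb) ≤ 0 :=
      mul_nonpos_of_nonpos_of_nonneg hS (by linarith)
    linarith
  have hca : 24 / 25 ≤ Ca := by
    by_contra hc
    push Not at hc
    have h1 : Ca ^ 2 < (24 / 25) ^ 2 := pow_lt_pow_left₀ hc (by linarith) (by norm_num)
    have h2 : A ^ 2 ≤ (8 / 25) ^ 2 := pow_le_pow_left₀ A0 (by linarith) 2
    linarith
  have hcb : 24 / 25 ≤ Cb := by
    by_contra hc
    push Not at hc
    have h1 : Cb ^ 2 < (24 / 25) ^ 2 := pow_lt_pow_left₀ hc (by linarith) (by norm_num)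
    have h2 : B ^ 2 ≤ (8 / 25) ^ 2 := pow_le_pow_left₀ (by linarith) B1 2
    linarith
  have hD : 0 ≤ B - A := by linarith
  have e1 : (Ca - Cb) * (Ca + Cb) = 3 / 4 * ((B - A) * (A + B)) := by
    linear_combination -h.dC
  have k0 : 0 ≤ (B - A) * (A + B) := mul_nonneg hD (by linarith)
  have k1 : (B - A) * (A + B) ≤ (B - A) * (16 / 25) := mul_le_mul_of_nonneg_left (by linarith) hD
  have c0 : 0 ≤ Ca - Cb := by
    refine nonneg_of_mul_nonneg_left (b := Ca + Cb) ?_ (by linarith)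
    rw [e1]
    linarith
  have c1 : Ca - Cb ≤ 1 / 4 * (B - A) := by
    have : (Ca - Cb) * (48 / 25) ≤ (Ca - Cb) * (Ca + Cb) :=
      mul_le_mul_of_nonneg_left (by linarith) c0
    linarith
  refine ⟨ea, eb, A0, hAB, B1, hca, hcb, c0, c1, ?_, ?_⟩
  · have e2 : B * Ca - A * Cb = (B - A) * Ca + A * (Ca - Cb) := by ring
    rw [e2]
    have := mul_le_mul_of_nonneg_left hca hD
    have := mul_nonneg A0 c0
    linarith
  · have h1 : B * Ca ≤ 8 / 25 * 1 := mul_le_mul B1 (cos_le ea) (by linarith) (by norm_num)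
    have h2 : 0 ≤ A * Cb := mul_nonneg A0 (by linarith)
    linarith

/-- The opening for a long top side. -/
theorem rev_num {K S δ σ : ℝ} (e : K ^ 2 + 3 / 4 * S ^ 2 = 1) (K0 : 23 / 25 ≤ K) (K1 : K ≤ 1)
    (S0 : 0 ≤ S) (S1 : S ≤ 8 / 25) (hM : 3 / 2 * S = 3 / 2 * (δ * σ) + (1 - K)) :
    S ≤ 1092 / 1000 * (δ * σ) ∧ (1 - K) / 2 ≤ 626 / 10000 * S := by
  have k1 : (1 - K) * (1 + K) = 3 / 4 * S ^ 2 := by linear_combination -e
  have k2 : (1 - K) * (48 / 25) ≤ (1 - K) * (1 + K) :=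
    mul_le_mul_of_nonneg_left (by linarith) (by linarith)
  have k3 : S ^ 2 ≤ 8 / 25 * S := by nlinarith
  constructor <;> linarith

theorem Rev.K0 (h : Rev A B Ca Cb) : 23 / 25 ≤ Ca * Cb + 3 / 4 * (A * B) := by
  have ca := h.ca
  have cb := h.cb
  have k1 : (24 / 25) * (24 / 25) ≤ Ca * Cb := mul_le_mul ca cb (by norm_num) (by linarith)
  have k2 := mul_nonneg h.A0 (h.A0.trans h.AB)
  linarith

/-- **The geometry of a long top side.** -/
theorem Ang.v3 (h : Ang a b q p A B Ca Cb) {C τ ψ δ ex : ℝ} (hC : C = (a + b) / 2)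
    (e : C ^ 2 + 3 / 4 * τ ^ 2 = 1) (t0 : 0 ≤ τ) (hψ : ψ = 2 / 3 * (q - p)) (p1 : τ < ψ)
    (hδ : δ = 3 / 2 * (ψ - τ)) (hex : ex = ((q - 3 / 2 * τ) * a + q * b - 1) / 2)
    (hx : ex ≤ 101 / 2000) :
    Rev A B Ca Cb ∧ 181 / 1000 * δ ≤ ex ∧ B - A ≤ 73 / 100 * δ ∧ B - A ≤ 14 / 5 * (δ * A) ∧
      τ ≤ A ∧ A - τ ≤ 2 / 3 * δ ∧ δ ≤ 28 / 100 := by
  have hM := h.third hC e hψ
  have hδ0 : 0 < δ := by
    rw [hδ]
    linarith
  obtain ⟨-, K1⟩ := h.K0
  have hψτ : 0 < ψ ^ 2 - τ ^ 2 := by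
    have : 0 < (ψ - τ) * (ψ + τ) := mul_pos (by linarith) (by linarith)
    linarith
  have r := h.rev (by linarith)
  have K0 := r.K0
  have hKS := h.KS
  have s0 := r.s0
  have s1 := r.s1
  have c0 := r.c0
  have c1 := r.c1
  have A0 := r.A0
  have AB := r.AB
  have B1 := r.B1
  obtain ⟨S, hS⟩ : ∃ S, S = B * Ca - A * Cb := ⟨_, rfl⟩
  obtain ⟨K, hK⟩ : ∃ K, K = Ca * Cb + 3 / 4 * (A * B) := ⟨_, rfl⟩
  have hE := h.exc
  have e1 : A * Cb - B * Ca = -S := by rw [hS]; ring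
  rw [e1, ← hK] at hM hKS hE
  rw [← hK] at K0 K1
  rw [← hS] at s0 s1
  obtain ⟨n1, n2⟩ := rev_num (K := K) (S := S) (δ := δ) (σ := ψ + τ) (by linarith) K0 K1
    (by linarith) s1 (by rw [hδ]; linarith)
  have hpsi := h.psi hψ
  -- the top side
  have hτA : τ ≤ A := by
    have e2 : C = Ca + (B - A) / 4 - (Ca - Cb) / 2 := by
      rw [hC, h.ha, h.hb]
      ring
    have hCC : Ca ≤ C := by linarith
    have h1 : Ca ^ 2 ≤ C ^ 2 := pow_le_pow_left₀ (by linarith [r.ca]) hCC 2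
    have h2 := r.ea
    have h3 : τ ^ 2 ≤ A ^ 2 := by linarith
    exact abs_le_of_sq_le_sq' h3 A0 |>.2
  have hσ : ψ + τ ≤ 16 / 25 := by linarith
  have hσ2 : ψ + τ ≤ 2 * A + 7 / 12 * (B - A) := by linarith
  have m1 : δ * (ψ + τ) ≤ δ * (16 / 25) := mul_le_mul_of_nonneg_left hσ hδ0.le
  have m2 : δ * (ψ + τ) ≤ δ * (2 * A + 7 / 12 * (B - A)) :=
    mul_le_mul_of_nonneg_left hσ2 hδ0.le
  -- the excess
  have ha : 4 / 5 ≤ a := by
    have := h.ha
    have := r.ca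
    linarith
  have eex : ex = (K - 1) / 2 - S / 4 + a / 2 * δ := by
    have e3 : ex = (p * a + q * b - 1) / 2 + a / 2 * (q - 3 / 2 * τ - p) := by
      rw [hex]
      ring
    have e4 : q - 3 / 2 * τ - p = δ := by
      rw [hδ, hψ]
      ring
    rw [e3, hE, e4]
    ring
  have m3 : 4 / 5 * δ ≤ a * δ := mul_le_mul_of_nonneg_right ha hδ0.le
  have ex1 : 181 / 1000 * δ ≤ ex := by
    rw [eex]
    linarith
  have δ1 : δ ≤ 28 / 100 := by linarith
  refine ⟨r, ex1, by linarith, ?_, hτA, by linarith, δ1⟩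
  have m4 : δ * (B - A) ≤ 28 / 100 * (B - A) := mul_le_mul_of_nonneg_right δ1 (by linarith)
  linarith

/-- The position on the side. -/
theorem Rev.alpha (r : Rev A B Ca Cb) (h : Ang a b q p A B Ca Cb) {τ ex : ℝ} (hb : 1 ≤ b)
    (hex : ex = ((q - 3 / 2 * τ) * a + q * b - 1) / 2) (hx : ex ≤ 101 / 2000) :
    q - 3 / 2 * τ ≤ 317 / 500 := by
  have ca := r.ca
  have A0 := r.A0
  have A1 := r.AB.trans r.B1
  have ea := r.ea
  have ha := h.ha
  have hq := h.hq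
  have a0 : 0 < a := by linarith
  have q0 : 0 ≤ q := by linarith
  have k1 : (1 - Ca) * (1 + Ca) = 3 / 4 * A ^ 2 := by linear_combination -ea
  have k2 : 1 - Ca ≤ 123 / 1000 * A := by
    have c1 := cos_le ea
    have k3 : (1 - Ca) * (49 / 25) ≤ (1 - Ca) * (1 + Ca) :=
      mul_le_mul_of_nonneg_left (by linarith) (by linarith)
    nlinarith
  have k3 : q * 1 ≤ q * b := mul_le_mul_of_nonneg_left hb q0
  refine le_of_mul_le_mul_right (a := a) ?_ a0
  linarith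

end

end Pool.Agent.Strip051.LC.E0
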