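import Pool.Agent.Strip051.LC.E0.VwH

/-! # Small rests: the vertical window, a long top side -/

namespace Pool.Agent.Strip051.LC.E0

open Pool.Agent.StripNear Pool.Agent.StripSquare Pool.Agent.Strip051 Pool.Agent.Strip051.Sweep
open Pool.Agent.Strip051.LC.Line
open Pool.Agent.Strip051.LC.Exact (kE)
open G

section

variable {x a b q p A B Ca Cb C τ δ : ℝ}

/-- The long side at the top. -/
theorem top_val3 (h : Top x C τ) :
    Val x (3 / 2 * τ) (h0 * (2 * C)) (Ph x C τ) (vf x (τ / x)) 0 := by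
  have hx := h.x0
  have hx1 := h.x1
  have hT0 : 0 ≤ h0 * (2 * C) := by linarith [h.T1]
  have hd : pos.dm 3 (h0 * (2 * C)) := dm_three.2 h.T3
  have e : pos.cv 3 (h0 * (2 * C)) = 3 / 2 * τ := by rw [cv_three, h.c3]
  obtain ⟨-, -, X3⟩ := h.X (v1 := pos.cv 2 (h0 * (2 * C)) / (3 / 2 * x)) (v2 := τ / x)
    (by field_simp) (by field_simp)
  rw [← e]
  refine ⟨?_, ?_, ?_⟩
  · exact (E0.K.val _ (adm_vA par _) 3 _ hT0 hd).trans h.v3
  · exact (E0.K.val _ (adm_vX par _) 3 _ hT0 hd).trans X3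
  · have k := vB_h0 (K := 0) (k := Ph x C τ / x) hx (by linarith : x ≤ 1 / 2)
      (by rw [h.v3]; field_simp; ring) (vR3 (x := x) (h0 * (2 * C)))
    refine (E0.K.val _ (adm_vB par _) 3 _ hT0 hd).trans (k.trans ?_)
    unfold nk
    field_simp
    ring

/-- The values on the unit circle. -/
theorem Rev.S1 (r : Rev A B Ca Cb) (hx : 0 < x) :
    0 ≤ Fu x A Ca - Fu x B Cb ∧ Fu x A Ca - Fu x B Cb ≤ 229 / 100 * (B - A) := by
  have A0 := r.A0
  have AB := r.AB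
  have B1 := r.B1
  have B0 : 0 ≤ B := A0.trans AB
  have hAB : |A| ≤ |B| := by rw [abs_of_nonneg A0, abs_of_nonneg B0]; exact AB
  obtain ⟨d1, d2⟩ := rr_dif hx hAB
  rw [abs_of_nonneg A0, abs_of_nonneg B0] at d2
  obtain ⟨t1, t2⟩ := tan_dif r.eb r.ea A0 AB (by linarith) (by linarith [r.cb]) (by linarith [r.ca])
  have r0 := (rr_bd hx A).1
  rw [abs_of_nonneg A0] at r0
  have tb0 : 0 ≤ B / (1 + Cb) := div_nonneg B0 (by linarith [r.cb])
  have tb1 : B / (1 + Cb) ≤ 41 / 200 := by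
    rw [div_le_iff₀ (by linarith [r.cb])]
    linarith [r.cb]
  exact Qbd d1 d2 (by linarith) (rr_le hx A) t1 t2 tb0 tb1 (by linarith)

/-- The value on the circle of radius `√3`. -/
theorem Rev.Phd (r : Rev A B Ca Cb) (h : Top x C τ) (hτ : τ ≤ A) :
    |rr x A * (3 / 2 * (A / (1 + Ca))) - Ph x C τ| ≤ 935 / 1000 * (A - τ) := by
  have hx := h.x0
  have t0 := h.t0
  have A0 := r.A0
  have A1 := r.AB.trans r.B1
  have ca := r.ca
  have hCC : Ca ≤ C := by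
    by_contra hc
    push Not at hc
    have u1 : C ^ 2 < Ca ^ 2 := pow_lt_pow_left₀ hc (by linarith [h.C0]) (by norm_num)
    have u2 : τ ^ 2 ≤ A ^ 2 := pow_le_pow_left₀ t0 hτ 2
    have := h.e
    have := r.ea
    linarith
  obtain ⟨t1, t2⟩ := tan_dif r.ea h.e t0 hτ (by linarith) (by linarith) (by linarith)
  have hab : |τ| ≤ |A| := by rw [abs_of_nonneg A0, abs_of_nonneg t0]; exact hτ
  obtain ⟨d1, d2⟩ := rr_dif hx hab
  rw [abs_of_nonneg A0, abs_of_nonneg t0] at d2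
  have tA0 : 0 ≤ A / (1 + Ca) := div_nonneg A0 (by linarith)
  have tA1 : A / (1 + Ca) ≤ 1 / 6 := by
    rw [div_le_iff₀ (by linarith)]
    linarith
  have rT1 := rr_le hx τ
  have rT0 := (rr_bd hx τ).1
  rw [abs_of_nonneg t0] at rT0
  rw [Ph_eq t0]
  have e : rr x A * (3 / 2 * (A / (1 + Ca))) - rr x τ * (3 / 2 * (τ / (1 + C))) =
      3 / 2 * (rr x τ * (A / (1 + Ca) - τ / (1 + C))) -
        3 / 2 * (A / (1 + Ca) * (rr x τ - rr x A)) := by ring
  have k1 : 0 ≤ rr x τ * (A / (1 + Ca) - τ / (1 + C)) := mul_nonneg (by linarith) t1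
  have k2 : rr x τ * (A / (1 + Ca) - τ / (1 + C)) ≤ 1 * (11 / 20 * (A - τ)) :=
    mul_le_mul rT1 t2 t1 zero_le_one
  have k3 : 0 ≤ A / (1 + Ca) * (rr x τ - rr x A) := mul_nonneg tA0 d1
  have k4 : A / (1 + Ca) * (rr x τ - rr x A) ≤ 1 / 6 * (187 / 50 * (A - τ)) :=
    mul_le_mul tA1 d2 d1 (by norm_num)
  have hd : 0 ≤ A - τ := by linarith
  rw [e, abs_le]
  constructor <;> linarith

/-- The second moment. -/
theorem Rev.Np (r : Rev A B Ca Cb) (h : Ang a b q p A B Ca Cb) (hx : 0 < x)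
    (hD : B - A ≤ 14 / 5 * (δ * A)) :
    0 ≤ (a - 1) * Fu x B Cb + (b - 1) * Fu x (-A) Ca ∧
      (a - 1) * Fu x B Cb + (b - 1) * Fu x (-A) Ca ≤ 147 / 50 * δ * (1 - a) := by
  have A0 := r.A0
  have AB := r.AB
  have B1 := r.B1
  have ca := r.ca
  have B0 : 0 ≤ B := A0.trans AB
  have hAB : |A| ≤ |B| := by rw [abs_of_nonneg A0, abs_of_nonneg B0]; exact AB
  obtain ⟨d1, d2⟩ := rr_dif hx hAB
  rw [abs_of_nonneg A0, abs_of_nonneg B0] at d2
  obtain ⟨ra0, ra1⟩ := rr_bd hx A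
  rw [abs_of_nonneg A0] at ra0 ra1
  have ea : (1 - a) = A * (1 / 2 + 3 / 4 * (A / (1 + Ca))) := by
    have ra := rel_lat (C := Ca) (D := A) (t := A / (1 + Ca)) (Z := a - 1) (r := 1) h.ea
      (by linarith) (div_mul_cancel₀ _ (by linarith)) (by rw [h.ha]; ring)
    linarith
  rw [h.N hx, ea]
  obtain ⟨a1, a2⟩ := h.tA
  obtain ⟨b1, b2⟩ := h.tB
  have b0 : 0 ≤ B / (1 + Cb) := div_nonneg B0 (by linarith [r.cb])
  obtain ⟨u, hu⟩ : ∃ u, u = 1 / 2 - 3 / 4 * (B / (1 + Cb)) := ⟨_, rfl⟩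
  obtain ⟨v, hv⟩ : ∃ v, v = 1 / 2 + 3 / 4 * (A / (1 + Ca)) := ⟨_, rfl⟩
  obtain ⟨m, hm⟩ : ∃ m, m = B * rr x A - A * rr x B := ⟨_, rfl⟩
  have em : A * rr x B - B * rr x A = -m := by rw [hm]; ring
  rw [← hu, ← hv, em]
  have u0 : 0 ≤ u := by linarith
  have u1 : u ≤ 1 / 2 := by linarith
  have v0 : 0 ≤ v := by linarith
  have hm2 : m = (B - A) * rr x A + A * (rr x A - rr x B) := by
    rw [hm]
    ring
  have hD0 : 0 ≤ B - A := by linarith
  have m0 : 0 ≤ m := by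
    rw [hm2]
    have := mul_nonneg hD0 (by linarith : 0 ≤ rr x A)
    have := mul_nonneg A0 d1
    linarith
  have m1 : m ≤ 2093 / 1000 * (B - A) := by
    have k1 := mul_le_mul_of_nonneg_left ra1 hD0
    have k2 := mul_le_mul_of_nonneg_left d2 A0
    have k3 : A * (B - A) ≤ 8 / 25 * (B - A) := mul_le_mul_of_nonneg_right (AB.trans B1) hD0
    rw [hm2]
    linarith
  have huv := mul_nonneg u0 v0
  constructor
  · have := mul_nonneg huv m0
    linarith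
  · have k1 : u * v * m ≤ 1 / 2 * v * (2093 / 1000 * (B - A)) :=
      mul_le_mul (mul_le_mul_of_nonneg_right u1 v0) m1 m0 (by linarith)
    have k2 : v * (B - A) ≤ v * (14 / 5 * (δ * A)) := mul_le_mul_of_nonneg_left hD v0
    have k3 : 0 ≤ δ * A := by
      have : 0 ≤ 14 / 5 * (δ * A) := hD0.trans hD
      linarith
    have k4 := mul_nonneg v0 k3
    linarith

end

/-- The final numbers. -/
theorem v3_lin {x l m c w CA L G R δ ex : ℝ} (δ0 : 0 ≤ δ) (he : 181 / 1000 * δ ≤ ex)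
    (xl : x * l ≤ 3 / 500) (m0 : 0 ≤ m) (m1 : m ≤ 201 / 1000) (w1 : w ≤ 13 / 10) (CA0 : 0 ≤ CA)
    (hCA : CA ≤ 131 / 1000 * δ) (L0 : 0 ≤ L) (hL : L ≤ 91 / 1000 * δ) (hG : -(3 / 50 * δ) ≤ G)
    (c0 : 0 ≤ c) (c1 : c ≤ 3 / 8) (x0 : 0 ≤ x) (x1 : x ≤ 4 / 125) (R0 : 0 ≤ R)
    (hR : R ≤ 10 / 7 * δ) :
    CA + L / 2 ≤ ex ∧ (1 + x * l) * CA + x * (c * m * R) + m / 2 * (w * L - G) ≤ ex := by
  have k1 : x * l * CA ≤ 3 / 500 * CA := mul_le_mul_of_nonneg_right xl CA0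
  have k2 : w * L ≤ 13 / 10 * L := mul_le_mul_of_nonneg_right w1 L0
  have k3 : m / 2 * (w * L - G) ≤ 201 / 2000 * (13 / 10 * L + 3 / 50 * δ) := by
    have u1 : w * L - G ≤ 13 / 10 * L + 3 / 50 * δ := by linarith
    have u2 : 0 ≤ 13 / 10 * L + 3 / 50 * δ := by linarith
    have u3 := mul_le_mul_of_nonneg_left u1 (by linarith : 0 ≤ m / 2)
    have u4 := mul_le_mul_of_nonneg_right (by linarith : m / 2 ≤ 201 / 2000) u2
    linarith
  have k4 : x * (c * m * R) ≤ 4 / 125 * (3 / 8 * (201 / 1000) * (10 / 7 * δ)) := by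
    have u1 : c * m ≤ 3 / 8 * (201 / 1000) := mul_le_mul c1 m1 m0 (by norm_num)
    have u2 : c * m * R ≤ 3 / 8 * (201 / 1000) * (10 / 7 * δ) :=
      mul_le_mul u1 hR R0 (by norm_num)
    exact mul_le_mul x1 u2 (mul_nonneg (mul_nonneg c0 m0) R0) (by norm_num)
  constructor <;> linarith

section

variable {x w v : ℝ}

/-- The kernel cost. -/
theorem VW.v3_cost (h : VW x w v) (hv : v < 0) {k12 k23 k13 δ N Np κ : ℝ} (δ0 : 0 ≤ δ)
    (hN : N = x * v * k12 - x * w * k23) (hNp : N = Np + x * v * κ) (κ0 : 0 ≤ κ) (κ1 : κ ≤ δ)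
    (n0 : 0 ≤ Np) (n1 : Np ≤ 147 / 50 * δ * -(x * v)) (hΔ : |k12 + k23 - k13| ≤ 23 / 10 * δ) :
    ∃ CA, 0 ≤ CA ∧ CA ≤ 131 / 1000 * δ ∧ ∀ y, 0 ≤ CA +
      kf (kE (h0 * x)) (h0 * x) (k12, k23, k13) (h0 * (1 + x * w)) (h0 * (1 + x * v)) y := by
  have hx := h.x0
  have hx1 := h.x1
  have ep1 : x * ep x ≤ 2 / 125 := by
    have : ep x ≤ 1 / 2 := by
      unfold ep
      have := mul_nonneg hx.le (ic_pos (x := x)).le
      linarith
    have := mul_le_mul hx1 this (ep_pos hx.le (by linarith)).le (by norm_num)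
    linarith
  have ep0 : 0 ≤ x * ep x := mul_nonneg hx.le (ep_pos hx.le (by linarith)).le
  have xv : 0 < -(x * v) := by
    have := mul_pos hx (neg_pos.2 hv)
    linarith
  have xv1 : -(x * v) ≤ 32 / 125 := by linarith [h.rv.a]
  have d0 := abs_nonneg (k12 + k23 - k13)
  rcases le_total N 0 with h1 | h1
  · refine ⟨331 / 20000 * -N + x * ep x * |k12 + k23 - k13|, ?_, ?_, fun y =>
      h.kcost hv hN h1 y⟩
    · have := mul_nonneg ep0 d0
      linarith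
    · have k1 : -N ≤ 32 / 125 * δ := by
        have k2 : -(x * v) * κ ≤ 32 / 125 * δ := mul_le_mul xv1 κ1 κ0 (by norm_num)
        linarith
      have k3 := mul_le_mul ep1 hΔ d0 (by norm_num)
      linarith
  · obtain ⟨P, hP⟩ : ∃ P, P = N / (x * v) := ⟨_, rfl⟩
    have hne : x * v ≠ 0 := by linarith
    have eP : P * (x * v) = N := by rw [hP, div_mul_cancel₀ _ hne]
    refine ⟨x * ep x * (2 * |P| + |k12 + k23 - k13|), by positivity, ?_, fun y =>
      h.kcost2 hv (P := P) (by linarith) y⟩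
    have hP0 : P ≤ 0 := by
      rw [hP]
      exact div_nonpos_of_nonneg_of_nonpos h1 (by linarith)
    have k1 : |P| ≤ 147 / 50 * δ := by
      rw [abs_of_nonpos hP0]
      refine le_of_mul_le_mul_right (a := -(x * v)) ?_ xv
      have := mul_nonneg κ0 xv.le
      linarith
    have k2 : 2 * |P| + |k12 + k23 - k13| ≤ 818 / 100 * δ := by linarith
    have k3 := mul_le_mul ep1 k2 (by positivity) (by norm_num)
    linarith

/-- **A long top side.** -/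
theorem VW.v3 (V : Vx) (h : VW x w v) (hv : v < 0) {τ : ℝ} (ht : Top x (1 + x * (w + v) / 2) τ)
    (hq : τ < 2 / 3 * (cc1 v x - cc1 w x))
    (hex : exn (cc1 v x - 3 / 2 * τ) (cc1 v x - 3 / 2 * τ + -cc1 v x) (h0 * (1 + x * w))
      (h0 * (1 + x * v)) ≤ 101 / 2000) :
    OKV V (h0 * x) (cc1 v x - 3 / 2 * τ) (cc1 v x - 3 / 2 * τ + -cc1 v x) (h0 * (1 + x * w))
      (h0 * (1 + x * v)) := by
  have hx := h.x0
  have hx1 := h.x1
  have g := h.ang
  have hh := h0_pos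
  obtain ⟨A, hA⟩ : ∃ A, A = -(x * sg1 v x) := ⟨_, rfl⟩
  obtain ⟨B, hB⟩ : ∃ B, B = x * sg1 w x := ⟨_, rfl⟩
  rw [← hA, ← hB] at g
  have eexn := VW.exn_eq (w := w) (v := v) hx (cc1 v x - 3 / 2 * τ) (-cc1 v x)
  obtain ⟨ex, hexd⟩ : ∃ ex, ex = exn (cc1 v x - 3 / 2 * τ) (cc1 v x - 3 / 2 * τ + -cc1 v x)
    (h0 * (1 + x * w)) (h0 * (1 + x * v)) := ⟨_, rfl⟩
  rw [← hexd] at hex eexn
  obtain ⟨δ, hδ⟩ : ∃ δ, δ = 3 / 2 * (2 / 3 * (cc1 v x - cc1 w x) - τ) := ⟨_, rfl⟩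
  have exf : ex = ((cc1 v x - 3 / 2 * τ) * (1 + x * v) + cc1 v x * (1 + x * w) - 1) / 2 := by
    rw [eexn]
    ring
  obtain ⟨r, e1, D1, D2, τA, Aτ, δ1⟩ := g.v3 (C := 1 + x * (w + v) / 2) (τ := τ) (δ := δ)
    (ex := ex) (by ring) ht.e ht.t0 rfl hq hδ exf hex
  have δ0 : 0 ≤ δ := by
    rw [hδ]
    linarith
  have A0 := r.A0
  have AB := r.AB
  have B0 : 0 ≤ B := A0.trans AB
  have AB' : 0 ≤ B - A := by linarith
  -- the side bottom-middle is above `h0`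
  have hw : 0 < w := by
    by_contra hc
    push Not at hc
    have k1 := h.rw.sg1_nonpos hc
    have k2 : B ≤ 0 := by
      rw [hB]
      exact mul_nonpos_of_nonneg_of_nonpos hx.le k1
    have e2 := h.rv.x_sg1
    have e3 := h.rv.c1_dn' hv
    rw [c1_h1] at e3
    have : x * v < 0 := mul_neg_of_pos_of_neg hx hv
    linarith
  have xw0 : 0 ≤ x * w := mul_nonneg hx.le hw.le
  have hα := r.alpha g (τ := τ) (ex := ex) (by linarith) exf hex
  have eα : cc1 v x - 3 / 2 * τ - cc1 w x = δ := by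
    rw [hδ]
    ring
  obtain ⟨k12, c12, r12, d12, κ0, κ1, hr, hc⟩ := h.rw.up_val h.s1 hw
    (α := cc1 v x - 3 / 2 * τ) (by linarith) hα
  rw [eα] at κ1 hr hc
  rw [← hB] at κ0 κ1
  -- the values
  have d23 := h.rv.val1.neg
  have d13 := (top_val3 ht).neg
  have eA : x * sg1 v x = -A := by rw [hA]; ring
  rw [eA, neg_zero] at d23
  have vaA : -sg1 v x = A / x := by
    rw [hA]
    field_simp
  have vbB : sg1 w x = B / x := by
    rw [hB]
    field_simp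
  have va0 : 0 ≤ A / x := div_nonneg A0 hx.le
  have vb0 : 0 ≤ B / x := div_nonneg B0 hx.le
  have elv : lv x (sg1 v x) = xb (A / x / 2) := by
    rw [lv_nonpos (by linarith), ← vaA]
    congr 1
    ring
  rw [elv] at d23
  have eT : h0 * (2 * (1 + x * (w + v) / 2)) = h0 * (1 + x * w) + h0 * (1 + x * v) := by ring
  have eX : -(3 / 2 * τ) = cc1 v x - 3 / 2 * τ + -cc1 v x := by ring
  rw [eX, eT, neg_zero] at d13
  have d23' : Val x (cc1 v x - 3 / 2 * τ + -cc1 v x - (cc1 v x - 3 / 2 * τ))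
      (h0 * (1 + x * v)) (-Fu x (-A) (Co v x)) (-xb (A / x / 2)) 0 := by
    rw [show cc1 v x - 3 / 2 * τ + -cc1 v x - (cc1 v x - 3 / 2 * τ) = -cc1 v x by ring]
    exact d23
  -- the residues
  obtain ⟨n0, n1⟩ := r.Np g hx D2
  obtain ⟨Np, hNp⟩ : ∃ N, N = (1 + x * v - 1) * Fu x B (Co w x) +
    (1 + x * w - 1) * Fu x (-A) (Co v x) := ⟨_, rfl⟩
  rw [← hNp] at n0 n1
  obtain ⟨s0, s1⟩ := r.S1 hx
  have hPh := r.Phd ht τA
  have hΔ : |k12 + -Fu x (-A) (Co v x) - -Ph x (1 + x * (w + v) / 2) τ| ≤ 23 / 10 * δ := by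
    have e5 : k12 + -Fu x (-A) (Co v x) - -Ph x (1 + x * (w + v) / 2) τ =
        (k12 - Fu x B (Co w x)) - (Fu x A (Co v x) - Fu x B (Co w x)) -
          (rr x A * (3 / 2 * (A / (1 + Co v x))) - Ph x (1 + x * (w + v) / 2) τ) := by
      rw [Fu_neg]
      unfold Fu
      ring
    obtain ⟨u1, u2⟩ := abs_le.1 hPh
    rw [e5, abs_le]
    constructor <;> linarith
  obtain ⟨CA, CA0, CA1, hK⟩ := h.v3_cost hv (k12 := k12) (k23 := -Fu x (-A) (Co v x))
    (k13 := -Ph x (1 + x * (w + v) / 2) τ) (N := x * v * k12 - x * w * -Fu x (-A) (Co v x))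
    (Np := Np) (κ := k12 - Fu x B (Co w x)) δ0 rfl (by rw [hNp]; ring) κ0 κ1 n0
    (by linarith) hΔ
  -- the levels
  obtain ⟨Lv, hLv⟩ : ∃ Lv, Lv = c12 + -xb (A / x / 2) - -vf x (τ / x) := ⟨_, rfl⟩
  have L0 : 0 ≤ x ^ 2 * |Lv| := by positivity
  have hDx : |A / x - B / x| = (B - A) / x := by
    rw [abs_sub_comm, ← sub_div, abs_of_nonneg (div_nonneg AB' hx.le)]
  have xD : x * (B - A) ≤ 4 / 125 * (73 / 100 * δ) :=
    mul_le_mul hx1 D1 AB' (by norm_num)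
  have hc' : x ^ 2 * |c12 - lv x (B / x)| ≤ 1 / 20 * δ := by
    have e6 : x ^ 2 * |c12 - lv x (B / x)| = |x ^ 2 * c12 - x ^ 2 * lv x (sg1 w x)| := by
      rw [vbB, ← mul_sub, abs_mul, abs_of_nonneg (sq_nonneg x)]
    rw [e6]
    exact hc
  have L1 : x ^ 2 * |Lv| ≤ 91 / 1000 * δ := by
    have e : Lv = (lv x (B / x) - xb (A / x / 2) + vf x (A / x)) + (c12 - lv x (B / x)) +
        (vf x (τ / x) - vf x (A / x)) := by
      rw [hLv]
      ring
    have t1 := lv_dif hx h.s1 va0 (vb := B / x) (by linarith)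
    rw [hDx] at t1
    have t1' := mul_le_mul_of_nonneg_left t1 (sq_nonneg x)
    have e2 : x ^ 2 * (103 / 100 * ((B - A) / x)) = 103 / 100 * (x * (B - A)) := by
      field_simp
    have t3 := vf_dif hx h.s1 ht.t0 τA
    have t4 := abs_add_three (lv x (B / x) - xb (A / x / 2) + vf x (A / x)) (c12 - lv x (B / x))
      (vf x (τ / x) - vf x (A / x))
    rw [← e] at t4
    have t5 := mul_le_mul_of_nonneg_left t4 (sq_nonneg x)
    have t6 : x * (A - τ) ≤ 4 / 125 * (2 / 3 * δ) :=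
      mul_le_mul hx1 Aτ (by linarith) (by norm_num)
    linarith
  obtain ⟨a1, a2, a3, a4, a5⟩ := h.ab
  have G1 : -(3 / 50 * δ) ≤
      x ^ 2 * ((1 + x * v) * c12 - (1 + x * w) * -xb (A / x / 2)) := by
    have t1 := lv_main hx h.s1 va0 a1 a2 (vb := B / x)
    rw [hDx] at t1
    have t2 : (1 + x * v) * ((B - A) / x) ≤ 1 * ((B - A) / x) :=
      mul_le_mul_of_nonneg_right a3 (div_nonneg AB' hx.le)
    have t3 : -(39 / 100 * ((B - A) / x)) ≤
        (1 + x * v) * lv x (B / x) - (1 + x * w) * -xb (A / x / 2) := by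
      linarith
    have t4 := mul_le_mul_of_nonneg_left t3 (sq_nonneg x)
    have e2 : x ^ 2 * -(39 / 100 * ((B - A) / x)) = -(39 / 100 * (x * (B - A))) := by
      field_simp
    have t5 : -(1 / 20 * δ) ≤ (1 + x * v) * (x ^ 2 * (c12 - lv x (B / x))) := by
      have u1 : x ^ 2 * |c12 - lv x (B / x)| = |x ^ 2 * (c12 - lv x (B / x))| := by
        rw [abs_mul, abs_of_nonneg (sq_nonneg x)]
      rw [u1] at hc'
      have u2 := (abs_le.1 hc').1
      have u3 := mul_le_mul_of_nonneg_left u2 a1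
      have u4 : (1 + x * v) * (1 / 20 * δ) ≤ 1 * (1 / 20 * δ) :=
        mul_le_mul_of_nonneg_right a3 (by linarith)
      linarith
    have e7 : x ^ 2 * ((1 + x * v) * c12 - (1 + x * w) * -xb (A / x / 2)) =
        x ^ 2 * ((1 + x * v) * lv x (B / x) - (1 + x * w) * -xb (A / x / 2)) +
          (1 + x * v) * (x ^ 2 * (c12 - lv x (B / x))) := by ring
    rw [e7]
    linarith
  obtain ⟨ch0, ch1, m0, m1, l0, xl1, -⟩ := mu_small hx h.s1
  obtain ⟨f1, f2⟩ := v3_lin (x := x) (l := lb x) (m := G.mu x) (c := ch x)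
    (w := 3 + x - (1 + x * v) - (1 + x * w)) (R := x * |r12|) δ0 e1 xl1 m0 m1 a5 CA0
    CA1 L0 L1 G1 ch0.le ch1 hx.le hx1 (by positivity) hr
  refine v_fin V hx h.s1 d12 d23' d13 hK ?_ ?_
  · rw [← hLv, ← hexd]
    linarith
  · rw [← hLv, ← hexd, abs_of_nonneg a4]
    refine le_trans (le_of_eq ?_) f2
    ring

end

end Pool.Agent.Strip051.LC.E0
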