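import Pool.Agent.Strip051.LC.E0.VwI

/-! # Small rests: monotonicity in the vertical window -/

namespace Pool.Agent.Strip051.LC.E0

open Pool.Agent.StripNear Pool.Agent.StripSquare Pool.Agent.Strip051 Pool.Agent.Strip051.Sweep
open Pool.Agent.Strip051.LC.Line
open Pool.Agent.Strip051.LC.Exact (kE)
open G

section

variable {x C τ : ℝ}

/-- The slopes of the kernel at the top. -/
theorem Top.sbA (h : Top x C τ) : SB (vA par (h0 * x)) (h0 * (2 * C)) 1 := by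
  obtain ⟨a0, -, -⟩ := h.v0
  obtain ⟨a1, -⟩ := h.v1
  obtain ⟨a2, -⟩ := h.v2
  have a3 := h.v3
  obtain ⟨w0, w1⟩ := h.W
  have hc1 : pos.cv 1 (h0 * (2 * C)) = Wc (h0 * (2 * C)) := cv_one_high (by
    have := h.T2
    have := h0_pos
    linarith)
  have hc2 := h.cv2
  have hc3 : pos.cv 3 (h0 * (2 * C)) = 3 / 2 * τ := by rw [cv_three, h.c3]
  have hg := h.gap
  obtain ⟨e0, e1⟩ := h.Ebd
  have t0 := h.t0
  have t1 := h.t1
  have e2 : 3 / 4 * τ - Ph x C τ ≤ 3 / 2 * (3 / 2 * τ - pos.cv 2 (h0 * (2 * C))) := by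
    rw [hc2]
    have : τ ^ 2 ≤ 283 / 500 * τ := by nlinarith
    linarith
  intro i
  fin_cases i
  · change |vA par (h0 * x) (h0 * (2 * C)) 1 - vA par (h0 * x) (h0 * (2 * C)) 0| ≤
      1 * (pos.cv 1 (h0 * (2 * C)) - pos.cv 0 (h0 * (2 * C)))
    rw [a0, a1, hc1, h.c1, sub_zero, sub_zero, abs_of_nonneg (by linarith)]
    linarith
  · change |vA par (h0 * x) (h0 * (2 * C)) 2 - vA par (h0 * x) (h0 * (2 * C)) 1| ≤
      1 * (pos.cv 2 (h0 * (2 * C)) - pos.cv 1 (h0 * (2 * C)))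
    have : 0 ≤ pos.cv 2 (h0 * (2 * C)) - Wc (h0 * (2 * C)) := by
      rw [hc2]
      linarith
    rw [a1, a2, hc1, abs_of_nonneg (by linarith)]
    linarith
  · change |vA par (h0 * x) (h0 * (2 * C)) 3 - vA par (h0 * x) (h0 * (2 * C)) 2| ≤
      1 * (pos.cv 3 (h0 * (2 * C)) - pos.cv 2 (h0 * (2 * C)))
    rw [a2, a3, hc3, abs_le]
    constructor <;> linarith

theorem Top.sbR (h : Top x C τ) : SB (vR par (h0 * x)) (h0 * (2 * C)) 0 := by
  obtain ⟨-, -, r0⟩ := h.v0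
  obtain ⟨-, r1⟩ := h.v1
  obtain ⟨-, r2⟩ := h.v2
  intro i
  fin_cases i
  · change |vR par (h0 * x) (h0 * (2 * C)) 1 - vR par (h0 * x) (h0 * (2 * C)) 0| ≤ 0 * _
    rw [r0, r1]
    simp
  · change |vR par (h0 * x) (h0 * (2 * C)) 2 - vR par (h0 * x) (h0 * (2 * C)) 1| ≤ 0 * _
    rw [r1, r2]
    simp
  · change |vR par (h0 * x) (h0 * (2 * C)) 3 - vR par (h0 * x) (h0 * (2 * C)) 2| ≤ 0 * _
    rw [r2, vR3]
    simp

theorem Top.sbX (h : Top x C τ) : SB (vX par (h0 * x)) (h0 * (2 * C)) (1 / 20) := by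
  have hx := h.x0
  have hx1 := h.x1
  have t0 := h.t0
  obtain ⟨w0, w1⟩ := h.W
  have hc1 : pos.cv 1 (h0 * (2 * C)) = Wc (h0 * (2 * C)) := cv_one_high (by
    have := h.T2
    have := h0_pos
    linarith)
  have hc2 := h.cv2
  have hc3 : pos.cv 3 (h0 * (2 * C)) = 3 / 2 * τ := by rw [cv_three, h.c3]
  have hg := h.gap
  obtain ⟨-, x0', -⟩ := h.v0
  obtain ⟨b, hb⟩ : ∃ b, b = pos.cv 2 (h0 * (2 * C)) := ⟨_, rfl⟩
  obtain ⟨W, hW⟩ : ∃ W, W = Wc (h0 * (2 * C)) := ⟨_, rfl⟩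
  rw [← hb, ← hW] at hc2
  rw [← hW] at w0 w1 hg hc1
  have hWb : W ≤ b := by linarith
  have hb0 : 0 ≤ b := by linarith
  have hbc : b ≤ 3 / 2 * τ := by linarith
  obtain ⟨v1, hv1⟩ : ∃ v1, v1 = b / (3 / 2 * x) := ⟨_, rfl⟩
  have ev1 : 3 / 2 * (x * v1) = b := by
    rw [hv1]
    field_simp
  obtain ⟨X1, X2, X3⟩ := h.X (v1 := v1) (v2 := τ / x) (by rw [← hb]; exact ev1) (by field_simp)
  rw [← hb, ← hW] at X1
  have v10 : 0 ≤ v1 := by
    rw [hv1]
    positivity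
  have hxx : x ^ 2 * (79 / 100 * v1) ≤ 1 / 20 * b := by
    rw [← ev1]
    have : 0 ≤ x * v1 := mul_nonneg hx.le v10
    have := mul_le_mul_of_nonneg_right hx1 this
    nlinarith
  have hf1 : |vf x v1| ≤ 79 / 100 * v1 := by
    have := (vf_sl hx h.s1).abs (L := 79 / 100) (by norm_num) (by norm_num) (le_refl 0) v10
    rw [vf_zero, sub_zero, sub_zero, abs_of_nonneg v10] at this
    exact this
  have hA : x ^ 2 * |vf x v1| ≤ 1 / 20 * b :=
    (mul_le_mul_of_nonneg_left hf1 (sq_nonneg x)).trans hxx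
  have hq0 : 0 ≤ W / b := div_nonneg w0 hb0
  have hq1 : W / b ≤ 1 := div_le_one_of_le₀ hWb hb0
  have eW : W / b * b = W := by
    rcases hb0.eq_or_lt with h1 | h1
    · have : W = 0 := by linarith
      rw [this]
      simp
    · exact div_mul_cancel₀ _ h1.ne'
  intro i
  fin_cases i
  · change |vX par (h0 * x) (h0 * (2 * C)) 1 - vX par (h0 * x) (h0 * (2 * C)) 0| ≤
      1 / 20 * (pos.cv 1 (h0 * (2 * C)) - pos.cv 0 (h0 * (2 * C)))
    rw [X1, x0', hc1, h.c1, sub_zero, sub_zero, abs_mul, abs_mul, abs_of_nonneg hq0,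
      abs_of_nonneg (sq_nonneg x)]
    have := mul_le_mul_of_nonneg_right hA hq0
    nlinarith
  · change |vX par (h0 * x) (h0 * (2 * C)) 2 - vX par (h0 * x) (h0 * (2 * C)) 1| ≤
      1 / 20 * (pos.cv 2 (h0 * (2 * C)) - pos.cv 1 (h0 * (2 * C)))
    rw [X1, X2, hc1, ← hb, show x ^ 2 * vf x v1 - x ^ 2 * (vf x v1 * (W / b)) =
      x ^ 2 * (vf x v1 * (1 - W / b)) by ring, abs_mul, abs_mul, abs_of_nonneg (sub_nonneg.2 hq1),
      abs_of_nonneg (sq_nonneg x)]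
    have := mul_le_mul_of_nonneg_right hA (sub_nonneg.2 hq1)
    nlinarith
  · change |vX par (h0 * x) (h0 * (2 * C)) 3 - vX par (h0 * x) (h0 * (2 * C)) 2| ≤
      1 / 20 * (pos.cv 3 (h0 * (2 * C)) - pos.cv 2 (h0 * (2 * C)))
    rw [X2, X3, hc3, ← hb, ← mul_sub, abs_mul, abs_of_nonneg (sq_nonneg x)]
    have v12 : v1 ≤ τ / x := by
      rw [le_div_iff₀ hx]
      linarith
    have k := (vf_sl hx h.s1).abs (L := 79 / 100) (by norm_num) (by norm_num) v10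
      (v10.trans v12)
    rw [abs_of_nonneg (sub_nonneg.2 v12)] at k
    have k2 := mul_le_mul_of_nonneg_left k (sq_nonneg x)
    have e : x ^ 2 * (79 / 100 * (τ / x - v1)) = 79 / 150 * (x * (3 / 2 * τ - b)) := by
      rw [← ev1]
      field_simp
      ring
    have k3 : x * (3 / 2 * τ - b) ≤ 4 / 125 * (3 / 2 * τ - b) :=
      mul_le_mul_of_nonneg_right hx1 (by linarith)
    linarith

/-- The kernel is Lipschitz through `0`. -/
theorem Top.lip (h : Top x C τ) {v : ℝ → Fin 4 → ℝ} (hv : E0.K.adm v) {L X X' : ℝ}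
    (hL : SB v (h0 * (2 * C)) L) (h1 : |X| ≤ 3 / 2 * τ) (h2 : |X'| ≤ 3 / 2 * τ) :
    |ker E0.K.nodes v (fun _ _ => 0) X' (h0 * (2 * C)) -
      ker E0.K.nodes v (fun _ _ => 0) X (h0 * (2 * C))| ≤ L * |X' - X| := by
  have hT0 : 0 ≤ h0 * (2 * C) := by linarith [h.T1]
  have c1' : ∀ Y : ℝ, LC.c1 (h0 * (2 * C)) ≤ |Y| := fun Y => by
    rw [c1_zero (by linarith [h.T1])]
    exact abs_nonneg Y
  have same : ∀ {Y Y' : ℝ}, Same Y Y' → |Y| ≤ 3 / 2 * τ → |Y'| ≤ 3 / 2 * τ →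
      |ker E0.K.nodes v (fun _ _ => 0) Y' (h0 * (2 * C)) -
        ker E0.K.nodes v (fun _ _ => 0) Y (h0 * (2 * C))| ≤ L * |Y' - Y| := by
    intro Y Y' hS h1 h2
    exact ker_lip' hv hT0 h.T3 hL hS (c1' _) (by rw [h.c3]; exact h1) (c1' _)
      (by rw [h.c3]; exact h2)
  have z : |(0 : ℝ)| ≤ 3 / 2 * τ := by
    rw [abs_zero]
    linarith [h.t0]
  rcases le_total 0 X with p | p
  · rcases le_total 0 X' with q | q
    · exact same (Or.inl ⟨p, q⟩) h1 h2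
    · have k1 := same (Or.inl ⟨p, le_refl 0⟩) h1 z
      have k2 := same (Or.inr ⟨le_refl 0, q⟩) z h2
      have e : ker E0.K.nodes v (fun _ _ => 0) X' (h0 * (2 * C)) -
          ker E0.K.nodes v (fun _ _ => 0) X (h0 * (2 * C)) =
          (ker E0.K.nodes v (fun _ _ => 0) X' (h0 * (2 * C)) -
            ker E0.K.nodes v (fun _ _ => 0) 0 (h0 * (2 * C))) +
          (ker E0.K.nodes v (fun _ _ => 0) 0 (h0 * (2 * C)) -
            ker E0.K.nodes v (fun _ _ => 0) X (h0 * (2 * C))) := by ring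
      rw [e]
      refine (abs_add_le _ _).trans ((add_le_add k2 k1).trans (le_of_eq ?_))
      rw [zero_sub, abs_neg, sub_zero, abs_of_nonpos q, abs_of_nonneg p,
        abs_of_nonpos (by linarith : X' - X ≤ 0)]
      ring
  · rcases le_total 0 X' with q | q
    · have k1 := same (Or.inr ⟨p, le_refl 0⟩) h1 z
      have k2 := same (Or.inl ⟨le_refl 0, q⟩) z h2
      have e : ker E0.K.nodes v (fun _ _ => 0) X' (h0 * (2 * C)) -
          ker E0.K.nodes v (fun _ _ => 0) X (h0 * (2 * C)) =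
          (ker E0.K.nodes v (fun _ _ => 0) X' (h0 * (2 * C)) -
            ker E0.K.nodes v (fun _ _ => 0) 0 (h0 * (2 * C))) +
          (ker E0.K.nodes v (fun _ _ => 0) 0 (h0 * (2 * C)) -
            ker E0.K.nodes v (fun _ _ => 0) X (h0 * (2 * C))) := by ring
      rw [e]
      refine (abs_add_le _ _).trans ((add_le_add k2 k1).trans (le_of_eq ?_))
      rw [zero_sub, abs_neg, sub_zero, abs_of_nonneg q, abs_of_nonpos p,
        abs_of_nonneg (by linarith : 0 ≤ X' - X)]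
      ring
    · exact same (Or.inr ⟨p, q⟩) h1 h2

theorem Top.slope (V : Vx) (h : Top x C τ) :
    ∃ L, SB (vV V (h0 * x)) (h0 * (2 * C)) L ∧ we (h0 * x) * L ≤ 1 / 50 ∧ 0 ≤ L := by
  have hh := h0_pos
  have hx := h.x0
  have hs0 : 0 < h0 * x := by positivity
  obtain ⟨e0, e1⟩ := we_bd hs0 h.s1
  obtain ⟨m0, m1⟩ := mu_bd hs0 h.s1
  obtain ⟨q0, q1⟩ := wq_bd hs0 h.s1
  cases V
  · exact ⟨1, h.sbA, by linarith, by norm_num⟩
  · have mq : 0 ≤ LC.mu 3 (h0 * x) * wq (h0 * x) := mul_nonneg m0 q0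
    have mq1 : LC.mu 3 (h0 * x) * wq (h0 * x) ≤ 201 / 1000 * (1 / 1000) :=
      mul_le_mul m1 q1 q0 (by norm_num)
    refine ⟨_, SB.vB hx h.s1 h.sbA h.sbR, ?_, ?_⟩
    · rw [mul_div_cancel₀ _ e0.ne']
      linarith
    · positivity

end

/-! ### The change of the statement -/

section

variable {x a b : ℝ}

theorem lev_abs2 (hx : 0 < x) (hs : h0 * x ≤ 11 / 400) (a0 : 0 ≤ a) (a1 : a ≤ 6 / 5) (b0 : 0 ≤ b)
    (b1 : b ≤ 6 / 5) (d : ℝ × ℝ × ℝ) :
    |levXV 3 (h0 * x) 0 (h0 * b) (h0 * a) d| ≤ 1 / 2 * (|d.1| + |d.2.1| + |d.2.2|) := by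
  have hh := h0_pos
  have hx1 := x_le hx hs
  have hs0 : 0 < h0 * x := by positivity
  obtain ⟨m0, m1⟩ := mu_bd hs0 hs
  have key : ∀ p q r : ℝ, |p| ≤ 2 → |q| ≤ 2 → |r| ≤ 2 →
      |LC.mu 3 (h0 * x) * (p * d.1 + q * d.2.1 + r * d.2.2)| ≤
        1 / 2 * (|d.1| + |d.2.1| + |d.2.2|) := by
    intro p q r hp hq hr
    rw [abs_mul, abs_of_nonneg m0]
    have h1 := abs_add_three (p * d.1) (q * d.2.1) (r * d.2.2)
    rw [abs_mul, abs_mul, abs_mul] at h1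
    have k1 := mul_le_mul_of_nonneg_right hp (abs_nonneg d.1)
    have k2 := mul_le_mul_of_nonneg_right hq (abs_nonneg d.2.1)
    have k3 := mul_le_mul_of_nonneg_right hr (abs_nonneg d.2.2)
    have k4 : 0 ≤ |p * d.1 + q * d.2.1 + r * d.2.2| := abs_nonneg _
    have k5 := mul_le_mul_of_nonneg_right m1 k4
    have k6 : 0 ≤ |d.1| + |d.2.1| + |d.2.2| := by positivity
    nlinarith
  have e : levXV 3 (h0 * x) 0 (h0 * b) (h0 * a) d =
      LC.mu 3 (h0 * x) * (((3 + x) / 2 - b / 2) * d.1 +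
        ((3 + x) / 2 - (2 * b + a) / 2) * d.2.1 +
        (-((3 + x) / 2) + (b + a) / 2) * d.2.2) := by
    unfold levXV
    push_cast
    field_simp
    ring
  rw [e]
  refine key _ _ _ ?_ ?_ ?_ <;> (rw [abs_le]; constructor <;> linarith)

/-- The statement for a larger excess. -/
theorem okv_of2 {V : Vx} (hx : 0 < x) (hs : h0 * x ≤ 11 / 400) (a0 : 0 ≤ a) (a1 : a ≤ 6 / 5)
    (b0 : 0 ≤ b) (b1 : b ≤ 6 / 5) {X12 X13 X12' X13' : ℝ} {P Q R p q r : ℝ}
    (hA : |(E0.K.valK X12' X13' (h0 * b) (h0 * a) (vV V (h0 * x))).1 -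
      (E0.K.valK X12 X13 (h0 * b) (h0 * a) (vV V (h0 * x))).1| ≤ P)
    (hB : |(E0.K.valK X12' X13' (h0 * b) (h0 * a) (vV V (h0 * x))).2.1 -
      (E0.K.valK X12 X13 (h0 * b) (h0 * a) (vV V (h0 * x))).2.1| ≤ Q)
    (hC : |(E0.K.valK X12' X13' (h0 * b) (h0 * a) (vV V (h0 * x))).2.2 -
      (E0.K.valK X12 X13 (h0 * b) (h0 * a) (vV V (h0 * x))).2.2| ≤ R)
    (ha : |(E0.K.valK X12' X13' (h0 * b) (h0 * a) (vX par (h0 * x))).1 -
      (E0.K.valK X12 X13 (h0 * b) (h0 * a) (vX par (h0 * x))).1| ≤ p)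
    (hb : |(E0.K.valK X12' X13' (h0 * b) (h0 * a) (vX par (h0 * x))).2.1 -
      (E0.K.valK X12 X13 (h0 * b) (h0 * a) (vX par (h0 * x))).2.1| ≤ q)
    (hc : |(E0.K.valK X12' X13' (h0 * b) (h0 * a) (vX par (h0 * x))).2.2 -
      (E0.K.valK X12 X13 (h0 * b) (h0 * a) (vX par (h0 * x))).2.2| ≤ r)
    (hE : we (h0 * x) * (P + Q + R) + 1 / 2 * (p + q + r) ≤
      exn X12' X13' (h0 * b) (h0 * a) - exn X12 X13 (h0 * b) (h0 * a))
    (hV : OKV V (h0 * x) X12 X13 (h0 * b) (h0 * a)) :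
    OKV V (h0 * x) X12' X13' (h0 * b) (h0 * a) := by
  have hh := h0_pos
  have hx1 := x_le hx hs
  have hs0 : 0 < h0 * x := by positivity
  have hs1 : h0 * x < h0 := by nlinarith
  have hκ := kE_nonneg hs0 hs
  obtain ⟨e0, -⟩ := we_bd hs0 hs
  set t := h0 * b with ht
  set t' := h0 * a with ht'
  -- the change of the kernel term
  have hk : ∀ y, kf (kE (h0 * x)) (h0 * x) (E0.K.valK X12 X13 t t' (vV V (h0 * x))) t t' y -
      we (h0 * x) * (P + Q + R) ≤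
      kf (kE (h0 * x)) (h0 * x) (E0.K.valK X12' X13' t t' (vV V (h0 * x))) t t' y := by
    intro y
    rw [kf_sub _ _ (E0.K.valK X12 X13 t t' (vV V (h0 * x)))
      (E0.K.valK X12' X13' t t' (vV V (h0 * x)))]
    have h1 := kf_abs hs0.le hs1 hκ
      ((E0.K.valK X12' X13' t t' (vV V (h0 * x))).1 - (E0.K.valK X12 X13 t t' (vV V (h0 * x))).1,
        (E0.K.valK X12' X13' t t' (vV V (h0 * x))).2.1 -
          (E0.K.valK X12 X13 t t' (vV V (h0 * x))).2.1,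
        (E0.K.valK X12' X13' t t' (vV V (h0 * x))).2.2 -
          (E0.K.valK X12 X13 t t' (vV V (h0 * x))).2.2) t t' y
    rw [amp_kE hs0 hs] at h1
    have h2 := (abs_le.1 h1).1
    simp only at h2
    have h3 := mul_le_mul_of_nonneg_left (add_le_add (add_le_add hA hB) hC) e0.le
    linarith
  cases V
  · intro y
    have h1 := hV y
    have h2 := hk y
    have h3 : |farXV (E0.K.valK X12' X13' t t' (vX par (h0 * x)))| ≤
        |farXV (E0.K.valK X12 X13 t t' (vX par (h0 * x)))| + 1 / 2 * (p + q + r) := by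
      unfold farXV
      set P := E0.K.valK X12 X13 t t' (vX par (h0 * x))
      set P' := E0.K.valK X12' X13' t t' (vX par (h0 * x))
      have e : 1 / 2 * (P'.1 + P'.2.1 - P'.2.2) = 1 / 2 * (P.1 + P.2.1 - P.2.2) +
          1 / 2 * ((P'.1 - P.1) + (P'.2.1 - P.2.1) - (P'.2.2 - P.2.2)) := by ring
      rw [e]
      refine (abs_add_le _ _).trans ?_
      have h4 : |1 / 2 * ((P'.1 - P.1) + (P'.2.1 - P.2.1) - (P'.2.2 - P.2.2))| ≤
          1 / 2 * (p + q + r) := by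
        rw [abs_mul, abs_of_pos (by norm_num : (0 : ℝ) < 1 / 2)]
        refine mul_le_mul_of_nonneg_left ?_ (by norm_num)
        refine (abs_sub _ _).trans ?_
        linarith [abs_add_le (P'.1 - P.1) (P'.2.1 - P.2.1)]
      linarith
    change 0 ≤ exn X12 X13 t t' - |farXV (E0.K.valK X12 X13 t t' (vX par (h0 * x)))| +
      kf (kE (h0 * x)) (h0 * x) (E0.K.valK X12 X13 t t' (vA par (h0 * x))) t t' y at h1
    change kf (kE (h0 * x)) (h0 * x) (E0.K.valK X12 X13 t t' (vA par (h0 * x))) t t' y -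
      we (h0 * x) * (P + Q + R) ≤
      kf (kE (h0 * x)) (h0 * x) (E0.K.valK X12' X13' t t' (vA par (h0 * x))) t t' y at h2
    change 0 ≤ exn X12' X13' t t' - |farXV (E0.K.valK X12' X13' t t' (vX par (h0 * x)))| +
      kf (kE (h0 * x)) (h0 * x) (E0.K.valK X12' X13' t t' (vA par (h0 * x))) t t' y
    linarith
  · intro y
    have h1 := hV y
    have h2 := hk y
    set P1 := E0.K.valK X12 X13 t t' (vX par (h0 * x)) with hp
    set P2 := E0.K.valK X12' X13' t t' (vX par (h0 * x)) with hp'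
    have h3 : min (levXV 3 (h0 * x) 0 t t' P1)
        (levXV 3 (h0 * x) 0 t' t (-P1.2.1, -P1.1, -P1.2.2)) - 1 / 2 * (p + q + r) ≤
        min (levXV 3 (h0 * x) 0 t t' P2)
          (levXV 3 (h0 * x) 0 t' t (-P2.2.1, -P2.1, -P2.2.2)) := by
      have hd := lev_abs2 hx hs a0 a1 b0 b1 (P2.1 - P1.1, P2.2.1 - P1.2.1, P2.2.2 - P1.2.2)
      have hd' := lev_abs2 hx hs b0 b1 a0 a1
        (-P2.2.1 - -P1.2.1, -P2.1 - -P1.1, -P2.2.2 - -P1.2.2)
      have g1 := (abs_le.1 hd).1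
      have g2 := (abs_le.1 hd').1
      have q1 : |-P2.2.1 - -P1.2.1| = |P2.2.1 - P1.2.1| := by
        rw [show -P2.2.1 - -P1.2.1 = -(P2.2.1 - P1.2.1) by ring, abs_neg]
      have q2 : |-P2.1 - -P1.1| = |P2.1 - P1.1| := by
        rw [show -P2.1 - -P1.1 = -(P2.1 - P1.1) by ring, abs_neg]
      have q3 : |-P2.2.2 - -P1.2.2| = |P2.2.2 - P1.2.2| := by
        rw [show -P2.2.2 - -P1.2.2 = -(P2.2.2 - P1.2.2) by ring, abs_neg]
      simp only at g1 g2
      rw [q1, q2, q3] at g2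
      refine le_min ?_ ?_
      · rw [levXV_sub 3 (h0 * x) 0 t t' P1 P2]
        have := min_le_left (levXV 3 (h0 * x) 0 t t' P1)
          (levXV 3 (h0 * x) 0 t' t (-P1.2.1, -P1.1, -P1.2.2))
        linarith
      · rw [levXV_sub 3 (h0 * x) 0 t' t (-P1.2.1, -P1.1, -P1.2.2) (-P2.2.1, -P2.1, -P2.2.2)]
        have := min_le_right (levXV 3 (h0 * x) 0 t t' P1)
          (levXV 3 (h0 * x) 0 t' t (-P1.2.1, -P1.1, -P1.2.2))
        simp only
        linarith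
    change 0 ≤ exn X12 X13 t t' + min (levXV 3 (h0 * x) 0 t t' P1)
        (levXV 3 (h0 * x) 0 t' t (-P1.2.1, -P1.1, -P1.2.2)) +
      kf (kE (h0 * x)) (h0 * x) (E0.K.valK X12 X13 t t' (vB par (h0 * x))) t t' y at h1
    change kf (kE (h0 * x)) (h0 * x) (E0.K.valK X12 X13 t t' (vB par (h0 * x))) t t' y -
      we (h0 * x) * (P + Q + R) ≤
      kf (kE (h0 * x)) (h0 * x) (E0.K.valK X12' X13' t t' (vB par (h0 * x))) t t' y at h2
    change 0 ≤ exn X12' X13' t t' + min (levXV 3 (h0 * x) 0 t t' P2)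
        (levXV 3 (h0 * x) 0 t' t (-P2.2.1, -P2.1, -P2.2.2)) +
      kf (kE (h0 * x)) (h0 * x) (E0.K.valK X12' X13' t t' (vB par (h0 * x))) t t' y
    linarith

end

end Pool.Agent.Strip051.LC.E0
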