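import Pool.Agent.Strip051.LC.E0.VwJ

/-! # Small rests: the vertical window -/

namespace Pool.Agent.Strip051.LC.E0

open Pool.Agent.StripNear Pool.Agent.StripSquare Pool.Agent.Strip051 Pool.Agent.Strip051.Sweep
open Pool.Agent.Strip051.LC.Line
open Pool.Agent.Strip051.LC.Exact (kE)
open G

section

variable {x w v τ : ℝ}

/-- **The slack increases with both abscissas.** -/
theorem VW.move (V : Vx) (h : VW x w v) (ht : Top x (1 + x * (w + v) / 2) τ) {α β α' β' : ℝ}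
    (a1 : cc1 w x ≤ α) (a2 : α ≤ α') (a3 : α' ≤ cc3 w x) (b1 : cc1 v x ≤ β) (b2 : β ≤ β')
    (b3 : β' ≤ cc3 v x) (c1 : |α + -β| ≤ 3 / 2 * τ) (c2 : |α' + -β'| ≤ 3 / 2 * τ)
    (hV : OKV V (h0 * x) α (α + -β) (h0 * (1 + x * w)) (h0 * (1 + x * v))) :
    OKV V (h0 * x) α' (α' + -β') (h0 * (1 + x * w)) (h0 * (1 + x * v)) := by
  have hh := h0_pos
  have hx := h.x0
  have hs0 : 0 < h0 * x := by positivity
  obtain ⟨e0, -⟩ := we_bd hs0 h.s1
  obtain ⟨L, hL, l1, l0⟩ := slopeMid V h.rw h.s1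
  obtain ⟨M, hM, m1, m0⟩ := slopeMid V h.rv h.s1
  obtain ⟨R, hR, r1, r0⟩ := ht.slope V
  have hX := h.rw.sbX h.s1
  have hY := h.rv.sbX h.s1
  have hZ := ht.sbX
  obtain ⟨f1, f2, f3, -, -⟩ := h.ab
  have p0 : 0 ≤ cc1 w x := Real.sqrt_nonneg _
  have q0 : 0 ≤ cc1 v x := Real.sqrt_nonneg _
  have dα : 0 ≤ α' - α := by linarith
  have dβ : 0 ≤ β' - β := by linarith
  have eT : h0 * (1 + x * w) + h0 * (1 + x * v) = h0 * (2 * (1 + x * (w + v) / 2)) := by ring
  have k12 : ∀ {v' : ℝ → Fin 4 → ℝ} (_ : E0.K.adm v') {S : ℝ} (_ : SB v' (h0 * (1 + x * w)) S),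
      |ker E0.K.nodes v' (fun _ _ => 0) α' (h0 * (1 + x * w)) -
        ker E0.K.nodes v' (fun _ _ => 0) α (h0 * (1 + x * w))| ≤ S * (α' - α) := by
    intro v' hv S hS'
    exact ker_lip hv h.rw.T0 h.rw.T3.le hS' (by rw [c1_h1]; exact a1) a2 (by rw [c3_h1]; exact a3)
  have k23 : ∀ {v' : ℝ → Fin 4 → ℝ} (_ : E0.K.adm v') {S : ℝ} (_ : SB v' (h0 * (1 + x * v)) S),
      |ker E0.K.nodes v' (fun _ _ => 0) (α' + -β' - α') (h0 * (1 + x * v)) -
        ker E0.K.nodes v' (fun _ _ => 0) (α + -β - α) (h0 * (1 + x * v))| ≤ S * (β' - β) := by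
    intro v' hv S hS'
    have k := ker_lip hv h.rv.T0 h.rv.T3.le hS' (X := β) (X' := β') (by rw [c1_h1]; exact b1) b2
      (by rw [c3_h1]; exact b3)
    rw [show α' + -β' - α' = -β' by ring, show α + -β - α = -β by ring, E0.K.ker_neg,
      E0.K.ker_neg, show -ker E0.K.nodes v' (fun _ _ => 0) β' (h0 * (1 + x * v)) -
      -ker E0.K.nodes v' (fun _ _ => 0) β (h0 * (1 + x * v)) =
      -(ker E0.K.nodes v' (fun _ _ => 0) β' (h0 * (1 + x * v)) -
      ker E0.K.nodes v' (fun _ _ => 0) β (h0 * (1 + x * v))) by ring, abs_neg]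
    exact k
  have k13 : ∀ {v' : ℝ → Fin 4 → ℝ} (_ : E0.K.adm v') {S : ℝ} (_ : 0 ≤ S)
      (_ : SB v' (h0 * (2 * (1 + x * (w + v) / 2))) S),
      |ker E0.K.nodes v' (fun _ _ => 0) (α' + -β') (h0 * (1 + x * w) + h0 * (1 + x * v)) -
        ker E0.K.nodes v' (fun _ _ => 0) (α + -β) (h0 * (1 + x * w) + h0 * (1 + x * v))| ≤
        S * ((α' - α) + (β' - β)) := by
    intro v' hv S hS0 hS'
    rw [eT]
    refine (ht.lip hv hS' c1 c2).trans (mul_le_mul_of_nonneg_left ?_ hS0)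
    rw [show α' + -β' - (α + -β) = (α' - α) - (β' - β) by ring]
    refine (abs_sub _ _).trans ?_
    rw [abs_of_nonneg dα, abs_of_nonneg dβ]
  refine okv_of2 hx h.s1 f1 (by linarith) (by linarith) (by linarith [h.hw])
    (P := L * (α' - α)) (Q := M * (β' - β)) (R := R * ((α' - α) + (β' - β)))
    (p := 1 / 20 * (α' - α)) (q := 1 / 20 * (β' - β)) (r := 1 / 20 * ((α' - α) + (β' - β)))
    ?_ ?_ ?_ ?_ ?_ ?_ ?_ hV
  · exact k12 (adm_vV V _) hL
  · exact k23 (adm_vV V _) hM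
  · exact k13 (adm_vV V _) r0 hR
  · exact k12 (adm_vX par _) hX
  · exact k23 (adm_vX par _) hY
  · exact k13 (adm_vX par _) (by norm_num) hZ
  · rw [VW.exn_eq hx, VW.exn_eq hx]
    have g1 := mul_le_mul_of_nonneg_right l1 dα
    have g2 := mul_le_mul_of_nonneg_right m1 dβ
    have g3 := mul_le_mul_of_nonneg_right r1 (add_nonneg dα dβ)
    have e : we (h0 * x) * (L * (α' - α) + M * (β' - β) + R * ((α' - α) + (β' - β))) =
      we (h0 * x) * L * (α' - α) + we (h0 * x) * M * (β' - β) +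
        we (h0 * x) * R * ((α' - α) + (β' - β)) := by ring
    rw [e]
    have av := h.rv.a
    have g4 := mul_le_mul_of_nonneg_right (by linarith : 93 / 125 ≤ 1 + x * v) dα
    have g5 := mul_le_mul_of_nonneg_right (by linarith : 93 / 125 ≤ 1 + x * w) dβ
    linarith

/-- The lattice triangle. -/
theorem lat_v (V : Vx) (h : VW x 0 0) : OKV V (h0 * x) (cc1 0 x) (cc1 0 x + -cc1 0 x)
    (h0 * (1 + x * 0)) (h0 * (1 + x * 0)) := by
  have hx := h.x0
  have hh := h0_pos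
  have e1 : cc1 0 x = 1 / 2 := by
    unfold cc1
    rw [show 1 - 3 / 4 * (1 + x * 0) ^ 2 = (1 / 2 : ℝ) ^ 2 by ring]
    exact Real.sqrt_sq (by norm_num)
  have e2 : sg1 0 x = 0 := by
    unfold sg1
    rw [Rg.xi_zero1]
    ring
  have e3 : lv x 0 = 0 := by
    rw [lv_nonpos le_rfl]
    simp [xb_zero]
  have e4 : Fu x 0 (Co 0 x) = 1 / 2 := by
    unfold Fu rr
    rw [abs_zero, zero_div, dt_zero]
    ring
  have ht : Top x 1 0 := ⟨h.x0, h.s1, by norm_num, le_rfl, le_rfl, by norm_num⟩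
  have ez : (1 + x * 0 : ℝ) = 1 := by ring
  have d12 := h.rw.val1
  have d13 := top_val3 ht
  rw [ez, e2, mul_zero, e3, e4, e1] at d12
  rw [Ph_zero, zero_div, vf_zero, mul_zero, mul_one] at d13
  have d23 := d12.neg
  rw [neg_zero] at d23
  have d13' : Val x (1 / 2 + -(1 / 2)) (h0 * 1 + h0 * 1) 0 0 0 := by
    rw [show h0 * 1 + h0 * 1 = h0 * 2 by ring, add_neg_cancel]
    exact d13
  have d23' : Val x (1 / 2 + -(1 / 2) - 1 / 2) (h0 * 1) (-(1 / 2)) 0 0 := by
    rw [show (1 / 2 + -(1 / 2) - 1 / 2 : ℝ) = -(1 / 2) by ring]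
    exact d23
  have hex0 : exn (1 / 2) (1 / 2 + -(1 / 2)) (h0 * 1) (h0 * 1) = 0 := by
    have := VW.exn_eq (w := 0) (v := 0) hx (1 / 2) (-(1 / 2))
    rw [ez] at this
    rw [this]
    ring
  rw [e1, ez]
  obtain ⟨⟨-, t1⟩, -, ⟨-, t3⟩⟩ := h.jt
  rw [ez, mul_zero, mul_zero] at t1
  have hK : ∀ y, 0 ≤ 0 + kf (kE (h0 * x)) (h0 * x) (1 / 2, -(1 / 2), 0) (h0 * 1) (h0 * 1) y := by
    intro y
    have m : ∀ A : ℝ, mn (Line.D (h0 * x) (kE (h0 * x))) A A =
        Line.D (h0 * x) (kE (h0 * x)) A := fun A => by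
      unfold mn
      simp
    have hsh : Line.D (h0 * x) (kE (h0 * x)) (y + h0 * 1) =
        Line.D (h0 * x) (kE (h0 * x)) y := by
      have := D_add_nat (h0 * x) (kE (h0 * x)) y 1
      rw [mul_one]
      simpa using this
    unfold kf
    simp only
    rw [t1, add_zero, add_zero, m, m, hsh, zero_mul]
    linarith
  refine v_fin V hx h.s1 d12 d23' d13' hK ?_ ?_
  · rw [hex0]
    simp
  · rw [hex0]
    simp

/-- The lower of the two sides points upwards first. -/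
theorem VW.ok (V : Vx) (h : VW x w v) {α β : ℝ} (a1 : cc1 w x ≤ α) (a3 : α ≤ cc3 w x)
    (b1 : cc1 v x ≤ β) (b3 : β ≤ cc3 v x)
    (c1 : |α + -β| ≤ LC.c3 (h0 * (1 + x * w) + h0 * (1 + x * v)))
    (hex : exn α (α + -β) (h0 * (1 + x * w)) (h0 * (1 + x * v)) ≤ 101 / 2000) :
    OKV V (h0 * x) α (α + -β) (h0 * (1 + x * w)) (h0 * (1 + x * v)) := by
  have hx := h.x0
  obtain ⟨τ, ht⟩ := h.top
  have eT : h0 * (1 + x * w) + h0 * (1 + x * v) = h0 * (2 * (1 + x * (w + v) / 2)) := by ring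
  rw [eT, ht.c3] at c1
  obtain ⟨f1, f2, f3, -, -⟩ := h.ab
  have m1 := mul_nonneg f1 (sub_nonneg.2 a1)
  have m2 := mul_nonneg (f1.trans f2) (sub_nonneg.2 b1)
  obtain ⟨c2, c3⟩ := abs_le.1 c1
  have q0 : 0 ≤ cc1 v x := Real.sqrt_nonneg _
  have hqp : cc1 w x ≤ cc1 v x := by
    have e1 := cc1_sq h.rv
    have e2 := cc1_sq h.rw
    refine abs_le_of_sq_le_sq' ?_ q0 |>.2
    nlinarith
  rw [VW.exn_eq hx] at hex
  rcases le_or_gt (2 / 3 * (cc1 v x - cc1 w x)) τ with h1 | h1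
  · refine h.move V ht le_rfl a1 a3 le_rfl b1 b3 ?_ c1 ?_
    · rw [abs_le]
      constructor <;> linarith [ht.t0]
    · rcases h.vn.lt_or_eq with hv | hv
      · refine h.vcc V hv ht h1 ?_
        rw [VW.exn_eq hx]
        linarith
      · have hw : w = 0 := by
          have := h.vw
          have := h.u1
          linarith
        subst hv hw
        exact lat_v V h
  · have hv : v < 0 := by
      rcases h.vn.lt_or_eq with hv | hv
      · exact hv
      · exfalso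
        have hw : w = 0 := by
          have := h.vw
          have := h.u1
          linarith
        subst hv hw
        have := ht.t0
        linarith
    have m3 := mul_nonneg f1 (by linarith : 0 ≤ α - (cc1 v x - 3 / 2 * τ))
    refine h.move V ht (α := cc1 v x - 3 / 2 * τ) (by linarith) (by linarith) a3 le_rfl b1 b3 ?_
      c1 ?_
    · rw [abs_le]
      constructor <;> linarith [ht.t0]
    · refine h.v3 V hv ht h1 ?_
      rw [VW.exn_eq hx]
      linarith

end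

section

variable {s X12 X13 t t' : ℝ}

/-- The vertical window, the lower side not longer. -/
theorem v_ok' {V : Vx} (hs : 0 < s) (hs1 : s ≤ 11 / 400) (h : Tri X12 X13 t t') (ht : t' ≤ t)
    (w1 : |t - h0| ≤ 8 * s) (w2 : |t' - h0| ≤ 8 * s) (w3 : |t + t' - 2 * h0| ≤ 8 * s)
    (w4 : t ≤ 28 / 25 * h0)
    (hex : exn X12 X13 t t' ≤ 101 / 2000) : OKV V s X12 X13 t t' := by
  have hh := h0_pos
  have g1 := h0_gt
  have g2 := h0_lt
  have hq := h0_sq'
  obtain ⟨a, b⟩ := abs_le.1 w1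
  obtain ⟨c, d⟩ := abs_le.1 w2
  obtain ⟨e, f⟩ := abs_le.1 w3
  obtain ⟨x, hx⟩ : ∃ x, x = s / h0 := ⟨_, rfl⟩
  obtain ⟨w, hw⟩ : ∃ w, w = (t - h0) / s := ⟨_, rfl⟩
  obtain ⟨v, hv⟩ : ∃ v, v = (t' - h0) / s := ⟨_, rfl⟩
  have es : s = h0 * x := by
    rw [hx]
    field_simp
  have et : t = h0 * (1 + x * w) := by
    rw [hw, hx]
    field_simp
    ring
  have et' : t' = h0 * (1 + x * v) := by
    rw [hv, hx]
    field_simp
    ring
  have x0 : 0 < x := by
    rw [hx]
    positivity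
  have hT2 : t + t' ≤ 2 * h0 := by
    have h3 := h.c3
    have : 0 ≤ t + t' := add_nonneg h.t0 h.t1
    by_contra hc
    push Not at hc
    nlinarith [sq_nonneg X13]
  have hW : VW x w v := by
    refine ⟨x0, by rw [← es]; exact hs1, ?_, ?_, ?_, ?_, ?_⟩
    · rw [hv, hw]
      exact div_le_div_of_nonneg_right (by linarith) hs.le
    · rw [hv, le_div_iff₀ hs]
      linarith
    · rw [hv, hw, ← add_div, le_div_iff₀ hs]
      linarith
    · rw [hv, hw, ← add_div, div_le_iff₀ hs]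
      linarith
    · have : h0 * (x * w) ≤ h0 * (3 / 25) := by linarith
      exact le_of_mul_le_mul_left this hh
  -- the abscissas
  have hT : 0 ≤ t + t' := add_nonneg h.t0 h.t1
  have p1 := abs_c1 h.t0 h.a1
  have p2 := abs_c3 h.a3
  have p3 := abs_c1 h.t1 h.b1
  have p4 := abs_c3 h.b3
  have p6 := abs_c3 h.c3
  have r1 := hW.rw.c1_pos
  have r2 := hW.rv.c1_dn hW.vn
  rw [← et] at r1
  rw [← et'] at r2
  have t0 : 0 < t := by
    rw [et]
    linarith [hW.rw.T_gt]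
  have t0' : 0 < t' := by
    rw [et']
    linarith [hW.rv.T_gt]
  have hcr := h.cr
  have ecr : X12 * (t + t') - X13 * t = X12 * t' - (X13 - X12) * t := by ring
  rw [ecr] at hcr
  have hlo : h0 * (93 / 125) ≤ t' := by
    rw [et']
    exact mul_le_mul_of_nonneg_left (by linarith [hW.rv.a]) hh.le
  have hlo2 : h0 * (218 / 125) ≤ t + t' := by
    have k := hW.xu.1
    have k2 := mul_le_mul_of_nonneg_left k hh.le
    rw [et, et']
    linarith
  -- the two sides do not point in the same direction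
  have hopp : X12 * (X13 - X12) < 0 := by
    by_contra hc
    push Not at hc
    have k1 := h.a1
    have k2 := h.b1
    have k3 := h.c3
    have k4 : 1 < 2 * (t * t') := by
      have u1 : (t' - h0 * (93 / 125)) * (t + t' - h0 * (218 / 125)) ≥ 0 :=
        mul_nonneg (by linarith) (by linarith)
      have u2 : 0 ≤ (t' - h0 * (93 / 125)) * (t - t') := mul_nonneg (by linarith) (by linarith)
      nlinarith
    nlinarith
  have hX12 : 0 < X12 := by
    by_contra hc
    push Not at hc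
    have k1 : 0 < X13 - X12 := by
      by_contra hc2
      push Not at hc2
      have := mul_nonneg_of_nonpos_of_nonpos hc hc2
      linarith
    have k2 : X12 * t' ≤ 0 := mul_nonpos_of_nonpos_of_nonneg hc t0'.le
    have k3 := mul_pos k1 t0
    linarith
  have hX23 : X13 - X12 < 0 := by
    by_contra hc
    push Not at hc
    have := mul_nonneg hX12.le hc
    linarith
  rw [abs_of_pos hX12] at p1 p2
  rw [abs_of_neg hX23] at p3 p4
  have eX : X13 = X12 + -(X12 - X13) := by ring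
  rw [es, eX, et, et']
  refine hW.ok V ?_ ?_ ?_ ?_ ?_ ?_
  · rw [← c1_h1, ← et]
    exact p1
  · rw [← c3_h1, ← et]
    exact p2
  · rw [← c1_h1, ← et']
    linarith
  · rw [← c3_h1, ← et']
    linarith
  · rw [← eX, ← et, ← et']
    exact p6
  · rw [← eX, ← et, ← et']
    exact hex

/-- **The vertical window.** -/
theorem v_ok {V : Vx} (hs : 0 < s) (hs1 : s ≤ 11 / 400) (h : Tri X12 X13 t t')
    (w1 : |t - h0| ≤ 8 * s) (w2 : |t' - h0| ≤ 8 * s) (w3 : |t + t' - 2 * h0| ≤ 8 * s)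
    (w4 : t ≤ 28 / 25 * h0) (w5 : t' ≤ 28 / 25 * h0)
    (hex : exn X12 X13 t t' ≤ 101 / 2000) : OKV V s X12 X13 t t' := by
  have g1 := h0_gt
  rcases le_total t' t with ht | ht
  · exact v_ok' hs hs1 h ht w1 w2 w3 w4 hex
  · refine okv_mir V hs.le (by linarith) ?_
    refine v_ok' hs hs1 h.mir ht w2 w1 (by rwa [add_comm]) w5 ?_
    have e : exn (X12 - X13) (-X13) t' t = exn X12 X13 t t' := by
      unfold exn
      ring
    rw [e]
    exact hex

end

end Pool.Agent.Strip051.LC.E0
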