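import Pool.Agent.Strip051.LC.E0.VwG

/-! # Small rests: the kernel right of the unit circle above `h0` -/

namespace Pool.Agent.Strip051.LC.E0

open Pool.Agent.StripNear Pool.Agent.StripSquare Pool.Agent.Strip051 Pool.Agent.Strip051.Sweep
open Pool.Agent.Strip051.LC.Line
open G

section

variable {x z : ℝ}

theorem pq_bd (hx : 0 < x) (hx1 : x ≤ 4 / 125) : 0 ≤ pq x ∧ pq x ≤ 2 / 5 := by
  have g0 := gs_pos hx.le (by linarith)
  have g2 := gs_sq hx.le (by linarith)
  have g3 : 999 / 1000 ≤ gs x := by nlinarith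
  have e0 : 119 / 250 ≤ ep x := by
    unfold ep
    have := mul_le_mul_of_nonneg_left (ic_le (x := x)) hx.le
    linarith
  have k1 : 999 / 1000 * (1999 / 1000) ≤ gs x * (1 + gs x) :=
    mul_le_mul g3 (by linarith) (by norm_num) g0.le
  have k2 : 999 / 1000 * (1999 / 1000) * (119 / 250) ≤ gs x * (1 + gs x) * ep x :=
    mul_le_mul k1 e0 (by norm_num) (by positivity)
  unfold pq
  constructor
  · refine div_nonneg (by norm_num) (by linarith)
  · rw [div_le_iff₀ (by linarith)]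
    linarith

theorem pu_bd (hx : 0 < x) (hs : h0 * x ≤ 11 / 400) : 0 ≤ pu x ∧ pu x ≤ 1 := by
  have hx1 := x_le hx hs
  have r : Rg x 1 := ⟨hx, hx1, by linarith, by linarith⟩
  obtain ⟨p0, p1⟩ := pq_bd hx hx1
  have u1 := r.xi1_up zero_le_one
  have hw0 : -(1 / 80) ≤ xiw 1 x := by
    have := r.om_le
    have k := mul_le_mul hx1 this (om_nonneg 1 x) (by norm_num)
    unfold xiw
    linarith
  have hw1 := xiw_nonpos (z := 1) hx.le
  have hc : 44 / 100 ≤ cc1 1 x := by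
    unfold cc1
    refine Real.le_sqrt_of_sq_le ?_
    nlinarith
  have hxi : -xi1 1 x ≤ 2 := by
    unfold xi1
    rw [neg_neg, div_le_iff₀ (by linarith)]
    linarith
  obtain ⟨σ, hσ⟩ : ∃ σ, σ = sg1 1 x := ⟨_, rfl⟩
  have eσ : σ = 1 / 2 - xi1 1 x := by
    rw [hσ]
    unfold sg1
    ring
  have hd : dt σ = 127 / 200 * σ - 523 / 2000 := dt_p3 (by linarith) (by linarith)
  have ek : k1p 1 x = -(dt σ / 2) - 3 / 4 * σ * (1 - x * dt σ) / (1 + Co 1 x) := by
    unfold k1p k1 Co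
    rw [← hσ]
  have hCo : 97 / 100 ≤ Co 1 x := by
    unfold Co
    linarith
  have hfac : 0 ≤ 1 - x * dt σ ∧ 1 - x * dt σ ≤ 1 := by
    rw [hd]
    have h1 : 0 ≤ x * (127 / 200 * σ - 523 / 2000) := mul_nonneg hx.le (by linarith)
    have h2 : x * (127 / 200 * σ - 523 / 2000) ≤ 4 / 125 * 2 :=
      mul_le_mul hx1 (by linarith) (by linarith) (by norm_num)
    constructor <;> linarith
  have q0 : 0 ≤ 3 / 4 * σ * (1 - x * dt σ) / (1 + Co 1 x) := by
    have : 0 ≤ σ := by linarith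
    have := hfac.1
    positivity
  have q1 : 3 / 4 * σ * (1 - x * dt σ) / (1 + Co 1 x) ≤ 383 / 1000 * σ := by
    rw [div_le_iff₀ (by linarith)]
    have h1 : 3 / 4 * σ * (1 - x * dt σ) ≤ 3 / 4 * σ * 1 :=
      mul_le_mul_of_nonneg_left hfac.2 (by linarith)
    have h2 : 383 / 1000 * σ * (197 / 100) ≤ 383 / 1000 * σ * (1 + Co 1 x) :=
      mul_le_mul_of_nonneg_left (by linarith) (by linarith)
    linarith
  have g0 : 0 < xiw 1 x - xi1 1 x := by linarith
  unfold pu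
  rw [ek, hd]
  constructor
  · refine div_nonneg ?_ g0.le
    rw [hd] at q0
    linarith
  · rw [div_le_one g0]
    rw [hd] at q1
    linarith

theorem su_bd (hx : 0 < x) (hs : h0 * x ≤ 11 / 400) (hz : 0 ≤ z) : 0 ≤ su z x ∧ su z x ≤ 1 := by
  obtain ⟨a, b⟩ := pu_bd hx hs
  obtain ⟨c, d⟩ := sqrt3_bd
  unfold su
  simp only [cse_sub]
  split_ifs with h1 h2
  · constructor
    · have := mul_nonneg a hz
      nlinarith
    · have := mul_le_mul_of_nonneg_right b hz
      nlinarith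
  · exact ⟨a, b⟩
  · constructor <;> linarith

/-- **Right of the unit circle.** -/
theorem Rg.up_val (h : Rg x z) (hs : h0 * x ≤ 11 / 400) (hz : 0 < z) {α : ℝ}
    (h1 : cc1 z x ≤ α) (h2 : α ≤ 317 / 500) :
    ∃ k c r, Val x α (h0 * (1 + x * z)) k c r ∧ 0 ≤ k - Fu x (x * sg1 z x) (Co z x) ∧
      k - Fu x (x * sg1 z x) (Co z x) ≤ α - cc1 z x ∧ x * |r| ≤ 10 / 7 * (α - cc1 z x) ∧
      |x ^ 2 * c - x ^ 2 * lv x (sg1 z x)| ≤ 1 / 20 * (α - cc1 z x) := by
  have hx := h.x0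
  have hh := h0_pos
  have hc : cc1 z x = 1 / 2 + x * xi1 z x := cc1_eq h.y
  obtain ⟨ξ, hξ⟩ : ∃ ξ, ξ = (α - 1 / 2) / x := ⟨_, rfl⟩
  have eα : 1 / 2 + x * ξ = α := by
    rw [hξ]
    field_simp
    ring
  obtain ⟨s0, s1⟩ := su_bd hx hs hz.le
  obtain ⟨ru, -⟩ := rw_bd hx hs
  obtain ⟨g0, g1⟩ := gh_lin hz.le
  have gap := h.gap1 hz.le
  have v1 := h.val1
  have F1 : Fu x (x * sg1 z x) (Co z x) = 1 / 2 + x * k1p z x := by
    have k := (h.dat0_up hz.le).a
    have k2 := v1.ka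
    rw [hc] at k2
    rw [k] at k2
    exact k2.symm
  have hξ1 : xi1 z x ≤ ξ := by
    refine le_of_mul_le_mul_left ?_ hx
    linarith
  have ed : α - cc1 z x = x * (ξ - xi1 z x) := by
    rw [← eα, hc]
    ring
  have lip : ∀ {c k r : ℝ}, Val x α (h0 * (1 + x * z)) k c r →
      |x ^ 2 * c - x ^ 2 * lv x (sg1 z x)| ≤ 1 / 20 * (α - cc1 z x) := by
    intro c k r hv
    have k1 := ker_lip (adm_vX par _) h.T0 h.T3.le (h.sbX hs) (X := cc1 z x) (X' := α)
      (by rw [c1_h1]) h1 (h2.trans ?_)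
    · rw [hv.kc, v1.kc] at k1
      exact k1
    · have := (h.b_bd hz.le).1
      have m2 : pos.cv 2 (h0 * (1 + x * z)) ≤ pos.cv 3 (h0 * (1 + x * z)) :=
        pos.cv_mono h.T0 h.T3.le (by decide)
      rw [cv_three] at m2
      linarith
  rw [F1, ed]
  have hd0 : 0 ≤ x * (ξ - xi1 z x) := mul_nonneg hx.le (by linarith)
  rcases le_total ξ (xiw z x) with h3 | h3
  · have d := (h.seg0_up hz.le hξ1 h3).val
    rw [eα] at d
    refine ⟨_, _, _, d, ?_, ?_, ?_, ?_⟩
    · have := mul_nonneg s0 hd0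
      linarith
    · have := mul_le_mul_of_nonneg_right s1 hd0
      linarith
    · obtain ⟨ρ, hρ⟩ : ∃ ρ, ρ = (ξ - xi1 z x) / (xiw z x - xi1 z x) := ⟨_, rfl⟩
      have gp : 0 < xiw z x - xi1 z x := by linarith
      have eρ : ρ * (xiw z x - xi1 z x) = ξ - xi1 z x := by
        rw [hρ, div_mul_cancel₀ _ gp.ne']
      have ρ0 : 0 ≤ ρ := by
        rw [hρ]
        exact div_nonneg (by linarith) gp.le
      rw [← hρ, abs_mul, abs_mul, abs_of_nonneg g0, abs_of_nonneg ρ0]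
      have k1 : |rwu x| * gh z ≤ 2 * z := mul_le_mul ru g1 g0 (by norm_num)
      have k2 : |rwu x| * gh z * ρ ≤ 2 * z * ρ := mul_le_mul_of_nonneg_right k1 ρ0
      have k3 : 7 / 5 * z * ρ ≤ (xiw z x - xi1 z x) * ρ := mul_le_mul_of_nonneg_right gap ρ0
      have k4 : |rwu x| * gh z * ρ ≤ 10 / 7 * (ξ - xi1 z x) := by linarith
      have := mul_le_mul_of_nonneg_left k4 hx.le
      linarith
    · have := lip d
      rwa [ed] at this
  · have hb := (h.b_bd hz.le).1
    have eb : pos.cv 2 (h0 * (1 + x * z)) = 1 / 2 + x * xiw z x + 3 / 20 * dwu z x := by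
      rw [cv_two_high (h.ge_h0 hz.le), h.W_up hz.le, h.c3]
      unfold dwu
      ring
    have d := (h.seg1_up hz.le h3 (by rw [eb] at hb; linarith)).val
    rw [eα] at d
    have hq : 0 ≤ x * (xiw z x - xi1 z x) := mul_nonneg hx.le (by linarith)
    have hq2 : 0 ≤ x * (ξ - xiw z x) := mul_nonneg hx.le (by linarith)
    refine ⟨_, _, _, d, ?_, ?_, ?_, ?_⟩
    · unfold kwu
      have := mul_nonneg s0 hq
      linarith
    · unfold kwu
      have := mul_le_mul_of_nonneg_right s1 hq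
      linarith
    · rw [abs_mul, abs_of_nonneg g0]
      have k1 : |rwu x| * gh z ≤ 2 * z := mul_le_mul ru g1 g0 (by norm_num)
      have k2 : |rwu x| * gh z ≤ 10 / 7 * (ξ - xi1 z x) := by linarith
      have := mul_le_mul_of_nonneg_left k2 hx.le
      linarith
    · have := lip d
      rwa [ed] at this

end

end Pool.Agent.Strip051.LC.E0
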