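import Pool.Agent.Strip051.LC.E0.ClF

/-! # Small rests: the level table of a long vertical side -/

namespace Pool.Agent.Strip051.LC.E0

open Pool.Agent.StripNear Pool.Agent.StripSquare Pool.Agent.Strip051 Pool.Agent.Strip051.Sweep
open Pool.Agent.Strip051.LC.Line
open G

/-- The level of a long vertical side at the angle `x v`. -/
noncomputable def vf (x v : ℝ) : ℝ := 2 * xb (v / 2) - xa v x

section

variable {x : ℝ}

theorem vf_p1 {v : ℝ} (h : v ≤ 1) : vf x v = v * (181 / 500 + 209 / 2000 * v) - q1 v x := by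
  unfold vf
  rw [xb_p1 (by linarith), xa_p1 h]
  ring

theorem vf_p2 {v : ℝ} (h : 1 ≤ v) (h' : v ≤ 3 / 2) :
    vf x v = v * (181 / 500 + 209 / 2000 * v) - (ch x + mm x * (v - 1)) := by
  unfold vf
  rw [xb_p1 (by linarith), xa_p2 h h']
  ring

theorem vf_p3 {v : ℝ} (h : 3 / 2 ≤ v) (h' : v ≤ 2) :
    vf x v = v * (181 / 500 + 209 / 2000 * v) -
      (ch x + mm x / 2 + (957 / 1000 - (ch x + mm x / 2)) * (v - 3 / 2)) := by
  unfold vf
  rw [xb_p1 (by linarith), xa_p3 h (by linarith)]
  ring

theorem vf_p4 {v : ℝ} (h : 2 ≤ v) (h' : v ≤ 5 / 2) :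
    vf x v = 571 / 750 * (5 / 2 - v / 2) -
      (ch x + mm x / 2 + (957 / 1000 - (ch x + mm x / 2)) * (v - 3 / 2)) := by
  unfold vf
  rw [xb_p2 (by linarith) (by linarith), xa_p3 (by linarith) h']
  ring

theorem vf_p5 {v : ℝ} (h : 5 / 2 ≤ v) (h' : v ≤ 4) :
    vf x v = 571 / 750 * (5 / 2 - v / 2) - 319 / 125 * (1 - v / 4) := by
  unfold vf
  rw [xb_p2 (by linarith) (by linarith), xa_p4 h h']
  ring

theorem vf_p6 {v : ℝ} (h : 4 ≤ v) (h' : v ≤ 5) : vf x v = 571 / 750 * (5 / 2 - v / 2) := by
  unfold vf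
  rw [xb_p2 (by linarith) (by linarith), xa_p5 h]
  ring

theorem vf_p7 {v : ℝ} (h : 5 ≤ v) : vf x v = 0 := by
  unfold vf
  rw [xb_p3 (by linarith), xa_p5 (by linarith)]
  ring

theorem vf_zero : vf x 0 = 0 := by
  rw [vf_p1 zero_le_one, q1_zero]
  ring

/-- All slopes. -/
theorem vf_sl (hx : 0 < x) (hs : h0 * x ≤ 11 / 400) :
    Sr (vf x) (-(79 / 100)) (43 / 100) 0 := by
  obtain ⟨a, b⟩ := ch_bd hx hs
  obtain ⟨c, d⟩ := mm_bd hx hs
  refine Sl.glueR (b := 1) ?_ (Sl.glueR (b := 3 / 2) ?_ (Sl.glueR (b := 2) ?_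
    (Sl.glueR (b := 5 / 2) ?_ (Sl.glueR (b := 4) ?_ (Sl.glueR (b := 5) ?_ ?_)))))
  · intro u v hu huv hv
    rw [vf_p1 hv, vf_p1 (huv.trans hv)]
    have h1 : 0 ≤ v - u := by linarith
    have e : v * (181 / 500 + 209 / 2000 * v) - q1 v x -
        (u * (181 / 500 + 209 / 2000 * u) - q1 u x) =
        (181 / 500 - (2 * ch x - mm x) + (209 / 2000 - (mm x - ch x)) * (u + v)) * (v - u) := by
      unfold q1
      ring
    rw [e]
    have k1 : 0 ≤ (209 / 2000 - (mm x - ch x)) * (u + v) := mul_nonneg (by linarith) (by linarith)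
    have k2 : (209 / 2000 - (mm x - ch x)) * (u + v) ≤ (209 / 2000 - (mm x - ch x)) * 2 :=
      mul_le_mul_of_nonneg_left (by linarith) (by linarith)
    constructor
    · exact mul_le_mul_of_nonneg_right (by linarith) h1
    · exact mul_le_mul_of_nonneg_right (by linarith) h1
  · intro u v hu huv hv
    rw [vf_p2 (hu.trans huv) hv, vf_p2 hu (huv.trans hv)]
    have h1 : 0 ≤ v - u := by linarith
    have e : v * (181 / 500 + 209 / 2000 * v) - (ch x + mm x * (v - 1)) -
        (u * (181 / 500 + 209 / 2000 * u) - (ch x + mm x * (u - 1))) =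
        (181 / 500 + 209 / 2000 * (u + v) - mm x) * (v - u) := by ring
    rw [e]
    constructor
    · exact mul_le_mul_of_nonneg_right (by linarith) h1
    · exact mul_le_mul_of_nonneg_right (by linarith) h1
  · intro u v hu huv hv
    rw [vf_p3 (hu.trans huv) hv, vf_p3 hu (huv.trans hv)]
    have h1 : 0 ≤ v - u := by linarith
    have e : v * (181 / 500 + 209 / 2000 * v) -
        (ch x + mm x / 2 + (957 / 1000 - (ch x + mm x / 2)) * (v - 3 / 2)) -
        (u * (181 / 500 + 209 / 2000 * u) -
        (ch x + mm x / 2 + (957 / 1000 - (ch x + mm x / 2)) * (u - 3 / 2))) =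
        (181 / 500 + 209 / 2000 * (u + v) - (957 / 1000 - (ch x + mm x / 2))) * (v - u) := by ring
    rw [e]
    constructor
    · exact mul_le_mul_of_nonneg_right (by linarith) h1
    · exact mul_le_mul_of_nonneg_right (by linarith) h1
  · intro u v hu huv hv
    rw [vf_p4 (hu.trans huv) hv, vf_p4 hu (huv.trans hv)]
    have h1 : 0 ≤ v - u := by linarith
    have e : 571 / 750 * (5 / 2 - v / 2) -
        (ch x + mm x / 2 + (957 / 1000 - (ch x + mm x / 2)) * (v - 3 / 2)) -
        (571 / 750 * (5 / 2 - u / 2) -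
        (ch x + mm x / 2 + (957 / 1000 - (ch x + mm x / 2)) * (u - 3 / 2))) =
        (-(571 / 1500) - (957 / 1000 - (ch x + mm x / 2))) * (v - u) := by ring
    rw [e]
    constructor
    · exact mul_le_mul_of_nonneg_right (by linarith) h1
    · exact mul_le_mul_of_nonneg_right (by linarith) h1
  · intro u v hu huv hv
    rw [vf_p5 (hu.trans huv) hv, vf_p5 hu (huv.trans hv)]
    constructor <;> linarith
  · intro u v hu huv hv
    rw [vf_p6 (hu.trans huv) hv, vf_p6 hu (huv.trans hv)]
    constructor <;> linarith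
  · intro u v hu huv
    rw [vf_p7 (hu.trans huv), vf_p7 hu]
    constructor <;> linarith

/-- The curved part has small slopes below `2`. -/
theorem vf_sl2 (hx : 0 < x) (hs : h0 * x ≤ 11 / 400) {m : ℝ} (hm : m ≤ 2) :
    Sl (fun v => vf x v - (181 / 500 - (2 * ch x - mm x)) * v) 0 (209 / 1000 * m) 0 m := by
  obtain ⟨a, b⟩ := ch_bd hx hs
  obtain ⟨c, d⟩ := mm_bd hx hs
  -- on every piece the slope is at most `209 / 2000` times the sum
  have key : ∀ u v : ℝ, 0 ≤ u → u ≤ v → v ≤ 2 →
      0 ≤ vf x v - (181 / 500 - (2 * ch x - mm x)) * v -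
        (vf x u - (181 / 500 - (2 * ch x - mm x)) * u) ∧
      vf x v - (181 / 500 - (2 * ch x - mm x)) * v -
        (vf x u - (181 / 500 - (2 * ch x - mm x)) * u) ≤ 209 / 2000 * (v ^ 2 - u ^ 2) := by
    have g1 : ∀ u v : ℝ, 0 ≤ u → u ≤ v → v ≤ 1 →
        0 ≤ vf x v - (181 / 500 - (2 * ch x - mm x)) * v -
          (vf x u - (181 / 500 - (2 * ch x - mm x)) * u) ∧
        vf x v - (181 / 500 - (2 * ch x - mm x)) * v -
          (vf x u - (181 / 500 - (2 * ch x - mm x)) * u) ≤ 209 / 2000 * (v ^ 2 - u ^ 2) := by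
      intro u v hu huv hv
      rw [vf_p1 hv, vf_p1 (huv.trans hv)]
      have h1 : 0 ≤ (v - u) * (u + v) := mul_nonneg (by linarith) (by linarith)
      have e : v * (181 / 500 + 209 / 2000 * v) - q1 v x -
          (181 / 500 - (2 * ch x - mm x)) * v -
          (u * (181 / 500 + 209 / 2000 * u) - q1 u x - (181 / 500 - (2 * ch x - mm x)) * u) =
          (209 / 2000 - (mm x - ch x)) * ((v - u) * (u + v)) := by
        unfold q1
        ring
      rw [e]
      constructor
      · exact mul_nonneg (by linarith) h1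
      · have := mul_nonneg (by linarith : 0 ≤ mm x - ch x) h1
        nlinarith
    have g2 : ∀ u v : ℝ, 1 ≤ u → u ≤ v → v ≤ 3 / 2 →
        0 ≤ vf x v - (181 / 500 - (2 * ch x - mm x)) * v -
          (vf x u - (181 / 500 - (2 * ch x - mm x)) * u) ∧
        vf x v - (181 / 500 - (2 * ch x - mm x)) * v -
          (vf x u - (181 / 500 - (2 * ch x - mm x)) * u) ≤ 209 / 2000 * (v ^ 2 - u ^ 2) := by
      intro u v hu huv hv
      rw [vf_p2 (hu.trans huv) hv, vf_p2 hu (huv.trans hv)]
      have h1 : 0 ≤ v - u := by linarith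
      have e : v * (181 / 500 + 209 / 2000 * v) - (ch x + mm x * (v - 1)) -
          (181 / 500 - (2 * ch x - mm x)) * v -
          (u * (181 / 500 + 209 / 2000 * u) - (ch x + mm x * (u - 1)) -
          (181 / 500 - (2 * ch x - mm x)) * u) =
          (209 / 2000 * (u + v) + 2 * (ch x - mm x)) * (v - u) := by ring
      rw [e]
      constructor
      · exact mul_nonneg (by linarith) h1
      · have e2 : 209 / 2000 * (v ^ 2 - u ^ 2) = 209 / 2000 * (u + v) * (v - u) := by ring
        rw [e2]
        exact mul_le_mul_of_nonneg_right (by linarith) h1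
    have g3 : ∀ u v : ℝ, 3 / 2 ≤ u → u ≤ v → v ≤ 2 →
        0 ≤ vf x v - (181 / 500 - (2 * ch x - mm x)) * v -
          (vf x u - (181 / 500 - (2 * ch x - mm x)) * u) ∧
        vf x v - (181 / 500 - (2 * ch x - mm x)) * v -
          (vf x u - (181 / 500 - (2 * ch x - mm x)) * u) ≤ 209 / 2000 * (v ^ 2 - u ^ 2) := by
      intro u v hu huv hv
      rw [vf_p3 (hu.trans huv) hv, vf_p3 hu (huv.trans hv)]
      have h1 : 0 ≤ v - u := by linarith
      have e : v * (181 / 500 + 209 / 2000 * v) -
          (ch x + mm x / 2 + (957 / 1000 - (ch x + mm x / 2)) * (v - 3 / 2)) -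
          (181 / 500 - (2 * ch x - mm x)) * v -
          (u * (181 / 500 + 209 / 2000 * u) -
          (ch x + mm x / 2 + (957 / 1000 - (ch x + mm x / 2)) * (u - 3 / 2)) -
          (181 / 500 - (2 * ch x - mm x)) * u) =
          (209 / 2000 * (u + v) + (3 * ch x - mm x / 2 - 957 / 1000)) * (v - u) := by ring
      rw [e]
      constructor
      · exact mul_nonneg (by linarith) h1
      · have e2 : 209 / 2000 * (v ^ 2 - u ^ 2) = 209 / 2000 * (u + v) * (v - u) := by ring
        rw [e2]
        exact mul_le_mul_of_nonneg_right (by linarith) h1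
    intro u v hu huv hv
    rcases le_total v 1 with h1 | h1
    · exact g1 u v hu huv h1
    rcases le_total v (3 / 2) with h2 | h2
    · rcases le_total u 1 with h3 | h3
      · have p := g1 u 1 hu h3 le_rfl
        have q := g2 1 v le_rfl h1 h2
        constructor <;> linarith [p.1, p.2, q.1, q.2]
      · exact g2 u v h3 huv h2
    · rcases le_total u 1 with h3 | h3
      · have p := g1 u 1 hu h3 le_rfl
        have q := g2 1 (3 / 2) le_rfl (by norm_num) le_rfl
        have r := g3 (3 / 2) v le_rfl h2 hv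
        constructor <;> linarith [p.1, p.2, q.1, q.2, r.1, r.2]
      · rcases le_total u (3 / 2) with h4 | h4
        · have q := g2 u (3 / 2) h3 h4 le_rfl
          have r := g3 (3 / 2) v le_rfl h2 hv
          constructor <;> linarith [q.1, q.2, r.1, r.2]
        · exact g3 u v h4 huv hv
  intro u v hu huv hv
  obtain ⟨p, q⟩ := key u v hu huv (hv.trans hm)
  refine ⟨by simpa using p, q.trans ?_⟩
  have h1 : 0 ≤ v - u := by linarith
  have e2 : 209 / 2000 * (v ^ 2 - u ^ 2) = 209 / 2000 * (u + v) * (v - u) := by ring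
  rw [e2]
  exact mul_le_mul_of_nonneg_right (by linarith) h1

/-- The range. -/
theorem vf_rg (hx : 0 < x) (hs : h0 * x ≤ 11 / 400) {v : ℝ} (hv : 0 ≤ v) :
    -(1 / 50) ≤ vf x v ∧ vf x v ≤ 39 / 100 := by
  obtain ⟨a, b⟩ := ch_bd hx hs
  obtain ⟨c, d⟩ := mm_bd hx hs
  rcases le_total v 1 with h1 | h1
  · rw [vf_p1 h1]
    unfold q1
    have h2 : v ^ 2 ≤ v := by nlinarith
    have e : v * (181 / 500 + 209 / 2000 * v) - v * (2 * ch x - mm x + (mm x - ch x) * v) =
        (181 / 500 - (2 * ch x - mm x)) * v + (209 / 2000 - (mm x - ch x)) * v ^ 2 := by ring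
    rw [e]
    have k1 := mul_nonneg (by linarith : 0 ≤ 181 / 500 - (2 * ch x - mm x) + 1 / 50) hv
    have k2 := mul_nonneg (by linarith : 0 ≤ 209 / 2000 - (mm x - ch x)) (sq_nonneg v)
    have k3 := mul_nonneg (by linarith : 0 ≤ 1 / 10 - (181 / 500 - (2 * ch x - mm x))) hv
    have k4 := mul_nonneg (by linarith : 0 ≤ 11 / 100 - (209 / 2000 - (mm x - ch x)))
      (sq_nonneg v)
    constructor <;> linarith
  rcases le_total v (3 / 2) with h2 | h2
  · rw [vf_p2 h1 h2]
    have k1 := mul_nonneg (by linarith : 0 ≤ mm x - 3 / 8) (sub_nonneg.2 h1)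
    have k2 := mul_nonneg (by linarith : 0 ≤ 9 / 20 - mm x) (sub_nonneg.2 h1)
    have k3 := mul_nonneg (sub_nonneg.2 h1) (sub_nonneg.2 h2)
    constructor <;> nlinarith
  rcases le_total v 2 with h3 | h3
  · rw [vf_p3 h2 h3]
    have k1 := mul_nonneg (by linarith : 0 ≤ ch x + mm x / 2 - 111 / 200)
      (by linarith : 0 ≤ 5 / 2 - v)
    have k2 := mul_nonneg (by linarith : 0 ≤ 3 / 5 - (ch x + mm x / 2))
      (by linarith : 0 ≤ 5 / 2 - v)
    have k3 := mul_nonneg (sub_nonneg.2 h2) (sub_nonneg.2 h3)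
    constructor <;> nlinarith
  rcases le_total v (5 / 2) with h4 | h4
  · rw [vf_p4 h3 h4]
    have k1 := mul_nonneg (by linarith : 0 ≤ ch x + mm x / 2 - 111 / 200)
      (by linarith : 0 ≤ 5 / 2 - v)
    have k2 := mul_nonneg (by linarith : 0 ≤ 3 / 5 - (ch x + mm x / 2))
      (by linarith : 0 ≤ 5 / 2 - v)
    constructor <;> linarith
  rcases le_total v 4 with h5 | h5
  · rw [vf_p5 h4 h5]
    constructor <;> linarith
  rcases le_total v 5 with h6 | h6
  · rw [vf_p6 h5 h6]
    constructor <;> linarith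
  · rw [vf_p7 h6]
    constructor <;> norm_num

/-! ### Interpolation -/

/-- Interpolation at `0`, `p`, `q`. -/
noncomputable def itp (f : ℝ → ℝ) (p q v : ℝ) : ℝ :=
  if v ≤ p then f p * (v / p) else f p + (f q - f p) * ((v - p) / (q - p))

theorem itp_bd {f : ℝ → ℝ} {m M p q v : ℝ} (h : Sl f m M 0 q) (f0 : f 0 = 0) (p0 : 0 ≤ p)
    (pq : p < q) (v0 : 0 ≤ v) (vq : v ≤ q) : |itp f p q v - f v| ≤ (M - m) * (q - v) := by
  unfold itp
  split_ifs with hv
  · rcases p0.eq_or_lt with h1 | h1
    · have : v = 0 := le_antisymm (h1 ▸ hv) v0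
      rw [this, f0, zero_div, mul_zero, sub_zero, abs_zero, sub_zero]
      have k := h 0 q le_rfl (by linarith) le_rfl
      nlinarith [k.1, k.2]
    · have k := h 0 p le_rfl h1.le pq.le
      have k2 := h v p v0 hv pq.le
      have k3 := h v q v0 (by linarith) le_rfl
      rw [f0] at k
      obtain ⟨t, ht⟩ : ∃ t, t = f p / p := ⟨_, rfl⟩
      have e : f p = t * p := by
        rw [ht]
        field_simp
      have t0 : m ≤ t := by
        refine le_of_mul_le_mul_right (a := p) ?_ h1
        linarith [k.1]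
      have t1 : t ≤ M := by
        refine le_of_mul_le_mul_right (a := p) ?_ h1
        linarith [k.2]
      have e2 : f p * (v / p) = t * v := by
        rw [e]
        field_simp
      have hpv : 0 ≤ p - v := by linarith
      have mM : m ≤ M := t0.trans t1
      have k4 : (M - m) * (p - v) ≤ (M - m) * (q - v) :=
        mul_le_mul_of_nonneg_left (by linarith) (by linarith)
      have k5 := mul_le_mul_of_nonneg_right t0 hpv
      have k6 := mul_le_mul_of_nonneg_right t1 hpv
      rw [e2, abs_le]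
      constructor <;> linarith [k2.1, k2.2]
  · push Not at hv
    have hqp : 0 < q - p := by linarith
    obtain ⟨t, ht⟩ : ∃ t, t = (f q - f p) / (q - p) := ⟨_, rfl⟩
    have e : f q - f p = t * (q - p) := by
      rw [ht]
      field_simp
    have k := h p q p0 pq.le le_rfl
    have k2 := h v q v0 vq le_rfl
    have t0 : m ≤ t := by
      refine le_of_mul_le_mul_right (a := q - p) ?_ hqp
      linarith [k.1]
    have t1 : t ≤ M := by
      refine le_of_mul_le_mul_right (a := q - p) ?_ hqp
      linarith [k.2]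
    have e2 : (f q - f p) * ((v - p) / (q - p)) = t * (v - p) := by
      rw [e]
      field_simp
    have hqv : 0 ≤ q - v := by linarith
    have k5 := mul_le_mul_of_nonneg_right t0 hqv
    have k6 := mul_le_mul_of_nonneg_right t1 hqv
    rw [e2, abs_le]
    constructor <;> linarith [k2.1, k2.2]

/-- The range of the interpolation. -/
theorem itp_rg (hx : 0 < x) (hs : h0 * x ≤ 11 / 400) {p q v : ℝ} (p0 : 0 ≤ p) (pq : p < q)
    (v0 : 0 ≤ v) (vq : v ≤ q) : |itp (vf x) p q v| ≤ 2 / 5 := by
  obtain ⟨a1, b1⟩ := vf_rg hx hs p0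
  obtain ⟨a2, b2⟩ := vf_rg hx hs (p0.trans pq.le)
  have key : -(1 / 50) ≤ itp (vf x) p q v ∧ itp (vf x) p q v ≤ 39 / 100 := by
    unfold itp
    split_ifs with hv
    · have t0 : 0 ≤ v / p := div_nonneg v0 p0
      have t1 : v / p ≤ 1 := by
        rcases p0.eq_or_lt with h1 | h1
        · rw [← h1, div_zero]
          exact zero_le_one
        · rw [div_le_one h1]
          exact hv
      have := pl_between (y0 := 0) (y1 := vf x p) t0 t1 (by norm_num : -(1 / 50) ≤ (0 : ℝ)) a1
        (by norm_num : (0 : ℝ) ≤ 39 / 100) b1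
      simpa using this
    · push Not at hv
      have hqp : 0 < q - p := by linarith
      exact pl_between (div_nonneg (by linarith) hqp.le)
        ((div_le_one hqp).2 (by linarith)) a1 a2 b1 b2
  rw [abs_le]
  constructor <;> linarith [key.1, key.2]

/-- The interpolation of the level. -/
theorem itp_vf (hx : 0 < x) (hs : h0 * x ≤ 11 / 400) {p q v : ℝ} (p0 : 0 ≤ p) (pq : p < q)
    (v0 : 0 ≤ v) (vq : v ≤ q) : |itp (vf x) p q v - vf x v| ≤ 7 / 20 * (q ^ 2 - v ^ 2) := by
  have hqv : 0 ≤ q - v := by linarith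
  have q0 : 0 < q := by linarith
  rcases le_total q 2 with h2 | h2
  · have k := itp_bd (vf_sl2 hx hs h2) (by rw [vf_zero]; ring) p0 pq v0 vq
    have e : itp (fun v => vf x v - (181 / 500 - (2 * ch x - mm x)) * v) p q v =
        itp (vf x) p q v - (181 / 500 - (2 * ch x - mm x)) * v := by
      unfold itp
      split_ifs with hv
      · rcases p0.eq_or_lt with h1 | h1
        · have : v = 0 := le_antisymm (h1 ▸ hv) v0
          rw [this]
          simp
        · field_simp
      · push Not at hv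
        have hqp : q - p ≠ 0 := by linarith
        field_simp
        ring
    rw [e, show itp (vf x) p q v - (181 / 500 - (2 * ch x - mm x)) * v -
      (vf x v - (181 / 500 - (2 * ch x - mm x)) * v) = itp (vf x) p q v - vf x v by ring] at k
    refine k.trans ?_
    have : 0 ≤ v * (q - v) := mul_nonneg v0 hqv
    have : 0 ≤ q * (q - v) := mul_nonneg q0.le hqv
    nlinarith
  · rcases le_total (3 / 2) v with h3 | h3
    · have k := itp_bd (q := q) (p := p) (fun u w hu hw _ => vf_sl hx hs u w hu hw) vf_zero p0 pq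
        v0 vq
      refine k.trans ?_
      have e : 7 / 20 * (q ^ 2 - v ^ 2) = 7 / 20 * (q + v) * (q - v) := by ring
      rw [e]
      exact mul_le_mul_of_nonneg_right (by linarith) hqv
    · obtain ⟨a, b⟩ := vf_rg hx hs v0
      obtain ⟨a1, b1⟩ := vf_rg hx hs p0
      obtain ⟨a2, b2⟩ := vf_rg hx hs q0.le
      have key : -(1 / 50) ≤ itp (vf x) p q v ∧ itp (vf x) p q v ≤ 39 / 100 := by
        unfold itp
        split_ifs with hv
        · have t0 : 0 ≤ v / p := div_nonneg v0 p0
          have t1 : v / p ≤ 1 := by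
            rcases p0.eq_or_lt with h1 | h1
            · rw [← h1, div_zero]
              exact zero_le_one
            · rw [div_le_one h1]
              exact hv
          have := pl_between (y0 := 0) (y1 := vf x p) t0 t1 (by norm_num : -(1 / 50) ≤ (0 : ℝ)) a1
            (by norm_num : (0 : ℝ) ≤ 39 / 100) b1
          simpa using this
        · push Not at hv
          have hqp : 0 < q - p := by linarith
          exact pl_between (div_nonneg (by linarith) hqp.le)
            ((div_le_one hqp).2 (by linarith)) a1 a2 b1 b2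
      have h4 : v ^ 2 ≤ 9 / 4 := by nlinarith
      have h5 : 4 ≤ q ^ 2 := by nlinarith
      rw [abs_le]
      constructor <;> linarith [key.1, key.2]

end

end Pool.Agent.Strip051.LC.E0
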